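import Pool.Agent.K9h14.P6

set_option autoImplicit false
set_option linter.unusedVariables false
set_option linter.unusedSectionVars false

/-!
# Algebraic dependence of quotients of theta functions
-/

open Filter Finsupp
open scoped Topology

noncomputable section

namespace Pool.Agent.K9h14

open Pool.Agent.W245.EB Pool.Agent.Y102

/-- a polynomial expression in quotients -/
def pe {σ I : Type} [Fintype σ] [Fintype I] [DecidableEq I] {D : ℕ} (N : I → Ent σ) (T0 : Ent σ)
    (ξ : (I → Fin (D + 1)) → ℂ) : Ent σ :=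
  ∑ lam : I → Fin (D + 1), ξ lam • ∏ i, ((N i) ^ (lam i : ℕ) * T0 ^ (D - lam i))

theorem pe_apply {σ I : Type} [Fintype σ] [Fintype I] [DecidableEq I] {D : ℕ} (N : I → Ent σ) (T0 : Ent σ)
    (ξ : (I → Fin (D + 1)) → ℂ) (x : σ → ℂ) : (pe N T0 ξ).1 x =
    ∑ lam : I → Fin (D + 1), ξ lam * ∏ i, (((N i).1 x) ^ (lam i : ℕ) * (T0.1 x) ^ (D - lam i)) := by
  unfold pe
  rw [TD.DP.ent_sum_apply]
  refine Finset.sum_congr rfl fun lam _ => ?_
  change _ * (∏ i, ((N i) ^ (lam i : ℕ) * T0 ^ (D - lam i)) : Ent σ).1 x = _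
  rw [TD.DP.ent_prod_apply]
  rfl

theorem pe_eq {σ I : Type} [Fintype σ] [Fintype I] [DecidableEq I] {D : ℕ} (N : I → Ent σ) (T0 : Ent σ)
    (ξ : (I → Fin (D + 1)) → ℂ) {x : σ → ℂ} (hx : T0.1 x ≠ 0) : (pe N T0 ξ).1 x =
    (T0.1 x) ^ (Fintype.card I * D) *
      ∑ lam : I → Fin (D + 1), ξ lam * ∏ i, ((N i).1 x / T0.1 x) ^ (lam i : ℕ) := by
  rw [pe_apply, Finset.mul_sum]
  refine Finset.sum_congr rfl fun lam _ => ?_
  rw [mul_left_comm]
  congr 1
  have h1 : (T0.1 x) ^ (Fintype.card I * D) = ∏ _i : I, (T0.1 x) ^ D := by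
    rw [Finset.prod_const, Finset.card_univ, ← pow_mul, mul_comm]
  rw [h1, ← Finset.prod_mul_distrib]
  refine Finset.prod_congr rfl fun i _ => ?_
  have h2 : T0.1 x ^ D = T0.1 x ^ (D - (lam i : ℕ)) * T0.1 x ^ (lam i : ℕ) := by
    rw [← pow_add, Nat.sub_add_cancel (Nat.lt_succ_iff.1 (lam i).2)]
  rw [h2, div_pow]
  have h3 : T0.1 x ^ (lam i : ℕ) ≠ 0 := pow_ne_zero _ hx
  field_simp

variable {g : ℕ}

theorem inc_injective : Function.Injective (inc : Ent (Fin g) → Ent (Og g)) := by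
  intro F G h
  apply Subtype.ext
  funext z
  have h1 : (inc F).1 (up z) = (inc G).1 (up z) := by rw [h]
  rwa [inc_apply, inc_apply, cz_up] at h1

theorem coeff_inc_none (F : Ent (Fin g)) {β : Og g →₀ ℕ} (hβ : β none ≠ 0) :
    MvPowerSeries.coeff β (tay 0 (inc F)) = 0 := by
  have h1 : MvPowerSeries.pderiv ℂ none (tay 0 (inc F)) = 0 := by
    rw [pd_tay]
    change tay 0 (dU (inc F)) = 0
    rw [dU_inc, map_zero]
  have hs : single none 1 ≤ β := by
    rw [Finsupp.single_le_iff]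
    omega
  have h2 := congrArg (MvPowerSeries.coeff (β - single none 1)) h1
  rw [MvPowerSeries.coeff_pderiv, tsub_add_cancel_of_le hs, map_zero] at h2
  rcases mul_eq_zero.1 h2 with h3 | h3
  · exact h3
  · exact absurd h3 (Nat.cast_add_one_ne_zero _)

/-- **algebraic dependence** -/
theorem alg_dep (d : ZD g) (N : Option (Fin g) → Ent (Fin g)) (hN : ∀ i, inc (N i) ∈ d.GG 1) :
    ∃ D : ℕ, ∃ ξ : (Option (Fin g) → Fin (D + 1)) → ℂ, ξ ≠ 0 ∧ pe N d.θ0 ξ = 0 := by
  classical
  obtain ⟨c0, hc0, hmult⟩ := exists_mult d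
  obtain ⟨D, hD⟩ : ∃ D, D = (c0 * (g + 1) + 1) ^ g := ⟨_, rfl⟩
  obtain ⟨K, hK⟩ : ∃ K, K = c0 * ((g + 1) * D) := ⟨_, rfl⟩
  refine ⟨D, ?_⟩
  let Λ : ((Option (Fin g) → Fin (D + 1)) → ℂ) →ₗ[ℂ] (Fq (Fin g) (K + 1) → ℂ) :=
    { toFun := fun ξ β => MvPowerSeries.coeff (β.1.embDomain Function.Embedding.some)
        (tay 0 (inc (pe N d.θ0 ξ)))
      map_add' := by
        intro ξ ξ'
        have h1 : pe N d.θ0 (ξ + ξ') = pe N d.θ0 ξ + pe N d.θ0 ξ' := by
          unfold pe
          rw [← Finset.sum_add_distrib]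
          exact Finset.sum_congr rfl fun lam _ => by rw [Pi.add_apply, add_smul]
        funext β
        rw [h1, map_add, map_add, map_add]
        rfl
      map_smul' := by
        intro c ξ
        have h1 : pe N d.θ0 (c • ξ) = c • pe N d.θ0 ξ := by
          unfold pe
          rw [Finset.smul_sum]
          exact Finset.sum_congr rfl fun lam _ => by
            rw [Pi.smul_apply, smul_eq_mul, mul_smul]
        funext β
        rw [h1, map_smul, map_smul]
        rfl }
  have hrank : Module.finrank ℂ (Fq (Fin g) (K + 1) → ℂ) <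
      Module.finrank ℂ ((Option (Fin g) → Fin (D + 1)) → ℂ) := by
    rw [Module.finrank_fintype_fun_eq_card, Module.finrank_fintype_fun_eq_card,
      Fintype.card_coe, Fintype.card_fun, Fintype.card_option, Fintype.card_fin, Fintype.card_fin]
    refine (card_Fq _ _).trans_lt ?_
    rw [Fintype.card_fin]
    have h1 : K + 1 ≤ (c0 * (g + 1) + 1) * (D + 1) := by
      rw [hK]
      ring_nf
      omega
    calc (K + 1) ^ g ≤ ((c0 * (g + 1) + 1) * (D + 1)) ^ g := Nat.pow_le_pow_left h1 g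
      _ = D * (D + 1) ^ g := by rw [mul_pow, ← hD]
      _ < (D + 1) * (D + 1) ^ g := by
          apply Nat.mul_lt_mul_of_pos_right (Nat.lt_succ_self _)
          positivity
      _ = (D + 1) ^ (g + 1) := by rw [pow_succ, mul_comm]
  obtain ⟨ξ, hξ, hξ0⟩ := (Submodule.ne_bot_iff _).1 (LinearMap.ker_ne_bot_of_finrank_lt hrank
    (f := Λ))
  refine ⟨ξ, hξ0, ?_⟩
  apply inc_injective
  rw [map_zero]
  have hG : inc (pe N d.θ0 ξ) ∈ d.GG ((g + 1) * D) := by
    unfold pe
    rw [map_sum]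
    refine Submodule.sum_mem _ fun lam _ => ?_
    rw [map_smul]
    refine Submodule.smul_mem _ _ ?_
    rw [map_prod]
    have h1 := TD.DP.prod_GG (d := d) (n := D) (Finset.univ : Finset (Option (Fin g)))
      (F := fun i => inc ((N i) ^ (lam i : ℕ) * d.θ0 ^ (D - lam i))) (by
        intro i _
        rw [map_mul, map_pow, map_pow]
        have h2 := ZD.pow_GG (hN i) (lam i : ℕ)
        have h3 := ZD.mul_GG h2 (Pts.pow_T0 (d := d) (D - lam i))
        rw [one_mul, Nat.add_sub_cancel' (Nat.lt_succ_iff.1 (lam i).2)] at h3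
        exact h3)
    rwa [Finset.card_univ, Fintype.card_option, Fintype.card_fin] at h1
  refine hmult _ _ hG fun β hβ => ?_
  by_cases hβ0 : β none = 0
  · have h1 : (β.some).embDomain Function.Embedding.some = β := by
      ext o
      rcases o with _ | i
      · rw [hβ0, Finsupp.embDomain_of_notMem_range]
        rintro ⟨a, ha⟩
        exact absurd ha (by simp)
      · exact Finsupp.embDomain_apply_self _ _ _
    have h2 : β.some ∈ Fq (Fin g) (K + 1) := by
      rw [mem_Fq]
      have h3 : β.some.degree ≤ β.degree := by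
        rw [Finsupp.degree_eq_sum, Finsupp.degree_eq_sum, Fintype.sum_option]
        exact Nat.le_add_left _ _
      omega
    have h3 := congrFun hξ ⟨β.some, h2⟩
    change MvPowerSeries.coeff ((β.some).embDomain Function.Embedding.some)
      (tay 0 (inc (pe N d.θ0 ξ))) = 0 at h3
    rwa [h1] at h3
  · exact coeff_inc_none _ hβ0

end Pool.Agent.K9h14
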