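import Pool.Agent.K9h14.A1

set_option autoImplicit false
set_option linter.unusedVariables false
set_option linter.unusedSectionVars false

/-!
# Power series with algebraic coefficients
-/

open MvPowerSeries Finsupp

noncomputable section

namespace Pool.Agent.K9h14

/-- the algebraic numbers -/
abbrev QB : IntermediateField ℚ ℂ := algebraicClosure ℚ ℂ

theorem mem_QB {x : ℂ} : x ∈ QB ↔ IsAlgebraic ℚ x := mem_algebraicClosure_iff

theorem isAlg_sum {ι : Type*} (s : Finset ι) {f : ι → ℂ} (h : ∀ i ∈ s, IsAlgebraic ℚ (f i)) :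
    IsAlgebraic ℚ (∑ i ∈ s, f i) := by
  rw [← mem_QB]
  exact sum_mem fun i hi => mem_QB.2 (h i hi)

theorem isAlg_prod {ι : Type*} (s : Finset ι) {f : ι → ℂ} (h : ∀ i ∈ s, IsAlgebraic ℚ (f i)) :
    IsAlgebraic ℚ (∏ i ∈ s, f i) := by
  rw [← mem_QB]
  exact prod_mem fun i hi => mem_QB.2 (h i hi)

theorem isAlg_natCast (n : ℕ) : IsAlgebraic ℚ (n : ℂ) := isAlgebraic_natCast n

/-- a functional with values in the algebraic numbers -/
theorem exists_fun {x0 : ℂ} (hx0 : x0 ≠ 0) : ∃ lam : ℂ →ₗ[ℚ] ℂ, lam x0 ≠ 0 ∧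
    (∀ x, IsAlgebraic ℚ (lam x)) ∧ ∀ a x, IsAlgebraic ℚ a → lam (a * x) = a * lam x := by
  have h1 : ¬ ∀ φ : Module.Dual QB ℂ, φ x0 = 0 := by
    rw [Module.forall_dual_apply_eq_zero_iff]
    exact hx0
  push Not at h1
  obtain ⟨φ, hφ⟩ := h1
  refine ⟨(QB.val.toLinearMap) ∘ₗ (φ.restrictScalars ℚ), ?_, ?_, ?_⟩
  · change ((φ x0 : QB) : ℂ) ≠ 0
    intro h
    exact hφ (by exact_mod_cast h)
  · intro x
    exact mem_QB.1 (φ x).2
  · intro a x ha
    change ((φ (a * x) : QB) : ℂ) = a * ((φ x : QB) : ℂ)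
    have h2 : a * x = (⟨a, mem_QB.2 ha⟩ : QB) • x := rfl
    rw [h2, map_smul]
    rfl

variable {σ : Type} [Fintype σ] [DecidableEq σ]

/-- power series with algebraic coefficients -/
def SA (σ : Type) [Fintype σ] [DecidableEq σ] : Subring (OO σ) where
  carrier := {f | ∀ β, IsAlgebraic ℚ (coeff β f)}
  zero_mem' := fun β => by rw [map_zero]; exact isAlgebraic_zero
  one_mem' := fun β => by
    rw [coeff_one]
    split_ifs
    · exact isAlgebraic_one
    · exact isAlgebraic_zero
  add_mem' := fun ha hb β => by rw [map_add]; exact (ha β).add (hb β)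
  neg_mem' := fun ha β => by rw [map_neg]; exact (ha β).neg
  mul_mem' := fun ha hb β => by
    rw [coeff_mul]
    exact isAlg_sum _ fun p _ => (ha _).mul (hb _)

theorem mem_SA {f : OO σ} : f ∈ SA σ ↔ ∀ β, IsAlgebraic ℚ (coeff β f) := Iff.rfl

theorem C_mem_SA {c : ℂ} (hc : IsAlgebraic ℚ c) : (C c : OO σ) ∈ SA σ := by
  intro β
  rw [coeff_C]
  split_ifs
  · exact hc
  · exact isAlgebraic_zero

theorem pd_mem_SA (i : σ) {f : OO σ} (hf : f ∈ SA σ) : pderiv ℂ i f ∈ SA σ := by
  intro β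
  rw [coeff_pderiv]
  exact (hf _).mul ((isAlg_natCast _).add isAlgebraic_one)

/-- a functional applied to the coefficients -/
def mapC (lam : ℂ →ₗ[ℚ] ℂ) : OO σ →+ OO σ where
  toFun := fun f β => lam (coeff β f)
  map_zero' := by
    funext β
    change lam (coeff β (0 : OO σ)) = 0
    rw [map_zero, map_zero]
  map_add' := by
    intro f h
    funext β
    change lam (coeff β (f + h)) = lam (coeff β f) + lam (coeff β h)
    rw [map_add, map_add]

theorem coeff_mapC (lam : ℂ →ₗ[ℚ] ℂ) (f : OO σ) (β : σ →₀ ℕ) :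
    coeff β (mapC lam f) = lam (coeff β f) := rfl

theorem mapC_C_mul {lam : ℂ →ₗ[ℚ] ℂ} (hlam : ∀ a x, IsAlgebraic ℚ a → lam (a * x) = a * lam x)
    (c : ℂ) {f : OO σ} (hf : f ∈ SA σ) : mapC lam (C c * f) = C (lam c) * f := by
  ext β
  rw [coeff_mapC, coeff_C_mul, coeff_C_mul, mul_comm, hlam _ _ (hf β), mul_comm]

/-- the lowest coefficients -/
theorem exists_low {n : ℕ} {a : ℕ → OO σ} (hne : ∃ j ∈ Finset.range n, a j ≠ 0) :
    ∃ m : σ →₀ ℕ, (∃ j ∈ Finset.range n, coeff m (a j) ≠ 0) ∧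
      ∀ m' : σ →₀ ℕ, m'.degree < m.degree → ∀ j ∈ Finset.range n, coeff m' (a j) = 0 := by
  classical
  have h1 : ∃ d : ℕ, ∃ m : σ →₀ ℕ, m.degree = d ∧ ∃ j ∈ Finset.range n, coeff m (a j) ≠ 0 := by
    obtain ⟨j, hj, hne⟩ := hne
    obtain ⟨m, hm⟩ : ∃ m, coeff m (a j) ≠ 0 := by
      by_contra hcon
      push Not at hcon
      exact hne (MvPowerSeries.ext fun m => by rw [hcon m, map_zero])
    exact ⟨_, m, rfl, j, hj, hm⟩
  obtain ⟨m, hm, hj⟩ := Nat.find_spec h1
  refine ⟨m, hj, fun m' hm' j hj' => ?_⟩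
  by_contra hne'
  rw [hm] at hm'
  exact Nat.find_min h1 hm' ⟨m', rfl, j, hj', hne'⟩

/-- **algebraicity of the constant coefficient** -/
theorem alg_const {n : ℕ} {a : ℕ → OO σ} (ha : ∀ j ∈ Finset.range n, a j ∈ SA σ)
    (hne : ∃ j ∈ Finset.range n, a j ≠ 0) {f : OO σ} (h : ∑ j ∈ Finset.range n, a j * f ^ j = 0) :
    IsAlgebraic ℚ (constantCoeff f) := by
  classical
  obtain ⟨m, ⟨j0, hj0, hj0ne⟩, hm⟩ := exists_low hne
  have h1 := congrArg (coeff m) h
  rw [map_sum, map_zero] at h1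
  have h2 : ∀ j ∈ Finset.range n, coeff m (a j * f ^ j) = coeff m (a j) * (constantCoeff f) ^ j := by
    intro j hj
    rw [coeff_mul, Finset.sum_eq_single (m, 0)]
    · rw [coeff_zero_eq_constantCoeff_apply, map_pow]
    · rintro ⟨p, q⟩ hpq hne'
      rw [Finset.HasAntidiagonal.mem_antidiagonal] at hpq
      have hq : q ≠ 0 := by
        rintro rfl
        apply hne'
        rw [add_zero] at hpq
        exact Prod.ext hpq rfl
      rw [hm p ?_ j hj, zero_mul]
      have h3 := congrArg Finsupp.degree hpq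
      change (p + q).degree = m.degree at h3
      rw [map_add] at h3
      have h4 : q.degree ≠ 0 := by rwa [Ne, Finsupp.degree_eq_zero_iff]
      omega
    · intro h3
      exact absurd (Finset.HasAntidiagonal.mem_antidiagonal.2 (add_zero m)) h3
  rw [Finset.sum_congr rfl h2] at h1
  -- the polynomial
  have halg : ∀ j ∈ Finset.range n, coeff m (a j) ∈ QB := fun j hj => mem_QB.2 (ha j hj m)
  let P : Polynomial QB := ∑ j ∈ (Finset.range n).attach,
    Polynomial.C (⟨coeff m (a j.1), halg j.1 j.2⟩ : QB) * Polynomial.X ^ j.1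
  have hP : Polynomial.aeval (constantCoeff f) P = 0 := by
    rw [map_sum]
    have h3 : ∀ j ∈ (Finset.range n).attach, Polynomial.aeval (constantCoeff f)
        (Polynomial.C (⟨coeff m (a j.1), halg j.1 j.2⟩ : QB) * Polynomial.X ^ j.1) =
        coeff m (a j.1) * (constantCoeff f) ^ j.1 := by
      intro j _
      rw [map_mul, Polynomial.aeval_C, map_pow, Polynomial.aeval_X]
      rfl
    rw [Finset.sum_congr rfl h3, Finset.sum_attach (Finset.range n)
      (fun j => coeff m (a j) * (constantCoeff f) ^ j), h1]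
  have hP0 : P ≠ 0 := by
    intro h3
    have h4 := congrArg (fun p => Polynomial.coeff p j0) h3
    simp only [P, Polynomial.finsetSum_coeff, Polynomial.coeff_C_mul, Polynomial.coeff_X_pow,
      Polynomial.coeff_zero] at h4
    rw [Finset.sum_eq_single (⟨j0, hj0⟩ : {x // x ∈ Finset.range n})] at h4
    · rw [if_pos rfl, mul_one] at h4
      exact hj0ne (congrArg (fun x : QB => (x : ℂ)) h4)
    · rintro ⟨j, hj⟩ _ hne'
      have h5 : j0 ≠ j := fun h => hne' (Subtype.ext h.symm)
      simp only [if_neg h5, mul_zero]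
    · intro h5
      exact absurd (Finset.mem_attach _ _) h5
  haveI : Algebra.IsAlgebraic ℚ QB := algebraicClosure.isAlgebraic ℚ ℂ
  exact IsAlgebraic.restrictScalars ℚ (⟨P, hP0, hP⟩ : IsAlgebraic QB (constantCoeff f))

/-- reformulation -/
theorem alg_const' {f : OO σ} (h : IsAlgebraic (SA σ) f) : IsAlgebraic ℚ (constantCoeff f) := by
  obtain ⟨p, hp0, hp⟩ := h
  rw [Polynomial.aeval_eq_sum_range] at hp
  refine alg_const (n := p.natDegree + 1) (a := fun j => (p.coeff j : OO σ))
    (fun j _ => (p.coeff j).2) ⟨p.natDegree, Finset.self_mem_range_succ _, ?_⟩ hp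
  intro h
  apply hp0
  rw [← Polynomial.leadingCoeff_eq_zero]
  exact Subtype.ext h

theorem exists_der (f : OO σ) (i : σ) (p : Polynomial (SA σ)) : ∃ p' : Polynomial (SA σ),
    pderiv ℂ i (Polynomial.aeval f p) = Polynomial.aeval f p' +
      Polynomial.aeval f (Polynomial.derivative p) * pderiv ℂ i f := by
  induction p using Polynomial.induction_on' with
  | add p q hp hq =>
    obtain ⟨p', hp'⟩ := hp
    obtain ⟨q', hq'⟩ := hq
    refine ⟨p' + q', ?_⟩
    rw [map_add, map_add, hp', hq', map_add, Polynomial.derivative_add, map_add]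
    ring
  | monomial n a =>
    refine ⟨Polynomial.monomial n (⟨pderiv ℂ i (a : OO σ), pd_mem_SA i a.2⟩ : SA σ), ?_⟩
    rw [Polynomial.aeval_monomial, Polynomial.aeval_monomial, Polynomial.derivative_monomial,
      Polynomial.aeval_monomial]
    have h1 : (algebraMap (SA σ) (OO σ)) a = (a : OO σ) := rfl
    have h2 : (algebraMap (SA σ) (OO σ)) (⟨pderiv ℂ i (a : OO σ), pd_mem_SA i a.2⟩ : SA σ) =
      pderiv ℂ i (a : OO σ) := rfl
    have h3 : (algebraMap (SA σ) (OO σ)) (a * (n : SA σ)) = (a : OO σ) * (n : OO σ) := by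
      rw [map_mul, map_natCast]
      rfl
    rw [h1, h2, h3, Derivation.leibniz, Derivation.leibniz_pow, smul_eq_mul, smul_eq_mul,
      nsmul_eq_mul, smul_eq_mul]
    ring

theorem isAlg_aeval {f : OO σ} (h : IsAlgebraic (SA σ) f) (q : Polynomial (SA σ)) :
    IsAlgebraic (SA σ) (Polynomial.aeval f q) := by
  induction q using Polynomial.induction_on' with
  | add p q hp hq => rw [map_add]; exact hp.add hq
  | monomial n a =>
    rw [Polynomial.aeval_monomial]
    exact (isAlgebraic_algebraMap a).mul (h.pow n)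

/-- **the derivatives of an algebraic series are algebraic** -/
theorem alg_pd {f : OO σ} (h : IsAlgebraic (SA σ) f) (i : σ) :
    IsAlgebraic (SA σ) (pderiv ℂ i f) := by
  classical
  have h1 : ∃ n : ℕ, ∃ p : Polynomial (SA σ), p.natDegree = n ∧ p ≠ 0 ∧
      Polynomial.aeval f p = 0 := by
    obtain ⟨p, hp0, hp⟩ := h
    exact ⟨_, p, rfl, hp0, hp⟩
  obtain ⟨p, hpn, hp0, hp⟩ := Nat.find_spec h1
  have hmin : ∀ q : Polynomial (SA σ), q.natDegree < p.natDegree → q ≠ 0 →
      Polynomial.aeval f q ≠ 0 := by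
    intro q hq hq0 hq1
    rw [hpn] at hq
    exact Nat.find_min h1 hq ⟨q, rfl, hq0, hq1⟩
  have hdeg : p.natDegree ≠ 0 := by
    intro h0
    rw [Polynomial.eq_C_of_natDegree_eq_zero h0, Polynomial.aeval_C] at hp
    apply hp0
    rw [Polynomial.eq_C_of_natDegree_eq_zero h0]
    have h2 : p.coeff 0 = 0 := Subtype.ext hp
    rw [h2, map_zero]
  have hder : Polynomial.aeval f (Polynomial.derivative p) ≠ 0 := by
    apply hmin _ (Polynomial.natDegree_derivative_lt hdeg)
    intro h2
    apply hdeg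
    haveI : CharZero (SA σ) := by
      refine ⟨fun m n hmn => ?_⟩
      have h3 := congrArg (fun x : SA σ => constantCoeff (x : OO σ)) hmn
      simp only [Subring.coe_natCast, map_natCast] at h3
      exact_mod_cast h3
    exact Polynomial.derivative_eq_zero.1 h2
  -- the derivatives of the coefficients
  obtain ⟨p', hp'⟩ := exists_der f i p
  have hkey : Polynomial.aeval f p' +
      Polynomial.aeval f (Polynomial.derivative p) * pderiv ℂ i f = 0 := by
    rw [← hp', hp, map_zero]
  have h2 : IsAlgebraic (SA σ) (Polynomial.aeval f (Polynomial.derivative p) * pderiv ℂ i f) := by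
    have h3 : Polynomial.aeval f (Polynomial.derivative p) * pderiv ℂ i f =
        -Polynomial.aeval f p' := by linear_combination hkey
    rw [h3]
    exact (isAlg_aeval h p').neg
  exact IsAlgebraic.of_mul (mem_nonZeroDivisors_of_ne_zero hder) (isAlg_aeval h _) h2

end Pool.Agent.K9h14
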