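import Pool.Agent.K9h14.A2

set_option autoImplicit false
set_option linter.unusedVariables false
set_option linter.unusedSectionVars false

/-!
# Algebraic relations with algebraic coefficients
-/

open MvPowerSeries Finsupp Filter
open scoped Topology

noncomputable section

namespace Pool.Agent.K9h14

open Pool.Agent.W245.EB Pool.Agent.Y102

section gen

variable {σ : Type} [Fintype σ] [DecidableEq σ] {I : Type} [Fintype I] [DecidableEq I] {D : ℕ}

/-- the Taylor series of a quotient -/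
def xs (T0 F : Ent σ) (p : σ → ℂ) : OO σ := tay p F * (tay p T0)⁻¹

theorem tay_inv {T0 : Ent σ} {p : σ → ℂ} (hp : T0.1 p ≠ 0) : tay p T0 * (tay p T0)⁻¹ = 1 := by
  apply MvPowerSeries.mul_inv_cancel
  rw [constantCoeff_tay]
  exact hp

theorem xs_mul {T0 : Ent σ} {p : σ → ℂ} (hp : T0.1 p ≠ 0) (F : Ent σ) :
    tay p T0 * xs T0 F p = tay p F := by
  unfold xs
  rw [mul_left_comm, tay_inv hp, mul_one]

theorem constantCoeff_xs (T0 F : Ent σ) (p : σ → ℂ) :
    constantCoeff (xs T0 F p) = F.1 p / T0.1 p := by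
  unfold xs
  rw [map_mul, constantCoeff_inv, constantCoeff_tay, constantCoeff_tay, div_eq_mul_inv]

theorem xs_eq_of {T0 F T0' F' : Ent σ} {p p' : σ → ℂ} (hp : T0.1 p ≠ 0) (hp' : T0'.1 p' ≠ 0)
    (h : tay p F * tay p' T0' = tay p' F' * tay p T0) : xs T0 F p = xs T0' F' p' := by
  unfold xs
  have h1 := tay_inv hp
  have h2 := tay_inv hp'
  calc tay p F * (tay p T0)⁻¹ = (tay p F * tay p' T0') * ((tay p T0)⁻¹ * (tay p' T0')⁻¹) := by
        linear_combination (-(tay p F * (tay p T0)⁻¹)) * h2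
    _ = (tay p' F' * tay p T0) * ((tay p T0)⁻¹ * (tay p' T0')⁻¹) := by rw [h]
    _ = tay p' F' * (tay p' T0')⁻¹ := by
        linear_combination (tay p' F' * (tay p' T0')⁻¹) * h1

/-- a polynomial expression in power series -/
def rs (X : I → OO σ) (ξ : (I → Fin (D + 1)) → ℂ) : OO σ :=
  ∑ lam : I → Fin (D + 1), C (ξ lam) * ∏ i, (X i) ^ (lam i : ℕ)

theorem tay_pe (N : I → Ent σ) (T0 : Ent σ) (ξ : (I → Fin (D + 1)) → ℂ) {p : σ → ℂ}
    (hp : T0.1 p ≠ 0) : tay p (pe N T0 ξ) =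
      (tay p T0) ^ (Fintype.card I * D) * rs (fun i => xs T0 (N i) p) ξ := by
  unfold pe rs
  rw [map_sum, Finset.mul_sum]
  refine Finset.sum_congr rfl fun lam _ => ?_
  rw [map_smul, map_prod, MvPowerSeries.smul_eq_C_mul, mul_left_comm]
  congr 1
  have h1 : (tay p T0) ^ (Fintype.card I * D) = ∏ _i : I, (tay p T0) ^ D := by
    rw [Finset.prod_const, Finset.card_univ, ← pow_mul, mul_comm]
  rw [h1, ← Finset.prod_mul_distrib]
  refine Finset.prod_congr rfl fun i _ => ?_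
  have h2 : (tay p T0) ^ D = (tay p T0) ^ (D - (lam i : ℕ)) * (tay p T0) ^ (lam i : ℕ) := by
    rw [← pow_add, Nat.sub_add_cancel (Nat.lt_succ_iff.1 (lam i).2)]
  rw [map_mul, map_pow, map_pow, h2, mul_assoc, ← mul_pow, xs_mul hp, mul_comm]

theorem tay_ne_zero {T0 : Ent σ} {p : σ → ℂ} (hp : T0.1 p ≠ 0) : tay p T0 ≠ 0 := by
  intro h
  have h1 := tay_inv hp
  rw [h, zero_mul] at h1
  exact zero_ne_one h1

theorem pe_zero_iff (N : I → Ent σ) (T0 : Ent σ) (ξ : (I → Fin (D + 1)) → ℂ) {p : σ → ℂ}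
    (hp : T0.1 p ≠ 0) : pe N T0 ξ = 0 ↔ rs (fun i => xs T0 (N i) p) ξ = 0 := by
  constructor
  · intro h
    have h1 := tay_pe N T0 ξ hp
    rw [h, map_zero] at h1
    exact (mul_eq_zero.1 h1.symm).resolve_left (pow_ne_zero _ (tay_ne_zero hp))
  · intro h
    have h1 := tay_pe N T0 ξ hp
    rw [h, mul_zero] at h1
    exact tay_injective h1

theorem rs_mem_SA {X : I → OO σ} (hX : ∀ i, X i ∈ SA σ) {ξ : (I → Fin (D + 1)) → ℂ}
    (hξ : ∀ lam, IsAlgebraic ℚ (ξ lam)) : rs X ξ ∈ SA σ :=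
  sum_mem fun lam _ => mul_mem (C_mem_SA (hξ lam)) (prod_mem fun i _ => pow_mem (hX i) _)

theorem mapC_rs {lam : ℂ →ₗ[ℚ] ℂ} (hlam : ∀ a x, IsAlgebraic ℚ a → lam (a * x) = a * lam x)
    {X : I → OO σ} (hX : ∀ i, X i ∈ SA σ) (ξ : (I → Fin (D + 1)) → ℂ) :
    mapC lam (rs X ξ) = rs X (fun m => lam (ξ m)) := by
  unfold rs
  rw [map_sum]
  exact Finset.sum_congr rfl fun m _ =>
    mapC_C_mul hlam _ (prod_mem fun i _ => pow_mem (hX i) _)

/-- the coefficients with respect to the first variable -/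
def sl {I : Type} {D : ℕ} (ξ : (Option I → Fin (D + 1)) → ℂ) (j : Fin (D + 1))
    (μ : I → Fin (D + 1)) : ℂ := ξ (fun o => o.elim j μ)

theorem rs_split (X : Option I → OO σ) (ξ : (Option I → Fin (D + 1)) → ℂ) :
    rs X ξ = ∑ j : Fin (D + 1), rs (fun i => X (some i)) (sl ξ j) * X none ^ (j : ℕ) := by
  unfold rs
  let e : (Option I → Fin (D + 1)) ≃ Fin (D + 1) × (I → Fin (D + 1)) :=
    { toFun := fun f => (f none, fun i => f (some i))
      invFun := fun p o => o.elim p.1 p.2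
      left_inv := fun f => by
        funext o
        rcases o with _ | i <;> rfl
      right_inv := fun p => rfl }
  rw [← Equiv.sum_comp e.symm, Fintype.sum_prod_type]
  refine Finset.sum_congr rfl fun j _ => ?_
  rw [Finset.sum_mul]
  refine Finset.sum_congr rfl fun μ _ => ?_
  rw [Fintype.prod_option]
  change C (ξ (fun o => o.elim j μ)) * (X none ^ (j : ℕ) * ∏ i : I, X (some i) ^ ((μ i : Fin (D + 1)) : ℕ)) = _
  unfold sl
  ring

theorem sl_ne {ξ : (Option I → Fin (D + 1)) → ℂ} (hξ : ξ ≠ 0) : ∃ j, sl ξ j ≠ 0 := by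
  obtain ⟨lam, hlam⟩ := Function.ne_iff.1 hξ
  refine ⟨lam none, Function.ne_iff.2 ⟨fun i => lam (some i), ?_⟩⟩
  unfold sl
  have h1 : (fun o : Option I => o.elim (lam none) (fun i => lam (some i))) = lam := by
    funext o
    rcases o with _ | i <;> rfl
  rw [h1]
  exact hlam

end gen

theorem fderiv_quot_eq {σ : Type} [Fintype σ] [DecidableEq σ] {T0 : Ent σ} {p : σ → ℂ}
    (hp : T0.1 p ≠ 0) (F : Ent σ) (v : σ → ℂ) :
    fderiv ℂ (fun x => F.1 x / T0.1 x) p v =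
      (T0.1 p * D v F.1 p - F.1 p * D v T0.1 p) / (T0.1 p) ^ 2 := by
  have h2 : (fun x => F.1 x / T0.1 x) = fun x => F.1 x * (T0.1 x)⁻¹ := by
    funext x
    rw [div_eq_mul_inv]
  have h3 : HasFDerivAt (fun x => (T0.1 x)⁻¹) (-((T0.1 p) ^ 2)⁻¹ • fderiv ℂ T0.1 p) p :=
    (hasDerivAt_inv hp).comp_hasFDerivAt p (ediff T0 p).hasFDerivAt
  have h4 : HasFDerivAt (fun x => F.1 x * (T0.1 x)⁻¹) _ p := (ediff F p).hasFDerivAt.mul h3
  rw [h2, h4.fderiv]
  change F.1 p * (-((T0.1 p) ^ 2)⁻¹ * D v T0.1 p) + (T0.1 p)⁻¹ * D v F.1 p = _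
  field_simp
  ring

variable {g : ℕ} {M : ℕ}

/-- independence of quotients -/
theorem rs_ne_zero (T0 : Ent (Fin g)) (h0 : T0.1 0 ≠ 0) (N : Fin g → Ent (Fin g))
    (hJ : ∀ v, (∀ i, T0.1 0 * D v (N i).1 0 = (N i).1 0 * D v T0.1 0) → v = 0)
    (ξ : (Fin g → Fin (M + 1)) → ℂ) (hξ : ξ ≠ 0) :
    rs (fun i => xs T0 (N i) 0) ξ ≠ 0 := by
  classical
  intro hrs
  rw [← pe_zero_iff N T0 ξ h0] at hrs
  obtain ⟨lam0, hlam0⟩ := Function.ne_iff.1 hξ
  let P : MvPolynomial (Fin g) ℂ := ∑ lam : Fin g → Fin (M + 1),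
    MvPolynomial.monomial (Finsupp.equivFunOnFinite.symm fun i => (lam i : ℕ)) (ξ lam)
  have hPe : ∀ x : Fin g → ℂ, MvPolynomial.eval x P =
      ∑ lam : Fin g → Fin (M + 1), (ξ lam) * ∏ i, (x i) ^ (lam i : ℕ) := by
    intro x
    rw [map_sum]
    refine Finset.sum_congr rfl fun lam _ => ?_
    rw [MvPolynomial.eval_monomial, Finsupp.prod_fintype _ _ (fun _ => pow_zero _)]
    rfl
  have hP0 : P ≠ 0 := by
    intro h
    have h1 := congrArg (MvPolynomial.coeff (Finsupp.equivFunOnFinite.symm fun i => (lam0 i : ℕ))) h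
    rw [MvPolynomial.coeff_sum, MvPolynomial.coeff_zero, Finset.sum_eq_single lam0] at h1
    · rw [MvPolynomial.coeff_monomial, if_pos rfl] at h1
      exact hlam0 h1
    · intro lam' _ hne
      rw [MvPolynomial.coeff_monomial, if_neg]
      intro h2
      apply hne
      funext i
      have h3 := congrArg (fun f : Fin g →₀ ℕ => f i) h2
      simp only [Finsupp.equivFunOnFinite_symm_apply_apply] at h3
      exact Fin.ext h3
    · intro h2
      exact absurd (Finset.mem_univ _) h2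
  apply hP0
  have hcont : Continuous T0.1 := continuous_iff_continuousAt.2
    fun x => (T0.2 x trivial).continuousAt
  refine poly_zero_of_indep (E := Fin g → ℂ) (by simp) (fun i x => (N i).1 x / T0.1 x)
    (fun i => ((N i).2 0 trivial).div (T0.2 0 trivial) h0) ?_ P ?_
  · intro v hv
    apply hJ
    intro i
    have h1 := hv i
    rw [fderiv_quot_eq h0] at h1
    rcases div_eq_zero_iff.1 h1 with h2 | h2
    · exact sub_eq_zero.1 h2
    · exact absurd h2 (pow_ne_zero _ h0)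
  · filter_upwards [hcont.continuousAt.eventually_ne h0] with x hx
    rw [hPe]
    have h1 := pe_eq N T0 ξ hx
    rw [hrs] at h1
    change (0 : ℂ) = _ at h1
    exact (mul_eq_zero.1 h1.symm).resolve_left (pow_ne_zero _ hx)

/-- the conclusion from a relation with algebraic coefficients -/
theorem alg_of_rel {T0 : Ent (Fin g)} {N : Option (Fin g) → Ent (Fin g)}
    {ξ : (Option (Fin g) → Fin (M + 1)) → ℂ} (hξ : ∀ lam, IsAlgebraic ℚ (ξ lam))
    (hrel : pe N T0 ξ = 0) {j : Fin (M + 1)} (hj : pe (fun i => N (some i)) T0 (sl ξ j) ≠ 0)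
    {p : Fin g → ℂ} (hp : T0.1 p ≠ 0) (hSA : ∀ i, xs T0 (N (some i)) p ∈ SA (Fin g)) :
    IsAlgebraic (SA (Fin g)) (xs T0 (N none) p) := by
  rw [pe_zero_iff N T0 ξ hp, rs_split] at hrel
  have hmem : ∀ k : Fin (M + 1), rs (fun i => xs T0 (N (some i)) p) (sl ξ k) ∈ SA (Fin g) :=
    fun k => rs_mem_SA hSA fun μ => hξ _
  refine ⟨∑ k : Fin (M + 1), Polynomial.C (⟨_, hmem k⟩ : SA (Fin g)) * Polynomial.X ^ (k : ℕ),
    ?_, ?_⟩
  · intro h
    apply hj
    rw [pe_zero_iff _ T0 _ hp]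
    have h1 := congrArg (fun q => Polynomial.coeff q (j : ℕ)) h
    simp only [Polynomial.finsetSum_coeff, Polynomial.coeff_C_mul, Polynomial.coeff_X_pow,
      Polynomial.coeff_zero] at h1
    rw [Finset.sum_eq_single j] at h1
    · rw [if_pos rfl, mul_one] at h1
      exact congrArg Subtype.val h1
    · intro k _ hk
      rw [if_neg (fun h => hk (Fin.ext h).symm), mul_zero]
    · intro h2
      exact absurd (Finset.mem_univ _) h2
  · rw [map_sum, ← hrel]
    refine Finset.sum_congr rfl fun k _ => ?_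
    rw [map_mul, Polynomial.aeval_C, map_pow, Polynomial.aeval_X]
    rfl

/-- the situation of the two theorems -/
structure RD (g : ℕ) where
  d : ZD g
  N : Option (Fin g) → Ent (Fin g)
  GGN : ∀ i, inc (N i) ∈ d.GG 1
  hJ : ∀ v, (∀ i : Fin g, d.θ0.1 0 * D v (N (some i)).1 0 = (N (some i)).1 0 * D v d.θ0.1 0) → v = 0
  hSA : ∀ i, xs d.θ0 (N (some i)) 0 ∈ SA (Fin g)

namespace RD

variable (R : RD g)

/-- a relation, and a functional which preserves its nontriviality -/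
theorem exists_rel : ∃ (M : ℕ) (ξ : (Option (Fin g) → Fin (M + 1)) → ℂ) (lam : ℂ →ₗ[ℚ] ℂ)
    (j : Fin (M + 1)), pe R.N R.d.θ0 ξ = 0 ∧ (∀ x, IsAlgebraic ℚ (lam x)) ∧
    (∀ a x, IsAlgebraic ℚ a → lam (a * x) = a * lam x) ∧
    pe (fun i => R.N (some i)) R.d.θ0 (sl (fun m => lam (ξ m)) j) ≠ 0 := by
  obtain ⟨M, ξ, hξ, hrel⟩ := alg_dep R.d R.N R.GGN
  obtain ⟨j, hj⟩ := sl_ne hξ
  have h1 := rs_ne_zero R.d.θ0 R.d.one (fun i => R.N (some i)) R.hJ (sl ξ j) hj
  obtain ⟨β, hβ⟩ : ∃ β, coeff β (rs (fun i => xs R.d.θ0 (R.N (some i)) 0) (sl ξ j)) ≠ 0 := by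
    by_contra hcon
    push Not at hcon
    exact h1 (MvPowerSeries.ext fun m => by rw [hcon m, map_zero])
  obtain ⟨lam, hlam0, hlam1, hlam2⟩ := exists_fun hβ
  refine ⟨M, ξ, lam, j, hrel, hlam1, hlam2, ?_⟩
  intro h
  rw [pe_zero_iff _ _ _ R.d.one] at h
  apply hlam0
  rw [← coeff_mapC, mapC_rs hlam2 R.hSA]
  change coeff β (rs (fun i => xs R.d.θ0 (R.N (some i)) 0) (sl (fun m => lam (ξ m)) j)) = 0
  rw [h, map_zero]

/-- **first theorem**: when the first series has algebraic coefficients -/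
theorem alg_at (h : xs R.d.θ0 (R.N none) 0 ∈ SA (Fin g)) {p : Fin g → ℂ} (hp : R.d.θ0.1 p ≠ 0)
    (hSA : ∀ i, xs R.d.θ0 (R.N (some i)) p ∈ SA (Fin g)) :
    IsAlgebraic (SA (Fin g)) (xs R.d.θ0 (R.N none) p) := by
  obtain ⟨M, ξ, lam, j, hrel, hlam1, hlam2, hne⟩ := R.exists_rel
  refine alg_of_rel (fun m => hlam1 (ξ m)) ?_ hne hp hSA
  rw [pe_zero_iff _ _ _ R.d.one] at hrel ⊢
  have h1 : ∀ i, xs R.d.θ0 (R.N i) 0 ∈ SA (Fin g) := by
    intro i
    rcases i with _ | i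
    · exact h
    · exact R.hSA i
  rw [← mapC_rs hlam2 h1, hrel, map_zero]

/-- **second theorem**: when there are many algebraic values -/
theorem alg_zero {S : Set (Fin g → ℂ)} (hS : Dense S)
    (halg : ∀ p ∈ S, R.d.θ0.1 p ≠ 0 → ∀ i, IsAlgebraic ℚ ((R.N i).1 p / R.d.θ0.1 p)) :
    IsAlgebraic (SA (Fin g)) (xs R.d.θ0 (R.N none) 0) := by
  obtain ⟨M, ξ, lam, j, hrel, hlam1, hlam2, hne⟩ := R.exists_rel
  refine alg_of_rel (fun m => hlam1 (ξ m)) ?_ hne R.d.one R.hSA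
  have h1 : ∀ p ∈ S, ((pe R.N R.d.θ0 (fun m => lam (ξ m))) * R.d.θ0 : Ent (Fin g)).1 p = 0 := by
    intro p hpS
    change (pe R.N R.d.θ0 (fun m => lam (ξ m))).1 p * R.d.θ0.1 p = 0
    by_cases hp : R.d.θ0.1 p = 0
    · rw [hp, mul_zero]
    · have h2 := pe_eq R.N R.d.θ0 ξ hp
      rw [hrel] at h2
      change (0 : ℂ) = _ at h2
      have h3 := (mul_eq_zero.1 h2.symm).resolve_left (pow_ne_zero _ hp)
      have h4 := congrArg lam h3
      rw [map_sum, map_zero] at h4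
      have h5 : ∀ m : Option (Fin g) → Fin (M + 1),
          lam (ξ m * ∏ i, ((R.N i).1 p / R.d.θ0.1 p) ^ (m i : ℕ)) =
          lam (ξ m) * ∏ i, ((R.N i).1 p / R.d.θ0.1 p) ^ (m i : ℕ) := by
        intro m
        rw [mul_comm, hlam2 _ _ (isAlg_prod _ fun i _ => (halg p hpS hp i).pow _), mul_comm]
      simp only [h5] at h4
      rw [pe_eq _ _ _ hp, h4, mul_zero, zero_mul]
  have h2 : ((pe R.N R.d.θ0 (fun m => lam (ξ m))) * R.d.θ0 : Ent (Fin g)) = 0 := by
    apply Subtype.ext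
    have hc : Continuous ((pe R.N R.d.θ0 (fun m => lam (ξ m))) * R.d.θ0 : Ent (Fin g)).1 :=
      continuous_iff_continuousAt.2 fun x => (((pe R.N R.d.θ0 (fun m => lam (ξ m))) *
        R.d.θ0 : Ent (Fin g)).2 x trivial).continuousAt
    exact Continuous.ext_on hS hc continuous_const fun p hp => h1 p hp
  by_contra hne'
  exact ent_mul_ne hne' (ent_ne_iff.2 ⟨0, R.d.one⟩) h2

end RD

end Pool.Agent.K9h14
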