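import Pool.Agent.K9h14.A3

set_option autoImplicit false
set_option linter.unusedVariables false
set_option linter.unusedSectionVars false

/-!
# Algebraicity of the Taylor coefficients; products of theta functions
-/

open MvPowerSeries Filter
open scoped Topology

noncomputable section

namespace Pool.Agent.K9h14

open Pool.Agent.W245.EB Pool.Agent.Y102

section ode

variable {σ : Type} [Fintype σ] [DecidableEq σ] {W : Type} [Fintype W]

/-- series with algebraic coefficients in small degrees -/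
def SAn (σ : Type) [Fintype σ] [DecidableEq σ] (n : ℕ) : Subring (OO σ) where
  carrier := {f | ∀ β, β.degree < n → IsAlgebraic ℚ (coeff β f)}
  zero_mem' := fun β _ => by rw [map_zero]; exact isAlgebraic_zero
  one_mem' := fun β _ => by
    rw [coeff_one]
    split_ifs
    · exact isAlgebraic_one
    · exact isAlgebraic_zero
  add_mem' := fun ha hb β hβ => by rw [map_add]; exact (ha β hβ).add (hb β hβ)
  neg_mem' := fun ha β hβ => by rw [map_neg]; exact (ha β hβ).neg
  mul_mem' := fun {a b} ha hb β hβ => by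
    rw [coeff_mul]
    refine isAlg_sum _ fun p hp => ?_
    rw [Finset.HasAntidiagonal.mem_antidiagonal] at hp
    have h1 := congrArg Finsupp.degree hp
    rw [map_add] at h1
    exact (ha _ (by omega)).mul (hb _ (by omega))

theorem aeval_mem_SAn {n : ℕ} {X : W → OO σ} (hX : ∀ w, X w ∈ SAn σ n) {Q : MvPolynomial W ℂ}
    (hQ : ∀ m, IsAlgebraic ℚ (Q.coeff m)) : MvPolynomial.aeval X Q ∈ SAn σ n := by
  classical
  rw [MvPolynomial.aeval_def, MvPolynomial.eval₂_eq']
  refine sum_mem fun m _ => mul_mem ?_ (prod_mem fun i _ => pow_mem (hX i) _)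
  intro β _
  exact C_mem_SA (hQ m) β

/-- **solutions of algebraic differential equations** -/
theorem ode_SA (X : W → OO σ) (δ : σ → W → MvPolynomial W ℂ)
    (hδ : ∀ i w m, IsAlgebraic ℚ ((δ i w).coeff m))
    (h : ∀ i w, pderiv ℂ i (X w) = MvPolynomial.aeval X (δ i w))
    (h0 : ∀ w, IsAlgebraic ℚ (constantCoeff (X w))) : ∀ w, X w ∈ SA σ := by
  classical
  have key : ∀ n w, X w ∈ SAn σ n := by
    intro n
    induction n with
    | zero => exact fun w β hβ => absurd hβ (Nat.not_lt_zero _)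
    | succ n ih =>
      intro w β hβ
      by_cases hβ0 : β = 0
      · rw [hβ0, coeff_zero_eq_constantCoeff_apply]
        exact h0 w
      · obtain ⟨i, hi⟩ : ∃ i, β i ≠ 0 := by
          by_contra hcon
          push Not at hcon
          exact hβ0 (Finsupp.ext hcon)
        have hs : Finsupp.single i 1 ≤ β := by
          rw [Finsupp.single_le_iff]
          omega
        have h1 := aeval_mem_SAn ih (hδ i w) (β - Finsupp.single i 1) (by
          have h2 := congrArg Finsupp.degree (tsub_add_cancel_of_le hs)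
          rw [map_add, Finsupp.degree_single] at h2
          omega)
        rw [← h i w, coeff_pderiv, tsub_add_cancel_of_le hs] at h1
        have h3 : ((((β - Finsupp.single i 1 : σ →₀ ℕ) i : ℕ) : ℂ) + 1) ≠ 0 := Nat.cast_add_one_ne_zero _
        have h4 : coeff β (X w) = (coeff β (X w) * ((((β - Finsupp.single i 1 : σ →₀ ℕ) i : ℕ) : ℂ) + 1)) *
            ((((β - Finsupp.single i 1 : σ →₀ ℕ) i : ℕ) : ℂ) + 1)⁻¹ := by
          rw [mul_assoc, mul_inv_cancel₀ h3, mul_one]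
        rw [h4]
        exact h1.mul ((isAlg_natCast _).add isAlgebraic_one).inv
  exact fun w β => key (β.degree + 1) w β (Nat.lt_succ_self _)

variable (T0 : Ent σ) (θ : W → Ent σ)

/-- homogenization -/
def hom (n : ℕ) (Q : MvPolynomial W ℂ) : Ent σ :=
  ∑ m ∈ Q.support, Q.coeff m • ((∏ w, (θ w) ^ (m w)) * T0 ^ (n - m.degree))

theorem hom_apply {n : ℕ} {Q : MvPolynomial W ℂ} (hQ : Q.totalDegree ≤ n) {z : σ → ℂ}
    (hz : T0.1 z ≠ 0) : (hom T0 θ n Q).1 z =
      (T0.1 z) ^ n * MvPolynomial.eval (fun w => (θ w).1 z / T0.1 z) Q := by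
  classical
  unfold hom
  rw [TD.DP.ent_sum_apply, MvPolynomial.eval_eq', Finset.mul_sum]
  refine Finset.sum_congr rfl fun m hm => ?_
  have h1 : (∏ w, (θ w) ^ (m w) : Ent σ).1 z = ∏ w, ((θ w).1 z) ^ (m w) := by
    rw [TD.DP.ent_prod_apply]
    rfl
  change Q.coeff m * ((∏ w, (θ w) ^ (m w) : Ent σ).1 z * (T0.1 z) ^ (n - m.degree)) = _
  have h2 : m.degree ≤ n := (MvPolynomial.le_totalDegree hm).trans hQ
  have h3 : (T0.1 z) ^ n = (T0.1 z) ^ (n - m.degree) * (T0.1 z) ^ m.degree := by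
    rw [← pow_add, Nat.sub_add_cancel h2]
  have h4 : ∏ w, ((θ w).1 z) ^ (m w) =
      (∏ w, ((θ w).1 z / T0.1 z) ^ (m w)) * (T0.1 z) ^ m.degree := by
    rw [Finsupp.degree_eq_sum, ← Finset.prod_pow_eq_pow_sum, ← Finset.prod_mul_distrib]
    refine Finset.prod_congr rfl fun w _ => ?_
    rw [← mul_pow, div_mul_cancel₀ _ hz]
  rw [h1, h3, h4]
  ring

theorem tay_hom {n : ℕ} {Q : MvPolynomial W ℂ} (hQ : Q.totalDegree ≤ n) {p : σ → ℂ}
    (hp : T0.1 p ≠ 0) : tay p (hom T0 θ n Q) =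
      (tay p T0) ^ n * MvPolynomial.aeval (fun w => xs T0 (θ w) p) Q := by
  classical
  unfold hom
  rw [map_sum, MvPolynomial.aeval_def, MvPolynomial.eval₂_eq', Finset.mul_sum]
  refine Finset.sum_congr rfl fun m hm => ?_
  rw [map_smul, map_mul, map_pow, map_prod, MvPowerSeries.smul_eq_C_mul]
  have h2 : m.degree ≤ n := (MvPolynomial.le_totalDegree hm).trans hQ
  have h3 : (tay p T0) ^ n = (tay p T0) ^ (n - m.degree) * (tay p T0) ^ m.degree := by
    rw [← pow_add, Nat.sub_add_cancel h2]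
  have h4 : ∏ w, tay p ((θ w) ^ (m w)) =
      (∏ w, (xs T0 (θ w) p) ^ (m w)) * (tay p T0) ^ m.degree := by
    rw [Finsupp.degree_eq_sum, ← Finset.prod_pow_eq_pow_sum, ← Finset.prod_mul_distrib]
    refine Finset.prod_congr rfl fun w _ => ?_
    rw [map_pow, ← mul_pow, mul_comm (xs T0 (θ w) p), xs_mul hp]
  rw [h3, h4]
  change C (Q.coeff m) * _ = _ * (C (Q.coeff m) * _)
  ring

theorem ent_eq_of {T0 A B : Ent σ} (h0 : T0 ≠ 0) (h : ∀ z, T0.1 z ≠ 0 → A.1 z = B.1 z) :
    A = B := by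
  by_contra hne
  have h1 : (A - B) * T0 = 0 := by
    apply Subtype.ext
    funext z
    change (A.1 z - B.1 z) * T0.1 z = 0
    by_cases hz : T0.1 z = 0
    · rw [hz, mul_zero]
    · rw [h z hz, sub_self, zero_mul]
  exact ent_mul_ne (sub_ne_zero.2 hne) h0 h1

/-- the differential equations for the Taylor series -/
theorem xs_ode {δ : MvPolynomial W ℂ} (hδ : δ.totalDegree ≤ 2) {F : Ent σ} {i : σ}
    (h : ∀ z, T0.1 z ≠ 0 → fderiv ℂ (fun z => F.1 z / T0.1 z) z (Pi.single i 1) =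
      MvPolynomial.eval (fun q => (θ q).1 z / T0.1 z) δ) {p : σ → ℂ} (hp : T0.1 p ≠ 0) :
    pderiv ℂ i (xs T0 F p) = MvPolynomial.aeval (fun w => xs T0 (θ w) p) δ := by
  have h0 : T0 ≠ 0 := ent_ne_iff.2 ⟨p, hp⟩
  have h1 : T0 * pdE i F - F * pdE i T0 = hom T0 θ 2 δ := by
    apply ent_eq_of h0
    intro z hz
    rw [hom_apply T0 θ hδ hz, ← h z hz, fderiv_quot_eq hz]
    change T0.1 z * D (eV i) F.1 z - F.1 z * D (eV i) T0.1 z = _
    field_simp
  have h2 := congrArg (tay p) h1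
  rw [tay_hom T0 θ hδ hp, map_sub, map_mul, map_mul, ← pd_tay, ← pd_tay] at h2
  set t := tay p T0 with ht
  set X := xs T0 F p with hX
  have h3 : t * X = tay p F := xs_mul hp F
  rw [← h3, Derivation.leibniz, smul_eq_mul, smul_eq_mul] at h2
  have h4 : t ^ 2 * (pderiv ℂ i X - MvPolynomial.aeval (fun w => xs T0 (θ w) p) δ) = 0 := by
    linear_combination h2
  rcases mul_eq_zero.1 h4 with h5 | h5
  · exact absurd h5 (pow_ne_zero _ (tay_ne_zero hp))
  · exact sub_eq_zero.1 h5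

end ode

variable {g : ℕ}

/-- composition with a linear map -/
def cmp (M : (Fin g → ℂ) →L[ℂ] (Fin g → ℂ)) : Ent (Fin g) →ₐ[ℂ] Ent (Fin g) where
  toFun F := ⟨fun z => F.1 (M z), fun z _ => (F.2 (M z) trivial).fun_comp (M.analyticAt z)⟩
  map_one' := rfl
  map_mul' _ _ := rfl
  map_zero' := rfl
  map_add' _ _ := rfl
  commutes' _ := rfl

theorem cmp_apply (M : (Fin g → ℂ) →L[ℂ] (Fin g → ℂ)) (F : Ent (Fin g)) (z : Fin g → ℂ) :
    (cmp M F).1 z = F.1 (M z) := rfl

theorem D_cmp (M : (Fin g → ℂ) →L[ℂ] (Fin g → ℂ)) (F : Ent (Fin g)) (v z : Fin g → ℂ) :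
    D v (cmp M F).1 z = D (M v) F.1 (M z) := by
  change fderiv ℂ (fun z => F.1 (M z)) z v = _
  have h1 : HasFDerivAt (fun x => F.1 (M x)) ((fderiv ℂ F.1 (M z)).comp M) z :=
    (ediff F (M z)).hasFDerivAt.comp z M.hasFDerivAt
  rw [h1.fderiv]
  rfl

theorem inc_GG1 (d : ZD g) {F : Ent (Fin g)} (hF : ∀ l ∈ d.L, ∀ z,
    F.1 (z + l) = Complex.exp (∑ k, d.ja l k * z k + d.jb l) * F.1 z) : inc F ∈ d.GG 1 := by
  refine ⟨fun l hl x => ?_, ?_⟩
  · rw [inc_apply, map_add, d.cz_li, hF l hl, pow_one, inc_apply]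
    rfl
  · rw [pow_succ, Module.End.mul_apply, dU_inc, map_zero]

namespace ZD

/-- the functions, with the denominator -/
def nv (d : ZD g) : Option d.V → Ent (Fin g)
  | none => d.θ0
  | some v => d.θ v

theorem nv_qp (d : ZD g) {l : Fin g → ℂ} (hl : l ∈ d.L) (o : Option d.V) (z : Fin g → ℂ) :
    (d.nv o).1 (z + l) = Complex.exp (∑ k, d.ja l k * z k + d.jb l) * (d.nv o).1 z := by
  rcases o with _ | v
  · exact d.qp0 l hl z
  · exact d.qp l hl v z

theorem lin_sum (M : (Fin g → ℂ) →L[ℂ] (Fin g → ℂ)) (a : Fin g → ℂ) (z : Fin g → ℂ) :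
    ∑ k, a k * M z k = ∑ j, (∑ k, a k * M (Pi.single j 1) k) * z j := by
  have h1 : M z = ∑ j, z j • M (Pi.single j 1) := by
    conv_lhs => rw [← Finset.univ_sum_single z, map_sum]
    refine Finset.sum_congr rfl fun j _ => ?_
    rw [← map_smul]
    congr 1
    rw [← Pi.single_smul, smul_eq_mul, mul_one]
  rw [h1]
  simp only [Finset.sum_apply, Pi.smul_apply, smul_eq_mul, Finset.mul_sum, Finset.sum_mul]
  rw [Finset.sum_comm]
  exact Finset.sum_congr rfl fun j _ => Finset.sum_congr rfl fun k _ => by ring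

/-- the products of theta functions composed with linear maps -/
def pr (d : ZD g) (M1 M2 : (Fin g → ℂ) →L[ℂ] (Fin g → ℂ)) (h1 : ∀ l ∈ d.L, M1 l ∈ d.L)
    (h2 : ∀ l ∈ d.L, M2 l ∈ d.L) (hinj : ∀ v, M2 v = 0 → v = 0) : ZD g where
  L := d.L
  fin := d.fin
  R0 := d.R0
  R0_pos := d.R0_pos
  coc := d.coc
  κ := 0
  κ_add := fun l _ l' _ => by simp
  ja := fun l j => (∑ k, d.ja (M1 l) k * M1 (Pi.single j 1) k) +
    ∑ k, d.ja (M2 l) k * M2 (Pi.single j 1) k
  jb := fun l => d.jb (M1 l) + d.jb (M2 l)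
  V := Option d.V × Option d.V
  θ0 := cmp M1 d.θ0 * cmp M2 d.θ0
  θ := fun o => cmp M1 (d.nv o.1) * cmp M2 (d.nv o.2)
  φ := 0
  qp0 := by
    intro l hl z
    change d.θ0.1 (M1 (z + l)) * d.θ0.1 (M2 (z + l)) = _ * (d.θ0.1 (M1 z) * d.θ0.1 (M2 z))
    rw [map_add, map_add, d.qp0 _ (h1 l hl), d.qp0 _ (h2 l hl), lin_sum, lin_sum]
    have h3 : ∑ k, ((∑ k_1, d.ja (M1 l) k_1 * M1 (Pi.single k 1) k_1) +
        ∑ k_1, d.ja (M2 l) k_1 * M2 (Pi.single k 1) k_1) * z k =
        ∑ j, (∑ k, d.ja (M1 l) k * M1 (Pi.single j 1) k) * z j +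
        ∑ j, (∑ k, d.ja (M2 l) k * M2 (Pi.single j 1) k) * z j := by
      rw [← Finset.sum_add_distrib]
      exact Finset.sum_congr rfl fun j _ => add_mul _ _ _
    rw [h3]
    have h4 : ∀ a b c e : ℂ, Complex.exp (a + b + (c + e)) =
        Complex.exp (a + c) * Complex.exp (b + e) := fun a b c e => by
      rw [← Complex.exp_add]
      congr 1
      ring
    rw [h4]
    ring
  qp := by
    intro l hl o z
    change (d.nv o.1).1 (M1 (z + l)) * (d.nv o.2).1 (M2 (z + l)) =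
      _ * ((d.nv o.1).1 (M1 z) * (d.nv o.2).1 (M2 z))
    rw [map_add, map_add, d.nv_qp (h1 l hl), d.nv_qp (h2 l hl), lin_sum, lin_sum]
    have h3 : ∑ k, ((∑ k_1, d.ja (M1 l) k_1 * M1 (Pi.single k 1) k_1) +
        ∑ k_1, d.ja (M2 l) k_1 * M2 (Pi.single k 1) k_1) * z k =
        ∑ j, (∑ k, d.ja (M1 l) k * M1 (Pi.single j 1) k) * z j +
        ∑ j, (∑ k, d.ja (M2 l) k * M2 (Pi.single j 1) k) * z j := by
      rw [← Finset.sum_add_distrib]
      exact Finset.sum_congr rfl fun j _ => add_mul _ _ _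
    rw [h3]
    have h4 : ∀ a b c e : ℂ, Complex.exp (a + b + (c + e)) =
        Complex.exp (a + c) * Complex.exp (b + e) := fun a b c e => by
      rw [← Complex.exp_add]
      congr 1
      ring
    rw [h4]
    ring
  qpφ := by
    intro l hl z
    change (0 : ℂ) = _ * (0 + 0 * _)
    ring
  one := by
    change d.θ0.1 (M1 0) * d.θ0.1 (M2 0) ≠ 0
    rw [map_zero, map_zero]
    exact mul_ne_zero d.one d.one
  imm := by
    intro v hv
    apply hinj
    apply d.imm
    intro w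
    have h3 := hv (none, some w)
    change (d.θ0.1 (M1 0) * d.θ0.1 (M2 0)) *
      D v (fun x => (cmp M1 d.θ0).1 x * (cmp M2 (d.θ w)).1 x) 0 =
      (d.θ0.1 (M1 0) * (d.θ w).1 (M2 0)) *
      D v (fun x => (cmp M1 d.θ0).1 x * (cmp M2 d.θ0).1 x) 0 at h3
    rw [D_mul_fun (ediff _ 0) (ediff _ 0), D_mul_fun (ediff _ 0) (ediff _ 0), D_cmp, D_cmp,
      D_cmp, cmp_apply, cmp_apply, cmp_apply, map_zero, map_zero] at h3
    have h4 : (d.θ0.1 0) ^ 2 * (d.θ0.1 0 * D (M2 v) (d.θ w).1 0 -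
        (d.θ w).1 0 * D (M2 v) d.θ0.1 0) = 0 := by
      linear_combination h3
    rcases mul_eq_zero.1 h4 with h5 | h5
    · exact absurd h5 (pow_ne_zero _ d.one)
    · exact sub_eq_zero.1 h5

end ZD

end Pool.Agent.K9h14
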