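import Pool.Agent.K9h14.A4

set_option autoImplicit false
set_option linter.unusedVariables false
set_option linter.unusedSectionVars false

/-!
# The values at torsion points
-/

open MvPowerSeries Filter
open scoped Topology

noncomputable section

namespace Pool.Agent.K9h14

open Pool.Agent.W245.EB Pool.Agent.Y102

variable {g : ℕ}

/-- multiplication by a number -/
def sc (g : ℕ) (q : ℂ) : (Fin g → ℂ) →L[ℂ] (Fin g → ℂ) := q • ContinuousLinearMap.id ℂ (Fin g → ℂ)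

theorem sc_apply (q : ℂ) (z : Fin g → ℂ) : sc g q z = q • z := rfl

theorem xs_cancel_left {A T0 F : Ent (Fin g)} {p : Fin g → ℂ} (hA : A.1 p ≠ 0)
    (hp : T0.1 p ≠ 0) : xs (A * T0) (A * F) p = xs T0 F p := by
  apply xs_eq_of (mul_ne_zero hA hp) hp
  rw [map_mul, map_mul]
  ring

theorem xs_cancel_right {A T0 F : Ent (Fin g)} {p : Fin g → ℂ} (hA : A.1 p ≠ 0)
    (hp : T0.1 p ≠ 0) : xs (T0 * A) (F * A) p = xs T0 F p := by
  apply xs_eq_of (mul_ne_zero hp hA) hp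
  rw [map_mul, map_mul]
  ring

theorem xs_sub (T0 F G : Ent (Fin g)) (p : Fin g → ℂ) :
    xs T0 (F - G) p = xs T0 F p - xs T0 G p := by
  unfold xs
  rw [map_sub, sub_mul]

theorem xs_smul (T0 F : Ent (Fin g)) (c : ℂ) (p : Fin g → ℂ) :
    xs T0 (c • F) p = C c * xs T0 F p := by
  unfold xs
  rw [map_smul, MvPowerSeries.smul_eq_C_mul, mul_assoc]

theorem ZD.pr_J (d : ZD g) (M1 M2 : (Fin g → ℂ) →L[ℂ] (Fin g → ℂ)) (h1 : ∀ l ∈ d.L, M1 l ∈ d.L)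
    (h2 : ∀ l ∈ d.L, M2 l ∈ d.L) (hinj : ∀ v, M2 v = 0 → v = 0) (l z : Fin g → ℂ) :
    Complex.exp (∑ k, (d.pr M1 M2 h1 h2 hinj).ja l k * z k + (d.pr M1 M2 h1 h2 hinj).jb l) =
      Complex.exp (∑ k, d.ja (M1 l) k * M1 z k + d.jb (M1 l)) *
        Complex.exp (∑ k, d.ja (M2 l) k * M2 z k + d.jb (M2 l)) := by
  rw [ZD.lin_sum, ZD.lin_sum, ← Complex.exp_add]
  congr 1
  change (∑ k, ((∑ k_1, d.ja (M1 l) k_1 * M1 (Pi.single k 1) k_1) +
        ∑ k_1, d.ja (M2 l) k_1 * M2 (Pi.single k 1) k_1) * z k) + (d.jb (M1 l) + d.jb (M2 l)) = _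
  have h3 : ∑ k, ((∑ k_1, d.ja (M1 l) k_1 * M1 (Pi.single k 1) k_1) +
        ∑ k_1, d.ja (M2 l) k_1 * M2 (Pi.single k 1) k_1) * z k =
        ∑ j, (∑ k, d.ja (M1 l) k * M1 (Pi.single j 1) k) * z j +
        ∑ j, (∑ k, d.ja (M2 l) k * M2 (Pi.single j 1) k) * z j := by
    rw [← Finset.sum_add_distrib]
    exact Finset.sum_congr rfl fun j _ => add_mul _ _ _
  rw [h3]
  ring

namespace TD

variable (d : TD g)

/-- the Taylor coefficients of the functions are algebraic -/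
theorem Xq_SA (q : ℕ) {p : Fin g → ℂ} (hp : d.θ0.1 ((q : ℂ) • p) ≠ 0)
    (hval : ∀ o, IsAlgebraic ℚ (d.vz o ((q : ℂ) • p))) :
    ∀ o, xs (cmp (sc g q) d.θ0) (cmp (sc g q) (d.nu o)) p ∈ SA (Fin g) := by
  classical
  refine ode_SA _ (fun i o => MvPolynomial.C (q : ℂ) * d.DD i o) ?_ ?_ ?_
  · intro i w m
    rw [MvPolynomial.coeff_C_mul]
    exact (isAlg_natCast q).mul (d.DD_alg i w m)
  · intro i w
    refine xs_ode (cmp (sc g q) d.θ0) (fun o => cmp (sc g q) (d.nu o)) ?_ ?_ hp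
    · refine (MvPolynomial.totalDegree_mul _ _).trans ?_
      rw [MvPolynomial.totalDegree_C, zero_add]
      exact d.DD_deg i w
    · intro z hz
      have hz' : d.θ0.1 ((q : ℂ) • z) ≠ 0 := hz
      have h1 : (fun z => (cmp (sc g q) (d.nu w)).1 z / (cmp (sc g q) d.θ0).1 z) =
          fun z => d.vz w (sc g q z) := by
        funext z
        rw [vz_eq]
        rfl
      have h2 : HasFDerivAt (fun z => d.vz w (sc g q z))
          ((fderiv ℂ (d.vz w) (sc g q z)).comp (sc g q)) z :=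
        (d.analytic_vz w _ hz').differentiableAt.hasFDerivAt.comp z (sc g q).hasFDerivAt
      rw [h1, h2.fderiv]
      change (fderiv ℂ (d.vz w) (sc g q z)) (sc g q (Pi.single i 1)) = _
      rw [sc_apply, sc_apply, map_smul, d.DD_D i w _ hz', MvPolynomial.eval_mul,
        MvPolynomial.eval_C, smul_eq_mul]
      congr 2
      congr 1
      funext o
      rw [vz_eq]
      rfl
  · intro w
    rw [constantCoeff_xs]
    have := hval w
    rw [vz_eq] at this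
    exact this

theorem val_zero (o : Option d.V) : IsAlgebraic ℚ (d.vz o 0) := by
  rcases o with _ | v
  · exact d.ζ0
  · exact d.x0 v

theorem ne_of_mem {l : Fin g → ℂ} (hl : l ∈ d.L) : d.θ0.1 l ≠ 0 := by
  have h := d.qp0 l hl 0
  rw [zero_add] at h
  rw [h]
  exact mul_ne_zero (Complex.exp_ne_zero _) d.one

/-- periodicity -/
theorem xs_per (q : ℕ) {p : Fin g → ℂ} (hqp : (q : ℂ) • p ∈ d.L) (v : d.V) :
    xs (cmp (sc g q) d.θ0) (cmp (sc g q) (d.θ v)) p =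
      xs (cmp (sc g q) d.θ0) (cmp (sc g q) (d.θ v)) 0 := by
  apply xs_eq_of
  · exact d.ne_of_mem hqp
  · change d.θ0.1 ((q : ℂ) • 0) ≠ 0
    rw [smul_zero]
    exact d.one
  · have h1 : ∀ F : Ent (Fin g), tay p F = tay 0 (tr p F) := by
      intro F
      rw [tay_tr, zero_add]
    rw [h1, h1, ← map_mul, ← map_mul]
    congr 1
    apply Subtype.ext
    funext z
    change (d.θ v).1 ((q : ℂ) • (z + p)) * d.θ0.1 ((q : ℂ) • z) =
      (d.θ v).1 ((q : ℂ) • z) * d.θ0.1 ((q : ℂ) • (z + p))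
    rw [smul_add, d.qp _ hqp, d.qp0 _ hqp]
    ring

/-- the data for the theorem on algebraic relations -/
def rd (M1 M2 : (Fin g → ℂ) →L[ℂ] (Fin g → ℂ)) (h1 : ∀ l ∈ d.L, M1 l ∈ d.L)
    (h2 : ∀ l ∈ d.L, M2 l ∈ d.L) (hinj : ∀ v, M2 v = 0 → v = 0) (Nn : Ent (Fin g))
    (hN : ∀ l ∈ d.L, ∀ z, Nn.1 (z + l) = Complex.exp (∑ k, (d.toZD.pr M1 M2 h1 h2 hinj).ja l k * z k +
      (d.toZD.pr M1 M2 h1 h2 hinj).jb l) * Nn.1 z)
    (b : Fin g → d.V)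
    (hbJ : ∀ v, (∀ i, d.θ0.1 0 * D v (d.θ (b i)).1 0 = (d.θ (b i)).1 0 * D v d.θ0.1 0) → v = 0)
    (hSA : ∀ v, xs (cmp M2 d.θ0) (cmp M2 (d.θ v)) 0 ∈ SA (Fin g)) : RD g where
  d := d.toZD.pr M1 M2 h1 h2 hinj
  N := fun o => match o with
    | none => Nn
    | some i => cmp M1 d.θ0 * cmp M2 (d.θ (b i))
  GGN := by
    intro i
    apply inc_GG1
    rcases i with _ | i
    · exact hN
    · exact fun l hl z => (d.toZD.pr M1 M2 h1 h2 hinj).qp l hl (none, some (b i)) z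
  hJ := by
    intro v hv
    apply hinj
    apply hbJ
    intro w
    have h3 := hv w
    change (d.θ0.1 (M1 0) * d.θ0.1 (M2 0)) *
      D v (fun x => (cmp M1 d.θ0).1 x * (cmp M2 (d.θ (b w))).1 x) 0 =
      (d.θ0.1 (M1 0) * (d.θ (b w)).1 (M2 0)) *
      D v (fun x => (cmp M1 d.θ0).1 x * (cmp M2 d.θ0).1 x) 0 at h3
    rw [D_mul_fun (ediff _ 0) (ediff _ 0), D_mul_fun (ediff _ 0) (ediff _ 0), D_cmp, D_cmp,
      D_cmp, cmp_apply, cmp_apply, cmp_apply, map_zero, map_zero] at h3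
    have h4 : (d.θ0.1 0) ^ 2 * (d.θ0.1 0 * D (M2 v) (d.θ (b w)).1 0 -
        (d.θ (b w)).1 0 * D (M2 v) d.θ0.1 0) = 0 := by
      linear_combination h3
    rcases mul_eq_zero.1 h4 with h5 | h5
    · exact absurd h5 (pow_ne_zero _ d.one)
    · exact sub_eq_zero.1 h5
  hSA := by
    intro i
    change xs (cmp M1 d.θ0 * cmp M2 d.θ0) (cmp M1 d.θ0 * cmp M2 (d.θ (b i))) 0 ∈ SA (Fin g)
    rw [xs_cancel_left]
    · exact hSA _
    · change d.θ0.1 (M1 0) ≠ 0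
      rw [map_zero]
      exact d.one
    · change d.θ0.1 (M2 0) ≠ 0
      rw [map_zero]
      exact d.one

theorem exists_b : ∃ b : Fin g → d.V, Function.Injective b ∧
    ∀ v, (∀ i, d.θ0.1 0 * D v (d.θ (b i)).1 0 = (d.θ (b i)).1 0 * D v d.θ0.1 0) → v = 0 := by
  obtain ⟨b, hb, hbJ⟩ := exists_J (V := d.V) (E := Fin g → ℂ)
    (fun v => (d.θ0.1 0 • (fderiv ℂ (d.θ v).1 0).toLinearMap -
      (d.θ v).1 0 • (fderiv ℂ d.θ0.1 0).toLinearMap : Module.Dual ℂ (Fin g → ℂ)))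
    (fun w hw => d.imm w fun v => by
      have h1 := hw v
      change d.θ0.1 0 * D w (d.θ v).1 0 - (d.θ v).1 0 * D w d.θ0.1 0 = 0 at h1
      exact sub_eq_zero.1 h1) (m := g) (by simp)
  exact ⟨b, hb, fun w hw => hbJ w fun i => by
    change d.θ0.1 0 * D w (d.θ (b i)).1 0 - (d.θ (b i)).1 0 * D w d.θ0.1 0 = 0
    exact sub_eq_zero.2 (hw i)⟩

theorem sc_mem {l : Fin g → ℂ} (hl : l ∈ d.L) (q : ℕ) : sc g q l ∈ d.L := by
  rw [sc_apply]
  have h1 : (q : ℂ) • l = q • l := Nat.cast_smul_eq_nsmul ℂ q l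
  rw [h1]
  exact d.L.nsmul_mem hl q

theorem sc_inj {q : ℕ} (hq : 0 < q) {v : Fin g → ℂ} (h : sc g q v = 0) : v = 0 := by
  rw [sc_apply] at h
  rcases smul_eq_zero.1 h with h1 | h1
  · exact absurd h1 (by exact_mod_cast hq.ne')
  · exact h1

theorem XX0 (q : ℕ) (o : Option d.V) :
    xs (cmp (sc g q) d.θ0) (cmp (sc g q) (d.nu o)) 0 ∈ SA (Fin g) := by
  apply d.Xq_SA q
  · rw [smul_zero]; exact d.one
  · intro o
    rw [smul_zero]; exact d.val_zero o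

/-- **torsion values**, abelian functions -/
theorem torsion_some {q : ℕ} (hq : 0 < q) {p : Fin g → ℂ} (hqp : (q : ℂ) • p ∈ d.L)
    (hp : d.θ0.1 p ≠ 0) (v : d.V) : IsAlgebraic ℚ ((d.θ v).1 p / d.θ0.1 p) := by
  obtain ⟨b, _, hbJ⟩ := d.exists_b
  let R := d.rd (sc g (1 : ℕ)) (sc g q) (fun l hl => d.sc_mem hl 1) (fun l hl => d.sc_mem hl q)
    (fun v hv => sc_inj hq hv) (cmp (sc g (1 : ℕ)) (d.θ v) * cmp (sc g q) d.θ0)
    (fun l hl z => ((d.toZD.pr _ _ _ _ _).qp l hl (some v, none) z)) b hbJ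
    (fun v => d.XX0 q (some v))
  have hT : R.d.θ0 = cmp (sc g (1 : ℕ)) d.θ0 * cmp (sc g q) d.θ0 := rfl
  have hNn : R.N none = cmp (sc g (1 : ℕ)) (d.θ v) * cmp (sc g q) d.θ0 := rfl
  have h1p : (cmp (sc g (1 : ℕ)) d.θ0).1 p ≠ 0 := by
    change d.θ0.1 (((1 : ℕ) : ℂ) • p) ≠ 0
    rw [Nat.cast_one, one_smul]
    exact hp
  have h10 : (cmp (sc g (1 : ℕ)) d.θ0).1 0 ≠ 0 := by
    change d.θ0.1 (((1 : ℕ) : ℂ) • 0) ≠ 0
    rw [smul_zero]
    exact d.one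
  have hqp' : (cmp (sc g q) d.θ0).1 p ≠ 0 := d.ne_of_mem hqp
  have hq0 : (cmp (sc g q) d.θ0).1 0 ≠ 0 := by
    change d.θ0.1 ((q : ℂ) • 0) ≠ 0
    rw [smul_zero]
    exact d.one
  have h1 : xs R.d.θ0 (R.N none) 0 ∈ SA (Fin g) := by
    rw [hT, hNn, xs_cancel_right hq0 h10]
    exact d.XX0 1 (some v)
  have h2 : R.d.θ0.1 p ≠ 0 := mul_ne_zero h1p hqp'
  have h3 := R.alg_at h1 h2 (by
    intro i
    change xs (cmp (sc g (1 : ℕ)) d.θ0 * cmp (sc g q) d.θ0)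
      (cmp (sc g (1 : ℕ)) d.θ0 * cmp (sc g q) (d.θ (b i))) p ∈ SA (Fin g)
    rw [xs_cancel_left h1p hqp', d.xs_per q hqp]
    exact d.XX0 q (some (b i)))
  have h4 := alg_const' h3
  rw [hT, hNn, xs_cancel_right hqp' h1p, constantCoeff_xs, cmp_apply, cmp_apply, sc_apply,
    Nat.cast_one, one_smul] at h4
  exact h4

/-- **torsion values**, the quasi-periodic function -/
theorem torsion_none {q : ℕ} (hq : 0 < q) {p : Fin g → ℂ} (hqp : (q : ℂ) • p ∈ d.L)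
    (hp : d.θ0.1 p ≠ 0) : IsAlgebraic ℚ (d.φ.1 p / d.θ0.1 p - d.κ ((q : ℂ) • p) / q) := by
  obtain ⟨b, _, hbJ⟩ := d.exists_b
  have hκ : ∀ l ∈ d.L, d.κ ((q : ℂ) • l) = q * d.κ l := by
    intro l hl
    have h1 : ∀ n : ℕ, d.κ (n • l) = n * d.κ l := by
      intro n
      induction n with
      | zero => rw [zero_smul, d.κ_zero, Nat.cast_zero, zero_mul]
      | succ n ih =>
        rw [succ_nsmul, d.κ_add _ (d.L.nsmul_mem hl n) _ hl, ih]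
        push_cast
        ring
    rw [Nat.cast_smul_eq_nsmul ℂ q l, h1]
  let Nn : Ent (Fin g) := cmp (sc g (1 : ℕ)) d.θ0 * cmp (sc g q) d.φ -
    (q : ℂ) • (cmp (sc g (1 : ℕ)) d.φ * cmp (sc g q) d.θ0)
  have hNna : ∀ z, Nn.1 z = d.θ0.1 (((1 : ℕ) : ℂ) • z) * d.φ.1 ((q : ℂ) • z) -
      q * (d.φ.1 (((1 : ℕ) : ℂ) • z) * d.θ0.1 ((q : ℂ) • z)) := fun z => rfl
  let R := d.rd (sc g (1 : ℕ)) (sc g q) (fun l hl => d.sc_mem hl 1) (fun l hl => d.sc_mem hl q)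
    (fun v hv => sc_inj hq hv) Nn
    (fun l hl z => by
      rw [ZD.pr_J, hNna, hNna, smul_add, smul_add]
      have hq1 := d.sc_mem hl q
      rw [sc_apply] at hq1
      have h11 : ((1 : ℕ) : ℂ) • l = l := by rw [Nat.cast_one, one_smul]
      have h1z : ((1 : ℕ) : ℂ) • z = z := by rw [Nat.cast_one, one_smul]
      rw [sc_apply, sc_apply, sc_apply, sc_apply, h11, h1z, d.qp0 _ hl, d.qp0 _ hq1,
        d.qpφ _ hl, d.qpφ _ hq1, hκ l hl]
      ring) b hbJ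
    (fun v => d.XX0 q (some v))
  have hT : R.d.θ0 = cmp (sc g (1 : ℕ)) d.θ0 * cmp (sc g q) d.θ0 := rfl
  have hNn : R.N none = Nn := rfl
  have h1p : (cmp (sc g (1 : ℕ)) d.θ0).1 p ≠ 0 := by
    change d.θ0.1 (((1 : ℕ) : ℂ) • p) ≠ 0
    rw [Nat.cast_one, one_smul]
    exact hp
  have h10 : (cmp (sc g (1 : ℕ)) d.θ0).1 0 ≠ 0 := by
    change d.θ0.1 (((1 : ℕ) : ℂ) • 0) ≠ 0
    rw [smul_zero]
    exact d.one
  have hqp' : (cmp (sc g q) d.θ0).1 p ≠ 0 := d.ne_of_mem hqp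
  have hq0 : (cmp (sc g q) d.θ0).1 0 ≠ 0 := by
    change d.θ0.1 ((q : ℂ) • 0) ≠ 0
    rw [smul_zero]
    exact d.one
  have h1 : xs R.d.θ0 (R.N none) 0 ∈ SA (Fin g) := by
    rw [hT, hNn]
    change xs (cmp (sc g (1 : ℕ)) d.θ0 * cmp (sc g q) d.θ0)
      (cmp (sc g (1 : ℕ)) d.θ0 * cmp (sc g q) d.φ -
        (q : ℂ) • (cmp (sc g (1 : ℕ)) d.φ * cmp (sc g q) d.θ0)) 0 ∈ SA (Fin g)
    rw [xs_sub, xs_smul, xs_cancel_left h10 hq0, xs_cancel_right hq0 h10]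
    exact sub_mem (d.XX0 q none) (mul_mem (C_mem_SA (isAlg_natCast q)) (d.XX0 1 none))
  have h2 : R.d.θ0.1 p ≠ 0 := mul_ne_zero h1p hqp'
  have h3 := R.alg_at h1 h2 (by
    intro i
    change xs (cmp (sc g (1 : ℕ)) d.θ0 * cmp (sc g q) d.θ0)
      (cmp (sc g (1 : ℕ)) d.θ0 * cmp (sc g q) (d.θ (b i))) p ∈ SA (Fin g)
    rw [xs_cancel_left h1p hqp', d.xs_per q hqp]
    exact d.XX0 q (some (b i)))
  have h4 := alg_const' h3
  have h5 : xs R.d.θ0 (R.N none) p = xs (cmp (sc g q) d.θ0) (cmp (sc g q) d.φ) p -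
      C (q : ℂ) * xs (cmp (sc g (1 : ℕ)) d.θ0) (cmp (sc g (1 : ℕ)) d.φ) p := by
    rw [hT, hNn]
    change xs (cmp (sc g (1 : ℕ)) d.θ0 * cmp (sc g q) d.θ0)
      (cmp (sc g (1 : ℕ)) d.θ0 * cmp (sc g q) d.φ -
        (q : ℂ) • (cmp (sc g (1 : ℕ)) d.φ * cmp (sc g q) d.θ0)) p = _
    rw [xs_sub, xs_smul, xs_cancel_left h1p hqp', xs_cancel_right hqp' h1p]
  rw [h5, map_sub, map_mul, constantCoeff_C, constantCoeff_xs, constantCoeff_xs, cmp_apply,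
    cmp_apply, cmp_apply, cmp_apply, sc_apply, sc_apply, Nat.cast_one, one_smul] at h4
  -- the value at the period
  have h6 : d.φ.1 ((q : ℂ) • p) / d.θ0.1 ((q : ℂ) • p) =
      d.φ.1 0 / d.θ0.1 0 + d.κ ((q : ℂ) • p) := by
    have h7 := d.qpφ _ hqp 0
    have h8 := d.qp0 _ hqp 0
    rw [zero_add] at h7 h8
    have h9 := d.one
    have h10 := Complex.exp_ne_zero (∑ k, d.ja ((q : ℂ) • p) k * (0 : Fin g → ℂ) k +
      d.jb ((q : ℂ) • p))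
    rw [h7, h8]
    field_simp
  rw [h6] at h4
  have hqC : (q : ℂ) ≠ 0 := by exact_mod_cast hq.ne'
  have h7 : d.φ.1 p / d.θ0.1 p - d.κ ((q : ℂ) • p) / q =
      (d.φ.1 0 / d.θ0.1 0 - (d.φ.1 0 / d.θ0.1 0 + d.κ ((q : ℂ) • p) -
        q * (d.φ.1 p / d.θ0.1 p))) * (q : ℂ)⁻¹ := by
    field_simp
    ring
  rw [h7]
  exact (d.ζ0.sub h4).mul (isAlg_natCast q).inv

/-- **the theorem on periods** -/
theorem main' {γ : Fin g → ℂ} (hγ : γ ∈ d.L) (hγ0 : γ ≠ 0) (hκ : d.κ γ = 0) :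
    ∃ 𝔥 : Submodule ℂ (Fin g → ℂ), 𝔥 ≠ ⊥ ∧
      ∀ x ∈ 𝔥, x ∈ Submodule.span ℝ {l | l ∈ d.L ∧ l ∈ 𝔥 ∧ d.κ l = 0} := by
  refine d.main hγ hγ0 hκ fun ℓ hℓ k hne o => ?_
  have hl : (ℓ : ℂ) ≠ 0 := by exact_mod_cast hℓ.ne'
  have h1 : (ℓ : ℂ) • (((k : ℂ) / ℓ) • γ) = k • γ := by
    rw [smul_smul, mul_div_cancel₀ _ hl, Int.cast_smul_eq_zsmul]
  have h2 : (ℓ : ℂ) • (((k : ℂ) / ℓ) • γ) ∈ d.L := by
    rw [h1]
    exact d.L.zsmul_mem hγ k
  rcases o with _ | v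
  · have h3 := d.torsion_none hℓ h2 hne
    have h4 : d.κ ((ℓ : ℂ) • (((k : ℂ) / ℓ) • γ)) = 0 := by
      rw [h1]
      have h5 : ∀ n : ℕ, d.κ (n • γ) = 0 := by
        intro n
        induction n with
        | zero => rw [zero_smul, d.κ_zero]
        | succ n ih => rw [succ_nsmul, d.κ_add _ (d.L.nsmul_mem hγ n) _ hγ, ih, hκ, add_zero]
      rcases Int.eq_nat_or_neg k with ⟨n, rfl | rfl⟩
      · rw [natCast_zsmul, h5]
      · rw [neg_smul, natCast_zsmul, d.κ_neg (d.L.nsmul_mem hγ n), h5, neg_zero]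
    rw [h4, zero_div, sub_zero] at h3
    exact h3
  · exact d.torsion_some hℓ h2 hne v

end TD

end Pool.Agent.K9h14
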