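import Pool.Agent.K9h14.A5

set_option autoImplicit false
set_option linter.unusedVariables false
set_option linter.unusedSectionVars false

/-!
# Endomorphisms are algebraic
-/

open MvPowerSeries Filter
open scoped Topology

noncomputable section

namespace Pool.Agent.K9h14

open Pool.Agent.W245.EB Pool.Agent.Y102

variable {g : ℕ}

/-- a system of linear equations with algebraic coefficients -/
theorem alg_of_system {V : Type} {n : ℕ} (a : V → Fin n → ℂ) (ha : ∀ v j, IsAlgebraic ℚ (a v j))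
    (hinj : ∀ x : Fin n → ℂ, (∀ v, ∑ j, a v j * x j = 0) → x = 0) (x : Fin n → ℂ)
    (hx : ∀ v, IsAlgebraic ℚ (∑ j, a v j * x j)) (j : Fin n) : IsAlgebraic ℚ (x j) := by
  by_contra hcon
  have h1 : x j ∉ (Submodule.span QB {(1 : ℂ)}) := by
    intro h
    rw [Submodule.mem_span_singleton] at h
    obtain ⟨c, hc⟩ := h
    apply hcon
    rw [← hc]
    change IsAlgebraic ℚ ((c : ℂ) * 1)
    rw [mul_one]
    exact mem_QB.1 c.2
  obtain ⟨φ, hφ, hφ0⟩ := Submodule.exists_dual_map_eq_bot_of_notMem h1 inferInstance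
  have hlin : ∀ c y : ℂ, IsAlgebraic ℚ c → ((φ (c * y) : QB) : ℂ) = c * ((φ y : QB) : ℂ) := by
    intro c y hc
    have h2 : c * y = (⟨c, mem_QB.2 hc⟩ : QB) • y := rfl
    rw [h2, map_smul]
    rfl
  have h10 : φ 1 = 0 := by
    have h2 : φ 1 ∈ Submodule.map φ (Submodule.span QB {(1 : ℂ)}) :=
      Submodule.mem_map_of_mem (Submodule.mem_span_singleton_self _)
    rw [hφ0, Submodule.mem_bot] at h2
    exact h2
  have h2 := hinj (fun j => ((φ (x j) : QB) : ℂ)) fun v => by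
    have h3 := hlin _ 1 (hx v)
    rw [mul_one, h10] at h3
    rw [map_sum] at h3
    have h4 : (((∑ j, φ (a v j * x j) : QB)) : ℂ) = ∑ j, ((φ (a v j * x j) : QB) : ℂ) := by
      rw [IntermediateField.coe_sum]
    rw [h4] at h3
    have h5 : ∀ j, ((φ (a v j * x j) : QB) : ℂ) = a v j * ((φ (x j) : QB) : ℂ) :=
      fun j => hlin _ _ (ha v j)
    simp only [h5] at h3
    rw [h3]
    simp
  apply hφ
  have h3 : ((φ (x j) : QB) : ℂ) = 0 := congrFun h2 j
  exact_mod_cast h3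

theorem constantCoeff_pd_xs {T0 F : Ent (Fin g)} {p : Fin g → ℂ} (hp : T0.1 p ≠ 0) (i : Fin g) :
    constantCoeff (pderiv ℂ i (xs T0 F p)) =
      (T0.1 p * D (Pi.single i 1) F.1 p - F.1 p * D (Pi.single i 1) T0.1 p) / (T0.1 p) ^ 2 := by
  have h1 := congrArg (pderiv ℂ i) (xs_mul hp F)
  rw [Derivation.leibniz, smul_eq_mul, smul_eq_mul, pd_tay, pd_tay] at h1
  have h2 := congrArg constantCoeff h1
  rw [map_add, map_mul, map_mul, constantCoeff_tay, constantCoeff_tay, constantCoeff_tay,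
    constantCoeff_xs] at h2
  change _ + F.1 p / T0.1 p * D (Pi.single i 1) T0.1 p = D (Pi.single i 1) F.1 p at h2
  field_simp
  field_simp at h2
  linear_combination h2

namespace TD

variable (d : TD g)

/-- the torsion points are dense -/
theorem dense_torsion : Dense {p : Fin g → ℂ | ∃ q : ℕ, 0 < q ∧ (q : ℂ) • p ∈ d.L} := by
  rw [Metric.dense_iff]
  intro x r hr
  obtain ⟨q, hq⟩ := exists_nat_gt (d.R0 / r)
  have hq0 : (0 : ℝ) < q := lt_of_le_of_lt (div_nonneg d.R0_pos.le hr.le) hq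
  have hqn : 0 < q := by exact_mod_cast hq0
  obtain ⟨l, hl, hlR⟩ := d.coc ((q : ℂ) • x)
  refine ⟨(q : ℂ)⁻¹ • l, ?_, q, hqn, ?_⟩
  · rw [Metric.mem_ball, dist_eq_norm]
    have hqC : (q : ℂ) ≠ 0 := by exact_mod_cast hqn.ne'
    have h1 : (q : ℂ)⁻¹ • l - x = -((q : ℂ)⁻¹ • ((q : ℂ) • x - l)) := by
      rw [smul_sub, smul_smul, inv_mul_cancel₀ hqC, one_smul]
      abel
    rw [h1, norm_neg, norm_smul, norm_inv, Complex.norm_natCast, inv_mul_lt_iff₀ hq0]
    rw [div_lt_iff₀ hr] at hq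
    linarith
  · rw [smul_smul, mul_inv_cancel₀ (by exact_mod_cast hqn.ne'), one_smul]
    exact hl

/-- the derivatives at the origin -/
def dx (v : d.V) (i : Fin g) : ℂ :=
  d.θ0.1 0 * D (Pi.single i 1) (d.θ v).1 0 - (d.θ v).1 0 * D (Pi.single i 1) d.θ0.1 0

theorem dx_alg (v : d.V) (i : Fin g) : IsAlgebraic ℚ (d.dx v i / (d.θ0.1 0) ^ 2) := by
  have h1 := pd_mem_SA i (d.XX0 1 (some v))
  have h2 := h1 0
  have hid : ∀ F : Ent (Fin g), cmp (sc g ((1 : ℕ) : ℂ)) F = F := by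
    intro F
    apply Subtype.ext
    funext z
    rw [cmp_apply, sc_apply, Nat.cast_one, one_smul]
  rw [hid, hid, coeff_zero_eq_constantCoeff_apply, constantCoeff_pd_xs d.one] at h2
  exact h2

theorem D_lin (F : Ent (Fin g)) (w z : Fin g → ℂ) :
    D w F.1 z = ∑ j, w j * D (Pi.single j 1) F.1 z := by
  change fderiv ℂ F.1 z w = ∑ j, w j * fderiv ℂ F.1 z (Pi.single j 1)
  have h1 : w = ∑ j, w j • (Pi.single j (1 : ℂ) : Fin g → ℂ) := by
    conv_lhs => rw [← Finset.univ_sum_single w]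
    refine Finset.sum_congr rfl fun j _ => ?_
    rw [← Pi.single_smul, smul_eq_mul, mul_one]
  conv_lhs => rw [h1, map_sum]
  exact Finset.sum_congr rfl fun j _ => by rw [map_smul, smul_eq_mul]

/-- **endomorphisms are algebraic** -/
theorem end_alg (M : (Fin g → ℂ) →L[ℂ] (Fin g → ℂ)) (hM : ∀ l ∈ d.L, M l ∈ d.L) (k j : Fin g) :
    IsAlgebraic ℚ (M (Pi.single k 1) j) := by
  obtain ⟨b, _, hbJ⟩ := d.exists_b
  have hθ2 : (d.θ0.1 0) ^ 2 ≠ 0 := pow_ne_zero _ d.one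
  refine alg_of_system (fun (v : d.V) i => d.dx v i / (d.θ0.1 0) ^ 2) d.dx_alg ?_
    (M (Pi.single k 1)) ?_ j
  · intro x hx
    apply d.imm
    intro v
    have h1 := hx v
    have h2 : d.θ0.1 0 * D x (d.θ v).1 0 - (d.θ v).1 0 * D x d.θ0.1 0 =
        (d.θ0.1 0) ^ 2 * ∑ i, d.dx v i / (d.θ0.1 0) ^ 2 * x i := by
      rw [D_lin, D_lin, Finset.mul_sum, Finset.mul_sum, Finset.mul_sum, ← Finset.sum_sub_distrib]
      refine Finset.sum_congr rfl fun i _ => ?_
      have h3 := d.one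
      have h4 : (d.θ0.1 0) ^ 2 * (d.dx v i / (d.θ0.1 0) ^ 2 * x i) = d.dx v i * x i := by
        rw [← mul_assoc, mul_div_cancel₀ (d.dx v i) hθ2]
      rw [h4]
      unfold dx
      ring
    rw [h1, mul_zero] at h2
    exact sub_eq_zero.1 h2
  · intro v
    let R := d.rd M (sc g (1 : ℕ)) hM (fun l hl => d.sc_mem hl 1)
      (fun v hv => sc_inj one_pos hv) (cmp M (d.θ v) * cmp (sc g (1 : ℕ)) d.θ0)
      (fun l hl z => ((d.toZD.pr _ _ _ _ _).qp l hl (some v, none) z)) b hbJ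
      (fun v => d.XX0 1 (some v))
    have hT : R.d.θ0 = cmp M d.θ0 * cmp (sc g (1 : ℕ)) d.θ0 := rfl
    have hNn : R.N none = cmp M (d.θ v) * cmp (sc g (1 : ℕ)) d.θ0 := rfl
    have h10 : (cmp (sc g (1 : ℕ)) d.θ0).1 0 ≠ 0 := by
      change d.θ0.1 (((1 : ℕ) : ℂ) • 0) ≠ 0
      rw [smul_zero]
      exact d.one
    have hM0 : (cmp M d.θ0).1 0 ≠ 0 := by
      change d.θ0.1 (M 0) ≠ 0
      rw [map_zero]
      exact d.one
    have h1 := R.alg_zero d.dense_torsion (by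
      rintro p ⟨q, hq, hqp⟩ hp i
      have hp' : d.θ0.1 (M p) * d.θ0.1 (((1 : ℕ) : ℂ) • p) ≠ 0 := hp
      rw [Nat.cast_one, one_smul] at hp'
      have hp1 := left_ne_zero_of_mul hp'
      have hp2 := right_ne_zero_of_mul hp'
      have hqM : (q : ℂ) • M p ∈ d.L := by
        rw [← map_smul]
        exact hM _ hqp
      rcases i with _ | i
      · change IsAlgebraic ℚ (((d.θ v).1 (M p) * d.θ0.1 (((1 : ℕ) : ℂ) • p)) /
          (d.θ0.1 (M p) * d.θ0.1 (((1 : ℕ) : ℂ) • p)))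
        rw [Nat.cast_one, one_smul, mul_div_mul_right _ _ hp2]
        exact d.torsion_some hq hqM hp1 v
      · change IsAlgebraic ℚ ((d.θ0.1 (M p) * (d.θ (b i)).1 (((1 : ℕ) : ℂ) • p)) /
          (d.θ0.1 (M p) * d.θ0.1 (((1 : ℕ) : ℂ) • p)))
        rw [Nat.cast_one, one_smul, mul_div_mul_left _ _ hp1]
        exact d.torsion_some hq hqp hp2 (b i))
    have h2 := alg_const' (alg_pd h1 k)
    rw [hT, hNn, xs_cancel_right h10 hM0, constantCoeff_pd_xs hM0] at h2
    have h3 : ∑ i, d.dx v i / (d.θ0.1 0) ^ 2 * M (Pi.single k 1) i =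
        ((cmp M d.θ0).1 0 * D (Pi.single k 1) (cmp M (d.θ v)).1 0 -
        (cmp M (d.θ v)).1 0 * D (Pi.single k 1) (cmp M d.θ0).1 0) / ((cmp M d.θ0).1 0) ^ 2 := by
      rw [D_cmp, D_cmp, cmp_apply, cmp_apply, map_zero, D_lin, D_lin (d.θ0), Finset.mul_sum,
        Finset.mul_sum, ← Finset.sum_sub_distrib, Finset.sum_div]
      refine Finset.sum_congr rfl fun i _ => ?_
      unfold dx
      field_simp
    rw [h3]
    exact h2

end TD

end Pool.Agent.K9h14
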