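import Pool.Agent.K9h14.A6

set_option autoImplicit false
set_option linter.unusedVariables false
set_option linter.unusedSectionVars false

/-!
# Data on subspaces of powers of the tangent space
-/

open MvPowerSeries Filter Module
open scoped Topology

noncomputable section

namespace Pool.Agent.K9h14

open Pool.Agent.W245.EB Pool.Agent.Y102

/-- a group which spans is cocompact -/
theorem exists_coc {G : ℕ} (L : AddSubgroup (Fin G → ℂ))
    (h : Submodule.span ℝ (L : Set (Fin G → ℂ)) = ⊤) :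
    ∃ R0 : ℝ, 0 < R0 ∧ ∀ z, ∃ l ∈ L, ‖z - l‖ ≤ R0 := by
  obtain ⟨b, hbL, hbspan, hbli⟩ := exists_linearIndependent ℝ (L : Set (Fin G → ℂ))
  rw [h] at hbspan
  let B : Basis b ℝ (Fin G → ℂ) := Basis.mk hbli (by rw [Subtype.range_coe, hbspan])
  have : Fintype b := FiniteDimensional.fintypeBasisIndex B
  refine ⟨1 + ∑ i : b, ‖(i : Fin G → ℂ)‖, by positivity, fun z => ?_⟩
  refine ⟨∑ i : b, ⌊B.repr z i⌋ • (i : Fin G → ℂ), sum_mem fun i _ => L.zsmul_mem (hbL i.2) _, ?_⟩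
  have h1 : z - ∑ i : b, ⌊B.repr z i⌋ • (i : Fin G → ℂ) =
      ∑ i : b, Int.fract (B.repr z i) • (i : Fin G → ℂ) := by
    have h2 : ∀ i, B i = (i : Fin G → ℂ) := fun i => by rw [Basis.mk_apply]
    have h4 : z = ∑ i, B.repr z i • (i : Fin G → ℂ) := by
      conv_lhs => rw [← B.sum_repr z]
      exact Finset.sum_congr rfl fun i _ => by rw [h2]
    have h5 : z - ∑ i : b, ⌊B.repr z i⌋ • (i : Fin G → ℂ) =
        ∑ i, B.repr z i • (i : Fin G → ℂ) - ∑ i : b, ⌊B.repr z i⌋ • (i : Fin G → ℂ) :=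
      congrArg (· - ∑ i : b, ⌊B.repr z i⌋ • (i : Fin G → ℂ)) h4
    rw [h5, ← Finset.sum_sub_distrib]
    refine Finset.sum_congr rfl fun i _ => ?_
    rw [Int.fract, sub_smul]
    congr 1
    exact (Int.cast_smul_eq_zsmul ℝ _ _).symm
  rw [h1]
  refine (norm_sum_le _ _).trans ?_
  have h4 : ∑ i : b, ‖Int.fract (B.repr z i) • (i : Fin G → ℂ)‖ ≤ ∑ i : b, ‖(i : Fin G → ℂ)‖ := by
    refine Finset.sum_le_sum fun i _ => ?_
    rw [norm_smul, Real.norm_eq_abs, abs_of_nonneg (Int.fract_nonneg _)]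
    exact mul_le_of_le_one_left (norm_nonneg _) (Int.fract_lt_one _).le
  linarith

theorem grE_one {n : ℕ} : GrE (fun _ : Fin n → ℂ => (1 : ℂ)) :=
  ⟨0, le_rfl, fun z => by simp⟩

theorem grE_zero {n : ℕ} : GrE (fun _ : Fin n → ℂ => (0 : ℂ)) :=
  ⟨0, le_rfl, fun z => by simp⟩

theorem grE_sum {n : ℕ} {ι : Type*} (s : Finset ι) {f : ι → (Fin n → ℂ) → ℂ}
    (h : ∀ i ∈ s, GrE (f i)) : GrE (fun z => ∑ i ∈ s, f i z) := by
  classical
  induction s using Finset.induction_on with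
  | empty => simpa using grE_zero
  | insert a s ha ih =>
    simp only [Finset.sum_insert ha]
    exact GrE.add (h a (Finset.mem_insert_self _ _))
      (ih fun i hi => h i (Finset.mem_insert_of_mem hi))

theorem grE_prod {n : ℕ} {ι : Type*} (s : Finset ι) {f : ι → (Fin n → ℂ) → ℂ}
    (h : ∀ i ∈ s, GrE (f i)) : GrE (fun z => ∏ i ∈ s, f i z) := by
  classical
  induction s using Finset.induction_on with
  | empty => simpa using grE_one
  | insert a s ha ih =>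
    simp only [Finset.prod_insert ha]
    exact GrE.mul (h a (Finset.mem_insert_self _ _))
      (ih fun i hi => h i (Finset.mem_insert_of_mem hi))

theorem coeff_rename_alg' {V W : Type} {f : V → W} (hf : Function.Injective f)
    {Q : MvPolynomial V ℂ} (hQ : ∀ m, IsAlgebraic ℚ (Q.coeff m))
    (m : W →₀ ℕ) : IsAlgebraic ℚ ((MvPolynomial.rename f Q).coeff m) := by
  by_cases hm : ∃ m', Finsupp.mapDomain f m' = m
  · obtain ⟨m', rfl⟩ := hm
    rw [MvPolynomial.coeff_rename_mapDomain _ hf]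
    exact hQ _
  · rw [MvPolynomial.coeff_rename_eq_zero]
    · exact isAlgebraic_zero
    · intro m' hm'
      exact absurd ⟨m', hm'⟩ hm

/-- composition with a linear map -/
def cmg {G g : ℕ} (P : (Fin G → ℂ) →L[ℂ] (Fin g → ℂ)) : Ent (Fin g) →ₐ[ℂ] Ent (Fin G) where
  toFun F := ⟨fun z => F.1 (P z), fun z _ => (F.2 (P z) trivial).fun_comp (P.analyticAt z)⟩
  map_one' := rfl
  map_mul' _ _ := rfl
  map_zero' := rfl
  map_add' _ _ := rfl
  commutes' _ := rfl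

theorem cmg_apply {G g : ℕ} (P : (Fin G → ℂ) →L[ℂ] (Fin g → ℂ)) (F : Ent (Fin g)) (z : Fin G → ℂ) :
    (cmg P F).1 z = F.1 (P z) := rfl

/-- derivatives of a composition -/
theorem fderiv_cmg {G g : ℕ} (P : (Fin G → ℂ) →L[ℂ] (Fin g → ℂ)) {F : (Fin g → ℂ) → ℂ}
    {z : Fin G → ℂ} (hF : DifferentiableAt ℂ F (P z)) (v : Fin G → ℂ) :
    fderiv ℂ (fun z => F (P z)) z v = ∑ k, P v k * fderiv ℂ F (P z) (Pi.single k 1) := by
  have h1 : HasFDerivAt (fun z => F (P z)) ((fderiv ℂ F (P z)).comp P) z :=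
    hF.hasFDerivAt.comp z P.hasFDerivAt
  rw [h1.fderiv]
  change fderiv ℂ F (P z) (P v) = _
  have h2 : P v = ∑ k, P v k • (Pi.single k (1 : ℂ) : Fin g → ℂ) := by
    conv_lhs => rw [← Finset.univ_sum_single (P v)]
    refine Finset.sum_congr rfl fun j _ => ?_
    rw [← Pi.single_smul, smul_eq_mul, mul_one]
  conv_lhs => rw [h2, map_sum]
  exact Finset.sum_congr rfl fun k _ => by rw [map_smul, smul_eq_mul]

variable {g : ℕ} (A : AbVar g)

/-- the theta functions -/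
def te (i : Fin (A.N + 1)) : Ent (Fin g) := ⟨A.θ i, A.entire i⟩

theorem exists_qcc {u : Fin g → ℂ} (h : ∃ w ∈ A.lat, A.per w = u) : ∃ c : ℂ,
    ∀ i z, A.θ i (z + u) = Complex.exp (∑ k, A.etaR u k * z k + c) * A.θ i z := by
  obtain ⟨w, hw, rfl⟩ := h
  obtain ⟨c, hc⟩ := A.quasi_lat hw
  refine ⟨c, fun i z => ?_⟩
  rw [A.etaR_per]
  exact hc i z

open Classical in
/-- the constant in the quasi-periodicity -/
def qcc (u : Fin g → ℂ) : ℂ :=
  if h : ∃ w ∈ A.lat, A.per w = u then (exists_qcc A h).choose else 0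

theorem qcc_spec {u : Fin g → ℂ} (h : ∃ w ∈ A.lat, A.per w = u) (i : Fin (A.N + 1))
    (z : Fin g → ℂ) :
    A.θ i (z + u) = Complex.exp (∑ k, A.etaR u k * z k + qcc A u) * A.θ i z := by
  unfold qcc
  rw [dif_pos h]
  exact (exists_qcc A h).choose_spec i z

theorem qcc_pd {u : Fin g → ℂ} (h : ∃ w ∈ A.lat, A.per w = u) (k : Fin g)
    (z : Fin g → ℂ) : pd k (A.θ 0) (z + u) =
      Complex.exp (∑ k, A.etaR u k * z k + qcc A u) *
        (A.etaR u k * A.θ 0 z + pd k (A.θ 0) z) :=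
  A.pd_add 0 (qcc_spec A h 0) k z

/-- a family of linear maps to the tangent space, and an algebraic form -/
structure Fam (A : AbVar g) (n G : ℕ) where
  P : Fin n → (Fin G → ℂ) →L[ℂ] (Fin g → ℂ)
  alg : ∀ a i k, IsAlgebraic ℚ (P a (Pi.single i 1) k)
  inj : ∀ z, (∀ a, P a z = 0) → z = 0
  span : Submodule.span ℝ {z | ∀ a, ∃ w ∈ A.lat, A.per w = P a z} = ⊤
  α : Fin n → Fin g → ℂ
  β : Fin n → Fin g → ℂ
  hα : ∀ a k, IsAlgebraic ℚ (α a k)
  hβ : ∀ a k, IsAlgebraic ℚ (β a k)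

namespace Fam

variable {A} {n G : ℕ} (f : Fam A n G)

/-- the lattice -/
def L : AddSubgroup (Fin G → ℂ) where
  carrier := {z | ∀ a, ∃ w ∈ A.lat, A.per w = f.P a z}
  zero_mem' := fun a => ⟨0, A.lat.zero_mem, by rw [map_zero, map_zero]⟩
  add_mem' := fun {x y} hx hy a => by
    obtain ⟨w, hw, h⟩ := hx a
    obtain ⟨w', hw', h'⟩ := hy a
    exact ⟨w + w', A.lat.add_mem hw hw', by rw [map_add, map_add, h, h']⟩
  neg_mem' := fun {x} hx a => by
    obtain ⟨w, hw, h⟩ := hx a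
    exact ⟨-w, A.lat.neg_mem hw, by rw [map_neg, map_neg, h]⟩

/-- the factor -/
def ee (l z : Fin G → ℂ) (a : Fin n) : ℂ :=
  Complex.exp (∑ k, A.etaR (f.P a l) k * f.P a z k + qcc A (f.P a l))

theorem th_add {l : Fin G → ℂ} (hl : l ∈ f.L) (z : Fin G → ℂ) (a : Fin n) (i : Fin (A.N + 1)) :
    (cmg (f.P a) (te A i)).1 (z + l) = f.ee l z a * (cmg (f.P a) (te A i)).1 z := by
  change A.θ i (f.P a (z + l)) = _ * A.θ i (f.P a z)
  rw [map_add]
  exact qcc_spec A (hl a) i _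

/-- the summands of the quasi-periodic function -/
def fa (a : Fin n) : Ent (Fin g) :=
  ∑ k, (f.α a k • (⟨fun z => z k, fun z _ =>
    (ContinuousLinearMap.proj k : (Fin g → ℂ) →L[ℂ] ℂ).analyticAt z⟩ * te A 0) +
      f.β a k • pdE k (te A 0))

theorem fa_apply (a : Fin n) (z : Fin g → ℂ) : (f.fa a).1 z =
    ∑ k, (f.α a k * (z k * A.θ 0 z) + f.β a k * pd k (A.θ 0) z) := by
  unfold fa
  rw [TD.DP.ent_sum_apply]
  rfl

/-- the form, on the tangent space -/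
def κa (a : Fin n) (u : Fin g → ℂ) : ℂ := ∑ k, (f.α a k * u k + f.β a k * A.etaR u k)

theorem fa_add {l : Fin G → ℂ} (hl : l ∈ f.L) (z : Fin G → ℂ) (a : Fin n) :
    (cmg (f.P a) (f.fa a)).1 (z + l) = f.ee l z a *
      ((cmg (f.P a) (f.fa a)).1 z + f.κa a (f.P a l) * (cmg (f.P a) (te A 0)).1 z) := by
  rw [cmg_apply, cmg_apply, fa_apply, fa_apply, map_add]
  change _ = f.ee l z a * (_ + _ * A.θ 0 (f.P a z))
  unfold κa
  rw [Finset.sum_mul, ← Finset.sum_add_distrib, Finset.mul_sum]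
  refine Finset.sum_congr rfl fun k _ => ?_
  rw [qcc_spec A (hl a), qcc_pd A (hl a), Pi.add_apply]
  unfold ee
  ring

/-- the products over the other factors -/
def Rr (a : Fin n) : Ent (Fin G) := ∏ b ∈ Finset.univ.erase a, cmg (f.P b) (te A 0)

def T0 : Ent (Fin G) := ∏ a, cmg (f.P a) (te A 0)

theorem T0_eq (a : Fin n) : f.T0 = cmg (f.P a) (te A 0) * f.Rr a :=
  (Finset.mul_prod_erase _ _ (Finset.mem_univ a)).symm

theorem Rr_add {l : Fin G → ℂ} (hl : l ∈ f.L) (z : Fin G → ℂ) (a : Fin n) :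
    (f.Rr a).1 (z + l) = (∏ b ∈ Finset.univ.erase a, f.ee l z b) * (f.Rr a).1 z := by
  unfold Rr
  rw [TD.DP.ent_prod_apply, TD.DP.ent_prod_apply, ← Finset.prod_mul_distrib]
  exact Finset.prod_congr rfl fun b _ => f.th_add hl z b 0

theorem T0_add {l : Fin G → ℂ} (hl : l ∈ f.L) (z : Fin G → ℂ) :
    f.T0.1 (z + l) = (∏ b, f.ee l z b) * f.T0.1 z := by
  unfold T0
  rw [TD.DP.ent_prod_apply, TD.DP.ent_prod_apply, ← Finset.prod_mul_distrib]
  exact Finset.prod_congr rfl fun b _ => f.th_add hl z b 0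

/-- the theta functions -/
def Th (v : Fin n × Fin (A.N + 1)) : Ent (Fin G) := cmg (f.P v.1) (te A v.2) * f.Rr v.1

/-- the quasi-periodic function -/
def Ph : Ent (Fin G) := ∑ a, cmg (f.P a) (f.fa a) * f.Rr a

/-- the form -/
def κ (z : Fin G → ℂ) : ℂ := ∑ a, f.κa a (f.P a z)

theorem ee_prod (l z : Fin G → ℂ) : ∏ b, f.ee l z b = Complex.exp (∑ j,
    (∑ a, ∑ k, A.etaR (f.P a l) k * f.P a (Pi.single j 1) k) * z j + ∑ a, qcc A (f.P a l)) := by
  unfold ee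
  rw [← Complex.exp_sum, Finset.sum_add_distrib]
  congr 2
  have h1 : ∀ a k, f.P a z k = ∑ j, f.P a (Pi.single j 1) k * z j := by
    intro a k
    have h2 : z = ∑ j, z j • (Pi.single j (1 : ℂ) : Fin G → ℂ) := by
      conv_lhs => rw [← Finset.univ_sum_single z]
      refine Finset.sum_congr rfl fun j _ => ?_
      rw [← Pi.single_smul, smul_eq_mul, mul_one]
    conv_lhs => rw [h2, map_sum, Finset.sum_apply]
    refine Finset.sum_congr rfl fun j _ => ?_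
    rw [map_smul, Pi.smul_apply, smul_eq_mul, mul_comm]
  have h3 : ∀ j, (∑ a, ∑ k, A.etaR (f.P a l) k * f.P a (Pi.single j 1) k) * z j =
      ∑ a, ∑ k, A.etaR (f.P a l) k * f.P a (Pi.single j 1) k * z j := by
    intro j
    rw [Finset.sum_mul]
    exact Finset.sum_congr rfl fun a _ => by rw [Finset.sum_mul]
  rw [Finset.sum_congr rfl fun j _ => h3 j]
  symm
  rw [Finset.sum_comm]
  refine Finset.sum_congr rfl fun a _ => ?_
  rw [Finset.sum_comm]
  refine Finset.sum_congr rfl fun k _ => ?_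
  rw [h1, Finset.mul_sum]
  exact Finset.sum_congr rfl fun j _ => by ring

theorem T0_ne_imp {z : Fin G → ℂ} (hz : f.T0.1 z ≠ 0) (a : Fin n) :
    A.θ 0 (f.P a z) ≠ 0 ∧ (f.Rr a).1 z ≠ 0 := by
  rw [f.T0_eq a] at hz
  exact ⟨left_ne_zero_of_mul hz, right_ne_zero_of_mul hz⟩

theorem Th_quot {z : Fin G → ℂ} (hz : f.T0.1 z ≠ 0) (v : Fin n × Fin (A.N + 1)) :
    (f.Th v).1 z / f.T0.1 z = A.θ v.2 (f.P v.1 z) / A.θ 0 (f.P v.1 z) := by
  obtain ⟨h1, h2⟩ := f.T0_ne_imp hz v.1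
  rw [f.T0_eq v.1]
  change (A.θ v.2 (f.P v.1 z) * (f.Rr v.1).1 z) / (A.θ 0 (f.P v.1 z) * (f.Rr v.1).1 z) = _
  rw [mul_div_mul_right _ _ h2]

theorem Ph_quot {z : Fin G → ℂ} (hz : f.T0.1 z ≠ 0) : f.Ph.1 z / f.T0.1 z =
    ∑ a, ∑ k, (f.α a k * f.P a z k + f.β a k * (pd k (A.θ 0) (f.P a z) / A.θ 0 (f.P a z))) := by
  unfold Ph
  rw [TD.DP.ent_sum_apply, Finset.sum_div]
  refine Finset.sum_congr rfl fun a _ => ?_
  obtain ⟨h1, h2⟩ := f.T0_ne_imp hz a
  rw [f.T0_eq a]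
  change ((f.fa a).1 (f.P a z) * (f.Rr a).1 z) / (A.θ 0 (f.P a z) * (f.Rr a).1 z) = _
  rw [mul_div_mul_right _ _ h2, fa_apply, Finset.sum_div]
  refine Finset.sum_congr rfl fun k _ => ?_
  field_simp

theorem T0_eventually {z : Fin G → ℂ} (hz : f.T0.1 z ≠ 0) : ∀ᶠ x in 𝓝 z, f.T0.1 x ≠ 0 :=
  (f.T0.2 z trivial).continuousAt.eventually_ne hz

end Fam

end Pool.Agent.K9h14
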