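import Pool.Agent.K9h14.B1

set_option autoImplicit false
set_option linter.unusedVariables false
set_option linter.unusedSectionVars false

/-!
# Data on subspaces of powers of the tangent space
-/

open MvPowerSeries Filter Module
open scoped Topology

noncomputable section

namespace Pool.Agent.K9h14

open Pool.Agent.W245.EB Pool.Agent.Y102

variable {g : ℕ} {A : AbVar g}

/-- the lattice of periods is discrete -/
theorem per_lat_fin (A : AbVar g) (R : ℝ) :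
    {u : Fin g → ℂ | (∃ w ∈ A.lat, A.per w = u) ∧ ‖u‖ ≤ R}.Finite := by
  refine (ZSpan.setFinite_inter A.lam (Metric.isBounded_closedBall (x := 0) (r := R))).subset ?_
  rintro u ⟨⟨w, hw, rfl⟩, hu⟩
  refine ⟨by rw [Metric.mem_closedBall, dist_zero_right]; exact hu, ?_⟩
  have h1 : A.lat ≤ ((Submodule.span ℤ (Set.range A.lam)).toAddSubgroup).comap
      A.per.toAddMonoidHom := by
    unfold AbVar.lat
    rw [AddSubgroup.closure_le]
    rintro _ ⟨j, rfl⟩
    change A.per (A.bas j) ∈ Submodule.span ℤ (Set.range A.lam)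
    rw [A.per_bas]
    exact Submodule.subset_span (Set.mem_range_self j)
  exact h1 hw

namespace Fam

variable {n G : ℕ} (f : Fam A n G)

theorem L_fin (R : ℝ) : {l : Fin G → ℂ | l ∈ f.L ∧ ‖l‖ ≤ R}.Finite := by
  let Φ : (Fin G → ℂ) → (Fin n → Fin g → ℂ) := fun z a => f.P a z
  have hinj : Function.Injective Φ := by
    intro z z' h
    rw [← sub_eq_zero]
    apply f.inj
    intro a
    rw [map_sub, sub_eq_zero]
    exact congrFun h a
  have h1 : (Set.pi Set.univ fun a => {u : Fin g → ℂ | (∃ w ∈ A.lat, A.per w = u) ∧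
      ‖u‖ ≤ ‖f.P a‖ * R}).Finite := Set.Finite.pi fun a => per_lat_fin A _
  refine (h1.preimage hinj.injOn).subset ?_
  rintro l ⟨hl, hlR⟩ a _
  exact ⟨hl a, ((f.P a).le_opNorm l).trans (mul_le_mul_of_nonneg_left hlR (norm_nonneg _))⟩

theorem κa_add (a : Fin n) (u u' : Fin g → ℂ) : f.κa a (u + u') = f.κa a u + f.κa a u' := by
  unfold κa
  rw [map_add, ← Finset.sum_add_distrib]
  exact Finset.sum_congr rfl fun k _ => by
    rw [Pi.add_apply, Pi.add_apply]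
    ring

theorem κ_add (z z' : Fin G → ℂ) : f.κ (z + z') = f.κ z + f.κ z' := by
  unfold κ
  rw [← Finset.sum_add_distrib]
  exact Finset.sum_congr rfl fun a _ => by rw [map_add, κa_add]

def ja (l : Fin G → ℂ) (j : Fin G) : ℂ :=
  ∑ a, ∑ k, A.etaR (f.P a l) k * f.P a (Pi.single j 1) k

def jb (l : Fin G → ℂ) : ℂ := ∑ a, qcc A (f.P a l)

theorem ee_mul_erase (l z : Fin G → ℂ) (a : Fin n) :
    f.ee l z a * ∏ b ∈ Finset.univ.erase a, f.ee l z b =
      Complex.exp (∑ j, f.ja l j * z j + f.jb l) := by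
  rw [Finset.mul_prod_erase _ _ (Finset.mem_univ a), ee_prod]
  rfl

theorem qp0' {l : Fin G → ℂ} (hl : l ∈ f.L) (z : Fin G → ℂ) :
    f.T0.1 (z + l) = Complex.exp (∑ j, f.ja l j * z j + f.jb l) * f.T0.1 z := by
  rw [f.T0_add hl, ee_prod]
  rfl

theorem qp' {l : Fin G → ℂ} (hl : l ∈ f.L) (v : Fin n × Fin (A.N + 1)) (z : Fin G → ℂ) :
    (f.Th v).1 (z + l) = Complex.exp (∑ j, f.ja l j * z j + f.jb l) * (f.Th v).1 z := by
  change (cmg (f.P v.1) (te A v.2)).1 (z + l) * (f.Rr v.1).1 (z + l) = _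
  rw [f.th_add hl, f.Rr_add hl, ← f.ee_mul_erase l z v.1]
  change _ = _ * ((cmg (f.P v.1) (te A v.2)).1 z * (f.Rr v.1).1 z)
  ring

theorem T0_apply' (a : Fin n) (z : Fin G → ℂ) :
    f.T0.1 z = (cmg (f.P a) (te A 0)).1 z * (f.Rr a).1 z := by
  rw [f.T0_eq a]
  rfl

theorem qpφ' {l : Fin G → ℂ} (hl : l ∈ f.L) (z : Fin G → ℂ) :
    f.Ph.1 (z + l) = Complex.exp (∑ j, f.ja l j * z j + f.jb l) *
      (f.Ph.1 z + f.κ l * f.T0.1 z) := by
  unfold Ph κ
  rw [TD.DP.ent_sum_apply, TD.DP.ent_sum_apply, Finset.sum_mul, ← Finset.sum_add_distrib,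
    Finset.mul_sum]
  refine Finset.sum_congr rfl fun a _ => ?_
  change (cmg (f.P a) (f.fa a)).1 (z + l) * (f.Rr a).1 (z + l) = _ *
    ((cmg (f.P a) (f.fa a)).1 z * (f.Rr a).1 z + _)
  rw [f.fa_add hl, f.Rr_add hl, ← f.ee_mul_erase l z a, f.T0_apply' a]
  ring

theorem one' : f.T0.1 0 ≠ 0 := by
  unfold T0
  rw [TD.DP.ent_prod_apply]
  refine Finset.prod_ne_zero_iff.2 fun a _ => ?_
  rw [cmg_apply, map_zero]
  change A.θ 0 0 ≠ 0
  rw [A.origin.1]
  exact one_ne_zero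

theorem ent_diff {G : ℕ} (F : Ent (Fin G)) (z : Fin G → ℂ) : DifferentiableAt ℂ F.1 z :=
  (F.2 z trivial).differentiableAt

theorem imm' (v : Fin G → ℂ)
    (h : ∀ p, f.T0.1 0 * D v (f.Th p).1 0 = (f.Th p).1 0 * D v f.T0.1 0) : v = 0 := by
  apply f.inj
  intro a
  apply A.immersion
  intro i
  have h1 := h (a, i)
  have h2 : D v (f.Th (a, i)).1 0 = (cmg (f.P a) (te A i)).1 0 * D v (f.Rr a).1 0 +
      (f.Rr a).1 0 * D v (cmg (f.P a) (te A i)).1 0 :=
    D_mul_fun (ent_diff _ _) (ent_diff _ _) v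
  have h3 : D v f.T0.1 0 = (cmg (f.P a) (te A 0)).1 0 * D v (f.Rr a).1 0 +
      (f.Rr a).1 0 * D v (cmg (f.P a) (te A 0)).1 0 := by
    rw [f.T0_eq a]
    exact D_mul_fun (ent_diff _ _) (ent_diff _ _) v
  have h4 : ∀ i, D v (cmg (f.P a) (te A i)).1 0 = fderiv ℂ (A.θ i) 0 (f.P a v) := by
    intro i
    have h5 : HasFDerivAt (fun z => A.θ i (f.P a z))
        ((fderiv ℂ (A.θ i) (f.P a 0)).comp (f.P a)) 0 :=
      (A.entire i _ trivial).differentiableAt.hasFDerivAt.comp 0 (f.P a).hasFDerivAt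
    change fderiv ℂ (fun z => A.θ i (f.P a z)) 0 v = _
    rw [h5.fderiv, map_zero]
    rfl
  have h6 : ∀ i, (cmg (f.P a) (te A i)).1 0 = A.θ i 0 := by
    intro i
    rw [cmg_apply, map_zero]
    rfl
  have h7 : (f.Rr a).1 0 ≠ 0 := (f.T0_ne_imp f.one' a).2
  have h8 : (f.Th (a, i)).1 0 = (cmg (f.P a) (te A i)).1 0 * (f.Rr a).1 0 := rfl
  rw [h2, h3, h8, f.T0_apply' a, h4, h4, h6, h6] at h1
  have h9 : (f.Rr a).1 0 ^ 2 * (A.θ 0 0 * fderiv ℂ (A.θ i) 0 (f.P a v)) =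
      (f.Rr a).1 0 ^ 2 * (A.θ i 0 * fderiv ℂ (A.θ 0) 0 (f.P a v)) := by
    linear_combination h1
  exact mul_left_cancel₀ (pow_ne_zero 2 h7) h9

/-- the coefficients of the derivatives -/
def qa (k : Fin g) (i : Fin (A.N + 1)) : Fin (A.N + 1) → Fin (A.N + 1) → ℂ :=
  (A.quot_alg k i).choose

def qb (k l : Fin g) : Fin (A.N + 1) → Fin (A.N + 1) → ℂ := (A.quot_alg' k l).choose

/-- the derivatives of the affine coordinates -/
def de (j : Fin G) (v : Fin n × Fin (A.N + 1)) : MvPolynomial (Fin n × Fin (A.N + 1)) ℂ :=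
  ∑ k, MvPolynomial.C (f.P v.1 (Pi.single j 1) k) *
    MvPolynomial.rename (fun i => (v.1, i)) (quad (qa (A := A) k v.2))

/-- the derivatives of the second kind function -/
def ep (j : Fin G) : MvPolynomial (Fin n × Fin (A.N + 1)) ℂ :=
  ∑ a, ∑ k, (MvPolynomial.C (f.α a k * f.P a (Pi.single j 1) k) +
    MvPolynomial.C (f.β a k) * ∑ l, MvPolynomial.C (f.P a (Pi.single j 1) l) *
      MvPolynomial.rename (fun i => (a, i)) (quad (qb (A := A) k l)))

theorem mk_inj (a : Fin n) : Function.Injective (fun i : Fin (A.N + 1) => (a, i)) :=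
  fun i j h => congrArg Prod.snd h

theorem coeff_ren (a : Fin n) {c : Fin (A.N + 1) → Fin (A.N + 1) → ℂ}
    (hc : ∀ p q, IsAlgebraic ℚ (c p q)) (m : Fin n × Fin (A.N + 1) →₀ ℕ) :
    IsAlgebraic ℚ ((MvPolynomial.rename (fun i => (a, i)) (quad c)).coeff m) :=
  coeff_rename_alg' (mk_inj a) (fun m => coeff_quad hc m) m

theorem deg_ren (a : Fin n) (c : Fin (A.N + 1) → Fin (A.N + 1) → ℂ) :
    (MvPolynomial.rename (fun i => (a, i)) (quad c)).totalDegree ≤ 2 :=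
  (MvPolynomial.totalDegree_rename_le _ _).trans (degree_quad c)

theorem deg_C_mul {V : Type} (c : ℂ) (Q : MvPolynomial V ℂ) {d : ℕ} (h : Q.totalDegree ≤ d) :
    (MvPolynomial.C c * Q).totalDegree ≤ d := by
  refine (MvPolynomial.totalDegree_mul _ _).trans ?_
  rw [MvPolynomial.totalDegree_C, zero_add]
  exact h

theorem de_alg (j : Fin G) (v : Fin n × Fin (A.N + 1)) (m : Fin n × Fin (A.N + 1) →₀ ℕ) :
    IsAlgebraic ℚ ((f.de j v).coeff m) := by
  unfold de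
  rw [MvPolynomial.coeff_sum]
  refine isAlg_sum _ fun k _ => ?_
  rw [MvPolynomial.coeff_C_mul]
  exact (f.alg _ _ _).mul (coeff_ren _ (A.quot_alg k v.2).choose_spec.1 _)

theorem de_deg (j : Fin G) (v : Fin n × Fin (A.N + 1)) : (f.de j v).totalDegree ≤ 2 := by
  unfold de
  exact MvPolynomial.totalDegree_finsetSum_le fun k _ => deg_C_mul _ _ (deg_ren _ _)

theorem ep_alg (j : Fin G) (m : Fin n × Fin (A.N + 1) →₀ ℕ) :
    IsAlgebraic ℚ ((f.ep j).coeff m) := by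
  unfold ep
  rw [MvPolynomial.coeff_sum]
  refine isAlg_sum _ fun a _ => ?_
  rw [MvPolynomial.coeff_sum]
  refine isAlg_sum _ fun k _ => ?_
  rw [MvPolynomial.coeff_add, MvPolynomial.coeff_C_mul, MvPolynomial.coeff_sum]
  refine IsAlgebraic.add ?_ ((f.hβ _ _).mul (isAlg_sum _ fun l _ => ?_))
  · rw [MvPolynomial.coeff_C]
    split_ifs
    · exact (f.hα _ _).mul (f.alg _ _ _)
    · exact isAlgebraic_zero
  · rw [MvPolynomial.coeff_C_mul]
    exact (f.alg _ _ _).mul (coeff_ren _ (A.quot_alg' k l).choose_spec.1 _)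

theorem ep_deg (j : Fin G) : (f.ep j).totalDegree ≤ 2 := by
  unfold ep
  refine MvPolynomial.totalDegree_finsetSum_le fun a _ =>
    MvPolynomial.totalDegree_finsetSum_le fun k _ => ?_
  refine (MvPolynomial.totalDegree_add _ _).trans (max_le ?_ ?_)
  · rw [MvPolynomial.totalDegree_C]
    exact Nat.zero_le _
  · exact deg_C_mul _ _ (MvPolynomial.totalDegree_finsetSum_le fun l _ =>
      deg_C_mul _ _ (deg_ren _ _))

/-- values of the affine coordinates -/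
theorem eval_ren {z : Fin G → ℂ} (hz : f.T0.1 z ≠ 0) (a : Fin n)
    (c : Fin (A.N + 1) → Fin (A.N + 1) → ℂ) :
    MvPolynomial.eval (fun q => (f.Th q).1 z / f.T0.1 z)
      (MvPolynomial.rename (fun i => (a, i)) (quad c)) =
    MvPolynomial.eval (fun q => A.θ q (f.P a z) / A.θ 0 (f.P a z)) (quad c) := by
  rw [MvPolynomial.eval_rename]
  congr 2
  funext i
  exact f.Th_quot hz (a, i)

theorem de_D (j : Fin G) (v : Fin n × Fin (A.N + 1)) (z : Fin G → ℂ) (hz : f.T0.1 z ≠ 0) :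
    fderiv ℂ (fun z => (f.Th v).1 z / f.T0.1 z) z (Pi.single j 1) =
      MvPolynomial.eval (fun q => (f.Th q).1 z / f.T0.1 z) (f.de j v) := by
  have h1 : (fun z => (f.Th v).1 z / f.T0.1 z) =ᶠ[𝓝 z]
      fun z => A.θ v.2 (f.P v.1 z) / A.θ 0 (f.P v.1 z) :=
    (f.T0_eventually hz).mono fun x hx => f.Th_quot hx v
  have h0 := (f.T0_ne_imp hz v.1).1
  rw [h1.fderiv_eq]
  have h2 := fderiv_cmg (f.P v.1) (F := fun u => A.θ v.2 u / A.θ 0 u) (z := z)
    ((A.entire v.2 _ trivial).fun_div (A.entire 0 _ trivial) h0).differentiableAt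
    (Pi.single j 1)
  rw [h2]
  unfold de
  rw [map_sum]
  refine Finset.sum_congr rfl fun k _ => ?_
  rw [map_mul, MvPolynomial.eval_C, f.eval_ren hz]
  congr 1
  exact (A.quot_alg k v.2).choose_spec.2 _ h0

theorem ep_D (j : Fin G) (z : Fin G → ℂ) (hz : f.T0.1 z ≠ 0) :
    fderiv ℂ (fun z => f.Ph.1 z / f.T0.1 z) z (Pi.single j 1) =
      MvPolynomial.eval (fun q => (f.Th q).1 z / f.T0.1 z) (f.ep j) := by
  have h1 : (fun z => f.Ph.1 z / f.T0.1 z) =ᶠ[𝓝 z]
      fun z => ∑ a, ∑ k, (f.α a k * f.P a z k +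
        f.β a k * (pd k (A.θ 0) (f.P a z) / A.θ 0 (f.P a z))) :=
    (f.T0_eventually hz).mono fun x hx => f.Ph_quot hx
  rw [h1.fderiv_eq]
  have h0 := fun a => (f.T0_ne_imp hz a).1
  have hd : ∀ a k, DifferentiableAt ℂ (fun u => pd k (A.θ 0) u / A.θ 0 u) (f.P a z) := fun a k =>
    ((analytic_pd (A.entire 0) k _ trivial).fun_div (A.entire 0 _ trivial)
      (h0 a)).differentiableAt
  have hl : ∀ a k, HasFDerivAt (fun z => f.P a z k)
      ((ContinuousLinearMap.proj k : (Fin g → ℂ) →L[ℂ] ℂ).comp (f.P a)) z := fun a k =>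
    ((ContinuousLinearMap.proj k : (Fin g → ℂ) →L[ℂ] ℂ).comp (f.P a)).hasFDerivAt
  have hq : ∀ a k, DifferentiableAt ℂ
      (fun z => pd k (A.θ 0) (f.P a z) / A.θ 0 (f.P a z)) z := fun a k =>
    DifferentiableAt.comp (g := fun u => pd k (A.θ 0) u / A.θ 0 u) z (hd a k)
      (f.P a).differentiableAt
  have hs : ∀ a k, DifferentiableAt ℂ (fun z => f.α a k * f.P a z k +
        f.β a k * (pd k (A.θ 0) (f.P a z) / A.θ 0 (f.P a z))) z := fun a k =>
    ((hl a k).differentiableAt.const_mul _).add ((hq a k).const_mul _)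
  rw [fderiv_fun_sum fun a _ => DifferentiableAt.fun_sum fun k _ => hs a k,
    sum_apply]
  unfold ep
  rw [map_sum]
  refine Finset.sum_congr rfl fun a _ => ?_
  rw [fderiv_fun_sum fun k _ => hs a k, sum_apply, map_sum]
  refine Finset.sum_congr rfl fun k _ => ?_
  rw [fderiv_fun_add ((hl a k).differentiableAt.const_mul _) ((hq a k).const_mul _),
    fderiv_const_mul (hl a k).differentiableAt, fderiv_const_mul (hq a k), (hl a k).fderiv]
  have h2 := fderiv_cmg (f.P a) (F := fun u => pd k (A.θ 0) u / A.θ 0 u) (z := z)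
    (hd a k) (Pi.single j 1)
  rw [add_apply, smul_apply, smul_apply, h2]
  change f.α a k * f.P a (Pi.single j 1) k + f.β a k * _ = _
  rw [map_add, map_mul, map_mul, map_mul, MvPolynomial.eval_C, MvPolynomial.eval_C,
    MvPolynomial.eval_C, map_sum]
  congr 2
  refine Finset.sum_congr rfl fun l _ => ?_
  rw [map_mul, MvPolynomial.eval_C, f.eval_ren hz]
  congr 1
  exact (A.quot_alg' k l).choose_spec.2 _ (h0 a)

theorem th_gr (a : Fin n) (i : Fin (A.N + 1)) : GrE (cmg (f.P a) (te A i)).1 :=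
  gr_comp (A.gr_theta i) (f.P a)

theorem pd_gr (a : Fin n) (k : Fin g) : GrE (fun z => pd k (A.θ 0) (f.P a z)) :=
  gr_comp (gr_pd (A.entire 0) (A.gr_theta 0) k) (f.P a)

theorem Rr_gr (a : Fin n) : GrE (f.Rr a).1 := by
  have h1 : (f.Rr a).1 = fun z => ∏ b ∈ Finset.univ.erase a, (cmg (f.P b) (te A 0)).1 z := by
    funext z
    unfold Rr
    rw [TD.DP.ent_prod_apply]
  rw [h1]
  exact grE_prod _ fun b _ => f.th_gr b 0

theorem T0_gr : GrE f.T0.1 := by
  have h1 : f.T0.1 = fun z => ∏ b, (cmg (f.P b) (te A 0)).1 z := by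
    funext z
    unfold T0
    rw [TD.DP.ent_prod_apply]
  rw [h1]
  exact grE_prod _ fun b _ => f.th_gr b 0

theorem Th_gr (v : Fin n × Fin (A.N + 1)) : GrE (f.Th v).1 :=
  GrE.mul (f.th_gr _ _) (f.Rr_gr _)

theorem fa_gr (a : Fin n) : GrE (cmg (f.P a) (f.fa a)).1 := by
  have h1 : (cmg (f.P a) (f.fa a)).1 = fun z => ∑ k, (f.α a k * (f.P a z k *
      (cmg (f.P a) (te A 0)).1 z) + f.β a k * pd k (A.θ 0) (f.P a z)) := by
    funext z
    rw [cmg_apply, fa_apply]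
    rfl
  rw [h1]
  refine grE_sum _ fun k _ => GrE.add (grE_const_mul (GrE.mul ?_ (f.th_gr a 0)) _)
    (grE_const_mul (f.pd_gr a k) _)
  exact grE_linear ((ContinuousLinearMap.proj k : (Fin g → ℂ) →L[ℂ] ℂ).comp (f.P a))

theorem Ph_gr : GrE f.Ph.1 := by
  have h1 : f.Ph.1 = fun z => ∑ a, (cmg (f.P a) (f.fa a)).1 z * (f.Rr a).1 z := by
    funext z
    unfold Ph
    rw [TD.DP.ent_sum_apply]
    rfl
  rw [h1]
  exact grE_sum _ fun a _ => GrE.mul (f.fa_gr a) (f.Rr_gr a)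

theorem x0' (v : Fin n × Fin (A.N + 1)) : IsAlgebraic ℚ ((f.Th v).1 0 / f.T0.1 0) := by
  rw [f.Th_quot f.one', map_zero, A.origin.1, div_one]
  exact A.origin.2.1 _

theorem ζ0' : IsAlgebraic ℚ (f.Ph.1 0 / f.T0.1 0) := by
  rw [f.Ph_quot f.one']
  refine isAlg_sum _ fun a _ => isAlg_sum _ fun k _ => ?_
  rw [map_zero, A.origin.1, div_one, Pi.zero_apply, mul_zero, zero_add]
  exact (f.hβ a k).mul (A.origin.2.2 k)

theorem coc' : ∃ R0 : ℝ, 0 < R0 ∧ ∀ z, ∃ l ∈ f.L, ‖z - l‖ ≤ R0 :=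
  exists_coc f.L f.span

/-- **the data** -/
def td : TD G where
  L := f.L
  fin := f.L_fin
  R0 := f.coc'.choose
  R0_pos := f.coc'.choose_spec.1
  coc := f.coc'.choose_spec.2
  κ := f.κ
  κ_add := fun l _ l' _ => f.κ_add l l'
  ja := f.ja
  jb := f.jb
  V := Fin n × Fin (A.N + 1)
  θ0 := f.T0
  θ := f.Th
  φ := f.Ph
  qp0 := fun l hl z => f.qp0' hl z
  qp := fun l hl v z => f.qp' hl v z
  qpφ := fun l hl z => f.qpφ' hl z
  one := f.one'
  imm := f.imm'
  δ := f.de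
  δ_alg := f.de_alg
  δ_deg := f.de_deg
  δ_D := f.de_D
  ε := f.ep
  ε_alg := f.ep_alg
  ε_deg := f.ep_deg
  ε_D := f.ep_D
  x0 := f.x0'
  ζ0 := f.ζ0'
  gr0 := f.T0_gr
  grθ := f.Th_gr
  grφ := f.Ph_gr

end Fam

end Pool.Agent.K9h14
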