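import Pool.Agent.K9h14.B2

set_option autoImplicit false
set_option linter.unusedVariables false
set_option linter.unusedSectionVars false

/-!
# The torsion values, and the endomorphisms of an abelian variety
-/

open MvPowerSeries Filter Module
open scoped Topology

noncomputable section

namespace Pool.Agent.K9h14

open Pool.Agent.W245.EB Pool.Agent.Y102

variable {g : ℕ} (A : AbVar g)

theorem single_alg {ι : Type} [DecidableEq ι] (i k : ι) :
    IsAlgebraic ℚ ((Pi.single i 1 : ι → ℂ) k) := by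
  by_cases h : k = i
  · subst h
    rw [Pi.single_eq_same]
    exact isAlgebraic_one
  · rw [Pi.single_eq_of_ne h]
    exact isAlgebraic_zero

theorem lam_mem (j : Fin (2 * g)) : ∃ w ∈ A.lat, A.per w = A.lam j :=
  ⟨A.bas j, AddSubgroup.subset_closure (Set.mem_range_self j), A.per_bas j⟩

/-- the standard data -/
def fid (α β : Fin g → ℂ) (hα : ∀ k, IsAlgebraic ℚ (α k)) (hβ : ∀ k, IsAlgebraic ℚ (β k)) :
    Fam A 1 g where
  P := fun _ => ContinuousLinearMap.id ℂ (Fin g → ℂ)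
  alg := fun _ i k => single_alg i k
  inj := fun z h => h 0
  span := by
    rw [eq_top_iff, ← A.lam.span_eq]
    refine Submodule.span_mono ?_
    rintro _ ⟨j, rfl⟩ _
    exact lam_mem A j
  α := fun _ => α
  β := fun _ => β
  hα := fun _ => hα
  hβ := fun _ => hβ

variable {A}

theorem fid_T0 {α β : Fin g → ℂ} {hα : ∀ k, IsAlgebraic ℚ (α k)} {hβ : ∀ k, IsAlgebraic ℚ (β k)}
    (z : Fin g → ℂ) : (fid A α β hα hβ).T0.1 z = A.θ 0 z := by
  unfold Fam.T0
  rw [TD.DP.ent_prod_apply, Finset.univ_unique, Finset.prod_singleton]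
  rfl

theorem fid_ee {α β : Fin g → ℂ} {hα : ∀ k, IsAlgebraic ℚ (α k)} {hβ : ∀ k, IsAlgebraic ℚ (β k)}
    (l z : Fin g → ℂ) : Complex.exp (∑ j, (fid A α β hα hβ).ja l j * z j +
      (fid A α β hα hβ).jb l) = Complex.exp (∑ k, A.etaR l k * z k + qcc A l) := by
  rw [← (fid A α β hα hβ).ee_mul_erase l z 0]
  have h1 : (Finset.univ.erase (0 : Fin 1)) = ∅ := by decide
  rw [h1, Finset.prod_empty, mul_one]
  rfl

theorem fid_L {α β : Fin g → ℂ} {hα : ∀ k, IsAlgebraic ℚ (α k)} {hβ : ∀ k, IsAlgebraic ℚ (β k)}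
    {l : Fin g → ℂ} : l ∈ (fid A α β hα hβ).L ↔ ∃ w ∈ A.lat, A.per w = l :=
  ⟨fun h => h 0, fun h _ => h⟩

/-- values of the coordinates at torsion points -/
theorem tors_theta {q : ℕ} (hq : 0 < q) {p : Fin g → ℂ}
    (hqp : ∃ w ∈ A.lat, A.per w = (q : ℂ) • p) (hp : A.θ 0 p ≠ 0) (i : Fin (A.N + 1)) :
    IsAlgebraic ℚ (A.θ i p / A.θ 0 p) := by
  let f := fid A 0 0 (fun _ => isAlgebraic_zero) (fun _ => isAlgebraic_zero)
  have hp' : f.T0.1 p ≠ 0 := by rw [fid_T0]; exact hp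
  have h1 := f.td.torsion_some hq (fid_L.2 hqp) hp' (0, i)
  have h2 := f.Th_quot hp' (0, i)
  change IsAlgebraic ℚ ((f.Th (0, i)).1 p / f.T0.1 p) at h1
  rw [h2] at h1
  exact h1

/-- values of the zeta functions at torsion points -/
theorem tors_zeta {q : ℕ} (hq : 0 < q) {p : Fin g → ℂ}
    (hqp : ∃ w ∈ A.lat, A.per w = (q : ℂ) • p) (hp : A.θ 0 p ≠ 0) (k : Fin g) :
    IsAlgebraic ℚ (pd k (A.θ 0) p / A.θ 0 p - A.etaR ((q : ℂ) • p) k / q) := by
  let f := fid A 0 (Pi.single k 1) (fun _ => isAlgebraic_zero) (fun j => single_alg k j)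
  have hp' : f.T0.1 p ≠ 0 := by rw [fid_T0]; exact hp
  have h1 := f.td.torsion_none hq (fid_L.2 hqp) hp'
  change IsAlgebraic ℚ (f.Ph.1 p / f.T0.1 p - f.κ ((q : ℂ) • p) / q) at h1
  rw [f.Ph_quot hp'] at h1
  have h2 : ∀ x : Fin g → ℂ, ∑ a : Fin 1, ∑ j, (f.α a j * f.P a p j + f.β a j * x j) = x k := by
    intro x
    rw [Finset.univ_unique, Finset.sum_singleton]
    change ∑ j, ((0 : ℂ) * p j + (Pi.single k 1 : Fin g → ℂ) j * x j) = x k
    rw [Finset.sum_eq_single k]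
    · rw [Pi.single_eq_same, zero_mul, zero_add, one_mul]
    · intro j _ hj
      rw [Pi.single_eq_of_ne hj, zero_mul, zero_mul, zero_add]
    · intro h
      exact absurd (Finset.mem_univ _) h
  have h3 : ∀ y x : Fin g → ℂ, ∑ a : Fin 1, ∑ j, (f.α a j * f.P a y j + f.β a j * x j) = x k := by
    intro y x
    rw [Finset.univ_unique, Finset.sum_singleton]
    change ∑ j, ((0 : ℂ) * y j + (Pi.single k 1 : Fin g → ℂ) j * x j) = x k
    rw [Finset.sum_eq_single k]
    · rw [Pi.single_eq_same, zero_mul, zero_add, one_mul]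
    · intro j _ hj
      rw [Pi.single_eq_of_ne hj, zero_mul, zero_mul, zero_add]
    · intro h
      exact absurd (Finset.mem_univ _) h
  have h4 := h2 fun j => pd j (A.θ 0) p / A.θ 0 p
  have h5 : f.κ ((q : ℂ) • p) = A.etaR ((q : ℂ) • p) k :=
    h3 ((q : ℂ) • p) (A.etaR ((q : ℂ) • p))
  rw [h5] at h1
  have h6 : (∑ a, ∑ j, (f.α a j * f.P a p j +
      f.β a j * (pd j (A.θ 0) (f.P a p) / A.θ 0 (f.P a p)))) = pd k (A.θ 0) p / A.θ 0 p := h4
  rw [h6] at h1
  exact h1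

theorem lat_zsmul {w : A.H1} (m : ℤ) (hw : w ∈ A.lat) : (m : ℚ) • w ∈ A.lat := by
  have h1 : (m : ℚ) • w = m • w := Int.cast_smul_eq_zsmul ℚ m w
  rw [h1]
  exact A.lat.zsmul_mem hw m

/-- every rational class has a multiple in the lattice -/
theorem exists_lat (w : A.H1) : ∃ m : ℕ, 0 < m ∧ (m : ℚ) • w ∈ A.lat := by
  refine ⟨∏ j, (w j).den, Finset.prod_pos fun j _ => (w j).pos, ?_⟩
  have h1 : ((∏ j, (w j).den : ℕ) : ℚ) • w = ∑ j, (((∏ j, (w j).den : ℕ) : ℚ) * w j) • A.bas j := by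
    have h2 : w = ∑ j, w j • A.bas j := by
      conv_lhs => rw [← A.bas.sum_repr w]
      rfl
    generalize ((∏ j, (w j).den : ℕ) : ℚ) = c
    have h3 : c • w = c • ∑ j, w j • A.bas j := congrArg (c • ·) h2
    rw [h3, Finset.smul_sum]
    exact Finset.sum_congr rfl fun j _ => by rw [smul_smul]
  rw [h1]
  refine sum_mem fun j _ => ?_
  obtain ⟨c, hc⟩ := Finset.dvd_prod_of_mem (fun j => (w j).den) (Finset.mem_univ j)
  have h2 : ((∏ j, (w j).den : ℕ) : ℚ) * w j = ((c * (w j).num : ℤ) : ℚ) := by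
    rw [hc]
    push_cast
    have h3 := Rat.mul_den_eq_num (w j)
    linear_combination (c : ℚ) * h3
  rw [h2]
  exact lat_zsmul _ (AddSubgroup.subset_closure (Set.mem_range_self j))

/-- **endomorphisms of an abelian variety are algebraic** -/
theorem hom_alg (M : (Fin g → ℂ) →L[ℂ] (Fin g → ℂ)) (hM : ∀ w : A.H1, ∃ w', A.per w' = M (A.per w))
    (k j : Fin g) : IsAlgebraic ℚ (M (Pi.single k 1) j) := by
  choose Q hQ using hM
  -- a common denominator
  choose m hm hm' using fun j : Fin (2 * g) => exists_lat (Q (A.bas j))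
  have hpos : 0 < ∏ j, m j := Finset.prod_pos fun j _ => hm j
  let f := fid A 0 0 (fun _ => isAlgebraic_zero) (fun _ => isAlgebraic_zero)
  let M' : (Fin g → ℂ) →L[ℂ] (Fin g → ℂ) := ((∏ j, m j : ℕ) : ℂ) • M
  have h1 : ∀ l ∈ f.L, M' l ∈ f.L := by
    intro l hl
    obtain ⟨w, hw, rfl⟩ := fid_L.1 hl
    rw [fid_L]
    have h2 : ∀ w ∈ A.lat, ∃ w' ∈ A.lat, A.per w' = M' (A.per w) := by
      intro w hw
      induction hw using AddSubgroup.closure_induction with
      | mem w hw =>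
        obtain ⟨j, rfl⟩ := hw
        obtain ⟨c, hc⟩ := Finset.dvd_prod_of_mem m (Finset.mem_univ j)
        refine ⟨((c : ℤ) : ℚ) • ((m j : ℚ) • Q (A.bas j)), lat_zsmul _ (hm' j), ?_⟩
        rw [map_smul, map_smul, hQ, smul_smul]
        change _ = ((∏ j, m j : ℕ) : ℂ) • M (A.per (A.bas j))
        rw [hc]
        have h3 : ∀ (q : ℚ) (v : Fin g → ℂ), q • v = (q : ℂ) • v := fun q v => by
          funext i
          rw [Pi.smul_apply, Pi.smul_apply, Rat.smul_def, smul_eq_mul]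
        rw [h3]
        congr 1
        push_cast
        ring
      | zero => exact ⟨0, A.lat.zero_mem, by rw [map_zero, map_zero]⟩
      | add a b _ _ ha hb =>
        obtain ⟨a', ha', ha''⟩ := ha
        obtain ⟨b', hb', hb''⟩ := hb
        exact ⟨a' + b', A.lat.add_mem ha' hb', by rw [map_add, map_add, map_add, ha'', hb'']⟩
      | neg a _ ha =>
        obtain ⟨a', ha', ha''⟩ := ha
        exact ⟨-a', A.lat.neg_mem ha', by rw [map_neg, map_neg, map_neg, ha'']⟩
    exact h2 w hw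
  have h2 := f.td.end_alg M' h1 k j
  have h3 : M' (Pi.single k 1) j = ((∏ j, m j : ℕ) : ℂ) * M (Pi.single k 1) j := rfl
  rw [h3] at h2
  have h4 : (((∏ j, m j : ℕ) : ℂ)) ≠ 0 := by exact_mod_cast hpos.ne'
  have h5 : M (Pi.single k 1) j = ((∏ j, m j : ℕ) : ℂ)⁻¹ *
      (((∏ j, m j : ℕ) : ℂ) * M (Pi.single k 1) j) := by
    rw [← mul_assoc, inv_mul_cancel₀ h4, one_mul]
  rw [h5]
  exact (IsAlgebraic.inv (isAlgebraic_natCast _)).mul h2

end Pool.Agent.K9h14
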