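import Pool.Agent.K9h14.B3

set_option autoImplicit false
set_option linter.unusedVariables false
set_option linter.unusedSectionVars false

/-!
# Hodge endomorphisms are de Rham-Betti endomorphisms
-/

open MvPowerSeries Filter Module
open scoped Topology

noncomputable section

namespace Pool.Agent.K9h14

open Pool.Agent.W245.EB Pool.Agent.Y102 Pool.Agent.W516.DR Pool.Agent.H204R3.GP

variable {g : ℕ} {A : AbVar g}

theorem pr_exp (d : ZD g) (M1 M2 : (Fin g → ℂ) →L[ℂ] (Fin g → ℂ)) (h1 : ∀ l ∈ d.L, M1 l ∈ d.L)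
    (h2 : ∀ l ∈ d.L, M2 l ∈ d.L) (hinj : ∀ v, M2 v = 0 → v = 0) (l z : Fin g → ℂ) :
    Complex.exp (∑ k, (d.pr M1 M2 h1 h2 hinj).ja l k * z k + (d.pr M1 M2 h1 h2 hinj).jb l) =
      Complex.exp (∑ k, d.ja (M1 l) k * M1 z k + d.jb (M1 l)) *
        Complex.exp (∑ k, d.ja (M2 l) k * M2 z k + d.jb (M2 l)) := by
  rw [ZD.lin_sum, ZD.lin_sum, ← Complex.exp_add]
  congr 1
  have h3 : ∑ k, (d.pr M1 M2 h1 h2 hinj).ja l k * z k =
      ∑ j, (∑ k, d.ja (M1 l) k * M1 (Pi.single j 1) k) * z j +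
      ∑ j, (∑ k, d.ja (M2 l) k * M2 (Pi.single j 1) k) * z j := by
    rw [← Finset.sum_add_distrib]
    exact Finset.sum_congr rfl fun j _ => add_mul _ _ _
  rw [h3]
  change _ + (d.jb (M1 l) + d.jb (M2 l)) = _
  ring

/-- the function of second kind with arbitrary coefficients -/
def faE (A : AbVar g) (α β : Fin g → ℂ) : Ent (Fin g) :=
  ∑ k, (α k • (⟨fun z => z k, fun z _ =>
    (ContinuousLinearMap.proj k : (Fin g → ℂ) →L[ℂ] ℂ).analyticAt z⟩ * te A 0) +
      β k • pdE k (te A 0))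

theorem faE_apply (α β : Fin g → ℂ) (z : Fin g → ℂ) : (faE A α β).1 z =
    ∑ k, (α k * (z k * A.θ 0 z) + β k * pd k (A.θ 0) z) := by
  unfold faE
  rw [TD.DP.ent_sum_apply]
  rfl

theorem faE_add (α β : Fin g → ℂ) {l : Fin g → ℂ} (hl : ∃ w ∈ A.lat, A.per w = l)
    (z : Fin g → ℂ) : (faE A α β).1 (z + l) = Complex.exp (∑ k, A.etaR l k * z k + qcc A l) *
      ((faE A α β).1 z + (∑ k, (α k * l k + β k * A.etaR l k)) * A.θ 0 z) := by
  rw [faE_apply, faE_apply, Finset.sum_mul, ← Finset.sum_add_distrib, Finset.mul_sum]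
  refine Finset.sum_congr rfl fun k _ => ?_
  rw [qcc_spec A hl, qcc_pd A hl, Pi.add_apply]
  ring

/-- the coefficients of a relation between functions of the second kind are algebraic -/
theorem rel_alg (M : (Fin g → ℂ) →L[ℂ] (Fin g → ℂ))
    (hM : ∀ l, (∃ w ∈ A.lat, A.per w = l) → ∃ w ∈ A.lat, A.per w = M l) (k : Fin g)
    {α β : Fin g → ℂ} (hβ : ∀ j, IsAlgebraic ℚ (β j))
    (hrel : ∀ l, (∃ w ∈ A.lat, A.per w = l) →
      A.etaR (M l) k = ∑ j, (α j * l j + β j * A.etaR l j)) (i : Fin g) :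
    IsAlgebraic ℚ (α i) := by
  let f := fid A 0 0 (fun _ => isAlgebraic_zero) (fun _ => isAlgebraic_zero)
  let d := f.td
  obtain ⟨b, _, hbJ⟩ := d.exists_b
  have hML : ∀ l ∈ d.L, M l ∈ d.L := fun l hl => fid_L.2 (hM l (fid_L.1 hl))
  have hMalg : ∀ m j, IsAlgebraic ℚ (M (Pi.single m 1) j) := d.end_alg M hML
  let F : Ent (Fin g) := cmp M (pdE k (te A 0)) * cmp (sc g (1 : ℕ)) d.θ0 -
    cmp M d.θ0 * faE A α β
  have hd0 : ∀ z, d.θ0.1 z = A.θ 0 z := fun z => fid_T0 z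
  have hee : ∀ l z : Fin g → ℂ, Complex.exp (∑ j, d.ja l j * z j + d.jb l) =
      Complex.exp (∑ k, A.etaR l k * z k + qcc A l) := fun l z => fid_ee l z
  have hF : ∀ z, F.1 z = pd k (A.θ 0) (M z) * A.θ 0 z - A.θ 0 (M z) * (faE A α β).1 z := by
    intro z
    change pd k (A.θ 0) (M z) * d.θ0.1 (((1 : ℕ) : ℂ) • z) - d.θ0.1 (M z) * (faE A α β).1 z = _
    rw [hd0, hd0, Nat.cast_one, one_smul]
  have hN : ∀ l ∈ d.L, ∀ z, F.1 (z + l) = Complex.exp (∑ k, (d.toZD.pr M (sc g (1 : ℕ)) hML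
      (fun l hl => d.sc_mem hl 1) (fun v hv => TD.sc_inj one_pos hv)).ja l k * z k +
      (d.toZD.pr M (sc g (1 : ℕ)) hML
      (fun l hl => d.sc_mem hl 1) (fun v hv => TD.sc_inj one_pos hv)).jb l) * F.1 z := by
    intro l hl z
    have hl1 := fid_L.1 hl
    have hl2 := hM l hl1
    have hs : ∀ x : Fin g → ℂ, sc g ((1 : ℕ) : ℂ) x = x := fun x => by
      rw [sc_apply, Nat.cast_one, one_smul]
    rw [pr_exp, hF, hF, hs, hs, hee, hee, map_add, qcc_pd A hl2, qcc_spec A hl2, qcc_spec A hl1,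
      faE_add α β hl1, hrel l hl1]
    ring
  let R := d.rd M (sc g (1 : ℕ)) hML (fun l hl => d.sc_mem hl 1)
      (fun v hv => TD.sc_inj one_pos hv) F hN b hbJ (fun v => d.XX0 1 (some v))
  have hT : ∀ z, R.d.θ0.1 z = A.θ 0 (M z) * A.θ 0 z := by
    intro z
    change d.θ0.1 (M z) * d.θ0.1 (((1 : ℕ) : ℂ) • z) = _
    rw [hd0, hd0, Nat.cast_one, one_smul]
  have hNn : R.N none = F := rfl
  have h1 := R.alg_zero d.dense_torsion (by
    rintro p ⟨q, hq, hqp⟩ hp o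
    rw [hT] at hp
    have hp1 := left_ne_zero_of_mul hp
    have hp2 := right_ne_zero_of_mul hp
    have hqM : (q : ℂ) • M p ∈ d.L := by
      rw [← map_smul]
      exact hML _ hqp
    have hqC : (q : ℂ) ≠ 0 := by exact_mod_cast hq.ne'
    rcases o with _ | i
    · change IsAlgebraic ℚ (F.1 p / R.d.θ0.1 p)
      have e1 := tors_zeta hq (fid_L.1 hqM) hp1 k
      have e2 := fun j => tors_zeta hq (fid_L.1 hqp) hp2 j
      have e3 := hrel _ (fid_L.1 hqp)
      have e4 : F.1 p / R.d.θ0.1 p = (pd k (A.θ 0) (M p) / A.θ 0 (M p) -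
          A.etaR ((q : ℂ) • M p) k / q) -
          ∑ j, β j * (pd j (A.θ 0) p / A.θ 0 p - A.etaR ((q : ℂ) • p) j / q) := by
        have e5 : ∀ j, β j * (pd j (A.θ 0) p / A.θ 0 p - A.etaR ((q : ℂ) • p) j / q) =
            (α j * (p j * A.θ 0 p) + β j * pd j (A.θ 0) p) * (A.θ 0 p)⁻¹ -
              (α j * ((q : ℂ) • p) j + β j * A.etaR ((q : ℂ) • p) j) * (q : ℂ)⁻¹ := by
          intro j
          rw [Pi.smul_apply, smul_eq_mul]
          field_simp
          ring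
        rw [Finset.sum_congr rfl fun j _ => e5 j, Finset.sum_sub_distrib, ← Finset.sum_mul,
          ← Finset.sum_mul, ← e3, ← faE_apply, hF, hT, map_smul M (q : ℂ) p]
        generalize A.etaR ((q : ℂ) • M p) k = x1
        generalize (faE A α β).1 p = x2
        generalize pd k (A.θ 0) (M p) = x3
        field_simp
        ring
      rw [e4]
      exact e1.sub (isAlg_sum _ fun j _ => (hβ j).mul (e2 j))
    · change IsAlgebraic ℚ ((d.θ0.1 (M p) * (d.θ (b i)).1 (((1 : ℕ) : ℂ) • p)) /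
        (d.θ0.1 (M p) * d.θ0.1 (((1 : ℕ) : ℂ) • p)))
      have hp1' : d.θ0.1 (M p) ≠ 0 := by rw [hd0]; exact hp1
      have hp2' : d.θ0.1 p ≠ 0 := by rw [hd0]; exact hp2
      rw [Nat.cast_one, one_smul, mul_div_mul_left _ _ hp1']
      exact d.torsion_some hq hqp hp2' (b i))
  have h2 := alg_const' (alg_pd h1 i)
  have hone : A.θ 0 0 ≠ 0 := by
    rw [A.origin.1]
    exact one_ne_zero
  have hT0 : R.d.θ0.1 0 ≠ 0 := by
    rw [hT, map_zero]
    exact mul_ne_zero hone hone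
  rw [hNn, constantCoeff_pd_xs hT0, ← fderiv_quot_eq hT0] at h2
  -- the derivative
  have h3 : (fun x => F.1 x / R.d.θ0.1 x) =ᶠ[𝓝 0] fun z =>
      (fun u => pd k (A.θ 0) u / A.θ 0 u) (M z) -
        ∑ j, (α j * z j + β j * (pd j (A.θ 0) z / A.θ 0 z)) := by
    have h4 : ∀ᶠ x in 𝓝 (0 : Fin g → ℂ), R.d.θ0.1 x ≠ 0 :=
      (R.d.θ0.2 0 trivial).continuousAt.eventually_ne hT0
    filter_upwards [h4] with x hx
    rw [hT] at hx ⊢
    have hp1 := left_ne_zero_of_mul hx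
    have hp2 := right_ne_zero_of_mul hx
    have h5 : ∑ j, (α j * x j + β j * (pd j (A.θ 0) x / A.θ 0 x)) =
        (faE A α β).1 x / A.θ 0 x := by
      rw [faE_apply, Finset.sum_div]
      refine Finset.sum_congr rfl fun j _ => ?_
      field_simp
    rw [h5, hF]
    change _ = pd k (A.θ 0) (M x) / A.θ 0 (M x) - _
    field_simp
  rw [h3.fderiv_eq] at h2
  have hd : ∀ k, DifferentiableAt ℂ (fun u => pd k (A.θ 0) u / A.θ 0 u) (0 : Fin g → ℂ) := fun k =>
    ((analytic_pd (A.entire 0) k _ trivial).fun_div (A.entire 0 _ trivial) hone).differentiableAt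
  have hd' : DifferentiableAt ℂ (fun u => pd k (A.θ 0) u / A.θ 0 u) (M (0 : Fin g → ℂ)) := by
    rw [map_zero]
    exact hd k
  have hl : ∀ j, HasFDerivAt (fun z : Fin g → ℂ => z j)
      (ContinuousLinearMap.proj j : (Fin g → ℂ) →L[ℂ] ℂ) 0 := fun j =>
    (ContinuousLinearMap.proj j : (Fin g → ℂ) →L[ℂ] ℂ).hasFDerivAt
  have hs : ∀ j, DifferentiableAt ℂ (fun z : Fin g → ℂ => α j * z j +
        β j * (pd j (A.θ 0) z / A.θ 0 z)) 0 := fun j =>
    ((hl j).differentiableAt.const_mul _).add ((hd j).const_mul _)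
  have h4 := fderiv_cmg M (F := fun u => pd k (A.θ 0) u / A.θ 0 u) (z := 0) hd' (Pi.single i 1)
  have hc : DifferentiableAt ℂ (fun z => (fun u => pd k (A.θ 0) u / A.θ 0 u) (M z)) 0 :=
    DifferentiableAt.comp (g := fun u => pd k (A.θ 0) u / A.θ 0 u) 0 hd' M.differentiableAt
  have h5 : fderiv ℂ (fun z => ∑ j, (α j * z j + β j * (pd j (A.θ 0) z / A.θ 0 z))) 0
      (Pi.single i 1) = α i + ∑ j, β j * fderiv ℂ (fun u => pd j (A.θ 0) u / A.θ 0 u) 0
        (Pi.single i 1) := by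
    rw [fderiv_fun_sum fun j _ => hs j, sum_apply]
    have h6 : ∀ j, fderiv ℂ (fun z : Fin g → ℂ => α j * z j +
        β j * (pd j (A.θ 0) z / A.θ 0 z)) 0 (Pi.single i 1) =
        α j * (Pi.single i 1 : Fin g → ℂ) j +
          β j * fderiv ℂ (fun u => pd j (A.θ 0) u / A.θ 0 u) 0 (Pi.single i 1) := by
      intro j
      rw [fderiv_fun_add ((hl j).differentiableAt.const_mul _) ((hd j).const_mul _),
        fderiv_const_mul (hl j).differentiableAt, fderiv_const_mul (hd j), (hl j).fderiv]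
      rfl
    rw [Finset.sum_congr rfl fun j _ => h6 j, Finset.sum_add_distrib, Finset.sum_eq_single i]
    · rw [Pi.single_eq_same, mul_one]
    · intro j _ hj
      rw [Pi.single_eq_of_ne hj, mul_zero]
    · intro h
      exact absurd (Finset.mem_univ _) h
  rw [fderiv_fun_sub hc (DifferentiableAt.fun_sum fun j _ => hs j), sub_apply, h4, h5,
    map_zero] at h2
  have halg : ∀ j l : Fin g, IsAlgebraic ℚ
      (fderiv ℂ (fun u => pd j (A.θ 0) u / A.θ 0 u) 0 (Pi.single l 1)) := by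
    intro j l
    obtain ⟨a, ha, h⟩ := A.quot_alg' j l
    rw [h 0 hone, eval_quad]
    refine isAlg_sum _ fun p _ => isAlg_sum _ fun q _ => (ha p q).mul ?_
    rw [A.origin.1, div_one, div_one]
    exact (A.origin.2.1 p).mul (A.origin.2.1 q)
  have h6 : IsAlgebraic ℚ (∑ m, M (Pi.single i 1) m *
      fderiv ℂ (fun u => pd k (A.θ 0) u / A.θ 0 u) 0 (Pi.single m 1)) :=
    isAlg_sum _ fun m _ => (hMalg i m).mul (halg k m)
  have h7 : IsAlgebraic ℚ (∑ j, β j * fderiv ℂ (fun u => pd j (A.θ 0) u / A.θ 0 u) 0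
      (Pi.single i 1)) := isAlg_sum _ fun j _ => (hβ j).mul (halg j i)
  have h8 := (h6.sub h2).sub h7
  have h9 : ∀ a b c : ℂ, a - (a - (c + b)) - b = c := fun a b c => by ring
  rw [h9] at h8
  exact h8

end Pool.Agent.K9h14
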