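import Pool.Agent.K9h14.B4
import Pool.Agent.Y102.AV7

set_option autoImplicit false
set_option linter.unusedVariables false
set_option linter.unusedSectionVars false

/-!
# Hodge endomorphisms are de Rham-Betti endomorphisms
-/

open Filter Module
open scoped Topology

noncomputable section

namespace Pool.Agent.K9h14

open Pool.Agent.W245.EB Pool.Agent.Y102 Pool.Agent.W516.DR Pool.Agent.H204R3.GP

variable {g : ℕ} {A : AbVar g}

/-- a complex linear map, as a continuous linear map -/
def toCLM (M : (Fin g → ℂ) →ₗ[ℂ] (Fin g → ℂ)) : (Fin g → ℂ) →L[ℂ] (Fin g → ℂ) :=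
  LinearMap.toContinuousLinearMap M

theorem toCLM_apply (M : (Fin g → ℂ) →ₗ[ℂ] (Fin g → ℂ)) (z : Fin g → ℂ) :
    toCLM M z = M z := rfl

theorem hodge_alg {Q : A.H1 →ₗ[ℚ] A.H1} {M : (Fin g → ℂ) →ₗ[ℂ] (Fin g → ℂ)}
    (hM : ∀ w, M (A.per w) = A.per (Q w)) (k j : Fin g) :
    IsAlgebraic ℚ (M (Pi.single k 1) j) :=
  hom_alg (A := A) (toCLM M) (fun w => ⟨Q w, (hM w).symm⟩) k j

/-- the adjoint for the real extension -/
theorem ext_adj {Q Q' : Module.End ℚ A.H1} (h : ∀ u v, A.om (Q u) v = A.om u (Q' v))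
    (u v : Fin g → ℂ) : A.E (A.ext Q u) v = A.E u (A.ext Q' v) := by
  have h1 : A.E.comp (A.ext Q) = A.E.compl₂ (A.ext Q') := by
    refine A.lam.ext fun i => A.lam.ext fun j => ?_
    rw [LinearMap.comp_apply, LinearMap.compl₂_apply, A.ext_lam, A.ext_lam]
    have h2 := h (A.bas i) (A.bas j)
    rw [← A.per_bas i, ← A.per_bas j, ← A.om_coe, ← A.om_coe, h2]
  have h2 := LinearMap.congr_fun (LinearMap.congr_fun h1 u) v
  rwa [LinearMap.comp_apply, LinearMap.compl₂_apply] at h2

/-- the adjoint of a Hodge endomorphism is a Hodge endomorphism -/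
theorem hodge_adj {Q Q' : Module.End ℚ A.H1} (h : ∀ u v, A.om (Q u) v = A.om u (Q' v))
    (hQ : IsHodgeEnd (A.per : A.H1 →+ (Fin g → ℂ)) Q) :
    IsHodgeEnd (A.per : A.H1 →+ (Fin g → ℂ)) Q' := by
  obtain ⟨M, hM⟩ := hQ
  have h0 : A.ext Q = M.restrictScalars ℝ := A.ext_per fun w => by
    rw [A.ext_apply]
    exact (hM w).symm
  have hI : ∀ v, A.ext Q' (Complex.I • v) = Complex.I • A.ext Q' v := by
    intro v
    rw [← sub_eq_zero]
    apply A.E_nondeg
    intro u
    rw [A.E_anti, map_sub]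
    have e1 : A.E u (A.ext Q' (Complex.I • v)) = A.E u (Complex.I • A.ext Q' v) := by
      rw [← ext_adj h, h0]
      have e2 := (A.E_I (M u) v).2
      have e3 := (A.E_I u (A.ext Q' v)).2
      have e4 := ext_adj h (Complex.I • u) v
      rw [h0] at e4
      change A.E (M (Complex.I • u)) v = _ at e4
      rw [map_smul] at e4
      change A.E (M u) (Complex.I • v) = _
      linarith
    rw [e1, sub_self, neg_zero]
  refine ⟨{ toFun := A.ext Q', map_add' := map_add _, map_smul' := fun c v => ?_ }, fun w => ?_⟩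
  · have e1 : c • v = c.re • v + c.im • (Complex.I • v) := by
      conv_lhs => rw [← Complex.re_add_im c]
      rw [add_smul, mul_smul]
      rfl
    have e2 : c • A.ext Q' v = c.re • A.ext Q' v + c.im • (Complex.I • A.ext Q' v) := by
      conv_lhs => rw [← Complex.re_add_im c]
      rw [add_smul, mul_smul]
      rfl
    rw [RingHom.id_apply, e1, map_add, map_smul, map_smul, hI, e2]
  · exact A.ext_apply Q' w

/-- the coefficients of the action -/
theorem lin_apply (M : (Fin g → ℂ) →ₗ[ℂ] (Fin g → ℂ)) (z : Fin g → ℂ) (k : Fin g) :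
    M z k = ∑ j, M (Pi.single j 1) k * z j := by
  have h2 : z = ∑ j, z j • (Pi.single j (1 : ℂ) : Fin g → ℂ) := by
    conv_lhs => rw [← Finset.univ_sum_single z]
    refine Finset.sum_congr rfl fun j _ => ?_
    rw [← Pi.single_smul, smul_eq_mul, mul_one]
  conv_lhs => rw [h2, map_sum, Finset.sum_apply]
  refine Finset.sum_congr rfl fun j _ => ?_
  rw [map_smul, Pi.smul_apply, smul_eq_mul, mul_comm]

theorem dR_inl (k : Fin g) (w : A.H1) : A.dR (Sum.inl k) w = A.per w k := rfl

theorem dR_inr (k : Fin g) (w : A.H1) : A.dR (Sum.inr k) w = A.eta w k := rfl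

/-- **Hodge endomorphisms are de Rham-Betti endomorphisms** -/
theorem drb_of_hodge {Q : Module.End ℚ A.H1}
    (hQ : IsHodgeEnd (A.per : A.H1 →+ (Fin g → ℂ)) Q) : IsDeRhamBettiEnd QBar A.dR Q := by
  obtain ⟨Q', hQ'⟩ := A.exists_adj Q
  obtain ⟨M', hM'⟩ := hodge_adj hQ' hQ
  obtain ⟨M, hM⟩ := hQ
  have hMa := fun k j => hodge_alg (A := A) hM k j
  have hMa' := fun k j => hodge_alg (A := A) hM' k j
  -- the coefficients
  let c : Fin g → Fin g ⊕ Fin g → ℂ := fun k i => A.basis.repr ((A.dR (Sum.inr k)).comp Q) i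
  have hc : ∀ k w, A.eta (Q w) k = ∑ j, (c k (Sum.inl j) * A.per w j + c k (Sum.inr j) * A.eta w j) := by
    intro k w
    have h1 := LinearMap.congr_fun (A.basis.sum_repr ((A.dR (Sum.inr k)).comp Q)) w
    rw [LinearMap.sum_apply, Fintype.sum_sum_type, A.coe_basis, ← Finset.sum_add_distrib] at h1
    exact h1.symm
  let c' : Fin g → Fin g ⊕ Fin g → ℂ := fun k i => A.basis.repr ((A.dR (Sum.inr k)).comp Q') i
  -- the second kind part of the coefficients
  have hper : ∀ w k, A.per (Q w) k = ∑ j, M (Pi.single j 1) k * A.per w j := by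
    intro w k
    have h1 : A.per (Q w) = M (A.per w) := (hM w).symm
    rw [h1, lin_apply]
  have hper' : ∀ w k, A.per (Q' w) k = ∑ j, M' (Pi.single j 1) k * A.per w j := by
    intro w k
    have h1 : A.per (Q' w) = M' (A.per w) := (hM' w).symm
    rw [h1, lin_apply]
  have h1 : ∀ v j, ∑ k, c k (Sum.inr j) * A.per v k = A.per (Q' v) j := by
    intro v j
    have h2 : ∀ u, ∑ j, (((∑ k, c k (Sum.inl j) * A.per v k) + A.eta (Q' v) j -
        ∑ k, A.eta v k * M (Pi.single j 1) k) * A.per u j +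
        ((∑ k, c k (Sum.inr j) * A.per v k) - A.per (Q' v) j) * A.eta u j) = 0 := by
      intro u
      have h3 := A.om_pairing (Q u) v
      rw [hQ' u v, A.om_pairing u (Q' v)] at h3
      rw [div_left_inj' AbVar.pi_ne] at h3
      have h4 : ∑ k, (A.eta (Q u) k * A.per v k - A.eta v k * A.per (Q u) k) =
          ∑ j, ((∑ k, c k (Sum.inl j) * A.per v k) * A.per u j +
            (∑ k, c k (Sum.inr j) * A.per v k) * A.eta u j -
            (∑ k, A.eta v k * M (Pi.single j 1) k) * A.per u j) := by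
        simp only [hc, hper, Finset.sum_mul, Finset.mul_sum]
        simp only [← Finset.sum_add_distrib, ← Finset.sum_sub_distrib]
        rw [Finset.sum_comm]
        refine Finset.sum_congr rfl fun j _ => Finset.sum_congr rfl fun k _ => ?_
        ring
      rw [h4, ← sub_eq_zero, ← Finset.sum_sub_distrib] at h3
      rw [← neg_eq_zero, ← h3, ← Finset.sum_neg_distrib]
      exact Finset.sum_congr rfl fun j _ => by ring
    have h3 := Fintype.linearIndependent_iff.1 A.indep_dR (Sum.elim
      (fun j => (∑ k, c k (Sum.inl j) * A.per v k) + A.eta (Q' v) j -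
        ∑ k, A.eta v k * M (Pi.single j 1) k)
      (fun j => (∑ k, c k (Sum.inr j) * A.per v k) - A.per (Q' v) j)) (by
        refine LinearMap.ext fun u => ?_
        rw [LinearMap.sum_apply, Fintype.sum_sum_type, ← Finset.sum_add_distrib]
        exact h2 u) (Sum.inr j)
    exact sub_eq_zero.1 h3
  have h2 : ∀ k j, c k (Sum.inr j) = M' (Pi.single k 1) j := by
    intro k j
    have h3 := Fintype.linearIndependent_iff.1 A.indep_dR (Sum.elim
      (fun k => c k (Sum.inr j) - M' (Pi.single k 1) j) (fun _ => 0)) (by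
        refine LinearMap.ext fun u => ?_
        rw [LinearMap.sum_apply, Fintype.sum_sum_type]
        simp only [Sum.elim_inl, Sum.elim_inr, LinearMap.smul_apply, smul_eq_mul, zero_mul,
          Finset.sum_const_zero, add_zero, LinearMap.zero_apply, sub_mul,
          Finset.sum_sub_distrib]
        have h4 := h1 u j
        rw [hper'] at h4
        exact sub_eq_zero.2 h4) (Sum.inl k)
    exact sub_eq_zero.1 h3
  have h3 : ∀ k j, IsAlgebraic ℚ (c k (Sum.inr j)) := fun k j => by
    rw [h2]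
    exact hMa' _ _
  -- the first kind part
  obtain ⟨N, hN, hN'⟩ : ∃ N : ℕ, 0 < N ∧ ∀ w ∈ A.lat, (N : ℚ) • Q w ∈ A.lat := by
    choose m hm hm' using fun j : Fin (2 * g) => exists_lat (Q (A.bas j))
    refine ⟨∏ j, m j, Finset.prod_pos fun j _ => hm j, fun w hw => ?_⟩
    induction hw using AddSubgroup.closure_induction with
    | mem w hw =>
      obtain ⟨j, rfl⟩ := hw
      obtain ⟨c, hc⟩ := Finset.dvd_prod_of_mem m (Finset.mem_univ j)
      have e1 : ((∏ j, m j : ℕ) : ℚ) • Q (A.bas j) =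
          ((c : ℤ) : ℚ) • ((m j : ℚ) • Q (A.bas j)) := by
        rw [hc, smul_smul]
        congr 1
        push_cast
        ring
      rw [e1]
      exact lat_zsmul _ (hm' j)
    | zero => rw [map_zero, smul_zero]; exact A.lat.zero_mem
    | add a b _ _ ha hb => rw [map_add, smul_add]; exact A.lat.add_mem ha hb
    | neg a _ ha => rw [map_neg, smul_neg]; exact A.lat.neg_mem ha
  have hq : ∀ (q : ℚ) (v : Fin g → ℂ), q • v = (q : ℂ) • v := fun q v => by
    funext i
    rw [Pi.smul_apply, Pi.smul_apply, Rat.smul_def, smul_eq_mul]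
  have hNM : ∀ w, ((N : ℂ) • toCLM M) (A.per w) = A.per ((N : ℚ) • Q w) := by
    intro w
    rw [map_smul, hq]
    change (N : ℂ) • M (A.per w) = _
    have e1 : M (A.per w) = A.per (Q w) := hM w
    rw [e1, Rat.cast_natCast]
  have h4 : ∀ k j, IsAlgebraic ℚ ((N : ℂ) * c k (Sum.inl j)) := by
    intro k j
    refine rel_alg (A := A) ((N : ℂ) • toCLM M) ?_ k (α := fun j => (N : ℂ) * c k (Sum.inl j))
      (β := fun j => (N : ℂ) * c k (Sum.inr j))
      (fun j => (isAlgebraic_natCast _).mul (h3 k j)) ?_ j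
    · rintro _ ⟨w, hw, rfl⟩
      exact ⟨_, hN' w hw, (hNM w).symm⟩
    · rintro _ ⟨w, hw, rfl⟩
      rw [hNM, A.etaR_per, A.etaR_per, map_smul, hq, Pi.smul_apply, hc, smul_eq_mul,
        Rat.cast_natCast, Finset.mul_sum]
      exact Finset.sum_congr rfl fun j _ => by ring
  have hNC : (N : ℂ) ≠ 0 := by exact_mod_cast hN.ne'
  have h5 : ∀ k j, IsAlgebraic ℚ (c k (Sum.inl j)) := by
    intro k j
    have e1 : c k (Sum.inl j) = (N : ℂ)⁻¹ * ((N : ℂ) * c k (Sum.inl j)) := by
      rw [← mul_assoc, inv_mul_cancel₀ hNC, one_mul]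
    rw [e1]
    exact (IsAlgebraic.inv (isAlgebraic_natCast _)).mul (h4 k j)
  -- the conclusion
  have hK : ∀ x : ℂ, IsAlgebraic ℚ x → ∃ y : QBar, algebraMap QBar ℂ y = x := fun x hx =>
    ⟨⟨x, mem_algebraicClosure_iff.2 hx⟩, rfl⟩
  have h6 : ∀ i j, ∃ y : QBar, algebraMap QBar ℂ y = Sum.elim
      (fun k => Sum.elim (fun j => M (Pi.single j 1) k) (fun _ => 0) j) (fun k => c k j) i := by
    intro i j
    apply hK
    rcases i with k | k
    · rcases j with j | j
      · exact hMa j k
      · exact isAlgebraic_zero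
    · rcases j with j | j
      · exact h5 k j
      · exact h3 k j
  choose a ha using h6
  refine ⟨a, fun i w => ?_⟩
  rw [Fintype.sum_sum_type]
  simp only [ha]
  rcases i with k | k
  · simp only [Sum.elim_inl, Sum.elim_inr, zero_mul, Finset.sum_const_zero, add_zero]
    exact hper w k
  · rw [← Finset.sum_add_distrib]
    exact hc k w

end Pool.Agent.K9h14
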