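import Pool.Agent.K9h14.B5

set_option autoImplicit false
set_option linter.unusedVariables false
set_option linter.unusedSectionVars false

/-!
# Hodge substructures of powers
-/

open Filter Module
open scoped Topology

noncomputable section

namespace Pool.Agent.K9h14

open Pool.Agent.W245.EB Pool.Agent.Y102 Pool.Agent.W516.DR Pool.Agent.H204R3.GP

variable {g n : ℕ} (A : AbVar g)

/-- the periods on a power -/
def perN (n : ℕ) : (Fin n → A.H1) →ₗ[ℚ] (Fin n → Fin g → ℂ) where
  toFun v a := A.per (v a)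
  map_add' u v := by
    funext a
    rw [Pi.add_apply, Pi.add_apply, map_add]
  map_smul' c v := by
    funext a
    rw [RingHom.id_apply, Pi.smul_apply, Pi.smul_apply, map_smul]

theorem perN_apply (v : Fin n → A.H1) (a : Fin n) : perN A n v a = A.per (v a) := rfl

theorem perN_inj {v : Fin n → A.H1} (h : perN A n v = 0) : v = 0 := by
  funext a
  apply A.per_inj
  rw [Pi.zero_apply, map_zero]
  exact congrFun h a

theorem perN_single (b : Fin n) (w : A.H1) :
    perN A n (Pi.single b w) = Pi.single b (A.per w) := by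
  funext a
  rw [perN_apply]
  by_cases h : a = b
  · subst h
    rw [Pi.single_eq_same, Pi.single_eq_same]
  · rw [Pi.single_eq_of_ne h, Pi.single_eq_of_ne h, map_zero]

/-- real linear maps which agree on the periods -/
theorem extN {S : Type*} [AddCommGroup S] [Module ℝ S] {F G : (Fin n → Fin g → ℂ) →ₗ[ℝ] S}
    (h : ∀ v, F (perN A n v) = G (perN A n v)) : F = G := by
  refine LinearMap.pi_ext' fun b => A.ext_per fun w => ?_
  rw [LinearMap.comp_apply, LinearMap.comp_apply, LinearMap.coe_single, ← perN_single]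
  exact h _

/-- the real span of a rational subspace -/
def RS (𝔟 : Submodule ℚ (Fin n → A.H1)) : Submodule ℝ (Fin n → Fin g → ℂ) :=
  Submodule.span ℝ (perN A n '' 𝔟)

theorem mem_RS {𝔟 : Submodule ℚ (Fin n → A.H1)} {v : Fin n → A.H1} (hv : v ∈ 𝔟) :
    perN A n v ∈ RS A 𝔟 := Submodule.subset_span ⟨v, hv, rfl⟩

/-- Hodge substructures -/
def IsHS (𝔟 : Submodule ℚ (Fin n → A.H1)) : Prop := ∀ x ∈ RS A 𝔟, Complex.I • x ∈ RS A 𝔟

/-- the real form -/
def En : (Fin n → Fin g → ℂ) →ₗ[ℝ] (Fin n → Fin g → ℂ) →ₗ[ℝ] ℝ :=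
  ∑ a, A.E.compl₁₂ (LinearMap.proj a) (LinearMap.proj a)

theorem En_apply (u v : Fin n → Fin g → ℂ) : En A u v = ∑ a, A.E (u a) (v a) := by
  unfold En
  rw [LinearMap.sum_apply, LinearMap.sum_apply]
  rfl

/-- the rational form -/
def omN : LinearMap.BilinForm ℚ (Fin n → A.H1) :=
  ∑ a, A.om.compl₁₂ (LinearMap.proj a) (LinearMap.proj a)

theorem omN_apply (u v : Fin n → A.H1) : omN A u v = ∑ a, A.om (u a) (v a) := by
  unfold omN
  rw [LinearMap.sum_apply, LinearMap.sum_apply]
  rfl

theorem omN_coe (u v : Fin n → A.H1) :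
    ((omN A u v : ℚ) : ℝ) = En A (perN A n u) (perN A n v) := by
  rw [omN_apply, En_apply]
  push_cast
  exact Finset.sum_congr rfl fun a _ => A.om_coe _ _

theorem En_anti (u v : Fin n → Fin g → ℂ) : En A u v = -En A v u := by
  rw [En_apply, En_apply, ← Finset.sum_neg_distrib]
  exact Finset.sum_congr rfl fun a _ => A.E_anti _ _

theorem En_I (u v : Fin n → Fin g → ℂ) :
    En A (Complex.I • u) (Complex.I • v) = En A u v := by
  rw [En_apply, En_apply]
  exact Finset.sum_congr rfl fun a _ => (A.E_I _ _).1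

theorem En_pos {u : Fin n → Fin g → ℂ} (h : En A (Complex.I • u) u = 0) : u = 0 := by
  by_contra hu
  obtain ⟨a, ha⟩ := Function.ne_iff.1 hu
  have h1 : 0 < ∑ a, A.E (u a) (Complex.I • u a) := by
    refine Finset.sum_pos' (fun b _ => ?_) ⟨a, Finset.mem_univ _, A.E_pos ha⟩
    by_cases hb : u b = 0
    · rw [hb, map_zero, LinearMap.zero_apply]
    · exact (A.E_pos hb).le
  rw [En_anti, En_apply] at h
  change -∑ a, A.E (u a) (Complex.I • u a) = 0 at h
  linarith

variable {A}

theorem orth_RS {𝔟 𝔟' : Submodule ℚ (Fin n → A.H1)} (h : ∀ b ∈ 𝔟, ∀ v ∈ 𝔟', omN A b v = 0) :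
    ∀ x ∈ RS A 𝔟, ∀ y ∈ RS A 𝔟', En A x y = 0 := by
  intro x hx y hy
  induction hx using Submodule.span_induction with
  | mem x hx =>
    obtain ⟨b, hb, rfl⟩ := hx
    induction hy using Submodule.span_induction with
    | mem y hy =>
      obtain ⟨v, hv, rfl⟩ := hy
      rw [← omN_coe, h b hb v hv, Rat.cast_zero]
    | zero => rw [map_zero]
    | add y z _ _ hy hz => rw [map_add, hy, hz, add_zero]
    | smul c y _ hy => rw [map_smul, hy, smul_zero]
  | zero => rw [map_zero, LinearMap.zero_apply]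
  | add y z _ _ hy hz => rw [map_add, LinearMap.add_apply, hy, hz, add_zero]
  | smul c y _ hy => rw [map_smul, LinearMap.smul_apply, hy, smul_zero]

/-- a Hodge substructure has a complement -/
theorem isCompl_of_HS {𝔟 : Submodule ℚ (Fin n → A.H1)} (h : IsHS A 𝔟) :
    IsCompl 𝔟 ((omN A).orthogonal 𝔟) := by
  have hrefl : (omN A (n := n)).IsRefl := by
    intro u v huv
    have h1 : ((omN A v u : ℚ) : ℝ) = 0 := by
      rw [omN_coe, En_anti, ← omN_coe, huv, Rat.cast_zero, neg_zero]
    exact_mod_cast h1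
  refine LinearMap.BilinForm.isCompl_orthogonal_of_restrict_nondegenerate hrefl
    (LinearMap.BilinForm.nondegenerate_restrict_of_disjoint_orthogonal _ hrefl ?_)
  rw [Submodule.disjoint_def]
  intro v hv hv'
  apply perN_inj A
  apply En_pos A
  exact orth_RS (𝔟 := 𝔟) (𝔟' := (omN A).orthogonal 𝔟) (fun b hb v hv => hv b hb) _
    (h _ (mem_RS A hv)) _ (mem_RS A hv')

/-- the blocks of an endomorphism -/
def blk (p : (Fin n → A.H1) →ₗ[ℚ] (Fin n → A.H1)) (a b : Fin n) : Module.End ℚ A.H1 :=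
  (LinearMap.proj a).comp (p.comp (LinearMap.single ℚ (fun _ => A.H1) b))

theorem blk_apply (p : (Fin n → A.H1) →ₗ[ℚ] (Fin n → A.H1)) (a b : Fin n) (w : A.H1) :
    blk p a b w = p (Pi.single b w) a := rfl

theorem blk_sum (p : (Fin n → A.H1) →ₗ[ℚ] (Fin n → A.H1)) (v : Fin n → A.H1) (a : Fin n) :
    p v a = ∑ b, blk p a b (v b) := by
  conv_lhs => rw [← Finset.univ_sum_single v, map_sum, Finset.sum_apply]
  rfl

/-- the real extension -/
def extR (p : (Fin n → A.H1) →ₗ[ℚ] (Fin n → A.H1)) :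
    (Fin n → Fin g → ℂ) →ₗ[ℝ] (Fin n → Fin g → ℂ) :=
  LinearMap.pi fun a => ∑ b, (A.ext (blk p a b)).comp (LinearMap.proj b)

theorem extR_per (p : (Fin n → A.H1) →ₗ[ℚ] (Fin n → A.H1)) (v : Fin n → A.H1) :
    extR p (perN A n v) = perN A n (p v) := by
  funext a
  unfold extR
  rw [LinearMap.pi_apply, LinearMap.sum_apply, perN_apply, blk_sum, map_sum]
  exact Finset.sum_congr rfl fun b _ => A.ext_apply _ _

theorem mem_of_extN {F : (Fin n → Fin g → ℂ) →ₗ[ℝ] (Fin n → Fin g → ℂ)}
    {S : Submodule ℝ (Fin n → Fin g → ℂ)} (h : ∀ v, F (perN A n v) ∈ S) (x : Fin n → Fin g → ℂ) :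
    F x ∈ S := by
  have h1 : S.mkQ.comp F = 0 := extN A fun v => by
    rw [LinearMap.comp_apply, LinearMap.zero_apply, Submodule.mkQ_apply,
      Submodule.Quotient.mk_eq_zero]
    exact h v
  have h2 := LinearMap.congr_fun h1 x
  rwa [LinearMap.comp_apply, LinearMap.zero_apply, Submodule.mkQ_apply,
    Submodule.Quotient.mk_eq_zero] at h2

/-- **the projector on a Hodge substructure** -/
theorem exists_proj {𝔟 : Submodule ℚ (Fin n → A.H1)} (h : IsHS A 𝔟) :
    ∃ (p : (Fin n → A.H1) →ₗ[ℚ] (Fin n → A.H1))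
      (π : (Fin n → Fin g → ℂ) →ₗ[ℂ] (Fin n → Fin g → ℂ)), (∀ v, p v ∈ 𝔟) ∧
      (∀ v ∈ 𝔟, p v = v) ∧ ∀ v, π (perN A n v) = perN A n (p v) := by
  have hc := isCompl_of_HS h
  set 𝔠 := (omN A).orthogonal 𝔟 with h𝔠
  let p : (Fin n → A.H1) →ₗ[ℚ] (Fin n → A.H1) := 𝔟.projection 𝔠 hc
  have hp1 : ∀ v, p v ∈ 𝔟 := fun v => Submodule.projection_apply_mem hc v
  have hp2 : ∀ v ∈ 𝔟, p v = v := fun v hv => Submodule.projection_apply_of_mem_left hc hv
  have hp3 : ∀ v, v - p v ∈ 𝔠 := by
    intro v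
    rw [← Submodule.projection_apply_eq_zero_iff hc]
    change p (v - p v) = 0
    rw [map_sub, hp2 _ (hp1 v), sub_self]
  have horth := orth_RS (𝔟 := 𝔟) (𝔟' := 𝔠) (fun b hb v hv => hv b hb)
  have hR1 : ∀ x, extR p x ∈ RS A 𝔟 := mem_of_extN fun v => by
    rw [extR_per]
    exact mem_RS A (hp1 v)
  have hR2 : ∀ x, x - extR p x ∈ RS A 𝔠 := by
    have h1 := mem_of_extN (F := LinearMap.id - extR p) (S := RS A 𝔠) fun v => by
      rw [LinearMap.sub_apply, LinearMap.id_apply, extR_per, ← map_sub]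
      exact mem_RS A (hp3 v)
    exact h1
  have hR3 : ∀ x ∈ RS A 𝔟, extR p x = x := by
    intro x hx
    induction hx using Submodule.span_induction with
    | mem x hx =>
      obtain ⟨v, hv, rfl⟩ := hx
      rw [extR_per, hp2 v hv]
    | zero => rw [map_zero]
    | add y z _ _ hy hz => rw [map_add, hy, hz]
    | smul c y _ hy => rw [map_smul, hy]
  have hI : ∀ x, extR p (Complex.I • x) = Complex.I • extR p x := by
    intro x
    set s' := x - extR p x with hs'
    have e1 : x = extR p x + s' := by rw [hs']; abel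
    have e2 : extR p (Complex.I • s') = 0 := by
      apply En_pos A
      have e3 : extR p (Complex.I • s') = Complex.I • s' -
        (Complex.I • s' - extR p (Complex.I • s')) := by abel
      have e4 := h _ (hR1 (Complex.I • s'))
      have e5 : En A (Complex.I • extR p (Complex.I • s')) (extR p (Complex.I • s')) =
          En A (Complex.I • extR p (Complex.I • s')) (Complex.I • s') -
          En A (Complex.I • extR p (Complex.I • s'))
            (Complex.I • s' - extR p (Complex.I • s')) := by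
        rw [map_sub]
        ring
      rw [e5, horth _ e4 _ (hR2 _), sub_zero, En_I]
      exact horth _ (hR1 _) _ (hR2 x)
    conv_lhs => rw [e1, smul_add, map_add, e2, add_zero]
    exact hR3 _ (h _ (hR1 x))
  refine ⟨p, { toFun := extR p, map_add' := map_add _, map_smul' := fun c v => ?_ }, hp1, hp2,
    fun v => extR_per p v⟩
  have e1 : c • v = c.re • v + c.im • (Complex.I • v) := by
    conv_lhs => rw [← Complex.re_add_im c]
    rw [add_smul, mul_smul]
    rfl
  have e2 : c • extR p v = c.re • extR p v + c.im • (Complex.I • extR p v) := by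
    conv_lhs => rw [← Complex.re_add_im c]
    rw [add_smul, mul_smul]
    rfl
  rw [RingHom.id_apply, e1, map_add, map_smul, map_smul, hI, e2]

/-- the blocks are Hodge endomorphisms -/
theorem blk_hodge {p : (Fin n → A.H1) →ₗ[ℚ] (Fin n → A.H1)}
    {π : (Fin n → Fin g → ℂ) →ₗ[ℂ] (Fin n → Fin g → ℂ)}
    (h : ∀ v, π (perN A n v) = perN A n (p v)) (a b : Fin n) :
    IsHodgeEnd (A.per : A.H1 →+ (Fin g → ℂ)) (blk p a b) := by
  refine ⟨(LinearMap.proj a).comp (π.comp (LinearMap.single ℂ (fun _ => Fin g → ℂ) b)),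
    fun w => ?_⟩
  change π (Pi.single b (A.per w)) a = A.per (blk p a b w)
  rw [← perN_single, h]
  rfl

end Pool.Agent.K9h14
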