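import Pool.Agent.K9h14.B6

set_option autoImplicit false
set_option linter.unusedVariables false
set_option linter.unusedSectionVars false

/-!
# Linear relations between periods with algebraic coefficients
-/

open Filter Module
open scoped Topology

noncomputable section

namespace Pool.Agent.K9h14

open Pool.Agent.W245.EB Pool.Agent.Y102 Pool.Agent.W516.DR Pool.Agent.H204R3.GP

variable {g n : ℕ} {A : AbVar g}

/-- the linear form -/
def frm (A : AbVar g) (α β : Fin n → Fin g → ℂ) : (Fin n → A.H1) →ₗ[ℚ] ℂ where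
  toFun v := ∑ a, ∑ k, (α a k * A.per (v a) k + β a k * A.eta (v a) k)
  map_add' u v := by
    rw [← Finset.sum_add_distrib]
    refine Finset.sum_congr rfl fun a _ => ?_
    rw [← Finset.sum_add_distrib]
    refine Finset.sum_congr rfl fun k _ => ?_
    rw [Pi.add_apply, map_add, map_add, Pi.add_apply, Pi.add_apply]
    ring
  map_smul' c v := by
    rw [RingHom.id_apply, Finset.smul_sum]
    refine Finset.sum_congr rfl fun a _ => ?_
    rw [Finset.smul_sum]
    refine Finset.sum_congr rfl fun k _ => ?_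
    rw [Pi.smul_apply, map_smul, map_smul, Pi.smul_apply, Pi.smul_apply, Rat.smul_def,
      Rat.smul_def, Rat.smul_def]
    ring

theorem frm_apply (α β : Fin n → Fin g → ℂ) (v : Fin n → A.H1) :
    frm A α β v = ∑ a, ∑ k, (α a k * A.per (v a) k + β a k * A.eta (v a) k) := rfl

theorem qsmul_eq (q : ℚ) (v : Fin n → Fin g → ℂ) : q • v = (q : ℂ) • v := by
  funext a i
  rw [Pi.smul_apply, Pi.smul_apply, Pi.smul_apply, Pi.smul_apply, Rat.smul_def, smul_eq_mul]

theorem exists_latN (w : Fin n → A.H1) :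
    ∃ m : ℕ, 0 < m ∧ ∀ a, (m : ℚ) • w a ∈ A.lat := by
  choose m hm hm' using fun a => exists_lat (w a)
  refine ⟨∏ a, m a, Finset.prod_pos fun a _ => hm a, fun a => ?_⟩
  obtain ⟨c, hc⟩ := Finset.dvd_prod_of_mem m (Finset.mem_univ a)
  have e1 : ((∏ j, m j : ℕ) : ℚ) • w a = ((c : ℤ) : ℚ) • ((m a : ℚ) • w a) := by
    rw [hc, smul_smul]
    congr 1
    push_cast
    ring
  rw [e1]
  exact lat_zsmul _ (hm' a)

/-- the data on the complement of a Hodge substructure -/
theorem exists_fam {α β : Fin n → Fin g → ℂ} (hα : ∀ a k, IsAlgebraic ℚ (α a k))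
    (hβ : ∀ a k, IsAlgebraic ℚ (β a k)) {p : (Fin n → A.H1) →ₗ[ℚ] (Fin n → A.H1)}
    {π : (Fin n → Fin g → ℂ) →ₗ[ℂ] (Fin n → Fin g → ℂ)} (hπ : ∀ v, π (perN A n v) = perN A n (p v))
    (hpp : ∀ v, p (p v) = p v) :
    ∃ (G : ℕ) (f : Fam A n G) (T : (Fin G → ℂ) →ₗ[ℂ] (Fin n → Fin g → ℂ)),
      f.α = α ∧ f.β = β ∧ (∀ z a, f.P a z = T z a) ∧ (∀ z, π (T z) = 0) ∧
      ∀ v, p v = 0 → ∃ z, T z = perN A n v := by
  classical
  -- the algebraic columns
  let col : Fin n × Fin g → (Fin n → Fin g → ℂ) := fun i =>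
    (Pi.single i.1 (Pi.single i.2 1) : Fin n → Fin g → ℂ) - π (Pi.single i.1 (Pi.single i.2 1))
  have hπalg : ∀ (i : Fin n × Fin g) (a : Fin n) (k : Fin g), IsAlgebraic ℚ (π (Pi.single i.1 (Pi.single i.2 1)) a k) := by
    rintro ⟨b, j⟩ a k
    have h1 := hom_alg (A := A)
      (toCLM ((LinearMap.proj a).comp (π.comp (LinearMap.single ℂ (fun _ => Fin g → ℂ) b))))
      (fun w => ⟨blk p a b w, by
        change A.per (blk p a b w) = π (Pi.single b (A.per w)) a
        rw [← perN_single, hπ]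
        rfl⟩) j k
    exact h1
  have hcol : ∀ i a k, IsAlgebraic ℚ (col i a k) := by
    intro i a k
    refine IsAlgebraic.sub ?_ (hπalg i a k)
    by_cases h : a = i.1
    · subst h
      rw [Pi.single_eq_same]
      exact single_alg _ _
    · rw [Pi.single_eq_of_ne h]
      exact isAlgebraic_zero
  -- the projector
  have hππ : ∀ x, π (π x) = π x := by
    intro x
    have h1 : (π.comp π).restrictScalars ℝ = π.restrictScalars ℝ := extN A fun v => by
      change π (π (perN A n v)) = π (perN A n v)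
      rw [hπ, hπ, hpp]
    exact LinearMap.congr_fun h1 x
  have hcolsum : ∀ x : Fin n → Fin g → ℂ, x - π x = ∑ i, x i.1 i.2 • col i := by
    intro x
    have h1 : x = ∑ i : Fin n × Fin g,
        x i.1 i.2 • (Pi.single i.1 (Pi.single i.2 1) : Fin n → Fin g → ℂ) := by
      rw [Fintype.sum_prod_type]
      conv_lhs => rw [← Finset.univ_sum_single x]
      refine Finset.sum_congr rfl fun a _ => ?_
      have h2 : x a = ∑ k, x a k • (Pi.single k (1 : ℂ) : Fin g → ℂ) := by
        conv_lhs => rw [← Finset.univ_sum_single (x a)]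
        refine Finset.sum_congr rfl fun j _ => ?_
        rw [← Pi.single_smul, smul_eq_mul, mul_one]
      have h3 : (Pi.single a (x a) : Fin n → Fin g → ℂ) =
          LinearMap.single ℂ (fun _ => Fin g → ℂ) a (x a) := rfl
      rw [h3, h2, map_sum]
      refine Finset.sum_congr rfl fun k _ => ?_
      rw [map_smul]
      rfl
    have h2 : π x = ∑ i : Fin n × Fin g,
        x i.1 i.2 • π (Pi.single i.1 (Pi.single i.2 1) : Fin n → Fin g → ℂ) := by
      conv_lhs => rw [h1]
      rw [map_sum]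
      exact Finset.sum_congr rfl fun i _ => map_smul _ _ _
    rw [h2]
    conv_lhs => lhs; rw [h1]
    rw [← Finset.sum_sub_distrib]
    exact Finset.sum_congr rfl fun i _ => (smul_sub _ _ _).symm
  obtain ⟨s, hs, hspan, hli⟩ := exists_linearIndependent ℂ (Set.range col)
  have hsf : s.Finite := (Set.finite_range col).subset hs
  have : Fintype s := hsf.fintype
  let e := Fintype.equivFin s
  let c : Fin (Fintype.card s) → (Fin n → Fin g → ℂ) := fun i => (e.symm i : Fin n → Fin g → ℂ)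
  have hcli : LinearIndependent ℂ c := hli.comp e.symm e.symm.injective
  let T : (Fin (Fintype.card s) → ℂ) →ₗ[ℂ] (Fin n → Fin g → ℂ) := Fintype.linearCombination ℂ c
  have hTs : ∀ z, T z = ∑ i, z i • c i := fun z => rfl
  have hTinj : ∀ z, T z = 0 → z = 0 := by
    intro z hz
    rw [hTs] at hz
    funext i
    exact Fintype.linearIndependent_iff.1 hcli z hz i
  have hcπ : ∀ i, π (c i) = 0 := by
    intro i
    obtain ⟨j, hj⟩ := hs (e.symm i).2
    have h1 : c i = col j := hj.symm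
    rw [h1]
    change π (_ - _) = 0
    rw [map_sub, hππ, sub_self]
  have hTπ : ∀ z, π (T z) = 0 := by
    intro z
    rw [hTs, map_sum]
    exact Finset.sum_eq_zero fun i _ => by rw [map_smul, hcπ, smul_zero]
  have hTsurj : ∀ x, π x = 0 → ∃ z, T z = x := by
    intro x hx
    have h1 := hcolsum x
    rw [hx, sub_zero] at h1
    have h2 : x ∈ Submodule.span ℂ s := by
      rw [hspan, h1]
      exact sum_mem fun i _ => Submodule.smul_mem _ _ (Submodule.subset_span ⟨i, rfl⟩)
    have h3 : Submodule.span ℂ s ≤ LinearMap.range T := by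
      rw [Submodule.span_le]
      intro y hy
      refine ⟨Pi.single (e ⟨y, hy⟩) 1, ?_⟩
      rw [hTs, Finset.sum_eq_single (e ⟨y, hy⟩)]
      · rw [Pi.single_eq_same, one_smul]
        change ((e.symm (e ⟨y, hy⟩) : s) : Fin n → Fin g → ℂ) = y
        rw [Equiv.symm_apply_apply]
      · intro j _ hj
        rw [Pi.single_eq_of_ne hj, zero_smul]
      · intro h
        exact absurd (Finset.mem_univ _) h
    exact h3 h2
  have hT0 : ∀ v, p v = 0 → ∃ z, T z = perN A n v := by
    intro v hv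
    apply hTsurj
    rw [hπ, hv, map_zero]
  let f : Fam A n (Fintype.card s) :=
    { P := fun a => LinearMap.toContinuousLinearMap ((LinearMap.proj a).comp T)
      alg := by
        intro a i k
        change IsAlgebraic ℚ (T (Pi.single i 1) a k)
        have h1 : T (Pi.single i 1) = c i := by
          rw [hTs, Finset.sum_eq_single i]
          · rw [Pi.single_eq_same, one_smul]
          · intro j _ hj
            rw [Pi.single_eq_of_ne hj, zero_smul]
          · intro h
            exact absurd (Finset.mem_univ _) h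
        obtain ⟨j, hj⟩ := hs (e.symm i).2
        have h2 : c i = col j := hj.symm
        rw [h1, h2]
        exact hcol j a k
      inj := fun z hz => hTinj z (funext fun a => hz a)
      span := by
        rw [eq_top_iff]
        intro z _
        have key : Submodule.span ℝ (perN A n '' (Set.range fun v => v - p v)) ≤
            Submodule.map (T.restrictScalars ℝ) (Submodule.span ℝ
              {z | ∀ a, ∃ w ∈ A.lat, A.per w =
                LinearMap.toContinuousLinearMap ((LinearMap.proj a).comp T) z}) := by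
          rw [Submodule.span_le]
          rintro _ ⟨_, ⟨v, rfl⟩, rfl⟩
          obtain ⟨z, hz⟩ := hT0 (v - p v) (by rw [map_sub, hpp, sub_self])
          obtain ⟨m, hm, hm'⟩ := exists_latN (v - p v)
          refine ⟨z, ?_, hz⟩
          have h1 : z = ((m : ℝ)⁻¹ : ℝ) • ((m : ℝ) • z) := by
            rw [smul_smul, inv_mul_cancel₀ (by exact_mod_cast hm.ne'), one_smul]
          rw [h1]
          refine Submodule.smul_mem _ _ (Submodule.subset_span fun a => ⟨_, hm' a, ?_⟩)
          change A.per ((m : ℚ) • (v - p v) a) = T ((m : ℝ) • z) a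
          have h2 : T ((m : ℝ) • z) = (m : ℝ) • T z := (T.restrictScalars ℝ).map_smul _ _
          rw [h2, hz, map_smul, Pi.smul_apply, perN_apply]
          funext k
          rw [Pi.smul_apply, Pi.smul_apply, Rat.smul_def, Complex.real_smul]
          push_cast
          rfl
        have h1 : T z - π (T z) ∈ Submodule.span ℝ (perN A n '' (Set.range fun v => v - p v)) := by
          have h2 := mem_of_extN (A := A) (F := LinearMap.id - π.restrictScalars ℝ)
            (S := Submodule.span ℝ (perN A n '' (Set.range fun v => v - p v))) (fun v => by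
              rw [LinearMap.sub_apply, LinearMap.id_apply, LinearMap.restrictScalars_apply, hπ,
                ← map_sub]
              exact Submodule.subset_span ⟨_, ⟨v, rfl⟩, rfl⟩) (T z)
          exact h2
        rw [hTπ, sub_zero] at h1
        obtain ⟨z', hz', hz''⟩ := key h1
        have h2 : z = z' := by
          rw [← sub_eq_zero]
          apply hTinj
          rw [map_sub, sub_eq_zero]
          exact hz''.symm
        rw [h2]
        exact hz'
      α := α
      β := β
      hα := hα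
      hβ := hβ }
  exact ⟨_, f, T, rfl, rfl, fun z a => rfl, hTπ, hT0⟩

/-- the form on the data -/
theorem fam_κ {G : ℕ} (f : Fam A n G) {T : (Fin G → ℂ) →ₗ[ℂ] (Fin n → Fin g → ℂ)}
    (hT : ∀ z a, f.P a z = T z a) {z : Fin G → ℂ} {v : Fin n → A.H1} (hz : T z = perN A n v) :
    f.κ z = frm A f.α f.β v := by
  unfold Fam.κ
  rw [frm_apply]
  refine Finset.sum_congr rfl fun a _ => ?_
  rw [hT, hz, perN_apply]
  unfold Fam.κa
  rw [A.etaR_per]

/-- **Linear relations between periods with algebraic coefficients** hold on a Hodge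
substructure -/
theorem exists_HS {α β : Fin n → Fin g → ℂ} (hα : ∀ a k, IsAlgebraic ℚ (α a k))
    (hβ : ∀ a k, IsAlgebraic ℚ (β a k)) {w : Fin n → A.H1} (hw : frm A α β w = 0) :
    ∃ 𝔟 : Submodule ℚ (Fin n → A.H1), IsHS A 𝔟 ∧ w ∈ 𝔟 ∧ ∀ v ∈ 𝔟, frm A α β v = 0 := by
  let S : Set (Submodule ℚ (Fin n → A.H1)) := {𝔟 | IsHS A 𝔟 ∧ ∀ v ∈ 𝔟, frm A α β v = 0}
  have hne : S.Nonempty := ⟨⊥, by
    intro x hx
    have h1 : RS A (⊥ : Submodule ℚ (Fin n → A.H1)) = ⊥ := by
      unfold RS
      rw [Submodule.bot_coe, Set.image_singleton, map_zero, Submodule.span_zero_singleton]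
    rw [h1, Submodule.mem_bot] at hx
    rw [hx, smul_zero]
    exact Submodule.zero_mem _, by
    intro v hv
    rw [(Submodule.mem_bot ℚ).1 hv, map_zero]⟩
  obtain ⟨𝔟, ⟨hb1, hb2⟩, hmax⟩ := (wellFounded_gt (α := Submodule ℚ (Fin n → A.H1))).has_min S hne
  refine ⟨𝔟, hb1, ?_, hb2⟩
  by_contra hwb
  obtain ⟨p, π, hp1, hp2, hπ⟩ := exists_proj hb1
  have hpp : ∀ v, p (p v) = p v := fun v => hp2 _ (hp1 v)
  obtain ⟨G, f, T, rfl, rfl, hfP, hTπ, hT0⟩ := exists_fam hα hβ hπ hpp
  have hTinj : ∀ z, T z = 0 → z = 0 := fun z hz => f.inj z fun a => by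
    rw [hfP, hz, Pi.zero_apply]
  -- the vector
  obtain ⟨m, hm, hm'⟩ := exists_latN (w - p w)
  obtain ⟨γ, hγ⟩ := hT0 ((m : ℚ) • (w - p w)) (by rw [map_smul, map_sub, hpp, sub_self, smul_zero])
  have hγL : γ ∈ f.td.L := by
    change ∀ a, ∃ w ∈ A.lat, A.per w = f.P a γ
    intro a
    refine ⟨_, hm' a, ?_⟩
    rw [hfP, hγ, perN_apply]
    rfl
  have hγ0 : γ ≠ 0 := by
    rintro rfl
    rw [map_zero] at hγ
    have h1 := perN_inj A hγ.symm
    rcases smul_eq_zero.1 h1 with h2 | h2
    · exact hm.ne' (by exact_mod_cast h2)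
    · apply hwb
      rw [sub_eq_zero.1 h2]
      exact hp1 w
  have hκ : f.td.κ γ = 0 := by
    change f.κ γ = 0
    rw [fam_κ f hfP hγ, map_smul, map_sub, hw, hb2 _ (hp1 w), sub_zero, smul_zero]
  obtain ⟨𝔥, h𝔥, hspan⟩ := f.td.main' hγL hγ0 hκ
  let 𝔠 : Submodule ℚ (Fin n → A.H1) :=
    { carrier := {v | ∃ z ∈ 𝔥, T z = perN A n v ∧ frm A f.α f.β v = 0}
      zero_mem' := ⟨0, 𝔥.zero_mem, by rw [map_zero, map_zero], map_zero _⟩
      add_mem' := by
        rintro u v ⟨z, hz, h1, h2⟩ ⟨z', hz', h1', h2'⟩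
        exact ⟨z + z', 𝔥.add_mem hz hz', by rw [map_add, map_add, h1, h1'], by
          rw [map_add, h2, h2', add_zero]⟩
      smul_mem' := by
        rintro c v ⟨z, hz, h1, h2⟩
        exact ⟨(c : ℂ) • z, 𝔥.smul_mem _ hz, by rw [map_smul, map_smul, h1, qsmul_eq], by
          rw [map_smul, h2, smul_zero]⟩ }
  have hRS1 : ∀ x ∈ RS A 𝔠, ∃ z ∈ 𝔥, T z = x := by
    intro x hx
    induction hx using Submodule.span_induction with
    | mem x hx =>
      obtain ⟨v, ⟨z, hz, h1, h2⟩, rfl⟩ := hx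
      exact ⟨z, hz, h1⟩
    | zero => exact ⟨0, 𝔥.zero_mem, map_zero _⟩
    | add x y _ _ hx hy =>
      obtain ⟨z, hz, rfl⟩ := hx
      obtain ⟨z', hz', rfl⟩ := hy
      exact ⟨z + z', 𝔥.add_mem hz hz', map_add _ _ _⟩
    | smul c x _ hx =>
      obtain ⟨z, hz, rfl⟩ := hx
      refine ⟨(c : ℂ) • z, 𝔥.smul_mem _ hz, ?_⟩
      rw [map_smul]
      rfl
  have hRS2 : ∀ z ∈ 𝔥, T z ∈ RS A 𝔠 := by
    intro z hz
    have h1 := hspan z hz
    have h2 : Submodule.span ℝ {l | l ∈ f.td.L ∧ l ∈ 𝔥 ∧ f.td.κ l = 0} ≤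
        (RS A 𝔠).comap (T.restrictScalars ℝ) := by
      rw [Submodule.span_le]
      rintro l ⟨hl1, hl2, hl3⟩
      have hl1' : ∀ a, ∃ w ∈ A.lat, A.per w = f.P a l := hl1
      choose v hv hv' using hl1'
      have h3 : T l = perN A n v := by
        funext a
        rw [← hfP, perN_apply, hv']
      change T l ∈ RS A 𝔠
      rw [h3]
      refine mem_RS A ⟨l, hl2, h3, ?_⟩
      rw [← fam_κ f hfP h3]
      exact hl3
    exact h2 h1
  -- the sum
  have hsum : 𝔟 ⊔ 𝔠 ∈ S := by
    refine ⟨?_, ?_⟩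
    · have h1 : RS A (𝔟 ⊔ 𝔠) ≤ RS A 𝔟 ⊔ RS A 𝔠 := by
        unfold RS
        rw [Submodule.span_le]
        rintro _ ⟨v, hv, rfl⟩
        obtain ⟨x, hx, y, hy, rfl⟩ := Submodule.mem_sup.1 hv
        rw [map_add]
        exact Submodule.add_mem_sup (mem_RS A hx) (mem_RS A hy)
      have h2 : RS A 𝔟 ⊔ RS A 𝔠 ≤ RS A (𝔟 ⊔ 𝔠) :=
        sup_le (Submodule.span_mono (Set.image_mono (SetLike.coe_subset_coe.2 le_sup_left)))
          (Submodule.span_mono (Set.image_mono (SetLike.coe_subset_coe.2 le_sup_right)))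
      intro x hx
      obtain ⟨y, hy, z, hz, rfl⟩ := Submodule.mem_sup.1 (h1 hx)
      rw [smul_add]
      refine h2 (Submodule.add_mem_sup (hb1 y hy) ?_)
      obtain ⟨t, ht, rfl⟩ := hRS1 z hz
      rw [← map_smul]
      exact hRS2 _ (𝔥.smul_mem _ ht)
    · intro v hv
      obtain ⟨x, hx, y, ⟨z, hz, h1, h2⟩, rfl⟩ := Submodule.mem_sup.1 hv
      rw [map_add, hb2 x hx, h2, add_zero]
  have hle : 𝔠 ≤ 𝔟 := by
    by_contra hcon
    apply hmax _ hsum
    refine lt_of_le_of_ne le_sup_left fun h => hcon ?_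
    rw [h]
    exact le_sup_right
  apply h𝔥
  rw [Submodule.eq_bot_iff]
  intro z hz
  apply hTinj
  have h1 : RS A 𝔠 ≤ ⊥ := by
    unfold RS
    rw [Submodule.span_le]
    rintro _ ⟨v, hv, rfl⟩
    obtain ⟨z, hz, h1, h2⟩ := hv
    have h3 : perN A n (p v) = 0 := by rw [← hπ, ← h1, hTπ]
    have h4 : p v = v := hp2 v (hle ⟨z, hz, h1, h2⟩)
    rw [h4] at h3
    exact h3
  exact h1 (hRS2 z hz)

/-- **Theorem W.** -/
theorem wuest {α β : Fin n → Fin g → ℂ} (hα : ∀ a k, IsAlgebraic ℚ (α a k))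
    (hβ : ∀ a k, IsAlgebraic ℚ (β a k)) {w : Fin n → A.H1} (hw : frm A α β w = 0)
    {X : Module.End ℚ A.H1}
    (hX : ∀ Q, IsHodgeEnd (A.per : A.H1 →+ (Fin g → ℂ)) Q → X * Q = Q * X) :
    frm A α β (fun a => X (w a)) = 0 := by
  obtain ⟨𝔟, hb1, hwb, hb2⟩ := exists_HS hα hβ hw
  obtain ⟨p, π, hp1, hp2, hπ⟩ := exists_proj hb1
  have h1 : (fun a => X (w a)) = p (fun a => X (w a)) := by
    funext a
    rw [blk_sum]
    have h2 : w a = ∑ b, blk p a b (w b) := by
      rw [← blk_sum, hp2 w hwb]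
    conv_lhs => rw [h2, map_sum]
    refine Finset.sum_congr rfl fun b _ => ?_
    have h3 := LinearMap.congr_fun (hX _ (blk_hodge hπ a b)) (w b)
    exact h3
  rw [h1]
  exact hb2 _ (hp1 _)

end Pool.Agent.K9h14
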