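import Pool.Agent.K9h14.B7
import Pool.Agent.R917.GrpLie

set_option autoImplicit false
set_option linter.unusedVariables false
set_option linter.unusedSectionVars false

/-!
# Descent to the algebraic numbers
-/

open Module

noncomputable section

namespace Pool.Agent.K9h14

open Pool.Agent.Y102 Pool.Agent.W516.DR

section descent

variable {κ : Type} [Fintype κ] [DecidableEq κ]

/-- **Descent**: subspaces stable under the derivations are spanned by algebraic points. -/
theorem descent (M : Submodule ℂ (κ → ℂ))
    (hM : ∀ (D : Derivation QBar ℂ ℂ), ∀ x ∈ M, (fun i => D (x i)) ∈ M) :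
    ∀ x ∈ M, x ∈ Submodule.span ℂ {y | y ∈ M ∧ ∀ i, IsAlgebraic ℚ (y i)} := by
  classical
  let ε : κ → (M →ₗ[ℂ] ℂ) := fun i => (LinearMap.proj i).comp M.subtype
  obtain ⟨κ', a, ha, hsp, hli⟩ := exists_linearIndependent' ℂ ε
  have _ : Finite κ' := Finite.of_injective a ha
  have _ : Fintype κ' := Fintype.ofFinite κ'
  -- the coordinates
  have hc : ∀ i, ∃ c : κ' → ℂ, ∀ x ∈ M, x i = ∑ j, c j * x (a j) := by
    intro i
    have h1 : ε i ∈ Submodule.span ℂ (Set.range (ε ∘ a)) := by
      rw [hsp]
      exact Submodule.subset_span ⟨i, rfl⟩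
    obtain ⟨c, hc⟩ := (Submodule.mem_span_range_iff_exists_fun ℂ).1 h1
    refine ⟨c, fun x hx => ?_⟩
    have h2 := LinearMap.congr_fun hc ⟨x, hx⟩
    rw [LinearMap.sum_apply] at h2
    exact h2.symm
  choose c hc using hc
  have hcK : ∀ i j, IsAlgebraic ℚ (c i j) := by
    intro i j
    have h1 : ∀ D : Derivation QBar ℂ ℂ, D (c i j) = 0 := by
      intro D
      have h2 : ∑ j, D (c i j) • (ε ∘ a) j = 0 := by
        refine LinearMap.ext fun x => ?_
        rw [LinearMap.sum_apply, LinearMap.zero_apply]
        have h3 := hc i x x.2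
        have h4 := hc i _ (hM D x x.2)
        have h5 := congrArg D h3
        rw [map_sum] at h5
        simp only [Derivation.leibniz, smul_eq_mul] at h5
        rw [Finset.sum_add_distrib, h4] at h5
        have h6 : ∑ j, (x : κ → ℂ) (a j) * D (c i j) = 0 := by
          linear_combination -h5
        rw [← h6]
        refine Finset.sum_congr rfl fun j _ => ?_
        change D (c i j) * (x : κ → ℂ) (a j) = _
        ring
      exact Fintype.linearIndependent_iff.1 hli _ h2 j
    obtain ⟨y, hy⟩ := mem_of_derivation h1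
    rw [← hy]
    exact QBar.alg y
  -- the dual vectors
  let Φ : M →ₗ[ℂ] (κ' → ℂ) := LinearMap.pi fun j => ε (a j)
  have hinj : Function.Injective Φ := by
    rw [injective_iff_map_eq_zero]
    intro x hx
    apply Subtype.ext
    funext i
    rw [hc i x x.2]
    refine Finset.sum_eq_zero fun j _ => ?_
    have h1 : (x : κ → ℂ) (a j) = 0 := congrFun hx j
    rw [h1, mul_zero]
  have hsurj : Function.Surjective Φ := by
    have hb : Submodule.span ℂ (Set.range (ε ∘ a)) = ⊤ := by
      rw [eq_top_iff]
      intro f _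
      -- every functional extends to the whole space
      obtain ⟨F, hF⟩ := f.exists_extend
      have h1 : F = ∑ i, F (Pi.single i 1) • (LinearMap.proj i : (κ → ℂ) →ₗ[ℂ] ℂ) := by
        refine LinearMap.ext fun x => ?_
        have h2 : x = ∑ j, x j • (Pi.single j (1 : ℂ) : κ → ℂ) := by
          conv_lhs => rw [← Finset.univ_sum_single x]
          refine Finset.sum_congr rfl fun j _ => ?_
          rw [← Pi.single_smul, smul_eq_mul, mul_one]
        conv_lhs => rw [h2, map_sum]
        rw [LinearMap.sum_apply]
        refine Finset.sum_congr rfl fun j _ => ?_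
        rw [map_smul, LinearMap.smul_apply, smul_eq_mul, smul_eq_mul, mul_comm]
        rfl
      have h3 : f = ∑ i, F (Pi.single i 1) • ε i := by
        rw [← hF, h1]
        refine LinearMap.ext fun x => ?_
        rw [LinearMap.comp_apply, LinearMap.sum_apply, LinearMap.sum_apply]
        simp only [← h1]
        rfl
      rw [hsp, h3]
      exact sum_mem fun i _ => Submodule.smul_mem _ _ (Submodule.subset_span ⟨i, rfl⟩)
    have hcard : finrank ℂ M = Fintype.card κ' := by
      have h1 : finrank ℂ (Dual ℂ M) = Fintype.card κ' := by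
        rw [Module.finrank_eq_card_basis (Basis.mk hli hb.ge)]
      rw [← h1, Subspace.dual_finrank_eq]
    refine (LinearMap.injective_iff_surjective_of_finrank_eq_finrank ?_).1 hinj
    rw [hcard, Module.finrank_fintype_fun_eq_card]
  intro x hx
  have h1 : ∀ j : κ', ∃ m : M, Φ m = Pi.single j 1 := fun j => hsurj _
  choose m hm using h1
  have hm' : ∀ j j', (m j : κ → ℂ) (a j') = (Pi.single j 1 : κ' → ℂ) j' := fun j j' =>
    congrFun (hm j) j'
  have h2 : ∀ j i, (m j : κ → ℂ) i = c i j := by
    intro j i
    rw [hc i _ (m j).2, Finset.sum_eq_single j]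
    · rw [hm', Pi.single_eq_same, mul_one]
    · intro j' _ hj
      rw [hm', Pi.single_eq_of_ne hj, mul_zero]
    · intro h
      exact absurd (Finset.mem_univ _) h
  have h3 : x = ∑ j, x (a j) • (m j : κ → ℂ) := by
    funext i
    rw [Finset.sum_apply, hc i x hx]
    refine Finset.sum_congr rfl fun j _ => ?_
    rw [Pi.smul_apply, smul_eq_mul, h2, mul_comm]
  rw [h3]
  refine sum_mem fun j _ => Submodule.smul_mem _ _ (Submodule.subset_span ⟨(m j).2, fun i => ?_⟩)
  rw [h2]
  exact hcK i j

/-- decomposition of a finite family with respect to algebraic functionals -/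
theorem exists_dec (x : κ → ℂ) : ∃ (r : ℕ) (b : Fin r → ℂ) (lam : Fin r → (ℂ →ₗ[QBar] QBar)),
    ∀ i, x i = ∑ m, b m * (algebraMap QBar ℂ (lam m (x i))) := by
  classical
  let bL := Basis.ofVectorSpace QBar ℂ
  let s : Finset _ := Finset.univ.biUnion fun i => (bL.repr (x i)).support
  let e := s.equivFin
  refine ⟨s.card, fun m => bL (e.symm m), fun m => bL.coord (e.symm m), fun i => ?_⟩
  have h1 : x i = ∑ m ∈ s, bL.repr (x i) m • bL m := by
    conv_lhs => rw [← bL.linearCombination_repr (x i), Finsupp.linearCombination_apply]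
    exact Finsupp.sum_of_support_subset _
      (Finset.subset_biUnion_of_mem (fun i => (bL.repr (x i)).support) (Finset.mem_univ i)) _
      fun m _ => zero_smul _ _
  conv_lhs => rw [h1, ← Finset.sum_coe_sort, ← Equiv.sum_comp e.symm]
  refine Finset.sum_congr rfl fun m _ => ?_
  rw [Algebra.smul_def, mul_comm]
  rfl

/-- a nonzero number is not killed by all algebraic functionals -/
theorem exists_lam {x : ℂ} (hx : x ≠ 0) : ∃ lam : ℂ →ₗ[QBar] QBar, lam x ≠ 0 := by
  have h1 : x ∉ (⊥ : Submodule QBar ℂ) := by rwa [Submodule.mem_bot]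
  obtain ⟨lam, h, -⟩ := Submodule.exists_dual_map_eq_bot_of_notMem h1 inferInstance
  exact ⟨lam, h⟩

end descent

end Pool.Agent.K9h14
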