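import Pool.Agent.K9h14.B8

set_option autoImplicit false
set_option linter.unusedVariables false
set_option linter.unusedSectionVars false

/-!
# The associative algebra generated by the components of the logarithmic derivatives
-/

open Module Matrix

noncomputable section

namespace Pool.Agent.K9h14

open Pool.Agent.Y102 Pool.Agent.W516.DR Pool.Agent.H204R3.GP Pool.Agent.R917

/-- an algebraic functional, with values in the complex numbers -/
def lm (lam : ℂ →ₗ[QBar] QBar) (x : ℂ) : ℂ := algebraMap QBar ℂ (lam x)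

theorem lm_alg (lam : ℂ →ₗ[QBar] QBar) (x : ℂ) : IsAlgebraic ℚ (lm lam x) := QBar.alg _

theorem lm_add (lam : ℂ →ₗ[QBar] QBar) (x y : ℂ) : lm lam (x + y) = lm lam x + lm lam y := by
  unfold lm
  rw [map_add, map_add]

theorem lm_zero (lam : ℂ →ₗ[QBar] QBar) : lm lam 0 = 0 := by
  unfold lm
  rw [map_zero, map_zero]

theorem lm_sum (lam : ℂ →ₗ[QBar] QBar) {ι : Type*} (s : Finset ι) (f : ι → ℂ) :
    lm lam (∑ i ∈ s, f i) = ∑ i ∈ s, lm lam (f i) := by
  unfold lm
  rw [map_sum, map_sum]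

theorem exists_QBar {a : ℂ} (ha : IsAlgebraic ℚ a) : ∃ y : QBar, algebraMap QBar ℂ y = a :=
  ⟨⟨a, mem_algebraicClosure_iff.2 ha⟩, rfl⟩

theorem lm_mul (lam : ℂ →ₗ[QBar] QBar) {a : ℂ} (ha : IsAlgebraic ℚ a) (x : ℂ) :
    lm lam (x * a) = lm lam x * a := by
  obtain ⟨y, rfl⟩ := exists_QBar ha
  have h1 : x * algebraMap QBar ℂ y = y • x := by rw [Algebra.smul_def, mul_comm]
  unfold lm
  rw [h1, map_smul, smul_eq_mul, map_mul, mul_comm]

theorem der_alg (D : Derivation QBar ℂ ℂ) {a : ℂ} (ha : IsAlgebraic ℚ a) : D a = 0 := by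
  obtain ⟨y, rfl⟩ := exists_QBar ha
  exact D.map_algebraMap y

section mat

variable {κ : Type} [Fintype κ] [DecidableEq κ]

theorem map_mul_der (D : Derivation QBar ℂ ℂ) (X Y : Matrix κ κ ℂ) :
    (X * Y).map D = X.map D * Y + X * Y.map D := by
  ext i j
  rw [Matrix.map_apply, Matrix.mul_apply, map_sum, Matrix.add_apply, Matrix.mul_apply,
    Matrix.mul_apply, ← Finset.sum_add_distrib]
  refine Finset.sum_congr rfl fun l _ => ?_
  rw [Derivation.leibniz, smul_eq_mul, smul_eq_mul, Matrix.map_apply, Matrix.map_apply]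
  ring

theorem map_add_der (D : Derivation QBar ℂ ℂ) (X Y : Matrix κ κ ℂ) :
    (X + Y).map D = X.map D + Y.map D := by
  ext i j
  rw [Matrix.map_apply, Matrix.add_apply, map_add, Matrix.add_apply, Matrix.map_apply,
    Matrix.map_apply]

theorem map_smul_der (D : Derivation QBar ℂ ℂ) (c : ℂ) (X : Matrix κ κ ℂ) :
    (c • X).map D = D c • X + c • X.map D := by
  ext i j
  rw [Matrix.map_apply, Matrix.smul_apply, smul_eq_mul, Derivation.leibniz, smul_eq_mul,
    smul_eq_mul, Matrix.add_apply, Matrix.smul_apply, Matrix.smul_apply, smul_eq_mul, smul_eq_mul,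
    Matrix.map_apply]
  ring

/-- a set of matrices with algebraic entries generates an algebra spanned by algebraic matrices -/
theorem adjoin_alg {Γ : Set (Matrix κ κ ℂ)} (hΓ : ∀ Y ∈ Γ, ∀ i j, IsAlgebraic ℚ (Y i j)) :
    ∀ U ∈ Algebra.adjoin ℂ Γ, U ∈ Submodule.span ℂ
      {Y | Y ∈ Algebra.adjoin ℂ Γ ∧ ∀ i j, IsAlgebraic ℚ (Y i j)} := by
  have hmul : ∀ x ∈ Submodule.span ℂ {Y | Y ∈ Algebra.adjoin ℂ Γ ∧ ∀ i j, IsAlgebraic ℚ (Y i j)},
      ∀ y ∈ Submodule.span ℂ {Y | Y ∈ Algebra.adjoin ℂ Γ ∧ ∀ i j, IsAlgebraic ℚ (Y i j)},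
      x * y ∈ Submodule.span ℂ {Y | Y ∈ Algebra.adjoin ℂ Γ ∧ ∀ i j, IsAlgebraic ℚ (Y i j)} := by
    intro x hx y hy
    induction hx using Submodule.span_induction with
    | mem x hx =>
      induction hy using Submodule.span_induction with
      | mem y hy =>
        refine Submodule.subset_span ⟨Subalgebra.mul_mem _ hx.1 hy.1, fun i j => ?_⟩
        rw [Matrix.mul_apply]
        exact isAlg_sum _ fun l _ => (hx.2 i l).mul (hy.2 l j)
      | zero => rw [mul_zero]; exact Submodule.zero_mem _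
      | add a b _ _ ha hb => rw [mul_add]; exact Submodule.add_mem _ ha hb
      | smul c a _ ha => rw [mul_smul_comm]; exact Submodule.smul_mem _ _ ha
    | zero => rw [zero_mul]; exact Submodule.zero_mem _
    | add a b _ _ ha hb => rw [add_mul]; exact Submodule.add_mem _ ha hb
    | smul c a _ ha => rw [smul_mul_assoc]; exact Submodule.smul_mem _ _ ha
  intro U hU
  induction hU using Algebra.adjoin_induction with
  | mem x hx => exact Submodule.subset_span ⟨Algebra.subset_adjoin hx, hΓ x hx⟩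
  | algebraMap c =>
    rw [Algebra.algebraMap_eq_smul_one]
    refine Submodule.smul_mem _ _ (Submodule.subset_span ⟨Subalgebra.one_mem _, fun i j => ?_⟩)
    by_cases h : i = j
    · subst h
      rw [Matrix.one_apply_eq]
      exact isAlgebraic_one
    · rw [Matrix.one_apply_ne h]
      exact isAlgebraic_zero
  | add a b _ _ ha hb => exact Submodule.add_mem _ ha hb
  | mul a b _ _ ha hb => exact hmul a ha b hb

/-- such an algebra is stable under the derivations -/
theorem adjoin_der {Γ : Set (Matrix κ κ ℂ)} (hΓ : ∀ Y ∈ Γ, ∀ i j, IsAlgebraic ℚ (Y i j))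
    (D : Derivation QBar ℂ ℂ) : ∀ U ∈ Algebra.adjoin ℂ Γ, U.map D ∈ Algebra.adjoin ℂ Γ := by
  intro U hU
  have h1 := adjoin_alg hΓ U hU
  have h2 : ∀ U ∈ Submodule.span ℂ {Y | Y ∈ Algebra.adjoin ℂ Γ ∧ ∀ i j, IsAlgebraic ℚ (Y i j)},
      U ∈ Algebra.adjoin ℂ Γ := by
    intro U hU
    exact (Submodule.span_le (p := Subalgebra.toSubmodule (Algebra.adjoin ℂ Γ))).2
      (fun Y hY => hY.1) hU
  induction h1 using Submodule.span_induction with
  | mem x hx =>
    have h3 : x.map D = 0 := by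
      ext i j
      rw [Matrix.map_apply, der_alg D (hx.2 i j), Matrix.zero_apply]
    rw [h3]
    exact Subalgebra.zero_mem _
  | zero =>
    have h3 : (0 : Matrix κ κ ℂ).map D = 0 := by
      ext i j
      rw [Matrix.map_apply, Matrix.zero_apply, map_zero]
    rw [h3]
    exact Subalgebra.zero_mem _
  | add a b ha' hb' ha hb =>
    rw [map_add_der]
    exact Subalgebra.add_mem _ (ha (h2 a ha')) (hb (h2 b hb'))
  | smul c a ha' ha =>
    rw [map_smul_der]
    exact Subalgebra.add_mem _ (Subalgebra.smul_mem _ (h2 a ha') _)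
      (Subalgebra.smul_mem _ (ha (h2 a ha')) _)

/-- a matrix is in the span of its components -/
theorem mem_span_lm (Q : Matrix κ κ ℂ) :
    Q ∈ Submodule.span ℂ {Y | ∃ lam : ℂ →ₗ[QBar] QBar, Y = Q.map (lm lam)} := by
  obtain ⟨r, b, lam, h⟩ := exists_dec (fun p : κ × κ => Q p.1 p.2)
  have h1 : Q = ∑ m, b m • Q.map (lm (lam m)) := by
    ext i j
    rw [Matrix.sum_apply]
    exact h (i, j)
  rw [h1]
  refine sum_mem fun m _ => Submodule.smul_mem _ _ (Submodule.subset_span ⟨lam m, ?_⟩)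
  simp only [← h1]

end mat

variable {g : ℕ} (A : AbVar g)

/-- the logarithmic derivative of the period matrix -/
def QD (D : Derivation QBar ℂ ℂ) : Matrix (Fin (2 * g)) (Fin (2 * g)) ℂ :=
  (PM A).map D * (PM A)⁻¹

/-- the components of the logarithmic derivatives -/
def Gam : Set (Matrix (Fin (2 * g)) (Fin (2 * g)) ℂ) :=
  {Y | ∃ (D : Derivation QBar ℂ ℂ) (lam : ℂ →ₗ[QBar] QBar), Y = (QD A D).map (lm lam)}

/-- the algebra generated by the components of the logarithmic derivatives -/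
def UU : Subalgebra ℂ (Matrix (Fin (2 * g)) (Fin (2 * g)) ℂ) := Algebra.adjoin ℂ (Gam A)

variable {A}

theorem Gam_alg : ∀ Y ∈ Gam A, ∀ i j, IsAlgebraic ℚ (Y i j) := by
  rintro _ ⟨D, lam, rfl⟩ i j
  exact lm_alg _ _

theorem PM_inv : PM A * (PM A)⁻¹ = 1 ∧ (PM A)⁻¹ * PM A = 1 := by
  have h1 : IsUnit (PM A).det := isUnit_iff_ne_zero.2 (det_PM A)
  exact ⟨Matrix.mul_nonsing_inv _ h1, Matrix.nonsing_inv_mul _ h1⟩

theorem QD_mem (D : Derivation QBar ℂ ℂ) : QD A D ∈ UU A := by
  have h1 := mem_span_lm (QD A D)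
  refine (Submodule.span_le (p := Subalgebra.toSubmodule (UU A))).2 ?_ h1
  rintro _ ⟨lam, rfl⟩
  exact Algebra.subset_adjoin ⟨D, lam, rfl⟩

theorem dR_sum (s : Fin g ⊕ Fin g) (v : A.H1) :
    A.dR s v = ∑ l, (v l : ℂ) * PM A l (eqv g s) := by
  have h1 : v = ∑ l, v l • (Pi.single l 1 : A.H1) := by
    conv_lhs => rw [← Finset.univ_sum_single v]
    refine Finset.sum_congr rfl fun l _ => ?_
    rw [← Pi.single_smul, smul_eq_mul, mul_one]
  conv_lhs => rw [h1, map_sum]
  refine Finset.sum_congr rfl fun l _ => ?_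
  rw [map_smul, PM_apply, Rat.smul_def]

/-- a linear form on the matrices, as a form on the homology -/
theorem form_eq (C F : Matrix (Fin (2 * g)) (Fin (2 * g)) ℂ) (X : Module.End ℚ A.H1) :
    ∑ i, ∑ j, C i j * ((toC X)ᵀ * (PM A * F)) i j =
      frm A (fun i k => ∑ j, F (eqv g (Sum.inl k)) j * C i j)
        (fun i k => ∑ j, F (eqv g (Sum.inr k)) j * C i j)
        (fun i => X (Pi.single i 1 : A.H1)) := by
  rw [frm_apply]
  refine Finset.sum_congr rfl fun i _ => ?_
  have h1 : ∀ j, ((toC X)ᵀ * (PM A * F)) i j =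
      ∑ s : Fin g ⊕ Fin g, A.dR s (X (Pi.single i 1 : A.H1)) * F (eqv g s) j := by
    intro j
    rw [← Matrix.mul_assoc, Matrix.mul_apply, ← Equiv.sum_comp (eqv g)]
    refine Finset.sum_congr rfl fun s _ => ?_
    congr 1
    rw [dR_sum, Matrix.mul_apply]
    rfl
  simp only [h1, Finset.mul_sum, Finset.sum_mul]
  rw [Finset.sum_comm, Fintype.sum_sum_type, ← Finset.sum_add_distrib]
  refine Finset.sum_congr rfl fun k _ => ?_
  congr 1
  · refine Finset.sum_congr rfl fun j _ => ?_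
    rw [dR_inl]
    ring
  · refine Finset.sum_congr rfl fun j _ => ?_
    rw [dR_inr]
    ring

/-- **The associative algebra**: the algebra generated by the components of the logarithmic
derivatives contains the commutant of the Hodge endomorphisms. -/
theorem assoc {X : Module.End ℚ A.H1}
    (hX : ∀ Q, IsHodgeEnd (A.per : A.H1 →+ (Fin g → ℂ)) Q → X * Q = Q * X) :
    (toC X)ᵀ ∈ UU A := by
  classical
  by_contra hcon
  obtain ⟨ψ, hψ, hψ0⟩ := Submodule.exists_dual_map_eq_bot_of_notMem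
    (p := Subalgebra.toSubmodule (UU A)) hcon inferInstance
  have hψU : ∀ U ∈ UU A, ψ U = 0 := by
    intro U hU
    have h1 : ψ U ∈ Submodule.map ψ (Subalgebra.toSubmodule (UU A)) :=
      Submodule.mem_map_of_mem hU
    rwa [hψ0, Submodule.mem_bot] at h1
  let C : Matrix (Fin (2 * g)) (Fin (2 * g)) ℂ := Matrix.of fun i j => ψ (Matrix.single i j 1)
  have hψC : ∀ Y, ψ Y = ∑ i, ∑ j, C i j * Y i j := by
    intro Y
    conv_lhs => rw [Matrix.matrix_eq_sum_single Y, map_sum]
    refine Finset.sum_congr rfl fun i _ => ?_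
    rw [map_sum]
    refine Finset.sum_congr rfl fun j _ => ?_
    have h1 : Matrix.single i j (Y i j) = Y i j • Matrix.single i j (1 : ℂ) := by
      rw [Matrix.smul_single, smul_eq_mul, mul_one]
    rw [h1, map_smul, smul_eq_mul, mul_comm]
    rfl
  obtain ⟨lam, hlam⟩ := exists_lam hψ
  let C' : Matrix (Fin (2 * g)) (Fin (2 * g)) ℂ := C.map (lm lam)
  let ψ' : Matrix (Fin (2 * g)) (Fin (2 * g)) ℂ →ₗ[ℂ] ℂ :=
    { toFun := fun Y => ∑ i, ∑ j, C' i j * Y i j
      map_add' := fun Y Z => by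
        simp only [Matrix.add_apply, mul_add, Finset.sum_add_distrib]
      map_smul' := fun c Y => by
        simp only [Matrix.smul_apply, smul_eq_mul, RingHom.id_apply, Finset.mul_sum]
        exact Finset.sum_congr rfl fun i _ => Finset.sum_congr rfl fun j _ => by ring }
  have hψ'a : ∀ Y, ψ' Y = ∑ i, ∑ j, C' i j * Y i j := fun _ => rfl
  have hψ'Y : ∀ Y : Matrix (Fin (2 * g)) (Fin (2 * g)) ℂ, (∀ i j, IsAlgebraic ℚ (Y i j)) →
      ψ' Y = lm lam (ψ Y) := by
    intro Y hY
    rw [hψ'a, hψC, lm_sum]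
    refine Finset.sum_congr rfl fun i _ => ?_
    rw [lm_sum]
    refine Finset.sum_congr rfl fun j _ => ?_
    rw [lm_mul lam (hY i j)]
    rfl
  have hψ'U : ∀ U ∈ UU A, ψ' U = 0 := by
    intro U hU
    have h1 := adjoin_alg Gam_alg U hU
    induction h1 using Submodule.span_induction with
    | mem x hx => rw [hψ'Y x hx.2, hψU x hx.1, lm_zero]
    | zero => rw [map_zero]
    | add a b ha' hb' ha hb =>
      have h2 : ∀ U ∈ Submodule.span ℂ {Y | Y ∈ UU A ∧ ∀ i j, IsAlgebraic ℚ (Y i j)},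
          U ∈ UU A := fun U hU =>
        (Submodule.span_le (p := Subalgebra.toSubmodule (UU A))).2 (fun Y hY => hY.1) hU
      rw [map_add, ha (h2 a ha'), hb (h2 b hb'), add_zero]
    | smul c a ha' ha =>
      have h2 : ∀ U ∈ Submodule.span ℂ {Y | Y ∈ UU A ∧ ∀ i j, IsAlgebraic ℚ (Y i j)},
          U ∈ UU A := fun U hU =>
        (Submodule.span_le (p := Subalgebra.toSubmodule (UU A))).2 (fun Y hY => hY.1) hU
      rw [map_smul, ha (h2 a ha'), smul_zero]
  have hψ'X : ψ' (toC X)ᵀ ≠ 0 := by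
    rw [hψ'Y _ fun i j => ?_]
    · unfold lm
      rwa [Ne, map_eq_zero]
    · exact isAlgebraic_algebraMap _
  -- the module
  let M : Submodule ℂ (Fin (2 * g) × Fin (2 * g) → ℂ) :=
    { carrier := {F | PM A * Matrix.of (fun i j => F (i, j)) ∈ UU A}
      zero_mem' := by
        change PM A * 0 ∈ UU A
        rw [mul_zero]
        exact Subalgebra.zero_mem _
      add_mem' := by
        intro F G hF hG
        change PM A * (Matrix.of (fun i j => F (i, j)) + Matrix.of (fun i j => G (i, j))) ∈ UU A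
        rw [mul_add]
        exact Subalgebra.add_mem _ hF hG
      smul_mem' := by
        intro c F hF
        change PM A * (c • Matrix.of (fun i j => F (i, j))) ∈ UU A
        rw [mul_smul_comm]
        exact Subalgebra.smul_mem _ hF _ }
  have hM : ∀ (D : Derivation QBar ℂ ℂ), ∀ x ∈ M, (fun i => D (x i)) ∈ M := by
    intro D x hx
    let F : Matrix (Fin (2 * g)) (Fin (2 * g)) ℂ := Matrix.of (fun i j => x (i, j))
    have hF : PM A * F ∈ UU A := hx
    change PM A * F.map D ∈ UU A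
    have h1 : PM A * F.map D = (PM A * F).map D - QD A D * (PM A * F) := by
      rw [map_mul_der]
      unfold QD
      rw [← Matrix.mul_assoc, Matrix.mul_assoc ((PM A).map D), PM_inv.2, Matrix.mul_one,
        add_sub_cancel_left]
    rw [h1]
    exact Subalgebra.sub_mem _ (adjoin_der Gam_alg D _ hF)
      (Subalgebra.mul_mem _ (QD_mem D) hF)
  have h1 := descent M hM (fun p => (PM A)⁻¹ p.1 p.2) (by
    change PM A * (PM A)⁻¹ ∈ UU A
    rw [PM_inv.1]
    exact Subalgebra.one_mem _)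
  have key : ∀ F ∈ Submodule.span ℂ {y | y ∈ M ∧ ∀ i, IsAlgebraic ℚ (y i)},
      ψ' ((toC X)ᵀ * (PM A * Matrix.of (fun i j => F (i, j)))) = 0 := by
    intro F hF
    induction hF using Submodule.span_induction with
    | mem F hF =>
      obtain ⟨hF1, hF2⟩ := hF
      have h2 : ψ' (PM A * Matrix.of (fun i j => F (i, j))) = 0 := hψ'U _ hF1
      rw [hψ'a] at h2
      have h3 := form_eq (A := A) C' (Matrix.of (fun i j => F (i, j))) 1
      rw [toC_one, Matrix.transpose_one, Matrix.one_mul, h2] at h3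
      have hα : ∀ (i : Fin (2 * g)) (s : Fin g ⊕ Fin g), IsAlgebraic ℚ
          (∑ j, (Matrix.of (fun i j => F (i, j)) : Matrix (Fin (2 * g)) (Fin (2 * g)) ℂ)
            (eqv g s) j * C' i j) := fun i s => isAlg_sum _ fun j _ => (hF2 _).mul (lm_alg _ _)
      have h4 := wuest (A := A) (fun i k => hα i (Sum.inl k)) (fun i k => hα i (Sum.inr k))
        h3.symm hX
      rw [hψ'a, form_eq]
      exact h4
    | zero =>
      have h2 : (Matrix.of (fun i j => (0 : Fin (2 * g) × Fin (2 * g) → ℂ) (i, j)) :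
        Matrix (Fin (2 * g)) (Fin (2 * g)) ℂ) = 0 := rfl
      rw [h2, mul_zero, mul_zero, map_zero]
    | add a b _ _ ha hb =>
      have h2 : (Matrix.of (fun i j => (a + b) (i, j)) :
        Matrix (Fin (2 * g)) (Fin (2 * g)) ℂ) = Matrix.of (fun i j => a (i, j)) +
          Matrix.of (fun i j => b (i, j)) := rfl
      rw [h2, mul_add, mul_add, map_add, ha, hb, add_zero]
    | smul c a _ ha =>
      have h2 : (Matrix.of (fun i j => (c • a) (i, j)) :
        Matrix (Fin (2 * g)) (Fin (2 * g)) ℂ) = c • Matrix.of (fun i j => a (i, j)) := rfl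
      rw [h2, mul_smul_comm, mul_smul_comm, map_smul, ha, smul_zero]
  have h2 := key _ h1
  have h3 : (Matrix.of (fun i j => (PM A)⁻¹ i j) : Matrix (Fin (2 * g)) (Fin (2 * g)) ℂ) =
    (PM A)⁻¹ := rfl
  change ψ' ((toC X)ᵀ * (PM A * (Matrix.of (fun i j => (PM A)⁻¹ i j)))) = 0 at h2
  rw [h3, PM_inv.1, Matrix.mul_one] at h2
  exact hψ'X h2

/-- the elements of the Lie algebra -/
theorem assoc_NA {X : Module.End ℚ A.H1} (hX : X ∈ A.NA) : (toC X)ᵀ ∈ UU A :=
  assoc fun Q hQ => A.NA_comm hX (A.mem_EA.2 (drb_of_hodge hQ))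

end Pool.Agent.K9h14
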