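import Pool.Agent.K9h14.B9
import Pool.Agent.N113.BT.Main

set_option autoImplicit false
set_option linter.unusedVariables false
set_option linter.unusedSectionVars false

/-!
# Groups over the algebraic numbers which contain the periods of a motive
-/

open Module Function TensorProduct Matrix

noncomputable section

namespace Pool.Agent.K9h14

open Pool.Agent.Y102 Pool.Agent.W516.DR Pool.Agent.H204R3.GP Pool.Agent.W516.KC
  Pool.Agent.H204R3.SP Pool.Agent.TH119.MX Pool.Agent.R917 Pool.Agent.N208.AM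
  Pool.Agent.N113.BT

variable {g : ℕ} {A : AbVar g} {s n : ℕ} {r : Fin s → ℕ} {B : Fin n → Ten A r} {w : Fin s → ℤ}
  {P : Matrix (Fin n) (Fin n) ℂ} {Wt : Matrix (Fin n) (Fin n) ℚ}
  {H : Set (Matrix (Fin n) (Fin n) ℂ)}

/-- decomposition of a finite family with respect to rational functionals -/
theorem exists_decQ {κ : Type} [Fintype κ] [DecidableEq κ] (x : κ → ℂ) :
    ∃ (r : ℕ) (b : Fin r → ℂ) (mu : Fin r → (ℂ →ₗ[ℚ] ℚ)),
    ∀ i, x i = ∑ m, b m * ((mu m (x i) : ℚ) : ℂ) := by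
  classical
  let bL := Basis.ofVectorSpace ℚ ℂ
  let s : Finset _ := Finset.univ.biUnion fun i => (bL.repr (x i)).support
  let e := s.equivFin
  refine ⟨s.card, fun m => bL (e.symm m), fun m => bL.coord (e.symm m), fun i => ?_⟩
  have h1 : x i = ∑ m ∈ s, bL.repr (x i) m • bL m := by
    conv_lhs => rw [← bL.linearCombination_repr (x i), Finsupp.linearCombination_apply]
    exact Finsupp.sum_of_support_subset _
      (Finset.subset_biUnion_of_mem (fun i => (bL.repr (x i)).support) (Finset.mem_univ i)) _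
      fun m _ => zero_smul _ _
  conv_lhs => rw [h1, ← Finset.sum_coe_sort, ← Equiv.sum_comp e.symm]
  refine Finset.sum_congr rfl fun m _ => ?_
  rw [Rat.smul_def, mul_comm]
  rfl

/-- The group over the algebraic numbers contains a point of the torsor of periods. -/
structure PtQ (P : Matrix (Fin n) (Fin n) ℂ) (H : Set (Matrix (Fin n) (Fin n) ℂ)) : Prop where
  grp : AlgGrp QA H
  pt : ∃ T T' : Matrix (Fin n) (Fin n) ℂ, T * T' = 1 ∧ (∀ i j, T' i j ∈ QA) ∧ P * T ∈ H

theorem lm_rat (lam : ℂ →ₗ[QBar] QBar) (x : ℂ) (q : ℚ) : lm lam (x * (q : ℂ)) = lm lam x * q :=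
  lm_mul lam (isAlgebraic_algebraMap (A := ℂ) q) x

/-- an algebraic functional as a linear map over the subfield -/
def lmF (lam : ℂ →ₗ[QBar] QBar) : ℂ →ₗ[QA] ℂ where
  toFun := lm lam
  map_add' := lm_add lam
  map_smul' c x := by
    have h1 : c • x = x * (c : ℂ) := by
      rw [Algebra.smul_def, mul_comm]
      rfl
    rw [h1, lm_mul lam (mem_QA.1 c.2), RingHom.id_apply, Algebra.smul_def, mul_comm]
    rfl

theorem lmF_apply (lam : ℂ →ₗ[QBar] QBar) (x : ℂ) : lmF lam x = lm lam x := rfl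

/-- The components of the logarithmic derivative are in the Lie algebra of the group. -/
theorem PtQ.log_mem (hH : PtQ P H) {P' : Matrix (Fin n) (Fin n) ℂ} (h1 : P * P' = 1)
    (h2 : P' * P = 1) (D : Derivation QBar ℂ ℂ) (lam : ℂ →ₗ[QBar] QBar) (d : ℕ) :
    Stab H d ((P.map D * P').map (lm lam)) := by
  obtain ⟨T, T', h3, h4, h5⟩ := hH.pt
  have h6 := hH.grp.stab_der le_rfl (fun x hx => mem_QA.1 hx) h1 h2 h3 h4 h5 (derQ D) (d := d)
  exact hH.grp.stab_map (lmF lam) h6

variable (A) in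
/-- the components of the logarithmic derivative of the period matrix of the abelian variety,
without the scalar part -/
def YD (D : Derivation QBar ℂ ℂ) (lam : ℂ →ₗ[QBar] QBar) :
    Matrix (Fin (2 * g)) (Fin (2 * g)) ℂ :=
  ((QD A D).map (lm lam))ᵀ - lm lam (D tau / (2 * tau)) • 1

/-- **The pairs of components** -/
theorem pair_mem (h : Mot w B P) (hW : WRel w B Wt) {P' : Matrix (Fin n) (Fin n) ℂ}
    (h1 : P * P' = 1) (D : Derivation QBar ℂ ℂ) (lam : ℂ →ₗ[QBar] QBar) :
    (matE (2 * g) (YD A D lam), (P.map D * P').map (lm lam) -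
      lm lam (D tau / (2 * tau)) • cq Wt) ∈ pC B A.NA := by
  -- a common decomposition
  obtain ⟨t, b, mu, hb⟩ := exists_decQ (κ := (Fin (2 * g) × Fin (2 * g)) ⊕ (Fin n × Fin n) ⊕ Unit)
    (Sum.elim (fun p => QD A D p.1 p.2) (Sum.elim (fun p => (P.map D * P') p.1 p.2)
      (fun _ => D tau / (2 * tau))))
  have e1 : ∀ i j, QD A D i j = ∑ m, b m * ((mu m (QD A D i j) : ℚ) : ℂ) := fun i j =>
    hb (Sum.inl (i, j))
  have e2 : ∀ i j, (P.map D * P') i j = ∑ m, b m * ((mu m ((P.map D * P') i j) : ℚ) : ℂ) :=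
    fun i j => hb (Sum.inr (Sum.inl (i, j)))
  have e3 : D tau / (2 * tau) = ∑ m, b m * ((mu m (D tau / (2 * tau)) : ℚ) : ℂ) :=
    hb (Sum.inr (Sum.inr ()))
  have hX : ∀ m, X0 A.basis tau D (mu m) ∈ A.NA := fun m => A.LA_le_NA (by
    rw [AbVar.LA_eq]
    exact X0_mem A.basis AbVar.tau_ne D (mu m))
  choose M hM using fun m => h.st _ (hX m)
  have key : ∑ m, lm lam (b m) • (((X0 A.basis tau D (mu m)).baseChange ℂ, cq (M m)) :
      Module.End ℂ (ℂ ⊗[ℚ] A.H1) × Matrix (Fin n) (Fin n) ℂ) ∈ pC B A.NA :=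
    sum_mem fun m _ => Submodule.smul_mem _ _ (Submodule.subset_span ⟨_, hX m, _, hM m, rfl⟩)
  convert key using 1
  refine Prod.ext ?_ ?_
  · rw [Prod.fst_sum]
    simp only [Prod.smul_fst]
    have h2 : ∀ m, ((X0 A.basis tau D (mu m)).baseChange ℂ :
        Module.End ℂ (ℂ ⊗[ℚ] A.H1)) = matE (2 * g) (((QD A D).map (lamF (mu m)))ᵀ -
          ((mu m (D tau / (2 * tau)) : ℚ) : ℂ) • 1) := by
      intro m
      rw [← matE_toC]
      congr 1
      have h3 := X0_eq (A := A) D (mu m)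
      have h4 := toC_cmpE A D (P' := (PM A)⁻¹) PM_inv.2 (mu m)
      rw [← h3, toC_add, toC_smul, toC_one, Matrix.transpose_add, Matrix.transpose_smul,
        Matrix.transpose_one] at h4
      have h5 : (toC (X0 A.basis tau D (mu m)))ᵀ = (QD A D).map (lamF (mu m)) -
          ((mu m (D tau / (2 * tau)) : ℚ) : ℂ) • 1 := by
        unfold QD
        rw [← h4, add_sub_cancel_right]
      rw [← Matrix.transpose_transpose (toC (X0 A.basis tau D (mu m))), h5,
        Matrix.transpose_sub, Matrix.transpose_smul, Matrix.transpose_one]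
    simp only [h2, ← map_smul, ← map_sum]
    congr 1
    unfold YD
    ext i j
    rw [Matrix.sub_apply, Matrix.transpose_apply, Matrix.map_apply, Matrix.smul_apply,
      Matrix.sum_apply]
    have h3 : lm lam (QD A D j i) = ∑ m, lm lam (b m) * ((mu m (QD A D j i) : ℚ) : ℂ) := by
      conv_lhs => rw [e1 j i, lm_sum]
      exact Finset.sum_congr rfl fun m _ => lm_rat _ _ _
    have h4 : lm lam (D tau / (2 * tau)) =
        ∑ m, lm lam (b m) * ((mu m (D tau / (2 * tau)) : ℚ) : ℂ) := by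
      conv_lhs => rw [e3, lm_sum]
      exact Finset.sum_congr rfl fun m _ => lm_rat _ _ _
    rw [h3, h4, smul_eq_mul, Finset.sum_mul, ← Finset.sum_sub_distrib]
    refine Finset.sum_congr rfl fun m _ => ?_
    rw [Matrix.smul_apply, Matrix.sub_apply, Matrix.transpose_apply, Matrix.map_apply,
      Matrix.smul_apply, lamF_apply, smul_eq_mul, smul_eq_mul]
    ring
  · rw [Prod.snd_sum]
    simp only [Prod.smul_snd]
    ext i j
    rw [Matrix.sub_apply, Matrix.map_apply, Matrix.smul_apply, Matrix.sum_apply]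
    have h3 : lm lam ((P.map D * P') i j) =
        ∑ m, lm lam (b m) * ((mu m ((P.map D * P') i j) : ℚ) : ℂ) := by
      conv_lhs => rw [e2 i j, lm_sum]
      exact Finset.sum_congr rfl fun m _ => lm_rat _ _ _
    have h4 : lm lam (D tau / (2 * tau)) =
        ∑ m, lm lam (b m) * ((mu m (D tau / (2 * tau)) : ℚ) : ℂ) := by
      conv_lhs => rw [e3, lm_sum]
      exact Finset.sum_congr rfl fun m _ => lm_rat _ _ _
    rw [h3, h4, smul_eq_mul, Finset.sum_mul, ← Finset.sum_sub_distrib]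
    refine Finset.sum_congr rfl fun m _ => ?_
    have h5 := lam_log h h1 D (mu m) (hM m) hW i j
    have h6 : cq Wt i j = ((Wt i j : ℚ) : ℂ) := rfl
    have h7 : cq (M m) i j = ((M m i j : ℚ) : ℂ) := rfl
    rw [h5, Matrix.smul_apply, h6, h7, smul_eq_mul]
    push_cast
    ring

/-- The pairs form a Lie algebra. -/
theorem pC_br2 {p q : Module.End ℂ (ℂ ⊗[ℚ] A.H1) × Matrix (Fin n) (Fin n) ℂ}
    (hp : p ∈ pC B A.NA) (hq : q ∈ pC B A.NA) :
    (p.1 * q.1 - q.1 * p.1, q.2 * p.2 - p.2 * q.2) ∈ pC B (der A.NA) := by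
  induction hp using Submodule.span_induction with
  | mem p hp =>
    obtain ⟨X, hX, M, hM, rfl⟩ := hp
    induction hq using Submodule.span_induction with
    | mem q hq =>
      obtain ⟨Y, hY, N, hN, rfl⟩ := hq
      refine Submodule.subset_span ⟨X * Y - Y * X, Submodule.subset_span ⟨X, hX, Y, hY, rfl⟩, _,
        hM.br hN, ?_⟩
      rw [bc_br, cq_sub, cq_mul, cq_mul]
    | zero =>
      simp only [Prod.fst_zero, Prod.snd_zero, mul_zero, zero_mul, sub_zero]
      exact Submodule.zero_mem _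
    | add a b _ _ ha hb =>
      have h1 := Submodule.add_mem _ ha hb
      convert h1 using 1
      refine Prod.ext ?_ ?_
      · simp only [Prod.fst_add, mul_add, add_mul]
        abel
      · simp only [Prod.snd_add, mul_add, add_mul]
        abel
    | smul c a _ ha =>
      have h1 := Submodule.smul_mem _ c ha
      convert h1 using 1
      refine Prod.ext ?_ ?_
      · simp only [Prod.smul_fst, mul_smul_comm, smul_mul_assoc, smul_sub]
      · simp only [Prod.smul_snd, mul_smul_comm, smul_mul_assoc, smul_sub]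
  | zero =>
    simp only [Prod.fst_zero, Prod.snd_zero, mul_zero, zero_mul, sub_zero]
    exact Submodule.zero_mem _
  | add a b _ _ ha hb =>
    have h1 := Submodule.add_mem _ ha hb
    convert h1 using 1
    refine Prod.ext ?_ ?_
    · simp only [Prod.fst_add, mul_add, add_mul]
      abel
    · simp only [Prod.snd_add, mul_add, add_mul]
      abel
  | smul c a _ ha =>
    have h1 := Submodule.smul_mem _ c ha
    convert h1 using 1
    refine Prod.ext ?_ ?_
    · simp only [Prod.smul_fst, mul_smul_comm, smul_mul_assoc, smul_sub]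
    · simp only [Prod.smul_snd, mul_smul_comm, smul_mul_assoc, smul_sub]

/-- The weights commute with the pairs. -/
theorem pC_Wt (h : Mot w B P) (hW : WRel w B Wt)
    {p : Module.End ℂ (ℂ ⊗[ℚ] A.H1) × Matrix (Fin n) (Fin n) ℂ} (hp : p ∈ pC B A.NA) :
    p.2 * cq Wt = cq Wt * p.2 := by
  induction hp using Submodule.span_induction with
  | mem p hp =>
    obtain ⟨X, hX, M, hM, rfl⟩ := hp
    rw [← cq_mul, ← cq_mul, WRel.comm h.li hM hW]
  | zero => rw [Prod.snd_zero, zero_mul, mul_zero]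
  | add a b _ _ ha hb => rw [Prod.snd_add, add_mul, mul_add, ha, hb]
  | smul c a _ ha => rw [Prod.smul_snd, smul_mul_assoc, mul_smul_comm, ha]

/-- The pairs whose action on the motive is in the Lie algebra of the group, up to a multiple of
the weight. -/
def qP (B : Fin n → Ten A r) (Wt : Matrix (Fin n) (Fin n) ℚ)
    (H : Set (Matrix (Fin n) (Fin n) ℂ)) :
    Submodule ℂ (Module.End ℂ (ℂ ⊗[ℚ] A.H1) × Matrix (Fin n) (Fin n) ℂ) where
  carrier := {p | p ∈ pC B A.NA ∧ ∃ c : ℂ, ∀ d, Stab H d (p.2 + c • cq Wt)}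
  zero_mem' := ⟨Submodule.zero_mem _, 0, fun d => by
    rw [Prod.snd_zero, zero_smul, add_zero]
    exact Stab.zero⟩
  add_mem' := by
    rintro p q ⟨hp, c, hc⟩ ⟨hq, d, hd⟩
    refine ⟨Submodule.add_mem _ hp hq, c + d, fun k => ?_⟩
    have h1 := (hc k).add (hd k)
    rw [add_smul, Prod.snd_add]
    convert h1 using 1
    abel
  smul_mem' := by
    rintro a p ⟨hp, c, hc⟩
    refine ⟨Submodule.smul_mem _ a hp, a * c, fun k => ?_⟩
    have h1 := (hc k).smul a
    rwa [smul_add, smul_smul] at h1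

theorem Stab.sub {d : ℕ} {X Y : Matrix (Fin n) (Fin n) ℂ} (hX : Stab H d X) (hY : Stab H d Y) :
    Stab H d (X - Y) := by
  have h1 := hX.add (hY.smul (-1 : ℂ))
  rw [neg_one_smul, ← sub_eq_add_neg] at h1
  exact h1

/-- The brackets are in the Lie algebra of the group. -/
theorem qP_br (h : Mot w B P) (hW : WRel w B Wt)
    {p q : Module.End ℂ (ℂ ⊗[ℚ] A.H1) × Matrix (Fin n) (Fin n) ℂ}
    (hp : p ∈ qP B Wt H) (hq : q ∈ qP B Wt H) (d : ℕ) :
    Stab H d (q.2 * p.2 - p.2 * q.2) := by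
  obtain ⟨hp, c, hc⟩ := hp
  obtain ⟨hq, c', hc'⟩ := hq
  have h1 := (hc' d).comm (hc d)
  have e1 := pC_Wt h hW hp
  have e2 := pC_Wt h hW hq
  have h2 : (q.2 + c' • cq Wt) * (p.2 + c • cq Wt) - (p.2 + c • cq Wt) * (q.2 + c' • cq Wt) =
      q.2 * p.2 - p.2 * q.2 := by
    rw [add_mul, mul_add, mul_add, add_mul, mul_add, mul_add]
    simp only [smul_mul_assoc, mul_smul_comm, e1, e2, smul_smul]
    rw [mul_comm c' c]
    abel
  rwa [h2] at h1

/-- The action on the homology. -/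
def q1 (B : Fin n → Ten A r) (Wt : Matrix (Fin n) (Fin n) ℚ)
    (H : Set (Matrix (Fin n) (Fin n) ℂ)) : Submodule ℂ (Module.End ℂ (ℂ ⊗[ℚ] A.H1)) :=
  (qP B Wt H).map (LinearMap.fst ℂ _ _)

/-- The action on the homology of the derived algebra, with the action on the motive in the Lie
algebra of the group. -/
def dP (B : Fin n → Ten A r)
    (H : Set (Matrix (Fin n) (Fin n) ℂ)) :
    Submodule ℂ (Module.End ℂ (ℂ ⊗[ℚ] A.H1) × Matrix (Fin n) (Fin n) ℂ) where
  carrier := {p | p ∈ pC B (der A.NA) ∧ ∀ d, Stab H d p.2}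
  zero_mem' := ⟨Submodule.zero_mem _, fun d => Stab.zero⟩
  add_mem' := by
    rintro p q ⟨hp, hc⟩ ⟨hq, hd⟩
    exact ⟨Submodule.add_mem _ hp hq, fun k => (hc k).add (hd k)⟩
  smul_mem' := by
    rintro a p ⟨hp, hc⟩
    exact ⟨Submodule.smul_mem _ a hp, fun k => (hc k).smul a⟩

/-- A full complex subalgebra. -/
structure CFull (A : AbVar g) (𝔮 𝔡 : Submodule ℂ (Module.End ℂ (ℂ ⊗[ℚ] A.H1))) : Prop where
  le : 𝔮 ≤ cx A.NA
  dle : 𝔡 ≤ 𝔮
  br : ∀ x ∈ 𝔮, ∀ y ∈ 𝔮, x * y - y * x ∈ 𝔡
  adj : ∀ x ∈ cx A.NA, x ∈ Algebra.adjoin ℂ (𝔮 : Set (Module.End ℂ (ℂ ⊗[ℚ] A.H1)))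

theorem pC_fst {T : Submodule ℚ (Module.End ℚ A.H1)}
    {p : Module.End ℂ (ℂ ⊗[ℚ] A.H1) × Matrix (Fin n) (Fin n) ℂ} (hp : p ∈ pC B T) :
    p.1 ∈ cx T := by
  induction hp using Submodule.span_induction with
  | mem p hp =>
    obtain ⟨X, hX, M, hM, rfl⟩ := hp
    exact bc_mem hX
  | zero => exact Submodule.zero_mem _
  | add a b _ _ ha hb => exact Submodule.add_mem _ ha hb
  | smul c a _ ha => exact Submodule.smul_mem _ c ha

/-- the transposed algebra -/
theorem UU_trans {R : Subalgebra ℂ (Matrix (Fin (2 * g)) (Fin (2 * g)) ℂ)}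
    (h : ∀ Y ∈ Gam A, Yᵀ ∈ R) : ∀ U ∈ UU A, Uᵀ ∈ R := by
  intro U hU
  induction hU using Algebra.adjoin_induction with
  | mem x hx => exact h x hx
  | algebraMap c =>
    rw [Algebra.algebraMap_eq_smul_one, Matrix.transpose_smul, Matrix.transpose_one]
    exact Subalgebra.smul_mem _ (Subalgebra.one_mem _) _
  | add a b _ _ ha hb => rw [Matrix.transpose_add]; exact Subalgebra.add_mem _ ha hb
  | mul a b _ _ ha hb => rw [Matrix.transpose_mul]; exact Subalgebra.mul_mem _ hb ha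

/-- **The complex subalgebra given by a group over the algebraic numbers is full.** -/
theorem cfull (h : Mot w B P) (hW : WRel w B Wt) (hH : PtQ P H) :
    CFull A (q1 B Wt H) ((dP B H).map (LinearMap.fst ℂ _ _)) where
  le := by
    rintro _ ⟨p, hp, rfl⟩
    exact pC_fst hp.1
  dle := by
    rintro _ ⟨p, hp, rfl⟩
    refine ⟨p, ⟨pC_mono der_NA_le hp.1, 0, fun d => ?_⟩, rfl⟩
    rw [zero_smul, add_zero]
    exact hp.2 d
  br := by
    rintro _ ⟨p, hp, rfl⟩ _ ⟨q, hq, rfl⟩
    exact ⟨_, ⟨pC_br2 hp.1 hq.1, fun d => qP_br h hW hp hq d⟩, rfl⟩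
  adj := by
    have hu : IsUnit P.det := isUnit_iff_ne_zero.2 h.det
    have h1 := Matrix.mul_nonsing_inv _ hu
    have h2 := Matrix.nonsing_inv_mul _ hu
    have h3 : ∀ (D : Derivation QBar ℂ ℂ) (lam : ℂ →ₗ[QBar] QBar),
        matE (2 * g) (YD A D lam) ∈ q1 B Wt H := by
      intro D lam
      refine ⟨_, ⟨pair_mem h hW h1 D lam, lm lam (D tau / (2 * tau)), fun d => ?_⟩, rfl⟩
      rw [sub_add_cancel]
      exact hH.log_mem h1 h2 D lam d
    let R : Subalgebra ℂ (Matrix (Fin (2 * g)) (Fin (2 * g)) ℂ) :=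
      (Algebra.adjoin ℂ (q1 B Wt H : Set (Module.End ℂ (ℂ ⊗[ℚ] A.H1)))).comap
        (matE (2 * g)).toAlgHom
    have h4 : ∀ Y ∈ Gam A, Yᵀ ∈ R := by
      rintro _ ⟨D, lam, rfl⟩
      change matE (2 * g) ((QD A D).map (lm lam))ᵀ ∈ Algebra.adjoin ℂ
        (q1 B Wt H : Set (Module.End ℂ (ℂ ⊗[ℚ] A.H1)))
      have h5 : ((QD A D).map (lm lam))ᵀ = YD A D lam + lm lam (D tau / (2 * tau)) • 1 := by
        unfold YD
        rw [sub_add_cancel]
      rw [h5, map_add, map_smul, map_one]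
      exact Subalgebra.add_mem _ (Algebra.subset_adjoin (h3 D lam))
        (Subalgebra.smul_mem _ (Subalgebra.one_mem _) _)
    intro x hx
    induction hx using Submodule.span_induction with
    | mem x hx =>
      obtain ⟨X, hX, rfl⟩ := hx
      have h5 := UU_trans h4 _ (assoc_NA hX)
      rw [Matrix.transpose_transpose] at h5
      rw [← matE_toC]
      exact h5
    | zero => exact Subalgebra.zero_mem _
    | add a b _ _ ha hb => exact Subalgebra.add_mem _ ha hb
    | smul c a _ ha => exact Subalgebra.smul_mem _ ha c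

end Pool.Agent.K9h14
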