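import Pool.Agent.K9h14.C1

set_option autoImplicit false
set_option linter.unusedVariables false
set_option linter.unusedSectionVars false

/-!
# Rigid parts and groups over the algebraic numbers
-/

open Module Function TensorProduct Matrix

noncomputable section

namespace Pool.Agent.K9h14

open Pool.Agent.Y102 Pool.Agent.W516.DR Pool.Agent.H204R3.GP Pool.Agent.W516.KC
  Pool.Agent.H204R3.SP Pool.Agent.TH119.MX Pool.Agent.R917 Pool.Agent.N208.AM
  Pool.Agent.N113.BT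

variable {g : ℕ} {A : AbVar g} {s n : ℕ} {r : Fin s → ℕ} {B : Fin n → Ten A r} {w : Fin s → ℤ}
  {P : Matrix (Fin n) (Fin n) ℂ} {Wt : Matrix (Fin n) (Fin n) ℚ}
  {H : Set (Matrix (Fin n) (Fin n) ℂ)}
  {e : Module.End ℂ (ℂ ⊗[ℚ] A.H1)} {S 𝔮 𝔡 : Submodule ℂ (Module.End ℂ (ℂ ⊗[ℚ] A.H1))}

/-- The elements given by a complex subalgebra. -/
def LLC (e : Module.End ℂ (ℂ ⊗[ℚ] A.H1)) (S : Submodule ℂ (Module.End ℂ (ℂ ⊗[ℚ] A.H1)))
    (𝔮 : Submodule ℂ (Module.End ℂ (ℂ ⊗[ℚ] A.H1))) :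
    Submodule ℂ (Module.End ℂ (ℂ ⊗[ℚ] A.H1)) where
  carrier := {z | z ∈ S ∧ ∃ x ∈ 𝔮, ∃ c : ℂ, z = e * x + c • e}
  zero_mem' := ⟨S.zero_mem, 0, Submodule.zero_mem _, 0, by rw [mul_zero, zero_smul, add_zero]⟩
  add_mem' := by
    rintro _ _ ⟨h1, x, hx, c, rfl⟩ ⟨h2, y, hy, d, rfl⟩
    exact ⟨S.add_mem h1 h2, x + y, Submodule.add_mem _ hx hy, c + d, by
      rw [mul_add, add_smul]; abel⟩
  smul_mem' := by
    rintro t _ ⟨h1, x, hx, c, rfl⟩
    exact ⟨S.smul_mem t h1, t • x, Submodule.smul_mem _ t hx, t * c, by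
      rw [mul_smul_comm, smul_add, smul_smul]⟩

theorem e_br (hr : e * e = e) {x y : Module.End ℂ (ℂ ⊗[ℚ] A.H1)} (hx : e * x = x * e)
    (hy : e * y = y * e) (c d : ℂ) :
    (e * x + c • e) * (e * y + d • e) - (e * y + d • e) * (e * x + c • e) =
      e * (x * y - y * x) := by
  have e2 : e * x * e = e * x := by rw [mul_assoc, ← hx, ← mul_assoc, hr]
  have e3 : e * y * e = e * y := by rw [mul_assoc, ← hy, ← mul_assoc, hr]
  have e4 : e * (e * y) = e * y := by rw [← mul_assoc, hr]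
  have e5 : e * (e * x) = e * x := by rw [← mul_assoc, hr]
  have e6 : (e * x) * (e * y) = e * (x * y) := by
    calc (e * x) * (e * y) = e * (x * e) * y := by simp only [mul_assoc]
      _ = e * e * (x * y) := by rw [← hx]; simp only [mul_assoc]
      _ = e * (x * y) := by rw [hr]
  have e7 : (e * y) * (e * x) = e * (y * x) := by
    calc (e * y) * (e * x) = e * (y * e) * x := by simp only [mul_assoc]
      _ = e * e * (y * x) := by rw [← hy]; simp only [mul_assoc]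
      _ = e * (y * x) := by rw [hr]
  rw [add_mul, mul_add, mul_add, add_mul, mul_add, mul_add, e6, e7]
  simp only [smul_mul_assoc, mul_smul_comm, e2, e3, e4, e5, hr, mul_sub]
  module

/-- **The projection of a full complex subalgebra.** -/
theorem surjC (hr : RigPart A e S) (h : CFull A 𝔮 𝔡) :
    ∀ z ∈ S, ∃ x ∈ 𝔮, ∃ c : ℂ, z = e * x + c • e := by
  have hc : ∀ x ∈ 𝔮, e * x = x * e := fun x hx => hr.comm x (h.le hx)
  have key : S ≤ LLC e S 𝔮 := by
    refine hr.rig _ (fun z hz => hz.1) ?_ ?_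
    · rintro _ ⟨h1, x, hx, c, rfl⟩ _ ⟨h2, y, hy, d, rfl⟩
      refine ⟨hr.sbr _ h1 _ h2, x * y - y * x, h.dle (h.br x hx y hy), 0, ?_⟩
      rw [e_br hr.idem (hc x hx) (hc y hy), zero_smul, add_zero]
    · intro z hz
      obtain ⟨y, hy, rfl⟩ := hr.gen z hz
      have h1 : y ∈ Algebra.adjoin ℂ (𝔮 : Set (Module.End ℂ (ℂ ⊗[ℚ] A.H1))) := by
        have h2 : Algebra.adjoin ℂ (cx A.NA : Set (Module.End ℂ (ℂ ⊗[ℚ] A.H1))) ≤
            Algebra.adjoin ℂ (𝔮 : Set (Module.End ℂ (ℂ ⊗[ℚ] A.H1))) :=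
          Algebra.adjoin_le fun x hx => h.adj x hx
        exact h2 hy
      have key : ∀ y ∈ Algebra.adjoin ℂ (𝔮 : Set (Module.End ℂ (ℂ ⊗[ℚ] A.H1))),
          e * y = y * e ∧ ∃ y' ∈ Algebra.adjoin ℂ (LLC e S 𝔮 : Set (Module.End ℂ (ℂ ⊗[ℚ] A.H1))),
            e * y' = y' * e ∧ e * y = e * y' := by
        intro y hy
        induction hy using Algebra.adjoin_induction with
        | mem y hy =>
          refine ⟨hc y hy, ?_⟩
          obtain ⟨c, hcS⟩ := hr.le y (h.le hy)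
          have h3 : e * y + c • e ∈ LLC e S 𝔮 := ⟨hcS, y, hy, c, rfl⟩
          have h4 := hr.sid _ hcS
          refine ⟨(e * y + c • e) - algebraMap ℂ _ c, Subalgebra.sub_mem _
            (Algebra.subset_adjoin h3) (Subalgebra.algebraMap_mem _ c), ?_, ?_⟩
          · rw [mul_sub, sub_mul, h4.1, h4.2, Algebra.commutes]
          · rw [mul_sub, h4.1, Algebra.algebraMap_eq_smul_one, mul_smul_comm, mul_one,
              add_sub_cancel_right]
        | algebraMap c =>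
          exact ⟨(Algebra.commutes c e).symm, algebraMap ℂ _ c, Subalgebra.algebraMap_mem _ c,
            (Algebra.commutes c e).symm, rfl⟩
        | add a b _ _ ha hb =>
          obtain ⟨h1, a', ha', h2, h3⟩ := ha
          obtain ⟨h4, b', hb', h5, h6⟩ := hb
          exact ⟨by rw [mul_add, add_mul, h1, h4], a' + b', Subalgebra.add_mem _ ha' hb', by
            rw [mul_add, add_mul, h2, h5], by rw [mul_add, mul_add, h3, h6]⟩
        | mul a b _ _ ha hb =>
          obtain ⟨h1, a', ha', h2, h3⟩ := ha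
          obtain ⟨h4, b', hb', h5, h6⟩ := hb
          refine ⟨by rw [← mul_assoc, h1, mul_assoc, h4, mul_assoc], a' * b',
            Subalgebra.mul_mem _ ha' hb', by rw [← mul_assoc, h2, mul_assoc, h5, mul_assoc], ?_⟩
          rw [← mul_assoc, h1, mul_assoc, h6, ← mul_assoc, ← h1, h3, mul_assoc]
      obtain ⟨-, y', hy', -, h3⟩ := key y h1
      exact ⟨y', hy', h3⟩
  exact fun z hz => (key hz).2

/-- The derived algebras. -/
theorem derC (hr : RigPart A e S) (h : CFull A 𝔮 𝔡) {X : Module.End ℚ A.H1}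
    (hX : X ∈ der A.NA) : ∃ y ∈ 𝔡, e * X.baseChange ℂ = e * y := by
  have hc : ∀ x ∈ 𝔮, e * x = x * e := fun x hx => hr.comm x (h.le hx)
  induction hX using Submodule.span_induction with
  | mem X hX =>
    obtain ⟨X, hX, Y, hY, rfl⟩ := hX
    obtain ⟨c, hcx⟩ := hr.le _ (bc_mem hX)
    obtain ⟨d, hdx⟩ := hr.le _ (bc_mem hY)
    obtain ⟨x, hx, c', h1⟩ := surjC hr h _ hcx
    obtain ⟨y, hy, d', h2⟩ := surjC hr h _ hdx
    refine ⟨x * y - y * x, h.br x hx y hy, ?_⟩
    rw [bc_br, ← e_br hr.idem (hr.comm _ (bc_mem hX)) (hr.comm _ (bc_mem hY)) c d, h1, h2,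
      e_br hr.idem (hc x hx) (hc y hy)]
  | zero => exact ⟨0, Submodule.zero_mem _, by rw [LinearMap.baseChange_zero]⟩
  | add a b _ _ ha hb =>
    obtain ⟨x, hx, h1⟩ := ha
    obtain ⟨y, hy, h2⟩ := hb
    exact ⟨x + y, Submodule.add_mem _ hx hy, by rw [LinearMap.baseChange_add, mul_add, mul_add,
      h1, h2]⟩
  | smul c a _ ha =>
    obtain ⟨x, hx, h1⟩ := ha
    refine ⟨(c : ℂ) • x, Submodule.smul_mem _ _ hx, ?_⟩
    have h2 : (c • a).baseChange ℂ = (c : ℂ) • (a.baseChange ℂ : Module.End ℂ (ℂ ⊗[ℚ] A.H1)) := by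
      rw [LinearMap.baseChange_smul]
      exact (Rat.cast_smul_eq_qsmul ℂ c _).symm
    rw [h2, mul_smul_comm, mul_smul_comm, h1]

/-- **The derived algebra is in the Lie algebra of the group.** -/
theorem main_dC (h : Mot w B P) (hW : WRel w B Wt) (hH : PtQ P H) (hr : RigPart A e S)
    (hα : ∀ p ∈ pC B (der A.NA), e * p.1 = 0 → p.2 = 0) {X : Module.End ℚ A.H1}
    (hX : X ∈ der A.NA) {M : Matrix (Fin n) (Fin n) ℚ} (hM : Rel B X M) : M ∈ LQ H := by
  obtain ⟨y, ⟨p, hp, rfl⟩, hy⟩ := derC hr (cfull h hW hH) hX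
  have h1 : ((X.baseChange ℂ : Module.End ℂ (ℂ ⊗[ℚ] A.H1)), cq M) ∈ pC B (der A.NA) :=
    Submodule.subset_span ⟨X, hX, M, hM, rfl⟩
  have h2 := hα _ (Submodule.sub_mem _ h1 hp.1) (by
    change e * (X.baseChange ℂ - p.1) = 0
    rw [mul_sub, hy]
    exact sub_self _)
  have h3 : cq M = p.2 := sub_eq_zero.1 h2
  intro d
  change Stab H d (cq M)
  rw [h3]
  exact hp.2 d

/-- the number `2 π i` is not killed by all derivations -/
theorem exists_der' : ∃ (D : Derivation QBar ℂ ℂ) (lam : ℂ →ₗ[QBar] QBar),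
    lm lam (D tau / (2 * tau)) ≠ 0 := by
  obtain ⟨D, lam, h⟩ := Pool.Agent.R917.exists_der
  have h1 : D tau / (2 * tau) ≠ 0 := by
    intro h0
    rw [h0, map_zero] at h
    exact h rfl
  obtain ⟨lam', h'⟩ := exists_lam h1
  refine ⟨D, lam', ?_⟩
  unfold lm
  rwa [Ne, map_eq_zero]

/-- If the centre acts trivially, the whole Lie algebra is in the Lie algebra of the group -/
theorem main_NC (h : Mot w B P) (hW : WRel w B Wt) (hH : PtQ P H) (hr : RigPart A e S)
    (hα : ∀ p ∈ pC B (der A.NA), e * p.1 = 0 → p.2 = 0) (hc : NoCentre B)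
    {X : Module.End ℚ A.H1} (hX : X ∈ A.NA) {M : Matrix (Fin n) (Fin n) ℚ} (hM : Rel B X M) :
    M ∈ LQ H := by
  obtain ⟨Z, hZ, d, hd, rfl, hcomm⟩ := full_NA.dec hX
  obtain ⟨M2, hM2⟩ := h.st d (der_NA_le hd)
  have h1 : Rel B Z 0 := hc Z hZ fun Y hY => by
    rw [hcomm Y hY, sub_self]
    exact Rel.zero
  have h2 := hM.uniq h.li (h1.add hM2)
  rw [h2, zero_add]
  exact main_dC h hW hH hr hα hd hM2

/-- If the centre acts trivially, the weights are in the Lie algebra of the group. -/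
theorem Wt_memC (h : Mot w B P) (hW : WRel w B Wt) (hH : PtQ P H) (hr : RigPart A e S)
    (hα : ∀ p ∈ pC B (der A.NA), e * p.1 = 0 → p.2 = 0) (hc : NoCentre B) : Wt ∈ LQ H := by
  obtain ⟨D, lam, hne⟩ := exists_der'
  have hu : IsUnit P.det := isUnit_iff_ne_zero.2 h.det
  have h1 := Matrix.mul_nonsing_inv _ hu
  have h2 := Matrix.nonsing_inv_mul _ hu
  have h3 := pair_mem h hW h1 D lam
  have key : ∀ p ∈ pC B A.NA, ∀ d, Stab H d p.2 := by
    intro p hp d
    induction hp using Submodule.span_induction with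
    | mem p hp =>
      obtain ⟨X, hX, M, hM, rfl⟩ := hp
      exact main_NC h hW hH hr hα hc hX hM d
    | zero => exact Stab.zero
    | add a b _ _ ha hb => exact ha.add hb
    | smul c a _ ha => exact ha.smul c
  intro d
  have h4 := key _ h3 d
  have h5 := hH.log_mem h1 h2 D lam d
  have h6 := Stab.sub h5 h4
  have h7 := h6.smul (lm lam (D tau / (2 * tau)))⁻¹
  rw [sub_sub_cancel, smul_smul, inv_mul_cancel₀ hne, one_smul] at h7
  exact h7

end Pool.Agent.K9h14
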