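import Pool.Agent.K9h14.C2

set_option autoImplicit false
set_option linter.unusedVariables false
set_option linter.unusedSectionVars false

/-!
# Groups over the algebraic numbers: the rational hull
-/

open Module Function TensorProduct Matrix

noncomputable section

namespace Pool.Agent.K9h14

open Pool.Agent.Y102 Pool.Agent.W516.DR Pool.Agent.H204R3.GP Pool.Agent.W516.KC
  Pool.Agent.H204R3.SP Pool.Agent.TH119.MX Pool.Agent.R917 Pool.Agent.N208.AM
  Pool.Agent.N113.BT Pool.Agent.TH119.DR Pool.Agent.W437.HK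

section grp

variable {R : Type} [Fintype R] [DecidableEq R]

/-- A subgroup defined by polynomials with coefficients in a field. -/
def IsAlg (F : Type) [Field F] [Algebra F ℂ] (G : Subgroup (GL R ℂ)) : Prop :=
  ∃ I : Set (MvPolynomial (R × R) F), ∀ x : GL R ℂ, x ∈ G ↔
    ∀ p ∈ I, MvPolynomial.aeval (fun b : R × R => (x : Matrix R R ℂ) b.1 b.2) p = 0

/-- the matrices of a group -/
def mats (G : Subgroup (GL R ℂ)) : Set (Matrix R R ℂ) :=
  {M | ∃ x ∈ G, (x : Matrix R R ℂ) = M}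

/-- polynomial equations over the complex numbers -/
theorem algGrp_gen {F : Subfield ℂ} {G : Subgroup (GL R ℂ)}
    (hG : ∃ I : Set (MvPolynomial (R × R) ℂ), (∀ p ∈ I, ∀ m, p.coeff m ∈ F) ∧
      ∀ x : GL R ℂ, x ∈ G ↔
        ∀ p ∈ I, MvPolynomial.eval (fun b : R × R => (x : Matrix R R ℂ) b.1 b.2) p = 0) :
    AlgGrp F (mats G) where
  one := ⟨1, one_mem G, Units.val_one⟩
  mul := by
    rintro _ ⟨x, hx, rfl⟩ _ ⟨y, hy, rfl⟩
    exact ⟨x * y, mul_mem hx hy, Units.val_mul x y⟩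
  inv := by
    rintro _ ⟨x, hx, rfl⟩
    exact ⟨_, ⟨x⁻¹, inv_mem hx, rfl⟩, x.val_inv, x.inv_val⟩
  alg := by
    obtain ⟨I, hI, hI2⟩ := hG
    refine ⟨I, hI, fun M => ?_⟩
    constructor
    · rintro ⟨x, hx, rfl⟩
      exact ⟨⟨(x⁻¹ : GL R ℂ), x.val_inv, x.inv_val⟩, fun p hp => (hI2 x).1 hx p hp⟩
    · rintro ⟨⟨M', h1, h2⟩, h3⟩
      exact ⟨⟨M, M', h1, h2⟩, (hI2 _).2 fun p hp => h3 p hp, rfl⟩

theorem eval_map' {F : Type} [Field F] [Algebra F ℂ] (M : Matrix R R ℂ)
    (p : MvPolynomial (R × R) F) :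
    MvPolynomial.eval (fun b : R × R => M b.1 b.2) (MvPolynomial.map (algebraMap F ℂ) p) =
      MvPolynomial.aeval (fun b : R × R => M b.1 b.2) p := by
  rw [MvPolynomial.eval_map]
  rfl

theorem IsAlg.eqs {F : Type} [Field F] [Algebra F ℂ] {G : Subgroup (GL R ℂ)} (h : IsAlg F G) :
    ∃ I : Set (MvPolynomial (R × R) ℂ), (∀ p ∈ I, ∀ m, p.coeff m ∈ (algebraMap F ℂ).fieldRange) ∧
      ∀ x : GL R ℂ, x ∈ G ↔
        ∀ p ∈ I, MvPolynomial.eval (fun b : R × R => (x : Matrix R R ℂ) b.1 b.2) p = 0 := by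
  obtain ⟨I, hI⟩ := h
  refine ⟨(MvPolynomial.map (algebraMap F ℂ)) '' I, ?_, fun x => ?_⟩
  · rintro _ ⟨p, _, rfl⟩ m
    rw [MvPolynomial.coeff_map]
    exact ⟨_, rfl⟩
  · rw [hI x]
    constructor
    · rintro h _ ⟨p, hp, rfl⟩
      rw [eval_map']
      exact h p hp
    · intro h p hp
      have h1 := h _ ⟨p, hp, rfl⟩
      rwa [eval_map'] at h1

/-- an algebraic group over the algebraic numbers -/
theorem algGrp_QA {G : Subgroup (GL R ℂ)} (h : IsAlg QBar G) : AlgGrp QA (mats G) := by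
  obtain ⟨I, hI, hI2⟩ := h.eqs
  refine algGrp_gen ⟨I, fun p hp m => ?_, hI2⟩
  obtain ⟨y, hy⟩ := hI p hp m
  rw [← hy]
  exact mem_QA.2 (QBar.alg y)

/-! ### The action of the automorphisms -/

/-- the action of an automorphism of the complex numbers on the matrices -/
def sg (σ : ℂ ≃+* ℂ) : GL R ℂ →* GL R ℂ :=
  Matrix.GeneralLinearGroup.map (n := R) (σ : ℂ →+* ℂ)

theorem sg_val (σ : ℂ ≃+* ℂ) (x : GL R ℂ) :
    ((sg σ x : GL R ℂ) : Matrix R R ℂ) = (x : Matrix R R ℂ).map σ := rfl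

/-- The rational hull of a group: the elements all of whose conjugates are in the group. -/
def hull (G : Subgroup (GL R ℂ)) : Subgroup (GL R ℂ) := ⨅ σ : ℂ ≃+* ℂ, G.comap (sg σ)

theorem mem_hull {G : Subgroup (GL R ℂ)} {x : GL R ℂ} : x ∈ hull G ↔ ∀ σ, sg σ x ∈ G := by
  unfold hull
  rw [Subgroup.mem_iInf]
  rfl

theorem hull_le (G : Subgroup (GL R ℂ)) : hull G ≤ G := by
  intro x hx
  have h1 := mem_hull.1 hx (RingEquiv.refl ℂ)
  have h2 : sg (RingEquiv.refl ℂ) x = x := Units.ext (by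
    rw [sg_val]
    ext i j
    rfl)
  rwa [h2] at h1

theorem sg_sg (σ τ : ℂ ≃+* ℂ) (x : GL R ℂ) : sg σ (sg τ x) = sg (τ.trans σ) x := Units.ext (by
  rw [sg_val, sg_val, sg_val]
  ext i j
  rfl)

theorem sg_hull {G : Subgroup (GL R ℂ)} {x : GL R ℂ} (hx : x ∈ hull G) (τ : ℂ ≃+* ℂ) :
    sg τ x ∈ hull G := mem_hull.2 fun σ => by
  rw [sg_sg]
  exact mem_hull.1 hx _

theorem map_eval' (σ : ℂ ≃+* ℂ) (p : MvPolynomial (R × R) ℂ) (M : Matrix R R ℂ) :
    MvPolynomial.eval (fun b : R × R => (M.map σ) b.1 b.2)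
      (MvPolynomial.map (σ : ℂ →+* ℂ) p) =
      σ (MvPolynomial.eval (fun b : R × R => M b.1 b.2) p) := by
  have h1 := MvPolynomial.map_eval (σ : ℂ →+* ℂ) (fun b : R × R => M b.1 b.2) p
  exact h1.symm

theorem aut_evalF (σ : ℂ ≃+* ℂ) {d : ℕ} (w : (Fin d → Option (R × R)) → ℂ) (h : Matrix R R ℂ) :
    σ (evalF w (fun _ => TH119.MX.cx h)) = evalF (fun I => σ (w I)) (fun _ => TH119.MX.cx (h.map σ)) := by
  unfold evalF
  rw [map_sum]
  refine Finset.sum_congr rfl fun I _ => ?_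
  rw [map_mul, map_prod]
  congr 1
  refine Finset.prod_congr rfl fun k _ => ?_
  unfold TH119.MX.cx
  cases I k with
  | none => simp
  | some p => rfl

/-- the polynomial of a rational tensor -/
def polT {d : ℕ} (q : (Fin d → Option (R × R)) → ℚ) : MvPolynomial (R × R) ℚ :=
  ∑ I, MvPolynomial.C (q I) * ∏ k, (I k).elim 1 MvPolynomial.X

theorem aeval_polT {d : ℕ} (q : (Fin d → Option (R × R)) → ℚ) (M : Matrix R R ℂ) :
    MvPolynomial.aeval (fun b : R × R => M b.1 b.2) (polT q) =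
      evalF (fun I => ((q I : ℚ) : ℂ)) (fun _ => TH119.MX.cx M) := by
  unfold polT evalF
  rw [map_sum]
  refine Finset.sum_congr rfl fun I _ => ?_
  rw [map_mul, MvPolynomial.aeval_C, map_prod]
  congr 1
  refine Finset.prod_congr rfl fun k _ => ?_
  unfold TH119.MX.cx
  cases I k with
  | none => simp
  | some p => simp

/-- **The rational hull is an algebraic group over the rational numbers.** -/
theorem hull_alg {F : Type} [Field F] [Algebra F ℂ] {G : Subgroup (GL R ℂ)} (h : IsAlg F G) :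
    IsAlg ℚ (hull G) := by
  obtain ⟨I, -, hI⟩ := h.eqs
  refine ⟨{p | ∀ y ∈ hull G, MvPolynomial.aeval (fun b : R × R => (y : Matrix R R ℂ) b.1 b.2) p
    = 0}, fun x => ⟨fun hx p hp => hp x hx, fun hx => mem_hull.2 fun σ => (hI _).2 fun p hp => ?_⟩⟩
  have hst : ∀ d, DefOver QQ (Wt (mats (hull G)) d) := by
    intro d
    refine defOver_of_aut _ fun τ hτ w hw h hh => ?_
    obtain ⟨y, hy, rfl⟩ := hh
    have h1 := hw _ ⟨_, sg_hull hy τ.symm, rfl⟩
    have h2 := congrArg τ h1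
    rw [map_zero, aut_evalF, sg_val] at h2
    have h3 : ((y : Matrix R R ℂ).map τ.symm).map τ = (y : Matrix R R ℂ) := by
      ext i j
      simp
    rwa [h3] at h2
  have hinv : ∀ M : Matrix R R ℂ, (M.map σ).map σ.symm = M := fun M => by
    ext i j
    simp
  obtain ⟨d, w, hw⟩ := exists_tensor (MvPolynomial.map (σ.symm : ℂ →+* ℂ) p)
  have hcx : ∀ M : Matrix R R ℂ, evalF w (fun _ => TH119.MX.cx M) =
      MvPolynomial.eval (fun b => M b.1 b.2) (MvPolynomial.map (σ.symm : ℂ →+* ℂ) p) :=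
    fun M => hw (fun b => M b.1 b.2)
  have hwW : w ∈ Wt (mats (hull G)) d := by
    rintro _ ⟨y, hy, rfl⟩
    have h1 := map_eval' σ.symm p ((y : Matrix R R ℂ).map σ)
    rw [hinv] at h1
    rw [hcx, h1, ← sg_val, (hI _).1 (mem_hull.1 hy σ) p hp, map_zero]
  have key : ∀ w ∈ Submodule.span ℂ {w | w ∈ Wt (mats (hull G)) d ∧ ∀ a, w a ∈ QQ},
      evalF w (fun _ => TH119.MX.cx (x : Matrix R R ℂ)) = 0 := by
    intro w hw
    induction hw using Submodule.span_induction with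
    | mem w hw =>
      obtain ⟨hw1, hw2⟩ := hw
      choose q hq using hw2
      have h1 : w = fun I => ((q I : ℚ) : ℂ) := funext fun I => (hq I).symm
      have h2 : polT q ∈ {p | ∀ y ∈ hull G, MvPolynomial.aeval
          (fun b : R × R => (y : Matrix R R ℂ) b.1 b.2) p = 0} := by
        intro y hy
        rw [aeval_polT, ← h1]
        exact hw1 _ ⟨y, hy, rfl⟩
      have h3 := hx _ h2
      rwa [aeval_polT, ← h1] at h3
    | zero => exact evalF_zero _
    | add a b _ _ ha hb => rw [evalF_add', ha, hb, add_zero]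
    | smul c a _ ha => rw [evalF_smul', ha, mul_zero]
  have h4 := key w (hst d hwW)
  have h5 := map_eval' σ.symm p ((x : Matrix R R ℂ).map σ)
  rw [hinv, ← hcx, h4] at h5
  rw [sg_val]
  exact (map_eq_zero σ.symm).1 h5.symm

theorem act_aut (σ : ℂ ≃+* ℂ) {d : ℕ} {M : Matrix R R ℂ} (hM : ∀ i j, σ (M i j) = M i j)
    (w : (Fin d → Option (R × R)) → ℂ) :
    act (LL M) (fun I => σ (w I)) = fun I => σ (act (LL M) w I) := by
  funext I
  unfold act
  rw [map_sum]
  refine Finset.sum_congr rfl fun k _ => ?_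
  rw [map_sum]
  refine Finset.sum_congr rfl fun j _ => ?_
  rw [map_mul]
  congr 1
  unfold TH119.MX.LL
  rw [Matrix.of_apply]
  rcases j with _ | ⟨a, b⟩
  · simp
  · rcases I k with _ | ⟨a', b'⟩
    · simp
    · simp only [Option.elim_some]
      split_ifs
      · exact (hM _ _).symm
      · exact (map_zero σ).symm

/-- the conjugates of a group -/
theorem algGrp_conj {F : Type} [Field F] [Algebra F ℂ] {G : Subgroup (GL R ℂ)} (h : IsAlg F G)
    (σ : ℂ ≃+* ℂ) : AlgGrp ⊤ (mats (G.comap (sg σ))) := by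
  obtain ⟨I, -, hI⟩ := h.eqs
  refine algGrp_gen ⟨MvPolynomial.map (σ.symm : ℂ →+* ℂ) '' I, fun _ _ _ => Subfield.mem_top _,
    fun x => ?_⟩
  have hinv : ∀ M : Matrix R R ℂ, (M.map σ).map σ.symm = M := fun M => by
    ext i j
    simp
  have key : ∀ p, MvPolynomial.eval (fun b : R × R => (x : Matrix R R ℂ) b.1 b.2)
      (MvPolynomial.map (σ.symm : ℂ →+* ℂ) p) =
        σ.symm (MvPolynomial.eval (fun b : R × R => (sg σ x : Matrix R R ℂ) b.1 b.2) p) := by
    intro p
    have h1 := map_eval' σ.symm p ((x : Matrix R R ℂ).map σ)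
    rwa [hinv] at h1
  rw [Subgroup.mem_comap, hI]
  constructor
  · rintro h _ ⟨p, hp, rfl⟩
    rw [key, h p hp, map_zero]
  · intro h p hp
    have h1 := h _ ⟨p, hp, rfl⟩
    rw [key] at h1
    exact (map_eq_zero σ.symm).1 h1

theorem stab_conj {G : Subgroup (GL R ℂ)} (σ : ℂ ≃+* ℂ) {d : ℕ} {M : Matrix R R ℂ}
    (hM : ∀ i j, σ (M i j) = M i j) (h : Stab (mats G) d M) :
    Stab (mats (G.comap (sg σ))) d M := by
  have key : ∀ w : (Fin d → Option (R × R)) → ℂ, w ∈ Wt (mats (G.comap (sg σ))) d ↔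
      (fun I => σ (w I)) ∈ Wt (mats G) d := by
    intro w
    constructor
    · rintro h _ ⟨y, hy, rfl⟩
      have h1 : sg σ (sg σ.symm y) = y := by
        rw [sg_sg]
        refine Units.ext ?_
        rw [sg_val]
        ext i j
        simp
      have h2 : sg σ.symm y ∈ G.comap (sg σ) := by
        rw [Subgroup.mem_comap, h1]
        exact hy
      have h3 := congrArg σ (h _ ⟨_, h2, rfl⟩)
      rw [map_zero, aut_evalF, ← sg_val, h1] at h3
      exact h3
    · rintro h _ ⟨y, hy, rfl⟩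
      have h3 := h _ ⟨_, Subgroup.mem_comap.1 hy, rfl⟩
      rw [sg_val, ← aut_evalF] at h3
      exact (map_eq_zero σ).1 h3
  intro w hw
  rw [key] at hw ⊢
  have h1 := h _ hw
  rwa [act_aut σ hM] at h1

/-- **The exponentials of combinations of rational elements of the Lie algebra are in the hull.** -/
theorem exp_hull {F : Type} [Field F] [Algebra F ℂ] {G : Subgroup (GL R ℂ)} (h : IsAlg F G)
    {X : Matrix R R ℂ} (hX : X ∈ Submodule.span ℂ {Y | ∃ M : Matrix R R ℚ,
      (∀ d, Stab (mats G) d (M.map fun q => (q : ℂ))) ∧ Y = M.map fun q => (q : ℂ)}) :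
    ∃ x ∈ hull G, (x : Matrix R R ℂ) = NormedSpace.exp X := by
  have h1 : ∀ σ : ℂ ≃+* ℂ, NormedSpace.exp X ∈ mats (G.comap (sg σ)) := by
    intro σ
    refine exp_mem (algGrp_conj h σ) fun d => ?_
    induction hX using Submodule.span_induction with
    | mem x hx =>
      obtain ⟨M, hM, rfl⟩ := hx
      exact stab_conj σ (fun i j => by simp) (hM d)
    | zero => exact Stab.zero
    | add a b _ _ ha hb => exact ha.add hb
    | smul c a _ ha => exact ha.smul c
  obtain ⟨x, hx, hx'⟩ := h1 (RingEquiv.refl ℂ)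
  refine ⟨x, mem_hull.2 fun σ => ?_, hx'⟩
  obtain ⟨y, hy, hy'⟩ := h1 σ
  have h2 : y = x := Units.ext (hy'.trans hx'.symm)
  rw [← h2]
  exact hy

end grp

end Pool.Agent.K9h14
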