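import Pool.Agent.K9h14.C3

set_option autoImplicit false
set_option linter.unusedVariables false
set_option linter.unusedSectionVars false

/-!
# The Mumford-Tate group and groups over the algebraic numbers
-/

open Module Function TensorProduct Matrix

noncomputable section

namespace Pool.Agent.K9h14

open Pool.Agent.Y102 Pool.Agent.W516.DR Pool.Agent.H204R3.GP Pool.Agent.W516.KC
  Pool.Agent.H204R3.SP Pool.Agent.TH119.MX Pool.Agent.R917 Pool.Agent.N208.AM
  Pool.Agent.N113.BT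

variable {g : ℕ} {A : AbVar g} {s n : ℕ} {r : Fin s → ℕ} {B : Fin n → Ten A r} {w : Fin s → ℤ}
  {P : Matrix (Fin n) (Fin n) ℂ} {Wt : Matrix (Fin n) (Fin n) ℚ}
  {H : Set (Matrix (Fin n) (Fin n) ℂ)}

/-- The derived algebra is in the Lie algebra of the group. -/
def DerIn (B : Fin n → Ten A r) (H : Set (Matrix (Fin n) (Fin n) ℂ)) : Prop :=
  ∀ X ∈ der A.NA, ∀ M : Matrix (Fin n) (Fin n) ℚ, Rel B X M → M ∈ LQ H

/-- If the centre acts trivially, the whole Lie algebra is in the Lie algebra of the group -/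
theorem DerIn.NC (h : Mot w B P) (hd : DerIn B H) (hc : NoCentre B)
    {X : Module.End ℚ A.H1} (hX : X ∈ A.NA) {M : Matrix (Fin n) (Fin n) ℚ} (hM : Rel B X M) :
    M ∈ LQ H := by
  obtain ⟨Z, hZ, d, hdd, rfl, hcomm⟩ := full_NA.dec hX
  obtain ⟨M2, hM2⟩ := h.st d (der_NA_le hdd)
  have h1 : Rel B Z 0 := hc Z hZ fun Y hY => by
    rw [hcomm Y hY, sub_self]
    exact Rel.zero
  have h2 := hM.uniq h.li (h1.add hM2)
  rw [h2, zero_add]
  exact hd d hdd M2 hM2

/-- If the centre acts trivially, the weights are in the Lie algebra of the group. -/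
theorem DerIn.weight (h : Mot w B P) (hW : WRel w B Wt) (hH : PtQ P H) (hd : DerIn B H)
    (hc : NoCentre B) : Wt ∈ LQ H := by
  obtain ⟨D, lam, hne⟩ := exists_der'
  have hu : IsUnit P.det := isUnit_iff_ne_zero.2 h.det
  have h1 := Matrix.mul_nonsing_inv _ hu
  have h2 := Matrix.nonsing_inv_mul _ hu
  have h3 := pair_mem h hW h1 D lam
  have key : ∀ p ∈ pC B A.NA, ∀ d, Stab H d p.2 := by
    intro p hp d
    induction hp using Submodule.span_induction with
    | mem p hp =>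
      obtain ⟨X, hX, M, hM, rfl⟩ := hp
      exact hd.NC h hc hX hM d
    | zero => exact Stab.zero
    | add a b _ _ ha hb => exact ha.add hb
    | smul c a _ ha => exact ha.smul c
  intro d
  have h4 := key _ h3 d
  have h5 := hH.log_mem h1 h2 D lam d
  have h6 := Stab.sub h5 h4
  have h7 := h6.smul (lm lam (D tau / (2 * tau)))⁻¹
  rw [sub_sub_cancel, smul_smul, inv_mul_cancel₀ hne, one_smul] at h7
  exact h7

/-- the matrices of the action of the Lie algebra -/
def LM (B : Fin n → Ten A r) : Submodule ℚ (Matrix (Fin n) (Fin n) ℚ) where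
  carrier := {M | ∃ X ∈ A.NA, Rel B X M}
  zero_mem' := ⟨0, A.NA.zero_mem, Rel.zero⟩
  add_mem' := by
    rintro _ _ ⟨X, hX, h1⟩ ⟨Y, hY, h2⟩
    exact ⟨X + Y, A.NA.add_mem hX hY, h1.add h2⟩
  smul_mem' := by
    rintro c _ ⟨X, hX, h1⟩
    exact ⟨c • X, A.NA.smul_mem c hX, h1.smul c⟩

/-- the bracket -/
theorem LM_br {x y : Matrix (Fin n) (Fin n) ℚ} (hx : x ∈ LM B) (hy : y ∈ LM B) :
    ∃ X ∈ der A.NA, Rel B X (x * y - y * x) := by
  obtain ⟨X, hX, h1⟩ := hx
  obtain ⟨Y, hY, h2⟩ := hy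
  exact ⟨Y * X - X * Y, Submodule.subset_span ⟨Y, hY, X, hX, rfl⟩, h2.br h1⟩

variable {N : Matrix (Fin n) (Fin n) ℝ}

theorem N_mem_LM (h : Mot w B P) (hN : RelR B AbVar.JJ N) :
    N ∈ Submodule.span ℝ {M | ∃ x ∈ LM B, M = rq x} := by
  obtain ⟨N', hN', t, X, M, h1, h2⟩ := exists_J h
  have h3 : N = N' := hN.uniq h.li hN'
  subst h3
  rw [h2]
  exact Submodule.sum_mem _ fun k _ => Submodule.smul_mem _ _
    (Submodule.subset_span ⟨M k, ⟨X k, (h1 k).1, (h1 k).2⟩, rfl⟩)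

/-- **First conclusion.** -/
theorem DerIn.lie (h : Mot w B P) (hd : DerIn B H) (hN : RelR B AbVar.JJ N) :
    ∃ L : Submodule ℚ (Matrix (Fin n) (Fin n) ℚ), (∀ x ∈ L, ∀ y ∈ L, x * y - y * x ∈ L) ∧
      N ∈ Submodule.span ℝ {M | ∃ x ∈ L, M = rq x} ∧
      ∀ x ∈ L, ∀ y ∈ L, x * y - y * x ∈ LQ H := by
  refine ⟨LM B, fun x hx y hy => ?_, N_mem_LM h hN, fun x hx y hy => ?_⟩
  · obtain ⟨X, hX, h1⟩ := LM_br hx hy
    exact ⟨X, der_NA_le hX, h1⟩
  · obtain ⟨X, hX, h1⟩ := LM_br hx hy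
    exact hd X hX _ h1

/-- **Second conclusion**: the rational hull contains the image of the Deligne torus. -/
theorem DerIn.torus {G : Subgroup (GL (Fin n) ℂ)} (hG : IsAlg ℂ G) (h : Mot w B P)
    (hW : WRel w B Wt) (hH : PtQ P (mats G)) (hd : DerIn B (mats G)) (hc : NoCentre B)
    (hN : RelR B AbVar.JJ N) {z : ℂ} (hz : z ≠ 0) :
    ∃ x ∈ hull G, HRel w B z (x : Matrix (Fin n) (Fin n) ℂ) := by
  obtain ⟨x, hx, hx'⟩ := exp_hull hG (X := KK Wt N z) (by
    unfold KK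
    refine Submodule.add_mem _ (Submodule.smul_mem _ _ (Submodule.subset_span
      ⟨Wt, DerIn.weight h hW hH hd hc, rfl⟩)) (Submodule.smul_mem _ _ ?_)
    have h1 := N_mem_LM h hN
    have key : ∀ N' ∈ Submodule.span ℝ {M | ∃ x ∈ LM B, M = rq x},
        cxm N' ∈ Submodule.span ℂ {Y : Matrix (Fin n) (Fin n) ℂ | ∃ M : Matrix (Fin n) (Fin n) ℚ,
          (∀ d, Stab (mats G) d (M.map fun q => (q : ℂ))) ∧ Y = M.map fun q => (q : ℂ)} := by
      intro N' hN'
      induction hN' using Submodule.span_induction with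
      | mem M hM =>
        obtain ⟨y, ⟨X, hX, h2⟩, rfl⟩ := hM
        refine Submodule.subset_span ⟨y, hd.NC h hc hX h2, ?_⟩
        ext i j
        simp [cxm]
      | zero =>
        have h3 : cxm (0 : Matrix (Fin n) (Fin n) ℝ) = 0 := by
          ext i j
          simp [cxm]
        rw [h3]
        exact Submodule.zero_mem _
      | add a b _ _ ha hb =>
        have h3 : cxm (a + b) = cxm a + cxm b := by
          ext i j
          simp [cxm]
        rw [h3]
        exact Submodule.add_mem _ ha hb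
      | smul c a _ ha =>
        have h3 : cxm (c • a) = (c : ℂ) • cxm a := by
          ext i j
          simp [cxm]
        rw [h3]
        exact Submodule.smul_mem _ _ ha
    exact key N h1)
  refine ⟨x, hx, ?_⟩
  rw [hx']
  exact hrel_exp hW hN hz

/-- The condition on the pairs, in terms of matrices. -/
theorem alpha_of' {E : Matrix (Fin (2 * g)) (Fin (2 * g)) ℂ}
    {T : Submodule ℚ (Module.End ℚ A.H1)}
    (hα : ∀ p ∈ Submodule.span ℂ {p : Matrix (Fin (2 * g)) (Fin (2 * g)) ℂ ×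
      Matrix (Fin n) (Fin n) ℂ | ∃ X ∈ T, ∃ M, Rel B X M ∧ p = (toC X, cq M)},
      E * p.1 = 0 → p.2 = 0) :
    ∀ p ∈ pC B T, matE (2 * g) E * p.1 = 0 → p.2 = 0 := by
  intro p hp h0
  have key : ∀ p ∈ pC B T, ∃ x, matE (2 * g) x = p.1 ∧ (x, p.2) ∈
      Submodule.span ℂ {p : Matrix (Fin (2 * g)) (Fin (2 * g)) ℂ × Matrix (Fin n) (Fin n) ℂ |
        ∃ X ∈ T, ∃ M, Rel B X M ∧ p = (toC X, cq M)} := by
    intro p hp
    induction hp using Submodule.span_induction with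
    | mem p hp =>
      obtain ⟨X, hX, M, hM, rfl⟩ := hp
      exact ⟨toC X, matE_toC X, Submodule.subset_span ⟨X, hX, M, hM, rfl⟩⟩
    | zero => exact ⟨0, map_zero _, Submodule.zero_mem _⟩
    | add p q _ _ hp hq =>
      obtain ⟨x, hx, hx'⟩ := hp
      obtain ⟨y, hy, hy'⟩ := hq
      exact ⟨x + y, by rw [map_add, hx, hy]; rfl, Submodule.add_mem _ hx' hy'⟩
    | smul c p _ hp =>
      obtain ⟨x, hx, hx'⟩ := hp
      exact ⟨c • x, by rw [map_smul, hx]; rfl, Submodule.smul_mem _ c hx'⟩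
  obtain ⟨x, hx, hx'⟩ := key p hp
  refine hα _ hx' ?_
  rw [← hx, ← map_mul] at h0
  exact (matE (2 * g)).injective (h0.trans (map_zero _).symm)

/-- groups defined by polynomials with algebraic coefficients -/
theorem of_eqs {R : Type} [Fintype R] [DecidableEq R] {G : Subgroup (GL R ℂ)}
    (hG : ∃ I : Set (MvPolynomial (R × R) ℂ), (∀ p ∈ I, ∀ m, IsAlgebraic ℚ (p.coeff m)) ∧
    ∀ x : GL R ℂ, x ∈ G ↔
      ∀ p ∈ I, MvPolynomial.eval (fun b : R × R => (x : Matrix R R ℂ) b.1 b.2) p = 0) :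
    AlgGrp QA (mats G) ∧ IsAlg ℂ G := by
  obtain ⟨I, hI, hI2⟩ := hG
  refine ⟨algGrp_gen ⟨I, fun p hp m => mem_QA.2 (hI p hp m), hI2⟩, I, fun x => ?_⟩
  rw [hI2]
  refine forall₂_congr fun p _ => ?_
  rw [MvPolynomial.aeval_def, MvPolynomial.eval₂_eq_eval_map]
  have h1 : MvPolynomial.map (algebraMap ℂ ℂ) p = p := by
    rw [Algebra.algebraMap_self, MvPolynomial.map_id]
  rw [h1]

end Pool.Agent.K9h14
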