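import Mathlib

set_option autoImplicit false
set_option linter.unusedVariables false
set_option linter.unusedSectionVars false

/-!
# Commuting families of Pauli matrices
-/

open Module

noncomputable section

namespace Pool.Agent.K9h14.PA

variable {R : Type} [Ring R] [Algebra ℂ R] {κ : Type} [Fintype κ] [DecidableEq κ]

/-- Commuting families of Pauli matrices, one for each colour. Each family acts as on a sum of
copies of the trivial and of the standard representation of `sl(2)`. -/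
structure Pau (X : κ → Fin 3 → R) : Prop where
  mul : ∀ σ a, X σ a * X σ (a + 1) = Complex.I • X σ (a + 2)
  mul' : ∀ σ a, X σ (a + 1) * X σ a = -(Complex.I • X σ (a + 2))
  sq : ∀ σ a, X σ a * X σ a = X σ 0 * X σ 0
  comm : ∀ σ τ, σ ≠ τ → ∀ a b, X σ a * X τ b = X τ b * X σ a

variable {X : κ → Fin 3 → R}

/-- the projector to the standard part -/
def ff (X : κ → Fin 3 → R) (σ : κ) : R := X σ 0 * X σ 0

theorem Pau.sq' (h : Pau X) (σ : κ) (a : Fin 3) : X σ a * X σ a = ff X σ := h.sq σ a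

theorem Pau.f_mul (h : Pau X) (σ : κ) (a : Fin 3) : ff X σ * X σ a = X σ a := by
  have h1 : X σ (a + 1) * X σ a = -(Complex.I • X σ (a + 2)) := h.mul' σ a
  have h2 : X σ (a + 1) * X σ (a + 2) = Complex.I • X σ a := by
    have h3 := h.mul σ (a + 1)
    have h4 : a + 1 + 1 = a + 2 := by fin_cases a <;> rfl
    have h5 : a + 1 + 2 = a := by fin_cases a <;> rfl
    rwa [h4, h5] at h3
  rw [← h.sq' σ (a + 1), mul_assoc, h1, mul_neg, mul_smul_comm, h2, smul_smul, Complex.I_mul_I,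
    neg_smul, one_smul, neg_neg]

theorem Pau.mul_f (h : Pau X) (σ : κ) (a : Fin 3) : X σ a * ff X σ = X σ a := by
  have h1 : X σ a * X σ (a + 1) = Complex.I • X σ (a + 2) := h.mul σ a
  have h2 : X σ (a + 2) * X σ (a + 1) = -(Complex.I • X σ a) := by
    have h3 := h.mul' σ (a + 1)
    have h4 : a + 1 + 1 = a + 2 := by fin_cases a <;> rfl
    have h5 : a + 1 + 2 = a := by fin_cases a <;> rfl
    rwa [h4, h5] at h3
  rw [← h.sq' σ (a + 1), ← mul_assoc, h1, smul_mul_assoc, h2, smul_neg, smul_smul,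
    Complex.I_mul_I, neg_smul, one_smul, neg_neg]

theorem Pau.ff_ff (h : Pau X) (σ : κ) : ff X σ * ff X σ = ff X σ := by
  conv_lhs => enter [2]; unfold ff
  rw [← mul_assoc, h.f_mul]
  rfl

theorem Pau.f_comm (h : Pau X) (σ τ : κ) (a : Fin 3) : ff X σ * X τ a = X τ a * ff X σ := by
  by_cases hs : σ = τ
  · subst hs
    rw [h.f_mul, h.mul_f]
  · unfold ff
    rw [mul_assoc, h.comm σ τ hs, ← mul_assoc, h.comm σ τ hs, mul_assoc]

theorem Pau.ff_comm (h : Pau X) (σ τ : κ) : ff X σ * ff X τ = ff X τ * ff X σ := by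
  conv_lhs => enter [2]; unfold ff
  conv_rhs => enter [1]; unfold ff
  rw [← mul_assoc, h.f_comm, mul_assoc, h.f_comm, mul_assoc]

/-- the Lie algebra of one colour -/
def SS (X : κ → Fin 3 → R) (σ : κ) : Submodule ℂ R := Submodule.span ℂ (Set.range (X σ))

/-- the sum of the Lie algebras -/
def S0 (X : κ → Fin 3 → R) : Submodule ℂ R := Submodule.span ℂ {x | ∃ σ a, x = X σ a}

theorem SS_le (σ : κ) : SS X σ ≤ S0 X := by
  unfold SS S0
  refine Submodule.span_mono ?_
  rintro _ ⟨a, rfl⟩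
  exact ⟨σ, a, rfl⟩

theorem mem_SS {σ : κ} {x : R} : x ∈ SS X σ ↔ ∃ c : Fin 3 → ℂ, x = ∑ a, c a • X σ a := by
  unfold SS
  rw [Submodule.mem_span_range_iff_exists_fun]
  exact ⟨fun ⟨c, hc⟩ => ⟨c, hc.symm⟩, fun ⟨c, hc⟩ => ⟨c, hc.symm⟩⟩

theorem X_mem (σ : κ) (a : Fin 3) : X σ a ∈ SS X σ := Submodule.subset_span ⟨a, rfl⟩

theorem Pau.f_mul' (h : Pau X) {σ : κ} {x : R} (hx : x ∈ SS X σ) : ff X σ * x = x := by
  obtain ⟨c, rfl⟩ := mem_SS.1 hx
  rw [Finset.mul_sum]
  exact Finset.sum_congr rfl fun a _ => by rw [mul_smul_comm, h.f_mul]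

theorem Pau.mul_f' (h : Pau X) {σ : κ} {x : R} (hx : x ∈ SS X σ) : x * ff X σ = x := by
  obtain ⟨c, rfl⟩ := mem_SS.1 hx
  rw [Finset.sum_mul]
  exact Finset.sum_congr rfl fun a _ => by rw [smul_mul_assoc, h.mul_f]

theorem Pau.comm' (h : Pau X) {σ τ : κ} (hs : σ ≠ τ) {x y : R} (hx : x ∈ SS X σ)
    (hy : y ∈ SS X τ) : x * y = y * x := by
  obtain ⟨c, rfl⟩ := mem_SS.1 hx
  obtain ⟨d, rfl⟩ := mem_SS.1 hy
  rw [Finset.sum_mul_sum, Finset.sum_mul_sum, Finset.sum_comm]
  refine Finset.sum_congr rfl fun a _ => Finset.sum_congr rfl fun b _ => ?_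
  rw [smul_mul_smul_comm, smul_mul_smul_comm, h.comm σ τ hs, mul_comm (c b)]

theorem Pau.f_comm' (h : Pau X) (σ : κ) {τ : κ} {x : R} (hx : x ∈ SS X τ) :
    ff X σ * x = x * ff X σ := by
  obtain ⟨c, rfl⟩ := mem_SS.1 hx
  rw [Finset.mul_sum, Finset.sum_mul]
  exact Finset.sum_congr rfl fun a _ => by rw [mul_smul_comm, smul_mul_assoc, h.f_comm]

/-- products of two different Pauli matrices -/
theorem Pau.ne_mul (h : Pau X) (σ : κ) {a b : Fin 3} (hab : a ≠ b) :
    X σ a * X σ b = -(X σ b * X σ a) := by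
  have h1 : b = a + 1 ∨ a = b + 1 := by
    revert hab
    fin_cases a <;> fin_cases b <;> simp <;> decide
  rcases h1 with rfl | rfl
  · rw [h.mul, h.mul', neg_neg]
  · rw [h.mul, h.mul']

/-- **The anticommutator.** -/
theorem Pau.anti (h : Pau X) {σ : κ} {x y : R} (hx : x ∈ SS X σ) (hy : y ∈ SS X σ) :
    ∃ q : ℂ, x * y + y * x = q • ff X σ := by
  obtain ⟨c, rfl⟩ := mem_SS.1 hx
  obtain ⟨d, rfl⟩ := mem_SS.1 hy
  refine ⟨∑ a, 2 * (c a * d a), ?_⟩
  rw [Finset.sum_mul_sum, Finset.sum_mul_sum, Finset.sum_comm, ← Finset.sum_add_distrib,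
    Finset.sum_smul]
  refine Finset.sum_congr rfl fun a _ => ?_
  rw [← Finset.sum_add_distrib, Finset.sum_eq_single a]
  · rw [smul_mul_smul_comm, smul_mul_smul_comm, h.sq', ← add_smul]
    congr 1
    ring
  · intro b _ hb
    rw [smul_mul_smul_comm, smul_mul_smul_comm, h.ne_mul σ hb, smul_neg, mul_comm (c b)]
    simp
  · intro h'
    exact absurd (Finset.mem_univ _) h'

/-- **The commutator.** -/
theorem Pau.br (h : Pau X) {σ : κ} {x y : R} (hx : x ∈ SS X σ) (hy : y ∈ SS X σ) :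
    x * y - y * x ∈ SS X σ := by
  obtain ⟨c, rfl⟩ := mem_SS.1 hx
  obtain ⟨d, rfl⟩ := mem_SS.1 hy
  rw [Finset.sum_mul_sum, Finset.sum_mul_sum, Finset.sum_comm, ← Finset.sum_sub_distrib]
  refine Submodule.sum_mem _ fun a _ => ?_
  rw [← Finset.sum_sub_distrib]
  refine Submodule.sum_mem _ fun b _ => ?_
  rw [smul_mul_smul_comm, smul_mul_smul_comm]
  by_cases hab : b = a
  · subst hab
    rw [mul_comm (c b), sub_self]
    exact Submodule.zero_mem _
  · have h1 : X σ b * X σ a ∈ SS X σ := by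
      have h1 : b = a + 1 ∨ a = b + 1 := by
        revert hab
        fin_cases a <;> fin_cases b <;> simp <;> decide
      rcases h1 with rfl | rfl
      · rw [h.mul']
        exact Submodule.neg_mem _ (Submodule.smul_mem _ _ (X_mem _ _))
      · rw [h.mul]
        exact Submodule.smul_mem _ _ (X_mem _ _)
    rw [h.ne_mul σ (Ne.symm hab)]
    refine Submodule.sub_mem _ (Submodule.smul_mem _ _ h1) (Submodule.smul_mem _ _
      (Submodule.neg_mem _ h1))

/-- the projection to one colour -/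
def pp (X : κ → Fin 3 → R) (σ : κ) : R →ₗ[ℂ] R :=
  (4⁻¹ : ℂ) • ∑ a, (LinearMap.mulRight ℂ (X σ a) ∘ₗ
    (LinearMap.mulRight ℂ (X σ a) - LinearMap.mulLeft ℂ (X σ a)))

theorem pp_apply (σ : κ) (x : R) :
    pp X σ x = (4⁻¹ : ℂ) • ∑ a, (x * X σ a - X σ a * x) * X σ a := by
  unfold pp
  rw [LinearMap.smul_apply, LinearMap.sum_apply]
  rfl

theorem Pau.pp_same (h : Pau X) {σ : κ} {x : R} (hx : x ∈ SS X σ) : pp X σ x = x := by
  have key : ∀ b, pp X σ (X σ b) = X σ b := by
    intro b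
    rw [pp_apply]
    have h1 : ∀ a, (X σ b * X σ a - X σ a * X σ b) * X σ a =
        (if a = b then (0 : ℂ) else 2) • X σ b := by
      intro a
      by_cases hab : a = b
      · subst hab
        rw [sub_self, zero_mul, if_pos rfl, zero_smul]
      · rw [if_neg hab, h.ne_mul σ hab, sub_neg_eq_add, ← two_smul ℂ (X σ b * X σ a),
          smul_mul_assoc, mul_assoc, h.sq', h.mul_f]
    rw [Finset.sum_congr rfl fun a _ => h1 a, ← Finset.sum_smul, smul_smul]
    have h2 : ∑ a : Fin 3, (if a = b then (0 : ℂ) else 2) = 4 := by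
      fin_cases b <;> simp [Fin.sum_univ_three] <;> norm_num
    rw [h2, inv_mul_cancel₀ (by norm_num), one_smul]
  obtain ⟨c, rfl⟩ := mem_SS.1 hx
  rw [map_sum]
  exact Finset.sum_congr rfl fun a _ => by rw [map_smul, key]

theorem Pau.pp_other (h : Pau X) {σ τ : κ} (hs : σ ≠ τ) {x : R} (hx : x ∈ SS X τ) :
    pp X σ x = 0 := by
  rw [pp_apply]
  have h1 : ∀ a, (x * X σ a - X σ a * x) * X σ a = 0 := by
    intro a
    rw [h.comm' hs (X_mem σ a) hx, sub_self, zero_mul]
  rw [Finset.sum_congr rfl fun a _ => h1 a, Finset.sum_const_zero, smul_zero]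

theorem Pau.pp_mem (h : Pau X) (σ : κ) {x : R} (hx : x ∈ S0 X) : pp X σ x ∈ SS X σ := by
  induction hx using Submodule.span_induction with
  | mem x hx =>
    obtain ⟨τ, a, rfl⟩ := hx
    by_cases hs : σ = τ
    · subst hs
      rw [h.pp_same (X_mem _ _)]
      exact X_mem _ _
    · rw [h.pp_other hs (X_mem _ _)]
      exact Submodule.zero_mem _
  | zero => rw [map_zero]; exact Submodule.zero_mem _
  | add x y _ _ hx hy => rw [map_add]; exact Submodule.add_mem _ hx hy
  | smul c x _ hx => rw [map_smul]; exact Submodule.smul_mem _ _ hx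

theorem Pau.pp_sum (h : Pau X) {x : R} (hx : x ∈ S0 X) : x = ∑ σ, pp X σ x := by
  induction hx using Submodule.span_induction with
  | mem x hx =>
    obtain ⟨τ, a, rfl⟩ := hx
    rw [Finset.sum_eq_single τ, h.pp_same (X_mem _ _)]
    · intro σ _ hs
      exact h.pp_other hs (X_mem _ _)
    · intro h'
      exact absurd (Finset.mem_univ _) h'
  | zero => simp
  | add x y _ _ hx hy =>
    simp only [map_add, Finset.sum_add_distrib]
    rw [← hx, ← hy]
  | smul c x _ hx =>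
    simp only [map_smul]
    rw [← Finset.smul_sum, ← hx]

/-- the commutator with an element of one colour -/
theorem Pau.br_one (h : Pau X) {σ : κ} {x y : R} (hx : x ∈ S0 X) (hy : y ∈ SS X σ) :
    x * y - y * x = pp X σ x * y - y * pp X σ x := by
  conv_lhs => rw [h.pp_sum hx, Finset.sum_mul, Finset.mul_sum, ← Finset.sum_sub_distrib]
  refine Finset.sum_eq_single σ (fun τ _ hs => ?_) (fun h' => absurd (Finset.mem_univ _) h')
  rw [h.comm' hs (h.pp_mem τ hx) hy, sub_self]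

theorem Pau.br_mem (h : Pau X) {x y : R} (hx : x ∈ S0 X) (hy : y ∈ S0 X) :
    x * y - y * x ∈ S0 X := by
  have h1 : x * y - y * x = ∑ σ, (pp X σ x * pp X σ y - pp X σ y * pp X σ x) := by
    conv_lhs => rw [h.pp_sum hy, Finset.mul_sum, Finset.sum_mul, ← Finset.sum_sub_distrib]
    exact Finset.sum_congr rfl fun σ _ => h.br_one hx (h.pp_mem σ hy)
  rw [h1]
  exact Submodule.sum_mem _ fun σ _ => SS_le σ (h.br (h.pp_mem σ hx) (h.pp_mem σ hy))

theorem Pau.pp_br (h : Pau X) (σ : κ) {x y : R} (hx : x ∈ S0 X) (hy : y ∈ S0 X) :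
    pp X σ (x * y - y * x) = pp X σ x * pp X σ y - pp X σ y * pp X σ x := by
  have h1 : x * y - y * x = ∑ τ, (pp X τ x * pp X τ y - pp X τ y * pp X τ x) := by
    conv_lhs => rw [h.pp_sum hy, Finset.mul_sum, Finset.sum_mul, ← Finset.sum_sub_distrib]
    exact Finset.sum_congr rfl fun τ _ => h.br_one hx (h.pp_mem τ hy)
  rw [h1, map_sum]
  rw [Finset.sum_eq_single σ, h.pp_same (h.br (h.pp_mem σ hx) (h.pp_mem σ hy))]
  · intro τ _ hs
    exact h.pp_other (Ne.symm hs) (h.br (h.pp_mem τ hx) (h.pp_mem τ hy))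
  · intro h'
    exact absurd (Finset.mem_univ _) h'

end Pool.Agent.K9h14.PA
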