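import Pool.Agent.K9h14.D1

set_option autoImplicit false
set_option linter.unusedVariables false
set_option linter.unusedSectionVars false

/-!
# Lie algebras which generate the Pauli matrices
-/

open Module

noncomputable section

namespace Pool.Agent.K9h14.PA

variable {R : Type} [Ring R] [Algebra ℂ R] {κ : Type} [Fintype κ] [DecidableEq κ]
  {X : κ → Fin 3 → R}

theorem Pau.ne (h : Pau X) {σ : κ} (h0 : X σ 0 ≠ 0) (a : Fin 3) : X σ a ≠ 0 := by
  intro h1
  apply h0
  rw [← h.f_mul σ 0, ← h.sq' σ a, h1, mul_zero, zero_mul]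

theorem Pau.ff_ne (h : Pau X) {σ : κ} (h0 : X σ 0 ≠ 0) : ff X σ ≠ 0 := by
  intro h1
  apply h0
  rw [← h.f_mul σ 0, h1, zero_mul]

theorem Pau.indep (h : Pau X) {σ : κ} (h0 : X σ 0 ≠ 0) : LinearIndependent ℂ (X σ) := by
  rw [Fintype.linearIndependent_iff]
  intro c hc b
  have h1 : (∑ a, c a • X σ a) * X σ b + X σ b * (∑ a, c a • X σ a) = (2 * c b) • ff X σ := by
    rw [Finset.sum_mul, Finset.mul_sum, ← Finset.sum_add_distrib, Finset.sum_eq_single b]
    · rw [smul_mul_assoc, mul_smul_comm, h.sq', ← add_smul]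
      congr 1
      ring
    · intro a _ ha
      rw [smul_mul_assoc, mul_smul_comm, h.ne_mul σ ha, smul_neg, neg_add_cancel]
    · intro h'
      exact absurd (Finset.mem_univ _) h'
  rw [hc, zero_mul, mul_zero, add_zero] at h1
  have h2 := (smul_eq_zero.1 h1.symm).resolve_right (h.ff_ne h0)
  simpa using h2

theorem Pau.finrank (h : Pau X) {σ : κ} (h0 : X σ 0 ≠ 0) : Module.finrank ℂ (SS X σ) = 3 := by
  have h1 := finrank_span_eq_card (h.indep h0)
  rwa [Fintype.card_fin] at h1

/-- a proper subalgebra has an eigenvector -/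
theorem Pau.eig (h : Pau X) {σ : κ} (h0 : X σ 0 ≠ 0) {T : Submodule ℂ R} (hT : T ≤ SS X σ)
    (hne : T ≠ SS X σ) (hbr : ∀ x ∈ T, ∀ y ∈ T, x * y - y * x ∈ T) :
    ∃ u ∈ SS X σ, u ≠ 0 ∧ ∀ y ∈ T, ∃ l : ℂ, y * u - u * y = l • u := by
  classical
  have hfd : FiniteDimensional ℂ (SS X σ) := FiniteDimensional.span_of_finite ℂ (Set.finite_range _)
  have hfT : FiniteDimensional ℂ T := Submodule.finiteDimensional_of_le hT
  have hlt : Module.finrank ℂ T < 3 := by
    rw [← h.finrank h0]
    exact Submodule.finrank_lt_finrank_of_lt (lt_of_le_of_ne hT hne)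
  by_cases hc : ∀ x ∈ T, ∀ y ∈ T, x * y - y * x = 0
  · by_cases hb : T = ⊥
    · refine ⟨X σ 0, X_mem σ 0, h0, fun y hy => ⟨0, ?_⟩⟩
      rw [hb, Submodule.mem_bot] at hy
      rw [hy, zero_mul, mul_zero, sub_zero, zero_smul]
    · obtain ⟨u, hu, hu0⟩ := (Submodule.ne_bot_iff T).1 hb
      exact ⟨u, hT hu, hu0, fun y hy => ⟨0, by rw [hc y hy u hu, zero_smul]⟩⟩
  · push Not at hc
    obtain ⟨a, ha, b, hb, hab⟩ := hc
    have hli : LinearIndependent ℂ ![a, b] := by
      rw [LinearIndependent.pair_iff]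
      intro s t hst
      have h1 : s • (a * b - b * a) = (s • a + t • b) * b - b * (s • a + t • b) := by
        rw [add_mul, mul_add, smul_mul_assoc, smul_mul_assoc, mul_smul_comm, mul_smul_comm,
          smul_sub]
        abel
      have h2 : t • (a * b - b * a) = a * (s • a + t • b) - (s • a + t • b) * a := by
        rw [add_mul, mul_add, smul_mul_assoc, smul_mul_assoc, mul_smul_comm, mul_smul_comm,
          smul_sub]
        abel
      rw [hst, zero_mul, mul_zero, sub_zero] at h1
      rw [hst, zero_mul, mul_zero, sub_zero] at h2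
      exact ⟨(smul_eq_zero.1 h1).resolve_right hab, (smul_eq_zero.1 h2).resolve_right hab⟩
    have hsp : Submodule.span ℂ {a, b} = T := by
      refine Submodule.eq_of_le_of_finrank_le ?_ ?_
      · rw [Submodule.span_le]
        rintro x (rfl | rfl)
        · exact ha
        · exact hb
      · have h1 := finrank_span_eq_card hli
        rw [Fintype.card_fin] at h1
        have h2 : Set.range ![a, b] = {a, b} := by
          rw [Matrix.range_cons, Matrix.range_cons, Matrix.range_empty, Set.union_empty]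
          rfl
        rw [h2] at h1
        omega
    obtain ⟨p, q, hpq⟩ := Submodule.mem_span_pair.1 (hsp.symm ▸ hbr a ha b hb :
      a * b - b * a ∈ Submodule.span ℂ {a, b})
    refine ⟨a * b - b * a, hT (hbr a ha b hb), hab, fun y hy => ?_⟩
    obtain ⟨s, t, hst⟩ := Submodule.mem_span_pair.1 (hsp.symm ▸ hy : y ∈ Submodule.span ℂ {a, b})
    refine ⟨s * q - t * p, ?_⟩
    have h1 : y * (a * b - b * a) - (a * b - b * a) * y =
        (s • a + t • b) * (p • a + q • b) - (p • a + q • b) * (s • a + t • b) := by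
      rw [hpq, hst]
    rw [h1]
    simp only [add_mul, mul_add, smul_mul_smul_comm]
    rw [mul_comm p s, mul_comm q s, mul_comm p t, mul_comm q t]
    module

/-- elements of the Lie algebra commute with the projectors -/
theorem Pau.f_comm0 (h : Pau X) (σ : κ) {x : R} (hx : x ∈ S0 X) :
    ff X σ * x = x * ff X σ := by
  rw [h.pp_sum hx, Finset.mul_sum, Finset.sum_mul]
  exact Finset.sum_congr rfl fun τ _ => h.f_comm' σ (h.pp_mem τ hx)

section main

variable {𝔥 : Submodule ℂ R}

/-- **Step 1**: the projection to one colour is everything. -/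
theorem Pau.surj (h : Pau X) (h𝔥 : 𝔥 ≤ S0 X) (hbr : ∀ x ∈ 𝔥, ∀ y ∈ 𝔥, x * y - y * x ∈ 𝔥)
    (gen : ∀ σ a, X σ a ∈ Algebra.adjoin ℂ (𝔥 : Set R)) {σ : κ} (h0 : X σ 0 ≠ 0) :
    ∀ x ∈ SS X σ, ∃ y ∈ 𝔥, pp X σ y = x := by
  by_contra hcon
  have hT : 𝔥.map (pp X σ) ≤ SS X σ := by
    rintro _ ⟨y, hy, rfl⟩
    exact h.pp_mem σ (h𝔥 hy)
  have hne : 𝔥.map (pp X σ) ≠ SS X σ := by
    intro h1
    apply hcon
    intro x hx
    rw [← h1] at hx
    exact hx
  obtain ⟨u, hu, hu0, hev⟩ := h.eig h0 hT hne (by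
    rintro _ ⟨x, hx, rfl⟩ _ ⟨y, hy, rfl⟩
    exact ⟨x * y - y * x, hbr x hx y hy, h.pp_br σ (h𝔥 hx) (h𝔥 hy)⟩)
  have hev' : ∀ y ∈ 𝔥, ∃ l : ℂ, y * u - u * y = l • u := by
    intro y hy
    obtain ⟨l, hl⟩ := hev _ ⟨y, hy, rfl⟩
    exact ⟨l, by rw [h.br_one (h𝔥 hy) hu, hl]⟩
  have hright : ∀ y ∈ Algebra.adjoin ℂ (𝔥 : Set R), ∃ z, y * u = u * z := by
    intro y hy
    induction hy using Algebra.adjoin_induction with
    | mem y hy =>
      obtain ⟨l, hl⟩ := hev' y hy
      refine ⟨y + algebraMap ℂ R l, ?_⟩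
      rw [mul_add, ← Algebra.commutes, ← Algebra.smul_def, ← hl]
      abel
    | algebraMap c => exact ⟨algebraMap ℂ R c, Algebra.commutes c u⟩
    | add y y' _ _ hy hy' =>
      obtain ⟨z, hz⟩ := hy
      obtain ⟨z', hz'⟩ := hy'
      exact ⟨z + z', by rw [add_mul, mul_add, hz, hz']⟩
    | mul y y' _ _ hy hy' =>
      obtain ⟨z, hz⟩ := hy
      obtain ⟨z', hz'⟩ := hy'
      exact ⟨z * z', by rw [mul_assoc, hz', ← mul_assoc, hz, mul_assoc]⟩
  obtain ⟨q, hq⟩ := h.anti hu hu
  have hsq : u * u = (q / 2) • ff X σ := by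
    have h1 : u * u = (2⁻¹ : ℂ) • (u * u + u * u) := by
      rw [← two_smul ℂ, smul_smul, inv_mul_cancel₀ (by norm_num), one_smul]
    rw [h1, hq, smul_smul]
    congr 1
    ring
  have hfu := h.f_mul' hu
  have huf := h.mul_f' hu
  by_cases hq0 : q = 0
  · rw [hq0, zero_div, zero_smul] at hsq
    -- anticommutes with everything
    have hanti : ∀ b, u * X σ b + X σ b * u = 0 := by
      intro b
      obtain ⟨qb, hqb⟩ := h.anti hu (X_mem σ b)
      obtain ⟨z, hz⟩ := hright _ (gen σ b)
      have h1 : u * X σ b * u = 0 := by rw [mul_assoc, hz, ← mul_assoc, hsq, zero_mul]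
      have h2 : u * X σ b * u = qb • u := by
        have h3 : u * X σ b = qb • ff X σ - X σ b * u := by rw [← hqb, add_sub_cancel_right]
        rw [h3, sub_mul, smul_mul_assoc, hfu, mul_assoc, hsq, mul_zero, sub_zero]
      rw [h1] at h2
      have h3 := (smul_eq_zero.1 h2.symm).resolve_right hu0
      rw [hqb, h3, zero_smul]
    obtain ⟨c, hc⟩ := mem_SS.1 hu
    apply hu0
    rw [hc]
    refine Finset.sum_eq_zero fun b _ => ?_
    have h1 : u * X σ b + X σ b * u = (2 * c b) • ff X σ := by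
      rw [hc, Finset.sum_mul, Finset.mul_sum, ← Finset.sum_add_distrib, Finset.sum_eq_single b]
      · rw [smul_mul_assoc, mul_smul_comm, h.sq', ← add_smul]
        congr 1
        ring
      · intro a _ ha
        rw [smul_mul_assoc, mul_smul_comm, h.ne_mul σ ha, smul_neg, neg_add_cancel]
      · intro h'
        exact absurd (Finset.mem_univ _) h'
    rw [hanti] at h1
    have h2 := (smul_eq_zero.1 h1.symm).resolve_right (h.ff_ne h0)
    have h3 : c b = 0 := by simpa using h2
    rw [h3, zero_smul]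
  · -- commutes with everything
    have hcomm : ∀ y ∈ 𝔥, y * u = u * y := by
      intro y hy
      obtain ⟨l, hl⟩ := hev' y hy
      have h1 : (y * u - u * y) * u + u * (y * u - u * y) = y * (u * u) - (u * u) * y := by
        simp only [sub_mul, mul_sub, mul_assoc]
        abel
      rw [hsq, mul_smul_comm, smul_mul_assoc, h.f_comm0 σ (h𝔥 hy), sub_self, hl,
        smul_mul_assoc, mul_smul_comm, hsq, ← two_smul ℂ, smul_smul, smul_smul] at h1
      have h2 := (smul_eq_zero.1 h1).resolve_right (h.ff_ne h0)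
      have h3 : l = 0 := by
        rcases mul_eq_zero.1 h2 with h4 | h4
        · rcases mul_eq_zero.1 h4 with h5 | h5
          · norm_num at h5
          · exact h5
        · exact absurd (by simpa using h4) hq0
      rw [h3, zero_smul] at hl
      exact sub_eq_zero.1 hl
    have hcomm' : ∀ y ∈ Algebra.adjoin ℂ (𝔥 : Set R), y * u = u * y := by
      intro y hy
      induction hy using Algebra.adjoin_induction with
      | mem y hy => exact hcomm y hy
      | algebraMap c => exact Algebra.commutes c u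
      | add y y' _ _ hy hy' => rw [add_mul, mul_add, hy, hy']
      | mul y y' _ _ hy hy' => rw [mul_assoc, hy', ← mul_assoc, hy, mul_assoc]
    have h1 : ∀ b, ∃ q : ℂ, u = q • X σ b := by
      intro b
      obtain ⟨qb, hqb⟩ := h.anti hu (X_mem σ b)
      rw [hcomm' _ (gen σ b), ← two_smul ℂ] at hqb
      refine ⟨qb / 2, ?_⟩
      have h2 : (2 : ℂ) • u = qb • X σ b := by
        have h3 := congrArg (· * X σ b) hqb
        simp only [smul_mul_assoc, mul_assoc, h.sq', huf, h.f_mul] at h3
        exact h3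
      have h3 : u = (2⁻¹ : ℂ) • ((2 : ℂ) • u) := by
        rw [smul_smul, inv_mul_cancel₀ (by norm_num), one_smul]
      rw [h3, h2, smul_smul]
      congr 1
      ring
    obtain ⟨q0, hq0'⟩ := h1 0
    have hq00 : q0 ≠ 0 := by
      rintro rfl
      rw [zero_smul] at hq0'
      exact hu0 hq0'
    have h2 := hcomm' _ (gen σ 1)
    rw [hq0', mul_smul_comm, smul_mul_assoc] at h2
    have h3 : X σ 1 * X σ 0 = X σ 0 * X σ 1 := smul_right_injective R hq00 h2
    rw [h.ne_mul σ (by decide : (0 : Fin 3) ≠ 1)] at h3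
    have h4 : X σ 1 * X σ 0 = 0 := by
      have h5 : (2 : ℂ) • (X σ 1 * X σ 0) = 0 := by
        rw [two_smul]
        nth_rewrite 1 [h3]
        exact neg_add_cancel _
      exact (smul_eq_zero.1 h5).resolve_left (by norm_num)
    apply h0
    rw [← h.f_mul σ 0, ← h.sq' σ 1, mul_assoc, h4, mul_zero]

end main

end Pool.Agent.K9h14.PA
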