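import Pool.Agent.K9h14.D2

set_option autoImplicit false
set_option linter.unusedVariables false
set_option linter.unusedSectionVars false

/-!
# Pairs of colours
-/

open Module

noncomputable section

namespace Pool.Agent.K9h14.PA

variable {R : Type} [Ring R] [Algebra ℂ R] {κ : Type} [Fintype κ] [DecidableEq κ]
  {X : κ → Fin 3 → R}

/-- the double commutator -/
theorem Pau.dbl (h : Pau X) (σ : κ) (a : Fin 3) (c : Fin 3 → ℂ) :
    ((∑ b, c b • X σ b) * X σ a - X σ a * (∑ b, c b • X σ b)) * X σ a -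
      X σ a * ((∑ b, c b • X σ b) * X σ a - X σ a * (∑ b, c b • X σ b)) =
    (4 : ℂ) • (∑ b, c b • X σ b - c a • X σ a) := by
  have key : ∀ b, (X σ b * X σ a - X σ a * X σ b) * X σ a -
      X σ a * (X σ b * X σ a - X σ a * X σ b) = (if b = a then (0 : ℂ) else 4) • X σ b := by
    intro b
    by_cases hb : b = a
    · subst hb
      rw [sub_self, zero_mul, mul_zero, sub_zero, if_pos rfl, zero_smul]
    · rw [if_neg hb]
      have h1 : X σ b * X σ a - X σ a * X σ b = (2 : ℂ) • (X σ b * X σ a) := by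
        rw [h.ne_mul σ (Ne.symm hb), sub_neg_eq_add, ← two_smul ℂ]
      rw [h1, smul_mul_assoc, mul_smul_comm, mul_assoc, h.sq', h.mul_f, ← mul_assoc,
        h.ne_mul σ (Ne.symm hb), neg_mul, mul_assoc, h.sq', h.mul_f, smul_neg, sub_neg_eq_add,
        ← add_smul]
      norm_num
  have h2 : ((∑ b, c b • X σ b) * X σ a - X σ a * (∑ b, c b • X σ b)) * X σ a -
      X σ a * ((∑ b, c b • X σ b) * X σ a - X σ a * (∑ b, c b • X σ b)) =
      ∑ b, c b • ((X σ b * X σ a - X σ a * X σ b) * X σ a -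
      X σ a * (X σ b * X σ a - X σ a * X σ b)) := by
    simp only [Finset.sum_mul, Finset.mul_sum, ← Finset.sum_sub_distrib, smul_mul_assoc,
      mul_smul_comm, ← smul_sub]
  rw [h2, Finset.sum_congr rfl fun b _ => by rw [key b]]
  have h3 : ∑ b, c b • X σ b - c a • X σ a = ∑ b, (if b = a then (0 : ℂ) else c b) • X σ b := by
    rw [← Finset.add_sum_erase Finset.univ _ (Finset.mem_univ a),
      ← Finset.add_sum_erase Finset.univ (fun b => (if b = a then (0 : ℂ) else c b) • X σ b)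
        (Finset.mem_univ a), if_pos rfl, zero_smul, zero_add, add_sub_cancel_left]
    refine Finset.sum_congr rfl fun b hb => ?_
    rw [if_neg (Finset.ne_of_mem_erase hb)]
  rw [h3, Finset.smul_sum]
  refine Finset.sum_congr rfl fun b _ => ?_
  split_ifs
  · rw [zero_smul, smul_zero, smul_zero]
  · rw [smul_smul, smul_smul, mul_comm]

/-- **The Lie algebra of one colour is simple.** -/
theorem Pau.simple (h : Pau X) {σ : κ} (J : Submodule ℂ R) (hJ : J ≤ SS X σ)
    (hbr : ∀ x ∈ SS X σ, ∀ y ∈ J, x * y - y * x ∈ J) : J = ⊥ ∨ J = SS X σ := by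
  by_cases hb : J = ⊥
  · exact Or.inl hb
  right
  obtain ⟨y, hy, hy0⟩ := (Submodule.ne_bot_iff J).1 hb
  have hdd : ∀ (c : Fin 3 → ℂ) (a : Fin 3), ∑ b, c b • X σ b ∈ J →
      ∑ b, c b • X σ b - c a • X σ a ∈ J := by
    intro c a hc
    have h1 := hbr _ (X_mem σ a) _ (hbr _ (X_mem σ a) _ hc)
    have h2 := h.dbl σ a c
    have h3 : X σ a * (X σ a * (∑ b, c b • X σ b) - (∑ b, c b • X σ b) * X σ a) -
        (X σ a * (∑ b, c b • X σ b) - (∑ b, c b • X σ b) * X σ a) * X σ a =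
        (4 : ℂ) • (∑ b, c b • X σ b - c a • X σ a) := by
      rw [← h2]
      simp only [sub_mul, mul_sub]
      abel
    rw [h3] at h1
    exact (Submodule.smul_mem_iff _ (by norm_num)).1 h1
  obtain ⟨c, hc⟩ := mem_SS.1 (hJ hy)
  obtain ⟨b, hcb⟩ : ∃ b, c b ≠ 0 := by
    by_contra hcon
    push Not at hcon
    apply hy0
    rw [hc]
    exact Finset.sum_eq_zero fun b _ => by rw [hcon, zero_smul]
  rw [hc] at hy
  -- remove the two other components
  have hb1 : (b + 1) ≠ b := by fin_cases b <;> decide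
  have hb2 : (b + 2) ≠ b := by fin_cases b <;> decide
  have hb12 : (b + 2) ≠ b + 1 := by fin_cases b <;> decide
  have hXb : X σ b ∈ J := by
    have h1 := hdd c (b + 1) hy
    have h2 : ∑ b, c b • X σ b - c (b + 1) • X σ (b + 1) =
        ∑ a, (if a = b + 1 then (0 : ℂ) else c a) • X σ a := by
      rw [← Finset.add_sum_erase Finset.univ _ (Finset.mem_univ (b + 1)),
        ← Finset.add_sum_erase Finset.univ
          (fun a => (if a = b + 1 then (0 : ℂ) else c a) • X σ a)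
          (Finset.mem_univ (b + 1)), if_pos rfl, zero_smul, zero_add, add_sub_cancel_left]
      refine Finset.sum_congr rfl fun a ha => ?_
      rw [if_neg (Finset.ne_of_mem_erase ha)]
    rw [h2] at h1
    have h3 := hdd _ (b + 2) h1
    rw [if_neg hb12] at h3
    have h4 : ∑ a, (if a = b + 1 then (0 : ℂ) else c a) • X σ a - c (b + 2) • X σ (b + 2) =
        c b • X σ b := by
      have h5 : ∀ a : Fin 3, (if a = b + 1 then (0 : ℂ) else c a) • X σ a =
          (if a = b then c b • X σ b else 0) + (if a = b + 2 then c (b + 2) • X σ (b + 2) else 0) := by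
        intro a
        by_cases h6 : a = b
        · subst h6
          rw [if_neg (Ne.symm hb1), if_pos rfl, if_neg (Ne.symm hb2), add_zero]
        · by_cases h7 : a = b + 2
          · subst h7
            rw [if_neg hb12, if_neg hb2, if_pos rfl, zero_add]
          · have h8 : a = b + 1 := by
              revert h6 h7
              fin_cases a <;> fin_cases b <;> simp <;> decide
            rw [if_pos h8, if_neg h6, if_neg h7, zero_smul, add_zero]
      rw [Finset.sum_congr rfl fun a _ => h5 a, Finset.sum_add_distrib, Finset.sum_ite_eq',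
        Finset.sum_ite_eq', if_pos (Finset.mem_univ _), if_pos (Finset.mem_univ _),
        add_sub_cancel_right]
    rw [h4] at h3
    exact (Submodule.smul_mem_iff _ hcb).1 h3
  have hnext : ∀ a, X σ a ∈ J → X σ (a + 1) ∈ J ∧ X σ (a + 2) ∈ J := by
    have h2 : ∀ a, X σ a ∈ J → X σ (a + 2) ∈ J := by
      intro a ha
      have h1 := hbr _ (X_mem σ (a + 1)) _ ha
      rw [h.mul', h.mul, ← neg_add', ← add_smul] at h1
      have h3 := Submodule.neg_mem _ h1
      rw [neg_neg] at h3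
      refine (Submodule.smul_mem_iff _ ?_).1 h3
      rw [← two_mul]
      exact mul_ne_zero (by norm_num) Complex.I_ne_zero
    intro a ha
    refine ⟨?_, h2 a ha⟩
    have h3 := h2 _ (h2 a ha)
    have h4 : a + 2 + 2 = a + 1 := by fin_cases a <;> rfl
    rwa [h4] at h3
  refine le_antisymm hJ ?_
  unfold SS
  rw [Submodule.span_le]
  rintro _ ⟨a, rfl⟩
  by_cases h6 : a = b
  · rw [h6]; exact hXb
  · by_cases h7 : a = b + 2
    · rw [h7]; exact (hnext b hXb).2
    · have h8 : a = b + 1 := by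
        revert h6 h7
        fin_cases a <;> fin_cases b <;> simp <;> decide
      rw [h8]; exact (hnext b hXb).1

theorem Pau.perfect (h : Pau X) (σ : κ) :
    SS X σ ≤ Submodule.span ℂ {z | ∃ x ∈ SS X σ, ∃ y ∈ SS X σ, z = x * y - y * x} := by
  unfold SS
  rw [Submodule.span_le]
  rintro _ ⟨a, rfl⟩
  have h1 : X σ (a + 1) * X σ (a + 2) - X σ (a + 2) * X σ (a + 1) = (2 * Complex.I) • X σ a := by
    have h2 := h.mul σ (a + 1)
    have h3 := h.mul' σ (a + 1)
    have h4 : a + 1 + 1 = a + 2 := by fin_cases a <;> rfl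
    have h5 : a + 1 + 2 = a := by fin_cases a <;> rfl
    rw [h4, h5] at h2 h3
    rw [h2, h3, sub_neg_eq_add, ← add_smul, two_mul]
  have h2 : X σ a = (2 * Complex.I)⁻¹ •
      (X σ (a + 1) * X σ (a + 2) - X σ (a + 2) * X σ (a + 1)) := by
    rw [h1, smul_smul, inv_mul_cancel₀ (mul_ne_zero (by norm_num) Complex.I_ne_zero), one_smul]
  rw [h2]
  exact Submodule.smul_mem _ _ (Submodule.subset_span ⟨_, X_mem σ _, _, X_mem σ _, rfl⟩)

variable {𝔥 : Submodule ℂ R}

theorem Pau.ideal (h : Pau X) (h𝔥 : 𝔥 ≤ S0 X) (hbr : ∀ x ∈ 𝔥, ∀ y ∈ 𝔥, x * y - y * x ∈ 𝔥)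
    (gen : ∀ σ a, X σ a ∈ Algebra.adjoin ℂ (𝔥 : Set R)) {s t : κ} (hs : X s 0 ≠ 0) :
    (∀ y ∈ 𝔥, pp X t y = 0 → pp X s y = 0) ∨
      ∀ x ∈ SS X s, ∃ y ∈ 𝔥, pp X s y = x ∧ pp X t y = 0 := by
  have hsurj := h.surj h𝔥 hbr gen hs
  have hle : (𝔥 ⊓ LinearMap.ker (pp X t)).map (pp X s) ≤ SS X s := by
    rintro _ ⟨y, hy, rfl⟩
    exact h.pp_mem s (h𝔥 hy.1)
  have hid : ∀ x ∈ SS X s, ∀ y ∈ (𝔥 ⊓ LinearMap.ker (pp X t)).map (pp X s),
      x * y - y * x ∈ (𝔥 ⊓ LinearMap.ker (pp X t)).map (pp X s) := by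
    rintro x hx _ ⟨y, hy, rfl⟩
    obtain ⟨y', hy', rfl⟩ := hsurj x hx
    refine ⟨y' * y - y * y', ⟨hbr y' hy' y hy.1, ?_⟩, h.pp_br s (h𝔥 hy') (h𝔥 hy.1)⟩
    refine LinearMap.mem_ker.2 ?_
    rw [h.pp_br t (h𝔥 hy') (h𝔥 hy.1), LinearMap.mem_ker.1 hy.2, mul_zero, zero_mul, sub_zero]
  rcases h.simple _ hle hid with h1 | h1
  · left
    intro y hy hy0
    have h2 : pp X s y ∈ (𝔥 ⊓ LinearMap.ker (pp X t)).map (pp X s) :=
      Submodule.mem_map_of_mem (Submodule.mem_inf.2 ⟨hy, LinearMap.mem_ker.2 hy0⟩)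
    rw [h1] at h2
    exact (Submodule.mem_bot ℂ).1 h2
  · right
    intro x hx
    rw [← h1] at hx
    obtain ⟨y, hy, rfl⟩ := Submodule.mem_map.1 hx
    exact ⟨y, hy.1, rfl, LinearMap.mem_ker.1 hy.2⟩

/-- two colours are linked: the Lie algebra is a graph -/
structure Link (X : κ → Fin 3 → R) (𝔥 : Submodule ℂ R) (s t : κ) (Y : Fin 3 → R) : Prop where
  mem : ∀ a, Y a ∈ SS X s
  mul : ∀ a, Y a * Y (a + 1) = Complex.I • Y (a + 2)
  mul' : ∀ a, Y (a + 1) * Y a = -(Complex.I • Y (a + 2))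
  sq : ∀ a, Y a * Y a = ff X s
  rel : ∀ y ∈ 𝔥, ∃ c : Fin 3 → ℂ, pp X t y = ∑ a, c a • X t a ∧ pp X s y = ∑ a, c a • Y a

theorem Pau.link (h : Pau X) (h𝔥 : 𝔥 ≤ S0 X) (hbr : ∀ x ∈ 𝔥, ∀ y ∈ 𝔥, x * y - y * x ∈ 𝔥)
    (gen : ∀ σ a, X σ a ∈ Algebra.adjoin ℂ (𝔥 : Set R)) {s t : κ} (hs : X s 0 ≠ 0)
    (ht : X t 0 ≠ 0) (h1 : ∀ y ∈ 𝔥, pp X t y = 0 → pp X s y = 0)
    (h2 : ∀ y ∈ 𝔥, pp X s y = 0 → pp X t y = 0) : ∃ Y, Link X 𝔥 s t Y := by
  choose y hy hyt using fun a => h.surj h𝔥 hbr gen ht _ (X_mem t a)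
  let Y : Fin 3 → R := fun a => pp X s (y a)
  have hYm : ∀ a, Y a ∈ SS X s := fun a => h.pp_mem s (h𝔥 (hy a))
  have hrel : ∀ z ∈ 𝔥, ∀ c : Fin 3 → ℂ, pp X t z = ∑ a, c a • X t a →
      pp X s z = ∑ a, c a • Y a := by
    intro z hz c hc
    have h3 : z - ∑ a, c a • y a ∈ 𝔥 := Submodule.sub_mem _ hz
      (Submodule.sum_mem _ fun a _ => Submodule.smul_mem _ _ (hy a))
    have h4 := h1 _ h3 (by
      rw [map_sub, map_sum, hc, sub_eq_zero]
      exact Finset.sum_congr rfl fun a _ => by rw [map_smul, hyt])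
    rw [map_sub, map_sum, sub_eq_zero] at h4
    rw [h4]
    exact Finset.sum_congr rfl fun a _ => map_smul _ _ _
  have hbrY : ∀ a, Y a * Y (a + 1) - Y (a + 1) * Y a = (2 * Complex.I) • Y (a + 2) := by
    intro a
    have h3 := hrel _ (hbr _ (hy a) _ (hy (a + 1))) (fun b => if b = a + 2 then 2 * Complex.I else 0)
      (by
        rw [h.pp_br t (h𝔥 (hy a)) (h𝔥 (hy (a + 1))), hyt, hyt, h.mul, h.mul', sub_neg_eq_add,
          ← add_smul, Finset.sum_eq_single (a + 2)]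
        · rw [if_pos rfl, two_mul]
        · intro b _ hb
          rw [if_neg hb, zero_smul]
        · intro h'
          exact absurd (Finset.mem_univ _) h')
    rw [h.pp_br s (h𝔥 (hy a)) (h𝔥 (hy (a + 1)))] at h3
    rw [h3, Finset.sum_eq_single (a + 2)]
    · rw [if_pos rfl]
    · intro b _ hb
      rw [if_neg hb, zero_smul]
    · intro h'
      exact absurd (Finset.mem_univ _) h'
  have h2I : (2 * Complex.I : ℂ) ≠ 0 := mul_ne_zero (by norm_num) Complex.I_ne_zero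
  have hsqf : ∀ a, ∃ q : ℂ, Y a * Y a = q • ff X s := by
    intro a
    obtain ⟨q, hq⟩ := h.anti (hYm a) (hYm a)
    refine ⟨q / 2, ?_⟩
    have h3 : Y a * Y a = (2⁻¹ : ℂ) • (Y a * Y a + Y a * Y a) := by
      rw [← two_smul ℂ, smul_smul, inv_mul_cancel₀ (by norm_num), one_smul]
    rw [h3, hq, smul_smul]
    congr 1
    ring
  have hanti : ∀ a, Y a * Y (a + 1) + Y (a + 1) * Y a = 0 := by
    intro a
    have h3 := hbrY (a + 1)
    have e1 : a + 1 + 1 = a + 2 := by fin_cases a <;> rfl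
    have e2 : a + 1 + 2 = a := by fin_cases a <;> rfl
    rw [e1, e2] at h3
    obtain ⟨q, hq⟩ := hsqf (a + 1)
    have h4 : (2 * Complex.I) • (Y a * Y (a + 1) + Y (a + 1) * Y a) =
        (Y (a + 1) * Y (a + 1)) * Y (a + 2) - Y (a + 2) * (Y (a + 1) * Y (a + 1)) := by
      rw [smul_add, ← smul_mul_assoc, ← mul_smul_comm, ← h3]
      simp only [sub_mul, mul_sub, mul_assoc]
      abel
    rw [hq, smul_mul_assoc, mul_smul_comm, h.f_mul' (hYm _), h.mul_f' (hYm _), sub_self] at h4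
    exact (smul_eq_zero.1 h4).resolve_left h2I
  have hmul : ∀ a, Y a * Y (a + 1) = Complex.I • Y (a + 2) := by
    intro a
    have h3 : (2 : ℂ) • (Y a * Y (a + 1)) = (2 * Complex.I) • Y (a + 2) := by
      rw [← hbrY a, two_smul]
      have h4 := hanti a
      have h5 : Y (a + 1) * Y a = -(Y a * Y (a + 1)) := by
        rw [eq_neg_iff_add_eq_zero, add_comm]
        exact h4
      rw [h5, sub_neg_eq_add]
    have h4 : Y a * Y (a + 1) = (2⁻¹ : ℂ) • ((2 : ℂ) • (Y a * Y (a + 1))) := by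
      rw [smul_smul, inv_mul_cancel₀ (by norm_num), one_smul]
    rw [h4, h3, smul_smul]
    congr 1
    ring
  have hmul' : ∀ a, Y (a + 1) * Y a = -(Complex.I • Y (a + 2)) := by
    intro a
    rw [← hmul a, eq_neg_iff_add_eq_zero, add_comm]
    exact hanti a
  have hYne : ∀ a, Y a ≠ 0 := by
    intro a h0
    have h3 := h2 _ (hy a) h0
    rw [hyt] at h3
    exact h.ne ht a h3
  refine ⟨Y, hYm, hmul, hmul', fun a => ?_, fun z hz => ?_⟩
  · obtain ⟨q, hq⟩ := hsqf a
    obtain ⟨b, rfl⟩ : ∃ b : Fin 3, a = b + 1 := ⟨a + 2, by fin_cases a <;> rfl⟩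
    have e1 : b + 1 + 1 = b + 2 := by fin_cases b <;> rfl
    have e2 : b + 1 + 2 = b := by fin_cases b <;> rfl
    have h3 : Y b * (Y (b + 1) * Y (b + 1)) = Y b := by
      rw [← mul_assoc, hmul b, smul_mul_assoc]
      have h4 := hmul' (b + 1)
      rw [e1, e2] at h4
      rw [h4, smul_neg, smul_smul, Complex.I_mul_I, neg_smul, one_smul, neg_neg]
    rw [hq, mul_smul_comm, h.mul_f' (hYm _)] at h3
    have h4 : (q - 1) • Y b = 0 := by rw [sub_smul, one_smul, h3, sub_self]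
    have h5 := (smul_eq_zero.1 h4).resolve_right (hYne b)
    rw [hq, sub_eq_zero.1 h5, one_smul]
  · obtain ⟨c, hc⟩ := mem_SS.1 (h.pp_mem t (h𝔥 hz))
    exact ⟨c, hc, hrel z hz c hc⟩

end Pool.Agent.K9h14.PA
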