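import Pool.Agent.K9h14.D3

set_option autoImplicit false
set_option linter.unusedVariables false
set_option linter.unusedSectionVars false

/-!
# Linked colours: the contradictions
-/

open Module

noncomputable section

namespace Pool.Agent.K9h14.PA

variable {R : Type} [Ring R] [Algebra ℂ R] {κ : Type} [Fintype κ] [DecidableEq κ]
  {X : κ → Fin 3 → R} {𝔥 : Submodule ℂ R}

theorem e11 (a : Fin 3) : a + 1 + 1 = a + 2 := by fin_cases a <;> rfl
theorem e12 (a : Fin 3) : a + 1 + 2 = a := by fin_cases a <;> rfl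
theorem e21 (a : Fin 3) : a + 2 + 1 = a := by fin_cases a <;> rfl
theorem e22 (a : Fin 3) : a + 2 + 2 = a + 1 := by fin_cases a <;> rfl

theorem sum3 {M : Type} [AddCommGroup M] (f : Fin 3 → M) (b : Fin 3) :
    ∑ a, f a = f b + f (b + 1) + f (b + 2) := by
  fin_cases b
  · rw [Fin.sum_univ_three]; rfl
  · rw [Fin.sum_univ_three]
    change _ = f 1 + f 2 + f 0
    abel
  · rw [Fin.sum_univ_three]
    change _ = f 2 + f 0 + f 1
    abel

/-- **First case**: linked colours do not occur in the same block. -/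
theorem Link.not_same (h : Pau X) (h𝔥 : 𝔥 ≤ S0 X)
    (gen : ∀ σ a, X σ a ∈ Algebra.adjoin ℂ (𝔥 : Set R)) {s t : κ} (hst : s ≠ t) {Y : Fin 3 → R}
    (L : Link X 𝔥 s t Y) : ff X s * ff X t = 0 := by
  have hYX : ∀ a b, Y a * X t b = X t b * Y a := fun a b =>
    h.comm' hst (L.mem a) (X_mem t b)
  let C : R := ∑ a, Y a * X t a
  have hbrX : ∀ a, X t a * X t (a + 1) - X t (a + 1) * X t a = (2 * Complex.I) • X t (a + 2) := by
    intro a
    rw [h.mul, h.mul', sub_neg_eq_add, ← add_smul, two_mul]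
  have hbrY : ∀ a, Y a * Y (a + 1) - Y (a + 1) * Y a = (2 * Complex.I) • Y (a + 2) := by
    intro a
    rw [L.mul, L.mul', sub_neg_eq_add, ← add_smul, two_mul]
  have hC : ∀ y ∈ 𝔥, y * C = C * y := by
    intro y hy
    obtain ⟨c, hct, hcs⟩ := L.rel y hy
    have h1 : ∀ a, y * (Y a * X t a) - (Y a * X t a) * y =
        (pp X s y * Y a - Y a * pp X s y) * X t a + Y a * (pp X t y * X t a - X t a * pp X t y) := by
      intro a
      rw [← h.br_one (h𝔥 hy) (L.mem a), ← h.br_one (h𝔥 hy) (X_mem t a)]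
      simp only [sub_mul, mul_sub, mul_assoc]
      abel
    rw [← sub_eq_zero]
    change y * (∑ a, Y a * X t a) - (∑ a, Y a * X t a) * y = 0
    rw [Finset.mul_sum, Finset.sum_mul, ← Finset.sum_sub_distrib,
      Finset.sum_congr rfl fun a _ => h1 a]
    have h2 : ∀ a, (pp X s y * Y a - Y a * pp X s y) * X t a +
        Y a * (pp X t y * X t a - X t a * pp X t y) =
        ∑ b, c b • ((Y b * Y a - Y a * Y b) * X t a + Y a * (X t b * X t a - X t a * X t b)) := by
      intro a
      rw [hct, hcs]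
      simp only [Finset.sum_mul, Finset.mul_sum, ← Finset.sum_sub_distrib, smul_mul_assoc,
        mul_smul_comm, ← smul_sub, ← Finset.sum_add_distrib, ← smul_add]
    rw [Finset.sum_congr rfl fun a _ => h2 a, Finset.sum_comm]
    refine Finset.sum_eq_zero fun b _ => ?_
    rw [← Finset.smul_sum, sum3 _ b, sub_self, sub_self, zero_mul, mul_zero, add_zero, zero_add,
      hbrY, hbrX]
    have h3 := hbrY (b + 2)
    have h4 := hbrX (b + 2)
    rw [e21, e22] at h3 h4
    have h5 : Y b * Y (b + 2) - Y (b + 2) * Y b = -((2 * Complex.I) • Y (b + 1)) := by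
      rw [← h3, neg_sub]
    have h6 : X t b * X t (b + 2) - X t (b + 2) * X t b = -((2 * Complex.I) • X t (b + 1)) := by
      rw [← h4, neg_sub]
    rw [h5, h6, neg_mul, mul_neg, smul_mul_assoc, smul_mul_assoc, mul_smul_comm, mul_smul_comm]
    rw [show (2 * Complex.I) • (Y (b + 2) * X t (b + 1)) + (2 * Complex.I) • (Y (b + 1) * X t (b + 2))
      + (-((2 * Complex.I) • (Y (b + 1) * X t (b + 2))) +
        -((2 * Complex.I) • (Y (b + 2) * X t (b + 1)))) = 0 by abel, smul_zero]
  have hC' : ∀ y ∈ Algebra.adjoin ℂ (𝔥 : Set R), y * C = C * y := by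
    intro y hy
    induction hy using Algebra.adjoin_induction with
    | mem y hy => exact hC y hy
    | algebraMap c => exact Algebra.commutes c C
    | add y y' _ _ hy hy' => rw [add_mul, mul_add, hy, hy']
    | mul y y' _ _ hy hy' => rw [mul_assoc, hy', ← mul_assoc, hy, mul_assoc]
  -- the products
  have h1 : ∀ b, Y (b + 1) * X t (b + 2) = Y (b + 2) * X t (b + 1) := by
    intro b
    have h2 := hC' _ (gen t b)
    have h3 : X t b * C - C * X t b = ∑ a, Y a * (X t b * X t a - X t a * X t b) := by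
      change X t b * (∑ a, Y a * X t a) - (∑ a, Y a * X t a) * X t b = _
      rw [Finset.mul_sum, Finset.sum_mul, ← Finset.sum_sub_distrib]
      refine Finset.sum_congr rfl fun a _ => ?_
      rw [← mul_assoc, ← hYX a b, mul_sub, mul_assoc, mul_assoc]
    rw [h2, sub_self, sum3 _ b, sub_self, mul_zero, zero_add, hbrX] at h3
    have h4 := hbrX (b + 2)
    rw [e21, e22] at h4
    have h6 : X t b * X t (b + 2) - X t (b + 2) * X t b = -((2 * Complex.I) • X t (b + 1)) := by
      rw [← h4, neg_sub]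
    rw [h6, mul_neg, mul_smul_comm, mul_smul_comm, ← sub_eq_add_neg, ← smul_sub] at h3
    have h7 := (smul_eq_zero.1 h3.symm).resolve_left
      (mul_ne_zero (by norm_num) Complex.I_ne_zero)
    exact sub_eq_zero.1 h7
  have hfY : ∀ a, ff X s * Y a = Y a := fun a => h.f_mul' (L.mem a)
  have hFX : ∀ a, ff X t * X t a = X t a := fun a => h.f_mul t a
  have h2 : ∀ b, ff X s * ff X t = -(Y b * X t b) := by
    intro b
    have h3 : Y (b + 1) * ff X t = Complex.I • (Y (b + 2) * X t b) := by
      have h4 := congrArg (· * X t (b + 2)) (h1 b)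
      simp only [mul_assoc] at h4
      rw [h.sq' t] at h4
      have h5 := h.mul t (b + 1)
      rw [e11, e12] at h5
      rw [h5, mul_smul_comm] at h4
      exact h4
    have h4 := congrArg (Y (b + 1) * ·) h3
    simp only [← mul_assoc, mul_smul_comm] at h4
    rw [L.sq] at h4
    have h5 := L.mul (b + 1)
    rw [e11, e12] at h5
    rw [h5, smul_mul_assoc, smul_smul, Complex.I_mul_I, neg_smul, one_smul] at h4
    exact h4
  have h3 : ∀ b, ff X s * X t b = -(Y b * ff X t) := by
    intro b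
    have h4 := congrArg (· * X t b) (h2 b)
    simp only [neg_mul, mul_assoc] at h4
    rw [hFX, h.sq'] at h4
    exact h4
  have h4 : Y 2 * ff X t = 0 := by
    have h5 : Y 0 * ff X t * Y 1 = Y 1 * (Y 0 * ff X t) := by
      have h6 := h3 0
      have h7 : Y 0 * ff X t = -(ff X s * X t 0) := by rw [h6, neg_neg]
      rw [h7, neg_mul, mul_neg, mul_assoc, ← hYX 1 0, ← mul_assoc, hfY, ← mul_assoc]
      congr 1
      rw [h.mul_f' (L.mem 1)]
    have h6 : ff X t * Y 1 = Y 1 * ff X t := h.f_comm' t (L.mem 1)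
    rw [mul_assoc, h6, ← mul_assoc, ← mul_assoc] at h5
    have h7 := L.mul 0
    have h8 := L.mul' 0
    change Y 0 * Y 1 = Complex.I • Y 2 at h7
    change Y 1 * Y 0 = -(Complex.I • Y 2) at h8
    rw [h7, h8, neg_mul, smul_mul_assoc] at h5
    have h9 : (2 * Complex.I) • (Y 2 * ff X t) = 0 := by
      rw [two_mul, add_smul]
      nth_rewrite 1 [h5]
      exact neg_add_cancel _
    exact (smul_eq_zero.1 h9).resolve_left (mul_ne_zero (by norm_num) Complex.I_ne_zero)
  rw [← L.sq 2, mul_assoc, h4, mul_zero]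

/-- two families of Pauli matrices with the same multiplication table -/
structure Tri (x : Fin 3 → R) (f : R) : Prop where
  mul : ∀ a, x a * x (a + 1) = Complex.I • x (a + 2)
  mul' : ∀ a, x (a + 1) * x a = -(Complex.I • x (a + 2))
  sq : ∀ a, x a * x a = f
  fx : ∀ a, f * x a = x a
  xf : ∀ a, x a * f = x a

theorem Pau.tri (h : Pau X) (σ : κ) : Tri (X σ) (ff X σ) :=
  ⟨h.mul σ, h.mul' σ, h.sq' σ, h.f_mul σ, h.mul_f σ⟩

theorem Link.tri (h : Pau X) {s t : κ} {Y : Fin 3 → R} (L : Link X 𝔥 s t Y) :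
    Tri Y (ff X s) :=
  ⟨L.mul, L.mul', L.sq, fun a => h.f_mul' (L.mem a), fun a => h.mul_f' (L.mem a)⟩


end Pool.Agent.K9h14.PA
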