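import Pool.Agent.K9h14.D4

set_option autoImplicit false
set_option linter.unusedVariables false
set_option linter.unusedSectionVars false

/-!
# Intertwining operators between blocks
-/

open Module

noncomputable section

namespace Pool.Agent.K9h14.PA

variable {R : Type} [Ring R] [Algebra ℂ R] {κ : Type} [Fintype κ] [DecidableEq κ]
  {X : κ → Fin 3 → R} {𝔥 : Submodule ℂ R}

/-- the average -/
def av (x y : Fin 3 → R) (T : R) : R := T + ∑ a, y a * T * x a

theorem Tri.ne_mul {x : Fin 3 → R} {f : R} (h : Tri x f) {a b : Fin 3} (hab : a ≠ b) :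
    x a * x b = -(x b * x a) := by
  have h1 : b = a + 1 ∨ a = b + 1 := by
    revert hab
    fin_cases a <;> fin_cases b <;> simp <;> decide
  rcases h1 with rfl | rfl
  · rw [h.mul, h.mul', neg_neg]
  · rw [h.mul, h.mul']

/-- the average intertwines -/
theorem av_int {x y : Fin 3 → R} {f g T : R} (hx : Tri x f) (hy : Tri y g) (hg : g * T = T)
    (hf : T * f = T) (b : Fin 3) : y b * av x y T = av x y T * x b := by
  unfold av
  rw [mul_add, add_mul, sum3 _ b, mul_add, mul_add, add_mul, add_mul]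
  have e1 : y b * (y b * T * x b) = T * x b := by
    rw [mul_assoc (y b) T, ← mul_assoc, hy.sq, ← mul_assoc, hg]
  have e2 : y b * (y (b + 1) * T * x (b + 1)) = Complex.I • (y (b + 2) * T * x (b + 1)) := by
    rw [mul_assoc (y (b + 1)) T, ← mul_assoc, hy.mul, smul_mul_assoc, ← mul_assoc]
  have e3 : y b * (y (b + 2) * T * x (b + 2)) = -(Complex.I • (y (b + 1) * T * x (b + 2))) := by
    have h1 := hy.mul' (b + 2)
    rw [e21, e22] at h1
    rw [mul_assoc (y (b + 2)) T, ← mul_assoc, h1, neg_mul, smul_mul_assoc, ← mul_assoc]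
  have e4 : y b * T * x b * x b = y b * T := by
    rw [mul_assoc, hx.sq, mul_assoc, hf]
  have e5 : y (b + 1) * T * x (b + 1) * x b = -(Complex.I • (y (b + 1) * T * x (b + 2))) := by
    rw [mul_assoc, hx.mul', mul_neg, mul_smul_comm]
  have e6 : y (b + 2) * T * x (b + 2) * x b = Complex.I • (y (b + 2) * T * x (b + 1)) := by
    have h1 := hx.mul (b + 2)
    rw [e21, e22] at h1
    rw [mul_assoc, h1, mul_smul_comm]
  rw [e1, e2, e3, e4, e5, e6]
  abel

/-- one of the averages does not vanish -/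
theorem av_ne {x y : Fin 3 → R} {f g T : R} (hx : Tri x f) (hy : Tri y g) (hg : g * T = T)
    (hf : T * f = T) (hT : T ≠ 0) : av x y T ≠ 0 ∨ ∃ p, av x y (y p * T) ≠ 0 := by
  by_contra hcon
  push Not at hcon
  obtain ⟨h1, h2⟩ := hcon
  apply hT
  have h3 : ∀ p, y p * av x y (y p * T) = T + y p * T * x p -
      (y (p + 1) * T * x (p + 1) + y (p + 2) * T * x (p + 2)) := by
    intro p
    unfold av
    rw [mul_add, ← mul_assoc, hy.sq, hg, sum3 _ p, mul_add, mul_add]
    have key : ∀ a, a ≠ p → y p * (y a * (y p * T) * x a) = -(y a * T * x a) := by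
      intro a ha
      have h4 : y p * (y a * (y p * T) * x a) = (y p * y a * y p) * T * x a := by
        simp only [mul_assoc]
      rw [h4, hy.ne_mul (Ne.symm ha), neg_mul, mul_assoc (y a), hy.sq, hy.xf, neg_mul, neg_mul]
    have h5 : y p * (y p * (y p * T) * x p) = y p * T * x p := by
      have h4 : y p * (y p * (y p * T) * x p) = ((y p * y p) * y p) * T * x p := by
        simp only [mul_assoc]
      rw [h4, hy.sq, hy.fx]
    rw [key (p + 1) (by fin_cases p <;> decide), key (p + 2) (by fin_cases p <;> decide), h5]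
    abel
  have h4 : av x y T + ∑ p, y p * av x y (y p * T) = (4 : ℂ) • T := by
    rw [Fin.sum_univ_three, h3, h3, h3]
    unfold av
    rw [Fin.sum_univ_three]
    change T + (y 0 * T * x 0 + y 1 * T * x 1 + y 2 * T * x 2) +
      (T + y 0 * T * x 0 - (y 1 * T * x 1 + y 2 * T * x 2) +
      (T + y 1 * T * x 1 - (y 2 * T * x 2 + y 0 * T * x 0)) +
      (T + y 2 * T * x 2 - (y 0 * T * x 0 + y 1 * T * x 1))) = _
    have h5 : (4 : ℂ) • T = T + T + T + T := by
      rw [show (4 : ℂ) = 1 + 1 + 1 + 1 by norm_num, add_smul, add_smul, add_smul, one_smul]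
    rw [h5]
    abel
  rw [h1, Finset.sum_congr rfl fun p _ => by rw [h2 p, mul_zero], Finset.sum_const_zero,
    add_zero] at h4
  exact (smul_eq_zero.1 h4.symm).resolve_left (by norm_num)

/-- **The averaging lemma.** -/
theorem avg {x y : Fin 3 → R} {f g T : R} (hx : Tri x f) (hy : Tri y g) (hg : g * T = T)
    (hf : T * f = T) (hT : T ≠ 0) : ∃ T', T' ≠ 0 ∧ (∀ b, y b * T' = T' * x b) ∧
      ∀ z w : R, (∀ a, z * y a = y a * z) → (∀ a, w * x a = x a * w) → z * T = T * w →
        z * T' = T' * w := by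
  have key : ∀ T, ∀ z w : R, (∀ a, z * y a = y a * z) → (∀ a, w * x a = x a * w) →
      z * T = T * w → z * av x y T = av x y T * w := by
    intro T z w hz hw h
    unfold av
    rw [mul_add, add_mul, h, Finset.mul_sum, Finset.sum_mul]
    congr 1
    refine Finset.sum_congr rfl fun a _ => ?_
    rw [mul_assoc (y a * T), ← hw, ← mul_assoc, ← mul_assoc, hz, mul_assoc (y a) z, h,
      ← mul_assoc, mul_assoc]
  rcases av_ne hx hy hg hf hT with h | ⟨p, h⟩
  · exact ⟨_, h, av_int hx hy hg hf, key T⟩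
  · refine ⟨_, h, av_int hx hy ?_ ?_, fun z w hz hw h1 => ?_⟩
    · rw [← mul_assoc, hy.fx]
    · rw [mul_assoc, hf]
    · refine key _ z w hz hw ?_
      rw [← mul_assoc, hz, mul_assoc, h1, mul_assoc]

/-- the pattern of a block of the space of operators -/
structure Pat (X : κ → Fin 3 → R) (s t : κ) (Q : Finset κ) (T : R) : Prop where
  ne : T ≠ 0
  l1 : ∀ ρ ∈ Q, ff X ρ * T = T
  r1 : ∀ ρ ∈ Q, T * ff X ρ = T
  ls : ff X s * T = T
  rt : T * ff X t = T
  l0 : ∀ ρ, ρ ∉ Q → ρ ≠ s → ff X ρ * T = 0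
  r0 : ∀ ρ, ρ ∉ Q → ρ ≠ t → T * ff X ρ = 0

/-- **Second case**: linked colours do not occur in the same way in two blocks. -/
theorem Link.not_twist (h : Pau X) (h𝔥 : 𝔥 ≤ S0 X)
    (gen : ∀ σ a, X σ a ∈ Algebra.adjoin ℂ (𝔥 : Set R)) {s t : κ} (hst : s ≠ t) {Y : Fin 3 → R}
    (L : Link X 𝔥 s t Y) {Q : Finset κ} (hsQ : s ∉ Q) (htQ : t ∉ Q) {T : R}
    (hT : Pat X s t Q T) : False := by
  classical
  -- intertwine the colours in `Q`
  have step : ∀ P : Finset κ, P ⊆ Q → ∃ T, Pat X s t Q T ∧ ∀ ρ ∈ P, ∀ a, X ρ a * T = T * X ρ a := by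
    intro P
    induction P using Finset.induction_on with
    | empty => exact fun _ => ⟨T, hT, fun ρ hρ => absurd hρ (Finset.notMem_empty ρ)⟩
    | insert ρ P hρ ih =>
      intro hPQ
      obtain ⟨T, hT, hP⟩ := ih fun τ hτ => hPQ (Finset.mem_insert_of_mem hτ)
      have hρQ : ρ ∈ Q := hPQ (Finset.mem_insert_self _ _)
      obtain ⟨T', h1, h2, h3⟩ := avg (h.tri ρ) (h.tri ρ) (hT.l1 ρ hρQ) (hT.r1 ρ hρQ) hT.ne
      have hl : ∀ τ, ff X τ * T = T → ff X τ * T' = T' := fun τ h4 => by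
        have h5 := h3 (ff X τ) 1 (fun a => h.f_comm τ ρ a) (fun a => by rw [one_mul, mul_one])
          (by rw [h4, mul_one])
        rwa [mul_one] at h5
      have hr : ∀ τ, T * ff X τ = T → T' * ff X τ = T' := fun τ h4 => by
        have h5 := h3 1 (ff X τ) (fun a => by rw [one_mul, mul_one]) (fun a => h.f_comm τ ρ a)
          (by rw [h4, one_mul])
        rw [one_mul] at h5
        exact h5.symm
      have hl0 : ∀ τ, ff X τ * T = 0 → ff X τ * T' = 0 := fun τ h4 => by
        have h5 := h3 (ff X τ) 0 (fun a => h.f_comm τ ρ a) (fun a => by rw [zero_mul, mul_zero])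
          (by rw [h4, mul_zero])
        rwa [mul_zero] at h5
      have hr0 : ∀ τ, T * ff X τ = 0 → T' * ff X τ = 0 := fun τ h4 => by
        have h5 := h3 0 (ff X τ) (fun a => by rw [zero_mul, mul_zero]) (fun a => h.f_comm τ ρ a)
          (by rw [h4, zero_mul])
        rw [zero_mul] at h5
        exact h5.symm
      refine ⟨T', ⟨h1, fun τ hτ => hl τ (hT.l1 τ hτ), fun τ hτ => hr τ (hT.r1 τ hτ), hl s hT.ls,
        hr t hT.rt, fun τ h4 h5 => hl0 τ (hT.l0 τ h4 h5), fun τ h4 h5 => hr0 τ (hT.r0 τ h4 h5)⟩,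
        fun τ hτ a => ?_⟩
      rcases Finset.mem_insert.1 hτ with rfl | hτ
      · exact h2 a
      · have hne : τ ≠ ρ := fun h' => hρ (h' ▸ hτ)
        exact h3 _ _ (fun b => h.comm τ ρ hne a b) (fun b => h.comm τ ρ hne a b) (hP τ hτ a)
  obtain ⟨T, hT, hQ⟩ := step Q subset_rfl
  -- intertwine `s` and `t`
  obtain ⟨T', h1, h2, h3⟩ := avg (h.tri t) (L.tri h) hT.ls hT.rt hT.ne
  have hYc : ∀ τ a, ff X τ * Y a = Y a * ff X τ := fun τ a => h.f_comm' τ (L.mem a)
  have hl : ∀ τ, ff X τ * T = T → ff X τ * T' = T' := fun τ h4 => by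
    have h5 := h3 (ff X τ) 1 (fun a => hYc τ a) (fun a => by rw [one_mul, mul_one])
      (by rw [h4, mul_one])
    rwa [mul_one] at h5
  have hr : ∀ τ, T * ff X τ = T → T' * ff X τ = T' := fun τ h4 => by
    have h5 := h3 1 (ff X τ) (fun a => by rw [one_mul, mul_one]) (fun a => h.f_comm τ t a)
      (by rw [h4, one_mul])
    rw [one_mul] at h5
    exact h5.symm
  have hl0 : ∀ τ, ff X τ * T = 0 → ff X τ * T' = 0 := fun τ h4 => by
    have h5 := h3 (ff X τ) 0 (fun a => hYc τ a) (fun a => by rw [zero_mul, mul_zero])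
      (by rw [h4, mul_zero])
    rwa [mul_zero] at h5
  have hr0 : ∀ τ, T * ff X τ = 0 → T' * ff X τ = 0 := fun τ h4 => by
    have h5 := h3 0 (ff X τ) (fun a => by rw [zero_mul, mul_zero]) (fun a => h.f_comm τ t a)
      (by rw [h4, zero_mul])
    rw [zero_mul] at h5
    exact h5.symm
  have hQ' : ∀ ρ ∈ Q, ∀ a, X ρ a * T' = T' * X ρ a := by
    intro ρ hρ a
    have h4 : ρ ≠ s := fun h' => hsQ (h' ▸ hρ)
    have h5 : ρ ≠ t := fun h' => htQ (h' ▸ hρ)
    exact h3 _ _ (fun b => h.comm' h4 (X_mem ρ a) (L.mem b)) (fun b => h.comm ρ t h5 a b)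
      (hQ ρ hρ a)
  have hcomm : ∀ y ∈ 𝔥, y * T' = T' * y := by
    intro y hy
    obtain ⟨c, hct, hcs⟩ := L.rel y hy
    have hl' : ∀ ρ, pp X ρ y * T' = if ρ ∈ Q then T' * pp X ρ y else if ρ = s then
        T' * pp X t y else 0 := by
      intro ρ
      split_ifs with hρ hρs
      · obtain ⟨d, hd⟩ := mem_SS.1 (h.pp_mem ρ (h𝔥 hy))
        rw [hd, Finset.sum_mul, Finset.mul_sum]
        exact Finset.sum_congr rfl fun a _ => by rw [smul_mul_assoc, mul_smul_comm, hQ' ρ hρ]
      · subst hρs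
        rw [hcs, hct, Finset.sum_mul, Finset.mul_sum]
        exact Finset.sum_congr rfl fun a _ => by rw [smul_mul_assoc, mul_smul_comm, h2]
      · rw [← h.mul_f' (h.pp_mem ρ (h𝔥 hy)), mul_assoc, hl0 ρ (hT.l0 ρ hρ hρs), mul_zero]
    have hr' : ∀ ρ, T' * pp X ρ y = if ρ ∈ Q then T' * pp X ρ y else if ρ = t then
        T' * pp X t y else 0 := by
      intro ρ
      split_ifs with hρ hρs
      · rfl
      · rw [hρs]
      · rw [← h.f_mul' (h.pp_mem ρ (h𝔥 hy)), ← mul_assoc, hr0 ρ (hT.r0 ρ hρ hρs), zero_mul]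
    have e1 : ∀ u : κ, u ∉ Q → ∑ ρ, (if ρ ∈ Q then T' * pp X ρ y else if ρ = u then
        T' * pp X t y else 0) = ∑ ρ ∈ Q, T' * pp X ρ y + T' * pp X t y := by
      intro u hu
      have h4 : ∀ ρ, (if ρ ∈ Q then T' * pp X ρ y else if ρ = u then T' * pp X t y else 0) =
          (if ρ ∈ Q then T' * pp X ρ y else 0) + (if ρ = u then T' * pp X t y else 0) := by
        intro ρ
        by_cases h5 : ρ ∈ Q
        · have h6 : ρ ≠ u := fun h' => hu (h' ▸ h5)
          rw [if_pos h5, if_pos h5, if_neg h6, add_zero]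
        · rw [if_neg h5, if_neg h5, zero_add]
      rw [Finset.sum_congr rfl fun ρ _ => h4 ρ, Finset.sum_add_distrib, Finset.sum_ite_eq',
        if_pos (Finset.mem_univ _), Finset.sum_ite_mem, Finset.univ_inter]
    conv_lhs => rw [h.pp_sum (h𝔥 hy), Finset.sum_mul, Finset.sum_congr rfl fun ρ _ => hl' ρ,
      e1 s hsQ]
    conv_rhs => rw [h.pp_sum (h𝔥 hy), Finset.mul_sum, Finset.sum_congr rfl fun ρ _ => hr' ρ,
      e1 t htQ]
  have hcomm' : ∀ y ∈ Algebra.adjoin ℂ (𝔥 : Set R), y * T' = T' * y := by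
    intro y hy
    induction hy using Algebra.adjoin_induction with
    | mem y hy => exact hcomm y hy
    | algebraMap c => exact Algebra.commutes c T'
    | add y y' _ _ hy hy' => rw [add_mul, mul_add, hy, hy']
    | mul y y' _ _ hy hy' => rw [mul_assoc, hy', ← mul_assoc, hy, mul_assoc]
  have h4 : ff X s * T' = T' * ff X s := by
    refine hcomm' _ ?_
    unfold ff
    exact Subalgebra.mul_mem _ (gen s 0) (gen s 0)
  rw [hl s hT.ls, hr0 s (hT.r0 s hsQ hst)] at h4
  exact h1 h4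

end Pool.Agent.K9h14.PA
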