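import Pool.Agent.K9h14.D5
import Pool.Agent.N113.BT.Corner

set_option autoImplicit false
set_option linter.unusedVariables false
set_option linter.unusedSectionVars false

/-!
# Rigidity of the systems of Pauli matrices
-/

open Module Matrix

noncomputable section

namespace Pool.Agent.K9h14.PA

section ring

variable {R : Type} [Ring R] [Algebra ℂ R] {κ : Type} [Fintype κ] [DecidableEq κ]
  {X : κ → Fin 3 → R} {𝔥 : Submodule ℂ R}

/-- two colours -/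
theorem Pau.two (h : Pau X) (h𝔥 : 𝔥 ≤ S0 X) (hbr : ∀ x ∈ 𝔥, ∀ y ∈ 𝔥, x * y - y * x ∈ 𝔥)
    (gen : ∀ σ a, X σ a ∈ Algebra.adjoin ℂ (𝔥 : Set R)) {s t : κ} (hst : s ≠ t)
    (hs : X s 0 ≠ 0) (ht : X t 0 ≠ 0)
    (sep : ff X s * ff X t ≠ 0 ∨ ∃ Q : Finset κ, s ∉ Q ∧ t ∉ Q ∧ ∃ T, Pat X s t Q T) :
    ∀ x ∈ SS X s, ∃ y ∈ 𝔥, pp X s y = x ∧ pp X t y = 0 := by
  rcases h.ideal h𝔥 hbr gen (s := s) (t := t) hs with h1 | h1
  swap
  · exact h1
  exfalso
  rcases h.ideal h𝔥 hbr gen (s := t) (t := s) ht with h2 | h2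
  · obtain ⟨Y, L⟩ := h.link h𝔥 hbr gen hs ht h1 h2
    rcases sep with h3 | ⟨Q, hsQ, htQ, T, hT⟩
    · exact h3 (L.not_same h h𝔥 gen hst)
    · exact L.not_twist h h𝔥 gen hst hsQ htQ hT
  · obtain ⟨y, hy, hyx⟩ := h.surj h𝔥 hbr gen hs _ (X_mem s 0)
    obtain ⟨y', hy', h4, h5⟩ := h2 (pp X t y) (h.pp_mem t (h𝔥 hy))
    have h6 := h1 (y - y') (Submodule.sub_mem _ hy hy') (by rw [map_sub, h4, sub_self])
    rw [map_sub, h5, sub_zero, hyx] at h6
    exact hs h6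

/-- Ribet's lemma -/
theorem Pau.ribet (h : Pau X) (hne : ∀ σ, X σ 0 ≠ 0) (h𝔥 : 𝔥 ≤ S0 X)
    (hbr : ∀ x ∈ 𝔥, ∀ y ∈ 𝔥, x * y - y * x ∈ 𝔥)
    (gen : ∀ σ a, X σ a ∈ Algebra.adjoin ℂ (𝔥 : Set R))
    (sep : ∀ s t, s ≠ t → ff X s * ff X t ≠ 0 ∨ ∃ Q : Finset κ, s ∉ Q ∧ t ∉ Q ∧ ∃ T, Pat X s t Q T)
    (s : κ) (Q : Finset κ) :
    s ∉ Q → ∀ x ∈ SS X s, ∃ y ∈ 𝔥, pp X s y = x ∧ ∀ t ∈ Q, pp X t y = 0 := by
  classical
  induction Q using Finset.induction_on with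
  | empty =>
    intro _ x hx
    obtain ⟨y, hy, hyx⟩ := h.surj h𝔥 hbr gen (hne s) x hx
    exact ⟨y, hy, hyx, fun t ht => absurd ht (Finset.notMem_empty t)⟩
  | insert t Q htQ ih =>
    intro hsQ x hx
    have hsQ' : s ∉ Q := fun h => hsQ (Finset.mem_insert_of_mem h)
    have hst : s ≠ t := fun h => hsQ (h ▸ Finset.mem_insert_self _ _)
    let K : Submodule ℂ R := 𝔥 ⊓ ⨅ t' ∈ insert t Q, LinearMap.ker (pp X t')
    have hK : ∀ y, y ∈ K ↔ y ∈ 𝔥 ∧ ∀ t' ∈ insert t Q, pp X t' y = 0 := by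
      intro y
      simp only [K, Submodule.mem_inf, Submodule.mem_iInf, LinearMap.mem_ker]
    have hle : Submodule.span ℂ {z | ∃ x ∈ SS X s, ∃ y ∈ SS X s, z = x * y - y * x} ≤
        K.map (pp X s) := by
      refine Submodule.span_le.2 ?_
      rintro _ ⟨x1, hx1, x2, hx2, rfl⟩
      obtain ⟨y1, hy1, h1, h2⟩ := ih hsQ' x1 hx1
      obtain ⟨y2, hy2, h3, h4⟩ := h.two h𝔥 hbr gen hst (hne s) (hne t) (sep s t hst) x2 hx2
      refine ⟨y1 * y2 - y2 * y1, (hK _).2 ⟨hbr y1 hy1 y2 hy2, fun t' ht' => ?_⟩, ?_⟩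
      · rcases Finset.mem_insert.1 ht' with h5 | h5
        · rw [h5, h.pp_br t (h𝔥 hy1) (h𝔥 hy2), h4, mul_zero, zero_mul, sub_zero]
        · rw [h.pp_br t' (h𝔥 hy1) (h𝔥 hy2), h2 t' h5, mul_zero, zero_mul, sub_zero]
      · rw [h.pp_br s (h𝔥 hy1) (h𝔥 hy2), h1, h3]
    obtain ⟨y, hy, hyx⟩ := Submodule.mem_map.1 (hle (h.perfect s hx))
    exact ⟨y, ((hK y).1 hy).1, hyx, ((hK y).1 hy).2⟩

/-- **Rigidity.** -/
theorem Pau.rigid (h : Pau X) (hne : ∀ σ, X σ 0 ≠ 0)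
    (sep : ∀ s t, s ≠ t → ff X s * ff X t ≠ 0 ∨
      ∃ Q : Finset κ, s ∉ Q ∧ t ∉ Q ∧ ∃ T, Pat X s t Q T) :
    N113.BT.Rigid (S0 X) := by
  classical
  intro 𝔥 h𝔥 hbr hgen
  have gen : ∀ σ a, X σ a ∈ Algebra.adjoin ℂ (𝔥 : Set R) := fun σ a =>
    hgen _ (Submodule.subset_span ⟨σ, a, rfl⟩)
  unfold S0
  refine Submodule.span_le.2 ?_
  rintro _ ⟨s, a, rfl⟩
  obtain ⟨y, hy, h1, h2⟩ := h.ribet hne h𝔥 hbr gen sep s (Finset.univ.erase s)
    (Finset.notMem_erase _ _) _ (X_mem s a)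
  have h3 := h.pp_sum (h𝔥 hy)
  rw [Finset.sum_eq_single s (fun t _ ht => h2 t (Finset.mem_erase.2 ⟨ht, Finset.mem_univ _⟩))
    (fun h => absurd (Finset.mem_univ _) h), h1] at h3
  rw [← h3]
  exact hy

/-- products of commuting projectors -/
theorem prod_idem {g : κ → R} (hi : ∀ ρ, g ρ * g ρ = g ρ) (hc : ∀ ρ τ, g ρ * g τ = g τ * g ρ)
    (l : List κ) : (∀ ρ, (l.map g).prod * g ρ = g ρ * (l.map g).prod) ∧
      ∀ ρ ∈ l, (l.map g).prod * g ρ = (l.map g).prod := by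
  induction l with
  | nil => exact ⟨fun ρ => by simp, fun ρ hρ => absurd hρ (List.not_mem_nil)⟩
  | cons a l ih =>
    obtain ⟨h1, h2⟩ := ih
    refine ⟨fun ρ => ?_, fun ρ hρ => ?_⟩
    · rw [List.map_cons, List.prod_cons, mul_assoc, h1, ← mul_assoc, hc, mul_assoc]
    · rw [List.map_cons, List.prod_cons]
      rcases List.mem_cons.1 hρ with rfl | hρ
      · rw [mul_assoc, h1, ← mul_assoc, hi]
      · rw [mul_assoc, h2 ρ hρ]

end ring

section mat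

variable {d : ℕ} {κ : Type} [Fintype κ] [DecidableEq κ]
  {X : κ → Fin 3 → Matrix (Fin d) (Fin d) ℂ}

/-- There is a vector on which exactly the colours in `Q` act nontrivially. -/
def Block (X : κ → Fin 3 → Matrix (Fin d) (Fin d) ℂ) (Q : Finset κ) : Prop :=
  ∃ v : Fin d → ℂ, v ≠ 0 ∧ ∀ ρ, (X ρ 0 * X ρ 0).mulVec v = if ρ ∈ Q then v else 0

theorem Block.row (h : Pau X) {Q : Finset κ} (hQ : Block X Q) :
    ∃ w : Fin d → ℂ, w ≠ 0 ∧ ∀ ρ, Matrix.vecMul w (ff X ρ) = if ρ ∈ Q then w else 0 := by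
  obtain ⟨v, hv, hv'⟩ := hQ
  let g : κ → Matrix (Fin d) (Fin d) ℂ := fun ρ => if ρ ∈ Q then ff X ρ else 1 - ff X ρ
  have hi : ∀ ρ, g ρ * g ρ = g ρ := by
    intro ρ
    simp only [g]
    split_ifs
    · exact h.ff_ff ρ
    · rw [mul_sub, sub_mul, sub_mul, h.ff_ff]
      simp
  have hc : ∀ ρ τ, g ρ * g τ = g τ * g ρ := by
    intro ρ τ
    have h1 := h.ff_comm ρ τ
    simp only [g]
    split_ifs
    · exact h1
    · rw [mul_sub, sub_mul, h1, mul_one, one_mul]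
    · rw [mul_sub, sub_mul, h1, mul_one, one_mul]
    · simp only [mul_sub, sub_mul, mul_one, one_mul, h1]
      abel
  let e := ((Finset.univ : Finset κ).toList.map g).prod
  obtain ⟨-, he⟩ := prod_idem hi hc (Finset.univ : Finset κ).toList
  have hev : e.mulVec v = v := by
    have h1 : ∀ l : List κ, ((l.map g).prod).mulVec v = v := by
      intro l
      induction l with
      | nil => simp
      | cons a l ih =>
        rw [List.map_cons, List.prod_cons, ← Matrix.mulVec_mulVec, ih]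
        simp only [g]
        have h2 := hv' a
        split_ifs with h3
        · rw [if_pos h3] at h2
          exact h2
        · rw [if_neg h3] at h2
          rw [Matrix.sub_mulVec, Matrix.one_mulVec]
          change v - (X a 0 * X a 0).mulVec v = v
          rw [h2, sub_zero]
    exact h1 _
  have he0 : e ≠ 0 := by
    intro h0
    rw [h0, Matrix.zero_mulVec] at hev
    exact hv hev.symm
  obtain ⟨i, hi'⟩ : ∃ i, e i ≠ 0 := by
    by_contra hcon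
    push Not at hcon
    exact he0 (funext hcon)
  refine ⟨e i, hi', fun ρ => ?_⟩
  have h1 : e * g ρ = e := he ρ (Finset.mem_toList.2 (Finset.mem_univ ρ))
  have h2 : e * ff X ρ = if ρ ∈ Q then e else 0 := by
    simp only [g] at h1
    split_ifs at h1 ⊢ with h3
    · exact h1
    · rw [mul_sub, mul_one] at h1
      have h4 : e - e * ff X ρ + e * ff X ρ = e + e * ff X ρ := by rw [h1]
      rw [sub_add_cancel] at h4
      exact (left_eq_add.1 h4)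
  have h3 : Matrix.vecMul (e i) (ff X ρ) = (e * ff X ρ) i := by
    ext j
    rfl
  rw [h3, h2]
  split_ifs <;> rfl

theorem block_pat (h : Pau X) {s t : κ} (hst : s ≠ t) {Q : Finset κ}
    (hs : Block X (insert s Q)) (ht : Block X (insert t Q)) : ∃ T, Pat X s t Q T := by
  obtain ⟨v, hv, hv'⟩ := hs
  obtain ⟨w, hw, hw'⟩ := ht.row h
  refine ⟨Matrix.vecMulVec v w, ?_, fun ρ hρ => ?_, fun ρ hρ => ?_, ?_, ?_, fun ρ h1 h2 => ?_,
    fun ρ h1 h2 => ?_⟩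
  · intro h0
    obtain ⟨i, hi⟩ := Function.ne_iff.1 hv
    obtain ⟨j, hj⟩ := Function.ne_iff.1 hw
    have h1 := congrFun (congrFun h0 i) j
    rw [Matrix.vecMulVec_apply, Matrix.zero_apply] at h1
    rcases mul_eq_zero.1 h1 with h2 | h2
    · exact hi h2
    · exact hj h2
  · unfold ff
    rw [Matrix.mul_vecMulVec, hv' ρ, if_pos (Finset.mem_insert_of_mem hρ)]
  · rw [Matrix.vecMulVec_mul, hw' ρ, if_pos (Finset.mem_insert_of_mem hρ)]
  · unfold ff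
    rw [Matrix.mul_vecMulVec, hv' s, if_pos (Finset.mem_insert_self _ _)]
  · rw [Matrix.vecMulVec_mul, hw' t, if_pos (Finset.mem_insert_self _ _)]
  · unfold ff
    rw [Matrix.mul_vecMulVec, hv' ρ, if_neg (fun h' => (Finset.mem_insert.1 h').elim h2 h1),
      Matrix.zero_vecMulVec]
  · rw [Matrix.vecMulVec_mul, hw' ρ, if_neg (fun h' => (Finset.mem_insert.1 h').elim h2 h1),
      Matrix.vecMulVec_zero]

/-- **Rigidity of the systems of Pauli matrices.** -/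
theorem pau_rigid (h : Pau X) (hne : ∀ σ, X σ 0 ≠ 0)
    (sep : ∀ s t, s ≠ t → (∃ Q, s ∈ Q ∧ t ∈ Q ∧ Block X Q) ∨
      ∃ Q : Finset κ, s ∉ Q ∧ t ∉ Q ∧ Block X (insert s Q) ∧ Block X (insert t Q)) :
    N113.BT.Rigid (S0 X) := by
  refine h.rigid hne fun s t hst => ?_
  rcases sep s t hst with ⟨Q, hs, ht, v, hv, hv'⟩ | ⟨Q, hs, ht, h1, h2⟩
  · left
    intro h0
    have h1 : (ff X s * ff X t).mulVec v = v := by
      rw [← Matrix.mulVec_mulVec]
      unfold ff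
      rw [hv' t, if_pos ht, hv' s, if_pos hs]
    rw [h0, Matrix.zero_mulVec] at h1
    exact hv h1.symm
  · right
    exact ⟨Q, hs, ht, block_pat h hst h1 h2⟩

end mat

end Pool.Agent.K9h14.PA
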