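import Pool.Agent.K9h14.C4
import Pool.Agent.K9h14.D6

set_option autoImplicit false
set_option linter.unusedVariables false
set_option linter.unusedSectionVars false

/-!
# The rigid part given by a system of Pauli matrices
-/

open Module Function TensorProduct Matrix

noncomputable section

namespace Pool.Agent.K9h14.PA

open Pool.Agent.Y102 Pool.Agent.W516.DR Pool.Agent.H204R3.GP Pool.Agent.N113.BT

variable {g k d : ℕ} {A : AbVar g} {X : Fin k → Fin 3 → Matrix (Fin d) (Fin d) ℂ}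
  {P : Matrix (Fin (2 * g)) (Fin d) ℂ} {Q : Matrix (Fin d) (Fin (2 * g)) ℂ}

/-- **The rigid part given by a system of Pauli matrices.** -/
theorem rigPart_pau (h1 : ∀ σ a, X σ a * X σ (a + 1) = Complex.I • X σ (a + 2))
    (h2 : ∀ σ a, X σ (a + 1) * X σ a = -(Complex.I • X σ (a + 2)))
    (h3 : ∀ σ a, X σ a * X σ a = X σ 0 * X σ 0)
    (h4 : ∀ σ τ, σ ≠ τ → ∀ a b, X σ a * X τ b = X τ b * X σ a)
    (h5 : ∀ σ, X σ 0 ≠ 0)
    (sep : ∀ s t, s ≠ t → (∃ Q, s ∈ Q ∧ t ∈ Q ∧ Block X Q) ∨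
      ∃ Q : Finset (Fin k), s ∉ Q ∧ t ∉ Q ∧ Block X (insert s Q) ∧ Block X (insert t Q))
    (hQP : Q * P = 1) (hst : ∀ Z ∈ A.NA, P * Q * toC Z = toC Z * (P * Q))
    (hle : ∀ Z ∈ A.NA, ∃ t : ℂ, Q * toC Z * P + t • 1 ∈
      Submodule.span ℂ {Y | ∃ σ a, Y = X σ a})
    (hgen : ∀ σ a, ∃ Y ∈ Algebra.adjoin ℂ (Submodule.span ℂ
        {Y | ∃ Z ∈ A.NA, Y = toC Z} : Set (Matrix (Fin (2 * g)) (Fin (2 * g)) ℂ)),
      X σ a = Q * Y * P) :
    RigPart A (matE (2 * g) (P * Q)) ((S0 X).map (io P Q)) := by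
  have h : Pau X := ⟨h1, h2, h3, h4⟩
  refine rigPart_corner (pau_rigid h h5 sep) (fun x hx y hy => h.br_mem hx hy) hQP
    hst hle fun z hz => ?_
  induction hz using Submodule.span_induction with
  | mem x hx =>
    obtain ⟨σ, a, rfl⟩ := hx
    exact hgen σ a
  | zero => exact ⟨0, Subalgebra.zero_mem _, by rw [Matrix.mul_zero, Matrix.zero_mul]⟩
  | add x y _ _ hx hy =>
    obtain ⟨a, ha, h1⟩ := hx
    obtain ⟨b, hb, h2⟩ := hy
    exact ⟨a + b, Subalgebra.add_mem _ ha hb, by rw [Matrix.mul_add, Matrix.add_mul, h1, h2]⟩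
  | smul t x _ hx =>
    obtain ⟨a, ha, h1⟩ := hx
    exact ⟨t • a, Subalgebra.smul_mem _ ha t, by rw [Matrix.mul_smul, Matrix.smul_mul, h1]⟩

end Pool.Agent.K9h14.PA
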