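import Mathlib

set_option autoImplicit false
set_option linter.unusedVariables false
set_option linter.unusedSectionVars false

/-!
# Systems of elements with the relations of the products of Clifford generators, and intertwiners
-/

open Module

noncomputable section

namespace Pool.Agent.K9h14.PR

section tri

variable {R : Type*} [Ring R] [Algebra ℂ R]

theorem half {a b : R} (h : (2 : ℂ) • a = (2 : ℂ) • b) : a = b := by
  have h1 := congrArg (fun t => (1 / 2 : ℂ) • t) h
  simp only [smul_smul] at h1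
  norm_num at h1
  exact h1

theorem tri1 {x y z : R} (hx : x * x = -1) (h1 : x * y - y * x = (2 : ℂ) • z)
    (h2 : z * x - x * z = (2 : ℂ) • y) : x * y = z ∧ y * x = -z := by
  have h3 : x * y = -(y * x) := by
    apply half
    have e1 : (2 : ℂ) • (x * y) = x * ((2 : ℂ) • y) := by rw [mul_smul_comm]
    have e2 : (2 : ℂ) • (-(y * x)) = -(((2 : ℂ) • y) * x) := by rw [smul_mul_assoc, smul_neg]
    rw [e1, e2, ← h2]
    have e3 : x * (z * x - x * z) = x * z * x - (x * x) * z := by noncomm_ring
    have e4 : -((z * x - x * z) * x) = x * z * x - z * (x * x) := by noncomm_ring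
    rw [e3, e4, hx, neg_one_mul, mul_neg_one]
  have h4 : x * y = z := by
    apply half
    rw [← h1, two_smul]
    nth_rewrite 2 [h3]
    abel
  exact ⟨h4, by rw [← h4, h3, neg_neg]⟩

theorem tri2 {x y z : R} (hx : x * x = -1) (h1 : x * y - y * x = (2 : ℂ) • z)
    (h2 : z * x - x * z = (2 : ℂ) • y) (h3 : y * z - z * y = (2 : ℂ) • x) : y * y = -1 := by
  obtain ⟨h4, h5⟩ := tri1 hx h1 h2
  have h6 : y * z = -(x * (y * y)) := by
    rw [← h4, ← mul_assoc, h5, ← h4]
    noncomm_ring
  have h7 : z * y = x * (y * y) := by rw [← h4, mul_assoc]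
  have h8 : -(x * (y * y)) = x := by
    apply half
    rw [← h3, h6, h7, two_smul]
    abel
  calc y * y = -((x * x) * (y * y)) := by rw [hx]; noncomm_ring
    _ = x * (-(x * (y * y))) := by noncomm_ring
    _ = -1 := by rw [h8, hx]

/-- The relations between the products of two Clifford generators. -/
structure SoRel {n : ℕ} (φ : Fin n → Fin n → R) : Prop where
  anti : ∀ i j, i ≠ j → φ j i = -φ i j
  br : ∀ i j k, i ≠ j → j ≠ k → i ≠ k → φ i j * φ j k - φ j k * φ i j = (2 : ℂ) • φ i k

variable {n : ℕ} {φ : Fin n → Fin n → R}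

theorem SoRel.e1 (h : SoRel φ) {o i j : Fin n} (hi : o ≠ i) (hj : o ≠ j) (hij : i ≠ j) :
    φ o i * φ o j - φ o j * φ o i = (2 : ℂ) • φ j i := by
  rw [← h.br j o i hj.symm hi hij.symm, h.anti o j hj]
  noncomm_ring

theorem SoRel.e2 (h : SoRel φ) {o i j : Fin n} (hi : o ≠ i) (hj : o ≠ j) (hij : i ≠ j) :
    φ j i * φ o i - φ o i * φ j i = (2 : ℂ) • φ o j := by
  have h1 := h.br j i o hij.symm hi.symm hj.symm
  rw [h.anti o i hi, h.anti o j hj] at h1
  have h2 : φ j i * φ o i - φ o i * φ j i = -(φ j i * -φ o i - -φ o i * φ j i) := by noncomm_ring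
  rw [h2, h1, smul_neg, neg_neg]

theorem SoRel.sq (h : SoRel φ) {o i j : Fin n} (hi : o ≠ i) (hj : o ≠ j)
    (hx : φ o i * φ o i = -1) : φ o j * φ o j = -1 := by
  by_cases hij : i = j
  · rw [← hij]
    exact hx
  · exact tri2 hx (h.e1 hi hj hij) (h.e2 hi hj hij) (h.br o j i hj (Ne.symm hij) hi)

theorem SoRel.com (h : SoRel φ) {o i j : Fin n} (hi : o ≠ i) (hj : o ≠ j) (hij : i ≠ j)
    (hx : φ o i * φ o i = -1) : φ o i * φ o j = -(φ o j * φ o i) := by
  obtain ⟨h1, h2⟩ := tri1 hx (h.e1 hi hj hij) (h.e2 hi hj hij)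
  rw [h1, h2, neg_neg]

end tri

section inter

variable {U K : Type*} [AddCommGroup U] [Module ℂ U] [AddCommGroup K] [Module ℂ K]

/-- **Intertwiners** between two systems of anticommuting maps with square `-1`. -/
theorem exists_inter {ι : Type*} [DecidableEq ι] {g : ι → Module.End ℂ K} {f : ι → Module.End ℂ U}
    {F : Module.End ℂ U}
    (hg : ∀ i, g i * g i = -1) (hg' : ∀ i j, i ≠ j → g i * g j = -(g j * g i))
    (hf : ∀ i, f i * f i = -1) (hf' : ∀ i j, i ≠ j → f i * f j = -(f j * f i))
    (hF : F * F = 1) (hF' : ∀ i, F * f i = -(f i * F)) [Nontrivial U] [Nontrivial K]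
    (s : Finset ι) : ∃ T : U →ₗ[ℂ] K, T ≠ 0 ∧ ∀ i ∈ s, ∀ u, g i (T u) = T (f i u) := by
  have pg : ∀ i k, g i (g i k) = -k := fun i k => by
    have h1 := LinearMap.congr_fun (hg i) k
    exact h1
  have pg' : ∀ i j, i ≠ j → ∀ k, g i (g j k) = -(g j (g i k)) := fun i j hij k => by
    have h1 := LinearMap.congr_fun (hg' i j hij) k
    exact h1
  have pf : ∀ i k, f i (f i k) = -k := fun i k => by
    have h1 := LinearMap.congr_fun (hf i) k
    exact h1
  have pf' : ∀ i j, i ≠ j → ∀ k, f i (f j k) = -(f j (f i k)) := fun i j hij k => by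
    have h1 := LinearMap.congr_fun (hf' i j hij) k
    exact h1
  have pF : ∀ k, F (F k) = k := fun k => by
    have h1 := LinearMap.congr_fun hF k
    exact h1
  have pF' : ∀ i k, F (f i k) = -(f i (F k)) := fun i k => by
    have h1 := LinearMap.congr_fun (hF' i) k
    exact h1
  induction s using Finset.induction_on with
  | empty =>
    obtain ⟨u, hu⟩ := exists_ne (0 : U)
    obtain ⟨k, hk⟩ := exists_ne (0 : K)
    have h1 : ∃ l : Module.Dual ℂ U, l u ≠ 0 := by
      by_contra hcon
      push Not at hcon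
      exact hu ((Module.forall_dual_apply_eq_zero_iff ℂ u).1 hcon)
    obtain ⟨l, hl⟩ := h1
    refine ⟨(LinearMap.toSpanSingleton ℂ K k) ∘ₗ l, fun h => ?_, fun i hi =>
      absurd hi (Finset.notMem_empty i)⟩
    have h2 := LinearMap.congr_fun h u
    rw [LinearMap.comp_apply, LinearMap.toSpanSingleton_apply, LinearMap.zero_apply] at h2
    exact (smul_eq_zero.1 h2).elim hl hk
  | insert j s hj ih =>
    obtain ⟨T, hT, h⟩ := ih
    by_cases h0 : T - g j ∘ₗ T ∘ₗ f j = 0
    · -- `T` anticommutes
      have h1 : ∀ u, T u = g j (T (f j u)) := fun u => by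
        have := LinearMap.congr_fun h0 u
        simp only [LinearMap.sub_apply, LinearMap.comp_apply, LinearMap.zero_apply] at this
        exact sub_eq_zero.1 this
      have h2 : ∀ u, g j (T u) = -(T (f j u)) := fun u => by rw [h1 u, pg]
      refine ⟨g j ∘ₗ T ∘ₗ F, fun hz => hT ?_, fun i hi u => ?_⟩
      · ext u
        have h3 := LinearMap.congr_fun hz (F u)
        simp only [LinearMap.comp_apply, LinearMap.zero_apply, pF] at h3
        have h4 := congrArg (g j) h3
        rw [pg, map_zero] at h4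
        rw [LinearMap.zero_apply]
        exact neg_eq_zero.1 h4
      · simp only [LinearMap.comp_apply]
        rcases Finset.mem_insert.1 hi with rfl | hi'
        · simp only [h2, map_neg, pf, pF']
        · have hij : i ≠ j := fun e => hj (e ▸ hi')
          rw [pg' i j hij, h i hi', pF' i u, map_neg, map_neg]
    · refine ⟨T - g j ∘ₗ T ∘ₗ f j, h0, fun i hi u => ?_⟩
      simp only [LinearMap.sub_apply, LinearMap.comp_apply, map_sub]
      rcases Finset.mem_insert.1 hi with rfl | hi'
      · rw [pg, pf, map_neg, map_neg]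
        abel
      · have hij : i ≠ j := fun e => hj (e ▸ hi')
        rw [h i hi', pg' i j hij, h i hi', pf' j i (Ne.symm hij), map_neg, map_neg]

end inter

end Pool.Agent.K9h14.PR
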