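import Mathlib

set_option autoImplicit false
set_option linter.unusedVariables false
set_option linter.unusedSectionVars false

/-!
# The dimension of a representation of a Clifford algebra
-/

open Module

noncomputable section

namespace Pool.Agent.K9h14.PR

/-- The dimension of a space with `2 m` anticommuting complex structures is divisible by `2 ^ m`. -/
theorem halving : ∀ (m : ℕ) (V : Type) [AddCommGroup V] [Module ℂ V] [FiniteDimensional ℂ V]
    (G : ℕ → Module.End ℂ V), (∀ i < 2 * m, G i * G i = -1) →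
    (∀ i < 2 * m, ∀ j < 2 * m, i ≠ j → G i * G j = -(G j * G i)) → 2 ^ m ∣ finrank ℂ V := by
  intro m
  induction m with
  | zero =>
    intro V _ _ _ G _ _
    rw [pow_zero]
    exact one_dvd _
  | succ m ih =>
    intro V _ _ _ G h1 h2
    have pg : ∀ i < 2 * (m + 1), ∀ v, G i (G i v) = -v := fun i hi v =>
      LinearMap.congr_fun (h1 i hi) v
    have pg' : ∀ i < 2 * (m + 1), ∀ j < 2 * (m + 1), i ≠ j → ∀ v, G i (G j v) = -(G j (G i v)) :=
      fun i hi j hj hij v => LinearMap.congr_fun (h2 i hi j hj hij) v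
    let Vp : Submodule ℂ V := LinearMap.ker (G 0 - (Complex.I) • (1 : Module.End ℂ V))
    let Vm : Submodule ℂ V := LinearMap.ker (G 0 + (Complex.I) • (1 : Module.End ℂ V))
    have hp : ∀ v, v ∈ Vp ↔ G 0 v = Complex.I • v := fun v => by
      rw [LinearMap.mem_ker, LinearMap.sub_apply, LinearMap.smul_apply, Module.End.one_apply,
        sub_eq_zero]
    have hm : ∀ v, v ∈ Vm ↔ G 0 v = -(Complex.I • v) := fun v => by
      rw [LinearMap.mem_ker, LinearMap.add_apply, LinearMap.smul_apply, Module.End.one_apply,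
        add_eq_zero_iff_eq_neg]
    have hI : ∀ v : V, Complex.I • Complex.I • v = -v := fun v => by
      rw [smul_smul, Complex.I_mul_I, neg_one_smul]
    have h0 : 0 < 2 * (m + 1) := by omega
    have h1' : 1 < 2 * (m + 1) := by omega
    have hcompl : IsCompl Vp Vm := by
      refine IsCompl.of_eq ?_ ?_
      · rw [Submodule.eq_bot_iff]
        intro v hv
        obtain ⟨ha, hb⟩ := Submodule.mem_inf.1 hv
        rw [hp] at ha
        rw [hm] at hb
        rw [ha] at hb
        have h3 : (2 : ℂ) • Complex.I • v = 0 := by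
          rw [two_smul]
          nth_rewrite 1 [hb]
          rw [neg_add_cancel]
        have h4 := (smul_eq_zero.1 h3).resolve_left two_ne_zero
        exact (smul_eq_zero.1 h4).resolve_left Complex.I_ne_zero
      · rw [Submodule.eq_top_iff']
        intro v
        have h3 : v = (1 / 2 : ℂ) • (v - Complex.I • G 0 v) + (1 / 2 : ℂ) • (v + Complex.I • G 0 v) := by
          module
        rw [h3]
        refine Submodule.add_mem_sup (Vp.smul_mem _ ((hp _).2 ?_)) (Vm.smul_mem _ ((hm _).2 ?_))
        · rw [map_sub, map_smul, pg 0 h0, smul_sub, hI, smul_neg]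
          abel
        · rw [map_add, map_smul, pg 0 h0, smul_add, hI, smul_neg]
          abel
    let e : V ≃ₗ[ℂ] V := LinearEquiv.ofLinear (G 1) (-G 1)
      (by ext v; change G 1 (-(G 1 v)) = v; rw [map_neg, pg 1 h1', neg_neg])
      (by ext v; change -(G 1 (G 1 v)) = v; rw [pg 1 h1', neg_neg])
    have he : ∀ v, e v = G 1 v := fun v => rfl
    have hmap : Vp.map (e : V →ₗ[ℂ] V) = Vm := by
      ext v
      constructor
      · rintro ⟨u, hu, rfl⟩
        rw [hm]
        change G 0 (G 1 u) = -(Complex.I • G 1 u)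
        rw [pg' 0 h0 1 h1' (by norm_num), (hp u).1 hu, map_smul]
      · intro hv
        refine ⟨-(G 1 v), ?_, ?_⟩
        · change -(G 1 v) ∈ Vp
          rw [hp, map_neg, pg' 0 h0 1 h1' (by norm_num), (hm v).1 hv, map_neg, map_smul, neg_neg,
            smul_neg]
        · change G 1 (-(G 1 v)) = v
          rw [map_neg, pg 1 h1', neg_neg]
    have hfin : finrank ℂ Vm = finrank ℂ Vp := by
      rw [← hmap]
      exact LinearEquiv.finrank_map_eq e Vp
    have hsum : finrank ℂ V = 2 * finrank ℂ Vp := by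
      rw [← Submodule.finrank_add_eq_of_isCompl hcompl, hfin, two_mul]
    have hst : ∀ j < 2 * m, ∀ v ∈ Vp, (G 1 * G (j + 2)) v ∈ Vp := by
      intro j hj v hv
      rw [hp, Module.End.mul_apply, pg' 0 h0 1 h1' (by norm_num),
        pg' 0 h0 (j + 2) (by omega) (by omega), (hp v).1 hv, map_neg, neg_neg, map_smul, map_smul]
    classical
    have key := ih Vp (fun j => if h : ∀ v ∈ Vp, (G 1 * G (j + 2)) v ∈ Vp then
      (G 1 * G (j + 2)).restrict h else 0) ?_ ?_
    · rw [hsum, pow_succ, mul_comm]
      exact Nat.mul_dvd_mul_left 2 key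
    · intro j hj
      rw [dif_pos (hst j hj)]
      ext v
      change G 1 (G (j + 2) (G 1 (G (j + 2) (v : V)))) = -(v : V)
      rw [pg' (j + 2) (by omega) 1 h1' (by omega), map_neg, pg 1 h1', pg (j + 2) (by omega),
        neg_neg]
    · intro i hi j hj hij
      rw [dif_pos (hst i hi), dif_pos (hst j hj)]
      ext v
      change G 1 (G (i + 2) (G 1 (G (j + 2) (v : V)))) = -(G 1 (G (j + 2) (G 1 (G (i + 2) (v : V)))))
      rw [pg' (i + 2) (by omega) 1 h1' (by omega), map_neg, pg 1 h1',
        pg' (j + 2) (by omega) 1 h1' (by omega), map_neg, pg 1 h1', neg_neg, neg_neg,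
        pg' (i + 2) (by omega) (j + 2) (by omega) (by omega)]

theorem two_pow_gt : ∀ m : ℕ, 4 ≤ m → 2 * m + 2 < 2 ^ m := by
  intro m hm
  induction m, hm using Nat.le_induction with
  | base => norm_num
  | succ m hm ih =>
    rw [pow_succ]
    omega

/-- Only in dimension eight there are so many anticommuting complex structures. -/
theorem eight {V : Type} [AddCommGroup V] [Module ℂ V] [FiniteDimensional ℂ V] {n : ℕ}
    (hn : finrank ℂ V ≤ n) (h3 : finrank ℂ V = 3 ∨ 5 ≤ finrank ℂ V) (G : ℕ → Module.End ℂ V)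
    (h1 : ∀ i < n - 1, G i * G i = -1)
    (h2 : ∀ i < n - 1, ∀ j < n - 1, i ≠ j → G i * G j = -(G j * G i)) : finrank ℂ V = 8 := by
  set r := finrank ℂ V with hr
  have hm : 2 * ((r - 1) / 2) ≤ n - 1 := by omega
  have key := halving ((r - 1) / 2) V G (fun i hi => h1 i (by omega))
    (fun i hi j hj => h2 i (by omega) j (by omega))
  rw [← hr] at key
  rcases Nat.even_or_odd' r with ⟨m, hm' | hm'⟩
  · -- even
    obtain ⟨k, rfl⟩ : ∃ k, m = k + 1 := ⟨m - 1, by omega⟩
    have e1 : (r - 1) / 2 = k := by omega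
    rw [e1] at key
    have h4 : 2 ^ k ≤ r := Nat.le_of_dvd (by omega) key
    have h5 : k ≤ 3 := by
      by_contra hcon
      have := two_pow_gt k (by omega)
      omega
    have h6 : 2 ≤ k := by omega
    interval_cases k
    · rw [hm'] at key
      norm_num at key
    · omega
  · -- odd
    have e1 : (r - 1) / 2 = m := by omega
    rw [e1] at key
    obtain ⟨k, rfl⟩ : ∃ k, m = k + 1 := ⟨m - 1, by omega⟩
    have h5 : 2 ∣ 2 ^ (k + 1) := ⟨2 ^ k, by rw [pow_succ, mul_comm]⟩
    have h6 := h5.trans key
    omega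

end Pool.Agent.K9h14.PR
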