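import Pool.Agent.Y102.SP.Cl
import Pool.Agent.Y102.SP.Bil
import Pool.Agent.K9h14.E1

set_option autoImplicit false
set_option linter.unusedVariables false
set_option linter.unusedSectionVars false

/-!
# Elements of the orthogonal Lie algebra: the dichotomy
-/

open Module

noncomputable section

namespace Pool.Agent.K9h14.PR

open Pool.Agent.Y102.SP

variable {U : Type} [AddCommGroup U] [Module ℂ U] [FiniteDimensional ℂ U] [Nontrivial U]
  {n : ℕ} {E : Fin n → Module.End ℂ U}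

/-- The commutator. -/
def ad (φ : Module.End ℂ U) : Module.End ℂ (Module.End ℂ U) :=
  LinearMap.mulLeft ℂ φ - LinearMap.mulRight ℂ φ

omit [FiniteDimensional ℂ U] [Nontrivial U] in
theorem ad_apply (φ v : Module.End ℂ U) : ad φ v = φ * v - v * φ := rfl

omit [FiniteDimensional ℂ U] [Nontrivial U] in
theorem ad_mul (φ v w : Module.End ℂ U) : ad φ (v * w) = ad φ v * w + v * ad φ w := by
  simp only [ad_apply]
  noncomm_ring

theorem ad_mem (hE : CE E) {φ : Module.End ℂ U} (hφ : φ ∈ soE E) {v : Module.End ℂ U}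
    (hv : v ∈ VE E) : ad φ v ∈ VE E := soE_stab hE hφ hv

theorem ad_skew (φ v w : Module.End ℂ U) : bil (ad φ v) w = -bil v (ad φ w) := by
  have := bil_inv φ v w
  rw [ad_apply, ad_apply]
  exact eq_neg_of_add_eq_zero_left this

/-- The products of vectors. -/
theorem wedge_mem (hE : CE E) {v w : Module.End ℂ U} (hv : v ∈ VE E) (hw : w ∈ VE E) :
    v * w - w * v ∈ soE E := Cl_comm_mem hv hw

/-- Two vectors which commute are proportional. -/
theorem prop_of_comm (hE : CE E) {a w : Module.End ℂ U} (ha : a ∈ VE E) (hw : w ∈ VE E)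
    (hw0 : w ≠ 0) (h : a * w - w * a = 0) : ∃ c : ℂ, a = c • w := by
  obtain ⟨w', hw', hne⟩ : ∃ w' ∈ VE E, bil w w' ≠ 0 := by
    by_contra hcon
    push Not at hcon
    exact hw0 (hE.clif.nondeg w hw hcon)
  have h1 : a * w = (bil a w / 2) • (1 : Module.End ℂ U) := by
    have e1 := hE.clif.anti a ha w hw
    rw [← sub_eq_zero.1 h] at e1
    rw [div_eq_inv_mul, mul_smul, ← e1, ← two_smul ℂ (a * w), smul_smul]
    norm_num
  have e2 : a * (w * w' + w' * w) = bil w w' • a := by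
    rw [hE.clif.anti w hw w' hw', mul_smul_comm, mul_one]
  have e3 : a * (w * w' + w' * w) = bil a w' • w := by
    have e4 : a * w' = bil a w' • (1 : Module.End ℂ U) - w' * a := by
      rw [← hE.clif.anti a ha w' hw', add_sub_cancel_right]
    calc a * (w * w' + w' * w) = a * w * w' + a * w' * w := by noncomm_ring
      _ = a * w * w' + (bil a w' • w - w' * (a * w)) := by
        rw [e4, sub_mul, smul_mul_assoc, one_mul, mul_assoc w']
      _ = bil a w' • w := by
        rw [h1, smul_mul_assoc, one_mul, mul_smul_comm, mul_one]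
        abel
  refine ⟨bil a w' / bil w w', ?_⟩
  rw [e3] at e2
  rw [div_eq_inv_mul, mul_smul, e2, smul_smul, inv_mul_cancel₀ hne, one_smul]

/-- The identity for an eigenvector. -/
theorem key_eig (hE : CE E) {φ : Module.End ℂ U} (hφ : φ ∈ soE E)
    (hcube : ∀ y ∈ soE E, ad φ (ad φ (ad φ y)) = -((4 : ℂ) • ad φ y))
    {w : Module.End ℂ U} (hw : w ∈ VE E) (hw0 : w ≠ 0) {μ : ℂ} (hμ : ad φ w = μ • w)
    {v : Module.End ℂ U} (hv : v ∈ VE E) : ∃ c : ℂ,
      ad φ (ad φ (ad φ v)) + (3 * μ) • ad φ (ad φ v) + (3 * μ ^ 2 + 4) • ad φ v +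
        (μ ^ 3 + 4 * μ) • v = c • w := by
  have h1 : ∀ a : Module.End ℂ U, ad φ (a * w - w * a) =
      (ad φ a + μ • a) * w - w * (ad φ a + μ • a) := by
    intro a
    rw [map_sub, ad_mul, ad_mul, hμ, mul_smul_comm, smul_mul_assoc, add_mul, mul_add,
      smul_mul_assoc, mul_smul_comm]
    abel
  have hD : ∀ a ∈ VE E, ad φ a + μ • a ∈ VE E := fun a ha =>
    add_mem (ad_mem hE hφ ha) (Submodule.smul_mem _ _ ha)
  obtain ⟨v1, hv1⟩ : ∃ v1, v1 = ad φ v + μ • v := ⟨_, rfl⟩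
  obtain ⟨v2, hv2⟩ : ∃ v2, v2 = ad φ v1 + μ • v1 := ⟨_, rfl⟩
  obtain ⟨v3, hv3⟩ : ∃ v3, v3 = ad φ v2 + μ • v2 := ⟨_, rfl⟩
  have m1 : v1 ∈ VE E := hv1 ▸ hD _ hv
  have m2 : v2 ∈ VE E := hv2 ▸ hD _ m1
  have m3 : v3 ∈ VE E := hv3 ▸ hD _ m2
  have h2 := hcube _ (wedge_mem hE hv hw)
  rw [h1, ← hv1, h1, ← hv2, h1, ← hv3] at h2
  have h3 : (v3 + (4 : ℂ) • v1) * w - w * (v3 + (4 : ℂ) • v1) = 0 := by
    rw [add_mul, mul_add, smul_mul_assoc, mul_smul_comm]
    have e : v3 * w + (4 : ℂ) • (v1 * w) - (w * v3 + (4 : ℂ) • (w * v1)) =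
        (v3 * w - w * v3) + (4 : ℂ) • (v1 * w - w * v1) := by
      rw [smul_sub]
      abel
    rw [e, h2, neg_add_cancel]
  obtain ⟨c, hc⟩ := prop_of_comm hE (add_mem m3 (Submodule.smul_mem _ _ m1)) hw hw0 h3
  refine ⟨c, ?_⟩
  rw [← hc, hv3, hv2, hv1]
  simp only [map_add, map_smul]
  module

/-- An element of the Lie algebra which commutes with the vectors is zero. -/
theorem eq_of_ad (hE : CE E) {x y : Module.End ℂ U} (hx : x ∈ soE E) (hy : y ∈ soE E)
    (h : ∀ v ∈ VE E, ad x v = ad y v) : x = y := by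
  have h1 := soE_rec hE hx
  have h2 := soE_rec hE hy
  have h3 : (4 : ℂ) • x = (4 : ℂ) • y := by
    rw [h1, h2]
    refine Finset.sum_congr rfl fun i _ => ?_
    have := h (E i) (Submodule.subset_span ⟨i, rfl⟩)
    rw [ad_apply, ad_apply] at this
    rw [this]
  have h4 := congrArg (fun t => (1 / 4 : ℂ) • t) h3
  simp only [smul_smul] at h4
  norm_num at h4
  exact h4

/-- The opposite of an eigenvalue is an eigenvalue. -/
theorem neg_eig (hE : CE E) {φ : Module.End ℂ U} (hφ : φ ∈ soE E)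
    {w : Module.End ℂ U} (hw : w ∈ VE E) (hw0 : w ≠ 0) {μ : ℂ} (hμ : ad φ w = μ • w) :
    ∃ w' ∈ VE E, w' ≠ 0 ∧ ad φ w' = (-μ) • w' := by
  let f : Module.End ℂ (VE E) := (ad φ).restrict (fun v hv => ad_mem hE hφ hv) + μ • 1
  have hf : ∀ v : VE E, ((f v : VE E) : Module.End ℂ U) = ad φ v + μ • (v : Module.End ℂ U) :=
    fun v => rfl
  by_cases hinj : Function.Injective f
  · exfalso
    have hsurj := (LinearMap.injective_iff_surjective).1 hinj
    refine hw0 (hE.clif.nondeg w hw fun v hv => ?_)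
    obtain ⟨u, hu⟩ := hsurj ⟨v, hv⟩
    have h1 : v = ad φ u + μ • (u : Module.End ℂ U) := by
      rw [← hf, hu]
    rw [h1, bil_add_right, bil_smul_right]
    have h2 := ad_skew φ w (u : Module.End ℂ U)
    rw [hμ, bil_smul_left] at h2
    rw [h2, add_neg_cancel]
  · rw [← LinearMap.ker_eq_bot] at hinj
    obtain ⟨v, hv, hv0⟩ := (Submodule.ne_bot_iff _).1 hinj
    refine ⟨v, v.2, fun h => hv0 (Subtype.ext h), ?_⟩
    have h1 := congrArg (fun t : VE E => (t : Module.End ℂ U)) (LinearMap.mem_ker.1 hv)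
    simp only [hf, Submodule.coe_zero] at h1
    rw [neg_smul]
    exact eq_neg_of_add_eq_zero_left h1

end Pool.Agent.K9h14.PR
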