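import Pool.Agent.K9h14.E3

set_option autoImplicit false
set_option linter.unusedVariables false
set_option linter.unusedSectionVars false

/-!
# Elements of the orthogonal Lie algebra: the dichotomy
-/

open Module

noncomputable section

namespace Pool.Agent.K9h14.PR

open Pool.Agent.Y102.SP

variable {U : Type} [AddCommGroup U] [Module ℂ U] [FiniteDimensional ℂ U] [Nontrivial U]
  {n : ℕ} {E : Fin n → Module.End ℂ U}

/-- There is an eigenvector with nonzero eigenvalue. -/
theorem exists_eig (hE : CE E) (hn : 0 < n) {φ : Module.End ℂ U} (hφ : φ ∈ soE E) (hφ0 : φ ≠ 0)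
    (hcube : ∀ y ∈ soE E, ad φ (ad φ (ad φ y)) = -((4 : ℂ) • ad φ y)) :
    ∃ μ : ℂ, μ ≠ 0 ∧ ∃ w ∈ VE E, w ≠ 0 ∧ ad φ w = μ • w := by
  haveI : Nontrivial (VE E) := by
    refine Module.finrank_pos_iff (R := ℂ) |>.1 ?_
    rw [hE.finrank]
    exact hn
  let f : Module.End ℂ (VE E) := (ad φ).restrict (fun v hv => ad_mem hE hφ hv)
  obtain ⟨μ, hμ⟩ := Module.End.exists_eigenvalue f
  obtain ⟨w, hw⟩ := hμ.exists_hasEigenvector
  have h1 : ad φ (w : Module.End ℂ U) = μ • (w : Module.End ℂ U) :=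
    congrArg (fun t : VE E => (t : Module.End ℂ U)) hw.apply_eq_smul
  have hw0 : (w : Module.End ℂ U) ≠ 0 := fun h => hw.2 (Subtype.ext h)
  by_cases hμ0 : μ = 0
  swap
  · exact ⟨μ, hμ0, w, w.2, hw0, h1⟩
  subst hμ0
  -- all `v` satisfy `D³ v = - 4 D v`
  have h2 : ∀ v ∈ VE E, ∃ c : ℂ, ad φ (ad φ (ad φ v)) + (4 : ℂ) • ad φ v =
      c • (w : Module.End ℂ U) := by
    intro v hv
    obtain ⟨c, hc⟩ := key_eig hE hφ hcube w.2 hw0 h1 hv
    refine ⟨c, ?_⟩
    rw [← hc]
    module
  choose! c hc using h2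
  obtain ⟨w', hw', hne⟩ : ∃ w' ∈ VE E, bil (w : Module.End ℂ U) w' ≠ 0 := by
    by_contra hcon
    push Not at hcon
    exact hw0 (hE.clif.nondeg _ w.2 hcon)
  have h3 : ∀ v ∈ VE E, ∀ v' ∈ VE E, c v * bil (w : Module.End ℂ U) v' =
      -(c v' * bil (w : Module.End ℂ U) v) := by
    intro v hv v' hv'
    rw [← bil_smul_left, ← hc v hv, bil_add_left, bil_smul_left, ad_skew, ad_skew, ad_skew,
      ad_skew φ v v', ← bil_smul_left (c v'), bil_comm (c v' • _) v, ← hc v' hv', bil_add_right,
      bil_smul_right]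
    ring
  have h4 : c w' = 0 := by
    have h5 := h3 w' hw' w' hw'
    have h6 : 2 * (c w' * bil (w : Module.End ℂ U) w') = 0 := by linear_combination h5
    rcases mul_eq_zero.1 h6 with h | h
    · norm_num at h
    · exact (mul_eq_zero.1 h).resolve_right hne
  have h5 : ∀ v ∈ VE E, c v = 0 := by
    intro v hv
    have h6 := h3 v hv w' hw'
    rw [h4, zero_mul, neg_zero] at h6
    exact (mul_eq_zero.1 h6).resolve_right hne
  obtain ⟨v, hv, hv0⟩ : ∃ v ∈ VE E, ad φ v ≠ 0 := by
    by_contra hcon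
    push Not at hcon
    refine hφ0 (eq_of_ad hE hφ (zero_mem _) fun v hv => ?_)
    rw [hcon v hv, ad_apply, zero_mul, mul_zero, sub_zero]
  have hu := ad_mem hE hφ hv
  have h6 : ad φ (ad φ (ad φ v)) = -((4 : ℂ) • ad φ v) := by
    have h7 := hc v hv
    rw [h5 v hv, zero_smul] at h7
    exact eq_neg_of_add_eq_zero_left h7
  by_cases h8 : ad φ (ad φ v) + (2 * Complex.I) • ad φ v = 0
  · exact ⟨-(2 * Complex.I), neg_ne_zero.2 (mul_ne_zero two_ne_zero Complex.I_ne_zero), ad φ v, hu,
      hv0, by rw [neg_smul]; exact eq_neg_of_add_eq_zero_left h8⟩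
  · refine ⟨2 * Complex.I, mul_ne_zero two_ne_zero Complex.I_ne_zero,
      ad φ (ad φ v) + (2 * Complex.I) • ad φ v,
      add_mem (ad_mem hE hφ hu) (Submodule.smul_mem _ _ hu), h8, ?_⟩
    rw [map_add, map_smul, h6, smul_add, smul_smul]
    have h9 : (2 * Complex.I) * (2 * Complex.I) = -4 := by
      linear_combination 4 * Complex.I_mul_I
    rw [h9]
    module

/-- **The dichotomy.** -/
theorem dich (hE : CE E) (hn : 0 < n) {φ : Module.End ℂ U} (hφ : φ ∈ soE E)
    (hcube : ∀ y ∈ soE E, ad φ (ad φ (ad φ y)) = -((4 : ℂ) • ad φ y))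
    (hne : ∃ y ∈ soE E, ad φ y ≠ 0) :
    φ * φ = -1 ∨ ∀ v ∈ VE E, ad φ (ad φ v) = -v := by
  have hφ0 : φ ≠ 0 := by
    rintro rfl
    obtain ⟨y, -, hy⟩ := hne
    exact hy (by rw [ad_apply, zero_mul, mul_zero, sub_zero])
  obtain ⟨μ, hμ, w, hw, hw0, h1⟩ := exists_eig hE hn hφ hφ0 hcube
  obtain ⟨u, hu, hu0, h2⟩ := neg_eig hE hφ hw hw0 h1
  have h3 : ∀ v ∈ VE E, ∃ a b : ℂ,
      (6 * μ) • ad φ (ad φ v) + (2 * (μ ^ 3 + 4 * μ)) • v = a • w - b • u ∧
      (8 * (μ ^ 2 + 1)) • ad φ v = a • w + b • u := by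
    intro v hv
    obtain ⟨a, ha⟩ := key_eig hE hφ hcube hw hw0 h1 hv
    obtain ⟨b, hb⟩ := key_eig hE hφ hcube hu hu0 h2 hv
    have e1 : (6 * μ) • ad φ (ad φ v) + (2 * (μ ^ 3 + 4 * μ)) • v = a • w - b • u := by
      rw [← ha, ← hb]
      module
    have e2 : (2 : ℂ) • ad φ (ad φ (ad φ v)) + (2 * (3 * μ ^ 2 + 4)) • ad φ v =
        a • w + b • u := by
      rw [← ha, ← hb]
      module
    refine ⟨a, b, e1, ?_⟩
    have e3 := congrArg (ad φ) e1
    rw [map_add, map_sub, map_smul, map_smul, map_smul, map_smul, h1, h2] at e3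
    have e4 := congrArg (fun t => (μ⁻¹) • t) e3
    simp only [smul_add, smul_sub, smul_smul] at e4
    have f1 : μ⁻¹ * (6 * μ) = 6 := by field_simp
    have f2 : μ⁻¹ * (2 * (μ ^ 3 + 4 * μ)) = 2 * (μ ^ 2 + 4) := by field_simp
    have f3 : μ⁻¹ * (a * μ) = a := by field_simp
    have f4 : μ⁻¹ * (b * -μ) = -b := by field_simp
    rw [f1, f2, f3, f4] at e4
    have e5 : (8 * (μ ^ 2 + 1)) • ad φ v =
        (1 / 2 : ℂ) • ((3 : ℂ) • ((2 : ℂ) • ad φ (ad φ (ad φ v)) +
          (2 * (3 * μ ^ 2 + 4)) • ad φ v) -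
        ((6 : ℂ) • ad φ (ad φ (ad φ v)) + (2 * (μ ^ 2 + 4)) • ad φ v)) := by module
    rw [e5, e2, e4]
    module
  choose! a b h4 h5 using h3
  by_cases hcase : μ ^ 2 + 1 = 0
  · right
    intro v hv
    have e1 := h5 v hv
    rw [hcase, mul_zero, zero_smul] at e1
    have e2 := congrArg (ad φ) e1
    rw [map_zero, map_add, map_smul, map_smul, h1, h2] at e2
    have e3 : μ • (a v • w - b v • u) = 0 := by
      rw [smul_sub, smul_smul, smul_smul, sub_eq_zero]
      rw [smul_smul, smul_smul] at e2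
      have e4 := (eq_neg_of_add_eq_zero_left e2.symm)
      rw [mul_comm μ, e4, ← neg_smul]
      congr 1
      ring
    have e4 := (smul_eq_zero.1 e3).resolve_left hμ
    have e5 := h4 v hv
    rw [e4] at e5
    have e6 : (6 * μ) • (ad φ (ad φ v) + v) = 0 := by
      have f1 : 2 * (μ ^ 3 + 4 * μ) = 6 * μ := by linear_combination 2 * μ * hcase
      rw [f1] at e5
      rw [smul_add]
      exact e5
    have e7 := (smul_eq_zero.1 e6).resolve_left (mul_ne_zero (by norm_num) hμ)
    exact eq_neg_of_add_eq_zero_left e7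
  · left
    -- the form of `φ`
    have huu : ∀ (w : Module.End ℂ U) (μ : ℂ), μ ≠ 0 → ad φ w = μ • w → bil w w = 0 := by
      intro w μ hμ h1
      have e1 := ad_skew φ w w
      rw [h1, bil_smul_left, bil_smul_right] at e1
      have e2 : 2 * (μ * bil w w) = 0 := by linear_combination e1
      exact (mul_eq_zero.1 ((mul_eq_zero.1 e2).resolve_left two_ne_zero)).resolve_left hμ
    have hww := huu w μ hμ h1
    have huu' := huu u (-μ) (neg_ne_zero.2 hμ) h2
    have e8 : (8 : ℂ) * (μ ^ 2 + 1) ≠ 0 := mul_ne_zero (by norm_num) hcase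
    obtain ⟨β, hβ⟩ : ∃ β, β = bil w u := ⟨_, rfl⟩
    have g1 : ∀ v ∈ VE E, a v * β = 8 * (μ ^ 2 + 1) * (μ * bil v u) := by
      intro v hv
      have e1 := congrArg (fun t => bil t u) (h5 v hv)
      simp only [bil_add_left, bil_smul_left, huu', mul_zero, add_zero, ad_skew, h2,
        bil_smul_right] at e1
      rw [hβ]
      linear_combination -e1
    have g2 : ∀ v ∈ VE E, b v * β = -(8 * (μ ^ 2 + 1) * (μ * bil v w)) := by
      intro v hv
      have e1 := congrArg (fun t => bil t w) (h5 v hv)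
      simp only [bil_add_left, bil_smul_left, hww, mul_zero, zero_add, ad_skew, h1,
        bil_smul_right] at e1
      rw [bil_comm u w, ← hβ] at e1
      linear_combination -e1
    have hβ0 : β ≠ 0 := by
      intro h0
      refine hu0 (hE.clif.nondeg u hu fun v hv => ?_)
      have e1 := g1 v hv
      rw [h0, mul_zero] at e1
      have e2 := (mul_eq_zero.1 e1.symm).resolve_left e8
      rw [bil_comm]
      exact (mul_eq_zero.1 e2).resolve_left hμ
    have sqw : w * w = 0 := by
      have e1 := hE.clif.anti w hw w hw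
      rw [hww, zero_smul, ← two_smul ℂ (w * w)] at e1
      exact (smul_eq_zero.1 e1).resolve_left two_ne_zero
    have squ : u * u = 0 := by
      have e1 := hE.clif.anti u hu u hu
      rw [huu', zero_smul, ← two_smul ℂ (u * u)] at e1
      exact (smul_eq_zero.1 e1).resolve_left two_ne_zero
    have hwu : w * u + u * w = β • (1 : Module.End ℂ U) := by
      rw [hβ]
      exact hE.clif.anti w hw u hu
    have hadψ : ∀ v ∈ VE E, ad (w * u - u * w) v =
        (2 : ℂ) • (bil v u • w - bil v w • u) := by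
      intro v hv
      have e1 : u * v = bil v u • (1 : Module.End ℂ U) - v * u := by
        rw [← hE.clif.anti v hv u hu]
        abel
      have e2 : w * v = bil v w • (1 : Module.End ℂ U) - v * w := by
        rw [← hE.clif.anti v hv w hw]
        abel
      have e3 : w * u * v = bil v u • w - bil v w • u + v * (w * u) := by
        rw [mul_assoc, e1, mul_sub, mul_smul_comm, mul_one, ← mul_assoc, e2, sub_mul,
          smul_mul_assoc, one_mul, mul_assoc]
        abel
      have e4 : u * w * v = bil v w • u - bil v u • w + v * (u * w) := by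
        rw [mul_assoc, e2, mul_sub, mul_smul_comm, mul_one, ← mul_assoc, e1, sub_mul,
          smul_mul_assoc, one_mul, mul_assoc]
        abel
      rw [ad_apply, sub_mul, e3, e4, mul_sub]
      module
    have hφψ : φ = (μ / (2 * β)) • (w * u - u * w) := by
      refine eq_of_ad hE hφ (Submodule.smul_mem _ _ (wedge_mem hE hw hu)) fun v hv => ?_
      have e0 : ad ((μ / (2 * β)) • (w * u - u * w)) v =
          (μ / (2 * β)) • ad (w * u - u * w) v := by
        generalize w * u - u * w = ψ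
        rw [ad_apply, ad_apply, smul_sub, smul_mul_assoc, mul_smul_comm]
      rw [e0, hadψ v hv]
      have e1 : (8 * (μ ^ 2 + 1)) • ad φ v =
          (8 * (μ ^ 2 + 1)) • ((μ / (2 * β)) • (2 : ℂ) • (bil v u • w - bil v w • u)) := by
        rw [h5 v hv]
        have f1 : a v = 8 * (μ ^ 2 + 1) * (μ * bil v u) / β := by
          rw [eq_div_iff hβ0, g1 v hv]
        have f2 : b v = -(8 * (μ ^ 2 + 1) * (μ * bil v w)) / β := by
          rw [eq_div_iff hβ0, g2 v hv]
        rw [f1, f2, smul_smul, smul_smul, smul_sub, smul_smul, smul_smul, sub_eq_add_neg,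
          ← neg_smul]
        congr 2
        · field_simp
        · field_simp
      exact smul_right_injective _ e8 e1
    have hψ2 : (w * u - u * w) * (w * u - u * w) = (β ^ 2) • (1 : Module.End ℂ U) := by
      have f1 : u * w = β • (1 : Module.End ℂ U) - w * u := by
        rw [← hwu]
        abel
      have f2 : w * u * w = β • w := by
        rw [mul_assoc, f1, mul_sub, mul_smul_comm, mul_one, ← mul_assoc, sqw, zero_mul, sub_zero]
      have f3 : w * u = β • (1 : Module.End ℂ U) - u * w := by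
        rw [← hwu]
        abel
      have f4 : u * w * u = β • u := by
        rw [mul_assoc, f3, mul_sub, mul_smul_comm, mul_one, ← mul_assoc, squ, zero_mul, sub_zero]
      have f5 : (w * u - u * w) * (w * u - u * w) = w * u * w * u - w * (u * u) * w -
          u * (w * w) * u + u * w * u * w := by noncomm_ring
      rw [f5, sqw, squ, mul_zero, zero_mul, mul_zero, zero_mul, sub_zero, sub_zero, f2, f4,
        smul_mul_assoc, smul_mul_assoc, ← smul_add, hwu, smul_smul, pow_two]
    have hsq : φ * φ = (μ ^ 2 / 4) • (1 : Module.End ℂ U) := by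
      rw [hφψ, smul_mul_smul_comm, hψ2, smul_smul]
      congr 1
      field_simp
      ring
    obtain ⟨y, hy, hy0⟩ := hne
    have hc := hcube y hy
    have e1 : ad φ (ad φ (ad φ y)) = (4 * (μ ^ 2 / 4)) • ad φ y := by
      have f1 : ad φ (ad φ (ad φ y)) = (φ * φ) * (φ * y) - ((φ * φ) * (y * φ) +
          (φ * φ) * (y * φ) + (φ * φ) * (y * φ)) + ((φ * y) * (φ * φ) + (φ * y) * (φ * φ) +
          (φ * y) * (φ * φ)) - (y * φ) * (φ * φ) := by
        simp only [ad_apply]
        noncomm_ring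
      rw [f1, hsq]
      simp only [smul_mul_assoc, mul_smul_comm, one_mul, mul_one, ad_apply]
      module
    rw [e1] at hc
    have e2 : (μ ^ 2 + 4) • ad φ y = 0 := by
      rw [add_smul, ← neg_eq_iff_add_eq_zero.1 hc.symm]
      · rw [add_comm]
        congr 2
        ring
    have e3 := (smul_eq_zero.1 e2).resolve_right hy0
    rw [hsq]
    have e4 : μ ^ 2 / 4 = -1 := by linear_combination e3 / 4
    rw [e4, neg_one_smul]

end Pool.Agent.K9h14.PR
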