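import Pool.Agent.K9h14.E4

set_option autoImplicit false
set_option linter.unusedVariables false
set_option linter.unusedSectionVars false

/-!
# The half-spin representation in dimension eight
-/

open Module

noncomputable section

namespace Pool.Agent.K9h14.PR

open Pool.Agent.Y102.SP

variable {U : Type} [AddCommGroup U] [Module ℂ U] [FiniteDimensional ℂ U] [Nontrivial U]
  {n : ℕ} {E : Fin n → Module.End ℂ U} {φ : Module.End ℂ U}

/-- `l` is an eigenvalue of `φ` -/
def Ev (φ : Module.End ℂ U) (l : ℂ) : Prop := ∃ v, v ≠ 0 ∧ φ v = l • v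

theorem ev_finite (φ : Module.End ℂ U) : {l | Ev φ l}.Finite := by
  refine (Module.End.finite_hasEigenvalue φ).subset ?_
  rintro l ⟨v, hv, h⟩
  exact Module.End.hasEigenvalue_of_hasEigenvector ⟨Module.End.mem_eigenspace_iff.2 h, hv⟩

/-- A ladder ends. -/
theorem ladder {t e : ℂ} (ht : t ≠ 0) (hup : ∀ l, Ev φ l → l = e ∨ Ev φ (l + t)) {l : ℂ}
    (hl : Ev φ l) : ∃ k : ℕ, l + k * t = e := by
  by_contra hcon
  push Not at hcon
  have h1 : ∀ k : ℕ, Ev φ (l + k * t) := by
    intro k
    induction k with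
    | zero => simpa using hl
    | succ k ih =>
      have h2 := (hup _ ih).resolve_left (hcon k)
      have h3 : l + ((k + 1 : ℕ) : ℂ) * t = l + k * t + t := by
        push_cast
        ring
      rw [h3]
      exact h2
  have h2 : Set.Infinite {l | Ev φ l} := by
    refine Set.infinite_of_injective_forall_mem (f := fun k : ℕ => l + (k : ℂ) * t) ?_ h1
    intro k k' h
    have h3 : (k : ℂ) * t = k' * t := add_left_cancel h
    exact_mod_cast mul_right_cancel₀ ht h3
  exact h2 (ev_finite φ)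

/-- The raising operator. -/
def Ar (φ : Module.End ℂ U) (e : Module.End ℂ U) (s : ℂ) : Module.End ℂ U := e - s • ad φ e

theorem Ar_shift (hE : CE E) (hJ : ∀ v ∈ VE E, ad φ (ad φ v) = -v) {s : ℂ} (hs : s * s = -1)
    (j : Fin n) {l : ℂ} {v : U} (hv : φ v = l • v) :
    φ (Ar φ (E j) s v) = (l + s) • Ar φ (E j) s v := by
  have h1 : ad φ (Ar φ (E j) s) = s • Ar φ (E j) s := by
    unfold Ar
    rw [map_sub, map_smul, hJ _ (Submodule.subset_span ⟨j, rfl⟩), smul_sub, smul_smul, hs]
    module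
  have h2 : φ (Ar φ (E j) s v) = (ad φ (Ar φ (E j) s)) v + Ar φ (E j) s (φ v) := by
    rw [ad_apply]
    simp only [LinearMap.sub_apply, Module.End.mul_apply]
    abel
  rw [h2, h1, hv, map_smul, LinearMap.smul_apply, add_smul, add_comm]

theorem Ar_sum (j : Fin n) {s : ℂ} (v : U) :
    E j v = (1 / 2 : ℂ) • (Ar φ (E j) s v + Ar φ (E j) (-s) v) := by
  unfold Ar
  simp only [LinearMap.sub_apply, LinearMap.smul_apply]
  module

/-- The end of the ladder. -/
theorem Ar_top (hE : CE E) (hn : n = 8) (hφ : φ ∈ soE E) {s : ℂ} (hs : s * s = -1) {v : U}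
    (h : ∀ j, Ar φ (E j) s v = 0) : φ v = (2 * s) • v := by
  have h1 : ∀ j, (ad φ (E j)) v = -(s • E j v) := by
    intro j
    have h2 := h j
    unfold Ar at h2
    rw [LinearMap.sub_apply, LinearMap.smul_apply, sub_eq_zero] at h2
    rw [h2, smul_smul, hs, neg_one_smul, neg_neg]
  have h2 : (4 : ℂ) • φ = -∑ i, E i * ad φ (E i) := by
    rw [soE_rec hE hφ, ← Finset.sum_neg_distrib]
    refine Finset.sum_congr rfl fun i _ => ?_
    have h3 : ad φ (E i * E i) = 0 := by
      rw [hE.sq, ad_apply, mul_one, one_mul, sub_self]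
    rw [ad_mul] at h3
    exact eq_neg_of_add_eq_zero_left h3
  have h3 := LinearMap.congr_fun h2 v
  rw [LinearMap.smul_apply, LinearMap.neg_apply, LinearMap.sum_apply] at h3
  have h4 : ∀ i, (E i * ad φ (E i)) v = -(s • v) := by
    intro i
    have h5 : E i (E i v) = v := LinearMap.congr_fun (hE.sq i) v
    rw [Module.End.mul_apply, h1, map_neg, map_smul, h5]
  rw [Finset.sum_congr rfl fun i _ => h4 i, Finset.sum_const, Finset.card_univ, Fintype.card_fin,
    hn] at h3
  have h5 : (4 : ℂ) • φ v = (4 : ℂ) • ((2 * s) • v) := by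
    rw [h3, smul_smul, ← Nat.cast_smul_eq_nsmul ℂ]
    push_cast
    module
  exact smul_right_injective _ (by norm_num : (4 : ℂ) ≠ 0) h5

theorem ev_up (hE : CE E) (hn : n = 8) (hφ : φ ∈ soE E) (hJ : ∀ v ∈ VE E, ad φ (ad φ v) = -v)
    {s : ℂ} (hs : s * s = -1) (l : ℂ) (hl : Ev φ l) : l = 2 * s ∨ Ev φ (l + s) := by
  obtain ⟨v, hv0, hv⟩ := hl
  by_cases h : ∀ j, Ar φ (E j) s v = 0
  · left
    have h1 := Ar_top hE hn hφ hs h
    rw [hv] at h1
    have h2 : (l - 2 * s) • v = 0 := by rw [sub_smul, h1, sub_self]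
    exact sub_eq_zero.1 ((smul_eq_zero.1 h2).resolve_right hv0)
  · right
    push Not at h
    obtain ⟨j, hj⟩ := h
    exact ⟨_, hj, Ar_shift hE hJ hs j hv⟩

theorem ev_not (hE : CE E) (hn : n = 8) (hφ : φ ∈ soE E) (hJ : ∀ v ∈ VE E, ad φ (ad φ v) = -v)
    {s : ℂ} (hs : s * s = -1) : ¬ Ev φ (3 * s) := by
  intro h
  have hs0 : s ≠ 0 := by
    rintro rfl
    norm_num at hs
  obtain ⟨k, hk⟩ := ladder hs0 (ev_up hE hn hφ hJ hs) h
  have h1 : ((k : ℂ) + 1) * s = 0 := by linear_combination hk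
  rcases mul_eq_zero.1 h1 with h2 | h2
  · have h3 : ((k + 1 : ℕ) : ℂ) = 0 := by push_cast; exact h2
    exact absurd (Nat.cast_eq_zero.1 h3) (Nat.succ_ne_zero k)
  · exact hs0 h2

theorem ev_step (hE : CE E) (hn : n = 8) (hJ : ∀ v ∈ VE E, ad φ (ad φ v) = -v)
    {s : ℂ} (hs : s * s = -1) {l : ℂ} (hl : Ev φ l) : Ev φ (l + s) ∨ Ev φ (l - s) := by
  obtain ⟨v, hv0, hv⟩ := hl
  let j : Fin n := ⟨0, by omega⟩
  by_cases h1 : Ar φ (E j) s v = 0
  · by_cases h2 : Ar φ (E j) (-s) v = 0
    · exfalso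
      have h3 : E j v = 0 := by
        rw [Ar_sum (φ := φ) (s := s), h1, h2, add_zero, smul_zero]
      have h5 : E j (E j v) = v := LinearMap.congr_fun (hE.sq j) v
      rw [h3, map_zero] at h5
      exact hv0 h5.symm
    · right
      have h3 := Ar_shift hE hJ (s := -s) (by rw [neg_mul_neg, hs]) j hv
      exact ⟨_, h2, by rw [h3, sub_eq_add_neg]⟩
  · left
    exact ⟨_, h1, Ar_shift hE hJ hs j hv⟩

/-- **The half-spin representation.** -/
theorem exists_half (hE : CE E) (hn : n = 8) (hφ : φ ∈ soE E)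
    (hJ : ∀ v ∈ VE E, ad φ (ad φ v) = -v) :
    ∃ K : Submodule ℂ U, K ≠ ⊥ ∧ (∀ a b, ∀ v ∈ K, E a (E b v) ∈ K) ∧ ∀ v ∈ K, φ (φ v) = -v := by
  have hI : Complex.I * Complex.I = -1 := Complex.I_mul_I
  have hI' : (-Complex.I) * (-Complex.I) = -1 := by rw [neg_mul_neg, hI]
  let K : Submodule ℂ U := LinearMap.ker (φ * φ + 1)
  have hK : ∀ v, v ∈ K ↔ φ (φ v) = -v := fun v => by
    rw [LinearMap.mem_ker, LinearMap.add_apply, Module.End.mul_apply, Module.End.one_apply]
    exact ⟨fun h => eq_neg_of_add_eq_zero_left h, fun h => by rw [h, neg_add_cancel]⟩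
  have hmem : ∀ (s : ℂ) (v : U), s * s = -1 → φ v = s • v → v ∈ K := fun s v hs h => by
    rw [hK, h, map_smul, h, smul_smul, hs, neg_one_smul]
  have hno : ∀ (s : ℂ) (v : U), s * s = -1 → φ v = (3 * s) • v → v = 0 := fun s v hs h => by
    by_contra hv
    exact ev_not hE hn hφ hJ hs ⟨v, hv, h⟩
  -- the stability for an eigenvector
  have hst : ∀ (s : ℂ) (a b : Fin n) (v : U), s * s = -1 → φ v = s • v → E a (E b v) ∈ K := by
    intro s a b v hs hv
    have hs' : -s * -s = -1 := by rw [neg_mul_neg, hs]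
    have h1 := Ar_shift hE hJ hs b hv
    have h2 := Ar_shift hE hJ hs' b hv
    have h3 := Ar_shift hE hJ hs a h1
    have h4 := Ar_shift hE hJ hs' a h1
    have h5 := Ar_shift hE hJ hs a h2
    have h6 := Ar_shift hE hJ hs' a h2
    have e3 : Ar φ (E a) s (Ar φ (E b) s v) = 0 := hno s _ hs (by
      rw [h3]; congr 1; ring)
    have k4 := hmem s _ hs (by rw [h4]; congr 1; ring)
    have k5 := hmem s _ hs (by rw [h5]; congr 1; ring)
    have k6 := hmem (-s) _ hs' (by rw [h6]; congr 1; ring)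
    rw [Ar_sum (φ := φ) (s := s) (E := E) b v, map_smul, map_add,
      Ar_sum (φ := φ) (s := s) (E := E) a, Ar_sum (φ := φ) (s := s) (E := E) a (Ar φ (E b) (-s) v),
      e3, zero_add]
    exact K.smul_mem _ (K.add_mem (K.smul_mem _ k4) (K.smul_mem _ (K.add_mem k5 k6)))
  refine ⟨K, ?_, ?_, fun v hv => (hK v).1 hv⟩
  · -- `K` is not zero
    obtain ⟨l, hl⟩ := Module.End.exists_eigenvalue φ
    obtain ⟨v, hv⟩ := hl.exists_hasEigenvector
    have hev : Ev φ l := ⟨v, hv.2, hv.apply_eq_smul⟩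
    obtain ⟨k, hk⟩ := ladder Complex.I_ne_zero (ev_up hE hn hφ hJ hI) hev
    obtain ⟨m, hm⟩ := ladder (neg_ne_zero.2 Complex.I_ne_zero) (ev_up hE hn hφ hJ hI') hev
    have hkm : k + m = 4 := by
      have h1 : ((k : ℂ) + m) * Complex.I = 4 * Complex.I := by linear_combination hk - hm
      have h2 := mul_right_cancel₀ Complex.I_ne_zero h1
      exact_mod_cast h2
    have hfin : Ev φ Complex.I ∨ Ev φ (-Complex.I) := by
      have h3 : l = (2 - k) * Complex.I := by linear_combination hk
      rw [h3] at hev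
      have n1 := ev_not hE hn hφ hJ hI
      have n2 := ev_not hE hn hφ hJ hI'
      have st := ev_step hE hn hJ hI hev
      have hk4 : k ≤ 4 := by omega
      interval_cases k
      · rcases st with h | h
        · exact absurd (by convert h using 1; push_cast; ring) n1
        · left; convert h using 1; push_cast; ring
      · left; convert hev using 1; push_cast; ring
      · rcases st with h | h
        · left; convert h using 1; push_cast; ring
        · right; convert h using 1; push_cast; ring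
      · right; convert hev using 1; push_cast; ring
      · rcases st with h | h
        · right; convert h using 1; push_cast; ring
        · exact absurd (by convert h using 1; push_cast; ring) n2
    rw [Submodule.ne_bot_iff]
    rcases hfin with ⟨v, hv0, hv⟩ | ⟨v, hv0, hv⟩
    · exact ⟨v, hmem _ v hI hv, hv0⟩
    · exact ⟨v, hmem _ v hI' hv, hv0⟩
  · intro a b v hv
    rw [hK] at hv
    have h1 : v = (1 / 2 : ℂ) • (v - Complex.I • φ v) + (1 / 2 : ℂ) • (v + Complex.I • φ v) := by
      module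
    have h2 : φ (v - Complex.I • φ v) = Complex.I • (v - Complex.I • φ v) := by
      rw [map_sub, map_smul, hv, smul_sub, smul_smul, hI]
      module
    have h3 : φ (v + Complex.I • φ v) = (-Complex.I) • (v + Complex.I • φ v) := by
      rw [map_add, map_smul, hv, smul_add, smul_smul, neg_mul, hI]
      module
    rw [h1, map_add, map_add, map_smul, map_smul, map_smul, map_smul]
    exact K.add_mem (K.smul_mem _ (hst _ a b _ hI h2)) (K.smul_mem _ (hst _ a b _ hI' h3))

end Pool.Agent.K9h14.PR
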