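import Pool.Agent.K9h14.E2
import Pool.Agent.K9h14.E5

set_option autoImplicit false
set_option linter.unusedVariables false
set_option linter.unusedSectionVars false

/-!
# Graphs of isomorphisms between orthogonal Lie algebras
-/

open Module

noncomputable section

namespace Pool.Agent.K9h14.PR

open Pool.Agent.Y102.SP

/-! ### Systems in rings -/

section maps

variable {R R' : Type*} [Ring R] [Algebra ℂ R] [Ring R'] [Algebra ℂ R'] {n : ℕ}

theorem cube_of_sq {f y : R} (hf : f * f = -1) :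
    f * (f * (f * y - y * f) - (f * y - y * f) * f) -
      (f * (f * y - y * f) - (f * y - y * f) * f) * f = -((4 : ℂ) • (f * y - y * f)) := by
  have f1 : f * (f * (f * y - y * f) - (f * y - y * f) * f) -
      (f * (f * y - y * f) - (f * y - y * f) * f) * f = (f * f) * (f * y) - ((f * f) * (y * f) +
          (f * f) * (y * f) + (f * f) * (y * f)) + ((f * y) * (f * f) + (f * y) * (f * f) +
          (f * y) * (f * f)) - (y * f) * (f * f) := by
    noncomm_ring
  rw [f1, hf]
  simp only [neg_mul, one_mul, mul_neg, mul_one]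
  module

end maps

variable {U₁ U₂ : Type} [AddCommGroup U₁] [Module ℂ U₁] [FiniteDimensional ℂ U₁] [Nontrivial U₁]
  [AddCommGroup U₂] [Module ℂ U₂] [FiniteDimensional ℂ U₂] [Nontrivial U₂]
  {m n : ℕ} {F : Fin m → Module.End ℂ U₁} {E : Fin n → Module.End ℂ U₂}

/-- The graph of an isomorphism. -/
structure Graph (F : Fin m → Module.End ℂ U₁) (E : Fin n → Module.End ℂ U₂)
    (𝔤 : Submodule ℂ (Module.End ℂ U₁ × Module.End ℂ U₂)) : Prop where
  m1 : ∀ p ∈ 𝔤, p.1 ∈ soE F
  m2 : ∀ p ∈ 𝔤, p.2 ∈ soE E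
  s1 : ∀ x ∈ soE F, ∃ y, (x, y) ∈ 𝔤
  s2 : ∀ y ∈ soE E, ∃ x, (x, y) ∈ 𝔤
  z : ∀ p ∈ 𝔤, p.1 = 0 ↔ p.2 = 0
  br : ∀ p ∈ 𝔤, ∀ q ∈ 𝔤, p * q - q * p ∈ 𝔤

variable {𝔤 : Submodule ℂ (Module.End ℂ U₁ × Module.End ℂ U₂)}

theorem Graph.uniq (h : Graph F E 𝔤) {x : Module.End ℂ U₁} {y y' : Module.End ℂ U₂}
    (h1 : (x, y) ∈ 𝔤) (h2 : (x, y') ∈ 𝔤) : y = y' := by
  have h3 := 𝔤.sub_mem h1 h2
  have h4 := (h.z _ h3).1 (by rw [Prod.fst_sub, sub_self])
  rw [Prod.snd_sub] at h4
  exact sub_eq_zero.1 h4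

theorem Graph.br' (h : Graph F E 𝔤) {x x' : Module.End ℂ U₁} {y y' : Module.End ℂ U₂}
    (h1 : (x, y) ∈ 𝔤) (h2 : (x', y') ∈ 𝔤) : (x * x' - x' * x, y * y' - y' * y) ∈ 𝔤 :=
  h.br _ h1 _ h2

/-- The images of the products. -/
theorem Graph.exists_phi (h : Graph F E 𝔤) (hF : CE F) : ∃ φ : Fin m → Fin m → Module.End ℂ U₂,
    SoRel φ ∧ ∀ i j, i ≠ j → (F i * F j, φ i j) ∈ 𝔤 := by
  have h1 : ∀ i j : Fin m, ∃ y, i ≠ j → (F i * F j, y) ∈ 𝔤 := by
    intro i j
    by_cases hij : i = j
    · exact ⟨0, fun h => absurd hij h⟩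
    · obtain ⟨y, hy⟩ := h.s1 (F i * F j) (Submodule.subset_span ⟨i, j, hij, rfl⟩)
      exact ⟨y, fun _ => hy⟩
  choose φ hφ using h1
  refine ⟨φ, ⟨fun i j hij => ?_, fun i j k hij hjk hik => ?_⟩, hφ⟩
  · have h2 := 𝔤.neg_mem (hφ i j hij)
    refine h.uniq (hφ j i hij.symm) ?_
    convert h2 using 1
    rw [Prod.neg_mk, hF.anti j i hij.symm]
  · have h2 := h.br' (hφ i j hij) (hφ j k hjk)
    have h3 := 𝔤.smul_mem (2 : ℂ) (hφ i k hik)
    refine h.uniq h2 ?_
    convert h3 using 1
    rw [Prod.smul_mk]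
    congr 1
    have e1 : F i * F j * (F j * F k) = F i * F k := by
      rw [mul_assoc, ← mul_assoc (F j), hF.sq, one_mul]
    have e2 : F j * F k * (F i * F j) = -(F i * F k) := by
      rw [hF.anti i j hij, mul_neg, mul_assoc, ← mul_assoc (F k), hF.anti k j hjk.symm,
        neg_mul, mul_neg, neg_neg, mul_assoc, ← mul_assoc (F j), hF.sq, one_mul,
        hF.anti k i hik.symm]
    rw [e1, e2, sub_neg_eq_add, two_smul]

/-- **Isomorphisms between orthogonal Lie algebras intertwine a part of the spin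
representations.** -/
theorem Graph.inter (h : Graph F E 𝔤) (hF : CE F) (hE : CE E) (hn : n = 3 ∨ 5 ≤ n)
    (hnm : n ≤ m) : ∃ T : U₁ →ₗ[ℂ] U₂, T ≠ 0 ∧ ∀ p ∈ 𝔤, ∀ u, p.2 (T u) = T (p.1 u) := by
  obtain ⟨φ, hr, hφ⟩ := h.exists_phi hF
  have hn3 : 3 ≤ n := by omega
  obtain ⟨o, ho⟩ : ∃ o : Fin m, o.val = 0 := ⟨⟨0, by omega⟩, rfl⟩
  obtain ⟨a, ha⟩ : ∃ a : Fin m, a.val = 1 := ⟨⟨1, by omega⟩, rfl⟩
  obtain ⟨b, hb⟩ : ∃ b : Fin m, b.val = 2 := ⟨⟨2, by omega⟩, rfl⟩
  have hoa : o ≠ a := fun h => by rw [h] at ho; omega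
  have hab : a ≠ b := fun h => by rw [h] at ha; omega
  have hob : o ≠ b := fun h => by rw [h] at ho; omega
  have hmem : ∀ i j, i ≠ j → φ i j ∈ soE E := fun i j hij => h.m2 _ (hφ i j hij)
  have hFne : ∀ i j, F i * F j ≠ 0 := by
    intro i j h0
    have h1 : (1 : Module.End ℂ U₁) = 0 := by
      calc (1 : Module.End ℂ U₁) = (F i * F j) * (F j * F i) := by
            rw [mul_assoc, ← mul_assoc (F j), hF.sq, one_mul, hF.sq]
        _ = 0 := by rw [h0, zero_mul]
    exact one_ne_zero h1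
  have hFsq : ∀ i j, i ≠ j → (F i * F j) * (F i * F j) = -1 := by
    intro i j hij
    rw [mul_assoc, ← mul_assoc (F j), hF.anti j i hij.symm, neg_mul, mul_neg, mul_assoc, hF.sq,
      mul_one, hF.sq]
  have hcube : ∀ y ∈ soE E, ad (φ o a) (ad (φ o a) (ad (φ o a) y)) =
      -((4 : ℂ) • ad (φ o a) y) := by
    intro y hy
    obtain ⟨x, hx⟩ := h.s2 y hy
    have h1 := hφ o a hoa
    have h2 := h.br' h1 hx
    have h3 := h.br' h1 (h.br' h1 h2)
    have h4 := 𝔤.neg_mem (𝔤.smul_mem (4 : ℂ) h2)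
    rw [cube_of_sq (hFsq o a hoa)] at h3
    exact h.uniq h3 h4
  have hne : ∃ y ∈ soE E, ad (φ o a) y ≠ 0 := by
    refine ⟨φ a b, hmem a b hab, ?_⟩
    rw [ad_apply, hr.br o a b hoa hab hob]
    intro h0
    have h1 := (smul_eq_zero.1 h0).resolve_left two_ne_zero
    have h2 := (h.z _ (hφ o b hob)).2 h1
    exact hFne o b h2
  -- the subspace
  have hK : ∃ K : Submodule ℂ U₂, K ≠ ⊥ ∧ (∀ a b, ∀ v ∈ K, E a (E b v) ∈ K) ∧
      ∀ v ∈ K, φ o a (φ o a v) = -v := by
    rcases dich hE (by omega) (hmem o a hoa) hcube hne with h1 | h1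
    · exact ⟨⊤, top_ne_bot, fun _ _ _ _ => Submodule.mem_top, fun v _ =>
        LinearMap.congr_fun h1 v⟩
    · refine exists_half hE ?_ (hmem o a hoa) h1
      -- the dimension is eight
      let ψ : Fin m → Fin m → Module.End ℂ (VE E) := fun i j =>
        if hij : i ≠ j then (ad (φ i j)).restrict (fun v hv => ad_mem hE (hmem i j hij) hv) else 0
      have hψ : ∀ i j, i ≠ j → ∀ v : VE E, ((ψ i j v : VE E) : Module.End ℂ U₂) =
          ad (φ i j) v := by
        intro i j hij v
        change (((if hij : i ≠ j then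
          (ad (φ i j)).restrict (fun v hv => ad_mem hE (hmem i j hij) hv) else 0 :
            Module.End ℂ (VE E)) v : VE E) : Module.End ℂ U₂) = _
        rw [dif_pos hij]
        rfl
      have hψr : SoRel ψ := by
        refine ⟨fun i j hij => ?_, fun i j k hij hjk hik => ?_⟩
        · refine LinearMap.ext fun v => Subtype.ext ?_
          rw [hψ j i hij.symm, hr.anti i j hij]
          have e1 : ((-ψ i j) v : VE E) = -(ψ i j v) := rfl
          rw [e1, Submodule.coe_neg, hψ i j hij, ad_apply, ad_apply]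
          noncomm_ring
        · refine LinearMap.ext fun v => Subtype.ext ?_
          have e1 : ((ψ i j * ψ j k - ψ j k * ψ i j) v : VE E) =
            ψ i j (ψ j k v) - ψ j k (ψ i j v) := rfl
          have e2 : (((2 : ℂ) • ψ i k) v : VE E) = (2 : ℂ) • ψ i k v := rfl
          rw [e1, e2, Submodule.coe_sub, Submodule.coe_smul, hψ i j hij, hψ j k hjk, hψ j k hjk,
            hψ i j hij, hψ i k hik]
          have e3 := hr.br i j k hij hjk hik
          have e4 : (2 : ℂ) • ad (φ i k) (v : Module.End ℂ U₂) = ad ((2 : ℂ) • φ i k) v := by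
            rw [ad_apply, ad_apply, smul_mul_assoc, mul_smul_comm, smul_sub]
          rw [e4, ← e3]
          simp only [ad_apply]
          noncomm_ring
      have hψ1 : ψ o a * ψ o a = -1 := by
        refine LinearMap.ext fun v => Subtype.ext ?_
        have e1 : ((ψ o a * ψ o a) v : VE E) = ψ o a (ψ o a v) := rfl
        have e2 : ((-1 : Module.End ℂ (VE E)) v : VE E) = -v := rfl
        rw [e1, e2, hψ o a hoa, hψ o a hoa, h1 _ v.2, Submodule.coe_neg]
      have hfr := hE.finrank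
      rw [← hfr]
      refine eight (n := m) (by rw [hfr]; exact hnm) (by rw [hfr]; exact hn)
        (fun i => if h : i + 1 < m then ψ o ⟨i + 1, h⟩ else 0) ?_ ?_
      · intro i hi
        have hi' : i + 1 < m := by omega
        rw [dif_pos hi']
        exact hψr.sq hoa (fun h => by rw [h] at ho; exact absurd ho (Nat.succ_ne_zero i)) hψ1
      · intro i hi j hj hij
        have hi' : i + 1 < m := by omega
        have hj' : j + 1 < m := by omega
        rw [dif_pos hi', dif_pos hj']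
        have hoi : o ≠ ⟨i + 1, hi'⟩ := fun h => by rw [h] at ho; exact absurd ho (Nat.succ_ne_zero i)
        have hoj : o ≠ ⟨j + 1, hj'⟩ := fun h => by rw [h] at ho; exact absurd ho (Nat.succ_ne_zero j)
        refine hψr.com hoi hoj (fun h => hij ?_) (hψr.sq hoa hoi hψ1)
        have := congrArg Fin.val h
        simp only at this
        omega
  obtain ⟨K, hK0, hKst, hKsq⟩ := hK
  haveI : Nontrivial K := Submodule.nontrivial_iff_ne_bot.2 hK0
  have hKso : ∀ y ∈ soE E, ∀ v ∈ K, y v ∈ K := by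
    intro y hy v hv
    induction hy using Submodule.span_induction with
    | mem y hy =>
      obtain ⟨i, j, -, rfl⟩ := hy
      exact hKst i j v hv
    | zero => rw [LinearMap.zero_apply]; exact K.zero_mem
    | add a b _ _ ha hb => rw [LinearMap.add_apply]; exact K.add_mem ha hb
    | smul c a _ ha => rw [LinearMap.smul_apply]; exact K.smul_mem _ ha
  let ρ : Fin m → Fin m → Module.End ℂ K := fun i j =>
    if hij : i ≠ j then (φ i j).restrict (fun v hv => hKso _ (hmem i j hij) v hv) else 0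
  have hρ : ∀ i j, i ≠ j → ∀ v : K, ((ρ i j v : K) : U₂) = φ i j v := by
    intro i j hij v
    change (((if hij : i ≠ j then (φ i j).restrict (fun v hv => hKso _ (hmem i j hij) v hv)
      else 0 : Module.End ℂ K) v : K) : U₂) = _
    rw [dif_pos hij]
    rfl
  have hρr : SoRel ρ := by
    refine ⟨fun i j hij => ?_, fun i j k hij hjk hik => ?_⟩
    · refine LinearMap.ext fun v => Subtype.ext ?_
      have e1 : ((-ρ i j) v : K) = -(ρ i j v) := rfl
      rw [hρ j i hij.symm, hr.anti i j hij, e1, Submodule.coe_neg, hρ i j hij]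
      rfl
    · refine LinearMap.ext fun v => Subtype.ext ?_
      have e1 : ((ρ i j * ρ j k - ρ j k * ρ i j) v : K) = ρ i j (ρ j k v) - ρ j k (ρ i j v) := rfl
      have e2 : (((2 : ℂ) • ρ i k) v : K) = (2 : ℂ) • ρ i k v := rfl
      rw [e1, e2, Submodule.coe_sub, Submodule.coe_smul, hρ i j hij, hρ j k hjk, hρ j k hjk,
        hρ i j hij, hρ i k hik]
      have e3 := LinearMap.congr_fun (hr.br i j k hij hjk hik) (v : U₂)
      exact e3
  have hρ1 : ρ o a * ρ o a = -1 := by
    refine LinearMap.ext fun v => Subtype.ext ?_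
    have e1 : ((ρ o a * ρ o a) v : K) = ρ o a (ρ o a v) := rfl
    have e2 : ((-1 : Module.End ℂ K) v : K) = -v := rfl
    rw [e1, e2, hρ o a hoa, hρ o a hoa, hKsq _ v.2, Submodule.coe_neg]
  obtain ⟨T, hT0, hT⟩ := exists_inter (ι := {j : Fin m // o ≠ j}) (g := fun j => ρ o j)
    (f := fun j => F o * F j) (F := F o) (fun j => hρr.sq hoa j.2 hρ1)
    (fun i j hij => hρr.com i.2 j.2 (fun h => hij (Subtype.ext h)) (hρr.sq hoa i.2 hρ1))
    (fun j => hFsq o j j.2)
    (fun i j hij => by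
      have hij' : (i : Fin m) ≠ j := fun h => hij (Subtype.ext h)
      have e1 : ∀ i j : {j : Fin m // o ≠ j}, F o * F i * (F o * F j) = -(F i * F j) := by
        intro i j
        rw [mul_assoc, ← mul_assoc (F i), hF.anti i o i.2.symm, neg_mul, mul_neg, mul_assoc,
          ← mul_assoc (F o), hF.sq, one_mul]
      rw [e1, e1, hF.anti i j hij'])
    (hF.sq o)
    (fun j => by
      rw [← mul_assoc, hF.sq, one_mul, mul_assoc, hF.anti j o j.2.symm, mul_neg, ← mul_assoc,
        hF.sq, one_mul, neg_neg])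
    Finset.univ
  have hT' : ∀ i j, i ≠ j → ∀ u, ρ i j (T u) = T ((F i * F j) u) := by
    have hTo : ∀ j, o ≠ j → ∀ u, ρ o j (T u) = T ((F o * F j) u) := fun j hj u =>
      hT ⟨j, hj⟩ (Finset.mem_univ _) u
    have hTo' : ∀ j, o ≠ j → ∀ u, ρ j o (T u) = T ((F j * F o) u) := by
      intro j hj u
      rw [hρr.anti o j hj, hF.anti j o hj.symm, LinearMap.neg_apply, LinearMap.neg_apply,
        map_neg, hTo j hj]
    intro i j hij u
    by_cases hi : o = i
    · subst hi
      exact hTo j hij u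
    by_cases hj : o = j
    · subst hj
      exact hTo' i hi u
    have e1 := LinearMap.congr_fun (hρr.br i o j (Ne.symm hi) hj hij) (T u)
    have e2 : F i * F o * (F o * F j) - F o * F j * (F i * F o) = (2 : ℂ) • (F i * F j) := by
      have f1 : F i * F o * (F o * F j) = F i * F j := by
        rw [mul_assoc, ← mul_assoc (F o), hF.sq, one_mul]
      have f2 : F o * F j * (F i * F o) = -(F i * F j) := by
        rw [hF.anti i o (Ne.symm hi), mul_neg, mul_assoc, ← mul_assoc (F j), hF.anti j o (Ne.symm hj),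
          neg_mul, mul_neg, neg_neg, mul_assoc, ← mul_assoc (F o), hF.sq, one_mul,
          hF.anti j i (Ne.symm hij)]
      rw [f1, f2, sub_neg_eq_add, two_smul]
    have e3 := LinearMap.congr_fun e2 u
    have e4 : (ρ i o * ρ o j - ρ o j * ρ i o) (T u) = ρ i o (ρ o j (T u)) - ρ o j (ρ i o (T u)) :=
      rfl
    have e5 : (F i * F o * (F o * F j) - F o * F j * (F i * F o)) u =
      (F i * F o) ((F o * F j) u) - (F o * F j) ((F i * F o) u) := rfl
    rw [e4, hTo j hj, hTo' i hi, hTo' i hi, hTo j hj, ← map_sub, ← e5, e3] at e1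
    have e6 : (2 : ℂ) • ρ i j (T u) = (2 : ℂ) • T ((F i * F j) u) := by
      have e7 := e1.symm
      rw [LinearMap.smul_apply, LinearMap.smul_apply, map_smul] at e7
      exact e7
    exact smul_right_injective _ (two_ne_zero : (2 : ℂ) ≠ 0) e6
  refine ⟨K.subtype ∘ₗ T, fun h0 => hT0 ?_, ?_⟩
  · refine LinearMap.ext fun u => Subtype.ext ?_
    exact LinearMap.congr_fun h0 u
  · have key : ∀ x ∈ soE F, ∀ y, (x, y) ∈ 𝔤 → ∀ u, y (T u : K) = ((T (x u) : K) : U₂) := by
      intro x hx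
      induction hx using Submodule.span_induction with
      | mem x hx =>
        obtain ⟨i, j, hij, rfl⟩ := hx
        intro y hy u
        rw [h.uniq hy (hφ i j hij), ← hρ i j hij, hT' i j hij]
      | zero =>
        intro y hy u
        have h0 : y = 0 := (h.z _ hy).1 rfl
        rw [h0, LinearMap.zero_apply, LinearMap.zero_apply, map_zero, Submodule.coe_zero]
      | add a b ha' hb' ha hb =>
        intro y hy u
        obtain ⟨ya, hya⟩ := h.s1 a ha'
        obtain ⟨yb, hyb⟩ := h.s1 b hb'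
        rw [h.uniq hy (𝔤.add_mem hya hyb), LinearMap.add_apply, LinearMap.add_apply, map_add,
          Submodule.coe_add, ha ya hya, hb yb hyb]
      | smul c a ha' ha =>
        intro y hy u
        obtain ⟨ya, hya⟩ := h.s1 a ha'
        rw [h.uniq hy (𝔤.smul_mem c hya), LinearMap.smul_apply, LinearMap.smul_apply, map_smul,
          Submodule.coe_smul, ha ya hya]
    intro p hp u
    exact key p.1 (h.m1 p hp) p.2 hp u

end Pool.Agent.K9h14.PR
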