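import Pool.Agent.K9h14.E6

set_option autoImplicit false
set_option linter.unusedVariables false
set_option linter.unusedSectionVars false

/-!
# There are no graphs if the associative algebra separates the summands
-/

open Module

noncomputable section

namespace Pool.Agent.K9h14.PR

open Pool.Agent.Y102.SP

variable {U₁ U₂ : Type} [AddCommGroup U₁] [Module ℂ U₁] [FiniteDimensional ℂ U₁] [Nontrivial U₁]
  [AddCommGroup U₂] [Module ℂ U₂] [FiniteDimensional ℂ U₂] [Nontrivial U₂]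
  {m n : ℕ} {F : Fin m → Module.End ℂ U₁} {E : Fin n → Module.End ℂ U₂}
  {𝔤 : Submodule ℂ (Module.End ℂ U₁ × Module.End ℂ U₂)}

/-- The opposite graph. -/
def swp (𝔤 : Submodule ℂ (Module.End ℂ U₁ × Module.End ℂ U₂)) :
    Submodule ℂ (Module.End ℂ U₂ × Module.End ℂ U₁) where
  carrier := {p | (p.2, p.1) ∈ 𝔤}
  zero_mem' := 𝔤.zero_mem
  add_mem' := fun hp hq => 𝔤.add_mem hp hq
  smul_mem' := fun c _ hp => 𝔤.smul_mem c hp

theorem Graph.swap (h : Graph F E 𝔤) : Graph E F (swp 𝔤) :=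
  ⟨fun p hp => h.m2 _ hp, fun p hp => h.m1 _ hp, fun x hx => h.s2 x hx, fun x hx => h.s1 x hx,
    fun p hp => (h.z _ hp).symm, fun p hp q hq => h.br _ hp _ hq⟩

theorem inter_adjoin {T : U₁ →ₗ[ℂ] U₂} (hT : ∀ p ∈ 𝔤, ∀ u, p.2 (T u) = T (p.1 u))
    {Y : Module.End ℂ U₁ × Module.End ℂ U₂}
    (hY : Y ∈ Algebra.adjoin ℂ (𝔤 : Set (Module.End ℂ U₁ × Module.End ℂ U₂))) :
    ∀ u, Y.2 (T u) = T (Y.1 u) := by
  induction hY using Algebra.adjoin_induction with
  | mem x hx => exact hT x hx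
  | algebraMap r =>
    intro u
    change (algebraMap ℂ (Module.End ℂ U₂) r) (T u) = T ((algebraMap ℂ (Module.End ℂ U₁) r) u)
    rw [Module.algebraMap_end_apply, Module.algebraMap_end_apply, map_smul]
  | add x y _ _ hx hy =>
    intro u
    rw [Prod.snd_add, Prod.fst_add, LinearMap.add_apply, LinearMap.add_apply, map_add, hx, hy]
  | mul x y _ _ hx hy =>
    intro u
    rw [Prod.snd_mul, Prod.fst_mul, Module.End.mul_apply, Module.End.mul_apply, hy, hx]

theorem inter_adjoin' {T : U₂ →ₗ[ℂ] U₁} (hT : ∀ p ∈ 𝔤, ∀ u, p.1 (T u) = T (p.2 u))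
    {Y : Module.End ℂ U₁ × Module.End ℂ U₂}
    (hY : Y ∈ Algebra.adjoin ℂ (𝔤 : Set (Module.End ℂ U₁ × Module.End ℂ U₂))) :
    ∀ u, Y.1 (T u) = T (Y.2 u) := by
  induction hY using Algebra.adjoin_induction with
  | mem x hx => exact hT x hx
  | algebraMap r =>
    intro u
    change (algebraMap ℂ (Module.End ℂ U₁) r) (T u) = T ((algebraMap ℂ (Module.End ℂ U₂) r) u)
    rw [Module.algebraMap_end_apply, Module.algebraMap_end_apply, map_smul]
  | add x y _ _ hx hy =>
    intro u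
    rw [Prod.snd_add, Prod.fst_add, LinearMap.add_apply, LinearMap.add_apply, map_add, hx, hy]
  | mul x y _ _ hx hy =>
    intro u
    rw [Prod.snd_mul, Prod.fst_mul, Module.End.mul_apply, Module.End.mul_apply, hy, hx]

/-- **No graphs.** -/
theorem Graph.not_sep (h : Graph F E 𝔤) (hF : CE F) (hE : CE E) (hm : m = 3 ∨ 5 ≤ m)
    (hn : n = 3 ∨ 5 ≤ n) {i j : Fin n} {Y : Module.End ℂ U₁ × Module.End ℂ U₂}
    (hY : Y ∈ Algebra.adjoin ℂ (𝔤 : Set (Module.End ℂ U₁ × Module.End ℂ U₂)))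
    (h1 : Y.1 = 0) (h2 : Y.2 = E i * E j) : False := by
  have pE : ∀ i v, E i (E i v) = v := fun i v => LinearMap.congr_fun (hE.sq i) v
  rcases le_total n m with hnm | hnm
  · obtain ⟨T, hT0, hT⟩ := h.inter hF hE hn hnm
    refine hT0 (LinearMap.ext fun u => ?_)
    have h3 := inter_adjoin hT hY u
    rw [h1, h2, LinearMap.zero_apply, map_zero, Module.End.mul_apply] at h3
    have h4 := congrArg (fun t => E j (E i t)) h3
    simp only [pE, map_zero] at h4
    exact h4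
  · obtain ⟨T, hT0, hT⟩ := h.swap.inter hE hF hm hnm
    have hT' : ∀ p ∈ 𝔤, ∀ u, p.1 (T u) = T (p.2 u) := fun p hp u => hT (p.2, p.1) hp u
    refine hT0 (LinearMap.ext fun u => ?_)
    have h3 := inter_adjoin' hT' hY (E j (E i u))
    rw [h1, h2, LinearMap.zero_apply, Module.End.mul_apply, pE, pE] at h3
    exact h3.symm

end Pool.Agent.K9h14.PR
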