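import Pool.Agent.K9h14.E7
import Pool.Agent.K9h14.D3
import Pool.Agent.N113.BT.Spin

set_option autoImplicit false
set_option linter.unusedVariables false
set_option linter.unusedSectionVars false

/-!
# Rigidity of products of spin representations
-/

open Module

noncomputable section

namespace Pool.Agent.K9h14.PR

open Pool.Agent.Y102.SP Pool.Agent.K9h14.PA

section three

variable {U : Type} [AddCommGroup U] [Module ℂ U] [FiniteDimensional ℂ U] [Nontrivial U]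

/-- The Pauli matrices of three Clifford generators. -/
def X3 (E : Fin 3 → Module.End ℂ U) : Unit → Fin 3 → Module.End ℂ U :=
  fun _ a => (-Complex.I) • (E (a + 1) * E (a + 2))

variable {E : Fin 3 → Module.End ℂ U}

theorem X3_pau (hE : CE E) : Pau (X3 E) := by
  have e11 : ∀ a : Fin 3, a + 1 + 1 = a + 2 := fun a => by fin_cases a <;> rfl
  have e12 : ∀ a : Fin 3, a + 1 + 2 = a := fun a => by fin_cases a <;> rfl
  have e21 : ∀ a : Fin 3, a + 2 + 1 = a := fun a => by fin_cases a <;> rfl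
  have e22 : ∀ a : Fin 3, a + 2 + 2 = a + 1 := fun a => by fin_cases a <;> rfl
  have n1 : ∀ a : Fin 3, a ≠ a + 1 := fun a => by fin_cases a <;> decide
  have n2 : ∀ a : Fin 3, a ≠ a + 2 := fun a => by fin_cases a <;> decide
  have n12 : ∀ a : Fin 3, a + 1 ≠ a + 2 := fun a => by fin_cases a <;> decide
  have hII : ∀ x : Module.End ℂ U, (-Complex.I) • (-Complex.I) • x = -x := fun x => by
    rw [smul_smul, neg_mul_neg, Complex.I_mul_I, neg_one_smul]
  have hII' : ∀ x : Module.End ℂ U, (Complex.I) • (-Complex.I) • x = x := fun x => by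
    rw [smul_smul, mul_neg, Complex.I_mul_I, neg_neg, one_smul]
  refine ⟨fun _ a => ?_, fun _ a => ?_, fun _ a => ?_, fun s t h => absurd (Subsingleton.elim s t) h⟩
  · unfold X3
    rw [e11, e12, e21, e22, smul_mul_assoc, mul_smul_comm, hII, hII', mul_assoc, ← mul_assoc (E (a + 2)),
      hE.sq, one_mul, hE.anti a (a + 1) (n1 a)]
  · unfold X3
    rw [e11, e12, e21, e22, smul_mul_assoc, mul_smul_comm, hII, hII', mul_assoc, ← mul_assoc (E a),
      ← mul_assoc (E (a + 2)), ← mul_assoc (E (a + 2)), hE.anti (a + 2) a (n2 a).symm, neg_mul,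
      mul_assoc (E a) (E (a + 2)), hE.anti (a + 2) (a + 1) (n12 a).symm, mul_neg, neg_neg,
      ← mul_assoc, mul_assoc _ (E (a + 2)), hE.sq, mul_one]
  · have h1 : ∀ a : Fin 3, X3 E () a * X3 E () a = 1 := by
      intro a
      unfold X3
      rw [smul_mul_assoc, mul_smul_comm, hII, mul_assoc, ← mul_assoc (E (a + 2)),
        hE.anti (a + 2) (a + 1) (n12 a).symm, neg_mul, mul_neg, mul_assoc (E (a + 1)), hE.sq,
        mul_one, hE.sq, neg_neg]
    change X3 E () a * X3 E () a = X3 E () 0 * X3 E () 0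
    rw [h1, h1]

theorem X3_so (hE : CE E) : soE E = SS (X3 E) () := by
  refine le_antisymm ?_ ?_
  · unfold soE
    rw [Submodule.span_le]
    rintro _ ⟨i, j, hij, rfl⟩
    have key : ∀ a : Fin 3, E (a + 1) * E (a + 2) ∈ SS (X3 E) () := by
      intro a
      have h1 : E (a + 1) * E (a + 2) = Complex.I • X3 E () a := by
        unfold X3
        rw [smul_smul, mul_neg, Complex.I_mul_I, neg_neg, one_smul]
      rw [h1]
      exact Submodule.smul_mem _ _ (X_mem () a)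
    have h2 : ∃ a : Fin 3, (i = a + 1 ∧ j = a + 2) ∨ (i = a + 2 ∧ j = a + 1) := by
      revert hij
      revert i j
      decide
    obtain ⟨a, ⟨rfl, rfl⟩ | ⟨rfl, rfl⟩⟩ := h2
    · exact key a
    · have n12 : a + 2 ≠ a + 1 := by fin_cases a <;> decide
      rw [hE.anti _ _ n12]
      exact Submodule.neg_mem _ (key a)
  · unfold SS
    rw [Submodule.span_le]
    rintro _ ⟨a, rfl⟩
    exact Submodule.smul_mem _ _ (Cl_mem_so (by fin_cases a <;> decide))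

theorem SS_unit : SS (X3 E) () = S0 (X3 E) := by
  refine le_antisymm (SS_le ()) ?_
  unfold S0
  rw [Submodule.span_le]
  rintro _ ⟨⟨⟩, a, rfl⟩
  exact X_mem () a

theorem X3_ne (hE : CE E) : X3 E () 0 ≠ 0 := by
  intro h0
  have h1 := (smul_eq_zero.1 h0).resolve_left (neg_ne_zero.2 Complex.I_ne_zero)
  have h2 : (1 : Module.End ℂ U) = E (0 + 2) * (E (0 + 1) * (E (0 + 1) * E (0 + 2))) := by
    rw [← mul_assoc (E (0 + 1)), hE.sq, one_mul, hE.sq]
  rw [h1, mul_zero, mul_zero] at h2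
  exact one_ne_zero h2

end three

section one

variable {U : Type} [AddCommGroup U] [Module ℂ U] [FiniteDimensional ℂ U] [Nontrivial U]
  {n : ℕ} {E : Fin n → Module.End ℂ U}

/-- One spin representation is rigid. -/
theorem so_rig (hn : n = 3 ∨ 6 ≤ n) (hE : CE E)
    (𝔥 : Submodule ℂ (Module.End ℂ U)) (h𝔥 : 𝔥 ≤ soE E)
    (hbr : ∀ x ∈ 𝔥, ∀ y ∈ 𝔥, x * y - y * x ∈ 𝔥)
    (gen : ∀ i j, E i * E j ∈ Algebra.adjoin ℂ (𝔥 : Set (Module.End ℂ U))) :
    soE E ≤ 𝔥 := by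
  rcases hn with rfl | hn
  · have hp := X3_pau hE
    have h1 : 𝔥 ≤ S0 (X3 E) := by
      rw [← SS_unit, ← X3_so hE]
      exact h𝔥
    have h2 := hp.surj h1 hbr (fun _ a => Subalgebra.smul_mem _ (gen _ _) _) (X3_ne hE)
    rw [X3_so hE]
    intro x hx
    obtain ⟨y, hy, h3⟩ := h2 x hx
    have h4 : y ∈ SS (X3 E) () := by
      rw [SS_unit]
      exact h1 hy
    rw [hp.pp_same h4] at h3
    rw [← h3]
    exact hy
  · exact main hn hE 𝔥 h𝔥 hbr gen

/-- The Lie algebra is simple. -/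
theorem so_smp (hn : n = 3 ∨ 6 ≤ n) (hE : CE E)
    (J : Submodule ℂ (Module.End ℂ U)) (hJ : J ≤ soE E)
    (hbr : ∀ x ∈ soE E, ∀ y ∈ J, x * y - y * x ∈ J) : J = ⊥ ∨ J = soE E := by
  rcases hn with rfl | hn
  · have hp := X3_pau hE
    rw [X3_so hE] at hJ hbr ⊢
    exact hp.simple J hJ hbr
  · exact so_simple (by omega) hE J hJ hbr

end one

/-! ### Families -/

section fam

variable {k : ℕ} {U : Fin k → Type} [∀ σ, AddCommGroup (U σ)] [∀ σ, Module ℂ (U σ)]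
  [∀ σ, FiniteDimensional ℂ (U σ)] [∀ σ, Nontrivial (U σ)] {r : Fin k → ℕ}

/-- The sum of the orthogonal Lie algebras. -/
def famS (E : ∀ σ, Fin (r σ) → Module.End ℂ (U σ)) : Submodule ℂ (∀ σ, Module.End ℂ (U σ)) where
  carrier := {z | ∀ σ, z σ ∈ soE (E σ)}
  zero_mem' := fun σ => Submodule.zero_mem _
  add_mem' := fun hx hy σ => Submodule.add_mem _ (hx σ) (hy σ)
  smul_mem' := fun c _ hx σ => Submodule.smul_mem _ c (hx σ)

variable {E : ∀ σ, Fin (r σ) → Module.End ℂ (U σ)}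
  {𝔥 : Submodule ℂ (∀ σ, Module.End ℂ (U σ))}

theorem soE_br {V : Type} [AddCommGroup V] [Module ℂ V] [FiniteDimensional ℂ V] [Nontrivial V]
    {n : ℕ} {E : Fin n → Module.End ℂ V}
    (hE : CE E) {x y : Module.End ℂ V}
    (hx : x ∈ soE E) (hy : y ∈ soE E) : x * y - y * x ∈ soE E := by
  have h1 : ∀ i j : Fin n, i ≠ j → x * (E i * E j) - E i * E j * x ∈ soE E := by
    intro i j hij
    have h2 := soE_stab hE hx (v := E i) (Submodule.subset_span ⟨i, rfl⟩)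
    have h3 := soE_stab hE hx (v := E j) (Submodule.subset_span ⟨j, rfl⟩)
    -- `x (E i E j) - (E i E j) x = ½ ((D E i) ∧ E j + E i ∧ (D E j))`
    have h4 : x * (E i * E j) - E i * E j * x = (1 / 2 : ℂ) •
        (((x * E i - E i * x) * E j - E j * (x * E i - E i * x)) +
          (E i * (x * E j - E j * x) - (x * E j - E j * x) * E i)) := by
      have h5 : x * (E i * E j) - E i * E j * x =
          (x * E i - E i * x) * E j + E i * (x * E j - E j * x) := by noncomm_ring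
      have h6 : x * (E j * E i) - E j * E i * x =
          (x * E j - E j * x) * E i + E j * (x * E i - E i * x) := by noncomm_ring
      have h7 : x * (E j * E i) - E j * E i * x = -(x * (E i * E j) - E i * E j * x) := by
        rw [hE.anti j i (Ne.symm hij)]
        noncomm_ring
      have h8 : ((x * E i - E i * x) * E j - E j * (x * E i - E i * x)) +
          (E i * (x * E j - E j * x) - (x * E j - E j * x) * E i) =
          (x * (E i * E j) - E i * E j * x) - (x * (E j * E i) - E j * E i * x) := by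
        rw [h5, h6]
        abel
      rw [h8, h7, sub_neg_eq_add, ← two_smul ℂ (x * (E i * E j) - E i * E j * x), smul_smul]
      norm_num
    rw [h4]
    exact Submodule.smul_mem _ _ (Submodule.add_mem _
      (Cl_comm_mem h2 (Submodule.subset_span ⟨j, rfl⟩))
      (Cl_comm_mem (Submodule.subset_span ⟨i, rfl⟩) h3))
  induction hy using Submodule.span_induction with
  | mem y hy =>
    obtain ⟨i, j, hij, rfl⟩ := hy
    exact h1 i j hij
  | zero => rw [mul_zero, zero_mul, sub_zero]; exact Submodule.zero_mem _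
  | add a b _ _ ha hb =>
    have e : x * (a + b) - (a + b) * x = (x * a - a * x) + (x * b - b * x) := by noncomm_ring
    rw [e]
    exact Submodule.add_mem _ ha hb
  | smul c a _ ha =>
    rw [mul_smul_comm, smul_mul_assoc, ← smul_sub]
    exact Submodule.smul_mem _ _ ha

theorem famS_br (hE : ∀ σ, CE (E σ)) {x y : ∀ σ, Module.End ℂ (U σ)} (hx : x ∈ famS E)
    (hy : y ∈ famS E) : x * y - y * x ∈ famS E := fun σ => soE_br (hE σ) (hx σ) (hy σ)

theorem single_mem (σ : Fin k) {z : Module.End ℂ (U σ)} (hz : z ∈ soE (E σ)) :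
    (Pi.single σ z : ∀ σ, Module.End ℂ (U σ)) ∈ famS E := by
  intro τ
  by_cases h : τ = σ
  · subst h
    rw [Pi.single_eq_same]
    exact hz
  · rw [Pi.single_eq_of_ne h]
    exact Submodule.zero_mem _

/-- Step 1: the projections are surjective. -/
theorem fam_surj (hE : ∀ σ, CE (E σ)) (hr : ∀ σ, r σ = 3 ∨ 6 ≤ r σ) (h𝔥 : 𝔥 ≤ famS E)
    (hbr : ∀ x ∈ 𝔥, ∀ y ∈ 𝔥, x * y - y * x ∈ 𝔥)
    (hgen : ∀ z ∈ famS E, z ∈ Algebra.adjoin ℂ (𝔥 : Set (∀ σ, Module.End ℂ (U σ))))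
    (σ : Fin k) : ∀ x ∈ soE (E σ), ∃ y ∈ 𝔥, y σ = x := by
  have key := so_rig (hr σ) (hE σ) (𝔥.map (LinearMap.proj σ)) ?_ ?_ ?_
  · intro x hx
    obtain ⟨y, hy, rfl⟩ := key hx
    exact ⟨y, hy, rfl⟩
  · rintro _ ⟨y, hy, rfl⟩
    exact h𝔥 hy σ
  · rintro _ ⟨x, hx, rfl⟩ _ ⟨y, hy, rfl⟩
    exact ⟨x * y - y * x, hbr x hx y hy, rfl⟩
  · intro i j
    by_cases hij : i = j
    · subst hij
      rw [(hE σ).sq]
      exact one_mem _
    have h1 := hgen _ (single_mem (E := E) σ (Submodule.subset_span ⟨i, j, hij, rfl⟩ :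
      E σ i * E σ j ∈ soE (E σ)))
    have h2 : (Pi.evalAlgHom ℂ (fun σ => Module.End ℂ (U σ)) σ) (Pi.single σ (E σ i * E σ j)) ∈
        (Algebra.adjoin ℂ (𝔥 : Set (∀ σ, Module.End ℂ (U σ)))).map
          (Pi.evalAlgHom ℂ (fun σ => Module.End ℂ (U σ)) σ) := ⟨_, h1, rfl⟩
    rw [AlgHom.map_adjoin] at h2
    have h3 : (Pi.evalAlgHom ℂ (fun σ => Module.End ℂ (U σ)) σ) (Pi.single σ (E σ i * E σ j)) =
        E σ i * E σ j := by
      rw [Pi.evalAlgHom_apply, Pi.single_eq_same]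
    rw [h3] at h2
    exact h2

/-- Step 2: an ideal is zero or everything. -/
theorem fam_ideal (hE : ∀ σ, CE (E σ)) (hr : ∀ σ, r σ = 3 ∨ 6 ≤ r σ) (h𝔥 : 𝔥 ≤ famS E)
    (hbr : ∀ x ∈ 𝔥, ∀ y ∈ 𝔥, x * y - y * x ∈ 𝔥)
    (hgen : ∀ z ∈ famS E, z ∈ Algebra.adjoin ℂ (𝔥 : Set (∀ σ, Module.End ℂ (U σ))))
    (σ τ : Fin k) : (∀ y ∈ 𝔥, y τ = 0 → y σ = 0) ∨
      ∀ x ∈ soE (E σ), ∃ y ∈ 𝔥, y σ = x ∧ y τ = 0 := by
  have hsurj := fam_surj hE hr h𝔥 hbr hgen σ
  let J : Submodule ℂ (Module.End ℂ (U σ)) :=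
    (𝔥 ⊓ LinearMap.ker (LinearMap.proj (R := ℂ) (φ := fun σ => Module.End ℂ (U σ)) τ)).map
      (LinearMap.proj σ)
  have hJ : ∀ x, x ∈ J ↔ ∃ y ∈ 𝔥, y σ = x ∧ y τ = 0 := by
    intro x
    constructor
    · rintro ⟨y, ⟨hy, hy0⟩, rfl⟩
      exact ⟨y, hy, rfl, hy0⟩
    · rintro ⟨y, hy, rfl, hy0⟩
      exact ⟨y, ⟨hy, hy0⟩, rfl⟩
  have hle : J ≤ soE (E σ) := by
    intro x hx
    obtain ⟨y, hy, rfl, -⟩ := (hJ x).1 hx
    exact h𝔥 hy σ
  have hid : ∀ x ∈ soE (E σ), ∀ y ∈ J, x * y - y * x ∈ J := by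
    intro x hx y hy
    obtain ⟨y', hy', rfl, h0⟩ := (hJ y).1 hy
    obtain ⟨x', hx', rfl⟩ := hsurj x hx
    refine (hJ _).2 ⟨x' * y' - y' * x', hbr x' hx' y' hy', rfl, ?_⟩
    change x' τ * y' τ - y' τ * x' τ = 0
    rw [h0, mul_zero, zero_mul, sub_zero]
  rcases so_smp (hr σ) (hE σ) J hle hid with h | h
  · left
    intro y hy h0
    have h1 : y σ ∈ J := (hJ _).2 ⟨y, hy, rfl, h0⟩
    rw [h] at h1
    exact (Submodule.mem_bot ℂ).1 h1
  · right
    intro x hx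
    rw [← h] at hx
    exact (hJ x).1 hx

theorem mul_ne {V : Type} [AddCommGroup V] [Module ℂ V] [Nontrivial V] {n : ℕ}
    {E : Fin n → Module.End ℂ V} (hE : CE E) (i j : Fin n) : E i * E j ≠ 0 := by
  intro h0
  have h1 : (1 : Module.End ℂ V) = (E i * E j) * (E j * E i) := by
    rw [mul_assoc, ← mul_assoc (E j), hE.sq, one_mul, hE.sq]
  rw [h0, zero_mul] at h1
  exact one_ne_zero h1

/-- Step 3: two summands. -/
theorem fam_two (hE : ∀ σ, CE (E σ)) (hr : ∀ σ, r σ = 3 ∨ 6 ≤ r σ) (h𝔥 : 𝔥 ≤ famS E)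
    (hbr : ∀ x ∈ 𝔥, ∀ y ∈ 𝔥, x * y - y * x ∈ 𝔥)
    (hgen : ∀ z ∈ famS E, z ∈ Algebra.adjoin ℂ (𝔥 : Set (∀ σ, Module.End ℂ (U σ))))
    {σ τ : Fin k} (hst : σ ≠ τ) : ∀ x ∈ soE (E σ), ∃ y ∈ 𝔥, y σ = x ∧ y τ = 0 := by
  rcases fam_ideal hE hr h𝔥 hbr hgen σ τ with h | h
  swap
  · exact h
  exfalso
  have h3 : ∀ σ, 3 ≤ r σ := fun σ => by rcases hr σ with h | h <;> omega
  have hback : ∀ y ∈ 𝔥, y σ = 0 → y τ = 0 := by
    rcases fam_ideal hE hr h𝔥 hbr hgen τ σ with h' | h'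
    · exact h'
    exfalso
    let i : Fin (r σ) := ⟨0, by have := h3 σ; omega⟩
    let j : Fin (r σ) := ⟨1, by have := h3 σ; omega⟩
    have hij : i ≠ j := fun h => by simp [i, j] at h
    obtain ⟨y, hy, hyx⟩ := fam_surj hE hr h𝔥 hbr hgen σ (E σ i * E σ j)
      (Submodule.subset_span ⟨i, j, hij, rfl⟩)
    obtain ⟨y', hy', h4, h5⟩ := h' (y τ) (h𝔥 hy τ)
    have h6 := h (y - y') (sub_mem hy hy') (by rw [Pi.sub_apply, h4, sub_self])
    rw [Pi.sub_apply, h5, sub_zero, hyx] at h6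
    exact mul_ne (hE σ) i j h6
  -- the graph
  let pr : (∀ σ, Module.End ℂ (U σ)) →ₐ[ℂ] (Module.End ℂ (U τ) × Module.End ℂ (U σ)) :=
    (Pi.evalAlgHom ℂ (fun σ => Module.End ℂ (U σ)) τ).prod
      (Pi.evalAlgHom ℂ (fun σ => Module.End ℂ (U σ)) σ)
  have hpr : ∀ y, pr y = (y τ, y σ) := fun y => rfl
  let 𝔤 : Submodule ℂ (Module.End ℂ (U τ) × Module.End ℂ (U σ)) := 𝔥.map pr.toLinearMap
  have hG : Graph (E τ) (E σ) 𝔤 := by
    refine ⟨?_, ?_, ?_, ?_, ?_, ?_⟩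
    · rintro _ ⟨y, hy, rfl⟩
      exact h𝔥 hy τ
    · rintro _ ⟨y, hy, rfl⟩
      exact h𝔥 hy σ
    · intro x hx
      obtain ⟨y, hy, rfl⟩ := fam_surj hE hr h𝔥 hbr hgen τ x hx
      exact ⟨y σ, y, hy, rfl⟩
    · intro x hx
      obtain ⟨y, hy, rfl⟩ := fam_surj hE hr h𝔥 hbr hgen σ x hx
      exact ⟨y τ, y, hy, rfl⟩
    · rintro _ ⟨y, hy, rfl⟩
      exact ⟨fun h0 => h y hy h0, fun h0 => hback y hy h0⟩
    · rintro _ ⟨x, hx, rfl⟩ _ ⟨y, hy, rfl⟩
      exact ⟨x * y - y * x, hbr x hx y hy, rfl⟩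
  let i : Fin (r σ) := ⟨0, by have := h3 σ; omega⟩
  let j : Fin (r σ) := ⟨1, by have := h3 σ; omega⟩
  have hij : i ≠ j := fun h => by simp [i, j] at h
  have h1 := hgen _ (single_mem (E := E) σ (Submodule.subset_span ⟨i, j, hij, rfl⟩ :
      E σ i * E σ j ∈ soE (E σ)))
  have h2 : pr (Pi.single σ (E σ i * E σ j)) ∈
      (Algebra.adjoin ℂ (𝔥 : Set (∀ σ, Module.End ℂ (U σ)))).map pr := ⟨_, h1, rfl⟩
  rw [AlgHom.map_adjoin] at h2
  refine hG.not_sep (hE τ) (hE σ) ((hr τ).imp id (fun h => by omega))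
    ((hr σ).imp id (fun h => by omega)) (i := i) (j := j) h2 ?_ ?_
  · rw [hpr]
    exact Pi.single_eq_of_ne (Ne.symm hst) _
  · rw [hpr]
    exact Pi.single_eq_same _ _

/-- Step 4: the lemma of Ribet. -/
theorem fam_ribet (hE : ∀ σ, CE (E σ)) (hr : ∀ σ, r σ = 3 ∨ 6 ≤ r σ) (h𝔥 : 𝔥 ≤ famS E)
    (hbr : ∀ x ∈ 𝔥, ∀ y ∈ 𝔥, x * y - y * x ∈ 𝔥)
    (hgen : ∀ z ∈ famS E, z ∈ Algebra.adjoin ℂ (𝔥 : Set (∀ σ, Module.End ℂ (U σ))))
    (σ : Fin k) (Q : Finset (Fin k)) :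
    σ ∉ Q → ∀ x ∈ soE (E σ), ∃ y ∈ 𝔥, y σ = x ∧ ∀ τ ∈ Q, y τ = 0 := by
  classical
  induction Q using Finset.induction_on with
  | empty =>
    intro _ x hx
    obtain ⟨y, hy, hyx⟩ := fam_surj hE hr h𝔥 hbr hgen σ x hx
    exact ⟨y, hy, hyx, fun t ht => absurd ht (Finset.notMem_empty t)⟩
  | insert t Q htQ ih =>
    intro hsQ x hx
    have hsQ' : σ ∉ Q := fun h => hsQ (Finset.mem_insert_of_mem h)
    have hst : σ ≠ t := fun h => hsQ (h ▸ Finset.mem_insert_self _ _)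
    have h3 : 3 ≤ r σ := by rcases hr σ with h | h <;> omega
    have hx' := so_perfect h3 (hE σ) hx
    have h4 : Submodule.span ℂ {z | ∃ x ∈ soE (E σ), ∃ y ∈ soE (E σ), z = x * y - y * x} ≤
        ((𝔥 ⊓ ⨅ τ ∈ insert t Q,
          LinearMap.ker (LinearMap.proj (R := ℂ) (φ := fun σ => Module.End ℂ (U σ)) τ)).map
          (LinearMap.proj σ) : Submodule ℂ (Module.End ℂ (U σ))) := by
      rw [Submodule.span_le]
      rintro _ ⟨x1, hx1, x2, hx2, rfl⟩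
      obtain ⟨y1, hy1, rfl, h2⟩ := ih hsQ' x1 hx1
      obtain ⟨y2, hy2, rfl, h4⟩ := fam_two hE hr h𝔥 hbr hgen hst x2 hx2
      refine ⟨y1 * y2 - y2 * y1, ⟨hbr y1 hy1 y2 hy2, ?_⟩, rfl⟩
      simp only [SetLike.mem_coe, Submodule.mem_iInf, LinearMap.mem_ker]
      intro t' ht'
      change y1 t' * y2 t' - y2 t' * y1 t' = 0
      rcases Finset.mem_insert.1 ht' with h5 | h5
      · rw [h5, h4, mul_zero, zero_mul, sub_zero]
      · rw [h2 t' h5, mul_zero, zero_mul, sub_zero]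
    obtain ⟨y, ⟨hy, hy0⟩, hyx⟩ := h4 hx'
    simp only [SetLike.mem_coe, Submodule.mem_iInf, LinearMap.mem_ker] at hy0
    exact ⟨y, hy, hyx, fun τ hτ => hy0 τ hτ⟩

/-- **Rigidity of products of spin representations.** -/
theorem fam_rigid (hE : ∀ σ, CE (E σ)) (hr : ∀ σ, r σ = 3 ∨ 6 ≤ r σ) :
    N113.BT.Rigid (R := ∀ σ, Module.End ℂ (U σ)) (famS E) := by
  classical
  intro 𝔥 h𝔥 hbr hgen z hz
  have h1 : z = ∑ σ, Pi.single σ (z σ) := (Finset.univ_sum_single z).symm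
  rw [h1]
  refine Submodule.sum_mem _ fun σ _ => ?_
  obtain ⟨y, hy, h2, h3⟩ := fam_ribet hE hr h𝔥 hbr hgen σ (Finset.univ.erase σ)
    (Finset.notMem_erase _ _) (z σ) (hz σ)
  have h4 : y = Pi.single σ (z σ) := by
    funext τ
    by_cases h : τ = σ
    · subst h
      rw [Pi.single_eq_same]
      exact h2
    · rw [Pi.single_eq_of_ne h]
      exact h3 τ (Finset.mem_erase.2 ⟨h, Finset.mem_univ _⟩)
  rw [← h4]
  exact hy

end fam

end Pool.Agent.K9h14.PR
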