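import Pool.Agent.K9h14.E8

set_option autoImplicit false
set_option linter.unusedVariables false
set_option linter.unusedSectionVars false

/-!
# The rigid part given by several spin representations
-/

open Module Function TensorProduct Matrix

noncomputable section

namespace Pool.Agent.K9h14.PR

open Pool.Agent.Y102.SP Pool.Agent.N113.BT

section gen

variable {R R' : Type} [Ring R] [Algebra ℂ R] [Ring R'] [Algebra ℂ R']

/-- Rigidity is invariant under isomorphisms. -/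
theorem rigid_comap (f : R ≃ₐ[ℂ] R') {S' : Submodule ℂ R'} (h : Rigid S') :
    Rigid (S'.comap f.toLinearMap) := by
  intro 𝔥 h𝔥 hbr hgen
  have key := h (𝔥.map f.toLinearMap) ?_ ?_ ?_
  · intro z hz
    obtain ⟨y, hy, h1⟩ := key hz
    have h2 : y = z := f.injective h1
    rw [← h2]
    exact hy
  · rintro _ ⟨x, hx, rfl⟩
    exact h𝔥 hx
  · rintro _ ⟨x, hx, rfl⟩ _ ⟨y, hy, rfl⟩
    refine ⟨x * y - y * x, hbr x hx y hy, ?_⟩
    change f (x * y - y * x) = f x * f y - f y * f x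
    rw [map_sub, map_mul, map_mul]
  · intro z hz
    have h1 := hgen (f.symm z) (by
      change f (f.symm z) ∈ S'
      rw [f.apply_symm_apply]
      exact hz)
    have h2 : (f : R →ₐ[ℂ] R') (f.symm z) ∈ (Algebra.adjoin ℂ (𝔥 : Set R)).map (f : R →ₐ[ℂ] R') :=
      ⟨_, h1, rfl⟩
    rw [AlgHom.map_adjoin] at h2
    have h3 : (f : R →ₐ[ℂ] R') (f.symm z) = z := f.apply_symm_apply z
    rw [h3] at h2
    exact h2

end gen

section mat

variable {k : ℕ} {d r : Fin k → ℕ} {E : ∀ σ, Fin (r σ) → Matrix (Fin (d σ)) (Fin (d σ)) ℂ}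

/-- The orthogonal Lie algebra, as matrices. -/
def so1 {n d : ℕ} (E : Fin n → Matrix (Fin d) (Fin d) ℂ) : Submodule ℂ (Matrix (Fin d) (Fin d) ℂ) :=
  Submodule.span ℂ {Y | ∃ i j, i ≠ j ∧ Y = E i * E j}

theorem mem_so1 {n d : ℕ} {E : Fin n → Matrix (Fin d) (Fin d) ℂ} {x : Matrix (Fin d) (Fin d) ℂ} :
    x ∈ so1 E ↔ Matrix.toLinAlgEquiv' x ∈ soE (enM E) := by
  have h1 : (so1 E).map (Matrix.toLinAlgEquiv' (R := ℂ) (n := Fin d)).toLinearMap =
      soE (enM E) := by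
    unfold so1 soE
    rw [Submodule.map_span]
    congr 1
    ext x
    constructor
    · rintro ⟨_, ⟨i, j, hij, rfl⟩, rfl⟩
      refine ⟨i, j, hij, ?_⟩
      change Matrix.toLinAlgEquiv' (E i * E j) = _
      rw [map_mul]
      rfl
    · rintro ⟨i, j, hij, rfl⟩
      refine ⟨_, ⟨i, j, hij, rfl⟩, ?_⟩
      change Matrix.toLinAlgEquiv' (E i * E j) = _
      rw [map_mul]
      rfl
  rw [← h1]
  constructor
  · intro h
    exact ⟨x, h, rfl⟩
  · rintro ⟨y, hy, h⟩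
    rw [← Matrix.toLinAlgEquiv'.injective h]
    exact hy

/-- The sum of the orthogonal Lie algebras. -/
def matS (E : ∀ σ, Fin (r σ) → Matrix (Fin (d σ)) (Fin (d σ)) ℂ) :
    Submodule ℂ (∀ σ, Matrix (Fin (d σ)) (Fin (d σ)) ℂ) where
  carrier := {z | ∀ σ, z σ ∈ so1 (E σ)}
  zero_mem' := fun σ => Submodule.zero_mem _
  add_mem' := fun hx hy σ => Submodule.add_mem _ (hx σ) (hy σ)
  smul_mem' := fun c _ hx σ => Submodule.smul_mem _ c (hx σ)

/-- The isomorphism to the endomorphisms. -/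
def piE (d : Fin k → ℕ) : (∀ σ, Matrix (Fin (d σ)) (Fin (d σ)) ℂ) ≃ₐ[ℂ]
    (∀ σ, Module.End ℂ (Fin (d σ) → ℂ)) :=
  AlgEquiv.piCongrRight fun σ => Matrix.toLinAlgEquiv' (R := ℂ) (n := Fin (d σ))

theorem matS_eq : matS E = (famS (fun σ => enM (E σ))).comap (piE d).toLinearMap := by
  ext z
  constructor
  · intro h σ
    exact mem_so1.1 (h σ)
  · intro h σ
    exact mem_so1.2 (h σ)

theorem matS_rigid (hd : ∀ σ, 0 < d σ) (hsq : ∀ σ i, E σ i * E σ i = 1)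
    (hanti : ∀ σ i j, i ≠ j → E σ i * E σ j = -(E σ j * E σ i)) (hr : ∀ σ, r σ = 3 ∨ 6 ≤ r σ) :
    Rigid (R := ∀ σ, Matrix (Fin (d σ)) (Fin (d σ)) ℂ) (matS E) := by
  haveI : ∀ σ, Nontrivial (Fin (d σ) → ℂ) := fun σ => by
    haveI : Nonempty (Fin (d σ)) := ⟨⟨0, hd σ⟩⟩
    infer_instance
  rw [matS_eq]
  exact rigid_comap (piE d) (fam_rigid (fun σ => enM_CE (hsq σ) (hanti σ)) hr)

theorem matS_br (hd : ∀ σ, 0 < d σ) (hsq : ∀ σ i, E σ i * E σ i = 1)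
    (hanti : ∀ σ i j, i ≠ j → E σ i * E σ j = -(E σ j * E σ i))
    {x y : ∀ σ, Matrix (Fin (d σ)) (Fin (d σ)) ℂ} (hx : x ∈ matS E) (hy : y ∈ matS E) :
    x * y - y * x ∈ matS E := by
  haveI : ∀ σ, Nontrivial (Fin (d σ) → ℂ) := fun σ => by
    haveI : Nonempty (Fin (d σ)) := ⟨⟨0, hd σ⟩⟩
    infer_instance
  intro σ
  have h1 := soE_br (enM_CE (hsq σ) (hanti σ)) (mem_so1.1 (hx σ)) (mem_so1.1 (hy σ))
  rw [← map_mul, ← map_mul, ← map_sub] at h1
  exact mem_so1.2 h1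

end mat

section AV

open Pool.Agent.R918
open Pool.Agent.Y102 Pool.Agent.W516.DR Pool.Agent.H204R3.GP

variable {g k : ℕ} {A : AbVar g} {d r : Fin k → ℕ}
  {E : ∀ σ, Fin (r σ) → Matrix (Fin (d σ)) (Fin (d σ)) ℂ}
  {P : ∀ σ, Matrix (Fin (2 * g)) (Fin (d σ)) ℂ} {Q : ∀ σ, Matrix (Fin (d σ)) (Fin (2 * g)) ℂ}

/-- The embedding of the endomorphisms of the summands. -/
def ioF (P : ∀ σ, Matrix (Fin (2 * g)) (Fin (d σ)) ℂ) (Q : ∀ σ, Matrix (Fin (d σ)) (Fin (2 * g)) ℂ) :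
    (∀ σ, Matrix (Fin (d σ)) (Fin (d σ)) ℂ) →ₗ[ℂ] Module.End ℂ (ℂ ⊗[ℚ] (Fin (2 * g) → ℚ)) where
  toFun z := matE (2 * g) (∑ σ, P σ * z σ * Q σ)
  map_add' x y := by
    rw [← map_add, ← Finset.sum_add_distrib]
    congr 1
    exact Finset.sum_congr rfl fun σ _ => by rw [Pi.add_apply, Matrix.mul_add, Matrix.add_mul]
  map_smul' c x := by
    rw [RingHom.id_apply, ← map_smul, Finset.smul_sum]
    congr 1
    exact Finset.sum_congr rfl fun σ _ => by rw [Pi.smul_apply, Matrix.mul_smul, Matrix.smul_mul]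

theorem ioF_apply (z : ∀ σ, Matrix (Fin (d σ)) (Fin (d σ)) ℂ) :
    ioF P Q z = matE (2 * g) (∑ σ, P σ * z σ * Q σ) := rfl

theorem ioF_one : ioF P Q 1 = matE (2 * g) (∑ σ, P σ * Q σ) := by
  rw [ioF_apply]
  congr 1
  exact Finset.sum_congr rfl fun σ _ => by rw [Pi.one_apply, Matrix.mul_one]

theorem ioF_mul (h : ∀ σ, Q σ * P σ = 1) (h0 : ∀ σ τ, σ ≠ τ → Q σ * P τ = 0)
    (x y : ∀ σ, Matrix (Fin (d σ)) (Fin (d σ)) ℂ) :
    ioF P Q (x * y) = ioF P Q x * ioF P Q y := by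
  rw [ioF_apply, ioF_apply, ioF_apply, ← map_mul]
  congr 1
  rw [Finset.sum_mul_sum]
  refine Finset.sum_congr rfl fun σ _ => ?_
  rw [Finset.sum_eq_single σ]
  · rw [Pi.mul_apply, Matrix.mul_assoc (P σ * x σ) (Q σ), ← Matrix.mul_assoc (Q σ) (P σ * y σ),
      ← Matrix.mul_assoc (Q σ) (P σ), h, Matrix.one_mul, Matrix.mul_assoc (P σ) (x σ),
      ← Matrix.mul_assoc (x σ) (y σ), Matrix.mul_assoc (P σ)]
  · intro τ _ hτ
    rw [Matrix.mul_assoc (P σ * x σ) (Q σ), ← Matrix.mul_assoc (Q σ) (P τ * y τ),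
      ← Matrix.mul_assoc (Q σ) (P τ), h0 σ τ (Ne.symm hτ), Matrix.zero_mul, Matrix.zero_mul,
      Matrix.mul_zero]
  · intro h'
    exact absurd (Finset.mem_univ _) h'

theorem corner_sum (h : ∀ σ, Q σ * P σ = 1) (h0 : ∀ σ τ, σ ≠ τ → Q σ * P τ = 0)
    (x : ∀ σ, Matrix (Fin (d σ)) (Fin (d σ)) ℂ) (σ : Fin k) :
    Q σ * (∑ τ, P τ * x τ * Q τ) * P σ = x σ := by
  rw [Matrix.mul_sum, Matrix.sum_mul, Finset.sum_eq_single σ]
  · rw [Matrix.mul_assoc (P σ), ← Matrix.mul_assoc (Q σ) (P σ), h, Matrix.one_mul,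
      Matrix.mul_assoc (x σ), h, Matrix.mul_one]
  · intro τ _ hτ
    rw [Matrix.mul_assoc (P τ), ← Matrix.mul_assoc (Q σ) (P τ), h0 σ τ (Ne.symm hτ),
      Matrix.zero_mul, Matrix.zero_mul]
  · intro h'
    exact absurd (Finset.mem_univ _) h'

theorem ioF_inj (h : ∀ σ, Q σ * P σ = 1) (h0 : ∀ σ τ, σ ≠ τ → Q σ * P τ = 0) :
    Injective (ioF P Q) := by
  intro x y hxy
  have h1 : ∑ σ, P σ * x σ * Q σ = ∑ σ, P σ * y σ * Q σ := (matE (2 * g)).injective hxy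
  funext σ
  rw [← corner_sum h h0 x σ, h1, corner_sum h h0 y σ]

/-- **The rigid part given by several spin representations.** -/
theorem rigPart_fam (hd : ∀ σ, 0 < d σ) (hsq : ∀ σ i, E σ i * E σ i = 1)
    (hanti : ∀ σ i j, i ≠ j → E σ i * E σ j = -(E σ j * E σ i)) (hr : ∀ σ, r σ = 3 ∨ 6 ≤ r σ)
    (hQP : ∀ σ, Q σ * P σ = 1) (hQP0 : ∀ σ τ, σ ≠ τ → Q σ * P τ = 0)
    (hst : ∀ X ∈ A.NA, ∀ σ, P σ * Q σ * toC X = toC X * (P σ * Q σ))
    (hle : ∀ X ∈ A.NA, ∃ t : ℂ, ∀ σ, Q σ * toC X * P σ + t • 1 ∈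
      Submodule.span ℂ {Y | ∃ i j, i ≠ j ∧ Y = E σ i * E σ j})
    (hgen : ∀ σ i j, i ≠ j → ∃ Y ∈ Algebra.adjoin ℂ (Submodule.span ℂ
        {Y | ∃ X ∈ A.NA, Y = toC X} : Set (Matrix (Fin (2 * g)) (Fin (2 * g)) ℂ)),
      Q σ * Y * P σ = E σ i * E σ j ∧ ∀ τ, τ ≠ σ → Q τ * Y * P τ = 0) :
    RigPart A (matE (2 * g) (∑ σ, P σ * Q σ)) ((matS E).map (ioF P Q)) := by
  classical
  have hbc : ∀ X : Module.End ℚ A.H1, matE (2 * g) (toC X) = X.baseChange ℂ := fun X => matE_toC X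
  have hidem : matE (2 * g) (∑ σ, P σ * Q σ) * matE (2 * g) (∑ σ, P σ * Q σ) =
      matE (2 * g) (∑ σ, P σ * Q σ) := by
    rw [← ioF_one, ← ioF_mul hQP hQP0, one_mul]
  have hadj : ∀ Y ∈ Algebra.adjoin ℂ (Submodule.span ℂ {Y | ∃ X ∈ A.NA, Y = toC X} :
      Set (Matrix (Fin (2 * g)) (Fin (2 * g)) ℂ)), ∀ σ, P σ * Q σ * Y = Y * (P σ * Q σ) := by
    intro Y hY σ
    induction hY using Algebra.adjoin_induction with
    | mem x hx =>
      induction hx using Submodule.span_induction with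
      | mem x hx =>
        obtain ⟨X, hX, rfl⟩ := hx
        exact hst X hX σ
      | zero => rw [Matrix.mul_zero, Matrix.zero_mul]
      | add x y _ _ hx hy => rw [Matrix.mul_add, Matrix.add_mul, hx, hy]
      | smul c x _ hx => rw [Matrix.mul_smul, Matrix.smul_mul, hx]
    | algebraMap c => exact (Algebra.commutes c (P σ * Q σ)).symm
    | add x y _ _ hx hy => rw [Matrix.mul_add, Matrix.add_mul, hx, hy]
    | mul x y _ _ hx hy =>
      rw [← Matrix.mul_assoc, hx, Matrix.mul_assoc, hy, Matrix.mul_assoc]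
  have hcor : ∀ Y : Matrix (Fin (2 * g)) (Fin (2 * g)) ℂ, (∀ σ, P σ * Q σ * Y = Y * (P σ * Q σ)) →
      ∑ σ, P σ * (Q σ * Y * P σ) * Q σ = (∑ σ, P σ * Q σ) * Y := by
    intro Y hY
    rw [Matrix.sum_mul]
    refine Finset.sum_congr rfl fun σ _ => ?_
    have e1 : P σ * (Q σ * Y * P σ) * Q σ = P σ * Q σ * (Y * (P σ * Q σ)) := by
      simp only [Matrix.mul_assoc]
    have e2 : P σ * Q σ * (P σ * Q σ * Y) = P σ * (Q σ * P σ) * Q σ * Y := by
      simp only [Matrix.mul_assoc]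
    rw [e1, ← hY, e2, hQP, Matrix.mul_one]
  have hsumst : ∀ X ∈ A.NA, (∑ σ, P σ * Q σ) * toC X = toC X * (∑ σ, P σ * Q σ) := by
    intro X hX
    rw [Matrix.sum_mul, Matrix.mul_sum]
    exact Finset.sum_congr rfl fun σ _ => hst X hX σ
  refine ⟨?_, hidem, ?_, ?_, ?_, ?_, ?_⟩
  · refine cx_comm (T := matE (2 * g) (∑ σ, P σ * Q σ)) fun X hX => ?_
    rw [← hbc, ← map_mul, ← map_mul, hsumst X hX]
  · rintro _ ⟨z, hz, rfl⟩
    rw [← ioF_one, ← ioF_mul hQP hQP0, ← ioF_mul hQP hQP0, one_mul, mul_one]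
    exact ⟨rfl, rfl⟩
  · rintro _ ⟨x, hx, rfl⟩ _ ⟨y, hy, rfl⟩
    rw [← ioF_mul hQP hQP0, ← ioF_mul hQP hQP0, ← map_sub]
    exact ⟨_, matS_br hd hsq hanti hx hy, rfl⟩
  · intro x hx
    induction hx using Submodule.span_induction with
    | mem x hx =>
      obtain ⟨X, hX, rfl⟩ := hx
      obtain ⟨c, hc⟩ := hle X hX
      refine ⟨c, fun σ => Q σ * toC X * P σ + c • 1, fun σ => hc σ, ?_⟩
      have e1 : (fun σ => Q σ * toC X * P σ + c • (1 : Matrix (Fin (d σ)) (Fin (d σ)) ℂ)) =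
          (fun σ => Q σ * toC X * P σ) + c • (1 : ∀ σ, Matrix (Fin (d σ)) (Fin (d σ)) ℂ) := rfl
      rw [e1, map_add, map_smul, ioF_one, ioF_apply, ← hbc, ← map_mul, hcor _ (hst X hX)]
    | zero =>
      refine ⟨0, ?_⟩
      rw [mul_zero, zero_smul, add_zero]
      exact Submodule.zero_mem _
    | add x y _ _ hx hy =>
      obtain ⟨c, hc⟩ := hx
      obtain ⟨d, hd⟩ := hy
      refine ⟨c + d, ?_⟩
      have h1 := Submodule.add_mem _ hc hd
      convert h1 using 1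
      rw [mul_add, add_smul]
      abel
    | smul t x _ hx =>
      obtain ⟨c, hc⟩ := hx
      refine ⟨t * c, ?_⟩
      have h1 := Submodule.smul_mem _ t hc
      convert h1 using 1
      rw [mul_smul_comm, smul_add, smul_smul]
  · rintro _ ⟨z, hz, rfl⟩
    have hone : ∀ σ, ∀ x ∈ so1 (E σ), ∃ Y ∈ Algebra.adjoin ℂ (Submodule.span ℂ
        {Y | ∃ X ∈ A.NA, Y = toC X} : Set (Matrix (Fin (2 * g)) (Fin (2 * g)) ℂ)),
        Q σ * Y * P σ = x ∧ ∀ τ, τ ≠ σ → Q τ * Y * P τ = 0 := by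
      intro σ x hx
      induction hx using Submodule.span_induction with
      | mem x hx =>
        obtain ⟨i, j, hij, rfl⟩ := hx
        exact hgen σ i j hij
      | zero => exact ⟨0, Subalgebra.zero_mem _, by rw [Matrix.mul_zero, Matrix.zero_mul],
          fun τ _ => by rw [Matrix.mul_zero, Matrix.zero_mul]⟩
      | add x y _ _ hx hy =>
        obtain ⟨a, ha, h1, h2⟩ := hx
        obtain ⟨b, hb, h3, h4⟩ := hy
        exact ⟨a + b, Subalgebra.add_mem _ ha hb, by rw [Matrix.mul_add, Matrix.add_mul, h1, h3],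
          fun τ hτ => by rw [Matrix.mul_add, Matrix.add_mul, h2 τ hτ, h4 τ hτ, add_zero]⟩
      | smul t x _ hx =>
        obtain ⟨a, ha, h1, h2⟩ := hx
        exact ⟨t • a, Subalgebra.smul_mem _ ha t, by rw [Matrix.mul_smul, Matrix.smul_mul, h1],
          fun τ hτ => by rw [Matrix.mul_smul, Matrix.smul_mul, h2 τ hτ, smul_zero]⟩
    choose Y hY hY1 hY2 using fun σ => hone σ (z σ) (hz σ)
    have hYs : ∑ σ, Y σ ∈ Algebra.adjoin ℂ (Submodule.span ℂ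
        {Y | ∃ X ∈ A.NA, Y = toC X} : Set (Matrix (Fin (2 * g)) (Fin (2 * g)) ℂ)) :=
      Subalgebra.sum_mem _ fun σ _ => hY σ
    refine ⟨matE (2 * g) (∑ σ, Y σ), matE_adjoin _ hYs, ?_⟩
    have hz' : ∀ σ, z σ = Q σ * (∑ τ, Y τ) * P σ := by
      intro σ
      rw [Matrix.mul_sum, Matrix.sum_mul, Finset.sum_eq_single σ, hY1]
      · intro τ _ hτ
        exact hY2 τ σ (Ne.symm hτ)
      · intro h'
        exact absurd (Finset.mem_univ _) h'
    rw [ioF_apply, ← map_mul, ← hcor _ (hadj _ hYs)]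
    congr 1
    exact Finset.sum_congr rfl fun σ _ => by rw [hz' σ]
  · intro L hL hb hg
    rw [← ioF_one] at hg
    exact (matS_rigid hd hsq hanti hr).map (ioF P Q) (ioF_inj hQP hQP0) (ioF_mul hQP hQP0) L hL hb hg

end AV

end Pool.Agent.K9h14.PR
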