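import Pool.Agent.K9h14.Z13
import Pool.Agent.W245.EB.AD2

set_option autoImplicit false
set_option linter.unusedVariables false
set_option linter.unusedSectionVars false
set_option linter.unusedSimpArgs false

/-!
# Arithmetic data, and the construction of the auxiliary polynomial
-/

open Filter MvPolynomial NumberField
open scoped Topology

noncomputable section

namespace Pool.Agent.K9h14

open Pool.Agent.W245.EB

/-- arithmetic data: functions with algebraic differential equations and algebraic values at the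
points `pt s`, where `s : Q` -/
structure PD (n : ℕ) where
  K : Type
  [fK : Field K]
  [nK : NumberField K]
  ph : K →+* ℂ
  V : Type
  [fV : Fintype V]
  [dV : DecidableEq V]
  val : V → (Fin n → ℂ) → ℂ
  O : Set (Fin n → ℂ)
  isOpen_O : IsOpen O
  analytic_val : ∀ p, AnalyticOnNhd ℂ (val p) O
  Q : Type
  [fQ : Fintype Q]
  q0 : Q
  pt : Q → (Fin n → ℂ)
  ptO : ∀ s, pt s ∈ O
  X : V → Q → 𝓞 K
  hX : ∀ p s, ph (X p s : K) = val p (pt s)
  δ : Fin n → V → MvPolynomial V (𝓞 K)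
  hδ : ∀ j p, (δ j p).totalDegree ≤ 2
  v : Fin n → Fin n → ℂ
  spans_v : ∀ w : Fin n → ℂ, ∃ κ : Fin n → ℂ, w = ∑ j, κ j • v j
  D_val : ∀ j p, ∀ z ∈ O, D (v j) (val p) z =
    ev (ph.comp (algebraMap (𝓞 K) K)) val (δ j p) z
  I : Type
  [fI : Fintype I]
  [dI : DecidableEq I]
  cardI : Fintype.card I = n + 1
  b : I → V
  hb : Function.Injective b

attribute [instance] PD.fK PD.nK PD.fV PD.dV PD.fQ PD.fI PD.dI

namespace PD

variable {n : ℕ} (e : PD n)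

/-- embedding of the integers -/
def emb : 𝓞 e.K →+* ℂ := e.ph.comp (algebraMap (𝓞 e.K) e.K)

lemma emb_apply (x : 𝓞 e.K) : e.emb x = e.ph (x : e.K) := rfl

/-- the function attached to a polynomial -/
def Fn (Φ : MvPolynomial e.V (𝓞 e.K)) : (Fin n → ℂ) → ℂ := ev e.emb e.val Φ

lemma analytic_Fn (Φ : MvPolynomial e.V (𝓞 e.K)) : AnalyticOnNhd ℂ (e.Fn Φ) e.O :=
  analytic_ev e.emb e.val e.analytic_val Φ

/-- value of a polynomial at a grid point -/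
def at' (s : e.Q) (Φ : MvPolynomial e.V (𝓞 e.K)) : 𝓞 e.K :=
  MvPolynomial.eval (fun p => e.X p s) Φ

lemma emb_at (s : e.Q) (Φ : MvPolynomial e.V (𝓞 e.K)) :
    e.emb (e.at' s Φ) = e.Fn Φ (e.pt s) := by
  simp only [at', Fn, ev]
  rw [← MvPolynomial.eval₂_id, MvPolynomial.hom_eval₂]
  congr 1
  funext p
  exact e.hX p s

/-- derivatives at grid points -/
lemma DL_Fn (Φ : MvPolynomial e.V (𝓞 e.K)) (s : e.Q) (l : List (Fin n)) :
    DL (l.map e.v) (e.Fn Φ) (e.pt s) = e.emb (e.at' s (PL e.δ l Φ)) := by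
  rw [emb_at]
  exact DL_ev e.emb e.val e.isOpen_O e.analytic_val e.δ e.v
    (fun j p z hz => e.D_val j p z hz) l Φ (e.ptO s)

/-- embedding of the ring of integers attached to an embedding of the field -/
def sg (τ : e.K →+* ℂ) : 𝓞 e.K →+* ℂ := τ.comp (algebraMap (𝓞 e.K) e.K)

lemma house_le {x : e.K} {A : ℝ} (hA : 0 ≤ A) (h : ∀ τ : e.K →+* ℂ, ‖τ x‖ ≤ A) : house x ≤ A := by
  rw [house, pi_norm_le_iff_of_nonneg hA]
  exact h

/-- exponents -/
def mu (lam : e.I → ℕ) : e.V →₀ ℕ := ∑ i, Finsupp.single (e.b i) (lam i)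

lemma degree_mu (lam : e.I → ℕ) : (e.mu lam).degree = ∑ i, lam i := by
  rw [mu, map_sum]
  apply Finset.sum_congr rfl
  intro i _
  rw [Finsupp.degree_single]

lemma degree_mu_le {Lc : ℕ} (lam : e.I → Fin Lc) :
    (e.mu fun i => (lam i : ℕ)).degree ≤ (n + 1) * Lc := by
  rw [degree_mu, ← e.cardI, ← Finset.card_univ, ← smul_eq_mul, ← Finset.sum_const]
  exact Finset.sum_le_sum fun i _ => (lam i).2.le

/-- the auxiliary polynomial -/
def Phi {Lc : ℕ} (ξ : (e.I → Fin Lc) → 𝓞 e.K) : MvPolynomial e.V (𝓞 e.K) :=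
  ∑ lam, ξ lam • monomial (e.mu fun i => (lam i : ℕ)) 1

lemma totalDegree_mono {Lc : ℕ} (lam : e.I → Fin Lc) :
    (monomial (e.mu fun i => (lam i : ℕ)) (1 : 𝓞 e.K)).totalDegree ≤ (n + 1) * Lc :=
  (totalDegree_monomial_le _ _).trans (e.degree_mu_le lam)

lemma totalDegree_Phi {Lc : ℕ} (ξ : (e.I → Fin Lc) → 𝓞 e.K) :
    (e.Phi ξ).totalDegree ≤ (n + 1) * Lc := by
  apply MvPolynomial.totalDegree_finsetSum_le
  intro lam _
  exact (MvPolynomial.totalDegree_smul_le _ _).trans (e.totalDegree_mono lam)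

lemma NN_Phi {Lc : ℕ} (ξ : (e.I → Fin Lc) → 𝓞 e.K) (τ : e.K →+* ℂ) {A H : ℝ} (hA : 1 ≤ A)
    (hH : ∀ lam, ‖τ (ξ lam : e.K)‖ ≤ H) :
    NN (e.sg τ) A (e.Phi ξ) ≤ (Lc : ℝ) ^ (n + 1) * (H * A ^ ((n + 1) * Lc)) := by
  refine (NN_sum _ hA _ _).trans ?_
  have hcard : (Lc : ℝ) ^ (n + 1) = ∑ _lam : e.I → Fin Lc, (1 : ℝ) := by
    simp [e.cardI]
  rw [hcard, Finset.sum_mul]
  apply Finset.sum_le_sum
  intro lam _
  refine (NN_smul _ hA _ _).trans ?_
  have h1 := NN_monomial (e.sg τ) hA (e.mu fun i => (lam i : ℕ)) (1 : 𝓞 e.K)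
  rw [map_one (e.sg τ), norm_one, one_mul] at h1
  have h2 : A ^ (e.mu fun i => (lam i : ℕ)).degree ≤ A ^ ((n + 1) * Lc) :=
    pow_le_pow_right₀ hA (e.degree_mu_le lam)
  rw [one_mul]
  exact mul_le_mul (hH lam) (h1.trans h2) (NN_nonneg _ hA _) ((norm_nonneg _).trans (hH lam))

/-- bound for the coordinates of the grid points -/
lemma exists_A : ∃ A : ℝ, 1 ≤ A ∧ ∀ (τ : e.K →+* ℂ) (p : e.V) (s : e.Q),
    ‖τ (e.X p s : e.K)‖ ≤ A := by
  obtain ⟨M, hM⟩ := Finite.exists_le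
    (fun z : (e.K →+* ℂ) × e.V × e.Q => ‖z.1 (e.X z.2.1 z.2.2 : e.K)‖)
  exact ⟨max 1 M, le_max_left _ _, fun τ p s => (hM (τ, p, s)).trans (le_max_right _ _)⟩

lemma exists_C (A : ℝ) : ∃ C : ℝ, 1 ≤ C ∧ ∀ (τ : e.K →+* ℂ) (j : Fin n) (p : e.V),
    NN (e.sg τ) A (e.δ j p) ≤ C := by
  obtain ⟨M, hM⟩ := Finite.exists_le
    (fun z : (e.K →+* ℂ) × (Fin n) × e.V => NN (e.sg z.1) A (e.δ z.2.1 z.2.2))
  exact ⟨max 1 M, le_max_left _ _, fun τ p s => (hM (τ, p, s)).trans (le_max_right _ _)⟩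

lemma at_sum {κ : Type*} (t : Finset κ) (a : κ → 𝓞 e.K) (Φ : κ → MvPolynomial e.V (𝓞 e.K))
    (s : e.Q) : e.at' s (∑ k ∈ t, a k • Φ k) = ∑ k ∈ t, a k * e.at' s (Φ k) := by
  simp [at', map_sum, MvPolynomial.smul_eval]

lemma at_PL_Phi {Lc : ℕ} (ξ : (e.I → Fin Lc) → 𝓞 e.K) (s : e.Q) (l : List (Fin n)) :
    e.at' s (PL e.δ l (e.Phi ξ)) =
      ∑ lam, ξ lam * e.at' s (PL e.δ l (monomial (e.mu fun i => (lam i : ℕ)) 1)) := by
  rw [Phi, PL_sum, at_sum]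

/-- size of the values -/
lemma norm_at_le {A : ℝ} (hA : 1 ≤ A)
    (hX : ∀ (τ : e.K →+* ℂ) (p : e.V) (s : e.Q), ‖τ (e.X p s : e.K)‖ ≤ A)
    {C : ℝ} (hC : 1 ≤ C) (hδ : ∀ (τ : e.K →+* ℂ) (j : Fin n) (p : e.V),
      NN (e.sg τ) A (e.δ j p) ≤ C) (τ : e.K →+* ℂ) (s : e.Q) (l : List (Fin n))
    (Φ : MvPolynomial e.V (𝓞 e.K)) (M : ℕ) (hM : Φ.totalDegree + l.length ≤ M) :
    ‖τ (e.at' s (PL e.δ l Φ) : e.K)‖ ≤ (C * M) ^ l.length * NN (e.sg τ) A Φ := by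
  refine (norm_eval_le (e.sg τ) hA (fun p => e.X p s) (fun p => hX τ p s) _).trans ?_
  exact NN_PL e.δ (e.sg τ) hA (by linarith) (fun j p => e.hδ j p) (fun j p => hδ τ j p) Φ
    Φ.totalDegree M l hM

/-- from the standard lists to all lists -/
lemma ord_of_lst (Φ : MvPolynomial e.V (𝓞 e.K)) (s : e.Q) (T : ℕ)
    (h : ∀ τ : Fin n → Fin T, e.at' s (PL e.δ (lst fun j => (τ j : ℕ)) Φ) = 0) :
    Ord (e.Fn Φ) (e.pt s) T := by
  classical
  intro l hl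
  apply DL_zero_of_spans e.isOpen_O (e.ptO s) (e.analytic_Fn Φ) e.v e.spans_v l.length _ l rfl
  intro l' hl'
  have h1 : ∀ j, l'.count j < T := fun j => (List.count_le_length).trans_lt (by rw [hl']; exact hl)
  rw [DL_perm e.isOpen_O (e.analytic_Fn Φ) ((perm_lst l').map e.v) (e.ptO s), e.DL_Fn]
  have h2 := h (fun j => ⟨l'.count j, h1 j⟩)
  rw [h2, map_zero]

/-- Siegel's lemma -/
theorem siegel_step (hn : 0 < n) {A : ℝ} (hA : 1 ≤ A)
    (hX : ∀ (τ : e.K →+* ℂ) (p : e.V) (s : e.Q), ‖τ (e.X p s : e.K)‖ ≤ A)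
    {C : ℝ} (hC : 1 ≤ C) (hδ : ∀ (τ : e.K →+* ℂ) (j : Fin n) (p : e.V),
      NN (e.sg τ) A (e.δ j p) ≤ C) :
    ∃ K₁ : ℝ, 1 ≤ K₁ ∧ ∀ t : ℕ, 0 < t → 2 ≤ t →
      ∃ ξ : (e.I → Fin (2 * t ^ n)) → 𝓞 e.K, ξ ≠ 0 ∧
        Ord (e.Fn (e.Phi ξ)) (e.pt e.q0) (t ^ (n + 1)) ∧
        ∀ m : ℕ, t ^ (n + 1) ≤ m → ∀ (τ : e.K →+* ℂ) lam,
          ‖τ (ξ lam : e.K)‖ ≤ K₁ ^ m * (m : ℝ) ^ (n * m) := by
  classical
  obtain ⟨C₀, hC₀, hsieg⟩ := H297R2.siegel e.K
  refine ⟨C₀ ^ 2 * 2 ^ (n + 1) * (C * (2 * n + 1)) ^ n * A ^ (n + 1), ?_, ?_⟩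
  · have h1 : (1 : ℝ) ≤ C₀ ^ 2 := one_le_pow₀ hC₀
    have h2 : (1 : ℝ) ≤ 2 ^ (n + 1) := one_le_pow₀ (by norm_num)
    have h3 : (1 : ℝ) ≤ C * (2 * n + 1) := by
      have : (0 : ℝ) ≤ n := Nat.cast_nonneg n
      nlinarith
    have h4 : (1 : ℝ) ≤ (C * (2 * n + 1)) ^ n := one_le_pow₀ h3
    have h5 : (1 : ℝ) ≤ A ^ (n + 1) := one_le_pow₀ hA
    calc (1 : ℝ) = 1 * 1 * 1 * 1 := by ring
      _ ≤ _ := by gcongr
  intro t ht htS
  set Lc : ℕ := 2 * t ^ n with hLc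
  set T : ℕ := t ^ (n + 1) with hT
  have hLT : Lc ≤ T := by
    rw [hLc, hT, pow_succ, mul_comm (t ^ n) t]
    exact Nat.mul_le_mul_right _ htS
  have hTpos : 0 < T := pow_pos ht _
  have hLpos : 0 < Lc := by positivity
  set M : ℕ := (n + 1) * Lc + n * T with hM
  have hCM : 1 ≤ C * (M : ℝ) := by
    have : (1 : ℝ) ≤ M := by
      have : 0 < M := by positivity
      exact_mod_cast this
    nlinarith
  set B : ℝ := (C * M) ^ (n * T) * A ^ ((n + 1) * Lc) with hB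
  have hB1 : 1 ≤ B := by
    have h1 : 1 ≤ (C * (M : ℝ)) ^ (n * T) := one_le_pow₀ hCM
    have h2 : 1 ≤ A ^ ((n + 1) * Lc) := one_le_pow₀ hA
    nlinarith
  set a : Matrix (Fin n → Fin T) (e.I → Fin Lc) (𝓞 e.K) :=
    fun st lam => e.at' e.q0 (PL e.δ (lst fun j => (st j : ℕ)) (monomial (e.mu fun i => (lam i : ℕ)) 1))
    with ha
  have habs : ∀ k l, house (a k l : e.K) ≤ B := by
    intro k l
    apply e.house_le (by linarith)
    intro τ
    have hlen : (lst fun j => (k j : ℕ)).length ≤ n * T := by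
      rw [length_lst]
      calc ∑ j, (k j : ℕ) ≤ ∑ _j : Fin n, T := Finset.sum_le_sum fun j _ => (k j).2.le
        _ = n * T := by simp
    refine (e.norm_at_le hA hX hC hδ τ e.q0 _ _ M ?_).trans ?_
    · have := e.totalDegree_mono l
      omega
    · have h1 := NN_monomial (e.sg τ) hA (e.mu fun i => (l i : ℕ)) (1 : 𝓞 e.K)
      rw [map_one (e.sg τ), norm_one, one_mul] at h1
      apply mul_le_mul
      · exact pow_le_pow_right₀ hCM hlen
      · exact h1.trans (pow_le_pow_right₀ hA (e.degree_mu_le l))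
      · exact NN_nonneg _ hA _
      · positivity
  -- cardinalities
  have hcα : Fintype.card (Fin n → Fin T) = T ^ n := by
    simp
  have hcβ : Fintype.card (e.I → Fin Lc) = Lc ^ (n + 1) := by
    simp [e.cardI]
  have hα0 : 0 < Fintype.card (Fin n → Fin T) := by
    rw [hcα]; positivity
  have hαβ : 2 * Fintype.card (Fin n → Fin T) ≤ Fintype.card (e.I → Fin Lc) := by
    rw [hcα, hcβ, hLc, hT, mul_pow, ← pow_mul, ← pow_mul]
    have e1 : (n + 1) * n = n * (n + 1) := by ring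
    rw [e1]
    have h1 : 2 ≤ 2 ^ (n + 1) := by
      calc 2 = 2 ^ 1 := by norm_num
        _ ≤ 2 ^ (n + 1) := Nat.pow_le_pow_right (by norm_num) (by omega)
    exact Nat.mul_le_mul_right _ h1
  obtain ⟨ξ, hξ0, hξa, hξb⟩ : ∃ ξ : (e.I → Fin Lc) → 𝓞 e.K, ξ ≠ 0 ∧ a.mulVec ξ = 0 ∧
      ∀ l, house (ξ l : e.K) ≤ C₀ * (C₀ * Fintype.card (e.I → Fin Lc) * B) := by
    by_cases ha0 : a = 0
    · refine ⟨fun _ => 1, ?_, ?_, ?_⟩
      · intro h
        have := congrFun h (fun _ => ⟨0, hLpos⟩)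
        simp at this
      · rw [ha0, Matrix.zero_mulVec]
      · intro l
        have h1 : house (((1 : 𝓞 e.K) : 𝓞 e.K) : e.K) ≤ 1 := by
          apply e.house_le zero_le_one
          intro τ
          simp
        refine h1.trans ?_
        have h2 : (1 : ℝ) ≤ (Fintype.card (e.I → Fin Lc) : ℕ) := by
          rw [hcβ]
          have : 0 < Lc ^ (n + 1) := by positivity
          exact_mod_cast this
        calc (1 : ℝ) = 1 * (1 * 1 * 1) := by ring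
          _ ≤ _ := by gcongr
    · exact hsieg _ _ a ha0 hα0 hαβ B hB1 habs
  refine ⟨ξ, hξ0, ?_, ?_⟩
  · apply e.ord_of_lst
    intro τ
    rw [e.at_PL_Phi]
    have := congrFun hξa τ
    simp only [Matrix.mulVec, dotProduct, Pi.zero_apply] at this
    rw [← this]
    apply Finset.sum_congr rfl
    intro lam _
    rw [mul_comm]
  · intro m hm τ lam
    have hm1 : 1 ≤ m := hTpos.trans_le hm
    have hmR : (1 : ℝ) ≤ m := by exact_mod_cast hm1
    have hLm : Lc ≤ m := hLT.trans hm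
    refine (norm_embedding_le_house _ τ).trans ((hξb lam).trans ?_)
    rw [hcβ]
    have h1 : ((Lc ^ (n + 1) : ℕ) : ℝ) ≤ (2 ^ (n + 1)) ^ m := by
      have h2 : Lc < 2 ^ m := hLm.trans_lt (Nat.lt_two_pow_self)
      have h3 : Lc ^ (n + 1) ≤ (2 ^ m) ^ (n + 1) := Nat.pow_le_pow_left h2.le _
      have h4 : (2 ^ m) ^ (n + 1) = (2 ^ (n + 1)) ^ m := by
        rw [← pow_mul, ← pow_mul, mul_comm]
      rw [h4] at h3
      exact_mod_cast h3
    have h2 : B ≤ ((C * (2 * n + 1)) ^ n * A ^ (n + 1)) ^ m * (m : ℝ) ^ (n * m) := by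
      have hMm : (M : ℝ) ≤ (2 * n + 1) * m := by
        have : M ≤ (2 * n + 1) * m := by
          rw [hM]
          calc (n + 1) * Lc + n * T ≤ (n + 1) * m + n * m :=
                add_le_add (Nat.mul_le_mul_left _ hLm) (Nat.mul_le_mul_left _ hm)
            _ = (2 * n + 1) * m := by ring
        exact_mod_cast this
      have h3 : (C * (M : ℝ)) ^ (n * T) ≤ (C * (2 * n + 1) * m) ^ (n * m) := by
        calc (C * (M : ℝ)) ^ (n * T) ≤ (C * (M : ℝ)) ^ (n * m) :=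
              pow_le_pow_right₀ hCM (Nat.mul_le_mul_left _ hm)
          _ ≤ (C * (2 * n + 1) * m) ^ (n * m) := by
              apply pow_le_pow_left₀ (by linarith)
              rw [mul_assoc]
              exact mul_le_mul_of_nonneg_left hMm (by linarith)
      have h4 : A ^ ((n + 1) * Lc) ≤ A ^ ((n + 1) * m) :=
        pow_le_pow_right₀ hA (Nat.mul_le_mul_left _ hLm)
      calc B ≤ (C * (2 * n + 1) * m) ^ (n * m) * A ^ ((n + 1) * m) := by
            rw [hB]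
            gcongr
        _ = _ := by
            rw [mul_pow (C * (2 * (n : ℝ) + 1)) (m : ℝ), pow_mul (C * (2 * (n : ℝ) + 1)), pow_mul A, mul_pow]
            ring
    have h3 : C₀ ^ 2 ≤ (C₀ ^ 2) ^ m := by
      have h5 : (1 : ℝ) ≤ C₀ ^ 2 := one_le_pow₀ hC₀
      calc C₀ ^ 2 = (C₀ ^ 2) ^ 1 := (pow_one _).symm
        _ ≤ (C₀ ^ 2) ^ m := pow_le_pow_right₀ h5 hm1
    calc C₀ * (C₀ * ((Lc ^ (n + 1) : ℕ) : ℝ) * B) = C₀ ^ 2 * ((Lc ^ (n + 1) : ℕ) : ℝ) * B := by ring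
      _ ≤ (C₀ ^ 2) ^ m * (2 ^ (n + 1)) ^ m *
          (((C * (2 * n + 1)) ^ n * A ^ (n + 1)) ^ m * (m : ℝ) ^ (n * m)) := by
        gcongr
      _ = _ := by
        rw [mul_pow, mul_pow, mul_pow, mul_pow]
        ring

end PD

end Pool.Agent.K9h14
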