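import Pool.Agent.K9h14.P1

set_option autoImplicit false
set_option linter.unusedVariables false
set_option linter.unusedSectionVars false

/-!
# Extrapolation on the division points of a period
-/

open Filter MvPolynomial NumberField
open scoped Topology

noncomputable section

namespace Pool.Agent.K9h14

open Pool.Agent.W245.EB

/-- analytic data -/
structure PT {n : ℕ} (e : PD n) where
  Th : (Fin n → ℂ) → ℂ
  A : e.I → (Fin n → ℂ) → ℂ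
  an_Th : AnalyticOnNhd ℂ Th Set.univ
  an_A : ∀ i, AnalyticOnNhd ℂ (A i) Set.univ
  gr_Th : GrE Th
  gr_A : ∀ i, GrE (A i)
  hTh : ∀ i, ∀ z ∈ e.O, Th z * e.val (e.b i) z = A i z
  Th_ne : ∀ s, Th (e.pt s) ≠ 0
  γ : Fin n → ℂ
  r : e.Q → ℂ
  hr : ∀ s, ‖r s‖ ≤ 1
  hpt : ∀ s, e.pt s = r s • γ
  r0 : r e.q0 = 0
  quasi : ∀ j : ℤ, ∃ J : (Fin n → ℂ) → ℂ, AnalyticOnNhd ℂ J Set.univ ∧
    ∀ z, Th (z + (j : ℂ) • γ) = J z * Th z ∧ ∀ i, A i (z + (j : ℂ) • γ) = J z * A i z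

namespace PD

variable {n : ℕ} (e : PD n)

lemma emb_injective : Function.Injective e.emb := by
  have h1 : Function.Injective e.ph := e.ph.injective
  have h2 : Function.Injective (algebraMap (𝓞 e.K) e.K) := FaithfulSMul.algebraMap_injective _ _
  exact h1.comp h2

lemma Fn_eq {Lc : ℕ} (ξ : (e.I → Fin Lc) → 𝓞 e.K) (z : Fin n → ℂ) :
    e.Fn (e.Phi ξ) z = ∑ lam : e.I → Fin Lc, e.emb (ξ lam) * ∏ i,
      (e.val (e.b i) z) ^ (lam i : ℕ) := by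
  simp only [Fn, ev, Phi]
  rw [MvPolynomial.eval₂_sum]
  apply Finset.sum_congr rfl
  intro lam _
  rw [MvPolynomial.smul_eq_C_mul, MvPolynomial.eval₂_mul, MvPolynomial.eval₂_C]
  congr 1
  rw [mu, MvPolynomial.monomial_sum_one, MvPolynomial.eval₂_prod]
  apply Finset.prod_congr rfl
  intro i _
  rw [MvPolynomial.eval₂_monomial, map_one, one_mul]
  exact Finsupp.prod_single_index (pow_zero _)

lemma one_le_norm (x : 𝓞 e.K) (hx : x ≠ 0) {H : ℝ} (hH0 : 0 ≤ H) (hH : ∀ τ : e.K →+* ℂ, ‖τ (x : e.K)‖ ≤ H) :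
    1 ≤ ‖e.ph (x : e.K)‖ * H ^ (Module.finrank ℚ e.K - 1) := by
  have h1 := norm_norm_le_norm_mul_house_pow (x : e.K) e.ph
  have h2 : (1 : ℝ) ≤ ‖Algebra.norm ℚ (x : e.K)‖ := by
    have h3 : ((Algebra.norm ℤ x : ℤ) : ℚ) = Algebra.norm ℚ (x : e.K) := Algebra.coe_norm_int x
    rw [← h3]
    have h4 : Algebra.norm ℤ x ≠ 0 := by
      rw [Algebra.norm_ne_zero_iff]
      exact hx
    have h5 : (1 : ℝ) ≤ |((Algebra.norm ℤ x : ℤ) : ℝ)| := by
      have := Int.one_le_abs h4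
      exact_mod_cast this
    have h6 : ‖((Algebra.norm ℤ x : ℤ) : ℚ)‖ = |((Algebra.norm ℤ x : ℤ) : ℝ)| := by
      rw [← Real.norm_eq_abs]
      simp only [Rat.norm_cast_real, Int.norm_cast_rat]
      exact Int.norm_eq_abs _
    rw [h6]
    exact h5
  refine h2.trans (h1.trans ?_)
  apply mul_le_mul_of_nonneg_left _ (norm_nonneg _)
  exact pow_le_pow_left₀ (house_nonneg _) (e.house_le hH0 hH) _

end PD

namespace PT

variable {n : ℕ} {e : PD n} (p : PT e)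

/-- the entire function -/
def G {Lc : ℕ} (ξ : (e.I → Fin Lc) → 𝓞 e.K) (z : Fin n → ℂ) : ℂ :=
  ∑ lam : e.I → Fin Lc, e.emb (ξ lam) * ∏ i,
    ((p.A i z) ^ (lam i : ℕ) * (p.Th z) ^ (Lc - lam i))

lemma G_eq {Lc : ℕ} (ξ : (e.I → Fin Lc) → 𝓞 e.K) {z : Fin n → ℂ} (hz : z ∈ e.O) :
    p.G ξ z = (p.Th z) ^ ((n + 1) * Lc) * e.Fn (e.Phi ξ) z := by
  rw [PD.Fn_eq, G, Finset.mul_sum]
  apply Finset.sum_congr rfl
  intro lam _
  rw [mul_left_comm]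
  congr 1
  have h1 : (p.Th z) ^ ((n + 1) * Lc) = ∏ _i : e.I, (p.Th z) ^ Lc := by
    rw [Finset.prod_const, Finset.card_univ, e.cardI, ← pow_mul, mul_comm]
  rw [h1, ← Finset.prod_mul_distrib]
  apply Finset.prod_congr rfl
  intro i _
  rw [← p.hTh i z hz]
  have h2 : p.Th z ^ Lc = p.Th z ^ (Lc - (lam i : ℕ)) * p.Th z ^ (lam i : ℕ) := by
    rw [← pow_add, Nat.sub_add_cancel (lam i).2.le]
  rw [h2, mul_pow]
  ring

lemma analytic_G {Lc : ℕ} (ξ : (e.I → Fin Lc) → 𝓞 e.K) :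
    AnalyticOnNhd ℂ (p.G ξ) Set.univ := by
  intro z _
  apply Finset.analyticAt_fun_sum
  intro lam _
  apply analyticAt_const.fun_mul
  apply Finset.analyticAt_fun_prod
  intro i _
  apply AnalyticAt.fun_mul
  · apply AnalyticAt.fun_pow
    exact p.an_A i z (Set.mem_univ _)
  · apply AnalyticAt.fun_pow
    exact p.an_Th z (Set.mem_univ _)

lemma G_eqOn {Lc : ℕ} (ξ : (e.I → Fin Lc) → 𝓞 e.K) :
    Set.EqOn (p.G ξ) (fun z => (p.Th z) ^ ((n + 1) * Lc) * e.Fn (e.Phi ξ) z) e.O :=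
  fun z hz => p.G_eq ξ hz

/-- quasi-periodicity -/
lemma G_add {Lc : ℕ} (ξ : (e.I → Fin Lc) → 𝓞 e.K) (j : ℤ) : ∃ J : (Fin n → ℂ) → ℂ,
    AnalyticOnNhd ℂ J Set.univ ∧ ∀ z, p.G ξ (z + (j : ℂ) • p.γ) = J z * p.G ξ z := by
  obtain ⟨J, hJ, h⟩ := p.quasi j
  refine ⟨fun z => J z ^ ((n + 1) * Lc), fun z hz => (hJ z hz).fun_pow _, fun z => ?_⟩
  rw [G, G, Finset.mul_sum]
  apply Finset.sum_congr rfl
  intro lam _
  rw [mul_left_comm]
  congr 1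
  beta_reduce
  have h1 : (J z) ^ ((n + 1) * Lc) = ∏ _i : e.I, (J z) ^ Lc := by
    rw [Finset.prod_const, Finset.card_univ, e.cardI, ← pow_mul, mul_comm]
  rw [h1, ← Finset.prod_mul_distrib]
  apply Finset.prod_congr rfl
  intro i _
  rw [(h z).1, (h z).2]
  have h2 : J z ^ Lc = J z ^ (lam i : ℕ) * J z ^ (Lc - (lam i : ℕ)) := by
    rw [← pow_add, Nat.add_sub_cancel' (lam i).2.le]
  rw [h2, mul_pow, mul_pow]
  ring

lemma DL_translate {f : (Fin n → ℂ) → ℂ} (c : Fin n → ℂ) (l : List (Fin n → ℂ)) (z : Fin n → ℂ) :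
    DL l (fun x => f (x + c)) z = DL l f (z + c) := by
  induction l generalizing z with
  | nil => rfl
  | cons v l ih =>
    have h1 : DL l (fun x => f (x + c)) = fun z => DL l f (z + c) := funext ih
    rw [DL_cons, h1, DL_cons]
    change fderiv ℂ (fun z => DL l f (z + c)) z v = _
    rw [fderiv_comp_add_right]
    rfl

lemma ord_int {Lc : ℕ} (ξ : (e.I → Fin Lc) → 𝓞 e.K) {T : ℕ}
    (h : Ord (e.Fn (e.Phi ξ)) (e.pt e.q0) T) (j : ℤ) : Ord (p.G ξ) ((j : ℂ) • p.γ) T := by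
  have h0 : e.pt e.q0 = 0 := by rw [p.hpt, p.r0, zero_smul]
  have h1 : Ord (p.G ξ) 0 T := by
    intro l hl
    rw [← h0, DL_congr e.isOpen_O (p.G_eqOn ξ) l (e.ptO _)]
    exact (ord_mul e.isOpen_O (e.ptO _) T (fun z => (p.Th z) ^ ((n + 1) * Lc)) (e.Fn (e.Phi ξ))
      (fun z hz => (p.an_Th z trivial).fun_pow _) (e.analytic_Fn _) h).1 l hl
  obtain ⟨J, hJ, hJ1⟩ := p.G_add ξ j
  intro l hl
  have h2 := DL_translate (f := p.G ξ) ((j : ℂ) • p.γ) l 0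
  rw [zero_add] at h2
  rw [← h2]
  have h3 : (fun x => p.G ξ (x + (j : ℂ) • p.γ)) = fun z => J z * p.G ξ z := funext hJ1
  rw [h3]
  exact (ord_mul isOpen_univ (Set.mem_univ _) T J (p.G ξ) hJ (p.analytic_G ξ) h1).1 l hl

lemma exists_growth : ∃ E : ℝ, 0 ≤ E ∧ (∀ z, ‖p.Th z‖ ≤ Real.exp (E * (1 + ‖z‖ ^ 3))) ∧
    ∀ (i : e.I) z, ‖p.A i z‖ ≤ Real.exp (E * (1 + ‖z‖ ^ 3)) := by
  obtain ⟨C0, hC0, hC0'⟩ := p.gr_Th
  choose C hC hC' using p.gr_A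
  obtain ⟨M, hM⟩ := Finite.exists_le (fun i => C i)
  refine ⟨max C0 M, hC0.trans (le_max_left _ _), fun z => ?_, fun i z => ?_⟩
  · have h0 : 0 ≤ 1 + ‖z‖ ^ 3 := by positivity
    exact (hC0' z).trans (Real.exp_le_exp.mpr (mul_le_mul_of_nonneg_right (le_max_left _ _) h0))
  · have h0 : 0 ≤ 1 + ‖z‖ ^ 3 := by positivity
    exact (hC' i z).trans (Real.exp_le_exp.mpr (mul_le_mul_of_nonneg_right
      ((hM i).trans (le_max_right _ _)) h0))

/-- growth of `G` -/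
lemma norm_G_le {E : ℝ} (hE : 0 ≤ E) (hE0 : ∀ z, ‖p.Th z‖ ≤ Real.exp (E * (1 + ‖z‖ ^ 3)))
    (hEg : ∀ (i : e.I) z, ‖p.A i z‖ ≤ Real.exp (E * (1 + ‖z‖ ^ 3)))
    {Lc : ℕ} (ξ : (e.I → Fin Lc) → 𝓞 e.K) {H : ℝ} (hH : ∀ lam, ‖e.emb (ξ lam)‖ ≤ H)
    (z : Fin n → ℂ) :
    ‖p.G ξ z‖ ≤ (Lc : ℝ) ^ (n + 1) * (H * Real.exp (E * (1 + ‖z‖ ^ 3)) ^ ((n + 1) * Lc)) := by
  have hcard : (Lc : ℝ) ^ (n + 1) = ∑ _lam : e.I → Fin Lc, (1 : ℝ) := by
    simp [e.cardI]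
  rw [hcard, Finset.sum_mul, G]
  refine (norm_sum_le _ _).trans ?_
  apply Finset.sum_le_sum
  intro lam _
  rw [one_mul, norm_mul]
  apply mul_le_mul (hH lam) _ (norm_nonneg _) ((norm_nonneg _).trans (hH lam))
  rw [norm_prod]
  set X := Real.exp (E * (1 + ‖z‖ ^ 3)) with hX
  have hX0 : 0 ≤ X := Real.exp_nonneg _
  calc ∏ i, ‖(p.A i z) ^ (lam i : ℕ) * (p.Th z) ^ (Lc - lam i)‖ ≤ ∏ _i : e.I, X ^ Lc := by
        apply Finset.prod_le_prod
        · intro i _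
          exact norm_nonneg _
        · intro i _
          rw [norm_mul, norm_pow, norm_pow]
          calc _ ≤ X ^ (lam i : ℕ) * X ^ (Lc - (lam i : ℕ)) := by
                apply mul_le_mul (pow_le_pow_left₀ (norm_nonneg _) (hEg i z) _)
                  (pow_le_pow_left₀ (norm_nonneg _) (hE0 z) _) (by positivity) (by positivity)
            _ = X ^ Lc := by
                rw [← pow_add]
                congr 1
                have := (lam i).2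
                omega
    _ = X ^ ((n + 1) * Lc) := by
        rw [Finset.prod_const, Finset.card_univ, e.cardI, ← pow_mul, mul_comm Lc]

/-- a lower bound for the denominator -/
lemma exists_theta_bound : ∃ v : ℝ, 0 < v ∧ v ≤ 1 ∧ ∀ s : e.Q, v ≤ ‖p.Th (e.pt s)‖ := by
  obtain ⟨M, hM⟩ := Finite.exists_le (fun s : e.Q => (‖p.Th (e.pt s)‖)⁻¹)
  have hM1 : 0 < max 1 M := lt_of_lt_of_le one_pos (le_max_left _ _)
  refine ⟨(max 1 M)⁻¹, inv_pos.2 hM1, inv_le_one_of_one_le₀ (le_max_left _ _), ?_⟩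
  intro s
  have hpos : 0 < ‖p.Th (e.pt s)‖ := norm_pos_iff.2 (p.Th_ne s)
  rw [inv_le_comm₀ hM1 hpos]
  exact (hM s).trans (le_max_right _ _)

/-- **the upper bound** -/
theorem upper {E : ℝ} (hE : 0 ≤ E) (hE0 : ∀ z, ‖p.Th z‖ ≤ Real.exp (E * (1 + ‖z‖ ^ 3)))
    (hEg : ∀ (i : e.I) z, ‖p.A i z‖ ≤ Real.exp (E * (1 + ‖z‖ ^ 3))) {V : ℝ} (hV1 : 1 ≤ V)
    {Lc T m N : ℕ} (ξ : (e.I → Fin Lc) → 𝓞 e.K) {H : ℝ} (hH0 : 0 ≤ H)
    (hH : ∀ lam, ‖e.emb (ξ lam)‖ ≤ H)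
    (hord : Ord (e.Fn (e.Phi ξ)) (e.pt e.q0) T) (hmT : m ≤ T) (l : List (Fin n → ℂ))
    (hl : l.length = m) (hlV : ∀ v ∈ l, ‖v‖ ≤ V) (r : ℂ) (hr : ‖r‖ ≤ 1) :
    ‖DL l (p.G ξ) (r • p.γ)‖ ≤ (1 / 2) ^ ((T - m) * (2 * N + 1)) * ((V * (m + 1)) ^ m *
      ((Lc : ℝ) ^ (n + 1) * (H * Real.exp (E * (1 + (4 * (N + 1) * ‖p.γ‖ + 1) ^ 3)) ^
        ((n + 1) * Lc)))) := by
  classical
  set R : ℝ := 4 * (N + 1) with hR
  have hR0 : 0 < R := by positivity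
  set Bs := (Lc : ℝ) ^ (n + 1) * (H * Real.exp (E * (1 + (4 * (N + 1) * ‖p.γ‖ + 1) ^ 3)) ^
        ((n + 1) * Lc)) with hBs
  have hcirc : ∀ t : ℂ, ‖t‖ = R → ‖DL l (p.G ξ) (0 + t • p.γ)‖ ≤ (V * (m + 1)) ^ m * Bs := by
    intro t ht
    have h1 := cauchy_DL (p.analytic_G ξ) (V := V) (ρ := 1 / (V * (m + 1))) (M := Bs)
      (by linarith) (by positivity) l hlV (0 + t • p.γ) (by
        intro w' hw'
        refine (p.norm_G_le hE hE0 hEg ξ hH w').trans ?_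
        have h2 : ‖w'‖ ≤ R * ‖p.γ‖ + 1 := by
          calc ‖w'‖ = ‖(w' - (0 + t • p.γ)) + t • p.γ‖ := by congr 1; abel
            _ ≤ ‖w' - (0 + t • p.γ)‖ + ‖t • p.γ‖ := norm_add_le _ _
            _ ≤ 1 + R * ‖p.γ‖ := by
                apply add_le_add
                · refine hw'.trans ?_
                  rw [hl]
                  have h3 : 1 / (V * ((m : ℝ) + 1)) * V * m = m / (m + 1) := by
                    field_simp
                  rw [h3, div_le_one (by positivity)]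
                  linarith
                · rw [norm_smul, ht]
            _ = _ := by ring
        rw [hBs]
        gcongr)
    rw [hl] at h1
    refine h1.trans (le_of_eq ?_)
    rw [one_div, inv_pow, div_inv_eq_mul, mul_comm]
  have hsch := schwarz_pt (fun s : ℂ => DL l (p.G ξ) (0 + s • p.γ))
    (differentiable_line (analytic_DL (p.analytic_G ξ) l) 0 p.γ)
    ((Finset.Icc (-(N : ℤ)) N).image (fun j : ℤ => (j : ℂ))) (T - m)
    (by
      intro x hx k hk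
      obtain ⟨j, _, rfl⟩ := Finset.mem_image.1 hx
      rw [iteratedDeriv_line (analytic_DL (p.analytic_G ξ) l), zero_add, ← DL_append]
      apply p.ord_int ξ hord j
      rw [List.length_append, List.length_replicate, hl]
      omega) R ((V * (m + 1)) ^ m * Bs) hR0 (by
      intro x hx
      obtain ⟨j, hj, rfl⟩ := Finset.mem_image.1 hx
      rw [Finset.mem_Icc] at hj
      rw [Complex.norm_intCast]
      have h2 : |j| ≤ N := abs_le.2 hj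
      have h3 : ((|j| : ℤ) : ℝ) ≤ N := by exact_mod_cast h2
      rw [Int.cast_abs] at h3
      rw [hR]
      have : (0 : ℝ) ≤ N := Nat.cast_nonneg N
      linarith) hcirc r (by
      rw [hR]
      have : (0 : ℝ) ≤ N := Nat.cast_nonneg N
      linarith)
  rw [zero_add] at hsch
  have hcard : ((Finset.Icc (-(N : ℤ)) N).image (fun j : ℤ => (j : ℂ))).card = 2 * N + 1 := by
    rw [Finset.card_image_of_injective _ Int.cast_injective, Int.card_Icc]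
    omega
  rw [hcard] at hsch
  have hprod : ∏ x ∈ (Finset.Icc (-(N : ℤ)) N).image (fun j : ℤ => (j : ℂ)), ‖r - x‖ ^ (T - m) ≤
      ((N : ℝ) + 1) ^ ((T - m) * (2 * N + 1)) := by
    calc ∏ x ∈ (Finset.Icc (-(N : ℤ)) N).image (fun j : ℤ => (j : ℂ)), ‖r - x‖ ^ (T - m)
        ≤ ∏ _x ∈ (Finset.Icc (-(N : ℤ)) N).image (fun j : ℤ => (j : ℂ)),
          ((N : ℝ) + 1) ^ (T - m) := by
          apply Finset.prod_le_prod
          · intro x _
            positivity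
          · intro x hx
            obtain ⟨j, hj, rfl⟩ := Finset.mem_image.1 hx
            rw [Finset.mem_Icc] at hj
            apply pow_le_pow_left₀ (norm_nonneg _)
            refine (norm_sub_le _ _).trans ?_
            rw [Complex.norm_intCast]
            have h2 : |j| ≤ N := abs_le.2 hj
            have h3 : ((|j| : ℤ) : ℝ) ≤ N := by exact_mod_cast h2
            rw [Int.cast_abs] at h3
            linarith
      _ = _ := by rw [Finset.prod_const, hcard, ← pow_mul]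
  refine hsch.trans ?_
  have hB0 : 0 ≤ (V * ((m : ℝ) + 1)) ^ m * Bs := by
    rw [hBs]
    positivity
  calc (∏ x ∈ (Finset.Icc (-(N : ℤ)) N).image (fun j : ℤ => (j : ℂ)), ‖r - x‖ ^ (T - m)) *
        ((2 / R) ^ ((T - m) * (2 * N + 1)) * ((V * (m + 1)) ^ m * Bs))
      ≤ ((N : ℝ) + 1) ^ ((T - m) * (2 * N + 1)) *
        ((2 / R) ^ ((T - m) * (2 * N + 1)) * ((V * (m + 1)) ^ m * Bs)) := by
        apply mul_le_mul_of_nonneg_right hprod
        positivity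
    _ = (1 / 2) ^ ((T - m) * (2 * N + 1)) * ((V * (m + 1)) ^ m * Bs) := by
        rw [← mul_assoc, ← mul_pow]
        congr 2
        rw [hR]
        field_simp
        norm_num

theorem exists_large (K : ℝ) (b : ℕ) : ∃ N0 : ℕ, ∀ N ≥ N0, K * (2 * ((N : ℝ) + 1) ^ 3) ^ b < 2 ^ N := by
  have h1 := tendsto_pow_const_div_const_pow_of_one_lt (3 * b) (show (1 : ℝ) < 2 by norm_num)
  have h2 := (h1.comp (tendsto_add_atTop_nat 1)).const_mul (2 * |K| * 2 ^ b)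
  rw [mul_zero] at h2
  obtain ⟨N0, hN0⟩ := (h2.eventually (gt_mem_nhds (show (0 : ℝ) < 1 by norm_num))).exists_forall_of_atTop
  refine ⟨N0, fun N hN => ?_⟩
  have h3 := hN0 N hN
  simp only [Function.comp_apply] at h3
  push_cast at h3
  rw [← mul_div_assoc, div_lt_one (by positivity)] at h3
  have h4 : K * (2 * ((N : ℝ) + 1) ^ 3) ^ b ≤ |K| * (2 * ((N : ℝ) + 1) ^ 3) ^ b :=
    mul_le_mul_of_nonneg_right (le_abs_self K) (by positivity)
  have h5 : 2 * (|K| * (2 * ((N : ℝ) + 1) ^ 3) ^ b) = 2 * |K| * 2 ^ b * ((N : ℝ) + 1) ^ (3 * b) := by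
    rw [mul_pow, ← pow_mul]
    ring
  rw [pow_succ] at h3
  linarith

include p in
/-- **the extrapolation** -/
theorem extrapolate (hn : 0 < n) : ∃ N0 : ℕ, ∀ N ≥ N0,
    ∃ ξ : (e.I → Fin (2 * (2 * (N + 1) ^ 3) ^ n)) → 𝓞 e.K, ξ ≠ 0 ∧
      ∀ s : e.Q, Ord (e.Fn (e.Phi ξ)) (e.pt s) ((2 * (N + 1) ^ 3) ^ (n + 1) / 2) := by
  classical
  set δ₀ := Module.finrank ℚ e.K with hδ₀
  have hδ₀pos : 0 < δ₀ := Module.finrank_pos
  obtain ⟨A, hA, hX⟩ := e.exists_A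
  obtain ⟨C, hC, hδ⟩ := e.exists_C A
  obtain ⟨K₁, hK₁, hsieg⟩ := e.siegel_step hn hA hX hC hδ
  obtain ⟨E, hE, hE0, hEg⟩ := p.exists_growth
  obtain ⟨v, hv0, hv1, hv⟩ := p.exists_theta_bound
  obtain ⟨V0, hV0⟩ := Finite.exists_le (fun k : Fin n => ‖e.v k‖)
  set V : ℝ := max 1 V0 with hVdef
  have hV1 : 1 ≤ V := le_max_left _ _
  have hVU : ∀ k, ‖e.v k‖ ≤ V := fun k => (hV0 k).trans (le_max_right _ _)
  have hn0 : (0 : ℝ) ≤ n := Nat.cast_nonneg n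
  set K₂ : ℝ := C * (n + 2) * 2 ^ (n + 1) * K₁ * A ^ (n + 1) with hK₂
  have hK₂1 : 1 ≤ K₂ := by
    have h1 : (1 : ℝ) ≤ n + 2 := by linarith
    have h2 : (1 : ℝ) ≤ 2 ^ (n + 1) := one_le_pow₀ (by norm_num)
    have h3 : (1 : ℝ) ≤ A ^ (n + 1) := one_le_pow₀ hA
    calc (1 : ℝ) = 1 * 1 * 1 * 1 * 1 := by ring
      _ ≤ _ := by rw [hK₂]; gcongr
  set E₁ : ℝ := Real.exp (E * (1 + (4 * ‖p.γ‖ + 1) ^ 3) * (n + 1)) with hE₁
  have hE₁1 : 1 ≤ E₁ := by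
    apply Real.one_le_exp
    positivity
  set K₃ : ℝ := V * 2 ^ (n + 1) * K₁ * E₁ with hK₃
  have hK₃0 : 0 ≤ K₃ := by positivity
  set K₅ : ℝ := (v⁻¹) ^ (n + 1) * K₃ * K₂ ^ (δ₀ - 1) with hK₅
  have hK₅0 : 0 ≤ K₅ := by positivity
  set a := (n + 1) + (n + 1) * (δ₀ - 1) with ha
  obtain ⟨N0, hN0⟩ := exists_large K₅ ((n + 1) * a)
  refine ⟨N0, fun N hN => ?_⟩
  have hbig := hN0 N hN
  set t : ℕ := 2 * (N + 1) ^ 3 with ht
  have htpos : 0 < t := by positivity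
  have ht2 : 2 ≤ t := by
    have : 1 ≤ (N + 1) ^ 3 := Nat.one_le_pow _ _ (by omega)
    omega
  set Lc := 2 * t ^ n with hLc
  have hLpos : 0 < Lc := by positivity
  set T := t ^ (n + 1) with hT
  obtain ⟨ξ, hξ0, hordT, hξH⟩ : ∃ ξ : (e.I → Fin Lc) → 𝓞 e.K, ξ ≠ 0 ∧
      (Ord (e.Fn (e.Phi ξ)) (e.pt e.q0) T) ∧
      ∀ m : ℕ, T ≤ m → ∀ (τ : e.K →+* ℂ) lam,
        ‖τ (ξ lam : e.K)‖ ≤ K₁ ^ m * (m : ℝ) ^ (n * m) := hsieg t htpos ht2
  refine ⟨ξ, hξ0, ?_⟩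
  have hLT : Lc ≤ T := by
    rw [hLc, hT, pow_succ, mul_comm (t ^ n) t]
    exact Nat.mul_le_mul_right _ ht2
  have hTpos : 0 < T := by positivity
  have hTR : (1 : ℝ) ≤ T := by exact_mod_cast hTpos
  by_contra hcon
  push Not at hcon
  obtain ⟨s, hs⟩ := hcon
  -- the exact order of vanishing
  have hex : ∃ m : ℕ, ¬ Ord (e.Fn (e.Phi ξ)) (e.pt s) m := ⟨_, hs⟩
  set m' := Nat.find hex with hm'
  have hm'1 := Nat.find_spec hex
  rw [← hm'] at hm'1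
  have hm'T : m' ≤ T / 2 := Nat.find_min' hex hs
  have hm'0 : m' ≠ 0 := by
    intro h0
    rw [h0] at hm'1
    exact hm'1 fun l hl => absurd hl (Nat.not_lt_zero _)
  obtain ⟨m, hmm'⟩ : ∃ m, m' = m + 1 := ⟨m' - 1, by omega⟩
  have hordm : Ord (e.Fn (e.Phi ξ)) (e.pt s) m := by
    have := Nat.find_min hex (m := m) (by rw [← hm']; omega)
    push Not at this
    exact this
  rw [hmm'] at hm'1
  unfold Pool.Agent.W245.EB.Ord at hm'1
  push Not at hm'1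
  obtain ⟨l, hl, hlne⟩ := hm'1
  have hlm : l.length = m := by
    by_contra hcon
    exact hlne (hordm l (by omega))
  obtain ⟨l', hl', hl'ne⟩ : ∃ l' : List (Fin n), l'.length = m ∧
      DL (l'.map e.v) (e.Fn (e.Phi ξ)) (e.pt s) ≠ 0 := by
    by_contra hcon
    push Not at hcon
    exact hlne (DL_zero_of_spans e.isOpen_O (e.ptO s) (e.analytic_Fn _) e.v e.spans_v m hcon l hlm)
  have hmT : 2 * (T - m) ≥ T := by omega
  have hmT' : m + 1 ≤ T := by omega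
  -- the algebraic integer
  set x := e.at' s (PL e.δ l' (e.Phi ξ)) with hx
  have hxval : DL (l'.map e.v) (e.Fn (e.Phi ξ)) (e.pt s) = e.emb x := e.DL_Fn _ _ _
  have hx0 : x ≠ 0 := by
    intro h
    rw [hxval, h, map_zero] at hl'ne
    exact hl'ne rfl
  set H : ℝ := K₁ ^ T * (T : ℝ) ^ (n * T) with hH
  have hH0 : 0 ≤ H := by positivity
  have hLc2 : (Lc : ℝ) ^ (n + 1) ≤ (2 ^ (n + 1)) ^ T := by
    have h2 : Lc < 2 ^ T := hLT.trans_lt (Nat.lt_two_pow_self)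
    have h3 : Lc ^ (n + 1) ≤ (2 ^ T) ^ (n + 1) := Nat.pow_le_pow_left h2.le _
    have h4 : (2 ^ T) ^ (n + 1) = (2 ^ (n + 1)) ^ T := by
      rw [← pow_mul, ← pow_mul, mul_comm]
    rw [h4] at h3
    exact_mod_cast h3
  have hhouse : ∀ τ : e.K →+* ℂ, ‖τ (x : e.K)‖ ≤ K₂ ^ T * (T : ℝ) ^ ((n + 1) * T) := by
    intro τ
    set M := (n + 1) * Lc + m with hM
    have hMm : (M : ℝ) ≤ (n + 2) * T := by
      have : M ≤ (n + 2) * T := by
        rw [hM]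
        calc (n + 1) * Lc + m ≤ (n + 1) * T + T :=
              add_le_add (Nat.mul_le_mul_left _ hLT) (by omega)
          _ = (n + 2) * T := by ring
      exact_mod_cast this
    have hM1 : (1 : ℝ) ≤ M := by
      have : 1 ≤ M := by
        rw [hM]
        have : 1 ≤ (n + 1) * Lc := Nat.one_le_iff_ne_zero.2 (Nat.mul_ne_zero (by omega) (by omega))
        omega
      exact_mod_cast this
    have h1 := e.norm_at_le hA hX hC hδ τ s l' (e.Phi ξ) M (by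
      have := e.totalDegree_Phi ξ
      omega)
    have h2 := e.NN_Phi ξ τ hA (fun lam => hξH T le_rfl τ lam)
    rw [← hH] at h2
    have h4 : A ^ ((n + 1) * Lc) ≤ (A ^ (n + 1)) ^ T := by
      rw [← pow_mul]
      exact pow_le_pow_right₀ hA (Nat.mul_le_mul_left _ hLT)
    have h5 : NN (e.sg τ) A (e.Phi ξ) ≤ (2 ^ (n + 1)) ^ T * (H * (A ^ (n + 1)) ^ T) := by
      refine h2.trans ?_
      gcongr
    rw [hl'] at h1
    refine h1.trans ?_
    have h6 : (C * (M : ℝ)) ^ m ≤ (C * ((n + 2) * T)) ^ T := by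
      have h7 : 1 ≤ C * (M : ℝ) := by nlinarith
      calc (C * (M : ℝ)) ^ m ≤ (C * (M : ℝ)) ^ T := pow_le_pow_right₀ h7 (by omega)
        _ ≤ _ := by gcongr
    calc (C * (M : ℝ)) ^ m * NN (e.sg τ) A (e.Phi ξ)
        ≤ (C * ((n + 2) * T)) ^ T * ((2 ^ (n + 1)) ^ T * (H * (A ^ (n + 1)) ^ T)) := by
          have : 0 ≤ NN (e.sg τ) A (e.Phi ξ) := NN_nonneg _ hA _
          gcongr
      _ = K₂ ^ T * (T : ℝ) ^ ((n + 1) * T) := by
          rw [hK₂, hH, add_mul n 1 T, one_mul, pow_add]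
          simp only [mul_pow]
          ring
  have hlow := e.one_le_norm x hx0 (by positivity) hhouse
  -- the upper bound
  have hup := p.upper hE hE0 hEg hV1 (N := N) ξ hH0 (fun lam => hξH T le_rfl e.ph lam) hordT
    (show m ≤ T by omega) (l'.map e.v) (by rw [List.length_map, hl']) (by
      intro w hw
      obtain ⟨j, _, rfl⟩ := List.mem_map.1 hw
      exact hVU j) (p.r s) (p.hr s)
  rw [← p.hpt, DL_congr e.isOpen_O (p.G_eqOn ξ) _ (e.ptO _),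
    (ord_mul e.isOpen_O (e.ptO _) m (fun z => (p.Th z) ^ ((n + 1) * Lc)) (e.Fn (e.Phi ξ))
      (fun z hz => (p.an_Th z trivial).fun_pow _) (e.analytic_Fn _) hordm).2 _
      (by rw [List.length_map, hl']), hxval, norm_mul, norm_pow] at hup
  have hexp : Real.exp (E * (1 + (4 * (N + 1) * ‖p.γ‖ + 1) ^ 3)) ^ ((n + 1) * Lc) ≤ E₁ ^ T := by
    rw [← Real.exp_nat_mul, hE₁, ← Real.exp_nat_mul]
    apply Real.exp_le_exp.mpr
    have h1 : (4 * ((N : ℝ) + 1) * ‖p.γ‖ + 1) ^ 3 ≤ (4 * ‖p.γ‖ + 1) ^ 3 * ((N : ℝ) + 1) ^ 3 := by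
      rw [← mul_pow]
      apply pow_le_pow_left₀ (by positivity)
      have : (0 : ℝ) ≤ N := Nat.cast_nonneg N
      nlinarith
    have h2 : ((N : ℝ) + 1) ^ 3 * Lc = T := by
      have h3 : (N + 1) ^ 3 * Lc = T := by
        rw [hLc, hT, pow_succ, ht]
        ring
      exact_mod_cast h3
    have h4 : (1 : ℝ) ≤ ((N : ℝ) + 1) ^ 3 := by
      apply one_le_pow₀
      have : (0 : ℝ) ≤ N := Nat.cast_nonneg N
      linarith
    have h5 : (0 : ℝ) ≤ Lc := Nat.cast_nonneg _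
    have h6 : (1 + (4 * ((N : ℝ) + 1) * ‖p.γ‖ + 1) ^ 3) * Lc ≤ (1 + (4 * ‖p.γ‖ + 1) ^ 3) * T := by
      calc (1 + (4 * ((N : ℝ) + 1) * ‖p.γ‖ + 1) ^ 3) * Lc
          ≤ (((N : ℝ) + 1) ^ 3 + (4 * ‖p.γ‖ + 1) ^ 3 * ((N : ℝ) + 1) ^ 3) * Lc := by gcongr
        _ = (1 + (4 * ‖p.γ‖ + 1) ^ 3) * (((N : ℝ) + 1) ^ 3 * Lc) := by ring
        _ = _ := by rw [h2]
    push_cast
    calc ((n : ℝ) + 1) * Lc * (E * (1 + (4 * (N + 1) * ‖p.γ‖ + 1) ^ 3))
        = E * (n + 1) * ((1 + (4 * ((N : ℝ) + 1) * ‖p.γ‖ + 1) ^ 3) * Lc) := by ring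
      _ ≤ E * (n + 1) * ((1 + (4 * ‖p.γ‖ + 1) ^ 3) * T) := by gcongr
      _ = (T : ℝ) * (E * (1 + (4 * ‖p.γ‖ + 1) ^ 3) * (n + 1)) := by ring
  have hVm : (V * ((m : ℝ) + 1)) ^ m ≤ (V * T) ^ T := by
    have h1 : ((m : ℝ) + 1) ≤ T := by exact_mod_cast hmT'
    have h2 : 1 ≤ V * (T : ℝ) := by nlinarith
    calc (V * ((m : ℝ) + 1)) ^ m ≤ (V * T) ^ m := by
          have : (0 : ℝ) ≤ m := Nat.cast_nonneg m
          gcongr
      _ ≤ _ := pow_le_pow_right₀ h2 (by omega)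
  have hhalf : (1 / 2 : ℝ) ^ ((T - m) * (2 * N + 1)) ≤ (1 / 2) ^ (T * N) := by
    apply pow_le_pow_of_le_one (by norm_num) (by norm_num)
    calc T * N ≤ 2 * (T - m) * N := Nat.mul_le_mul_right _ hmT
      _ = (T - m) * (2 * N) := by ring
      _ ≤ _ := Nat.mul_le_mul_left _ (by omega)
  have hup2 : v ^ ((n + 1) * T) * ‖e.emb x‖ ≤ (1 / 2) ^ (T * N) * (K₃ ^ T * (T : ℝ) ^ ((n + 1) * T)) := by
    have h1 : v ^ ((n + 1) * T) ≤ ‖p.Th (e.pt s)‖ ^ ((n + 1) * Lc) := by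
      calc v ^ ((n + 1) * T) ≤ v ^ ((n + 1) * Lc) :=
            pow_le_pow_of_le_one hv0.le hv1 (Nat.mul_le_mul_left _ hLT)
        _ ≤ _ := pow_le_pow_left₀ hv0.le (hv s) _
    calc v ^ ((n + 1) * T) * ‖e.emb x‖ ≤ ‖p.Th (e.pt s)‖ ^ ((n + 1) * Lc) * ‖e.emb x‖ :=
          mul_le_mul_of_nonneg_right h1 (norm_nonneg _)
      _ ≤ _ := hup
      _ ≤ (1 / 2) ^ (T * N) * ((V * T) ^ T * ((2 ^ (n + 1)) ^ T * (H * E₁ ^ T))) := by
          gcongr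
      _ = _ := by
          rw [hK₃, hH, add_mul n 1 T, one_mul, pow_add]
          simp only [mul_pow]
          ring
  have hmain : (2 : ℝ) ^ (T * N) ≤ (K₅ * (T : ℝ) ^ a) ^ T := by
    set Hx := K₂ ^ T * (T : ℝ) ^ ((n + 1) * T) with hHx
    have hHx0 : 0 ≤ Hx := by positivity
    have hvv : (v⁻¹) ^ ((n + 1) * T) * v ^ ((n + 1) * T) = 1 := by
      rw [← mul_pow, inv_mul_cancel₀ hv0.ne', one_pow]
    have h22 : (2 : ℝ) ^ (T * N) * (1 / 2) ^ (T * N) = 1 := by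
      rw [← mul_pow]
      norm_num
    calc (2 : ℝ) ^ (T * N) = (2 : ℝ) ^ (T * N) * 1 := (mul_one _).symm
      _ ≤ (2 : ℝ) ^ (T * N) * (‖e.ph (x : e.K)‖ * Hx ^ (δ₀ - 1)) :=
          mul_le_mul_of_nonneg_left hlow (by positivity)
      _ = (2 : ℝ) ^ (T * N) * ((v⁻¹) ^ ((n + 1) * T) * (v ^ ((n + 1) * T) * ‖e.emb x‖)) *
          Hx ^ (δ₀ - 1) := by
          rw [← mul_assoc ((v⁻¹) ^ ((n + 1) * T)), hvv, one_mul]
          change _ = (2 : ℝ) ^ (T * N) * ‖e.ph (x : e.K)‖ * Hx ^ (δ₀ - 1)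
          ring
      _ ≤ (2 : ℝ) ^ (T * N) * ((v⁻¹) ^ ((n + 1) * T) *
          ((1 / 2) ^ (T * N) * (K₃ ^ T * (T : ℝ) ^ ((n + 1) * T)))) * Hx ^ (δ₀ - 1) := by
          gcongr
      _ = ((2 : ℝ) ^ (T * N) * (1 / 2) ^ (T * N)) * ((v⁻¹) ^ ((n + 1) * T) *
          ((K₃ ^ T * (T : ℝ) ^ ((n + 1) * T)))) * Hx ^ (δ₀ - 1) := by ring
      _ = (K₅ * (T : ℝ) ^ a) ^ T := by
          rw [h22, one_mul, hK₅, hHx, ha, pow_mul, pow_add]
          rw [mul_pow (K₂ ^ T), ← pow_mul (T : ℝ), ← pow_mul K₂, mul_comm T (δ₀ - 1), pow_mul K₂]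
          rw [pow_mul (T : ℝ) (n + 1) T,
            show (n + 1) * T * (δ₀ - 1) = (n + 1) * (δ₀ - 1) * T by ring,
            pow_mul (T : ℝ) ((n + 1) * (δ₀ - 1)) T]
          simp only [mul_pow]
          ring
  have hfin : (2 : ℝ) ^ N ≤ K₅ * (T : ℝ) ^ a := by
    rw [mul_comm T N, pow_mul] at hmain
    exact le_of_pow_le_pow_left₀ hTpos.ne' (by positivity) hmain
  have hTa : (T : ℝ) ^ a = (2 * ((N : ℝ) + 1) ^ 3) ^ ((n + 1) * a) := by
    rw [hT, ht]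
    push_cast
    rw [← pow_mul]
  rw [hTa] at hfin
  exact absurd hfin (not_le.2 hbig)

end PT

end Pool.Agent.K9h14
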