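import Pool.Agent.K9h14.P2
import Pool.Agent.Y102.Theta3

set_option autoImplicit false
set_option linter.unusedVariables false
set_option linter.unusedSectionVars false

/-!
# Data with algebraic differential equations; separation of the division points of a period
-/

open Filter MvPolynomial NumberField
open scoped Topology

noncomputable section

namespace Pool.Agent.K9h14

open Pool.Agent.W245.EB

/-- A group of periods, theta functions and a quasi-periodic function, with algebraic differential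
equations. -/
structure TD (g : ℕ) extends ZD g where
  δ : Fin g → V → MvPolynomial V ℂ
  δ_alg : ∀ k v m, IsAlgebraic ℚ ((δ k v).coeff m)
  δ_deg : ∀ k v, (δ k v).totalDegree ≤ 2
  δ_D : ∀ k v z, θ0.1 z ≠ 0 → fderiv ℂ (fun z => (θ v).1 z / θ0.1 z) z (Pi.single k 1) =
    MvPolynomial.eval (fun q => (θ q).1 z / θ0.1 z) (δ k v)
  ε : Fin g → MvPolynomial V ℂ
  ε_alg : ∀ k m, IsAlgebraic ℚ ((ε k).coeff m)
  ε_deg : ∀ k, (ε k).totalDegree ≤ 2
  ε_D : ∀ k z, θ0.1 z ≠ 0 → fderiv ℂ (fun z => φ.1 z / θ0.1 z) z (Pi.single k 1) =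
    MvPolynomial.eval (fun q => (θ q).1 z / θ0.1 z) (ε k)
  x0 : ∀ v, IsAlgebraic ℚ ((θ v).1 0 / θ0.1 0)
  ζ0 : IsAlgebraic ℚ (φ.1 0 / θ0.1 0)
  gr0 : GrE θ0.1
  grθ : ∀ v, GrE (θ v).1
  grφ : GrE φ.1

namespace TD

variable {g : ℕ} (d : TD g)

/-- the translations which preserve the functions -/
def LX : AddSubgroup (Fin g → ℂ) where
  carrier := {t | ∀ v z, (d.θ v).1 (z + t) * d.θ0.1 z = d.θ0.1 (z + t) * (d.θ v).1 z}
  zero_mem' := fun v z => by rw [add_zero, mul_comm]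
  add_mem' := by
    intro t t' ht ht' v z
    by_contra hne
    let A : Ent (Fin g) := tr (t + t') (d.θ v) * d.θ0 - tr (t + t') d.θ0 * d.θ v
    let B : Ent (Fin g) := tr t d.θ0
    have hA : A ≠ 0 := by
      rw [ent_ne_iff]
      refine ⟨z, ?_⟩
      change (d.θ v).1 (z + (t + t')) * d.θ0.1 z - d.θ0.1 (z + (t + t')) * (d.θ v).1 z ≠ 0
      exact sub_ne_zero.2 hne
    have hB : B ≠ 0 := by
      rw [ent_ne_iff]
      refine ⟨-t, ?_⟩
      change d.θ0.1 (-t + t) ≠ 0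
      rw [neg_add_cancel]
      exact d.one
    obtain ⟨w, hw⟩ := ent_ne_iff.1 (ent_mul_ne hA hB)
    apply hw
    change ((d.θ v).1 (w + (t + t')) * d.θ0.1 w - d.θ0.1 (w + (t + t')) * (d.θ v).1 w) *
      d.θ0.1 (w + t) = 0
    have h1 := ht v w
    have h2 := ht' v (w + t)
    rw [add_assoc] at h2
    linear_combination d.θ0.1 w * h2 + d.θ0.1 (w + (t + t')) * h1
  neg_mem' := by
    intro t ht v z
    have h1 := ht v (z + -t)
    rw [neg_add_cancel_right] at h1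
    linear_combination -h1

theorem mem_LX {t : Fin g → ℂ} : t ∈ d.LX ↔
    ∀ v z, (d.θ v).1 (z + t) * d.θ0.1 z = d.θ0.1 (z + t) * (d.θ v).1 z := Iff.rfl

theorem L_le_LX : d.L ≤ d.LX := by
  intro l hl v z
  rw [d.qp0 l hl, d.qp l hl]
  ring

/-- the group of translations is discrete -/
theorem disc : ∃ r : ℝ, 0 < r ∧ ∀ t ∈ d.LX, ‖t‖ < r → t = 0 := by
  by_contra hcon
  push Not at hcon
  have h1 : ∀ n : ℕ, ∃ t ∈ d.LX, ‖t‖ < 1 / ((n : ℝ) + 1) ∧ t ≠ 0 := fun n =>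
    hcon _ Nat.one_div_pos_of_nat
  choose t htm ht htne using h1
  have htlim : Tendsto t atTop (𝓝 0) := by
    rw [tendsto_zero_iff_norm_tendsto_zero]
    exact squeeze_zero (fun n => norm_nonneg _) (fun n => (ht n).le)
      tendsto_one_div_add_atTop_nhds_zero_nat
  set u : ℕ → Fin g → ℂ := fun k => ((‖t k‖⁻¹ : ℝ) : ℂ) • t k with hu
  have hu1 : ∀ k, u k ∈ Metric.sphere (0 : Fin g → ℂ) 1 := by
    intro k
    rw [mem_sphere_zero_iff_norm, hu]
    beta_reduce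
    rw [norm_smul, Complex.norm_real, norm_inv, norm_norm,
      inv_mul_cancel₀ (norm_ne_zero_iff.2 (htne k))]
  obtain ⟨w, hw, φ, hφ, hφlim⟩ := (isCompact_sphere (0 : Fin g → ℂ) 1).tendsto_subseq hu1
  have hw0 : w = 0 := by
    apply d.imm
    intro v
    let f : Ent (Fin g) := (d.θ0.1 0) • d.θ v - ((d.θ v).1 0) • d.θ0
    have hf : ∀ z, f.1 z = d.θ0.1 0 * (d.θ v).1 z - (d.θ v).1 0 * d.θ0.1 z := fun z => rfl
    have h1 : HasFDerivAt f.1 (fderiv ℂ f.1 0) 0 := (ediff f 0).hasFDerivAt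
    have h2 := (hasFDerivAt_iff_isLittleO_nhds_zero.1 h1)
    have h3 := h2.comp_tendsto (htlim.comp hφ.tendsto_atTop)
    have h4 : (fun k => (fderiv ℂ f.1 0) (t (φ k))) =o[atTop] (fun k => t (φ k)) := by
      have h5 : ((fun h => f.1 (0 + h) - f.1 0 - (fderiv ℂ f.1 0) h) ∘ (t ∘ φ)) =
          fun k => -((fderiv ℂ f.1 0) (t (φ k))) := by
        funext k
        simp only [Function.comp_apply]
        have h6 := htm (φ k) v 0
        rw [hf, hf]
        linear_combination h6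
      rw [h5] at h3
      exact (Asymptotics.isLittleO_neg_left.1 h3)
    have h5 : Tendsto (fun k => (fderiv ℂ f.1 0) (u (φ k))) atTop (𝓝 0) := by
      have h6 := (Asymptotics.isLittleO_iff_tendsto' (f := fun k => ‖(fderiv ℂ f.1 0) (t (φ k))‖)
        (g := fun k => ‖t (φ k)‖) (l := atTop) (Filter.Eventually.of_forall fun k hk =>
          absurd (norm_eq_zero.1 hk) (htne _))).1 h4.norm_norm
      rw [tendsto_zero_iff_norm_tendsto_zero]
      refine h6.congr fun k => ?_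
      rw [hu]
      beta_reduce
      rw [map_smul, norm_smul, Complex.norm_real, norm_inv, norm_norm]
      ring
    have h6 : Tendsto (fun k => (fderiv ℂ f.1 0) (u (φ k))) atTop
        (𝓝 ((fderiv ℂ f.1 0) w)) := ((fderiv ℂ f.1 0).continuous.tendsto w).comp hφlim
    have h7 := tendsto_nhds_unique h6 h5
    have h8 : fderiv ℂ f.1 0 w = d.θ0.1 0 * D w (d.θ v).1 0 - (d.θ v).1 0 * D w d.θ0.1 0 := by
      have h9 : f.1 = fun z => d.θ0.1 0 * (d.θ v).1 z + (-(d.θ v).1 0) * d.θ0.1 z := by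
        funext z
        rw [hf]
        ring
      change D w f.1 0 = _
      rw [h9, D_add_fun ((ediff _ 0).const_mul _) ((ediff _ 0).const_mul _),
        D_const_mul_fun (ediff _ 0), D_const_mul_fun (ediff _ 0)]
      ring
    rw [h8] at h7
    exact sub_eq_zero.1 h7
  rw [hw0, mem_sphere_zero_iff_norm, norm_zero] at hw
  exact zero_ne_one hw

/-- a nonzero function of one variable has finitely many zeros in a segment -/
theorem finite_zeros {h : ℂ → ℂ} (hh : Differentiable ℂ h) (h0 : h 0 ≠ 0) :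
    {t : ℝ | t ∈ Set.Icc (0 : ℝ) 1 ∧ h t = 0}.Finite := by
  by_contra hinf
  have hinf' : ((fun t : ℝ => (t : ℂ)) '' {t : ℝ | t ∈ Set.Icc (0 : ℝ) 1 ∧ h t = 0}).Infinite :=
    Set.Infinite.image (fun a _ b _ hab => Complex.ofReal_injective hab) hinf
  have hsub : ((fun t : ℝ => (t : ℂ)) '' {t : ℝ | t ∈ Set.Icc (0 : ℝ) 1 ∧ h t = 0}) ⊆
      Metric.closedBall (0 : ℂ) 1 := by
    rintro _ ⟨t, ⟨ht, _⟩, rfl⟩
    rw [mem_closedBall_zero_iff, Complex.norm_real, Real.norm_eq_abs, abs_of_nonneg ht.1]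
    exact ht.2
  obtain ⟨x, _, hx⟩ := hinf'.exists_accPt_of_subset_isCompact (isCompact_closedBall _ _) hsub
  have h1 : ∃ᶠ z in 𝓝[≠] x, h z = 0 := by
    rw [accPt_iff_frequently_nhdsNE] at hx
    refine hx.mono fun z hz => ?_
    obtain ⟨t, ⟨_, ht⟩, rfl⟩ := hz
    exact ht
  have h2 : AnalyticOnNhd ℂ h Set.univ := fun z _ => hh.analyticAt z
  have h3 := h2.eqOn_zero_of_preconnected_of_frequently_eq_zero isPreconnected_univ
    (Set.mem_univ x) h1
  exact h0 (h3 (Set.mem_univ 0))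

/-- the choice of the prime number -/
theorem exists_prime {γ : Fin g → ℂ} (hγ : γ ∈ d.L) (hγ0 : γ ≠ 0) (B : ℕ) :
    ∃ ℓ : ℕ, ℓ.Prime ∧ B < ℓ ∧ (∀ k : ℤ, d.θ0.1 (((k : ℂ) / ℓ) • γ) ≠ 0) ∧
      ∀ k : ℤ, ((k : ℂ) / ℓ) • γ ∈ d.LX → (ℓ : ℤ) ∣ k := by
  classical
  obtain ⟨r, hr, hdisc⟩ := d.disc
  let h : ℂ → ℂ := fun t => d.θ0.1 (0 + t • γ)
  have hh : Differentiable ℂ h := differentiable_line d.θ0.2 0 γ
  have h0 : h 0 ≠ 0 := by
    change d.θ0.1 (0 + (0 : ℂ) • γ) ≠ 0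
    rw [zero_smul, add_zero]
    exact d.one
  have hfin := finite_zeros hh h0
  set Z := hfin.toFinset with hZ
  -- the bad prime numbers
  have hbad : {ℓ : ℕ | ℓ.Prime ∧ ∃ k : ℕ, 0 < k ∧ k < ℓ ∧ h ((k : ℂ) / ℓ) = 0}.Finite := by
    have hex : ∀ ℓ : ℕ, ∃ t : ℝ, (ℓ.Prime ∧ ∃ k : ℕ, 0 < k ∧ k < ℓ ∧ h ((k : ℂ) / ℓ) = 0) →
        ∃ k : ℕ, 0 < k ∧ k < ℓ ∧ h ((k : ℂ) / ℓ) = 0 ∧ t = (k : ℝ) / ℓ := by
      intro ℓ
      by_cases hl : ℓ.Prime ∧ ∃ k : ℕ, 0 < k ∧ k < ℓ ∧ h ((k : ℂ) / ℓ) = 0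
      · obtain ⟨k, h1, h2, h3⟩ := hl.2
        exact ⟨(k : ℝ) / ℓ, fun _ => ⟨k, h1, h2, h3, rfl⟩⟩
      · exact ⟨0, fun h => absurd h hl⟩
    choose t ht using hex
    apply Set.Finite.of_finite_image (f := t)
    · refine (Z.finite_toSet).subset ?_
      rintro _ ⟨ℓ, hℓ, rfl⟩
      obtain ⟨k, h1, h2, h3, h4⟩ := ht ℓ hℓ
      rw [Finset.mem_coe, hZ, Set.Finite.mem_toFinset, h4]
      have hl0 : (0 : ℝ) < ℓ := by exact_mod_cast hℓ.1.pos
      refine ⟨⟨by positivity, ?_⟩, ?_⟩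
      · rw [div_le_one hl0]
        exact_mod_cast h2.le
      · push_cast
        exact h3
    · intro ℓ hℓ ℓ' hℓ' heq
      obtain ⟨k, h1, h2, h3, h4⟩ := ht ℓ hℓ
      obtain ⟨k', h1', h2', h3', h4'⟩ := ht ℓ' hℓ'
      rw [h4, h4'] at heq
      have hl0 : (ℓ : ℝ) ≠ 0 := by exact_mod_cast hℓ.1.pos.ne'
      have hl0' : (ℓ' : ℝ) ≠ 0 := by exact_mod_cast hℓ'.1.pos.ne'
      rw [div_eq_div_iff hl0 hl0'] at heq
      have h5 : k * ℓ' = k' * ℓ := by exact_mod_cast heq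
      have h6 : ℓ ∣ ℓ' := by
        have h7 : ℓ ∣ k * ℓ' := ⟨k', by rw [h5, mul_comm]⟩
        rcases (Nat.Prime.dvd_mul hℓ.1).1 h7 with h8 | h8
        · exact absurd (Nat.le_of_dvd h1 h8) (not_le.2 h2)
        · exact h8
      exact (Nat.prime_dvd_prime_iff_eq hℓ.1 hℓ'.1).1 h6
  obtain ⟨Nb, hNb⟩ := hbad.bddAbove
  obtain ⟨Nr, hNr⟩ := exists_nat_gt (‖γ‖ / r)
  obtain ⟨ℓ, hℓ, hℓp⟩ := Nat.exists_infinite_primes (B + Nb + Nr + 1)
  have hl0 : (ℓ : ℂ) ≠ 0 := by exact_mod_cast hℓp.pos.ne'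
  have hgood : ∀ k : ℕ, 0 < k → k < ℓ → h ((k : ℂ) / ℓ) ≠ 0 := by
    intro k hk hkl hz
    have := hNb (show ℓ ∈ {ℓ : ℕ | ℓ.Prime ∧ ∃ k : ℕ, 0 < k ∧ k < ℓ ∧ h ((k : ℂ) / ℓ) = 0} from
      ⟨hℓp, k, hk, hkl, hz⟩)
    omega
  refine ⟨ℓ, hℓp, by omega, fun k => ?_, fun k hk => ?_⟩
  · -- reduce to the interval
    have hlz : (ℓ : ℤ) ≠ 0 := by exact_mod_cast hℓp.pos.ne'
    have hlzp : (0 : ℤ) < ℓ := by exact_mod_cast hℓp.pos
    have h1 := Int.emod_add_mul_ediv k ℓ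
    have h2 := Int.emod_nonneg k hlz
    have h3 := Int.emod_lt_of_pos k hlzp
    obtain ⟨r', hr'⟩ := Int.eq_ofNat_of_zero_le h2
    have h4 : ((k : ℂ) / ℓ) • γ = ((r' : ℂ) / ℓ) • γ + (k / (ℓ : ℤ)) • γ := by
      have h5 : (k : ℂ) = r' + ℓ * ((k / (ℓ : ℤ) : ℤ) : ℂ) := by
        rw [hr'] at h1
        have h6 := congrArg (fun n : ℤ => (n : ℂ)) h1
        push_cast at h6
        rw [← h6]
      rw [← Int.cast_smul_eq_zsmul ℂ, ← add_smul]
      congr 1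
      conv_lhs => rw [h5]
      field_simp
    rw [h4, d.qp0 _ (d.L.zsmul_mem hγ _)]
    refine mul_ne_zero (Complex.exp_ne_zero _) ?_
    rcases Nat.eq_zero_or_pos r' with h5 | h5
    · rw [h5, Nat.cast_zero, zero_div, zero_smul]
      exact d.one
    · have h6 := hgood r' h5 (by omega)
      change d.θ0.1 (0 + ((r' : ℂ) / ℓ) • γ) ≠ 0 at h6
      rwa [zero_add] at h6
  · by_contra hdvd
    have hco : IsCoprime (ℓ : ℤ) k := by
      rw [Int.isCoprime_iff_gcd_eq_one]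
      have h5 : Nat.Coprime ℓ k.natAbs := by
        rw [Nat.Prime.coprime_iff_not_dvd hℓp]
        intro h6
        exact hdvd (Int.natCast_dvd.2 h6)
      simpa [Int.gcd] using h5
    obtain ⟨a, b, hab⟩ := hco
    have h1 : ((1 : ℂ) / ℓ) • γ ∈ d.LX := by
      have h2 : ((1 : ℂ) / ℓ) • γ = a • γ + b • (((k : ℂ) / ℓ) • γ) := by
        rw [← Int.cast_smul_eq_zsmul ℂ, ← Int.cast_smul_eq_zsmul ℂ, smul_smul, ← add_smul]
        congr 1
        have h3 : (a : ℂ) * ℓ + b * k = 1 := by exact_mod_cast hab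
        field_simp
        linear_combination -h3
      rw [h2]
      exact d.LX.add_mem (d.LX.zsmul_mem (d.L_le_LX hγ) _) (d.LX.zsmul_mem hk _)
    have h2 := hdisc _ h1 (by
      rw [norm_smul, norm_div, norm_one, Complex.norm_natCast]
      have hl0' : (0 : ℝ) < ℓ := by exact_mod_cast hℓp.pos
      have h3 : (Nr : ℝ) ≤ ℓ := by
        have : Nr ≤ ℓ := by omega
        exact_mod_cast this
      rw [div_lt_iff₀ hr] at hNr
      rw [one_div, inv_mul_lt_iff₀ hl0']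
      nlinarith)
    have h3 : ((1 : ℂ) / ℓ) ≠ 0 := div_ne_zero one_ne_zero hl0
    rcases smul_eq_zero.1 h2 with h4 | h4
    · exact h3 h4
    · exact hγ0 h4

end TD

end Pool.Agent.K9h14
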