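import Pool.Agent.K9h14.P3

set_option autoImplicit false
set_option linter.unusedVariables false
set_option linter.unusedSectionVars false

/-!
# The arithmetic data of the division points of a period
-/

open Filter MvPolynomial NumberField
open scoped Topology

noncomputable section

namespace Pool.Agent.K9h14

open Pool.Agent.W245.EB Pool.Agent.Y102

/-- a number field containing given algebraic numbers, and a common denominator -/
structure NFd (s : Finset ℂ) where
  F : IntermediateField ℚ ℂ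
  nf : NumberField F
  c : ℤ
  c0 : c ≠ 0
  y : ℂ → 𝓞 F
  hy : ∀ x ∈ s, (((y x : 𝓞 F) : F) : ℂ) = c * x

theorem exists_NFd (s : Finset ℂ) (hs : ∀ x ∈ s, IsAlgebraic ℚ x) : Nonempty (NFd s) := by
  classical
  let F : IntermediateField ℚ ℂ := IntermediateField.adjoin ℚ (s : Set ℂ)
  have hfd : FiniteDimensional ℚ F :=
    IntermediateField.finiteDimensional_adjoin fun x hx => (hs x hx).isIntegral
  have hNF : NumberField F := { to_charZero := inferInstance, to_finiteDimensional := hfd }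
  have hsF : ∀ x ∈ s, x ∈ F := fun x hx => IntermediateField.subset_adjoin ℚ _ hx
  obtain ⟨c, hc0, hc⟩ := exists_integral_multiples ℤ ℚ
    (Finset.univ.image (fun x : s => (⟨x.1, hsF _ x.2⟩ : F)))
  have hint : ∀ x (hx : x ∈ s), IsIntegral ℤ (c • (⟨x, hsF _ hx⟩ : F)) := by
    intro x hx
    exact hc _ (Finset.mem_image.2 ⟨⟨x, hx⟩, Finset.mem_univ _, rfl⟩)
  refine ⟨⟨F, hNF, c, hc0, fun x => if hx : x ∈ s then ⟨c • ⟨x, hsF _ hx⟩, hint _ hx⟩ else 0, ?_⟩⟩
  intro x hx
  rw [dif_pos hx]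
  change ((c • (⟨x, hsF _ hx⟩ : F) : F) : ℂ) = _
  rw [zsmul_eq_mul]
  simp

theorem D_inj {V : Type} {x : V → ℂ} : True := trivial

namespace TD

variable {g : ℕ} (d : TD g)

/-- the abelian functions and the quasi-periodic function -/
def vz : Option d.V → (Fin g → ℂ) → ℂ
  | none => fun z => d.φ.1 z / d.θ0.1 z
  | some v => fun z => (d.θ v).1 z / d.θ0.1 z

/-- their numerators -/
def nu : Option d.V → Ent (Fin g)
  | none => d.φ
  | some v => d.θ v

theorem vz_eq (o : Option d.V) (z : Fin g → ℂ) : d.vz o z = (d.nu o).1 z / d.θ0.1 z := by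
  rcases o with _ | v <;> rfl

/-- the differential equations -/
def DD (j : Fin g) : Option d.V → MvPolynomial (Option d.V) ℂ
  | none => rename some (d.ε j)
  | some v => rename some (d.δ j v)

theorem coeff_rename_alg {V : Type} {Q : MvPolynomial V ℂ} (hQ : ∀ m, IsAlgebraic ℚ (Q.coeff m))
    (m : Option V →₀ ℕ) : IsAlgebraic ℚ ((rename (some : V → Option V) Q).coeff m) := by
  by_cases hm : ∃ m', Finsupp.mapDomain (some : V → Option V) m' = m
  · obtain ⟨m', rfl⟩ := hm
    rw [coeff_rename_mapDomain _ (Option.some_injective V)]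
    exact hQ _
  · rw [coeff_rename_eq_zero]
    · exact isAlgebraic_zero
    · intro m' hm'
      exact absurd ⟨m', hm'⟩ hm

theorem DD_alg (j : Fin g) (o : Option d.V) (m : Option d.V →₀ ℕ) :
    IsAlgebraic ℚ ((d.DD j o).coeff m) := by
  rcases o with _ | v
  · exact coeff_rename_alg (d.ε_alg j) m
  · exact coeff_rename_alg (d.δ_alg j v) m

theorem DD_deg (j : Fin g) (o : Option d.V) : (d.DD j o).totalDegree ≤ 2 := by
  rcases o with _ | v
  · exact (totalDegree_rename_le _ _).trans (d.ε_deg j)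
  · exact (totalDegree_rename_le _ _).trans (d.δ_deg j v)

theorem DD_D (j : Fin g) (o : Option d.V) (z : Fin g → ℂ) (hz : d.θ0.1 z ≠ 0) :
    fderiv ℂ (d.vz o) z (Pi.single j 1) = MvPolynomial.eval (fun q => d.vz q z) (d.DD j o) := by
  rcases o with _ | v
  · change fderiv ℂ (fun z => d.φ.1 z / d.θ0.1 z) z (Pi.single j 1) =
      MvPolynomial.eval _ (rename some (d.ε j))
    rw [d.ε_D j z hz, eval_rename]
    rfl
  · change fderiv ℂ (fun z => (d.θ v).1 z / d.θ0.1 z) z (Pi.single j 1) =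
      MvPolynomial.eval _ (rename some (d.δ j v))
    rw [d.δ_D j v z hz, eval_rename]
    rfl

/-- the open set where the functions are holomorphic -/
def OO0 : Set (Fin g → ℂ) := {z | d.θ0.1 z ≠ 0}

theorem isOpen_OO0 : IsOpen d.OO0 := by
  have h1 : Continuous d.θ0.1 := continuous_iff_continuousAt.2 fun z =>
    (d.θ0.2 z trivial).continuousAt
  exact isOpen_ne_fun h1 continuous_const

theorem analytic_vz (o : Option d.V) : AnalyticOnNhd ℂ (d.vz o) d.OO0 := by
  intro z hz
  rcases o with _ | v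
  · exact (d.φ.2 z trivial).div (d.θ0.2 z trivial) hz
  · exact ((d.θ v).2 z trivial).div (d.θ0.2 z trivial) hz

/-- division points of a period and their coordinates -/
structure DP (d : TD g) where
  γ : Fin g → ℂ
  hγ : γ ∈ d.L
  hγ0 : γ ≠ 0
  κγ : d.κ γ = 0
  ℓ : ℕ
  prime : ℓ.Prime
  ne : ∀ k : ℤ, d.θ0.1 (((k : ℂ) / ℓ) • γ) ≠ 0
  sep : ∀ k : ℤ, ((k : ℂ) / ℓ) • γ ∈ d.LX → (ℓ : ℤ) ∣ k
  alg : ∀ (k : ℤ) (o : Option d.V), IsAlgebraic ℚ (d.vz o (((k : ℂ) / ℓ) • γ))
  b : Fin g → d.V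
  hb : Function.Injective b
  hbJ : ∀ v, (∀ i, d.θ0.1 0 * D v (d.θ (b i)).1 0 = (d.θ (b i)).1 0 * D v d.θ0.1 0) → v = 0

namespace DP

variable {d} (q : DP d)

/-- the points -/
def pts (k : ℤ) : Fin g → ℂ := ((k : ℂ) / q.ℓ) • q.γ

open Classical in
/-- the algebraic numbers which occur -/
def nums : Finset ℂ :=
  (Finset.univ.biUnion fun k : Fin q.ℓ => Finset.univ.image fun o : Option d.V =>
    d.vz o (q.pts (k : ℕ))) ∪
  Finset.univ.biUnion fun w : Fin g × Option d.V =>
    (d.DD w.1 w.2).support.image fun m => (d.DD w.1 w.2).coeff m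

theorem nums_alg : ∀ x ∈ q.nums, IsAlgebraic ℚ x := by
  classical
  intro x hx
  rw [nums, Finset.mem_union] at hx
  rcases hx with hx | hx
  · obtain ⟨k, _, hk⟩ := Finset.mem_biUnion.1 hx
    obtain ⟨o, _, rfl⟩ := Finset.mem_image.1 hk
    exact q.alg _ o
  · obtain ⟨w, _, hw⟩ := Finset.mem_biUnion.1 hx
    obtain ⟨m, _, rfl⟩ := Finset.mem_image.1 hw
    exact d.DD_alg _ _ _

/-- the number field -/
def nf : NFd q.nums := (exists_NFd q.nums q.nums_alg).some

theorem val_mem (k : Fin q.ℓ) (o : Option d.V) : d.vz o (q.pts (k : ℕ)) ∈ q.nums := by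
  classical
  rw [nums, Finset.mem_union]
  exact Or.inl (Finset.mem_biUnion.2 ⟨k, Finset.mem_univ _,
    Finset.mem_image.2 ⟨o, Finset.mem_univ _, rfl⟩⟩)

theorem coeff_mem (j : Fin g) (o : Option d.V) {m : Option d.V →₀ ℕ}
    (hm : m ∈ (d.DD j o).support) : (d.DD j o).coeff m ∈ q.nums := by
  classical
  rw [nums, Finset.mem_union]
  exact Or.inr (Finset.mem_biUnion.2 ⟨(j, o), Finset.mem_univ _,
    Finset.mem_image.2 ⟨m, hm, rfl⟩⟩)

theorem cC : (q.nf.c : ℂ) ≠ 0 := by exact_mod_cast q.nf.c0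

/-- the arithmetic data -/
def pd : PD g := by
  classical
  haveI := q.nf.nf
  exact
  { K := q.nf.F
    ph := algebraMap q.nf.F ℂ
    V := Option d.V
    val := fun o z => q.nf.c * d.vz o z
    O := d.OO0
    isOpen_O := d.isOpen_OO0
    analytic_val := fun o z hz => analyticAt_const.mul (d.analytic_vz o z hz)
    Q := Fin q.ℓ
    q0 := ⟨0, q.prime.pos⟩
    pt := fun k => q.pts (k : ℕ)
    ptO := fun k => q.ne _
    X := fun o k => q.nf.y (d.vz o (q.pts (k : ℕ)))
    hX := fun o k => q.nf.hy _ (q.val_mem k o)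
    δ := fun j o => ∑ m ∈ (d.DD j o).support,
      monomial m (q.nf.y ((d.DD j o).coeff m) * (q.nf.c : 𝓞 q.nf.F) ^ (2 - m.degree))
    hδ := by
      intro j o
      refine MvPolynomial.totalDegree_finsetSum_le fun m hm => ?_
      refine (MvPolynomial.totalDegree_monomial_le _ _).trans ?_
      exact (MvPolynomial.le_totalDegree hm).trans (d.DD_deg j o)
    v := fun j => (q.nf.c : ℂ) ^ 2 • Pi.single j 1
    spans_v := by
      intro w
      have hcC := q.cC
      refine ⟨fun j => w j / (q.nf.c : ℂ) ^ 2, ?_⟩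
      funext k
      rw [Finset.sum_apply]
      simp only [Pi.smul_apply, smul_eq_mul]
      rw [Finset.sum_eq_single k]
      · rw [Pi.single_eq_same]
        field_simp
      · intro j _ hj
        rw [Pi.single_eq_of_ne (Ne.symm hj)]
        ring
      · intro h
        exact absurd (Finset.mem_univ _) h
    D_val := by
      intro j o z hz
      have h1 : D ((q.nf.c : ℂ) ^ 2 • Pi.single j 1) (fun z => q.nf.c * d.vz o z) z =
          (q.nf.c : ℂ) ^ 3 * MvPolynomial.eval (fun q => d.vz q z) (d.DD j o) := by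
        rw [D_smul_vec, D_const_mul_fun (d.analytic_vz o z hz).differentiableAt, D, d.DD_D j o z hz]
        ring
      rw [h1]
      simp only [ev]
      rw [MvPolynomial.eval₂_sum]
      conv_lhs => rw [MvPolynomial.eval_eq]
      rw [Finset.mul_sum]
      refine Finset.sum_congr rfl fun m hm => ?_
      rw [MvPolynomial.eval₂_monomial]
      have h2 : m.degree ≤ 2 := by
        have := (MvPolynomial.le_totalDegree hm).trans (d.DD_deg j o)
        exact this
      have h3 : (m.prod fun n e => ((q.nf.c : ℂ) * d.vz n z) ^ e) =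
          (q.nf.c : ℂ) ^ m.degree * ∏ i ∈ m.support, d.vz i z ^ m i := by
        rw [Finsupp.prod, Finsupp.degree_apply, ← Finset.prod_pow_eq_pow_sum,
          ← Finset.prod_mul_distrib]
        refine Finset.prod_congr rfl fun i _ => ?_
        rw [mul_pow]
      rw [h3]
      simp only [map_mul, map_pow, RingHom.comp_apply, map_intCast]
      have h4 : (algebraMap q.nf.F ℂ) ((algebraMap (𝓞 q.nf.F) q.nf.F)
          (q.nf.y ((d.DD j o).coeff m))) = q.nf.c * (d.DD j o).coeff m :=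
        q.nf.hy _ (q.coeff_mem j o hm)
      rw [h4]
      have h5 : (q.nf.c : ℂ) ^ 3 = q.nf.c * (q.nf.c ^ (2 - m.degree) * q.nf.c ^ m.degree) := by
        rw [← pow_add, Nat.sub_add_cancel h2]
        ring
      rw [h5]
      ring
    I := Option (Fin g)
    cardI := by rw [Fintype.card_option, Fintype.card_fin]
    b := Option.map q.b
    hb := Option.map_injective q.hb }

/-- the quasi-periodicity -/
theorem quasi (j : ℤ) : ∃ J : (Fin g → ℂ) → ℂ, AnalyticOnNhd ℂ J Set.univ ∧
    ∀ z, d.θ0.1 (z + (j : ℂ) • q.γ) = J z * d.θ0.1 z ∧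
      ∀ o, (d.nu o).1 (z + (j : ℂ) • q.γ) = J z * (d.nu o).1 z := by
  have hl : (j : ℂ) • q.γ ∈ d.L := by
    rw [Int.cast_smul_eq_zsmul]
    exact d.L.zsmul_mem q.hγ j
  have hκ : d.κ ((j : ℂ) • q.γ) = 0 := by
    rw [Int.cast_smul_eq_zsmul]
    have h1 : ∀ n : ℕ, d.κ (n • q.γ) = 0 := by
      intro n
      induction n with
      | zero => rw [zero_smul, d.κ_zero]
      | succ n ih => rw [succ_nsmul, d.κ_add _ (d.L.nsmul_mem q.hγ n) _ q.hγ, ih, q.κγ, add_zero]
    rcases Int.eq_nat_or_neg j with ⟨n, rfl | rfl⟩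
    · rw [natCast_zsmul, h1]
    · rw [neg_smul, natCast_zsmul, d.κ_neg (d.L.nsmul_mem q.hγ n), h1, neg_zero]
  refine ⟨fun z => Complex.exp (∑ k, d.ja ((j : ℂ) • q.γ) k * z k + d.jb ((j : ℂ) • q.γ)), ?_,
    fun z => ⟨d.qp0 _ hl z, fun o => ?_⟩⟩
  · intro z _
    apply AnalyticAt.cexp
    apply AnalyticAt.add _ analyticAt_const
    refine Finset.analyticAt_fun_sum _ fun k _ => analyticAt_const.mul ?_
    exact (ContinuousLinearMap.proj k : (Fin g → ℂ) →L[ℂ] ℂ).analyticAt z
  · rcases o with _ | v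
    · change d.φ.1 _ = _ * d.φ.1 z
      rw [d.qpφ _ hl, hκ, zero_mul, add_zero]
    · exact d.qp _ hl v z

/-- the analytic data -/
def ptd : PT q.pd where
  Th := d.θ0.1
  A := fun i z => q.nf.c * (d.nu (Option.map q.b i)).1 z
  an_Th := d.θ0.2
  an_A := fun i z hz => analyticAt_const.mul ((d.nu _).2 z hz)
  gr_Th := d.gr0
  gr_A := by
    intro i
    refine grE_const_mul ?_ _
    rcases i with _ | i
    · exact d.grφ
    · exact d.grθ _
  hTh := by
    intro i z hz
    change d.θ0.1 z * (q.nf.c * d.vz (Option.map q.b i) z) = _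
    have hz' : d.θ0.1 z ≠ 0 := hz
    rw [vz_eq]
    field_simp
  Th_ne := fun s => q.ne _
  γ := q.γ
  r := fun k => (((show Fin q.ℓ from k) : ℕ) : ℂ) / q.ℓ
  hr := by
    intro (k : Fin q.ℓ)
    change ‖((k : ℕ) : ℂ) / q.ℓ‖ ≤ 1
    have hl : (0 : ℝ) < q.ℓ := by exact_mod_cast q.prime.pos
    rw [norm_div, Complex.norm_natCast, Complex.norm_natCast, div_le_one hl]
    exact_mod_cast k.2.le
  hpt := by
    intro (k : Fin q.ℓ)
    change q.pts (k : ℕ) = (((k : ℕ) : ℂ) / q.ℓ) • q.γ
    unfold pts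
    push_cast
    rfl
  r0 := by
    change (((0 : ℕ) : ℂ)) / q.ℓ = 0
    simp
  quasi := by
    intro j
    obtain ⟨J, hJ, h⟩ := q.quasi j
    refine ⟨J, hJ, fun z => ⟨(h z).1, fun i => ?_⟩⟩
    rw [(h z).2]
    ring

end DP

end TD

end Pool.Agent.K9h14
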