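import Pool.Agent.K9h14.P4

set_option autoImplicit false
set_option linter.unusedVariables false
set_option linter.unusedSectionVars false

/-!
# The vanishing of a period
-/

open Filter MvPolynomial NumberField
open scoped Topology

noncomputable section

namespace Pool.Agent.K9h14

open Pool.Agent.W245.EB Pool.Agent.Y102

/-- restriction of derivatives to the hyperplane -/
theorem DL_up {g : ℕ} {F : (Og g → ℂ) → ℂ} (hF : AnalyticOnNhd ℂ F Set.univ) (l : List (Fin g)) :
    ∀ z : Fin g → ℂ, DL (l.map fun k => (eV (some k) : Og g → ℂ)) F (up z) =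
      DL (l.map fun k => (Pi.single k 1 : Fin g → ℂ)) (fun z => F (up z)) z := by
  induction l with
  | nil => exact fun z => rfl
  | cons k l ih =>
    intro z
    rw [List.map_cons, List.map_cons, DL_cons, DL_cons]
    have h1 : DL (l.map fun k => (Pi.single k 1 : Fin g → ℂ)) (fun z => F (up z)) =
        fun z => DL (l.map fun k => (eV (some k) : Og g → ℂ)) F (up z) :=
      funext fun z => (ih z).symm
    rw [h1]
    set G := DL (l.map fun k => (eV (some k) : Og g → ℂ)) F with hG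
    have hGa : AnalyticOnNhd ℂ G Set.univ := analytic_DL hF _
    change fderiv ℂ G (up z) (eV (some k)) = fderiv ℂ (fun z => G (up z)) z (Pi.single k 1)
    have h2 : HasFDerivAt (fun z => G (up z)) ((fderiv ℂ G (up z)).comp up) z :=
      (hGa _ trivial).differentiableAt.hasFDerivAt.comp z (up (g := g)).hasFDerivAt
    rw [h2.fderiv]
    change _ = fderiv ℂ G (up z) (up (Pi.single k 1))
    congr 1
    funext o
    rcases o with _ | j
    · simp [eV]
    · by_cases hj : j = k
      · subst hj; simp [eV]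
      · simp [eV, hj]

/-- the exponents without the last coordinate -/
theorem lsE_up {g : ℕ} (α : Og g →₀ ℕ) (h0 : α none = 0) : ∃ l : List (Fin g),
    l.length = α.degree ∧ lsE α = l.map fun k => (eV (some k) : Og g → ℂ) := by
  have h1 : ∀ o ∈ (Finsupp.toMultiset α).toList, ∃ k : Fin g, o = some k := by
    intro o ho
    rw [Multiset.mem_toList, Finsupp.mem_toMultiset, Finsupp.mem_support_iff] at ho
    rcases o with _ | k
    · exact absurd h0 ho
    · exact ⟨k, rfl⟩
  have h2 : ∀ L : List (Og g), (∀ o ∈ L, ∃ k : Fin g, o = some k) →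
      ∃ l : List (Fin g), L = l.map some := by
    intro L
    induction L with
    | nil => exact fun _ => ⟨[], rfl⟩
    | cons o L ih =>
      intro h
      obtain ⟨k, rfl⟩ := h o (by simp)
      obtain ⟨l, rfl⟩ := ih fun o ho => h o (by simp [ho])
      exact ⟨k :: l, rfl⟩
  obtain ⟨l, hl⟩ := h2 _ h1
  refine ⟨l, ?_, ?_⟩
  · have h3 : (Finsupp.toMultiset α).toList.length = α.degree := by
      rw [Multiset.length_toList, Finsupp.card_toMultiset]
      rfl
    rw [hl, List.length_map] at h3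
    exact h3
  · unfold lsE
    rw [hl, List.map_map]
    rfl

namespace TD

variable {g : ℕ} {d : TD g}

namespace DP

variable (q : DP d)

/-- the numerators on the extension -/
def Nn : Option (Fin g) → Ent (Og g)
  | none => d.Psi
  | some i => inc (d.θ (q.b i))

theorem Nn_GG (i : Option (Fin g)) : q.Nn i ∈ d.GG 1 := by
  rcases i with _ | i
  · exact d.Psi_GG
  · exact d.T_GG _

theorem Nn_up (i : Option (Fin g)) (z : Fin g → ℂ) :
    (q.Nn i).1 (up z) = (d.nu (Option.map q.b i)).1 z := by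
  rcases i with _ | i
  · change d.Psi.1 (up z) = d.φ.1 z
    rw [ZD.Psi_apply, up_none, zero_mul, zero_add, cz_up]
  · change (d.θ (q.b i)).1 (cz (up z)) = (d.θ (q.b i)).1 z
    rw [cz_up]

/-- the auxiliary section -/
def F0 {Lc : ℕ} (ξ : (Option (Fin g) → Fin Lc) → 𝓞 q.nf.F) : Ent (Og g) :=
  ∑ lam : Option (Fin g) → Fin Lc, ((ξ lam : q.nf.F) : ℂ) •
    ∏ i, (((q.nf.c : ℂ) • q.Nn i) ^ (lam i : ℕ) * (inc d.θ0) ^ (Lc - lam i))

theorem prod_GG {ι : Type} (t : Finset ι) {d : ZD g} {n : ℕ} {F : ι → Ent (Og g)}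
    (hF : ∀ i ∈ t, F i ∈ d.GG n) : ∏ i ∈ t, F i ∈ d.GG (t.card * n) := by
  classical
  induction t using Finset.induction_on with
  | empty => rw [Finset.prod_empty, Finset.card_empty, zero_mul]; exact ZD.one_GG
  | insert i t hi ih =>
    rw [Finset.prod_insert hi, Finset.card_insert_of_notMem hi, add_mul, one_mul, add_comm]
    exact ZD.mul_GG (hF i (Finset.mem_insert_self _ _))
      (ih fun j hj => hF j (Finset.mem_insert_of_mem hj))

theorem F0_GG {Lc : ℕ} (ξ : (Option (Fin g) → Fin Lc) → 𝓞 q.nf.F) :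
    q.F0 ξ ∈ d.GG ((g + 1) * Lc) := by
  refine Submodule.sum_mem _ fun lam _ => Submodule.smul_mem _ _ ?_
  have h1 := prod_GG (d := d.toZD) (n := Lc) (Finset.univ : Finset (Option (Fin g)))
    (F := fun i => ((q.nf.c : ℂ) • q.Nn i) ^ (lam i : ℕ) * (inc d.θ0) ^ (Lc - lam i)) (by
      intro i _
      have h2 := ZD.pow_GG (Submodule.smul_mem _ (q.nf.c : ℂ) (q.Nn_GG i)) (lam i : ℕ)
      have h3 := ZD.mul_GG h2 (Pts.pow_T0 (d := d.toZD) (Lc - lam i))
      rw [one_mul, Nat.add_sub_cancel' (lam i).2.le] at h3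
      exact h3)
  rwa [Finset.card_univ, Fintype.card_option, Fintype.card_fin] at h1

theorem ent_sum_apply {σ ι : Type} [Fintype σ] (t : Finset ι) (F : ι → Ent σ) (x : σ → ℂ) :
    (∑ i ∈ t, F i).1 x = ∑ i ∈ t, (F i).1 x := by
  rw [AddSubmonoidClass.coe_finsetSum, Finset.sum_apply]

theorem ent_prod_apply {σ ι : Type} [Fintype σ] (t : Finset ι) (F : ι → Ent σ) (x : σ → ℂ) :
    (∏ i ∈ t, F i).1 x = ∏ i ∈ t, (F i).1 x := by
  rw [SubmonoidClass.coe_finsetProd, Finset.prod_apply]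

theorem F0_apply {Lc : ℕ} (ξ : (Option (Fin g) → Fin Lc) → 𝓞 q.nf.F) (x : Og g → ℂ) :
    (q.F0 ξ).1 x = ∑ lam : Option (Fin g) → Fin Lc, ((ξ lam : q.nf.F) : ℂ) *
      ∏ i, ((q.nf.c * (q.Nn i).1 x) ^ (lam i : ℕ) * (d.θ0.1 (cz x)) ^ (Lc - lam i)) := by
  unfold F0
  rw [ent_sum_apply]
  refine Finset.sum_congr rfl fun lam _ => ?_
  change _ * (∏ i, (((q.nf.c : ℂ) • q.Nn i) ^ (lam i : ℕ) * (inc d.θ0) ^ (Lc - lam i)) : Ent (Og g)).1 x = _
  rw [ent_prod_apply]
  rfl

theorem F0_up {Lc : ℕ} (ξ : (Option (Fin g) → Fin Lc) → 𝓞 q.nf.F) (z : Fin g → ℂ) :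
    (q.F0 ξ).1 (up z) = q.ptd.G (Lc := Lc) ξ z := by
  rw [F0_apply]
  unfold PT.G
  refine Finset.sum_congr rfl fun lam _ => ?_
  rw [cz_up]
  change _ = ((ξ lam : q.nf.F) : ℂ) * ∏ i : Option (Fin g),
    ((q.nf.c * (d.nu (Option.map q.b i)).1 z) ^ (lam i : ℕ) * (d.θ0.1 z) ^ (Lc - lam i))
  congr 1
  refine Finset.prod_congr rfl fun i _ => ?_
  rw [Nn_up]

/-- the functions on the extension -/
def yy (i : Option (Fin g)) (x : Og g → ℂ) : ℂ := (q.Nn i).1 x / d.θ0.1 (cz x)

theorem F0_eq {Lc : ℕ} (ξ : (Option (Fin g) → Fin Lc) → 𝓞 q.nf.F) {x : Og g → ℂ}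
    (hx : d.θ0.1 (cz x) ≠ 0) : (q.F0 ξ).1 x = (d.θ0.1 (cz x)) ^ ((g + 1) * Lc) *
      ∑ lam : Option (Fin g) → Fin Lc, ((ξ lam : q.nf.F) : ℂ) *
        ∏ i, (q.nf.c * q.yy i x) ^ (lam i : ℕ) := by
  rw [F0_apply, Finset.mul_sum]
  refine Finset.sum_congr rfl fun lam _ => ?_
  rw [mul_left_comm]
  congr 1
  have h1 : (d.θ0.1 (cz x)) ^ ((g + 1) * Lc) = ∏ _i : Option (Fin g), (d.θ0.1 (cz x)) ^ Lc := by
    rw [Finset.prod_const, Finset.card_univ, Fintype.card_option, Fintype.card_fin, ← pow_mul,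
      mul_comm]
  rw [h1, ← Finset.prod_mul_distrib]
  refine Finset.prod_congr rfl fun i _ => ?_
  have h2 : d.θ0.1 (cz x) ^ Lc =
      d.θ0.1 (cz x) ^ (Lc - (lam i : ℕ)) * d.θ0.1 (cz x) ^ (lam i : ℕ) := by
    rw [← pow_add, Nat.sub_add_cancel (lam i).2.le]
  rw [h2]
  unfold yy
  have h3 : (q.nf.c : ℂ) * (q.Nn i).1 x = q.nf.c * ((q.Nn i).1 x / d.θ0.1 (cz x)) *
      d.θ0.1 (cz x) := by
    field_simp
  rw [h3, mul_pow ((q.nf.c : ℂ) * ((q.Nn i).1 x / d.θ0.1 (cz x)))]
  ring

/-- the auxiliary section is not zero -/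
theorem F0_ne {Lc : ℕ} (ξ : (Option (Fin g) → Fin Lc) → 𝓞 q.nf.F) (hξ : ξ ≠ 0) :
    q.F0 ξ ≠ 0 := by
  classical
  intro h0
  obtain ⟨lam0, hlam0⟩ := Function.ne_iff.1 hξ
  -- the polynomial
  let P : MvPolynomial (Option (Fin g)) ℂ := ∑ lam : Option (Fin g) → Fin Lc,
    monomial (Finsupp.equivFunOnFinite.symm fun i => (lam i : ℕ)) ((ξ lam : q.nf.F) : ℂ)
  have hPe : ∀ x : Option (Fin g) → ℂ, MvPolynomial.eval x P =
      ∑ lam : Option (Fin g) → Fin Lc, ((ξ lam : q.nf.F) : ℂ) * ∏ i, (x i) ^ (lam i : ℕ) := by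
    intro x
    rw [map_sum]
    refine Finset.sum_congr rfl fun lam _ => ?_
    rw [MvPolynomial.eval_monomial, Finsupp.prod_fintype _ _ (fun _ => pow_zero _)]
    rfl
  have hP0 : P ≠ 0 := by
    intro h
    have h1 := congrArg (MvPolynomial.coeff (Finsupp.equivFunOnFinite.symm fun i => (lam0 i : ℕ))) h
    rw [MvPolynomial.coeff_sum, MvPolynomial.coeff_zero, Finset.sum_eq_single lam0] at h1
    · rw [MvPolynomial.coeff_monomial, if_pos rfl] at h1
      apply hlam0
      have h2 : (ξ lam0 : q.nf.F) = 0 := by exact_mod_cast h1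
      exact_mod_cast h2
    · intro lam' _ hne
      rw [MvPolynomial.coeff_monomial, if_neg]
      intro h2
      apply hne
      funext i
      have h3 := congrArg (fun f : Option (Fin g) →₀ ℕ => f i) h2
      simp only [Finsupp.equivFunOnFinite_symm_apply_apply] at h3
      exact Fin.ext h3
    · intro h2
      exact absurd (Finset.mem_univ _) h2
  apply hP0
  have hc := q.cC
  have h00 : d.θ0.1 (cz (0 : Og g → ℂ)) ≠ 0 := by rw [map_zero]; exact d.one
  have hcont : Continuous fun x : Og g → ℂ => d.θ0.1 (cz x) := continuous_iff_continuousAt.2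
    fun x => ((inc d.θ0).2 x trivial).continuousAt
  have hyan : ∀ (i : Option (Fin g)) (x : Og g → ℂ), d.θ0.1 (cz x) ≠ 0 →
      AnalyticAt ℂ (q.yy i) x := fun i x hx =>
    ((q.Nn i).2 x trivial).div ((inc d.θ0).2 x trivial) hx
  refine poly_zero_of_indep (E := Og g → ℂ) (by simp) (fun i x => q.nf.c * q.yy i x)
    (fun i => analyticAt_const.mul (hyan i 0 h00)) ?_ P ?_
  · intro v hv
    -- the derivatives
    have hder : ∀ i, fderiv ℂ (q.yy i) 0 v = 0 := by
      intro i
      have h1 := hv i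
      rw [fderiv_const_mul (hyan i 0 h00).differentiableAt] at h1
      change (q.nf.c : ℂ) * fderiv ℂ (q.yy i) 0 v = 0 at h1
      exact (mul_eq_zero.1 h1).resolve_left hc
    have hquot : ∀ i, d.θ0.1 0 * D v (q.Nn i).1 0 = (q.Nn i).1 0 * D v (inc d.θ0).1 0 := by
      intro i
      have h1 := hder i
      have h2 : q.yy i = fun x => (q.Nn i).1 x * ((inc d.θ0).1 x)⁻¹ := by
        funext x
        unfold yy
        rw [div_eq_mul_inv]
        rfl
      have h3 : HasFDerivAt (fun x => ((inc d.θ0).1 x)⁻¹)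
          (-(((inc d.θ0).1 0) ^ 2)⁻¹ • fderiv ℂ (inc d.θ0).1 0) 0 := by
        have h4 : (inc d.θ0).1 (0 : Og g → ℂ) ≠ 0 := h00
        exact (hasDerivAt_inv h4).comp_hasFDerivAt 0 (ediff (inc d.θ0) 0).hasFDerivAt
      have h4 : HasFDerivAt (fun x => (q.Nn i).1 x * ((inc d.θ0).1 x)⁻¹) _ 0 :=
        (ediff (q.Nn i) 0).hasFDerivAt.mul h3
      rw [h2, h4.fderiv] at h1
      have h5 : (inc d.θ0).1 (0 : Og g → ℂ) = d.θ0.1 0 := by rw [inc_apply, map_zero]
      rw [h5] at h1
      change (q.Nn i).1 0 * (-((d.θ0.1 0) ^ 2)⁻¹ * D v (inc d.θ0).1 0) +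
        (d.θ0.1 0)⁻¹ * D v (q.Nn i).1 0 = 0 at h1
      have h6 := d.one
      have h7 : (d.θ0.1 0) ^ 2 * ((q.Nn i).1 0 * (-((d.θ0.1 0) ^ 2)⁻¹ * D v (inc d.θ0).1 0) +
        (d.θ0.1 0)⁻¹ * D v (q.Nn i).1 0) = d.θ0.1 0 * D v (q.Nn i).1 0 -
          (q.Nn i).1 0 * D v (inc d.θ0).1 0 := by
        field_simp
        ring
      rw [h1, mul_zero] at h7
      exact (sub_eq_zero.1 h7.symm)
    have hDinc : ∀ (F : Ent (Fin g)), D v (inc F).1 (0 : Og g → ℂ) = D (cz v) F.1 0 := by
      intro F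
      change fderiv ℂ (fun x => F.1 (cz x)) 0 v = _
      have h1 : HasFDerivAt (fun x => F.1 (cz x)) ((fderiv ℂ F.1 (cz (0 : Og g → ℂ))).comp cz) 0 :=
        (ediff F _).hasFDerivAt.comp 0 cz.hasFDerivAt
      rw [h1.fderiv, map_zero]
      rfl
    have hcz : cz v = 0 := by
      apply q.hbJ
      intro i
      have h1 := hquot (some i)
      change d.θ0.1 0 * D v (inc (d.θ (q.b i))).1 0 = (d.θ (q.b i)).1 (cz 0) * _ at h1
      rwa [hDinc, hDinc, map_zero] at h1
    have hlast : v none = 0 := by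
      have h1 := hquot none
      change d.θ0.1 0 * D v d.Psi.1 0 = d.Psi.1 0 * _ at h1
      have h2 : D v (inc d.θ0).1 (0 : Og g → ℂ) = 0 := by
        rw [hDinc, hcz]
        simp [D]
      have h3 : D v (inc d.φ).1 (0 : Og g → ℂ) = 0 := by
        rw [hDinc, hcz]
        simp [D]
      have h4 : D v d.Psi.1 (0 : Og g → ℂ) = v none * d.θ0.1 0 := by
        have h5 : d.Psi.1 = fun x => (uE * inc d.θ0).1 x + (inc d.φ).1 x := rfl
        rw [h5, D_add_fun (ediff _ 0) (ediff _ 0), h3, add_zero]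
        change D v (fun x => (uE (g := g)).1 x * (inc d.θ0).1 x) 0 = _
        rw [D_mul_fun (ediff _ 0) (ediff _ 0), h2, mul_zero, zero_add, inc_apply, map_zero]
        have h6 : D v (uE (g := g)).1 0 = v none := by
          have h7 : HasFDerivAt (fun x : Og g → ℂ => x none)
              (ContinuousLinearMap.proj none : (Og g → ℂ) →L[ℂ] ℂ) 0 :=
            (ContinuousLinearMap.proj none : (Og g → ℂ) →L[ℂ] ℂ).hasFDerivAt
          change fderiv ℂ (fun x : Og g → ℂ => x none) 0 v = _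
          rw [h7.fderiv]
          rfl
        rw [h6]
        ring
      rw [h4, h2, mul_zero] at h1
      rcases mul_eq_zero.1 h1 with h5 | h5
      · exact absurd h5 d.one
      · rcases mul_eq_zero.1 h5 with h6 | h6
        · exact h6
        · exact absurd h6 d.one
    funext o
    rcases o with _ | k
    · exact hlast
    · exact congrFun hcz k
  · filter_upwards [hcont.continuousAt.eventually_ne h00] with x hx
    rw [hPe]
    have h1 := q.F0_eq ξ hx
    rw [h0] at h1
    change (0 : ℂ) = _ at h1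
    exact (mul_eq_zero.1 h1.symm).resolve_left (pow_ne_zero _ hx)

/-- the set of points for the zero estimate -/
def SS0 : Pts d.toZD := by
  classical
  exact
  { s := Finset.univ.image fun k : Fin q.ℓ => up (q.pts (k : ℕ))
    ne1 := by
      intro p hp
      obtain ⟨k, _, rfl⟩ := Finset.mem_image.1 hp
      rw [cz_up]
      exact q.ne _
    ne2 := by
      intro p hp
      obtain ⟨k, _, rfl⟩ := Finset.mem_image.1 hp
      rw [cz_up]
      have h1 : q.pts (k : ℕ) + q.pts (k : ℕ) = q.pts (((k : ℕ) + (k : ℕ) : ℕ) : ℤ) := by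
        unfold pts
        rw [← add_smul]
        congr 1
        push_cast
        ring
      rw [h1]
      exact q.ne _
    sep := by
      intro p hp p' hp' hne
      obtain ⟨k, _, rfl⟩ := Finset.mem_image.1 hp
      obtain ⟨k', _, rfl⟩ := Finset.mem_image.1 hp'
      rw [cz_up, cz_up]
      have h1 : q.pts (((k : ℕ) : ℤ) - ((k' : ℕ) : ℤ)) ∉ d.LX := by
        intro h
        have h2 := q.sep _ h
        have h3 : ((k : ℕ) : ℤ) = ((k' : ℕ) : ℤ) := by
          have h4 := k.2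
          have h5 := k'.2
          obtain ⟨c, hc⟩ := h2
          have h6 : c = 0 := by
            by_contra hc0
            have h7 : 1 ≤ |c| := Int.one_le_abs hc0
            have h8 : |((k : ℕ) : ℤ) - ((k' : ℕ) : ℤ)| < q.ℓ := by
              rw [abs_lt]
              constructor <;> omega
            rw [hc, abs_mul, abs_of_nonneg (by positivity : (0 : ℤ) ≤ q.ℓ)] at h8
            nlinarith
          rw [h6, mul_zero] at hc
          omega
        apply hne
        rw [h3]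
      rw [mem_LX] at h1
      push Not at h1
      obtain ⟨v, z, h2⟩ := h1
      refine ⟨v, z - q.pts (k' : ℕ), ?_⟩
      have h3 : q.pts (k : ℕ) + (z - q.pts (k' : ℕ)) =
          z + q.pts (((k : ℕ) : ℤ) - ((k' : ℕ) : ℤ)) := by
        have h4 : q.pts (((k : ℕ) : ℤ) - ((k' : ℕ) : ℤ)) = q.pts (k : ℕ) - q.pts (k' : ℕ) := by
          unfold pts
          rw [← sub_smul]
          congr 1
          push_cast
          ring
        rw [h4]
        abel
      rw [h3, add_sub_cancel]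
      exact h2 }

theorem mem_SS0 {p : Og g → ℂ} : p ∈ q.SS0.s ↔ ∃ k : Fin q.ℓ, up (q.pts (k : ℕ)) = p := by
  classical
  change p ∈ Finset.univ.image (fun k : Fin q.ℓ => up (q.pts (k : ℕ))) ↔ _
  rw [Finset.mem_image]
  simp

theorem card_SS0 : q.SS0.s.card = q.ℓ := by
  classical
  change (Finset.univ.image fun k : Fin q.ℓ => up (q.pts (k : ℕ))).card = q.ℓ
  rw [Finset.card_image_of_injective, Finset.card_univ, Fintype.card_fin]
  intro k k' h
  have h1 : q.pts (k : ℕ) = q.pts (k' : ℕ) := by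
    have := congrArg cz h
    rwa [cz_up, cz_up] at this
  unfold pts at h1
  have h2 := smul_left_injective ℂ q.hγ0 h1
  have hl : (q.ℓ : ℂ) ≠ 0 := by exact_mod_cast q.prime.pos.ne'
  have h3 : ((((k : ℕ) : ℤ) : ℂ)) = (((k' : ℕ) : ℤ) : ℂ) := by
    field_simp at h2
    exact h2
  exact Fin.ext (by exact_mod_cast h3)

/-- the group of division points -/
def Gam : AddSubgroup (Og g → ℂ) where
  carrier := {p | ∃ k : ℤ, p = up (q.pts k)}
  zero_mem' := ⟨0, by unfold pts; simp⟩
  add_mem' := by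
    rintro _ _ ⟨k, rfl⟩ ⟨k', rfl⟩
    refine ⟨k + k', ?_⟩
    rw [← map_add]
    congr 1
    unfold pts
    rw [← add_smul]
    congr 1
    push_cast
    ring
  neg_mem' := by
    rintro _ ⟨k, rfl⟩
    refine ⟨-k, ?_⟩
    rw [← map_neg]
    congr 1
    unfold pts
    rw [← neg_smul]
    congr 1
    push_cast
    ring

end DP

end TD

end Pool.Agent.K9h14
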