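import Pool.Agent.K9h14.Z12

set_option autoImplicit false
set_option linter.unusedSectionVars false

/-!
# The zero estimate
-/

open MvPowerSeries Finsupp Filter Topology

noncomputable section

namespace Pool.Agent.K9h14

variable {g : ℕ}

/-- the inclusion of the hyperplane -/
def up : (Fin g → ℂ) →L[ℂ] (Og g → ℂ) :=
  ContinuousLinearMap.pi fun o => match o with
    | Option.none => 0
    | Option.some k => ContinuousLinearMap.proj k

@[simp] theorem up_none (x : Fin g → ℂ) : up x none = 0 := rfl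
@[simp] theorem up_some (x : Fin g → ℂ) (k : Fin g) : up x (some k) = x k := rfl

theorem cz_up (x : Fin g → ℂ) : cz (up x) = x := rfl

theorem up_cz {v : Og g → ℂ} (h : v none = 0) : up (cz v) = v := by
  funext o
  rcases o with _ | k
  · exact h.symm
  · rfl

variable (d : ZD g) (P : Ideal (OO (Og g)))

theorem ZD.li_eq (l : Fin g → ℂ) : d.li l = up l + (-d.κ l) • eV none := by
  funext o
  rcases o with _ | k
  · simp [eV]
  · simp [eV]

/-- the directions in the first coordinates -/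
def hh0 : Submodule ℂ (Fin g → ℂ) := (hh P).comap (up (g := g)).toLinearMap

theorem mem_hh0 {x : Fin g → ℂ} : x ∈ hh0 P ↔ up x ∈ hh P := Iff.rfl

/-- the periods in the stabilizer -/
def L0 : Set (Fin g → ℂ) := {l | l ∈ d.L ∧ l ∈ hh0 P ∧ d.κ l = 0}

theorem exists_period (hP : P ∈ (Pz d P).minimalPrimes) (hS : ∀ v ∈ hh P, v none = 0)
    {x : Fin g → ℂ} (hx : x ∈ hh0 P) :
    ∃ n : ℕ, 1 ≤ n ∧ ∃ l ∈ L0 d P, ‖(n : ℂ) • x - l‖ ≤ 2 * d.R0 := by
  by_contra hcon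
  push Not at hcon
  have h1 : ∀ n : ℕ, ∃ l ∈ d.L, ‖(n : ℂ) • x - l‖ ≤ d.R0 := fun n => d.coc _
  choose lam hlam hlamR using h1
  set r : ℕ → Fin g → ℂ := fun n => (n : ℂ) • x - lam n with hr
  have hrmem : ∀ n, r n ∈ Metric.closedBall (0 : Fin g → ℂ) d.R0 := fun n => by
    rw [mem_closedBall_zero_iff]
    exact hlamR n
  obtain ⟨r0, _, φ, hφ, hφlim⟩ := (isCompact_closedBall (0 : Fin g → ℂ) d.R0).tendsto_subseq hrmem
  -- differences
  have hdiff : ∀ a b : ℕ, a < b → ¬ (d.li (lam b - lam a) ∈ hh P) := by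
    intro a b hab hmem
    have hL : lam b - lam a ∈ d.L := d.L.sub_mem (hlam b) (hlam a)
    have h2 := hS _ hmem
    rw [d.li_none, neg_eq_zero] at h2
    have h3 : lam b - lam a ∈ hh0 P := by
      rw [mem_hh0]
      rwa [d.li_eq, h2, neg_zero, zero_smul, add_zero] at hmem
    have h4 := hcon (b - a) (by omega) _ ⟨hL, h3, h2⟩
    have h5 : ((b - a : ℕ) : ℂ) • x - (lam b - lam a) = r b - r a := by
      rw [hr, Nat.cast_sub hab.le, sub_smul]
      beta_reduce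
      abel
    rw [h5] at h4
    have h6 : ‖r b - r a‖ ≤ 2 * d.R0 := by
      refine (norm_sub_le _ _).trans ?_
      have h7 := hlamR b
      have h8 := hlamR a
      change ‖r b‖ ≤ _ at h7
      change ‖r a‖ ≤ _ at h8
      linarith
    exact absurd h6 (not_le.2 h4)
  have hup : ∀ a b : ℕ, up (lam b - lam a) + up (-(((b : ℂ) - (a : ℂ)) • x)) = up (r a - r b) := by
    intro a b
    rw [← map_add]
    congr 1
    rw [hr, sub_smul]
    beta_reduce
    abel
  have hupmem : ∀ c : ℂ, up (-(c • x)) ∈ hh P := by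
    intro c
    have h2 : -(c • x) ∈ hh0 P := (hh0 P).neg_mem ((hh0 P).smul_mem c hx)
    exact h2
  by_cases hbd : ∃ Cb : ℝ, ∀ n, ‖d.κ (lam (φ n))‖ ≤ Cb
  · obtain ⟨Cb, hCb⟩ := hbd
    have hkm : ∀ n, d.κ (lam (φ n)) ∈ Metric.closedBall (0 : ℂ) Cb := fun n => by
      rw [mem_closedBall_zero_iff]
      exact hCb n
    obtain ⟨κ0, _, ψ, hψ, hψlim⟩ := (isCompact_closedBall (0 : ℂ) Cb).tendsto_subseq hkm
    set χ : ℕ → ℕ := fun n => φ (ψ n) with hχ
    have hχm : StrictMono χ := hφ.comp hψ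
    have hrlim : Tendsto (fun n => r (χ n)) atTop (𝓝 r0) := hφlim.comp hψ.tendsto_atTop
    have hκlim : Tendsto (fun n => d.κ (lam (χ n))) atTop (𝓝 κ0) := hψlim
    obtain ⟨k, hk⟩ := small_mem d P hP
      (v := fun n => 0 + d.li (lam (χ (n + 1)) - lam (χ n)))
      (h := fun n => up (-(((χ (n + 1) : ℂ) - (χ n : ℂ)) • x)))
      (fun n => ZG_li d P (d.L.sub_mem (hlam _) (hlam _)) (hh P).zero_mem)
      (fun n => hupmem _) (by
        have h2 : (fun n => 0 + d.li (lam (χ (n + 1)) - lam (χ n)) +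
            up (-(((χ (n + 1) : ℂ) - (χ n : ℂ)) • x))) = fun n =>
            up (r (χ n) - r (χ (n + 1))) +
              (-(d.κ (lam (χ (n + 1))) - d.κ (lam (χ n)))) • eV none := by
          funext n
          rw [zero_add, d.li_eq, d.κ_sub (hlam _) (hlam _), ← hup]
          abel
        rw [h2]
        have h3 : Tendsto (fun n => r (χ n) - r (χ (n + 1))) atTop (𝓝 (r0 - r0)) :=
          hrlim.sub (hrlim.comp (tendsto_add_atTop_nat 1))
        have h4 : Tendsto (fun n => -(d.κ (lam (χ (n + 1))) - d.κ (lam (χ n)))) atTop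
            (𝓝 (-(κ0 - κ0))) := ((hκlim.comp (tendsto_add_atTop_nat 1)).sub hκlim).neg
        have h5 := ((up (g := g)).continuous.tendsto _).comp h3
        have h6 := h5.add (h4.smul_const (eV none : Og g → ℂ))
        rw [sub_self, sub_self, map_zero, neg_zero, zero_smul, add_zero] at h6
        exact h6)
    rw [zero_add] at hk
    exact hdiff _ _ (hχm (Nat.lt_succ_self k)) hk
  · push Not at hbd
    have h2 : ∀ k : ℕ, ∃ n, k < n ∧ (k : ℝ) ≤ ‖d.κ (lam (φ n)) - d.κ (lam (φ k))‖ := by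
      intro k
      obtain ⟨n, hn⟩ := hbd (∑ j ∈ Finset.range (k + 1), ‖d.κ (lam (φ j))‖ + k)
      have h3 : ∀ j, j ≤ k → ‖d.κ (lam (φ j))‖ ≤ ∑ j ∈ Finset.range (k + 1), ‖d.κ (lam (φ j))‖ :=
        fun j hj => Finset.single_le_sum (f := fun j => ‖d.κ (lam (φ j))‖)
          (fun _ _ => norm_nonneg _) (Finset.mem_range.2 (by omega))
      refine ⟨n, ?_, ?_⟩
      · by_contra hle
        push Not at hle
        have h4 := h3 n hle
        have h5 : (0 : ℝ) ≤ k := Nat.cast_nonneg k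
        linarith
      · have h4 := h3 k le_rfl
        have h5 := norm_sub_norm_le (d.κ (lam (φ n))) (d.κ (lam (φ k)))
        linarith
    choose b hb1 hb2 using h2
    have hbt : Tendsto b atTop atTop :=
      tendsto_atTop_mono (fun k => (hb1 k).le) tendsto_id
    have hv : ∀ k, d.li (lam (φ (b k)) - lam (φ k)) + up (-(((φ (b k) : ℂ) - (φ k : ℂ)) • x)) ∈
        ZZ d P := by
      intro k
      apply ZG_subset
      have h3 := ZG_add_hh d P (ZG_li d P (d.L.sub_mem (hlam (φ (b k))) (hlam (φ k)))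
        (hh P).zero_mem) (hupmem ((φ (b k) : ℂ) - (φ k : ℂ)))
      rwa [zero_add] at h3
    have hvn : ∀ k, (d.li (lam (φ (b k)) - lam (φ k)) +
        up (-(((φ (b k) : ℂ) - (φ k : ℂ)) • x))) none =
        -(d.κ (lam (φ (b k))) - d.κ (lam (φ k))) := by
      intro k
      rw [Pi.add_apply, up_none, add_zero, d.li_none, d.κ_sub (hlam _) (hlam _)]
    have h3 := escape_mem d P hP hv (by
      have h4 : (fun k => d.li (lam (φ (b k)) - lam (φ k)) +
          up (-(((φ (b k) : ℂ) - (φ k : ℂ)) • x)) -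
          (d.li (lam (φ (b k)) - lam (φ k)) +
            up (-(((φ (b k) : ℂ) - (φ k : ℂ)) • x))) none • eV none) =
          fun k => up (r (φ k) - r (φ (b k))) := by
        funext k
        rw [hvn, d.li_eq, d.κ_sub (hlam _) (hlam _), ← hup]
        abel
      rw [h4]
      have h5 : Tendsto (fun n => r (φ n) - r (φ (b n))) atTop (𝓝 (r0 - r0)) :=
        hφlim.sub (hφlim.comp hbt)
      have h6 := ((up (g := g)).continuous.tendsto _).comp h5
      rw [sub_self, map_zero] at h6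
      exact h6) (by
      refine tendsto_atTop_mono (fun k => ?_) tendsto_natCast_atTop_atTop
      rw [hvn, norm_neg]
      exact hb2 k)
    have h4 := hS _ h3
    simp [eV] at h4

/-- **the directions are spanned by the periods in the stabilizer** -/
theorem mem_span_L0 (hP : P ∈ (Pz d P).minimalPrimes) (hS : ∀ v ∈ hh P, v none = 0)
    {x : Fin g → ℂ} (hx : x ∈ hh0 P) : x ∈ Submodule.span ℝ (L0 d P) := by
  have hclosed : IsClosed (Submodule.span ℝ (L0 d P) : Set (Fin g → ℂ)) :=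
    Submodule.closed_of_finiteDimensional _
  have h1 : ∀ N : ℕ, ∃ y ∈ Submodule.span ℝ (L0 d P), ‖x - y‖ ≤ 2 * d.R0 / (N + 1) := by
    intro N
    obtain ⟨n, hn, l, hl, hle⟩ := exists_period d P hP hS
      (x := ((N + 1 : ℕ) : ℂ) • x) ((hh0 P).smul_mem _ hx)
    have hn' : (0 : ℝ) < n := by exact_mod_cast hn
    have hN : (0 : ℝ) < (N : ℝ) + 1 := by positivity
    refine ⟨((n : ℝ) * (N + 1))⁻¹ • l, Submodule.smul_mem _ _ (Submodule.subset_span hl), ?_⟩
    have h2 : x - ((n : ℝ) * (N + 1))⁻¹ • l =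
        ((n : ℝ) * (N + 1))⁻¹ • ((n : ℂ) • ((N + 1 : ℕ) : ℂ) • x - l) := by
      rw [smul_sub]
      congr 1
      funext k
      simp only [Pi.smul_apply, smul_eq_mul, Complex.real_smul]
      have h3 : (n : ℂ) ≠ 0 := by
        have : (n : ℝ) ≠ 0 := hn'.ne'
        exact_mod_cast this
      have h4 : ((N : ℂ) + 1) ≠ 0 := by exact_mod_cast (Nat.succ_ne_zero N)
      push_cast
      field_simp
    rw [h2, norm_smul, norm_inv, Real.norm_of_nonneg (by positivity)]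
    have h5 : ((n : ℝ) * (N + 1))⁻¹ ≤ ((N : ℝ) + 1)⁻¹ := by
      apply inv_anti₀ hN
      have : (1 : ℝ) ≤ n := by exact_mod_cast hn
      nlinarith
    calc ((n : ℝ) * (N + 1))⁻¹ * ‖(n : ℂ) • ((N + 1 : ℕ) : ℂ) • x - l‖
        ≤ ((N : ℝ) + 1)⁻¹ * (2 * d.R0) :=
          mul_le_mul h5 hle (norm_nonneg _) (by positivity)
      _ = 2 * d.R0 / (N + 1) := by rw [div_eq_mul_inv, mul_comm]
  choose y hy hyle using h1
  have hlim : Tendsto y atTop (𝓝 x) := by
    rw [tendsto_iff_norm_sub_tendsto_zero]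
    have h2 : Tendsto (fun N : ℕ => 2 * d.R0 / ((N : ℝ) + 1)) atTop (𝓝 0) :=
      tendsto_const_div_atTop_nhds_zero_nat (2 * d.R0) |>.comp (tendsto_add_atTop_nat 1) |>.congr
        (fun N => by simp)
    refine squeeze_zero (fun _ => norm_nonneg _) (fun N => ?_) h2
    rw [norm_sub_rev]
    exact hyle N
  exact hclosed.mem_of_tendsto hlim (Eventually.of_forall hy)

/-- **The zero estimate.** -/
theorem zero_estimate : ∃ C : ℕ, 0 < C ∧ ∀ (m T1 : ℕ) (F0 : Ent (Og g)), F0 ∈ d.GG m → F0 ≠ 0 →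
    ∀ (Γ : AddSubgroup (Og g → ℂ)), (∀ γ ∈ Γ, d.θ0.1 (cz γ) ≠ 0) → ∀ S : Pts d,
    (∀ p ∈ S.s, p ∈ Γ) → 1 ≤ m → C * m ≤ T1 → (C * m) ^ (g + 1) < S.s.card * T1 ^ g →
    (∀ γ ∈ Γ, ∀ α : Og g →₀ ℕ, α none = 0 → α.degree ≤ (g + 2) * T1 →
      coeff α (tay γ F0) = 0) →
    ∃ 𝔥 : Submodule ℂ (Fin g → ℂ), 𝔥 ≠ ⊥ ∧ ∀ x ∈ 𝔥,
      x ∈ Submodule.span ℝ {l | l ∈ d.L ∧ l ∈ 𝔥 ∧ d.κ l = 0} := by
  obtain ⟨c0, hc00, hc0⟩ := exists_mult d
  refine ⟨2 * (c0 * (g + 2) + 1), by positivity, ?_⟩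
  intro m T1 F0 hF0 hF0ne Γ hΓ S hSΓ hm hT1 hcard hvan
  -- the sections
  set B : Ent (Og g) := (inc d.θ0) ^ m with hB
  have hBG : B ∈ d.GG m := Pts.pow_T0 m
  have hB0 : ∀ γ ∈ Γ, ∀ p ∈ Γ, B.1 (p - γ) ≠ 0 := by
    intro γ hγ p hp
    exact inc_pow_ne d m (hΓ _ (Γ.sub_mem hp hγ))
  set 𝒮 : Set (Ent (Og g)) := {F | ∃ (q : ℕ) (ν : OO (Og g) →ₗ[ℂ] ℂ), FinOrd q ν ∧
    ν ∈ Ann (JJ F0 Γ T1) ∧ ∃ γ ∈ Γ, F = RR q ν γ F0 B} with h𝒮def
  have h𝒮 : ∀ F ∈ 𝒮, F ∈ d.GG (2 * m) := by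
    rintro F ⟨q, ν, hν, _, γ, _, rfl⟩
    exact ZD.RR_GG d hF0 hBG hν γ
  have hwt : ∀ p ∈ S.s, Pts.BB 𝒮 p ≤ nn (wt (T1 + 1)) (T1 + 1) := by
    intro p hp
    unfold Pts.BB
    rw [Ideal.span_le]
    rintro _ ⟨_, ⟨q, ν, hν, hνA, γ, hγ, rfl⟩, rfl⟩
    beta_reduce
    rw [tay_RR hν]
    refine Ideal.sum_mem _ fun δ _ => Ideal.mul_mem_left _ _ ?_
    rw [mem_nn]
    intro β hβ
    rw [coeff_SS]
    apply (Ann_mm hνA _).2
    have h1 : β none * (T1 + 1) + ∑ i : Fin g, β (some i) < T1 + 1 := by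
      rw [Finsupp.weight_apply, Finsupp.sum_fintype β (fun i c => c • wt (T1 + 1) i)
        (fun i => zero_smul _ _), Fintype.sum_option] at hβ
      have h2 : ∑ i : Fin g, β (some i) • wt (T1 + 1) (some i) = ∑ i : Fin g, β (some i) :=
        Finset.sum_congr rfl fun i _ => mul_one _
      rw [h2] at hβ
      exact hβ
    have h0 : β none = 0 := by
      by_contra hne
      have h3 : 1 * (T1 + 1) ≤ β none * (T1 + 1) := Nat.mul_le_mul_right _ (by omega)
      omega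
    refine mem_JJ (Γ.add_mem (hSΓ p hp) hγ) h0 ?_
    rw [Finsupp.degree_eq_sum, Fintype.sum_option, h0]
    rw [h0] at h1
    omega
  -- the obstruction ideal
  have hex : ∃ p ∈ S.s, ∀ q, ¬ n1 q ≤ Pts.BB 𝒮 p := by
    by_contra hcon
    push Not at hcon
    choose! qf hqf using hcon
    have h1 := S.count (q := ∑ p ∈ S.s, qf p) hc0 h𝒮 (by omega) (T := T1 + 1) (by omega)
      (fun p hp => (n1_anti (Finset.single_le_sum (f := qf) (fun _ _ => Nat.zero_le _) hp)).trans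
        (hqf p hp)) hwt
    have h2 : S.s.card * T1 ^ g ≤ S.s.card * (T1 + 1) ^ g :=
      Nat.mul_le_mul_left _ (Nat.pow_le_pow_left (Nat.le_succ _) _)
    have h3 : (c0 * (g + 2) + 1) * (2 * m) = 2 * (c0 * (g + 2) + 1) * m := by ring
    rw [h3] at h1
    omega
  obtain ⟨p, hp, hpq⟩ := hex
  obtain ⟨𝔔, h𝔔, hle, hne⟩ := exists_prime_ne _ hpq
  haveI := h𝔔
  have hSS : ∀ ν ∈ Ann (JJ F0 Γ T1), ∀ γ ∈ Γ, SS ν (tay γ F0) ∈ 𝔔 := by
    rintro ν hν γ hγ
    obtain ⟨q, hq⟩ := hν.1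
    have h1 := SS_mem_of_RR (𝔔 := 𝔔) (J := JJ F0 Γ T1) (g := γ - p) (p := p) (A := F0) (B := B)
      (hB0 _ (Γ.sub_mem hγ (hSΓ p hp)) p (hSΓ p hp)) (by
        intro q' ν' hq' hν'
        apply hle
        exact Ideal.subset_span ⟨_, ⟨q', ν', hq', hν', γ - p, Γ.sub_mem hγ (hSΓ p hp), rfl⟩, rfl⟩)
      q ν hq hν
    rwa [add_sub_cancel] at h1
  -- the pigeonhole principle
  have hJmx : JJ F0 Γ ((g + 1 + 1) * T1) ≤ mx (Og g) := by
    unfold JJ
    rw [Ideal.span_le]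
    rintro _ ⟨γ, hγ, α, h0, ht, rfl⟩
    change Ha α (tay γ F0) ∈ mx (Og g)
    rw [mem_mx, constantCoeff_Ha]
    exact hvan γ hγ α h0 ht
  have hht : (mx (Og g)).height ≤ ((g + 1 : ℕ) : ℕ∞) := by
    have h1 := height_mx_le (σ := Og g)
    rwa [Fintype.card_option, Fintype.card_fin] at h1
  obtain ⟨r, _, P, hPmin, hJP, hPM⟩ := exists_prime_between (n := g + 1) (mx (Og g)) hht
    (fun r => JJ F0 Γ (r * T1)) (fun r => JJ_mono (Nat.mul_le_mul_right _ (Nat.le_succ r))) hJmx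
  have hJP' : JJ F0 Γ ((r + 1) * T1) ≤ P := hJP
  obtain ⟨h, hh1, hh2⟩ := exists_direction hPmin hne (by
    intro f hf μ hμ
    exact SS_JJ hSS hf μ (Ann_anti hJP' hμ))
  -- no transversal direction
  have hT1P : JJ F0 Γ T1 ≤ P := by
    refine (JJ_mono ?_).trans hJP'
    calc T1 = 1 * T1 := (one_mul _).symm
      _ ≤ (r + 1) * T1 := Nat.mul_le_mul_right _ (by omega)
  have hSdir : ∀ v ∈ hh P, v none = 0 := by
    intro v hv
    by_contra hv0
    apply hF0ne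
    apply hc0 m F0 hF0
    intro β hβ
    refine case_a hPM hT1P hv hv0 β (hβ.trans (le_trans ?_ hT1))
    apply Nat.mul_le_mul_right
    nlinarith
  have hPz : P ∈ (Pz d P).minimalPrimes := by
    have h1 : JJ F0 Γ (r * T1) ≤ Pz d P :=
      JJ_le_Pz d hF0 hΓ ((JJ_mono (Nat.mul_le_mul_right _ (Nat.le_succ r))).trans hJP')
    refine ⟨⟨hPmin.1.1, Pz_le d P⟩, fun Q hQ hQP => ?_⟩
    exact hPmin.2 ⟨hQ.1, h1.trans hQ.2⟩ hQP
  refine ⟨hh0 P, ?_, fun x hx => mem_span_L0 d P hPz hSdir hx⟩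
  rw [Submodule.ne_bot_iff]
  refine ⟨cz h, ?_, ?_⟩
  · rw [mem_hh0, up_cz (hSdir h hh2)]
    exact hh2
  · intro h0
    apply hh1
    rw [← up_cz (hSdir h hh2), h0, map_zero]

end Pool.Agent.K9h14
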