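import Pool.Agent.K9h14.P5
import Pool.Agent.K9h14.Z13
import Pool.Agent.Y102.Line

set_option autoImplicit false
set_option linter.unusedVariables false
set_option linter.unusedSectionVars false

/-!
# The theorem on periods
-/

open Filter MvPolynomial NumberField
open scoped Topology

noncomputable section

namespace Pool.Agent.K9h14

open Pool.Agent.W245.EB Pool.Agent.Y102

namespace TD

variable {g : ℕ} {d : TD g}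

namespace DP

variable (q : DP d)

/-- vanishing at all division points -/
theorem ord_pts {Lc : ℕ} (ξ : (Option (Fin g) → Fin Lc) → 𝓞 q.nf.F) {T : ℕ}
    (h : ∀ s : q.pd.Q, Pool.Agent.W245.EB.Ord (q.pd.Fn (q.pd.Phi ξ)) (q.pd.pt s) T) (k : ℤ) :
    Pool.Agent.W245.EB.Ord (q.ptd.G (Lc := Lc) ξ) (q.pts k) T := by
  have hlzp : (0 : ℤ) < q.ℓ := by exact_mod_cast q.prime.pos
  have hlz : (q.ℓ : ℤ) ≠ 0 := hlzp.ne'
  have hl0 : (q.ℓ : ℂ) ≠ 0 := by exact_mod_cast q.prime.pos.ne'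
  have h1 := Int.emod_add_mul_ediv k q.ℓ
  have h2 := Int.emod_nonneg k hlz
  have h3 := Int.emod_lt_of_pos k hlzp
  obtain ⟨r', hr'⟩ := Int.eq_ofNat_of_zero_le h2
  have hr'l : r' < q.ℓ := by omega
  have h4 : q.pts k = q.pts ((r' : ℕ) : ℤ) + (((k / (q.ℓ : ℤ)) : ℤ) : ℂ) • q.γ := by
    have h5 : (k : ℂ) = r' + q.ℓ * ((k / (q.ℓ : ℤ) : ℤ) : ℂ) := by
      rw [hr'] at h1
      have h6 := congrArg (fun n : ℤ => (n : ℂ)) h1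
      push_cast at h6
      rw [← h6]
    unfold pts
    rw [← add_smul]
    congr 1
    conv_lhs => rw [h5]
    push_cast
    field_simp
  have h5 := h (⟨r', hr'l⟩ : Fin q.ℓ)
  have h6 : Pool.Agent.W245.EB.Ord (q.ptd.G (Lc := Lc) ξ) (q.pts ((r' : ℕ) : ℤ)) T := by
    intro l hl
    have hO : q.pts ((r' : ℕ) : ℤ) ∈ q.pd.O := q.ne _
    rw [DL_congr q.pd.isOpen_O (q.ptd.G_eqOn ξ) l hO]
    exact (ord_mul q.pd.isOpen_O hO T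
      (fun z => (q.ptd.Th z) ^ ((g + 1) * Lc)) (q.pd.Fn (q.pd.Phi ξ))
      (fun z hz => (q.ptd.an_Th z trivial).fun_pow _) (q.pd.analytic_Fn _) h5).1 l hl
  obtain ⟨J, hJ, hJ1⟩ := q.ptd.G_add (Lc := Lc) ξ (k / (q.ℓ : ℤ))
  intro l hl
  have h7 := PT.DL_translate (f := q.ptd.G (Lc := Lc) ξ)
    ((((k / (q.ℓ : ℤ)) : ℤ) : ℂ) • q.γ) l (q.pts ((r' : ℕ) : ℤ))
  rw [h4, ← h7]
  have h8 : (fun x => q.ptd.G (Lc := Lc) ξ (x + (((k / (q.ℓ : ℤ)) : ℤ) : ℂ) • q.γ)) =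
      fun z => J z * q.ptd.G (Lc := Lc) ξ z := funext hJ1
  rw [h8]
  exact (ord_mul isOpen_univ (Set.mem_univ _) T J _ hJ (q.ptd.analytic_G ξ) h6).1 l hl

/-- the Taylor coefficients of the auxiliary section -/
theorem coeff_F0 {Lc : ℕ} (ξ : (Option (Fin g) → Fin Lc) → 𝓞 q.nf.F) {T : ℕ}
    (h : ∀ s : q.pd.Q, Pool.Agent.W245.EB.Ord (q.pd.Fn (q.pd.Phi ξ)) (q.pd.pt s) T)
    {γ' : Og g → ℂ} (hγ' : γ' ∈ q.Gam) (α : Og g →₀ ℕ) (h0 : α none = 0) (hα : α.degree < T) :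
    MvPowerSeries.coeff α (tay γ' (q.F0 ξ)) = 0 := by
  obtain ⟨k, rfl⟩ := hγ'
  rw [coeff_tay]
  obtain ⟨l, hl, hl2⟩ := lsE_up α h0
  have h1 : (DE α (q.F0 ξ)).1 (up (q.pts k)) = 0 := by
    change DL (lsE α) (q.F0 ξ).1 (up (q.pts k)) = 0
    rw [hl2, DL_up (q.F0 ξ).2]
    have h2 : (fun z => (q.F0 ξ).1 (up z)) = q.ptd.G (Lc := Lc) ξ := funext (q.F0_up ξ)
    rw [h2]
    exact q.ord_pts ξ h k _ (by rw [List.length_map, hl]; exact hα)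
  rw [h1, mul_zero]

theorem arith {g C ℓ t : ℕ}
    (hℓ : (4 * (g + 2)) ^ g * (2 * (g + 1) * C) ^ (g + 1) < ℓ)
    (ht1 : 2 * (g + 1) * C * (4 * (g + 2)) + 4 * (g + 2) + 2 ≤ t) :
    ∃ T1 : ℕ, (g + 2) * T1 < t ^ (g + 1) / 2 ∧ 1 ≤ (g + 1) * (2 * t ^ g) ∧
      C * ((g + 1) * (2 * t ^ g)) ≤ T1 ∧
      (C * ((g + 1) * (2 * t ^ g))) ^ (g + 1) < ℓ * T1 ^ g := by
  obtain ⟨B, hB⟩ : ∃ B, B = 4 * (g + 2) := ⟨_, rfl⟩
  rw [← hB] at hℓ ht1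
  have htpos : 0 < t := by omega
  have htB : B + 2 ≤ t ^ (g + 1) := by
    have h1 : t ≤ t ^ (g + 1) := Nat.le_self_pow (by omega) _
    omega
  obtain ⟨P, hP⟩ : ∃ P, P = t ^ (g + 1) := ⟨_, rfl⟩
  obtain ⟨T1, hT1⟩ : ∃ T1, T1 = (P / 2 - 1) / (g + 2) := ⟨_, rfl⟩
  rw [← hP] at htB
  have hBT : P ≤ B * T1 := by
    have h1 : (g + 2) * T1 + (g + 1) ≥ P / 2 - 1 := by
      have h2 := Nat.div_add_mod (P / 2 - 1) (g + 2)
      have h3 := Nat.mod_lt (P / 2 - 1) (by omega : 0 < g + 2)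
      rw [← hT1] at h2
      omega
    have h4 : B * T1 = 4 * ((g + 2) * T1) := by rw [hB]; ring
    rw [h4]
    omega
  have hT1lt : (g + 2) * T1 < P / 2 := by
    have h2 := Nat.mul_div_le (P / 2 - 1) (g + 2)
    rw [← hT1] at h2
    omega
  have hBpos : 0 < B := by omega
  rw [hP] at hBT hT1lt
  refine ⟨T1, hT1lt, ?_, ?_, ?_⟩
  · have h2 : 0 < (g + 1) * (2 * t ^ g) := by positivity
    omega
  · have h1 : B * (C * ((g + 1) * (2 * t ^ g))) ≤ B * T1 := by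
      refine le_trans ?_ hBT
      rw [pow_succ']
      have h2 : B * (C * ((g + 1) * (2 * t ^ g))) = (2 * (g + 1) * C * B) * t ^ g := by ring
      rw [h2]
      exact Nat.mul_le_mul_right _ (by omega)
    exact Nat.le_of_mul_le_mul_left h1 hBpos
  · have h1 : B ^ g * (C * ((g + 1) * (2 * t ^ g))) ^ (g + 1) < B ^ g * (ℓ * T1 ^ g) := by
      have h2 : B ^ g * (C * ((g + 1) * (2 * t ^ g))) ^ (g + 1) =
          (B ^ g * (2 * (g + 1) * C) ^ (g + 1)) * (t ^ (g + 1)) ^ g := by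
        have h3 : C * ((g + 1) * (2 * t ^ g)) = (2 * (g + 1) * C) * t ^ g := by ring
        have h4 : (t ^ (g + 1)) ^ g = (t ^ g) ^ (g + 1) := by
          rw [← pow_mul, ← pow_mul, mul_comm g (g + 1)]
        rw [h3, mul_pow (2 * (g + 1) * C) (t ^ g) (g + 1), h4, ← mul_assoc]
      rw [h2]
      have h3 : B ^ g * (ℓ * T1 ^ g) = ℓ * (B * T1) ^ g := by
        rw [mul_pow, mul_left_comm]
      rw [h3]
      calc B ^ g * (2 * (g + 1) * C) ^ (g + 1) * (t ^ (g + 1)) ^ g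
          < ℓ * (t ^ (g + 1)) ^ g := by
            apply Nat.mul_lt_mul_of_pos_right hℓ
            positivity
        _ ≤ ℓ * (B * T1) ^ g := Nat.mul_le_mul_left _ (Nat.pow_le_pow_left hBT g)
    exact Nat.lt_of_mul_lt_mul_left h1

theorem main_DP (hg : 0 < g) {C : ℕ} (hC : 0 < C)
    (hCz : ∀ (m T1 : ℕ) (F0 : Ent (Og g)), F0 ∈ d.GG m → F0 ≠ 0 →
      ∀ Γ : AddSubgroup (Og g → ℂ), (∀ γ ∈ Γ, d.θ0.1 (cz γ) ≠ 0) → ∀ S : Pts d.toZD,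
      (∀ p ∈ S.s, p ∈ Γ) → 1 ≤ m → C * m ≤ T1 → (C * m) ^ (g + 1) < S.s.card * T1 ^ g →
      (∀ γ ∈ Γ, ∀ α : Og g →₀ ℕ, α none = 0 → α.degree ≤ (g + 2) * T1 →
        MvPowerSeries.coeff α (tay γ F0) = 0) →
      ∃ 𝔥 : Submodule ℂ (Fin g → ℂ), 𝔥 ≠ ⊥ ∧
        ∀ x ∈ 𝔥, x ∈ Submodule.span ℝ {l | l ∈ d.L ∧ l ∈ 𝔥 ∧ d.κ l = 0})
    (hℓ : (4 * (g + 2)) ^ g * (2 * (g + 1) * C) ^ (g + 1) < q.ℓ) :
    ∃ 𝔥 : Submodule ℂ (Fin g → ℂ), 𝔥 ≠ ⊥ ∧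
        ∀ x ∈ 𝔥, x ∈ Submodule.span ℝ {l | l ∈ d.L ∧ l ∈ 𝔥 ∧ d.κ l = 0} := by
  obtain ⟨N0, hN0⟩ := q.ptd.extrapolate hg
  obtain ⟨N, hN⟩ : ∃ N, N = max N0 (2 * (g + 1) * C * (4 * (g + 2)) + 4 * (g + 2) + 2) := ⟨_, rfl⟩
  have hN1 := hN0 N (by rw [hN]; exact le_max_left _ _)
  obtain ⟨t, ht⟩ : ∃ t, t = 2 * (N + 1) ^ 3 := ⟨_, rfl⟩
  rw [← ht] at hN1
  obtain ⟨ξ, hξ0, hξ⟩ := hN1
  have htN : N ≤ t := by
    have h1 : N + 1 ≤ (N + 1) ^ 3 := Nat.le_self_pow (by norm_num) _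
    omega
  have ht1 : 2 * (g + 1) * C * (4 * (g + 2)) + 4 * (g + 2) + 2 ≤ t :=
    (by rw [hN]; exact le_max_right _ _ :
      2 * (g + 1) * C * (4 * (g + 2)) + 4 * (g + 2) + 2 ≤ N).trans htN
  obtain ⟨T1, hT1lt, hm1, hCm, hcount⟩ := arith hℓ ht1
  refine hCz ((g + 1) * (2 * t ^ g)) T1 (q.F0 ξ) (q.F0_GG ξ) (q.F0_ne ξ hξ0) q.Gam ?_ q.SS0 ?_
    hm1 hCm (by rw [q.card_SS0]; exact hcount) ?_
  · rintro _ ⟨k, rfl⟩
    rw [cz_up]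
    exact q.ne k
  · intro p hp
    obtain ⟨k, rfl⟩ := q.mem_SS0.1 hp
    exact ⟨_, rfl⟩
  · intro γ' hγ' α h0 hα
    exact q.coeff_F0 ξ hξ hγ' α h0 (lt_of_le_of_lt hα hT1lt)

end DP

/-- the theorem on periods, given the algebraicity of the values at torsion points -/
theorem main (d : TD g) {γ : Fin g → ℂ} (hγ : γ ∈ d.L) (hγ0 : γ ≠ 0) (hκ : d.κ γ = 0)
    (halg : ∀ (ℓ : ℕ), 0 < ℓ → ∀ k : ℤ, d.θ0.1 (((k : ℂ) / ℓ) • γ) ≠ 0 →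
      ∀ o : Option d.V, IsAlgebraic ℚ (d.vz o (((k : ℂ) / ℓ) • γ))) :
    ∃ 𝔥 : Submodule ℂ (Fin g → ℂ), 𝔥 ≠ ⊥ ∧
      ∀ x ∈ 𝔥, x ∈ Submodule.span ℝ {l | l ∈ d.L ∧ l ∈ 𝔥 ∧ d.κ l = 0} := by
  have hg : 0 < g := by
    rcases Nat.eq_zero_or_pos g with h | h
    · subst h
      exact absurd (Subsingleton.elim γ 0) hγ0
    · exact h
  obtain ⟨C, hC, hCz⟩ := zero_estimate d.toZD
  obtain ⟨ℓ, hℓp, hℓB, hne, hsep⟩ := d.exists_prime hγ hγ0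
    ((4 * (g + 2)) ^ g * (2 * (g + 1) * C) ^ (g + 1))
  obtain ⟨b, hb, hbJ⟩ := exists_J (V := d.V) (E := Fin g → ℂ)
    (fun v => (d.θ0.1 0 • (fderiv ℂ (d.θ v).1 0).toLinearMap -
      (d.θ v).1 0 • (fderiv ℂ d.θ0.1 0).toLinearMap : Module.Dual ℂ (Fin g → ℂ)))
    (fun w hw => d.imm w fun v => by
      have h1 := hw v
      change d.θ0.1 0 * D w (d.θ v).1 0 - (d.θ v).1 0 * D w d.θ0.1 0 = 0 at h1
      exact sub_eq_zero.1 h1) (m := g) (by simp)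
  let q : DP d :=
    { γ := γ, hγ := hγ, hγ0 := hγ0, κγ := hκ, ℓ := ℓ, prime := hℓp, ne := hne, sep := hsep
      alg := fun k o => halg ℓ hℓp.pos k (hne k) o
      b := b
      hb := hb
      hbJ := fun w hw => hbJ w fun i => by
        change d.θ0.1 0 * D w (d.θ (b i)).1 0 - (d.θ (b i)).1 0 * D w d.θ0.1 0 = 0
        exact sub_eq_zero.2 (hw i) }
  exact q.main_DP hg hC hCz hℓB

end TD

end Pool.Agent.K9h14
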