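import Mathlib

set_option autoImplicit false
set_option linter.unusedSectionVars false

/-!
# Formal power series: functionals of finite order, Hasse derivatives
-/

open MvPowerSeries Finsupp

noncomputable section

namespace Pool.Agent.K9h14

variable {σ : Type} [Fintype σ] [DecidableEq σ]

/-- formal power series -/
abbrev OO (σ : Type) := MvPowerSeries σ ℂ

/-- the ideal of the series of weighted order at least `q` -/
def nn (w : σ → ℕ) (q : ℕ) : Ideal (OO σ) where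
  carrier := {h | (q : ℕ∞) ≤ h.weightedOrder w}
  zero_mem' := by simp
  add_mem' := by
    intro a b ha hb
    exact (le_min ha hb).trans (min_weightedOrder_le_add w)
  smul_mem' := by
    intro c x hx
    exact (hx.trans le_add_self).trans (le_weightedOrder_mul w)

theorem mem_nn {w : σ → ℕ} {q : ℕ} {h : OO σ} :
    h ∈ nn w q ↔ ∀ β, weight w β < q → coeff β h = 0 := by
  constructor
  · intro hh β hβ
    apply coeff_eq_zero_of_lt_weightedOrder w
    exact lt_of_lt_of_le (by exact_mod_cast hβ) hh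
  · intro hh
    exact nat_le_weightedOrder w hh

theorem nn_mul {w : σ → ℕ} {p q : ℕ} {f h : OO σ} (hf : f ∈ nn w p) (hh : h ∈ nn w q) :
    f * h ∈ nn w (p + q) := by
  have h1 : (p : ℕ∞) ≤ f.weightedOrder w := hf
  have h2 : (q : ℕ∞) ≤ h.weightedOrder w := hh
  change ((p + q : ℕ) : ℕ∞) ≤ _
  push_cast
  exact (add_le_add h1 h2).trans (le_weightedOrder_mul w)

/-- the unweighted version -/
abbrev n1 (q : ℕ) : Ideal (OO σ) := nn (fun _ => 1) q

theorem weight_one (β : σ →₀ ℕ) : weight (fun _ => 1 : σ → ℕ) β = β.degree := by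
  have := Finsupp.degree_eq_weight_one (σ := σ) (R := ℕ)
  exact (DFunLike.congr_fun this β).symm

theorem mem_n1 {q : ℕ} {h : OO σ} : h ∈ n1 q ↔ ∀ β, β.degree < q → coeff β h = 0 := by
  rw [mem_nn]
  simp only [weight_one]

/-- the exponents of degree smaller than `q` -/
def Fq (σ : Type) [Fintype σ] (q : ℕ) : Finset (σ →₀ ℕ) := (finite_of_degree_lt (σ := σ) q).toFinset

theorem mem_Fq {q : ℕ} {β : σ →₀ ℕ} : β ∈ Fq σ q ↔ β.degree < q := by
  unfold Fq
  rw [Set.Finite.mem_toFinset]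
  rfl

/-- functionals of finite order -/
def FinOrd (q : ℕ) (μ : OO σ →ₗ[ℂ] ℂ) : Prop := ∀ h ∈ n1 q, μ h = 0

theorem sub_trunc_mem (q : ℕ) (h : OO σ) :
    h - ∑ β ∈ Fq σ q, coeff β h • monomial β (1 : ℂ) ∈ n1 q := by
  rw [mem_n1]
  intro β hβ
  rw [map_sub, map_sum, Finset.sum_eq_single β]
  · rw [map_smul, coeff_monomial_same, smul_eq_mul, mul_one, sub_self]
  · intro γ _ hγ
    rw [map_smul, coeff_monomial_ne (Ne.symm hγ), smul_zero]
  · intro h1
    exact absurd (mem_Fq.2 hβ) h1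

theorem FinOrd.apply {q : ℕ} {μ : OO σ →ₗ[ℂ] ℂ} (hμ : FinOrd q μ) (h : OO σ) :
    μ h = ∑ β ∈ Fq σ q, coeff β h * μ (monomial β 1) := by
  have h1 := hμ _ (sub_trunc_mem q h)
  rw [map_sub, map_sum, sub_eq_zero] at h1
  rw [h1]
  exact Finset.sum_congr rfl fun β _ => by rw [map_smul, smul_eq_mul]

theorem FinOrd.mono {p q : ℕ} {μ : OO σ →ₗ[ℂ] ℂ} (hμ : FinOrd p μ) (hpq : p ≤ q) :
    FinOrd q μ := by
  intro h hh
  apply hμ
  rw [mem_n1] at hh ⊢
  exact fun β hβ => hh β (hβ.trans_le hpq)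

/-- the functional `h ↦ μ (a * h)` -/
def mm (a : OO σ) (μ : OO σ →ₗ[ℂ] ℂ) : OO σ →ₗ[ℂ] ℂ := μ ∘ₗ LinearMap.mulLeft ℂ a

@[simp] theorem mm_apply (a : OO σ) (μ : OO σ →ₗ[ℂ] ℂ) (h : OO σ) : mm a μ h = μ (a * h) := rfl

theorem monomial_mem (γ : σ →₀ ℕ) (c : ℂ) : monomial γ c ∈ n1 (σ := σ) γ.degree := by
  rw [mem_n1]
  intro β hβ
  rw [coeff_monomial_ne]
  rintro rfl
  exact lt_irrefl _ hβ

theorem FinOrd.mm_monomial {q : ℕ} {μ : OO σ →ₗ[ℂ] ℂ} (hμ : FinOrd q μ) (γ : σ →₀ ℕ) :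
    FinOrd (q - γ.degree) (mm (monomial γ 1) μ) := by
  intro h hh
  rw [mm_apply]
  apply hμ
  have h1 := nn_mul (monomial_mem γ 1) hh
  rw [mem_n1]
  rw [mem_n1] at h1
  intro β hβ
  apply h1
  omega

theorem FinOrd.mm_left {q : ℕ} {μ : OO σ →ₗ[ℂ] ℂ} (hμ : FinOrd q μ) (a : OO σ) :
    FinOrd q (mm a μ) := by
  intro h hh
  rw [mm_apply]
  exact hμ _ (Ideal.mul_mem_left _ _ hh)

theorem FinOrd.mul {q : ℕ} {μ : OO σ →ₗ[ℂ] ℂ} (hμ : FinOrd q μ) (a h : OO σ) :
    μ (a * h) = ∑ γ ∈ Fq σ q, coeff γ a * mm (monomial γ 1) μ h := by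
  have h1 : μ ((a - ∑ β ∈ Fq σ q, coeff β a • monomial β (1 : ℂ)) * h) = 0 :=
    hμ _ (Ideal.mul_mem_right _ _ (sub_trunc_mem q a))
  rw [sub_mul, map_sub, sub_eq_zero, Finset.sum_mul, map_sum] at h1
  rw [h1]
  exact Finset.sum_congr rfl fun β _ => by rw [smul_mul_assoc, map_smul, smul_eq_mul, mm_apply]

/-- A space of series stable under the derivations, without constant terms, is zero. -/
theorem eq_zero_of_stable (V : Submodule ℂ (OO σ)) (h0 : ∀ h ∈ V, constantCoeff h = 0)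
    (hD : ∀ i, ∀ h ∈ V, pderiv ℂ i h ∈ V) {h : OO σ} (hh : h ∈ V) : h = 0 := by
  have key : ∀ (n : ℕ) (β : σ →₀ ℕ), β.degree = n → ∀ h ∈ V, coeff β h = 0 := by
    intro n
    induction n with
    | zero =>
      intro β hβ h hh
      have h1 : β = 0 := by
        rwa [Finsupp.degree_eq_zero_iff] at hβ
      rw [h1, coeff_zero_eq_constantCoeff]
      exact h0 h hh
    | succ n ih =>
      intro β hβ h hh
      obtain ⟨i, hi⟩ : ∃ i, β i ≠ 0 := by
        by_contra hcon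
        push Not at hcon
        have : β = 0 := Finsupp.ext hcon
        rw [this, map_zero] at hβ
        omega
      have hs : single i 1 ≤ β := by
        rw [Finsupp.single_le_iff]
        omega
      have h1 := ih (β - single i 1) (by
        have h2 : β = (β - single i 1) + single i 1 := (tsub_add_cancel_of_le hs).symm
        have h3 := congrArg Finsupp.degree h2
        rw [map_add, Finsupp.degree_single, hβ] at h3
        omega) _ (hD i h hh)
      rw [coeff_pderiv, tsub_add_cancel_of_le hs, mul_eq_zero] at h1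
      rcases h1 with h1 | h1
      · exact h1
      · exfalso
        have : (((β - single i 1 : σ →₀ ℕ) i + 1 : ℕ) : ℂ) = 0 := by
          push_cast
          exact h1
        exact Nat.cast_ne_zero.2 (Nat.succ_ne_zero _) this
  ext β
  rw [key _ β rfl h hh, map_zero]

theorem eq_zero_of_family {X : Type*} (F : X → OO σ) (h0 : ∀ x, constantCoeff (F x) = 0)
    (hD : ∀ i x, pderiv ℂ i (F x) ∈ Submodule.span ℂ (Set.range F)) (x : X) : F x = 0 := by
  apply eq_zero_of_stable (Submodule.span ℂ (Set.range F)) _ _ (Submodule.subset_span ⟨x, rfl⟩)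
  · intro h hh
    induction hh using Submodule.span_induction with
    | mem y hy =>
      obtain ⟨x, rfl⟩ := hy
      exact h0 x
    | zero => exact map_zero _
    | add a b _ _ ha hb => rw [map_add, ha, hb, add_zero]
    | smul c a _ ha =>
      rw [MvPowerSeries.smul_eq_C_mul, map_mul, ha, mul_zero]
  · intro i h hh
    induction hh using Submodule.span_induction with
    | mem y hy =>
      obtain ⟨x, rfl⟩ := hy
      exact hD i x
    | zero => rw [map_zero]; exact Submodule.zero_mem _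
    | add a b _ _ ha hb => rw [map_add]; exact Submodule.add_mem _ ha hb
    | smul c a _ ha => rw [Derivation.map_smul]; exact Submodule.smul_mem _ _ ha

/-- the Hasse derivatives -/
def Ha (α : σ →₀ ℕ) : OO σ →ₗ[ℂ] OO σ where
  toFun f := fun γ => (∏ i, (Nat.choose (γ i + α i) (α i) : ℂ)) * coeff (γ + α) f
  map_add' f g := by
    ext γ
    change _ * coeff (γ + α) (f + g) = _ * coeff (γ + α) f + _ * coeff (γ + α) g
    rw [map_add, mul_add]
  map_smul' c f := by
    ext γ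
    change _ * coeff (γ + α) (c • f) = c * (_ * coeff (γ + α) f)
    rw [map_smul, smul_eq_mul]
    ring

theorem coeff_Ha (α γ : σ →₀ ℕ) (f : OO σ) :
    coeff γ (Ha α f) = (∏ i, (Nat.choose (γ i + α i) (α i) : ℂ)) * coeff (γ + α) f := rfl

theorem coeff_Ha_comm (α γ : σ →₀ ℕ) (f : OO σ) : coeff γ (Ha α f) = coeff α (Ha γ f) := by
  rw [coeff_Ha, coeff_Ha, add_comm α γ]
  congr 1
  refine Finset.prod_congr rfl fun i _ => ?_
  have := Nat.choose_symm_add (a := γ i) (b := α i)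
  rw [add_comm (α i) (γ i)]
  rw [this]

theorem Ha_zero (f : OO σ) : Ha 0 f = f := by
  ext γ
  rw [coeff_Ha, add_zero]
  simp

theorem constantCoeff_Ha (α : σ →₀ ℕ) (f : OO σ) : constantCoeff (Ha α f) = coeff α f := by
  rw [← coeff_zero_eq_constantCoeff_apply, coeff_Ha, zero_add]
  simp

theorem pd_Ha (i : σ) (α : σ →₀ ℕ) (f : OO σ) :
    pderiv ℂ i (Ha α f) = ((α i + 1 : ℕ) : ℂ) • Ha (α + single i 1) f := by
  ext γ
  rw [coeff_pderiv, coeff_Ha, map_smul, coeff_Ha, smul_eq_mul,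
    show γ + (α + single i 1) = γ + single i 1 + α by abel]
  rw [← Finset.mul_prod_erase _ _ (Finset.mem_univ i),
    ← Finset.mul_prod_erase _ (fun j => (((γ j + (α + single i 1 : σ →₀ ℕ) j).choose ((α + single i 1 : σ →₀ ℕ) j) : ℕ) : ℂ))
      (Finset.mem_univ i)]
  have h1 : ∏ j ∈ Finset.univ.erase i, ((((γ + single i 1 : σ →₀ ℕ) j + α j).choose (α j) : ℕ) : ℂ) =
      ∏ j ∈ Finset.univ.erase i, (((γ j + (α + single i 1 : σ →₀ ℕ) j).choose ((α + single i 1 : σ →₀ ℕ) j) : ℕ) : ℂ) := by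
    refine Finset.prod_congr rfl fun j hj => ?_
    have hne : j ≠ i := Finset.ne_of_mem_erase hj
    rw [Finsupp.add_apply, Finsupp.add_apply, Finsupp.single_eq_of_ne hne, add_zero, add_zero]
  rw [h1]
  generalize (∏ j ∈ Finset.univ.erase i, (((γ j + (α + single i 1 : σ →₀ ℕ) j).choose
    ((α + single i 1 : σ →₀ ℕ) j) : ℕ) : ℂ)) = Pr
  simp only [Finsupp.add_apply, Finsupp.single_eq_same]
  have h2 : ((γ i + 1 + α i).choose (α i) : ℂ) * (γ i + 1) =
      ((α i + 1 : ℕ) : ℂ) * ((γ i + (α i + 1)).choose (α i + 1) : ℂ) := by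
    have h3 := Nat.choose_succ_right_eq (γ i + 1 + α i) (α i)
    have h4 : γ i + 1 + α i - α i = γ i + 1 := by omega
    rw [h4] at h3
    have h5 : γ i + (α i + 1) = γ i + 1 + α i := by ring
    rw [h5]
    have h6 := congrArg (fun n : ℕ => (n : ℂ)) h3
    push_cast at h6 ⊢
    linear_combination -h6
  linear_combination Pr * coeff (γ + single i 1 + α) f * h2

theorem Ha_pd (i : σ) (α : σ →₀ ℕ) (f : OO σ) :
    Ha α (pderiv ℂ i f) = ((α i + 1 : ℕ) : ℂ) • Ha (α + single i 1) f := by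
  ext γ
  rw [coeff_Ha, coeff_pderiv, map_smul, coeff_Ha, smul_eq_mul,
    show γ + (α + single i 1) = γ + α + single i 1 by abel]
  rw [← Finset.mul_prod_erase _ _ (Finset.mem_univ i),
    ← Finset.mul_prod_erase _ (fun j => (((γ j + (α + single i 1 : σ →₀ ℕ) j).choose ((α + single i 1 : σ →₀ ℕ) j) : ℕ) : ℂ))
      (Finset.mem_univ i)]
  have h1 : ∏ j ∈ Finset.univ.erase i, (((γ j + α j).choose (α j) : ℕ) : ℂ) =
      ∏ j ∈ Finset.univ.erase i, (((γ j + (α + single i 1 : σ →₀ ℕ) j).choose ((α + single i 1 : σ →₀ ℕ) j) : ℕ) : ℂ) := by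
    refine Finset.prod_congr rfl fun j hj => ?_
    have hne : j ≠ i := Finset.ne_of_mem_erase hj
    rw [Finsupp.add_apply, Finsupp.single_eq_of_ne hne, add_zero]
  rw [h1]
  generalize (∏ j ∈ Finset.univ.erase i, (((γ j + (α + single i 1 : σ →₀ ℕ) j).choose
    ((α + single i 1 : σ →₀ ℕ) j) : ℕ) : ℂ)) = Pr
  simp only [Finsupp.add_apply, Finsupp.single_eq_same]
  have h2 : ((γ i + α i).choose (α i) : ℂ) * ((γ i + α i : ℕ) + 1) =
      ((α i + 1 : ℕ) : ℂ) * ((γ i + (α i + 1)).choose (α i + 1) : ℂ) := by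
    have h3 := Nat.add_one_mul_choose_eq (γ i + α i) (α i)
    have h5 : γ i + (α i + 1) = γ i + α i + 1 := by ring
    rw [h5]
    have h6 := congrArg (fun n : ℕ => (n : ℂ)) h3
    push_cast at h6 ⊢
    linear_combination h6
  push_cast at h2 ⊢
  linear_combination Pr * coeff (γ + α + single i 1) f * h2

/-- The operator `f ↦ (x ↦ μ (f (x + ·)))`. -/
def SS (μ : OO σ →ₗ[ℂ] ℂ) : OO σ →ₗ[ℂ] OO σ where
  toFun f := fun α => μ (Ha α f)
  map_add' f g := by
    ext γ
    change μ (Ha γ (f + g)) = μ (Ha γ f) + μ (Ha γ g)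
    rw [map_add, map_add]
  map_smul' c f := by
    ext γ
    change μ (Ha γ (c • f)) = c * μ (Ha γ f)
    rw [map_smul, map_smul, smul_eq_mul]

theorem coeff_SS (μ : OO σ →ₗ[ℂ] ℂ) (α : σ →₀ ℕ) (f : OO σ) : coeff α (SS μ f) = μ (Ha α f) := rfl

theorem constantCoeff_SS (μ : OO σ →ₗ[ℂ] ℂ) (f : OO σ) : constantCoeff (SS μ f) = μ f := by
  rw [← coeff_zero_eq_constantCoeff_apply, coeff_SS, Ha_zero]

theorem pd_SS (μ : OO σ →ₗ[ℂ] ℂ) (i : σ) (f : OO σ) :
    pderiv ℂ i (SS μ f) = SS μ (pderiv ℂ i f) := by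
  ext α
  rw [coeff_pderiv, coeff_SS, coeff_SS, Ha_pd, map_smul, smul_eq_mul]
  push_cast
  ring

/-- the product rule -/
theorem SS_mul {q : ℕ} {μ : OO σ →ₗ[ℂ] ℂ} (hμ : FinOrd q μ) (a f : OO σ) :
    SS μ (a * f) = ∑ γ ∈ Fq σ q, Ha γ a * SS (mm (monomial γ 1) μ) f := by
  have key := eq_zero_of_family (X := OO σ × OO σ)
    (fun x => SS μ (x.1 * x.2) - ∑ γ ∈ Fq σ q, Ha γ x.1 * SS (mm (monomial γ 1) μ) x.2)
    (by
      rintro ⟨a, f⟩
      rw [map_sub, map_sum, constantCoeff_SS, hμ.mul, sub_eq_zero]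
      refine Finset.sum_congr rfl fun γ _ => ?_
      rw [map_mul, constantCoeff_Ha, constantCoeff_SS])
    (by
      rintro i ⟨a, f⟩
      have h1 : pderiv ℂ i (SS μ (a * f) - ∑ γ ∈ Fq σ q, Ha γ a * SS (mm (monomial γ 1) μ) f) =
          (SS μ (a * pderiv ℂ i f) -
            ∑ γ ∈ Fq σ q, Ha γ a * SS (mm (monomial γ 1) μ) (pderiv ℂ i f)) +
          (SS μ (pderiv ℂ i a * f) -
            ∑ γ ∈ Fq σ q, Ha γ (pderiv ℂ i a) * SS (mm (monomial γ 1) μ) f) := by
        rw [map_sub, map_sum, pd_SS, Derivation.leibniz, map_add, smul_eq_mul, smul_eq_mul,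
          mul_comm f (pderiv ℂ i a)]
        have h2 : ∀ γ, pderiv ℂ i (Ha γ a * SS (mm (monomial γ 1) μ) f) =
            Ha γ a * SS (mm (monomial γ 1) μ) (pderiv ℂ i f) +
              Ha γ (pderiv ℂ i a) * SS (mm (monomial γ 1) μ) f := by
          intro γ
          rw [Derivation.leibniz, smul_eq_mul, smul_eq_mul, pd_SS, pd_Ha, Ha_pd]
          ring
        rw [Finset.sum_congr rfl fun γ _ => h2 γ, Finset.sum_add_distrib]
        ring
      rw [h1]
      exact Submodule.add_mem _ (Submodule.subset_span ⟨(a, pderiv ℂ i f), rfl⟩)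
        (Submodule.subset_span ⟨(pderiv ℂ i a, f), rfl⟩)) (a, f)
  exact sub_eq_zero.1 key

end Pool.Agent.K9h14
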