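import Pool.Agent.K9h14.Z9

set_option autoImplicit false
set_option linter.unusedSectionVars false

/-!
# The counting argument
-/

open MvPowerSeries Finsupp Filter Topology

noncomputable section

namespace Pool.Agent.K9h14

variable {g : ℕ}

/-- the weights -/
def wt (T : ℕ) : Og g → ℕ := fun o => o.elim T (fun _ => 1)

theorem nn_pow {σ : Type} [Fintype σ] [DecidableEq σ] {w : σ → ℕ} {T : ℕ} {𝔅 : Ideal (OO σ)}
    (h : 𝔅 ≤ nn w T) (n : ℕ) : 𝔅 ^ n ≤ nn w (T * n) := by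
  induction n with
  | zero =>
    intro f _
    rw [mem_nn]
    intro β hβ
    omega
  | succ n ih =>
    rw [pow_succ]
    refine Ideal.mul_le.2 fun a ha b hb => ?_
    rw [mul_add, mul_one]
    exact nn_mul (ih ha) (h hb)

namespace Pts

variable {d : ZD g} (S : Pts d)

theorem nt_add (m : ℕ) (p : Og g → ℂ) (F G : Ent (Og g)) :
    S.nt m p (F + G) = S.nt m p F + S.nt m p G := by
  unfold nt
  rw [map_add, add_mul]

theorem nt_zero (m : ℕ) (p : Og g → ℂ) : S.nt m p 0 = 0 := by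
  unfold nt
  rw [map_zero, zero_mul]

theorem nt_smul (m : ℕ) (p : Og g → ℂ) (c : ℂ) (F : Ent (Og g)) :
    S.nt m p (c • F) = c • S.nt m p F := by
  unfold nt
  rw [map_smul, smul_mul_assoc]

theorem nt_mul (m n : ℕ) (p : Og g → ℂ) (F G : Ent (Og g)) :
    S.nt (m + n) p (F * G) = S.nt m p F * S.nt n p G := by
  unfold nt
  rw [map_mul, pow_add]
  ring

theorem nt_sum {ι : Type*} (t : Finset ι) (m : ℕ) (p : Og g → ℂ) (F : ι → Ent (Og g)) :
    S.nt m p (∑ i ∈ t, F i) = ∑ i ∈ t, S.nt m p (F i) := by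
  unfold nt
  rw [map_sum, Finset.sum_mul]

variable {M q : ℕ} {𝒮 : Set (Ent (Og g))}

/-- the obstruction ideals -/
abbrev BB (𝒮 : Set (Ent (Og g))) (p : Og g → ℂ) : Ideal (OO (Og g)) :=
  Ideal.span ((fun F => tay p F) '' 𝒮)

/-- products -/
def Sn (𝒮 : Set (Ent (Og g))) (M n : ℕ) : Set (Ent (Og g)) :=
  {F | F ∈ d.GG (M * n) ∧ ∀ p, tay p F ∈ (BB 𝒮 p) ^ n}

theorem BB_pow_le (h𝒮 : ∀ F ∈ 𝒮, F ∈ d.GG M) (p : Og g → ℂ) (n : ℕ) :
    (BB 𝒮 p) ^ n ≤ Ideal.span ((fun F => tay p F) '' (Sn (d := d) 𝒮 M n)) := by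
  induction n with
  | zero =>
    intro f _
    have h1 : (1 : OO (Og g)) ∈ (fun F => tay p F) '' (Sn (d := d) 𝒮 M 0) := by
      refine ⟨1, ⟨?_, fun p => ?_⟩, map_one _⟩
      · rw [mul_zero]
        exact ZD.one_GG
      · rw [pow_zero, Ideal.one_eq_top]
        trivial
    have h2 := Ideal.subset_span h1
    rw [(Ideal.eq_top_iff_one _).2 h2]
    trivial
  | succ n ih =>
    rw [pow_succ]
    refine (Ideal.mul_mono_left ih).trans ?_
    rw [Ideal.span_mul_span', Ideal.span_le]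
    rintro _ ⟨_, ⟨F, hF, rfl⟩, _, ⟨G, hG, rfl⟩, rfl⟩
    apply Ideal.subset_span
    refine ⟨F * G, ⟨?_, fun p' => ?_⟩, ?_⟩
    · rw [mul_add, mul_one]
      exact ZD.mul_GG hF.1 (h𝒮 G hG)
    · rw [map_mul, pow_succ]
      exact Ideal.mul_mem_mul (hF.2 p') (Ideal.subset_span ⟨G, hG, rfl⟩)
    · exact map_mul _ _ _

/-- one step of the approximation -/
theorem step_one (h𝒮 : ∀ F ∈ 𝒮, F ∈ d.GG M) {K0 : ℕ}
    (hK0 : ∀ t : (Og g → ℂ) → OO (Og g), ∃ F ∈ d.GG K0, ∀ p ∈ S.s, S.nt K0 p F - t p ∈ n1 q)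
    (hq : ∀ p ∈ S.s, n1 q ≤ BB 𝒮 p) (n : ℕ) {p : Og g → ℂ} (hp : p ∈ S.s) {r : OO (Og g)}
    (hr : r ∈ (BB 𝒮 p) ^ n) :
    ∃ G ∈ d.GG (M * n + K0), S.nt (M * n + K0) p G - r ∈ (BB 𝒮 p) ^ (n + 1) ∧
      ∀ p' ∈ S.s, p' ≠ p → S.nt (M * n + K0) p' G ∈ (BB 𝒮 p') ^ (n + 1) := by
  classical
  have hr' := BB_pow_le (d := d) h𝒮 p n hr
  clear hr
  suffices H : ∀ a : OO (Og g), ∃ G ∈ d.GG (M * n + K0),
      S.nt (M * n + K0) p G - a * r ∈ (BB 𝒮 p) ^ (n + 1) ∧
      ∀ p' ∈ S.s, p' ≠ p → S.nt (M * n + K0) p' G ∈ (BB 𝒮 p') ^ (n + 1) by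
    have := H 1
    rwa [one_mul] at this
  induction hr' using Submodule.span_induction with
  | mem x hx =>
    obtain ⟨F, hF, rfl⟩ := hx
    intro a
    obtain ⟨A, hA, hA1⟩ := hK0 (fun x => if x = p then a * (tay p (inc d.θ0)) ^ (M * n) else 0)
    refine ⟨F * A, ZD.mul_GG hF.1 hA, ?_, fun p' hp' hne => ?_⟩
    · have h1 := hA1 p hp
      rw [if_pos rfl] at h1
      have h2 : S.nt (M * n + K0) p (F * A) - a * tay p F =
          S.nt (M * n) p F * (S.nt K0 p A - a * (tay p (inc d.θ0)) ^ (M * n)) := by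
        rw [nt_mul]
        have h3 := S.pow_inv_mul hp (M * n)
        unfold nt
        linear_combination (a * tay p F) * h3
      beta_reduce
      rw [h2, pow_succ]
      refine Ideal.mul_mem_mul ?_ (hq p hp h1)
      unfold nt
      exact Ideal.mul_mem_right _ _ (hF.2 p)
    · have h1 := hA1 p' hp'
      rw [if_neg hne, sub_zero] at h1
      rw [nt_mul, pow_succ]
      refine Ideal.mul_mem_mul ?_ (hq p' hp' h1)
      unfold nt
      exact Ideal.mul_mem_right _ _ (hF.2 p')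
  | zero =>
    intro a
    refine ⟨0, Submodule.zero_mem _, ?_, fun p' _ _ => ?_⟩
    · rw [nt_zero, mul_zero, sub_zero]
      exact Ideal.zero_mem _
    · rw [nt_zero]
      exact Ideal.zero_mem _
  | add x y hx hy ihx ihy =>
    intro a
    obtain ⟨G, hG, h1, h2⟩ := ihx a
    obtain ⟨H, hH, h3, h4⟩ := ihy a
    refine ⟨G + H, Submodule.add_mem _ hG hH, ?_, fun p' hp' hne => ?_⟩
    · have h5 := Ideal.add_mem _ h1 h3
      rw [nt_add]
      have h6 : S.nt (M * n + K0) p G + S.nt (M * n + K0) p H - a * (x + y) =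
          S.nt (M * n + K0) p G - a * x + (S.nt (M * n + K0) p H - a * y) := by ring
      rw [h6]
      exact h5
    · rw [nt_add]
      exact Ideal.add_mem _ (h2 p' hp' hne) (h4 p' hp' hne)
  | smul c x hx ih =>
    intro a
    obtain ⟨G, hG, h1, h2⟩ := ih (a * c)
    refine ⟨G, hG, ?_, h2⟩
    rw [smul_eq_mul, ← mul_assoc]
    exact h1

/-- the approximation -/
theorem approx (h𝒮 : ∀ F ∈ 𝒮, F ∈ d.GG M) {K0 : ℕ}
    (hK0 : ∀ t : (Og g → ℂ) → OO (Og g), ∃ F ∈ d.GG K0, ∀ p ∈ S.s, S.nt K0 p F - t p ∈ n1 q)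
    (hq : ∀ p ∈ S.s, n1 q ≤ BB 𝒮 p) (k : ℕ) : ∀ t : (Og g → ℂ) → OO (Og g),
    ∃ F ∈ d.GG (M * k + K0), ∀ p ∈ S.s, S.nt (M * k + K0) p F - t p ∈ (BB 𝒮 p) ^ (k + 1) := by
  classical
  induction k with
  | zero =>
    intro t
    obtain ⟨F, hF, h1⟩ := hK0 t
    refine ⟨F, by rwa [mul_zero, zero_add], fun p hp => ?_⟩
    rw [mul_zero, zero_add, zero_add, pow_one]
    exact hq p hp (h1 p hp)
  | succ k ih =>
    intro t
    obtain ⟨F, hF, h1⟩ := ih t
    have h2 : ∀ p : S.s, ∃ G ∈ d.GG (M * (k + 1) + K0),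
        S.nt (M * (k + 1) + K0) p.1 G - (t p.1 - S.nt (M * k + K0) p.1 F) ∈
          (BB 𝒮 p.1) ^ (k + 1 + 1) ∧
        ∀ p' ∈ S.s, p' ≠ p.1 → S.nt (M * (k + 1) + K0) p' G ∈ (BB 𝒮 p') ^ (k + 1 + 1) := by
      intro p
      refine S.step_one h𝒮 hK0 hq (k + 1) p.2 ?_
      rw [← neg_sub]
      exact (Ideal.neg_mem_iff _).2 (h1 p.1 p.2)
    choose G hG hG1 hG2 using h2
    have hM : M * k + K0 + M = M * (k + 1) + K0 := by ring
    refine ⟨F * (inc d.θ0) ^ M + ∑ p : S.s, G p, Submodule.add_mem _ ?_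
      (Submodule.sum_mem _ fun p _ => hG p), fun p' hp' => ?_⟩
    · rw [← hM]
      exact ZD.mul_GG hF (pow_T0 M)
    · rw [nt_add, nt_sum, ← Finset.add_sum_erase _ _ (Finset.mem_univ (⟨p', hp'⟩ : S.s))]
      have h3 : S.nt (M * (k + 1) + K0) p' (F * (inc d.θ0) ^ M) = S.nt (M * k + K0) p' F := by
        rw [← hM]
        exact S.nt_raise hp' _ _ _
      rw [h3]
      have h4 : S.nt (M * k + K0) p' F + (S.nt (M * (k + 1) + K0) p' (G ⟨p', hp'⟩) +
          ∑ x ∈ Finset.univ.erase (⟨p', hp'⟩ : S.s), S.nt (M * (k + 1) + K0) p' (G x)) - t p' =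
          (S.nt (M * (k + 1) + K0) p' (G ⟨p', hp'⟩) - (t p' - S.nt (M * k + K0) p' F)) +
          ∑ x ∈ Finset.univ.erase (⟨p', hp'⟩ : S.s), S.nt (M * (k + 1) + K0) p' (G x) := by ring
      rw [h4]
      refine Ideal.add_mem _ (hG1 ⟨p', hp'⟩) (Ideal.sum_mem _ fun p hp => hG2 p p' hp' ?_)
      rintro rfl
      exact Finset.ne_of_mem_erase hp rfl

/-- **the counting argument** -/
theorem count {c0 : ℕ} (hc0 : ∀ m, ∀ F ∈ d.GG m,
    (∀ β : Og g →₀ ℕ, β.degree ≤ c0 * m → coeff β (tay 0 F) = 0) → F = 0)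
    (h𝒮 : ∀ F ∈ 𝒮, F ∈ d.GG M) (hM : 1 ≤ M) {T : ℕ} (hT1 : 1 ≤ T)
    (hq : ∀ p ∈ S.s, n1 q ≤ BB 𝒮 p) (hT : ∀ p ∈ S.s, BB 𝒮 p ≤ nn (wt T) T) :
    S.s.card * T ^ g ≤ ((c0 * (g + 2) + 1) * M) ^ (g + 1) := by
  classical
  obtain ⟨K0, hK0⟩ := S.exists_jets q
  set n' := K0 + 1 with hn'
  set k := (g + 1) * n' - 1 with hk
  have hk1 : k + 1 = (g + 1) * n' := by
    have : 1 ≤ (g + 1) * n' := Nat.one_le_iff_ne_zero.2 (Nat.mul_ne_zero (by omega) (by omega))
    omega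
  -- the box
  let ex : Fin n' × (Fin g → Fin (T * n')) → (Og g →₀ ℕ) := fun x =>
    Finsupp.equivFunOnFinite.symm (fun o => o.elim x.1.1 (fun i => (x.2 i).1))
  have hex0 : ∀ x, ex x none = x.1.1 := fun x => rfl
  have hex1 : ∀ x i, ex x (some i) = (x.2 i).1 := fun x i => rfl
  have hexinj : Function.Injective ex := by
    intro x y hxy
    apply Prod.ext
    · apply Fin.ext
      rw [← hex0, ← hex0, hxy]
    · funext i
      apply Fin.ext
      rw [← hex1, ← hex1, hxy]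
  have hexw : ∀ x, weight (wt T) (ex x) < T * (k + 1) := by
    intro x
    have h1 : weight (wt T) (ex x) = x.1.1 * T + ∑ i : Fin g, (x.2 i).1 := by
      rw [Finsupp.weight_apply, Finsupp.sum_fintype (ex x) (fun i c => c • wt T i)
        (fun i => zero_smul _ _), Fintype.sum_option, hex0]
      congr 1
      refine Finset.sum_congr rfl fun i _ => ?_
      rw [hex1, smul_eq_mul]
      exact mul_one _
    rw [h1, hk1]
    have h2 : ∑ i : Fin g, (x.2 i).1 ≤ g * (T * n') := by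
      calc ∑ i : Fin g, (x.2 i).1 ≤ ∑ _i : Fin g, T * n' :=
            Finset.sum_le_sum fun i _ => (x.2 i).2.le
        _ = g * (T * n') := by simp
    have h3 : x.1.1 * T + T ≤ n' * T := by
      have h4 : x.1.1 + 1 ≤ n' := x.1.2
      calc x.1.1 * T + T = (x.1.1 + 1) * T := by ring
        _ ≤ n' * T := Nat.mul_le_mul_right _ h4
    have h5 : T * ((g + 1) * n') = g * (T * n') + n' * T := by ring
    omega
  let Ψ : Ent (Og g) →ₗ[ℂ] (S.s × (Fin n' × (Fin g → Fin (T * n'))) → ℂ) :=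
    { toFun := fun F x => coeff (ex x.2) (S.nt (M * k + K0) x.1.1 F)
      map_add' := fun F G => by
        funext x
        rw [nt_add, map_add]
        rfl
      map_smul' := fun c F => by
        funext x
        rw [nt_smul, map_smul]
        rfl }
  have hsurj : ∀ v, ∃ F ∈ d.GG (M * k + K0), Ψ F = v := by
    intro v
    let t : (Og g → ℂ) → OO (Og g) := fun p β =>
      if h : ∃ x : S.s × (Fin n' × (Fin g → Fin (T * n'))), x.1.1 = p ∧ ex x.2 = β
        then v h.choose else 0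
    have ht : ∀ x : S.s × (Fin n' × (Fin g → Fin (T * n'))),
        coeff (ex x.2) (t x.1.1) = v x := by
      intro x
      have hx : ∃ y : S.s × (Fin n' × (Fin g → Fin (T * n'))),
          y.1.1 = x.1.1 ∧ ex y.2 = ex x.2 := ⟨x, rfl, rfl⟩
      have h1 : coeff (ex x.2) (t x.1.1) = v hx.choose := by
        change (if h : ∃ y : S.s × (Fin n' × (Fin g → Fin (T * n'))),
          y.1.1 = x.1.1 ∧ ex y.2 = ex x.2 then v h.choose else 0) = _
        rw [dif_pos hx]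
      rw [h1]
      congr 1
      obtain ⟨h2, h3⟩ := hx.choose_spec
      exact Prod.ext (Subtype.ext h2) (hexinj h3)
    obtain ⟨F, hF, h1⟩ := S.approx h𝒮 hK0 hq k t
    refine ⟨F, hF, ?_⟩
    funext x
    have h2 := nn_pow (hT x.1.1 x.1.2) (k + 1) (h1 x.1.1 x.1.2)
    rw [mem_nn] at h2
    have h3 := h2 (ex x.2) (hexw x.2)
    rw [map_sub, sub_eq_zero] at h3
    change coeff (ex x.2) (S.nt (M * k + K0) x.1.1 F) = v x
    rw [h3, ht]
  have h1 := card_le_of_surj d hc0 (M * k + K0) Ψ hsurj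
  rw [Fintype.card_prod, Fintype.card_prod, Fintype.card_coe, Fintype.card_fin,
    Fintype.card_fun, Fintype.card_fin, Fintype.card_fin] at h1
  have h2 : c0 * (M * k + K0) + 1 ≤ (c0 * (g + 2) + 1) * M * n' := by
    have h3 : M * k ≤ M * ((g + 1) * n') := Nat.mul_le_mul_left _ (by omega)
    have h4 : K0 ≤ M * n' := by
      calc K0 ≤ 1 * n' := by omega
        _ ≤ M * n' := Nat.mul_le_mul_right _ hM
    have h5 : 1 ≤ M * n' := Nat.one_le_iff_ne_zero.2 (Nat.mul_ne_zero (by omega) (by omega))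
    calc c0 * (M * k + K0) + 1 ≤ c0 * (M * ((g + 1) * n') + M * n') + M * n' := by gcongr
      _ = (c0 * (g + 2) + 1) * M * n' := by ring
  have h3 : (S.s.card * T ^ g) * n' ^ (g + 1) ≤
      ((c0 * (g + 2) + 1) * M) ^ (g + 1) * n' ^ (g + 1) := by
    calc (S.s.card * T ^ g) * n' ^ (g + 1) = S.s.card * (n' * (T * n') ^ g) := by
          rw [mul_pow, pow_succ]
          ring
      _ ≤ (c0 * (M * k + K0) + 1) ^ (g + 1) := h1
      _ ≤ ((c0 * (g + 2) + 1) * M * n') ^ (g + 1) := Nat.pow_le_pow_left h2 _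
      _ = _ := by rw [mul_pow]
  exact Nat.le_of_mul_le_mul_right h3 (Nat.pow_pos (by omega))

end Pts

end Pool.Agent.K9h14
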