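import Pool.Agent.K9h14.Z10

set_option autoImplicit false
set_option linter.unusedSectionVars false

/-!
# The ideals of derivatives and the stabilizer
-/

open MvPowerSeries Finsupp Filter Topology

noncomputable section

namespace Pool.Agent.K9h14

section gen

variable {σ : Type} [Fintype σ] [DecidableEq σ]

/-- a proper prime over an ideal which is not primary to the maximal ideal -/
theorem exists_prime_ne (I : Ideal (OO σ)) (h : ∀ q, ¬ n1 q ≤ I) :
    ∃ Q : Ideal (OO σ), Q.IsPrime ∧ I ≤ Q ∧ Q ≠ mx σ := by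
  by_contra hcon
  push Not at hcon
  have h1 : mx σ ≤ I.radical := by
    rw [Ideal.radical_eq_sInf]
    refine le_sInf fun Q hQ => ?_
    rw [hcon Q hQ.2 hQ.1]
  obtain ⟨n, hn⟩ := Ideal.exists_pow_le_of_le_radical_of_fg h1 (IsNoetherian.noetherian _)
  exact h n ((n1_le_pow n).trans hn)

theorem Dh_add_left (v w : σ → ℂ) (f : OO σ) : Dh (v + w) f = Dh v f + Dh w f := by
  rw [Dh_apply, Dh_apply, Dh_apply, ← Finset.sum_add_distrib]
  exact Finset.sum_congr rfl fun i _ => by rw [Pi.add_apply, add_smul]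

theorem Dh_smul_left (c : ℂ) (v : σ → ℂ) (f : OO σ) : Dh (c • v) f = c • Dh v f := by
  rw [Dh_apply, Dh_apply, Finset.smul_sum]
  exact Finset.sum_congr rfl fun i _ => by rw [Pi.smul_apply, smul_eq_mul, mul_smul]

theorem Dh_zero_left (f : OO σ) : Dh 0 f = 0 := by
  rw [Dh_apply]
  exact Finset.sum_eq_zero fun i _ => by rw [Pi.zero_apply, zero_smul]

/-- the directions which preserve an ideal -/
def hh (P : Ideal (OO σ)) : Submodule ℂ (σ → ℂ) where
  carrier := {v | ∀ f ∈ P, Dh v f ∈ P}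
  zero_mem' := fun f _ => by
    rw [Dh_zero_left]
    exact P.zero_mem
  add_mem' := by
    intro v w hv hw f hf
    rw [Dh_add_left]
    exact P.add_mem (hv f hf) (hw f hf)
  smul_mem' := by
    intro c v hv f hf
    rw [Dh_smul_left, MvPowerSeries.smul_eq_C_mul]
    exact P.mul_mem_left _ (hv f hf)

theorem mem_hh {P : Ideal (OO σ)} {v : σ → ℂ} : v ∈ hh P ↔ ∀ f ∈ P, Dh v f ∈ P := Iff.rfl

theorem SS_coeff (α δ : σ →₀ ℕ) (f : OO σ) :
    SS (mm (monomial δ 1) (coeff α)) f = if δ ≤ α then Ha (α - δ) f else 0 := by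
  classical
  ext β
  rw [coeff_SS, mm_apply, coeff_monomial_mul]
  by_cases h : δ ≤ α
  · rw [if_pos h, if_pos h, one_mul, coeff_Ha_comm]
  · rw [if_neg h, if_neg h, map_zero]

theorem finOrd_coeff (α : σ →₀ ℕ) : FinOrd (α.degree + 1) (coeff α : OO σ →ₗ[ℂ] ℂ) := by
  intro h hh
  exact mem_n1.1 hh α (Nat.lt_succ_self _)

theorem pdE_fuE {q : ℕ} {μ : OO σ →ₗ[ℂ] ℂ} (hμ : FinOrd q μ) (F : Ent σ) (i : σ) :
    pdE i (fuE hμ F) = fuE hμ (pdE i F) := by
  have h1 : tay 0 (pdE i (fuE hμ F) - fuE hμ (pdE i F)) = 0 := by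
    rw [map_sub, ← pd_tay, tay_fuE, tay_fuE, pd_SS, pd_tay, sub_self]
  exact sub_eq_zero.1 (tay_injective h1)

end gen

variable {g : ℕ}

/-- the ideals of derivatives -/
def JJ (F0 : Ent (Og g)) (Γ : AddSubgroup (Og g → ℂ)) (t : ℕ) : Ideal (OO (Og g)) :=
  Ideal.span {f | ∃ γ ∈ Γ, ∃ α : Og g →₀ ℕ, α none = 0 ∧ α.degree ≤ t ∧ f = Ha α (tay γ F0)}

variable {F0 : Ent (Og g)} {Γ : AddSubgroup (Og g → ℂ)}

theorem mem_JJ {t : ℕ} {γ : Og g → ℂ} (hγ : γ ∈ Γ) {α : Og g →₀ ℕ} (h0 : α none = 0)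
    (ht : α.degree ≤ t) : Ha α (tay γ F0) ∈ JJ F0 Γ t :=
  Ideal.subset_span ⟨γ, hγ, α, h0, ht, rfl⟩

theorem JJ_mono {s t : ℕ} (h : s ≤ t) : JJ F0 Γ s ≤ JJ F0 Γ t := by
  refine Ideal.span_mono ?_
  rintro f ⟨γ, hγ, α, h0, hs, rfl⟩
  exact ⟨γ, hγ, α, h0, hs.trans h, rfl⟩

theorem pd_JJ {t : ℕ} (i : Fin g) {f : OO (Og g)} (hf : f ∈ JJ F0 Γ t) :
    pderiv ℂ (some i) f ∈ JJ F0 Γ (t + 1) := by
  induction hf using Submodule.span_induction with
  | mem x hx =>
    obtain ⟨γ, hγ, α, h0, ht, rfl⟩ := hx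
    rw [pd_Ha, MvPowerSeries.smul_eq_C_mul]
    refine Ideal.mul_mem_left _ _ (mem_JJ hγ ?_ ?_)
    · rw [Finsupp.add_apply, h0, Finsupp.single_eq_of_ne (by simp), add_zero]
    · rw [map_add, Finsupp.degree_single]
      omega
  | zero => rw [map_zero]; exact Ideal.zero_mem _
  | add x y _ _ hx hy => rw [map_add]; exact Ideal.add_mem _ hx hy
  | smul a x hx ih =>
    rw [smul_eq_mul, Derivation.leibniz, smul_eq_mul, smul_eq_mul]
    exact Ideal.add_mem _ (Ideal.mul_mem_left _ _ ih)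
      (Ideal.mul_mem_right _ _ (JJ_mono (Nat.le_succ t) hx))

theorem Ha_JJ {t : ℕ} {f : OO (Og g)} (hf : f ∈ JJ F0 Γ t) : ∀ (n : ℕ) (α : Og g →₀ ℕ),
    α none = 0 → α.degree = n → Ha α f ∈ JJ F0 Γ (t + n) := by
  intro n
  induction n with
  | zero =>
    intro α _ hα
    rw [Finsupp.degree_eq_zero_iff] at hα
    rw [hα, Ha_zero, add_zero]
    exact hf
  | succ n ih =>
    intro α h0 hα
    obtain ⟨i, hi⟩ : ∃ i, α i ≠ 0 := by
      by_contra hcon
      push Not at hcon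
      have : α = 0 := Finsupp.ext hcon
      rw [this, map_zero] at hα
      omega
    obtain ⟨j, rfl⟩ : ∃ j, i = some j := by
      rcases i with _ | j
      · exact absurd h0 hi
      · exact ⟨j, rfl⟩
    have hs : single (some j) 1 ≤ α := by
      rw [Finsupp.single_le_iff]
      omega
    obtain ⟨β, rfl⟩ : ∃ β, α = β + single (some j) 1 :=
      ⟨α - single (some j) 1, (tsub_add_cancel_of_le hs).symm⟩
    have hβ : β.degree = n := by
      rw [map_add, Finsupp.degree_single] at hα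
      omega
    have hβ0 : β none = 0 := by
      rw [Finsupp.add_apply, Finsupp.single_eq_of_ne (by simp), add_zero] at h0
      exact h0
    have h1 := pd_JJ j (ih β hβ0 hβ)
    rw [pd_Ha] at h1
    have h3 : ((β (some j) + 1 : ℕ) : ℂ) ≠ 0 := Nat.cast_ne_zero.2 (Nat.succ_ne_zero _)
    have h4 : Ha (β + single (some j) 1) f =
        ((β (some j) + 1 : ℕ) : ℂ)⁻¹ • (((β (some j) + 1 : ℕ) : ℂ) • Ha (β + single (some j) 1) f) := by
      rw [smul_smul, inv_mul_cancel₀ h3, one_smul]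
    rw [h4, MvPowerSeries.smul_eq_C_mul, ← add_assoc]
    exact Ideal.mul_mem_left _ _ h1

/-- the shifted functionals -/
theorem SS_JJ {𝔔 : Ideal (OO (Og g))} {T1 r : ℕ}
    (H : ∀ ν ∈ Ann (JJ F0 Γ T1), ∀ γ ∈ Γ, SS ν (tay γ F0) ∈ 𝔔) {f : OO (Og g)}
    (hf : f ∈ JJ F0 Γ (r * T1)) :
    ∀ μ ∈ Ann (JJ F0 Γ ((r + 1) * T1)), SS μ f ∈ 𝔔 := by
  induction hf using Submodule.span_induction with
  | mem x hx =>
    obtain ⟨γ, hγ, α, h0, ht, rfl⟩ := hx
    rintro μ ⟨⟨q, hq⟩, hμ⟩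
    rw [← SS_comp_Ha]
    refine H _ ⟨⟨_, hq.comp_Ha α⟩, fun h hh => ?_⟩ γ hγ
    rw [LinearMap.comp_apply]
    apply hμ
    refine JJ_mono ?_ (Ha_JJ hh α.degree α h0 rfl)
    rw [add_mul, one_mul, add_comm]
    exact Nat.add_le_add_right ht _
  | zero =>
    intro μ _
    rw [map_zero]
    exact 𝔔.zero_mem
  | add x y _ _ hx hy =>
    intro μ hμ
    rw [map_add]
    exact 𝔔.add_mem (hx μ hμ) (hy μ hμ)
  | smul a x _ ih =>
    intro μ hμ
    obtain ⟨q, hq⟩ := hμ.1
    rw [smul_eq_mul, SS_mul hq]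
    exact 𝔔.sum_mem fun γ _ => 𝔔.mul_mem_left _ (ih _ (Ann_mm hμ _))

/-- the case of a direction transversal to the hyperplane -/
theorem case_a {P : Ideal (OO (Og g))} (hPM : P ≤ mx (Og g)) {T1 : ℕ} (hJ : JJ F0 Γ T1 ≤ P)
    {v : Og g → ℂ} (hv : v ∈ hh P) (hv0 : v none ≠ 0) :
    ∀ β : Og g →₀ ℕ, β.degree ≤ T1 → coeff β (tay 0 F0) = 0 := by
  have key : ∀ (j : ℕ) (α : Og g →₀ ℕ), α none = 0 → α.degree + j ≤ T1 →
      Ha (α + single none j) (tay 0 F0) ∈ P := by
    intro j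
    induction j with
    | zero =>
      intro α h0 hα
      rw [single_zero, add_zero]
      exact hJ (mem_JJ Γ.zero_mem h0 hα)
    | succ j ih =>
      intro α h0 hα
      have h1 := ih α h0 (by omega)
      have h2 := hv _ h1
      rw [Dh_apply, Fintype.sum_option] at h2
      have h3 : ∑ i : Fin g, v (some i) • pderiv ℂ (some i)
          (Ha (α + single none j) (tay 0 F0)) ∈ P := by
        refine P.sum_mem fun i _ => ?_
        rw [MvPowerSeries.smul_eq_C_mul]
        refine P.mul_mem_left _ ?_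
        rw [pd_Ha, MvPowerSeries.smul_eq_C_mul]
        refine P.mul_mem_left _ ?_
        rw [add_right_comm]
        refine ih _ ?_ ?_
        · rw [Finsupp.add_apply, h0, Finsupp.single_eq_of_ne (by simp), add_zero]
        · rw [map_add, Finsupp.degree_single]
          omega
      have h4 := (P.add_mem_iff_left h3).1 h2
      rw [pd_Ha, smul_smul, add_assoc, ← single_add] at h4
      have h5 : (v none * (((α + single none j : Og g →₀ ℕ) none + 1 : ℕ) : ℂ)) ≠ 0 :=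
        mul_ne_zero hv0 (Nat.cast_ne_zero.2 (Nat.succ_ne_zero _))
      have h6 : Ha (α + single none (j + 1)) (tay 0 F0) =
          C (v none * (((α + single none j : Og g →₀ ℕ) none + 1 : ℕ) : ℂ))⁻¹ *
          ((v none * (((α + single none j : Og g →₀ ℕ) none + 1 : ℕ) : ℂ)) •
            Ha (α + single none (j + 1)) (tay 0 F0)) := by
        rw [← MvPowerSeries.smul_eq_C_mul, smul_smul, inv_mul_cancel₀ h5, one_smul]
      rw [h6]
      exact P.mul_mem_left _ h4
  intro β hβ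
  have h1 : β = β.erase none + single none (β none) := (Finsupp.erase_add_single none β).symm
  have h2 := congrArg Finsupp.degree h1
  rw [map_add, Finsupp.degree_single] at h2
  have h3 := key (β none) (β.erase none) (Finsupp.erase_same) (by omega)
  rw [← h1] at h3
  rw [← constantCoeff_Ha]
  exact mem_mx.1 (hPM h3)

/-- the sections in an ideal -/
def PP (d : ZD g) (P : Ideal (OO (Og g))) : Set (Ent (Og g)) := {F | ∃ M, F ∈ d.GG M ∧ tay 0 F ∈ P}

/-- the ideal generated by sections -/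
def Pz (d : ZD g) (P : Ideal (OO (Og g))) : Ideal (OO (Og g)) :=
  Ideal.span ((fun F => tay 0 F) '' PP d P)

theorem Pz_le (d : ZD g) (P : Ideal (OO (Og g))) : Pz d P ≤ P := by
  unfold Pz
  rw [Ideal.span_le]
  rintro _ ⟨F, ⟨M, _, h⟩, rfl⟩
  exact h

theorem inc_pow_ne (d : ZD g) (m : ℕ) {p : Og g → ℂ} (hp : d.θ0.1 (cz p) ≠ 0) :
    ((inc d.θ0) ^ m : Ent (Og g)).1 p ≠ 0 := by
  have h1 : ((inc d.θ0) ^ m : Ent (Og g)).1 p = (d.θ0.1 (cz p)) ^ m := by
    change ((inc d.θ0).1 ^ m) p = _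
    rfl
  rw [h1]
  exact pow_ne_zero _ hp

theorem isUnit_tay {B : Ent (Og g)} {p : Og g → ℂ} (h : B.1 p ≠ 0) : IsUnit (tay p B) := by
  rw [isUnit_iff_constantCoeff, constantCoeff_tay]
  exact isUnit_iff_ne_zero.2 h

/-- the ideals of derivatives are generated by sections -/
theorem JJ_le_Pz (d : ZD g) {P : Ideal (OO (Og g))} {m t : ℕ} (hF0 : F0 ∈ d.GG m)
    (hΓ : ∀ γ ∈ Γ, d.θ0.1 (cz γ) ≠ 0) (hJ : JJ F0 Γ t ≤ P) : JJ F0 Γ t ≤ Pz d P := by
  classical
  have key : ∀ (n : ℕ) (γ : Og g → ℂ), γ ∈ Γ → ∀ α : Og g →₀ ℕ, α.degree = n → α none = 0 →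
      n ≤ t → Ha α (tay γ F0) ∈ Pz d P := by
    intro n
    induction n using Nat.strong_induction_on with
    | _ n ih =>
      intro γ hγ α hn h0 hnt
      set B : Ent (Og g) := (inc d.θ0) ^ m with hB
      have hBG : B ∈ d.GG m := Pts.pow_T0 m
      have hRR := ZD.RR_GG d hF0 hBG (finOrd_coeff α) γ
      have hB0 : B.1 (0 - γ) ≠ 0 := by
        apply inc_pow_ne
        rw [zero_sub]
        exact hΓ _ (Γ.neg_mem hγ)
      have htay := tay_RR (finOrd_coeff α) γ 0 F0 B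
      have hterm : ∀ δ : Og g →₀ ℕ, δ ≤ α → (α - δ) none = 0 ∧ (α - δ).degree + δ.degree = n := by
        intro δ hδ
        have h2 := congrArg Finsupp.degree (tsub_add_cancel_of_le hδ)
        rw [map_add] at h2
        refine ⟨?_, by omega⟩
        rw [Finsupp.tsub_apply, h0]
        omega
      have h1 : tay 0 (RR (α.degree + 1) (coeff α) γ F0 B) ∈ P := by
        rw [htay]
        refine P.sum_mem fun δ _ => P.mul_mem_left _ ?_
        rw [SS_coeff]
        split_ifs with hδ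
        · obtain ⟨h3, h4⟩ := hterm δ hδ
          rw [zero_add]
          exact hJ (mem_JJ hγ h3 (by omega))
        · exact P.zero_mem
      have h2 : tay 0 (RR (α.degree + 1) (coeff α) γ F0 B) ∈ Pz d P :=
        Ideal.subset_span ⟨_, ⟨2 * m, hRR, h1⟩, rfl⟩
      rw [htay, ← Finset.add_sum_erase _ _ (mem_Fq.2 (show (0 : Og g →₀ ℕ).degree < α.degree + 1 by
        rw [map_zero]; omega))] at h2
      have h3 : ∑ δ ∈ (Fq (Og g) (α.degree + 1)).erase 0,
          ((-1 : ℂ) ^ δ.degree • Ha δ (tay (0 - γ) B)) *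
            SS (mm (monomial δ 1) (coeff α)) (tay (0 + γ) F0) ∈ Pz d P := by
        refine Ideal.sum_mem _ fun δ hδ => Ideal.mul_mem_left _ _ ?_
        have hδ0 : δ.degree ≠ 0 := by
          rw [Ne, Finsupp.degree_eq_zero_iff]
          exact Finset.ne_of_mem_erase hδ
        rw [SS_coeff]
        split_ifs with hδα
        · obtain ⟨h3, h4⟩ := hterm δ hδα
          rw [zero_add]
          exact ih (α - δ).degree (by omega) γ hγ _ rfl h3 (by omega)
        · exact Ideal.zero_mem _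
      have h4 := ((Pz d P).add_mem_iff_left h3).1 h2
      rw [map_zero, pow_zero, one_smul, Ha_zero, SS_coeff, if_pos (show (0 : Og g →₀ ℕ) ≤ α from bot_le), tsub_zero,
        zero_add] at h4
      exact (Ideal.unit_mul_mem_iff_mem _ (isUnit_tay hB0)).1 h4
  unfold JJ
  rw [Ideal.span_le]
  rintro _ ⟨γ, hγ, α, h0, ht, rfl⟩
  exact key _ γ hγ α rfl h0 ht

theorem Dh_ngO (v : Og g → ℂ) (f : OO (Og g)) : Dh v (ngO f) = -ngO (Dh v f) := by
  rw [Dh_apply, Dh_apply, map_sum, ← Finset.sum_neg_distrib]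
  refine Finset.sum_congr rfl fun i _ => ?_
  rw [pd_ngO, map_smul, smul_neg]

/-- the functional of the first derivative -/
def dv (v : Og g → ℂ) : OO (Og g) →ₗ[ℂ] ℂ := (coeff 0 : OO (Og g) →ₗ[ℂ] ℂ) ∘ₗ Dh v

theorem dv_apply (v : Og g → ℂ) (f : OO (Og g)) : dv v f = constantCoeff (Dh v f) := rfl

theorem finOrd_dv (v : Og g → ℂ) : FinOrd 2 (dv v) := by
  intro h hh
  rw [dv_apply, Dh_apply, map_sum]
  refine Finset.sum_eq_zero fun i _ => ?_
  rw [MvPowerSeries.smul_eq_C_mul, map_mul, ← coeff_zero_eq_constantCoeff_apply (pderiv ℂ i h),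
    coeff_pderiv, mem_n1.1 hh _ (by
      rw [map_add, map_zero, Finsupp.degree_single]
      norm_num)]
  simp

theorem RR_dv (v : Og g → ℂ) (A B : Ent (Og g)) :
    RR 2 (dv v) 0 A B = DhE v A * B - A * DhE v B := by
  apply Subtype.ext
  funext x
  rw [RR_apply (finOrd_dv v), dv_apply, tay_Kx, Dh_mul, Dh_ngO, map_add, map_mul, map_mul,
    map_neg, constantCoeff_ngO, constantCoeff_ngO, add_zero, sub_zero, ← tay_DhE, ← tay_DhE,
    constantCoeff_tay, constantCoeff_tay, constantCoeff_tay, constantCoeff_tay]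
  change A.1 x * -(DhE v B).1 x + B.1 x * (DhE v A).1 x = (DhE v A).1 x * B.1 x - A.1 x * (DhE v B).1 x
  ring

/-- new directions -/
theorem new_direction (d : ZD g) {P : Ideal (OO (Og g))} (hP : P ∈ (Pz d P).minimalPrimes)
    {v : Og g → ℂ} (hv : ∀ F ∈ PP d P, Dh v (tay 0 F) ∈ P) : v ∈ hh P := by
  have h1 : ∀ f ∈ Pz d P, Dh v f ∈ Pz d P := by
    intro f hf
    induction hf using Submodule.span_induction with
    | mem x hx =>
      obtain ⟨F, hF, rfl⟩ := hx
      have h2 := hv F hF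
      obtain ⟨M, hFM, hFP⟩ := hF
      set B : Ent (Og g) := (inc d.θ0) ^ M with hB
      have hBG : B ∈ d.GG M := Pts.pow_T0 M
      have hRR := ZD.RR_GG d hFM hBG (finOrd_dv v) 0
      have h3 : tay 0 (RR 2 (dv v) 0 F B) =
          Dh v (tay 0 F) * tay 0 B - tay 0 F * tay 0 (DhE v B) := by
        rw [RR_dv, map_sub, map_mul, map_mul, tay_DhE]
      have h4 : tay 0 (RR 2 (dv v) 0 F B) ∈ P := by
        rw [h3]
        exact P.sub_mem (P.mul_mem_right _ h2) (P.mul_mem_right _ hFP)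
      have h5 : tay 0 (RR 2 (dv v) 0 F B) ∈ Pz d P := Ideal.subset_span ⟨_, ⟨_, hRR, h4⟩, rfl⟩
      have h6 : tay 0 F ∈ Pz d P := Ideal.subset_span ⟨F, ⟨M, hFM, hFP⟩, rfl⟩
      have h7 : tay 0 B * Dh v (tay 0 F) ∈ Pz d P := by
        have h8 : tay 0 B * Dh v (tay 0 F) = tay 0 (RR 2 (dv v) 0 F B) +
            tay 0 F * tay 0 (DhE v B) := by
          rw [h3]
          ring
        rw [h8]
        exact Ideal.add_mem _ h5 (Ideal.mul_mem_right _ _ h6)
      have hB0 : B.1 0 ≠ 0 := by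
        apply inc_pow_ne
        rw [map_zero]
        exact d.one
      exact (Ideal.unit_mul_mem_iff_mem _ (isUnit_tay hB0)).1 h7
    | zero => rw [map_zero]; exact Ideal.zero_mem _
    | add x y _ _ hx hy => rw [map_add]; exact Ideal.add_mem _ hx hy
    | smul a x hx ih =>
      rw [smul_eq_mul, Dh_mul]
      exact Ideal.add_mem _ (Ideal.mul_mem_left _ _ ih) (Ideal.mul_mem_right _ _ hx)
  exact deriv_stable hP (fun x => Dh v x) (fun x y => map_add _ x y) (Dh_mul v) h1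

end Pool.Agent.K9h14
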