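import Pool.Agent.K9h14.Z11

set_option autoImplicit false
set_option linter.unusedSectionVars false

/-!
# The stabilizer and the periods
-/

open MvPowerSeries Finsupp Filter Topology

noncomputable section

namespace Pool.Agent.K9h14

variable {g : ℕ} (d : ZD g) (P : Ideal (OO (Og g)))

theorem ZD.κ_zero : d.κ 0 = 0 := by
  have h := d.κ_add 0 d.L.zero_mem 0 d.L.zero_mem
  rw [add_zero] at h
  have h2 : d.κ 0 + d.κ 0 = d.κ 0 + 0 := by rw [add_zero]; exact h.symm
  exact add_left_cancel h2

theorem ZD.κ_neg {l : Fin g → ℂ} (hl : l ∈ d.L) : d.κ (-l) = -d.κ l := by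
  have h := d.κ_add l hl (-l) (d.L.neg_mem hl)
  rw [add_neg_cancel, d.κ_zero] at h
  exact (neg_eq_of_add_eq_zero_right h.symm).symm

theorem ZD.κ_sub {l l' : Fin g → ℂ} (hl : l ∈ d.L) (hl' : l' ∈ d.L) :
    d.κ (l - l') = d.κ l - d.κ l' := by
  rw [sub_eq_add_neg, d.κ_add l hl _ (d.L.neg_mem hl'), d.κ_neg hl', sub_eq_add_neg]

/-- the group generated by the directions and the periods -/
def ZG : Set (Og g → ℂ) := {x | ∃ h ∈ hh P, ∃ l ∈ d.L, x = h + d.li l}

/-- the points where the sections stay in the ideal -/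
def ZZ : Set (Og g → ℂ) := {x | ∀ F ∈ PP d P, tay x F ∈ P}

theorem ZG_subset : ZG d P ⊆ ZZ d P := by
  rintro _ ⟨h, hh', l, hl, rfl⟩ F ⟨M, hF, hFP⟩
  have h1 : tay (0 + h) F ∈ P := tay_add_mem hh' hFP
  rw [zero_add] at h1
  have h2 : tr (d.li l) F = (⟨fun x => d.J l x ^ M, by
      have hJ : AnalyticOnNhd ℂ (fun x : Og g → ℂ => d.J l x) Set.univ := by
        intro x _
        unfold ZD.J
        apply AnalyticAt.cexp
        apply AnalyticAt.add _ analyticAt_const
        refine Finset.analyticAt_fun_sum _ fun k _ => analyticAt_const.mul ?_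
        exact (ContinuousLinearMap.proj (some k) : (Og g → ℂ) →L[ℂ] ℂ).analyticAt x
      exact fun x hx => (hJ x hx).pow M⟩ : Ent (Og g)) * F := by
    apply Subtype.ext
    funext x
    exact hF.1 l hl x
  rw [← tay_tr, h2, map_mul]
  exact P.mul_mem_left _ h1

theorem ZG_li {l : Fin g → ℂ} (hl : l ∈ d.L) {h : Og g → ℂ} (hh' : h ∈ hh P) :
    h + d.li l ∈ ZG d P := ⟨h, hh', l, hl, rfl⟩

theorem ZG_add_hh {x h : Og g → ℂ} (hx : x ∈ ZG d P) (hh' : h ∈ hh P) : x + h ∈ ZG d P := by
  obtain ⟨h', hh'', l, hl, rfl⟩ := hx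
  exact ⟨h' + h, (hh P).add_mem hh'' hh', l, hl, by abel⟩

/-- limits of directions -/
theorem limit_direction {v : ℕ → Og g → ℂ} (hv : ∀ k, v k ∈ ZZ d P) (hne : ∀ k, v k ≠ 0)
    (hv0 : Tendsto v atTop (𝓝 0)) {w : Og g → ℂ}
    (hw : Tendsto (fun k => ((‖v k‖⁻¹ : ℝ) : ℂ) • v k) atTop (𝓝 w)) :
    ∀ F ∈ PP d P, Dh w (tay 0 F) ∈ P := by
  intro F hF
  apply mem_of_Ann
  rintro μ ⟨⟨q, hq⟩, hμ⟩
  set f := fuE hq F with hf
  have h1 : HasFDerivAt f.1 (fderiv ℂ f.1 0) 0 := (ediff f 0).hasFDerivAt
  have hf0 : ∀ x ∈ ZZ d P, f.1 x = 0 := fun x hx => hμ _ (hx F hF)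
  have hf00 : f.1 0 = 0 := by
    have h2 : tay 0 F ∈ P := by
      obtain ⟨M, _, h⟩ := hF
      exact h
    exact hμ _ h2
  have h2 := (hasFDerivAt_iff_isLittleO_nhds_zero.1 h1)
  have h3 : (fun k => f.1 (0 + v k) - f.1 0 - (fderiv ℂ f.1 0) (v k)) =o[atTop] v :=
    h2.comp_tendsto hv0
  have h4 : (fun k => (fderiv ℂ f.1 0) (v k)) =o[atTop] v := by
    have h5 : (fun k => f.1 (0 + v k) - f.1 0 - (fderiv ℂ f.1 0) (v k)) =
        fun k => -((fderiv ℂ f.1 0) (v k)) := by
      funext k
      rw [zero_add, hf0 _ (hv k), hf00]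
      ring
    rw [h5] at h3
    exact (Asymptotics.isLittleO_neg_left.1 h3)
  have h5 : Tendsto (fun k => (fderiv ℂ f.1 0) (((‖v k‖⁻¹ : ℝ) : ℂ) • v k)) atTop (𝓝 0) := by
    have h6 := (Asymptotics.isLittleO_iff_tendsto' (f := fun k => ‖(fderiv ℂ f.1 0) (v k)‖)
      (g := fun k => ‖v k‖) (l := atTop) (Filter.Eventually.of_forall fun k hk =>
        absurd (norm_eq_zero.1 hk) (hne k))).1 h4.norm_norm
    rw [tendsto_zero_iff_norm_tendsto_zero]
    refine h6.congr fun k => ?_
    rw [map_smul, norm_smul, Complex.norm_real, norm_inv, norm_norm]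
    ring
  have h6 : Tendsto (fun k => (fderiv ℂ f.1 0) (((‖v k‖⁻¹ : ℝ) : ℂ) • v k)) atTop
      (𝓝 ((fderiv ℂ f.1 0) w)) := ((fderiv ℂ f.1 0).continuous.tendsto w).comp hw
  have h7 := tendsto_nhds_unique h6 h5
  have h8 : (DhE w f).1 0 = 0 := by
    rw [DhE_apply]
    exact h7
  rw [← constantCoeff_tay, tay_DhE, hf, tay_fuE, Dh_SS, constantCoeff_SS] at h8
  exact h8

/-- small elements are directions -/
theorem small_mem (hP : P ∈ (Pz d P).minimalPrimes) {v h : ℕ → Og g → ℂ}
    (hv : ∀ k, v k ∈ ZG d P) (hh' : ∀ k, h k ∈ hh P)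
    (hlim : Tendsto (fun k => v k + h k) atTop (𝓝 0)) : ∃ k, v k ∈ hh P := by
  by_contra hcon
  push Not at hcon
  -- a projection
  obtain ⟨π, hπker, hπ⟩ : ∃ π : (Og g → ℂ) →ₗ[ℂ] (Og g → ℂ),
      (∀ x, π x = 0 ↔ x ∈ hh P) ∧ ∀ x, π x - x ∈ hh P := by
    obtain ⟨W, hW⟩ := (hh P).exists_isCompl
    refine ⟨W.subtype ∘ₗ W.projectionOnto (hh P) hW.symm, fun x => ?_, fun x => ?_⟩
    · rw [LinearMap.comp_apply, Submodule.subtype_apply, ZeroMemClass.coe_eq_zero,
        Submodule.projectionOnto_apply_eq_zero_iff]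
    · rw [← Submodule.projectionOnto_apply_eq_zero_iff hW.symm, map_sub, LinearMap.comp_apply,
        Submodule.subtype_apply, Submodule.projectionOnto_apply_left, sub_self]
  have hπid : ∀ x, π (π x) = π x := by
    intro x
    have h1 := (hπker _).2 (hπ x)
    rw [map_sub, sub_eq_zero] at h1
    exact h1
  have hπc : Continuous π := LinearMap.continuous_of_finiteDimensional π
  set w : ℕ → Og g → ℂ := fun k => π (v k) with hw
  have hw1 : ∀ k, w k = π (v k + h k) := by
    intro k
    rw [map_add, (hπker (h k)).2 (hh' k), add_zero]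
  have hwlim : Tendsto w atTop (𝓝 0) := by
    have h1 : w = fun k => π (v k + h k) := funext hw1
    rw [h1]
    have h2 := (hπc.tendsto 0).comp hlim
    rwa [map_zero] at h2
  have hwne : ∀ k, w k ≠ 0 := fun k hk => hcon k ((hπker _).1 hk)
  have hwZ : ∀ k, w k ∈ ZG d P := by
    intro k
    have := ZG_add_hh d P (hv k) (hπ (v k))
    rwa [add_sub_cancel] at this
  -- normalize
  set u : ℕ → Og g → ℂ := fun k => ((‖w k‖⁻¹ : ℝ) : ℂ) • w k with hu
  have hu1 : ∀ k, u k ∈ Metric.sphere (0 : Og g → ℂ) 1 := by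
    intro k
    rw [mem_sphere_zero_iff_norm, hu]
    beta_reduce
    rw [norm_smul, Complex.norm_real, norm_inv, norm_norm,
      inv_mul_cancel₀ (norm_ne_zero_iff.2 (hwne k))]
  obtain ⟨x, hx, φ, hφ, hφlim⟩ := (isCompact_sphere (0 : Og g → ℂ) 1).tendsto_subseq hu1
  have h1 := limit_direction d P (v := fun k => w (φ k)) (fun k => ZG_subset d P (hwZ _))
    (fun k => hwne _) (hwlim.comp hφ.tendsto_atTop) hφlim
  have h2 := new_direction d hP h1
  have h3 : π x = x := by
    have h4 : Tendsto (fun k => π (u (φ k))) atTop (𝓝 (π x)) := (hπc.tendsto x).comp hφlim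
    have h5 : (fun k => π (u (φ k))) = fun k => u (φ k) := by
      funext k
      rw [hu]
      beta_reduce
      rw [map_smul, hw]
      beta_reduce
      rw [hπid]
    rw [h5] at h4
    exact tendsto_nhds_unique h4 hφlim
  rw [(hπker x).2 h2] at h3
  rw [mem_sphere_zero_iff_norm, ← h3, norm_zero] at hx
  exact zero_ne_one hx

/-- sequences escaping in the last coordinate -/
theorem escape_mem (hP : P ∈ (Pz d P).minimalPrimes) {v : ℕ → Og g → ℂ} (hv : ∀ k, v k ∈ ZZ d P)
    (hz : Tendsto (fun k => v k - v k none • eV none) atTop (𝓝 0))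
    (hu : Tendsto (fun k => ‖v k none‖) atTop atTop) : (eV none : Og g → ℂ) ∈ hh P := by
  set z : ℕ → Og g → ℂ := fun k => v k - v k none • eV none with hz'
  have hvz : ∀ k, v k = z k + v k none • eV none := fun k => by rw [hz']; simp
  apply new_direction d hP
  rintro F ⟨M, hF, hFP⟩
  have htaylor : ∀ (q : ℕ) (μ : OO (Og g) →ₗ[ℂ] ℂ), FinOrd q μ → ∀ (i : ℕ) (x : Og g → ℂ) (t : ℂ),
      μ (tay (x + t • eV none) ((dU ^ i) F)) = ∑ l ∈ Finset.range (M + 1),
        t ^ l * ((l.factorial : ℂ)⁻¹ * μ (tay x ((dU ^ (i + l)) F))) := by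
    intro q μ hμ i x t
    have h1 : ∀ (n : ℕ) (G : Ent (Og g)), (dU ^ n) (fuE hμ G) = fuE hμ ((dU ^ n) G) := by
      intro n
      induction n with
      | zero => exact fun _ => rfl
      | succ n ih =>
        intro G
        rw [pow_succ', Module.End.mul_apply, Module.End.mul_apply, ih, pdE_fuE]
    have h2 : (dU ^ (M + 1)) (fuE hμ ((dU ^ i) F)) = 0 := by
      rw [h1, ← Module.End.mul_apply, ← pow_add, add_comm, pow_add, Module.End.mul_apply, hF.2,
        map_zero]
      apply Subtype.ext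
      funext x
      change μ (tay x 0) = 0
      rw [map_zero, map_zero]
    have h3 := taylor_u h2 x t
    change μ (tay (x + t • eV none) ((dU ^ i) F)) = _ at h3
    rw [h3]
    refine Finset.sum_congr rfl fun l _ => ?_
    rw [h1, ← Module.End.mul_apply, ← pow_add, add_comm l i]
    rfl
  have key : ∀ n j : ℕ, M + 1 ≤ j + n → 1 ≤ j → tay 0 ((dU ^ j) F) ∈ P := by
    intro n
    induction n with
    | zero =>
      intro j hj _
      rw [pow_le_deg dU (show M + 1 ≤ j by omega) hF.2, map_zero]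
      exact P.zero_mem
    | succ n ih =>
      intro j hj hj1
      by_cases hjn : M + 1 ≤ j + n
      · exact ih j hjn hj1
      · have hjM : j + n = M := by omega
        apply mem_of_Ann
        rintro μ ⟨⟨q, hq⟩, hμ⟩
        have h0 : ∀ k, μ (tay (v k) ((dU ^ 0) F)) = 0 := fun k => hμ _ (hv k F ⟨M, hF, hFP⟩)
        have h1 : ∀ i, j < i → ∀ k, μ (tay (v k) ((dU ^ i) F)) = 0 := by
          intro i hi k
          exact hμ _ (hv k _ ⟨M, ZD.dU_pow_GG hF i, ih i (by omega) (by omega)⟩)
        have h2 : ∀ i, j < i → ∀ k, μ (tay (z k) ((dU ^ i) F)) = 0 := by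
          intro i hi k
          have h3 := htaylor q μ hq i (v k) (-(v k none))
          have h4 : v k + -(v k none) • eV none = z k := by
            rw [hz']
            beta_reduce
            rw [neg_smul, sub_eq_add_neg]
          rw [h4] at h3
          rw [h3]
          refine Finset.sum_eq_zero fun l _ => ?_
          rw [h1 (i + l) (by omega) k, mul_zero, mul_zero]
        have h3 : ∀ k, ∑ i ∈ Finset.range (j + 1), (v k none) ^ i *
            ((i.factorial : ℂ)⁻¹ * μ (tay (z k) ((dU ^ i) F))) = 0 := by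
          intro k
          have h4 := htaylor q μ hq 0 (z k) (v k none)
          rw [← hvz, h0] at h4
          rw [h4]
          apply Finset.sum_subset_zero_on_sdiff
          · intro i hi
            rw [Finset.mem_range] at hi ⊢
            omega
          · intro i hi
            rw [Finset.mem_sdiff, Finset.mem_range, Finset.mem_range] at hi
            rw [zero_add, h2 i (by omega), mul_zero, mul_zero]
          · intro i _
            rw [zero_add]
        have h4 : Tendsto (fun k => ∑ i ∈ Finset.range (j + 1), ((v k none)⁻¹) ^ (j - i) *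
            ((i.factorial : ℂ)⁻¹ * μ (tay (z k) ((dU ^ i) F)))) atTop
            (𝓝 (∑ i ∈ Finset.range (j + 1), (if i = j then 1 else 0) *
              ((i.factorial : ℂ)⁻¹ * μ (tay 0 ((dU ^ i) F))))) := by
          refine tendsto_finsetSum _ fun i hi => Tendsto.mul ?_ (Tendsto.const_mul _ ?_)
          · by_cases hij : i = j
            · rw [if_pos hij, hij, Nat.sub_self]
              simp
            · rw [if_neg hij]
              have h5 : Tendsto (fun k => (v k none)⁻¹) atTop (𝓝 0) := by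
                rw [tendsto_zero_iff_norm_tendsto_zero]
                refine (tendsto_inv_atTop_zero.comp hu).congr fun k => ?_
                rw [Function.comp_apply, norm_inv]
              have h6 := h5.pow (j - i)
              rw [Finset.mem_range] at hi
              rwa [zero_pow (by omega)] at h6
          · exact ((fu_continuous hq ((dU ^ i) F)).tendsto 0).comp hz
        have h5 : (fun k => ∑ i ∈ Finset.range (j + 1), ((v k none)⁻¹) ^ (j - i) *
            ((i.factorial : ℂ)⁻¹ * μ (tay (z k) ((dU ^ i) F)))) =ᶠ[atTop] fun _ => 0 := by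
          filter_upwards [hu.eventually_gt_atTop 0] with k hk
          have hne : v k none ≠ 0 := norm_pos_iff.1 hk
          have h6 : ∑ i ∈ Finset.range (j + 1), ((v k none)⁻¹) ^ (j - i) *
            ((i.factorial : ℂ)⁻¹ * μ (tay (z k) ((dU ^ i) F))) = ((v k none)⁻¹) ^ j *
              ∑ i ∈ Finset.range (j + 1), (v k none) ^ i *
            ((i.factorial : ℂ)⁻¹ * μ (tay (z k) ((dU ^ i) F))) := by
            rw [Finset.mul_sum]
            refine Finset.sum_congr rfl fun i hi => ?_
            rw [Finset.mem_range] at hi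
            have h7 : ((v k none)⁻¹) ^ j * (v k none) ^ i = ((v k none)⁻¹) ^ (j - i) := by
              obtain ⟨e, he⟩ : ∃ e, j = e + i := ⟨j - i, by omega⟩
              rw [he, Nat.add_sub_cancel, pow_add, mul_assoc, ← mul_pow, inv_mul_cancel₀ hne,
                one_pow, mul_one]
            rw [← h7]
            ring
          rw [h6, h3, mul_zero]
        have h6 := tendsto_nhds_unique (h4.congr' h5) tendsto_const_nhds
        rw [Finset.sum_eq_single j] at h6
        · rw [if_pos rfl, one_mul] at h6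
          rcases mul_eq_zero.1 h6 with h7 | h7
          · exact absurd h7 (inv_ne_zero (Nat.cast_ne_zero.2 (Nat.factorial_ne_zero j)))
          · exact h7
        · intro i _ hij
          rw [if_neg hij, zero_mul]
        · intro hj'
          exact absurd (Finset.mem_range.2 (Nat.lt_succ_self j)) hj'
  have h1 := key M 1 (by omega) le_rfl
  rw [pow_one] at h1
  have h2 : Dh (eV none) (tay 0 F) = tay 0 (dU F) := by
    rw [Dh_apply, Finset.sum_eq_single none]
    · rw [pd_tay, eV, Pi.single_eq_same, one_smul]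
    · intro i _ hi
      rw [eV, Pi.single_eq_of_ne hi, zero_smul]
    · intro h
      exact absurd (Finset.mem_univ _) h
  rw [h2]
  exact h1

end Pool.Agent.K9h14
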