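import Pool.Agent.K9h14.Z1

set_option autoImplicit false
set_option linter.unusedSectionVars false

/-!
# Formal power series: ideals
-/

open MvPowerSeries Finsupp

noncomputable section

namespace Pool.Agent.K9h14

/-! ### General commutative algebra -/

section gen

variable {R : Type*} [CommRing R]

theorem exists_mul_pow_mem {I P : Ideal R} (hP : P ∈ I.minimalPrimes) {p : R} (hp : p ∈ P) :
    ∃ s ∉ P, ∃ k : ℕ, s * p ^ k ∈ I := by
  classical
  haveI := hP.1.1
  by_contra hcon
  push Not at hcon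
  obtain ⟨Q, hQ, hIQ, hdis⟩ := Ideal.exists_le_prime_disjoint I (P.primeCompl ⊔ Submonoid.powers p)
    (by
      rw [Set.disjoint_left]
      intro x hxI hx
      obtain ⟨s, hs, y, ⟨k, rfl⟩, rfl⟩ := Submonoid.mem_sup.1 hx
      exact hcon s hs k hxI)
  have hQP : Q ≤ P := by
    intro x hx
    by_contra hxP
    exact Set.disjoint_left.1 hdis hx
      (Submonoid.mem_sup_left (show x ∈ P.primeCompl from hxP))
  have h2 := hP.2 ⟨hQ, hIQ⟩ hQP
  exact Set.disjoint_left.1 hdis (h2 hp) (Submonoid.mem_sup_right (Submonoid.mem_powers p))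

/-- A minimal prime over an ideal stable under a derivation is stable. -/
theorem deriv_stable [Algebra ℚ R] {I P : Ideal R} (hP : P ∈ I.minimalPrimes)
    (D : R → R) (hadd : ∀ x y, D (x + y) = D x + D y) (hmul : ∀ x y, D (x * y) = x * D y + y * D x)
    (hI : ∀ f ∈ I, D f ∈ I) : ∀ f ∈ P, D f ∈ P := by
  haveI := hP.1.1
  intro p hp
  obtain ⟨s, hs, N, hsN⟩ := exists_mul_pow_mem hP hp
  have hD1 : D 1 = 0 := by
    have h1 := hmul 1 1
    rw [mul_one, one_mul] at h1
    have h2 : D 1 + D 1 = D 1 + 0 := by rw [add_zero]; exact h1.symm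
    exact add_left_cancel h2
  have hpow : ∀ n : ℕ, D (p ^ (n + 1)) = (n + 1 : ℕ) • (p ^ n * D p) := by
    intro n
    induction n with
    | zero => simp
    | succ n ih =>
      rw [pow_succ, hmul, ih]
      simp only [nsmul_eq_mul]
      push_cast
      ring
  -- the induction
  have key : ∀ k : ℕ, k ≤ N → ∃ t ∉ P, ∃ m : ℕ, t * p ^ (N - k) * (D p) ^ m ∈ I := by
    intro k
    induction k with
    | zero => exact fun _ => ⟨s, hs, 0, by simpa using hsN⟩
    | succ k ih =>
      intro hk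
      obtain ⟨t, ht, m, htm⟩ := ih (by omega)
      obtain ⟨n, hn⟩ : ∃ n, N - k = n + 1 := ⟨N - k - 1, by omega⟩
      rw [hn] at htm
      have hn' : N - (k + 1) = n := by omega
      rw [hn']
      have h1 := hI _ htm
      have h2 : t * D p * D (t * p ^ (n + 1) * (D p) ^ m) -
          (D t * D p + t * D ((D p) ^ m) * 0) * (t * p ^ (n + 1) * (D p) ^ m) ∈ I :=
        I.sub_mem (I.mul_mem_left _ h1) (I.mul_mem_left _ htm)
      have h3 : ∃ z : R, D p * D ((D p) ^ m) = (D p) ^ m * z := by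
        rcases m with _ | m
        · exact ⟨0, by rw [pow_zero, hD1]; ring⟩
        · have hpow' : ∀ n : ℕ, D ((D p) ^ (n + 1)) = (n + 1 : ℕ) • ((D p) ^ n * D (D p)) := by
            intro n
            induction n with
            | zero => simp
            | succ n ih =>
              rw [pow_succ, hmul, ih]
              simp only [nsmul_eq_mul]
              push_cast
              ring
          refine ⟨((m + 1 : ℕ) : R) * D (D p), ?_⟩
          rw [hpow', nsmul_eq_mul]
          ring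
      obtain ⟨z, hz⟩ := h3
      have h4 : (n + 1 : ℕ) • (t ^ 2 * p ^ n * (D p) ^ (m + 2)) ∈ I := by
        have h5 : (n + 1 : ℕ) • (t ^ 2 * p ^ n * (D p) ^ (m + 2)) =
            t * D p * D (t * p ^ (n + 1) * (D p) ^ m) -
            (D t * D p + t * z) * (t * p ^ (n + 1) * (D p) ^ m) := by
          rw [hmul, hmul, hpow]
          simp only [nsmul_eq_mul]
          have h6 : t * D p * (t * p ^ (n + 1) * D ((D p) ^ m)) =
              t * (t * p ^ (n + 1)) * ((D p) ^ m * z) := by
            rw [← hz]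
            ring
          linear_combination -h6
        rw [h5]
        exact I.sub_mem (I.mul_mem_left _ h1) (I.mul_mem_left _ htm)
      refine ⟨t ^ 2, fun h => ht (Ideal.IsPrime.mem_of_pow_mem inferInstance _ h), m + 2, ?_⟩
      have h6 : t ^ 2 * p ^ n * (D p) ^ (m + 2) =
          algebraMap ℚ R ((n + 1 : ℕ) : ℚ)⁻¹ * ((n + 1 : ℕ) • (t ^ 2 * p ^ n * (D p) ^ (m + 2))) := by
        rw [nsmul_eq_mul, ← mul_assoc]
        have h7 : algebraMap ℚ R ((n + 1 : ℕ) : ℚ)⁻¹ * ((n + 1 : ℕ) : R) = 1 := by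
          have h8 : ((n + 1 : ℕ) : R) = algebraMap ℚ R ((n + 1 : ℕ) : ℚ) := by simp
          rw [h8, ← map_mul, inv_mul_cancel₀ (by positivity), map_one]
        rw [h7, one_mul]
      rw [h6]
      exact I.mul_mem_left _ h4
  obtain ⟨t, ht, m, htm⟩ := key N le_rfl
  rw [Nat.sub_self, pow_zero, mul_one] at htm
  rcases Ideal.IsPrime.mem_or_mem inferInstance (hP.1.2 htm) with h | h
  · exact absurd h ht
  · exact Ideal.IsPrime.mem_of_pow_mem inferInstance _ h

/-- The pigeonhole principle for a chain of ideals in a prime of height at most `n`. -/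
theorem exists_prime_between {n : ℕ} (M : Ideal R) [M.IsPrime] (hM : M.height ≤ n)
    (J : ℕ → Ideal R) (hmono : ∀ r, J r ≤ J (r + 1)) (hJ : J (n + 1) ≤ M) :
    ∃ r ≤ n, ∃ P, P ∈ (J r).minimalPrimes ∧ J (r + 1) ≤ P ∧ P ≤ M := by
  by_contra hcon
  push Not at hcon
  have hmono' : ∀ r, r ≤ n + 1 → J r ≤ J (n + 1) := by
    intro r hr
    exact monotone_nat_of_le_succ hmono hr
  have key : ∀ k, k ≤ n + 1 → ∃ P, P ∈ (J (n + 1 - k)).minimalPrimes ∧ P ≤ M ∧
      P.height + k ≤ M.height := by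
    intro k
    induction k with
    | zero =>
      intro _
      obtain ⟨P, hP, hPM⟩ := Ideal.exists_minimalPrimes_le (I := J (n + 1)) hJ
      refine ⟨P, by simpa using hP, hPM, ?_⟩
      simpa using Ideal.height_mono hPM
    | succ k ih =>
      intro hk
      obtain ⟨P, hP, hPM, hht⟩ := ih (by omega)
      haveI := hP.1.1
      have hr : n + 1 - k = (n + 1 - (k + 1)) + 1 := by omega
      have h1 : J (n + 1 - (k + 1)) ≤ P := by
        refine (hmono _).trans ?_
        rw [← hr]
        exact hP.1.2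
      obtain ⟨Q, hQ, hQP⟩ := Ideal.exists_minimalPrimes_le (J := P) h1
      haveI := hQ.1.1
      have hne : Q ≠ P := by
        rintro rfl
        refine hcon (n + 1 - (k + 1)) (by omega) Q hQ ?_ hPM
        rw [← hr]
        exact hP.1.2
      have hlt : Q < P := lt_of_le_of_ne hQP hne
      have h2 := Ideal.height_add_one_le_of_lt_of_isPrime hlt
      refine ⟨Q, hQ, hQP.trans hPM, ?_⟩
      calc Q.height + ((k + 1 : ℕ) : ℕ∞) = (Q.height + 1) + k := by push_cast; ring
        _ ≤ P.height + k := by gcongr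
        _ ≤ M.height := hht
  obtain ⟨P, hP, hPM, hht⟩ := key (n + 1) le_rfl
  have h3 : (((n + 1 : ℕ)) : ℕ∞) ≤ n := by
    calc ((n + 1 : ℕ) : ℕ∞) ≤ P.height + ((n + 1 : ℕ) : ℕ∞) := le_add_self
      _ ≤ M.height := hht
      _ ≤ n := hM
  have h4 : n + 1 ≤ n := by exact_mod_cast h3
  omega

end gen

/-! ### Power series -/

variable {σ : Type} [Fintype σ] [DecidableEq σ]

/-- the maximal ideal -/
abbrev mx (σ : Type) : Ideal (OO σ) := IsLocalRing.maximalIdeal (OO σ)

theorem mem_mx {h : OO σ} : h ∈ mx σ ↔ constantCoeff h = 0 := by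
  rw [IsLocalRing.mem_maximalIdeal, mem_nonunits_iff, isUnit_iff_constantCoeff,
    isUnit_iff_ne_zero, not_not]

open Classical in
/-- the first variable which occurs in an exponent -/
def chs (β : σ →₀ ℕ) (i : σ) : Prop :=
  if h : ∃ j, β j ≠ 0 then i = h.choose else False

theorem chs_ne {β : σ →₀ ℕ} {i : σ} (h : chs β i) : β i ≠ 0 := by
  unfold chs at h
  split_ifs at h with h1
  rw [h]
  exact h1.choose_spec

theorem chs_unique {β : σ →₀ ℕ} {i j : σ} (h : chs β i) (h' : chs β j) : i = j := by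
  unfold chs at h h'
  split_ifs at h h' with h1
  rw [h, h']

theorem exists_chs {β : σ →₀ ℕ} (h : β ≠ 0) : ∃ i, chs β i := by
  have h1 : ∃ j, β j ≠ 0 := by
    by_contra hcon
    push Not at hcon
    exact h (Finsupp.ext hcon)
  refine ⟨h1.choose, ?_⟩
  unfold chs
  rw [dif_pos h1]

open Classical in
/-- the pieces of a series without constant term -/
def piece (i : σ) (h : OO σ) : OO σ := fun γ =>
  if chs (γ + single i 1) i then coeff (γ + single i 1) h else 0

theorem coeff_piece (i : σ) (h : OO σ) (γ : σ →₀ ℕ) :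
    coeff γ (piece i h) = open Classical in
      if chs (γ + single i 1) i then coeff (γ + single i 1) h else 0 := rfl

theorem sum_piece {h : OO σ} (hh : constantCoeff h = 0) : ∑ i, X i * piece i h = h := by
  classical
  ext β
  rw [map_sum]
  by_cases hβ : β = 0
  · rw [hβ, coeff_zero_eq_constantCoeff, hh]
    refine Finset.sum_eq_zero fun i _ => ?_
    rw [map_mul, constantCoeff_X, zero_mul]
  · obtain ⟨i, hi⟩ := exists_chs hβ
    have hs : ∀ j, β j ≠ 0 → single j 1 ≤ β := fun j hj => by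
      rw [Finsupp.single_le_iff]
      omega
    rw [Finset.sum_eq_single i]
    · have h1 : β = single i 1 + (β - single i 1) := (add_tsub_cancel_of_le (hs i (chs_ne hi))).symm
      conv_lhs => rw [h1]
      rw [X, coeff_add_monomial_mul, one_mul, coeff_piece, tsub_add_cancel_of_le (hs i (chs_ne hi)),
        if_pos hi]
    · intro j _ hj
      by_cases hjβ : β j = 0
      · rw [X, coeff_monomial_mul, if_neg]
        intro hle
        have := hle j
        rw [Finsupp.single_eq_same] at this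
        omega
      · have h1 : β = single j 1 + (β - single j 1) := (add_tsub_cancel_of_le (hs j hjβ)).symm
        rw [h1, X, coeff_add_monomial_mul, one_mul, coeff_piece, tsub_add_cancel_of_le (hs j hjβ),
          if_neg]
        intro hc
        exact hj (chs_unique hc hi)
    · intro h1
      exact absurd (Finset.mem_univ _) h1

theorem piece_mem {q : ℕ} {h : OO σ} (hh : h ∈ n1 (q + 1)) (i : σ) : piece i h ∈ n1 q := by
  rw [mem_n1] at hh ⊢
  intro β hβ
  rw [coeff_piece]
  split_ifs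
  · apply hh
    rw [map_add, Finsupp.degree_single]
    omega
  · rfl

theorem n1_le_pow (q : ℕ) : (n1 q : Ideal (OO σ)) ≤ (mx σ) ^ q := by
  induction q with
  | zero => simp
  | succ q ih =>
    intro h hh
    have h0 : constantCoeff h = 0 := by
      have := mem_n1.1 hh 0 (by simp)
      rwa [coeff_zero_eq_constantCoeff] at this
    rw [← sum_piece h0, pow_succ']
    refine Ideal.sum_mem _ fun i _ => Ideal.mul_mem_mul ?_ (ih (piece_mem hh i))
    rw [mem_mx, constantCoeff_X]

theorem mx_eq_span : mx σ = Ideal.span (Set.range fun i => (X i : OO σ)) := by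
  apply le_antisymm
  · intro h hh
    rw [mem_mx] at hh
    rw [← sum_piece hh]
    exact Ideal.sum_mem _ fun i _ => Ideal.mul_mem_right _ _ (Ideal.subset_span ⟨i, rfl⟩)
  · rw [Ideal.span_le]
    rintro _ ⟨i, rfl⟩
    exact mem_mx.2 (constantCoeff_X i)

theorem height_mx_le : (mx σ).height ≤ Fintype.card σ := by
  classical
  have h1 : mx σ ∈ (Ideal.span (↑(Finset.univ.image fun i => (X i : OO σ)) : Set (OO σ))).minimalPrimes := by
    have h2 : Ideal.span (↑(Finset.univ.image fun i => (X i : OO σ)) : Set (OO σ)) = mx σ := by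
      rw [mx_eq_span]
      congr 1
      simp
    rw [h2, Ideal.minimalPrimes_eq_subsingleton_self]
    rfl
  refine (Ideal.height_le_card_of_mem_minimalPrimes_span_finset h1).trans ?_
  exact_mod_cast Finset.card_image_le.trans (by simp)

/-- ideals are closed -/
theorem mem_of_forall_add {I : Ideal (OO σ)} {h : OO σ}
    (H : ∀ q, h ∈ I ⊔ n1 q) : h ∈ I := by
  by_cases hI : I = ⊤
  · rw [hI]; trivial
  have h1 := Ideal.iInf_pow_smul_eq_bot_of_isLocalRing (R := OO σ) (M := OO σ ⧸ I) (mx σ)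
    (IsLocalRing.maximalIdeal.isMaximal _).ne_top
  have h2 : (Submodule.Quotient.mk h : OO σ ⧸ I) ∈
      (⨅ i : ℕ, (mx σ) ^ i • ⊤ : Submodule (OO σ) (OO σ ⧸ I)) := by
    rw [Submodule.mem_iInf]
    intro q
    obtain ⟨a, ha, b, hb, hab⟩ := Submodule.mem_sup.1 (H q)
    have h3 : (Submodule.Quotient.mk h : OO σ ⧸ I) = b • Submodule.Quotient.mk (1 : OO σ) := by
      rw [← Submodule.Quotient.mk_smul, smul_eq_mul, mul_one, Submodule.Quotient.eq, ← hab,
        add_sub_cancel_right]
      exact ha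
    rw [h3]
    exact Submodule.smul_mem_smul (n1_le_pow q hb) trivial
  rw [h1, Submodule.mem_bot, Submodule.Quotient.mk_eq_zero] at h2
  exact h2

/-- The functionals separate the elements from the ideals. -/
theorem exists_functional {I : Ideal (OO σ)} {h : OO σ} (hh : h ∉ I) :
    ∃ (q : ℕ) (μ : OO σ →ₗ[ℂ] ℂ), FinOrd q μ ∧ (∀ f ∈ I, μ f = 0) ∧ μ h ≠ 0 := by
  have h1 : ∃ q, h ∉ I ⊔ n1 q := by
    by_contra hcon
    push Not at hcon
    exact hh (mem_of_forall_add hcon)
  obtain ⟨q, hq⟩ := h1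
  obtain ⟨μ, hμ, hle⟩ := Submodule.exists_le_ker_of_notMem
    (p := (I ⊔ n1 q).restrictScalars ℂ) (v := h) hq
  refine ⟨q, μ, fun f hf => ?_, fun f hf => ?_, hμ⟩
  · exact hle (show f ∈ (I ⊔ n1 q).restrictScalars ℂ from Ideal.mem_sup_right hf)
  · exact hle (show f ∈ (I ⊔ n1 q).restrictScalars ℂ from Ideal.mem_sup_left hf)

/-- the annihilator -/
def Ann (I : Ideal (OO σ)) : Set (OO σ →ₗ[ℂ] ℂ) := {μ | (∃ q, FinOrd q μ) ∧ ∀ f ∈ I, μ f = 0}

theorem mem_of_Ann {I : Ideal (OO σ)} {h : OO σ} (H : ∀ μ ∈ Ann I, μ h = 0) : h ∈ I := by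
  by_contra hh
  obtain ⟨q, μ, h1, h2, h3⟩ := exists_functional hh
  exact h3 (H μ ⟨⟨q, h1⟩, h2⟩)

theorem Ann_mm {I : Ideal (OO σ)} {μ : OO σ →ₗ[ℂ] ℂ} (hμ : μ ∈ Ann I) (a : OO σ) :
    mm a μ ∈ Ann I := by
  obtain ⟨⟨q, hq⟩, h⟩ := hμ
  exact ⟨⟨q, hq.mm_left a⟩, fun f hf => h _ (I.mul_mem_left _ hf)⟩

theorem Ann_anti {I J : Ideal (OO σ)} (h : I ≤ J) : Ann J ⊆ Ann I :=
  fun _ hμ => ⟨hμ.1, fun f hf => hμ.2 f (h hf)⟩

end Pool.Agent.K9h14
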