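import Pool.Agent.K9h14.Z2

set_option autoImplicit false
set_option linter.unusedSectionVars false

/-!
# Formal power series: tangent directions of the stabilizer
-/

open MvPowerSeries Finsupp

noncomputable section

namespace Pool.Agent.K9h14

section gen

variable {R : Type*} [CommRing R]

theorem deriv_pow_mem (P : Ideal R) (D : R → R) (hadd : ∀ x y, D (x + y) = D x + D y)
    (hmul : ∀ x y, D (x * y) = x * D y + y * D x) (k : ℕ) :
    ∀ x ∈ P ^ (k + 1), D x ∈ P ^ k := by
  induction k with
  | zero =>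
    intro x _
    rw [pow_zero, Ideal.one_eq_top]
    trivial
  | succ k ih =>
    intro x hx
    rw [pow_succ'] at hx
    refine Submodule.mul_induction_on hx ?_ ?_
    · intro a ha b hb
      rw [hmul]
      refine Ideal.add_mem _ ?_ ?_
      · rw [pow_succ']
        exact Ideal.mul_mem_mul ha (ih b hb)
      · exact Ideal.mul_mem_right _ _ hb
    · intro a b ha hb
      rw [hadd]
      exact Ideal.add_mem _ ha hb

theorem iterate_deriv (P : Ideal R) (D : R → R) (hadd : ∀ x y, D (x + y) = D x + D y)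
    (hmul : ∀ x y, D (x * y) = x * D y + y * D x) {p : R} (hp : p ∈ P) (s : R) (N : ℕ) :
    D^[N] (s * p ^ N) - (N.factorial : R) * (s * (D p) ^ N) ∈ P := by
  have hD1 : D 1 = 0 := by
    have h1 := hmul 1 1
    rw [mul_one, one_mul] at h1
    have h2 : D 1 + D 1 = D 1 + 0 := by rw [add_zero]; exact h1.symm
    exact add_left_cancel h2
  have hD0 : D 0 = 0 := by
    have h1 := hadd 0 0
    rw [add_zero] at h1
    have h2 : D 0 + D 0 = D 0 + 0 := by rw [add_zero]; exact h1.symm
    exact add_left_cancel h2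
  have hDneg : ∀ x, D (-x) = -D x := by
    intro x
    have h1 := hadd x (-x)
    rw [add_neg_cancel, hD0] at h1
    exact (neg_eq_of_add_eq_zero_right h1.symm).symm
  have hDn : ∀ n : ℕ, D (n : R) = 0 := by
    intro n
    induction n with
    | zero => rw [Nat.cast_zero, hD0]
    | succ n ih => rw [Nat.cast_succ, hadd, ih, hD1, add_zero]
  have hpow : ∀ n : ℕ, D (p ^ (n + 1)) = (n + 1 : ℕ) • (p ^ n * D p) := by
    intro n
    induction n with
    | zero => simp
    | succ n ih =>
      rw [pow_succ, hmul, ih]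
      simp only [nsmul_eq_mul]
      push_cast
      ring
  have key : ∀ j, j ≤ N → D^[j] (s * p ^ N) -
      (N.descFactorial j : R) * (s * p ^ (N - j) * (D p) ^ j) ∈ P ^ (N - j + 1) := by
    intro j
    induction j with
    | zero => intro _; simp
    | succ j ih =>
      intro hj
      have h1 := ih (by omega)
      obtain ⟨m, hm⟩ : ∃ m, N - j = m + 1 := ⟨N - j - 1, by omega⟩
      have hm' : N - (j + 1) = m := by omega
      rw [hm] at h1
      rw [hm', Function.iterate_succ_apply']
      have h2 := deriv_pow_mem P D hadd hmul (m + 1) _ h1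
      have h3 : D (D^[j] (s * p ^ N) - (N.descFactorial j : R) * (s * p ^ (m + 1) * (D p) ^ j)) =
          D (D^[j] (s * p ^ N)) - D ((N.descFactorial j : R) * (s * p ^ (m + 1) * (D p) ^ j)) := by
        rw [sub_eq_add_neg, hadd, hDneg, ← sub_eq_add_neg]
      rw [h3] at h2
      have h4 : D ((N.descFactorial j : R) * (s * p ^ (m + 1) * (D p) ^ j)) =
          (N.descFactorial (j + 1) : R) * (s * p ^ m * (D p) ^ (j + 1)) +
            (N.descFactorial j : R) * D (s * (D p) ^ j) * p ^ (m + 1) := by
        rw [hmul, hDn, mul_zero, add_zero,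
          show s * p ^ (m + 1) * (D p) ^ j = p ^ (m + 1) * (s * (D p) ^ j) by ring, hmul, hpow,
          Nat.descFactorial_succ, hm]
        simp only [nsmul_eq_mul]
        push_cast
        ring
      have h5 : D (D^[j] (s * p ^ N)) - (N.descFactorial (j + 1) : R) *
          (s * p ^ m * (D p) ^ (j + 1)) =
          (D (D^[j] (s * p ^ N)) - D ((N.descFactorial j : R) * (s * p ^ (m + 1) * (D p) ^ j))) +
            (N.descFactorial j : R) * D (s * (D p) ^ j) * p ^ (m + 1) := by
        rw [h4]
        ring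
      rw [h5]
      refine Ideal.add_mem _ h2 (Ideal.mul_mem_left _ _ (Ideal.pow_mem_pow hp _))
  have h1 := key N le_rfl
  rw [Nat.sub_self, zero_add, pow_one, Nat.descFactorial_self, pow_zero, mul_one] at h1
  exact h1

end gen

variable {σ : Type} [Fintype σ] [DecidableEq σ]

/-- the homogeneous part of degree `N` -/
def hpart (N : ℕ) (R : OO σ) : MvPolynomial σ ℂ :=
  ∑ β ∈ Fq σ (N + 1), if β.degree = N then MvPolynomial.monomial β (coeff β R) else 0

theorem coeff_hp (N : ℕ) (R : OO σ) (β : σ →₀ ℕ) :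
    MvPolynomial.coeff β (hpart N R) = if β.degree = N then coeff β R else 0 := by
  classical
  unfold hpart
  rw [MvPolynomial.coeff_sum]
  by_cases h : β.degree = N
  · rw [if_pos h, Finset.sum_eq_single β]
    · rw [if_pos h, MvPolynomial.coeff_monomial, if_pos rfl]
    · intro γ _ hγ
      split_ifs
      · rw [MvPolynomial.coeff_monomial, if_neg hγ]
      · exact MvPolynomial.coeff_zero _
    · intro h1
      exact absurd (mem_Fq.2 (by omega)) h1
  · rw [if_neg h]
    refine Finset.sum_eq_zero fun γ _ => ?_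
    split_ifs with h1
    · rw [MvPolynomial.coeff_monomial, if_neg]
      rintro rfl
      exact h h1
    · exact MvPolynomial.coeff_zero _

theorem isHomogeneous_hp (N : ℕ) (R : OO σ) : (hpart N R).IsHomogeneous N := by
  intro β hβ
  rw [coeff_hp] at hβ
  split_ifs at hβ with h
  · exact (weight_one β).trans h
  · exact absurd rfl hβ

theorem pderiv_hp (N : ℕ) (R : OO σ) (i : σ) :
    MvPolynomial.pderiv i (hpart (N + 1) R) = hpart N (pderiv ℂ i R) := by
  ext β
  rw [MvPolynomial.coeff_pderiv, coeff_hp, coeff_hp, map_add, Finsupp.degree_single, coeff_pderiv]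
  by_cases h : β.degree = N
  · rw [if_pos (by omega), if_pos h]
  · rw [if_neg (by omega), if_neg h, zero_mul]

theorem hp_add (N : ℕ) (R S : OO σ) : hpart N (R + S) = hpart N R + hpart N S := by
  ext β
  rw [MvPolynomial.coeff_add, coeff_hp, coeff_hp, coeff_hp, map_add]
  split_ifs <;> simp

theorem hp_smul (N : ℕ) (c : ℂ) (R : OO σ) : hpart N (c • R) = c • hpart N R := by
  ext β
  rw [MvPolynomial.coeff_smul, coeff_hp, coeff_hp, map_smul]
  split_ifs <;> simp

/-- the directional derivative -/
def Dh (h : σ → ℂ) : OO σ →ₗ[ℂ] OO σ := ∑ i, h i • (pderiv ℂ i : Derivation ℂ (OO σ) (OO σ)).toLinearMap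

theorem Dh_apply (h : σ → ℂ) (f : OO σ) : Dh h f = ∑ i, h i • pderiv ℂ i f := by
  unfold Dh
  rw [LinearMap.sum_apply]
  rfl

theorem Dh_mul (h : σ → ℂ) (f g : OO σ) : Dh h (f * g) = f * Dh h g + g * Dh h f := by
  rw [Dh_apply, Dh_apply, Dh_apply, Finset.mul_sum, Finset.mul_sum, ← Finset.sum_add_distrib]
  refine Finset.sum_congr rfl fun i _ => ?_
  rw [Derivation.leibniz, smul_eq_mul, smul_eq_mul, smul_add, mul_smul_comm, mul_smul_comm]

theorem Dh_SS (h : σ → ℂ) (μ : OO σ →ₗ[ℂ] ℂ) (f : OO σ) : Dh h (SS μ f) = SS μ (Dh h f) := by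
  rw [Dh_apply, Dh_apply, map_sum]
  refine Finset.sum_congr rfl fun i _ => ?_
  rw [pd_SS, map_smul]

theorem hp_Dh (N : ℕ) (h : σ → ℂ) (R : OO σ) : MvPolynomial.eval h (hpart N (Dh h R)) =
    (N + 1 : ℕ) * MvPolynomial.eval h (hpart (N + 1) R) := by
  have h1 := (isHomogeneous_hp (N + 1) R).sum_X_mul_pderiv
  have h2 := congrArg (MvPolynomial.eval h) h1
  rw [nsmul_eq_mul, map_mul, map_natCast, map_sum] at h2
  rw [← h2, Dh_apply]
  have h3 : ∀ s : Finset σ, hpart N (∑ i ∈ s, h i • pderiv ℂ i R) =
      ∑ i ∈ s, h i • hpart N (pderiv ℂ i R) := by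
    intro s
    induction s using Finset.induction_on with
    | empty =>
      rw [Finset.sum_empty, Finset.sum_empty]
      ext β
      rw [coeff_hp]
      simp
    | insert a s ha ih => rw [Finset.sum_insert ha, Finset.sum_insert ha, hp_add, hp_smul, ih]
  rw [h3, map_sum]
  refine Finset.sum_congr rfl fun i _ => ?_
  rw [MvPolynomial.smul_eval, map_mul, MvPolynomial.eval_X, pderiv_hp]

theorem eval_hp (h : σ → ℂ) : ∀ (N : ℕ) (R : OO σ),
    (N.factorial : ℂ) * MvPolynomial.eval h (hpart N R) = constantCoeff ((Dh h)^[N] R) := by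
  intro N
  induction N with
  | zero =>
    intro R
    rw [Nat.factorial_zero, Nat.cast_one, one_mul, Function.iterate_zero, id]
    have h1 : hpart 0 R = MvPolynomial.C (constantCoeff R) := by
      ext β
      rw [coeff_hp, MvPolynomial.coeff_C]
      by_cases hβ : β = 0
      · rw [hβ, if_pos (map_zero _), if_pos rfl]
        rfl
      · rw [if_neg, if_neg (Ne.symm hβ)]
        rwa [Finsupp.degree_eq_zero_iff]
    rw [h1, MvPolynomial.eval_C]
  | succ N ih =>
    intro R
    rw [Function.iterate_succ_apply, ← ih, hp_Dh, Nat.factorial_succ]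
    push_cast
    ring

theorem eval_hp_SS (h : σ → ℂ) (N : ℕ) (μ : OO σ →ₗ[ℂ] ℂ) (f : OO σ) :
    (N.factorial : ℂ) * MvPolynomial.eval h (hpart N (SS μ f)) = μ ((Dh h)^[N] f) := by
  rw [eval_hp]
  have h1 : ∀ n, ∀ f, (Dh h)^[n] (SS μ f) = SS μ ((Dh h)^[n] f) := by
    intro n
    induction n with
    | zero => exact fun _ => rfl
    | succ n ih =>
      intro f
      rw [Function.iterate_succ_apply, Function.iterate_succ_apply, Dh_SS, ih]
  rw [h1, constantCoeff_SS]

theorem Ha_mem_pow (P : Ideal (OO σ)) {k : ℕ} {f : OO σ} (hf : f ∈ P ^ k) :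
    ∀ (n : ℕ) (α : σ →₀ ℕ), α.degree = n → Ha α f ∈ P ^ (k - n) := by
  intro n
  induction n with
  | zero =>
    intro α hα
    rw [Finsupp.degree_eq_zero_iff] at hα
    rw [hα, Ha_zero, Nat.sub_zero]
    exact hf
  | succ n ih =>
    intro α hα
    obtain ⟨i, hi⟩ : ∃ i, α i ≠ 0 := by
      by_contra hcon
      push Not at hcon
      have : α = 0 := Finsupp.ext hcon
      rw [this, map_zero] at hα
      omega
    have hs : single i 1 ≤ α := by
      rw [Finsupp.single_le_iff]
      omega
    obtain ⟨β, rfl⟩ : ∃ β, α = β + single i 1 := ⟨α - single i 1, (tsub_add_cancel_of_le hs).symm⟩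
    have hβ : β.degree = n := by
      rw [map_add, Finsupp.degree_single] at hα
      omega
    have h1 := ih β hβ
    have h2 : pderiv ℂ i (Ha β f) ∈ P ^ (k - (n + 1)) := by
      rcases Nat.eq_zero_or_pos (k - n) with h | h
      · rw [show k - (n + 1) = 0 by omega, pow_zero, Ideal.one_eq_top]
        trivial
      · obtain ⟨m, hm⟩ : ∃ m, k - n = m + 1 := ⟨k - n - 1, by omega⟩
        rw [show k - (n + 1) = m by omega]
        rw [hm] at h1
        exact deriv_pow_mem P (fun x => pderiv ℂ i x) (fun x y => map_add _ x y)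
          (fun x y => by rw [Derivation.leibniz, smul_eq_mul, smul_eq_mul]) m _ h1
    rw [pd_Ha] at h2
    have h3 : ((β i + 1 : ℕ) : ℂ) ≠ 0 := Nat.cast_ne_zero.2 (Nat.succ_ne_zero _)
    have h4 : Ha (β + single i 1) f = ((β i + 1 : ℕ) : ℂ)⁻¹ • (((β i + 1 : ℕ) : ℂ) • Ha (β + single i 1) f) := by
      rw [smul_smul, inv_mul_cancel₀ h3, one_smul]
    rw [h4, MvPowerSeries.smul_eq_C_mul]
    exact Ideal.mul_mem_left _ _ h2

/-- the ideal of the tangent cone -/
def cone (Q : Ideal (OO σ)) : Ideal (MvPolynomial σ ℂ) where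
  carrier := {p | ∀ d : ℕ, ∃ R ∈ Q, (∀ β, β.degree < d → coeff β R = 0) ∧
    ∀ β, β.degree = d → coeff β R = p.coeff β}
  zero_mem' := fun d => ⟨0, Q.zero_mem, fun β _ => by simp, fun β _ => by simp⟩
  add_mem' := by
    intro a b ha hb d
    obtain ⟨R, hR, h1, h2⟩ := ha d
    obtain ⟨S, hS, h3, h4⟩ := hb d
    refine ⟨R + S, Q.add_mem hR hS, fun β hβ => ?_, fun β hβ => ?_⟩
    · rw [map_add, h1 β hβ, h3 β hβ, add_zero]
    · rw [map_add, h2 β hβ, h4 β hβ, MvPolynomial.coeff_add]
  smul_mem' := by
    intro c x hx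
    rw [smul_eq_mul]
    induction c using MvPolynomial.induction_on with
    | C a =>
      intro d
      obtain ⟨R, hR, h1, h2⟩ := hx d
      refine ⟨C a * R, Q.mul_mem_left _ hR, fun β hβ => ?_, fun β hβ => ?_⟩
      · rw [coeff_C_mul, h1 β hβ, mul_zero]
      · rw [coeff_C_mul, h2 β hβ, MvPolynomial.coeff_C_mul]
    | add p q hp hq =>
      intro d
      obtain ⟨R, hR, h1, h2⟩ := hp d
      obtain ⟨S, hS, h3, h4⟩ := hq d
      refine ⟨R + S, Q.add_mem hR hS, fun β hβ => ?_, fun β hβ => ?_⟩
      · rw [map_add, h1 β hβ, h3 β hβ, add_zero]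
      · rw [map_add, h2 β hβ, h4 β hβ, add_mul, MvPolynomial.coeff_add]
    | mul_X p i hp =>
      intro d
      rw [show p * MvPolynomial.X i * x = MvPolynomial.X i * (p * x) by ring]
      rcases d with _ | d
      · refine ⟨0, Q.zero_mem, fun β _ => by simp, fun β hβ => ?_⟩
        rw [Finsupp.degree_eq_zero_iff] at hβ
        rw [hβ, MvPolynomial.coeff_X_mul', if_neg (by simp)]
        simp
      · obtain ⟨R, hR, h1, h2⟩ := hp d
        refine ⟨X i * R, Q.mul_mem_left _ hR, fun β hβ => ?_, fun β hβ => ?_⟩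
        · rw [X, coeff_monomial_mul]
          split_ifs with h
          · rw [one_mul]
            apply h1
            have h5 := congrArg Finsupp.degree (tsub_add_cancel_of_le h)
            rw [map_add, Finsupp.degree_single] at h5
            omega
          · rfl
        · rw [X, coeff_monomial_mul, MvPolynomial.coeff_X_mul']
          by_cases h : i ∈ β.support
          · have h' : single i 1 ≤ β := by
              rw [Finsupp.single_le_iff]
              rw [Finsupp.mem_support_iff] at h
              omega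
            rw [if_pos h', if_pos h, one_mul]
            apply h2
            have h5 := congrArg Finsupp.degree (tsub_add_cancel_of_le h')
            rw [map_add, Finsupp.degree_single] at h5
            omega
          · rw [if_neg h, if_neg]
            rw [Finsupp.single_le_iff]
            rw [Finsupp.mem_support_iff, not_not] at h
            omega

/-- The tangent cone of a prime ideal which is not maximal has a nonzero point. -/
theorem exists_point (Q : Ideal (OO σ)) [Q.IsPrime] (hQ : Q ≠ mx σ) :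
    ∃ h : σ → ℂ, h ≠ 0 ∧ ∀ p ∈ cone Q, MvPolynomial.eval h p = 0 := by
  by_contra hcon
  push Not at hcon
  apply hQ
  have hQle : Q ≤ mx σ := IsLocalRing.le_maximalIdeal (Ideal.IsPrime.ne_top inferInstance)
  -- all coordinates are in the radical
  have h1 : ∀ i : σ, ∃ k, (MvPolynomial.X i : MvPolynomial σ ℂ) ^ k ∈ cone Q := by
    intro i
    have h2 : (MvPolynomial.X i : MvPolynomial σ ℂ) ∈ (cone Q).radical := by
      rw [← MvPolynomial.vanishingIdeal_zeroLocus_eq_radical (K := ℂ), MvPolynomial.mem_vanishingIdeal_iff]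
      intro x hx
      by_cases hx0 : x = 0
      · rw [hx0]; simp
      · obtain ⟨p, hp, hne⟩ := hcon x hx0
        have h3 := MvPolynomial.mem_zeroLocus_iff.1 hx p hp
        rw [MvPolynomial.aeval_def, Algebra.algebraMap_self, MvPolynomial.eval₂_id] at h3
        exact absurd h3 hne
    exact h2
  choose k hk using h1
  set K := ∑ i, k i with hK
  have h2 : ∀ i : σ, (X i : OO σ) ^ K ∈ Q ⊔ (mx σ) ^ (K + 1) := by
    intro i
    obtain ⟨R, hR, h3, h4⟩ := hk i (k i)
    have h5 : (X i : OO σ) ^ (k i) - R ∈ (mx σ) ^ (k i + 1) := by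
      apply n1_le_pow
      rw [mem_n1]
      intro β hβ
      rw [map_sub, sub_eq_zero]
      rcases Nat.lt_or_ge β.degree (k i) with h6 | h6
      · rw [h3 β h6, coeff_X_pow, if_neg]
        rintro rfl
        rw [Finsupp.degree_single] at h6
        omega
      · rw [h4 β (by omega), coeff_X_pow, MvPolynomial.coeff_X_pow]
        by_cases h7 : β = single i (k i)
        · rw [if_pos h7, if_pos h7.symm]
        · rw [if_neg h7, if_neg (Ne.symm h7)]
    have hle : k i ≤ K := Finset.single_le_sum (f := k) (fun _ _ => Nat.zero_le _) (Finset.mem_univ i)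
    have h6 : (X i : OO σ) ^ K = X i ^ (K - k i) * R + X i ^ (K - k i) * (X i ^ (k i) - R) := by
      rw [mul_sub, ← pow_add, Nat.sub_add_cancel hle]
      ring
    rw [h6]
    refine Ideal.add_mem _ (Ideal.mem_sup_left (Q.mul_mem_left _ hR)) (Ideal.mem_sup_right ?_)
    have h7 : (X i : OO σ) ^ (K - k i) ∈ (mx σ) ^ (K - k i) :=
      Ideal.pow_mem_pow (mem_mx.2 (constantCoeff_X i)) _
    have h8 := Ideal.mul_mem_mul h7 h5
    rw [← pow_add] at h8
    rwa [show K - k i + (k i + 1) = K + 1 by omega] at h8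
  -- all elements of high degree
  set M := (Fintype.card σ) * K + 1 with hM
  have hmono : ∀ β : σ →₀ ℕ, M ≤ β.degree → (monomial β (1 : ℂ) : OO σ) ∈ Q ⊔ (mx σ) ^ (β.degree + 1) := by
    intro β hβ
    obtain ⟨i, hi⟩ : ∃ i, K ≤ β i := by
      by_contra hlt
      push Not at hlt
      have h3 : β.degree ≤ Fintype.card σ * K := by
        rw [Finsupp.degree_eq_sum]
        calc ∑ i, β i ≤ ∑ _i : σ, K := Finset.sum_le_sum fun i _ => (hlt i).le
          _ = Fintype.card σ * K := by simp
      omega
    have hs : single i K ≤ β := by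
      rw [Finsupp.single_le_iff]
      exact hi
    have h3 : (monomial β (1 : ℂ) : OO σ) = monomial (β - single i K) 1 * X i ^ K := by
      rw [X_pow_eq, monomial_mul_monomial, tsub_add_cancel_of_le hs, one_mul]
    obtain ⟨a, ha, b, hb, hab⟩ := Submodule.mem_sup.1 (h2 i)
    rw [h3, ← hab, mul_add]
    refine Ideal.add_mem _ (Ideal.mem_sup_left (Q.mul_mem_left _ ha)) (Ideal.mem_sup_right ?_)
    have h5 : (β - single i K : σ →₀ ℕ).degree + K = β.degree := by
      have h6 := congrArg Finsupp.degree (tsub_add_cancel_of_le hs)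
      rw [map_add, Finsupp.degree_single] at h6
      exact h6
    have h4 := Ideal.mul_mem_mul (n1_le_pow _ (monomial_mem (β - single i K) 1)) hb
    rw [← pow_add] at h4
    rwa [show (β - single i K : σ →₀ ℕ).degree + (K + 1) = β.degree + 1 by omega] at h4
  have hpow : ∀ (q : ℕ) (h : OO σ), h ∈ (mx σ) ^ q → h ∈ n1 q := by
    intro q
    induction q with
    | zero =>
      intro h _
      rw [mem_n1]
      intro β hβ
      omega
    | succ q ih =>
      intro h hh
      rw [pow_succ'] at hh
      refine Submodule.mul_induction_on hh ?_ ?_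
      · intro a ha b hb
        have ha' : a ∈ n1 1 := by
          rw [mem_n1]
          intro β hβ
          have : β = 0 := by
            rw [← Finsupp.degree_eq_zero_iff]
            omega
          rw [this, coeff_zero_eq_constantCoeff]
          exact mem_mx.1 ha
        have := nn_mul ha' (ih b hb)
        rwa [add_comm] at this
      · intro a b ha hb
        exact Ideal.add_mem _ ha hb
  have hnak : (mx σ) ^ M ≤ Q ⊔ mx σ • (mx σ) ^ M := by
    intro h hh
    have h3 := sub_trunc_mem (M + 1) h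
    have h4 : h = (h - ∑ β ∈ Fq σ (M + 1), coeff β h • monomial β (1 : ℂ)) +
        ∑ β ∈ Fq σ (M + 1), coeff β h • monomial β (1 : ℂ) := by ring
    rw [h4]
    have hsm : mx σ • (mx σ) ^ M = (mx σ) ^ (M + 1) := by
      rw [smul_eq_mul, ← pow_succ']
    rw [hsm]
    refine Ideal.add_mem _ (Ideal.mem_sup_right (n1_le_pow _ h3)) (Ideal.sum_mem _ fun β hβ => ?_)
    rw [mem_Fq] at hβ
    rcases Nat.lt_or_ge β.degree M with h5 | h5
    · rw [mem_n1.1 (hpow M h hh) β h5, zero_smul]
      exact Ideal.zero_mem _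
    · have h6 := hmono β h5
      have h7 : β.degree = M := by omega
      rw [h7] at h6
      rw [MvPowerSeries.smul_eq_C_mul]
      exact Ideal.mul_mem_left _ _ h6
  have hfin : (mx σ) ^ M ≤ Q :=
    Submodule.le_of_le_smul_of_le_jacobson_bot (IsNoetherian.noetherian _)
      (IsLocalRing.maximalIdeal_le_jacobson _) hnak
  exact le_antisymm hQle (Ideal.IsPrime.le_of_pow_le hfin)

/-- **The tangent directions of the stabilizer.** -/
theorem exists_direction {I P Q : Ideal (OO σ)} (hP : P ∈ I.minimalPrimes) [Q.IsPrime]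
    (hQ : Q ≠ mx σ) (hS : ∀ f ∈ I, ∀ μ ∈ Ann P, SS μ f ∈ Q) :
    ∃ h : σ → ℂ, h ≠ 0 ∧ ∀ p ∈ P, Dh h p ∈ P := by
  have hPp := hP.1.1
  obtain ⟨h, hh, hz⟩ := exists_point Q hQ
  refine ⟨h, hh, fun p hp => ?_⟩
  obtain ⟨s, hs, N, hsN⟩ := exists_mul_pow_mem hP hp
  have key : s * (Dh h p) ^ N ∈ P := by
    apply mem_of_Ann
    intro μ hμ
    have hR := hS _ hsN μ hμ
    have hord : ∀ α : σ →₀ ℕ, α.degree < N → coeff α (SS μ (s * p ^ N)) = 0 := by
      intro α hα
      rw [coeff_SS]
      apply hμ.2
      have h1 := Ha_mem_pow P (k := N) (f := s * p ^ N)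
        (Ideal.mul_mem_left _ _ (Ideal.pow_mem_pow hp N)) _ α rfl
      exact Ideal.pow_le_self (by omega) h1
    have hc : hpart N (SS μ (s * p ^ N)) ∈ cone Q := by
      intro d
      by_cases hd : d = N
      · rw [hd]
        refine ⟨_, hR, hord, fun β hβ => ?_⟩
        rw [coeff_hp, if_pos hβ]
      · refine ⟨0, Q.zero_mem, fun β _ => by simp, fun β hβ => ?_⟩
        rw [coeff_hp, if_neg (by omega)]
        simp
    have h1 := eval_hp_SS h N μ (s * p ^ N)
    rw [hz _ hc, mul_zero] at h1
    have h2 := iterate_deriv P (fun x => Dh h x) (fun x y => map_add _ x y) (Dh_mul h) hp s N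
    have h3 := hμ.2 _ h2
    rw [map_sub, ← h1, zero_sub, neg_eq_zero] at h3
    have h4 : ((N.factorial : OO σ)) * (s * (Dh h p) ^ N) =
        (N.factorial : ℂ) • (s * (Dh h p) ^ N) := by
      rw [MvPowerSeries.smul_eq_C_mul, map_natCast]
    rw [h4, map_smul, smul_eq_mul, mul_eq_zero] at h3
    rcases h3 with h3 | h3
    · exact absurd h3 (Nat.cast_ne_zero.2 (Nat.factorial_ne_zero N))
    · exact h3
  rcases hPp.mem_or_mem key with h1 | h1
  · exact absurd h1 hs
  · exact hPp.mem_of_pow_mem _ h1

end Pool.Agent.K9h14
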