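import Pool.Agent.K9h14.Z3
import Pool.Agent.W245.EB.DL

set_option autoImplicit false
set_option linter.unusedSectionVars false

/-!
# Taylor series of entire functions
-/

open MvPowerSeries Finsupp Filter Topology
open Pool.Agent.W245.EB (D DL DL_nil DL_cons DL_append analytic_D analytic_DL D_congr DL_congr
  D_comm DL_perm D_add_fun D_const_mul_fun D_mul_fun eq_zero_of_DL)

noncomputable section

namespace Pool.Agent.K9h14

variable {σ : Type} [Fintype σ] [DecidableEq σ]

/-- entire functions -/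
def Ent (σ : Type) [Fintype σ] : Subalgebra ℂ ((σ → ℂ) → ℂ) where
  carrier := {F | AnalyticOnNhd ℂ F Set.univ}
  mul_mem' := fun ha hb => AnalyticOnNhd.mul ha hb
  add_mem' := fun ha hb => AnalyticOnNhd.add ha hb
  algebraMap_mem' := fun _ _ _ => analyticAt_const

/-- the coordinate vectors -/
abbrev eV (i : σ) : σ → ℂ := Pi.single i 1

theorem ediff (F : Ent σ) (z : σ → ℂ) : DifferentiableAt ℂ F.1 z :=
  (F.2 z (Set.mem_univ _)).differentiableAt

/-- the partial derivatives -/
def pdE (i : σ) : Ent σ →ₗ[ℂ] Ent σ where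
  toFun F := ⟨D (eV i) F.1, analytic_D F.2 _⟩
  map_add' F G := by
    apply Subtype.ext
    funext z
    exact D_add_fun (ediff F z) (ediff G z) (eV i)
  map_smul' c F := by
    apply Subtype.ext
    funext z
    exact D_const_mul_fun (ediff F z) c (eV i)

theorem pdE_apply (i : σ) (F : Ent σ) (z : σ → ℂ) : (pdE i F).1 z = D (eV i) F.1 z := rfl

theorem pdE_mul (i : σ) (F G : Ent σ) : pdE i (F * G) = F * pdE i G + G * pdE i F := by
  apply Subtype.ext
  funext z
  exact D_mul_fun (ediff F z) (ediff G z) (eV i)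

/-- translations -/
def tr (q : σ → ℂ) : Ent σ →ₐ[ℂ] Ent σ where
  toFun F := ⟨fun z => F.1 (z + q), fun z _ => AnalyticAt.comp (g := F.1) (f := fun z => z + q)
    (F.2 (z + q) (Set.mem_univ _)) (analyticAt_id.add analyticAt_const)⟩
  map_one' := rfl
  map_mul' _ _ := rfl
  map_zero' := rfl
  map_add' _ _ := rfl
  commutes' _ := rfl

theorem tr_apply (q : σ → ℂ) (F : Ent σ) (z : σ → ℂ) : (tr q F).1 z = F.1 (z + q) := rfl

theorem pdE_tr (i : σ) (q : σ → ℂ) (F : Ent σ) : pdE i (tr q F) = tr q (pdE i F) := by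
  apply Subtype.ext
  funext z
  change fderiv ℂ (fun z => F.1 (z + q)) z (eV i) = fderiv ℂ F.1 (z + q) (eV i)
  rw [fderiv_comp_add_right]

/-- the list of an exponent -/
def lsE (β : σ →₀ ℕ) : List (σ → ℂ) := ((Finsupp.toMultiset β).toList).map eV

theorem lsE_zero : lsE (0 : σ →₀ ℕ) = [] := by
  unfold lsE
  rw [map_zero]
  simp

theorem lsE_add (β : σ →₀ ℕ) (i : σ) : (lsE (β + single i 1)).Perm (lsE β ++ [eV i]) := by
  unfold lsE
  have h1 : ((Finsupp.toMultiset (β + single i 1)).toList).Perm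
      ((Finsupp.toMultiset β).toList ++ [i]) := by
    rw [← Multiset.coe_eq_coe, ← Multiset.coe_add, Multiset.coe_toList, Multiset.coe_toList,
      map_add, Finsupp.toMultiset_single, one_smul]
    rfl
  have h2 := h1.map (eV (σ := σ))
  rwa [List.map_append] at h2

/-- the iterated derivative -/
def DE (β : σ →₀ ℕ) (F : Ent σ) : Ent σ := ⟨DL (lsE β) F.1, analytic_DL F.2 _⟩

theorem DE_zero (F : Ent σ) : DE 0 F = F := by
  apply Subtype.ext
  change DL (lsE 0) F.1 = F.1
  rw [lsE_zero]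
  rfl

theorem DE_add (β : σ →₀ ℕ) (i : σ) (F : Ent σ) : DE (β + single i 1) F = DE β (pdE i F) := by
  apply Subtype.ext
  funext z
  change DL (lsE (β + single i 1)) F.1 z = DL (lsE β) (D (eV i) F.1) z
  rw [DL_perm isOpen_univ F.2 (lsE_add β i) (Set.mem_univ z), DL_append]
  rfl

theorem DE_map_add (β : σ →₀ ℕ) (F G : Ent σ) : DE β (F + G) = DE β F + DE β G := by
  apply Subtype.ext
  have key : ∀ l : List (σ → ℂ), DL l (F + G).1 = DL l F.1 + DL l G.1 := by
    intro l
    induction l with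
    | nil => rfl
    | cons v l ih =>
      rw [DL_cons, ih]
      funext z
      exact D_add_fun ((analytic_DL F.2 l) z (Set.mem_univ _)).differentiableAt
        ((analytic_DL G.2 l) z (Set.mem_univ _)).differentiableAt v
  exact key _

theorem DE_map_smul (β : σ →₀ ℕ) (c : ℂ) (F : Ent σ) : DE β (c • F) = c • DE β F := by
  apply Subtype.ext
  have key : ∀ l : List (σ → ℂ), DL l (c • F).1 = c • DL l F.1 := by
    intro l
    induction l with
    | nil => rfl
    | cons v l ih =>
      rw [DL_cons, ih]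
      funext z
      exact D_const_mul_fun ((analytic_DL F.2 l) z (Set.mem_univ _)).differentiableAt c v
  exact key _

/-- the factorial of an exponent -/
def fac (β : σ →₀ ℕ) : ℂ := ∏ i, ((β i).factorial : ℂ)

theorem fac_ne (β : σ →₀ ℕ) : fac β ≠ 0 :=
  Finset.prod_ne_zero_iff.2 fun _ _ => Nat.cast_ne_zero.2 (Nat.factorial_ne_zero _)

theorem fac_zero : fac (0 : σ →₀ ℕ) = 1 := by simp [fac]

theorem fac_add (β : σ →₀ ℕ) (i : σ) : fac (β + single i 1) = (β i + 1) * fac β := by
  unfold fac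
  rw [← Finset.mul_prod_erase _ _ (Finset.mem_univ i),
    ← Finset.mul_prod_erase _ (fun j => ((β j).factorial : ℂ)) (Finset.mem_univ i)]
  have h1 : ∏ j ∈ Finset.univ.erase i, (((β + single i 1 : σ →₀ ℕ) j).factorial : ℂ) =
      ∏ j ∈ Finset.univ.erase i, ((β j).factorial : ℂ) := by
    refine Finset.prod_congr rfl fun j hj => ?_
    rw [Finsupp.add_apply, Finsupp.single_eq_of_ne (Finset.ne_of_mem_erase hj), add_zero]
  rw [h1, Finsupp.add_apply, Finsupp.single_eq_same, Nat.factorial_succ]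
  push_cast
  ring

/-- the Taylor series at a point, as a linear map -/
def tayL (p : σ → ℂ) : Ent σ →ₗ[ℂ] OO σ where
  toFun F := fun β => (fac β)⁻¹ * (DE β F).1 p
  map_add' F G := by
    ext β
    change (fac β)⁻¹ * (DE β (F + G)).1 p = (fac β)⁻¹ * (DE β F).1 p + (fac β)⁻¹ * (DE β G).1 p
    rw [DE_map_add, ← mul_add]
    rfl
  map_smul' c F := by
    ext β
    change (fac β)⁻¹ * (DE β (c • F)).1 p = c * ((fac β)⁻¹ * (DE β F).1 p)
    rw [DE_map_smul]
    change (fac β)⁻¹ * (c * (DE β F).1 p) = c * ((fac β)⁻¹ * (DE β F).1 p)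
    ring

theorem coeff_tayL (p : σ → ℂ) (F : Ent σ) (β : σ →₀ ℕ) :
    coeff β (tayL p F) = (fac β)⁻¹ * (DE β F).1 p := rfl

theorem pd_tayL (p : σ → ℂ) (F : Ent σ) (i : σ) :
    pderiv ℂ i (tayL p F) = tayL p (pdE i F) := by
  ext β
  rw [coeff_pderiv, coeff_tayL, coeff_tayL, DE_add, fac_add]
  have h1 : ((β i : ℂ) + 1) ≠ 0 := by
    exact_mod_cast Nat.succ_ne_zero (β i)
  field_simp

theorem constantCoeff_tayL (p : σ → ℂ) (F : Ent σ) : constantCoeff (tayL p F) = F.1 p := by
  rw [← coeff_zero_eq_constantCoeff_apply, coeff_tayL, fac_zero, inv_one, one_mul, DE_zero]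

theorem tayL_mul (p : σ → ℂ) (F G : Ent σ) : tayL p (F * G) = tayL p F * tayL p G := by
  have key := eq_zero_of_family (X := Ent σ × Ent σ)
    (fun x => tayL p (x.1 * x.2) - tayL p x.1 * tayL p x.2)
    (by
      rintro ⟨F, G⟩
      change constantCoeff (tayL p (F * G) - tayL p F * tayL p G) = 0
      rw [map_sub, map_mul constantCoeff, constantCoeff_tayL, constantCoeff_tayL,
        constantCoeff_tayL]
      change F.1 p * G.1 p - _ = 0
      ring)
    (by
      rintro i ⟨F, G⟩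
      have h1 : pderiv ℂ i (tayL p (F * G) - tayL p F * tayL p G) =
          (tayL p (F * pdE i G) - tayL p F * tayL p (pdE i G)) +
          (tayL p (pdE i F * G) - tayL p (pdE i F) * tayL p G) := by
        rw [map_sub, pd_tayL, pdE_mul, map_add, Derivation.leibniz, smul_eq_mul, smul_eq_mul,
          pd_tayL, pd_tayL, mul_comm G (pdE i F)]
        ring
      rw [h1]
      exact Submodule.add_mem _ (Submodule.subset_span ⟨(F, pdE i G), rfl⟩)
        (Submodule.subset_span ⟨(pdE i F, G), rfl⟩)) (F, G)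
  exact sub_eq_zero.1 key

theorem tayL_one (p : σ → ℂ) : tayL p (1 : Ent σ) = 1 := by
  have hD : ∀ i : σ, pdE i (1 : Ent σ) = 0 := by
    intro i
    apply Subtype.ext
    funext z
    change fderiv ℂ (fun _ => (1 : ℂ)) z (eV i) = 0
    simp
  apply pderiv.ext
  · intro i
    rw [pd_tayL, hD, map_zero, pderiv_one]
  · rw [constantCoeff_tayL, map_one]
    rfl

/-- **the Taylor series at a point** -/
def tay (p : σ → ℂ) : Ent σ →ₐ[ℂ] OO σ := AlgHom.ofLinearMap (tayL p) (tayL_one p) (tayL_mul p)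

theorem coeff_tay (p : σ → ℂ) (F : Ent σ) (β : σ →₀ ℕ) :
    coeff β (tay p F) = (fac β)⁻¹ * (DE β F).1 p := rfl

theorem pd_tay (p : σ → ℂ) (F : Ent σ) (i : σ) : pderiv ℂ i (tay p F) = tay p (pdE i F) :=
  pd_tayL p F i

theorem constantCoeff_tay (p : σ → ℂ) (F : Ent σ) : constantCoeff (tay p F) = F.1 p :=
  constantCoeff_tayL p F

theorem tay_tr (p q : σ → ℂ) (F : Ent σ) : tay p (tr q F) = tay (p + q) F := by
  have key := eq_zero_of_family (X := Ent σ) (fun F => tay p (tr q F) - tay (p + q) F)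
    (by
      intro F
      rw [map_sub, constantCoeff_tay, constantCoeff_tay, tr_apply, sub_self])
    (by
      intro i F
      have h1 : pderiv ℂ i (tay p (tr q F) - tay (p + q) F) =
          tay p (tr q (pdE i F)) - tay (p + q) (pdE i F) := by
        rw [map_sub, pd_tay, pd_tay, pdE_tr]
      rw [h1]
      exact Submodule.subset_span ⟨pdE i F, rfl⟩) F
  exact sub_eq_zero.1 key

/-- the directional derivative -/
def DhE (h : σ → ℂ) (F : Ent σ) : Ent σ := ∑ i, h i • pdE i F

theorem DhE_apply (h : σ → ℂ) (F : Ent σ) (z : σ → ℂ) : (DhE h F).1 z = D h F.1 z := by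
  have h1 : (DhE h F).1 z = ∑ i, h i * D (eV i) F.1 z := by
    unfold DhE
    rw [AddSubmonoidClass.coe_finsetSum, Finset.sum_apply]
    rfl
  rw [h1]
  have h2 : h = ∑ i, h i • (eV i : σ → ℂ) := by
    funext j
    rw [Finset.sum_apply]
    simp [eV, Pi.single_apply]
  conv_rhs => rw [D, h2, map_sum]
  exact Finset.sum_congr rfl fun i _ => by rw [map_smul]; rfl

theorem tay_DhE (p h : σ → ℂ) (F : Ent σ) : tay p (DhE h F) = Dh h (tay p F) := by
  rw [Dh_apply, DhE, map_sum]
  refine Finset.sum_congr rfl fun i _ => ?_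
  rw [map_smul, pd_tay]

theorem tay_injective {p : σ → ℂ} {F : Ent σ} (h : tay p F = 0) : F = 0 := by
  have key : ∀ l : List (σ → ℂ), ∃ G : Ent σ, G.1 = DL l F.1 ∧ tay p G = 0 := by
    intro l
    induction l with
    | nil => exact ⟨F, rfl, h⟩
    | cons v l ih =>
      obtain ⟨G, hG, h0⟩ := ih
      refine ⟨DhE v G, ?_, ?_⟩
      · funext z
        rw [DhE_apply, hG, DL_cons]
      · rw [tay_DhE, h0, map_zero]
  apply Subtype.ext
  funext z
  apply eq_zero_of_DL F.2 p
  intro l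
  obtain ⟨G, hG, h0⟩ := key l
  rw [← hG, ← constantCoeff_tay, h0, map_zero]

/-- the values of functionals on Taylor series, as functions of the point -/
def fu (μ : OO σ →ₗ[ℂ] ℂ) (F : Ent σ) (p : σ → ℂ) : ℂ := μ (tay p F)

theorem fu_eq {q : ℕ} {μ : OO σ →ₗ[ℂ] ℂ} (hμ : FinOrd q μ) (F : Ent σ) :
    fu μ F = (∑ β ∈ Fq σ q, ((fac β)⁻¹ * μ (monomial β 1)) • DE β F : Ent σ).1 := by
  funext p
  unfold fu
  rw [hμ.apply, AddSubmonoidClass.coe_finsetSum, Finset.sum_apply]
  refine Finset.sum_congr rfl fun β _ => ?_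
  rw [coeff_tay]
  change _ = ((fac β)⁻¹ * μ (monomial β 1)) * (DE β F).1 p
  ring

/-- the function `p ↦ μ (tay p F)` -/
def fuE {q : ℕ} {μ : OO σ →ₗ[ℂ] ℂ} (hμ : FinOrd q μ) (F : Ent σ) : Ent σ :=
  ⟨fu μ F, by rw [fu_eq hμ]; exact Subtype.prop _⟩

theorem fu_continuous {q : ℕ} {μ : OO σ →ₗ[ℂ] ℂ} (hμ : FinOrd q μ) (F : Ent σ) :
    Continuous (fu μ F) := by
  have h := (fuE hμ F).2
  exact continuous_iff_continuousAt.2 fun x => (h x (Set.mem_univ _)).continuousAt

theorem tay_fuE {q : ℕ} {μ : OO σ →ₗ[ℂ] ℂ} (hμ : FinOrd q μ) (F : Ent σ) (p : σ → ℂ) :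
    tay p (fuE hμ F) = SS μ (tay p F) := by
  have hpd : ∀ (i : σ) (F : Ent σ), pdE i (fuE hμ F) = fuE hμ (pdE i F) := by
    intro i F
    have h1 : ∀ F : Ent σ, fuE hμ F =
        ∑ β ∈ Fq σ q, ((fac β)⁻¹ * μ (monomial β 1)) • DE β F := fun F =>
      Subtype.ext (fu_eq hμ F)
    rw [h1, h1, map_sum]
    refine Finset.sum_congr rfl fun β _ => ?_
    rw [map_smul]
    congr 1
    rw [← DE_add]
    apply Subtype.ext
    funext z
    change D (eV i) (DL (lsE β) F.1) z = DL (lsE (β + single i 1)) F.1 z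
    have h2 : (lsE (β + single i 1)).Perm (eV i :: lsE β) :=
      (lsE_add β i).trans (List.perm_append_singleton _ _)
    rw [DL_perm isOpen_univ F.2 h2 (Set.mem_univ z), DL_cons]
  have key := eq_zero_of_family (X := Ent σ) (fun F => tay p (fuE hμ F) - SS μ (tay p F))
    (by
      intro F
      rw [map_sub, constantCoeff_tay, constantCoeff_SS]
      exact sub_self _)
    (by
      intro i F
      have h1 : pderiv ℂ i (tay p (fuE hμ F) - SS μ (tay p F)) =
          tay p (fuE hμ (pdE i F)) - SS μ (tay p (pdE i F)) := by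
        rw [map_sub, pd_tay, pd_SS, pd_tay, hpd]
      rw [h1]
      exact Submodule.subset_span ⟨pdE i F, rfl⟩) F
  exact sub_eq_zero.1 key

/-- Moving along a direction which preserves an ideal. -/
theorem tay_add_mem {P : Ideal (OO σ)} {h : σ → ℂ} (hh : ∀ f ∈ P, Dh h f ∈ P) {p : σ → ℂ}
    {F : Ent σ} (hF : tay p F ∈ P) : tay (p + h) F ∈ P := by
  apply mem_of_Ann
  rintro μ ⟨⟨q, hq⟩, hμ⟩
  -- the derivatives along the line
  have hit : ∀ k : ℕ, ∃ G : Ent σ, G.1 = DL (List.replicate k h) (fuE hq F).1 ∧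
      tay p G = (SS μ) ((Dh h)^[k] (tay p F)) := by
    intro k
    induction k with
    | zero => exact ⟨fuE hq F, rfl, tay_fuE hq F p⟩
    | succ k ih =>
      obtain ⟨G, hG, h1⟩ := ih
      refine ⟨DhE h G, ?_, ?_⟩
      · funext z
        rw [DhE_apply, hG]
        rfl
      · rw [tay_DhE, h1, Dh_SS, Function.iterate_succ_apply']
  have hPit : ∀ k : ℕ, (Dh h)^[k] (tay p F) ∈ P := by
    intro k
    induction k with
    | zero => exact hF
    | succ k ih =>
      rw [Function.iterate_succ_apply']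
      exact hh _ ih
  have h1 := Complex.hasSum_taylorSeries_of_entire
    (f := fun s : ℂ => (fuE hq F).1 (p + s • h))
    (Pool.Agent.W245.EB.differentiable_line (fuE hq F).2 p h) 0 1
  have h2 : ∀ k : ℕ, iteratedDeriv k (fun s : ℂ => (fuE hq F).1 (p + s • h)) 0 = 0 := by
    intro k
    rw [Pool.Agent.W245.EB.iteratedDeriv_line (fuE hq F).2, zero_smul, add_zero]
    obtain ⟨G, hG, h3⟩ := hit k
    rw [← hG, ← constantCoeff_tay, h3, constantCoeff_SS]
    exact hμ _ (hPit k)
  have h3 : (fun n : ℕ => ((n.factorial : ℂ)⁻¹ • (1 - 0 : ℂ) ^ n •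
      iteratedDeriv n (fun s : ℂ => (fuE hq F).1 (p + s • h)) 0)) = fun _ => 0 := by
    funext n
    rw [h2, smul_zero, smul_zero]
  have h4 := h1.unique (by rw [h3]; exact hasSum_zero)
  simpa [fuE, fu] using h4

end Pool.Agent.K9h14
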