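import Pool.Agent.K9h14.Z4

set_option autoImplicit false
set_option linter.unusedSectionVars false

/-!
# Hasse derivatives of products, and the symmetrized derivatives of entire functions
-/

open MvPowerSeries Finsupp Filter Topology
open Pool.Agent.W245.EB (D DL DL_perm DL_cons)

noncomputable section

namespace Pool.Agent.K9h14

variable {σ : Type} [Fintype σ] [DecidableEq σ]

theorem pd_Ha' (i : σ) (α : σ →₀ ℕ) (f : OO σ) : pderiv ℂ i (Ha α f) = Ha α (pderiv ℂ i f) := by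
  rw [pd_Ha, Ha_pd]

theorem Ha_comm (α β : σ →₀ ℕ) (f : OO σ) : Ha α (Ha β f) = Ha β (Ha α f) := by
  have key := eq_zero_of_family (X := OO σ) (fun f => Ha α (Ha β f) - Ha β (Ha α f))
    (by
      intro f
      rw [map_sub, constantCoeff_Ha, constantCoeff_Ha, coeff_Ha_comm, sub_self])
    (by
      intro i f
      have h1 : pderiv ℂ i (Ha α (Ha β f) - Ha β (Ha α f)) =
          Ha α (Ha β (pderiv ℂ i f)) - Ha β (Ha α (pderiv ℂ i f)) := by
        rw [map_sub, pd_Ha', pd_Ha', pd_Ha', pd_Ha']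
      rw [h1]
      exact Submodule.subset_span ⟨pderiv ℂ i f, rfl⟩) f
  exact sub_eq_zero.1 key

theorem Ha_n1 {q : ℕ} {h : OO σ} (β : σ →₀ ℕ) (hh : h ∈ n1 (q + β.degree)) : Ha β h ∈ n1 q := by
  rw [mem_n1] at hh ⊢
  intro γ hγ
  rw [coeff_Ha, hh _ (by rw [map_add]; omega), mul_zero]

theorem FinOrd.comp_Ha {q : ℕ} {μ : OO σ →ₗ[ℂ] ℂ} (hμ : FinOrd q μ) (β : σ →₀ ℕ) :
    FinOrd (q + β.degree) (μ ∘ₗ Ha β) := fun h hh => hμ _ (Ha_n1 β hh)

theorem SS_comp_Ha (μ : OO σ →ₗ[ℂ] ℂ) (β : σ →₀ ℕ) (f : OO σ) :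
    SS (μ ∘ₗ Ha β) f = SS μ (Ha β f) := by
  ext α
  rw [coeff_SS, coeff_SS, LinearMap.comp_apply, Ha_comm]

/-- the substitution `x ↦ -x` -/
def ngO : OO σ →ₗ[ℂ] OO σ where
  toFun f := fun β => (-1) ^ β.degree * coeff β f
  map_add' f g := by
    ext β
    change _ * coeff β (f + g) = _ * coeff β f + _ * coeff β g
    rw [map_add, mul_add]
  map_smul' c f := by
    ext β
    change _ * coeff β (c • f) = c * (_ * coeff β f)
    rw [map_smul, smul_eq_mul]
    ring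

theorem coeff_ngO (f : OO σ) (β : σ →₀ ℕ) : coeff β (ngO f) = (-1) ^ β.degree * coeff β f := rfl

theorem pd_ngO (i : σ) (f : OO σ) : pderiv ℂ i (ngO f) = -ngO (pderiv ℂ i f) := by
  ext β
  rw [coeff_pderiv, coeff_ngO, map_neg, coeff_ngO, coeff_pderiv, map_add, Finsupp.degree_single]
  ring

theorem constantCoeff_ngO (f : OO σ) : constantCoeff (ngO f) = constantCoeff f := by
  rw [← coeff_zero_eq_constantCoeff_apply, coeff_ngO]
  simp

/-- the reflection -/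
def ngE : Ent σ →ₐ[ℂ] Ent σ where
  toFun F := ⟨fun z => F.1 (-z), fun z _ => AnalyticAt.comp (g := F.1) (f := fun z => -z)
    (F.2 (-z) (Set.mem_univ _)) analyticAt_id.neg⟩
  map_one' := rfl
  map_mul' _ _ := rfl
  map_zero' := rfl
  map_add' _ _ := rfl
  commutes' _ := rfl

theorem ngE_apply (F : Ent σ) (z : σ → ℂ) : (ngE F).1 z = F.1 (-z) := rfl

theorem pdE_ngE (i : σ) (F : Ent σ) : pdE i (ngE F) = -ngE (pdE i F) := by
  apply Subtype.ext
  funext z
  change fderiv ℂ (fun z => F.1 (-z)) z (eV i) = -(fderiv ℂ F.1 (-z) (eV i))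
  have h1 : HasFDerivAt (fun z => F.1 (-z)) ((fderiv ℂ F.1 (-z)).comp
      (-(ContinuousLinearMap.id ℂ (σ → ℂ)))) z :=
    (ediff F (-z)).hasFDerivAt.comp z (hasFDerivAt_id z).neg
  rw [h1.fderiv]
  simp

theorem tay_ngE (F : Ent σ) : tay 0 (ngE F) = ngO (tay 0 F) := by
  have key := eq_zero_of_family (X := Ent σ) (fun F => tay 0 (ngE F) - ngO (tay 0 F))
    (by
      intro F
      rw [map_sub, constantCoeff_ngO, constantCoeff_tay, constantCoeff_tay, ngE_apply, neg_zero,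
        sub_self])
    (by
      intro i F
      have h1 : pderiv ℂ i (tay 0 (ngE F) - ngO (tay 0 F)) =
          -(tay 0 (ngE (pdE i F)) - ngO (tay 0 (pdE i F))) := by
        rw [map_sub, pd_tay, pd_ngO, pd_tay, pdE_ngE, map_neg]
        ring
      rw [h1]
      exact Submodule.neg_mem _ (Submodule.subset_span ⟨pdE i F, rfl⟩)) F
  exact sub_eq_zero.1 key

/-- `w ↦ A (x + g + w) B (x - g - w)` -/
def Kx (x g : σ → ℂ) (A B : Ent σ) : Ent σ := tr (x + g) A * ngE (tr (x - g) B)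

theorem Kx_apply (x g : σ → ℂ) (A B : Ent σ) (w : σ → ℂ) :
    (Kx x g A B).1 w = A.1 (w + (x + g)) * B.1 (-w + (x - g)) := rfl

theorem tay_Kx (x g : σ → ℂ) (A B : Ent σ) :
    tay 0 (Kx x g A B) = tay (x + g) A * ngO (tay (x - g) B) := by
  rw [Kx, map_mul, tay_ngE, tay_tr, tay_tr, zero_add, zero_add]

/-- the symmetrized derivatives -/
def RR (q : ℕ) (ν : OO σ →ₗ[ℂ] ℂ) (g : σ → ℂ) (A B : Ent σ) : Ent σ :=
  ∑ β ∈ Fq σ q, ν (monomial β 1) • ∑ p ∈ Finset.HasAntidiagonal.antidiagonal β,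
    ((fac p.1)⁻¹ * ((-1) ^ p.2.degree * (fac p.2)⁻¹)) • (tr g (DE p.1 A) * tr (-g) (DE p.2 B))

theorem RR_apply {q : ℕ} {ν : OO σ →ₗ[ℂ] ℂ} (hν : FinOrd q ν) (g : σ → ℂ) (A B : Ent σ)
    (x : σ → ℂ) : (RR q ν g A B).1 x = ν (tay 0 (Kx x g A B)) := by
  rw [hν.apply, tay_Kx, RR, AddSubmonoidClass.coe_finsetSum, Finset.sum_apply]
  refine Finset.sum_congr rfl fun β _ => ?_
  rw [coeff_mul]
  change ν (monomial β 1) * (∑ p ∈ Finset.HasAntidiagonal.antidiagonal β,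
    ((fac p.1)⁻¹ * ((-1) ^ p.2.degree * (fac p.2)⁻¹)) •
      (tr g (DE p.1 A) * tr (-g) (DE p.2 B)) : Ent σ).1 x = _
  rw [AddSubmonoidClass.coe_finsetSum, Finset.sum_apply, mul_comm]
  congr 1
  refine Finset.sum_congr rfl fun p _ => ?_
  rw [coeff_tay, coeff_ngO, coeff_tay]
  change ((fac p.1)⁻¹ * ((-1) ^ p.2.degree * (fac p.2)⁻¹)) *
    ((DE p.1 A).1 (x + g) * (DE p.2 B).1 (x + -g)) = _
  rw [← sub_eq_add_neg]
  ring

theorem pdE_DE (i : σ) (β : σ →₀ ℕ) (F : Ent σ) : pdE i (DE β F) = DE β (pdE i F) := by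
  rw [← DE_add]
  apply Subtype.ext
  funext z
  change D (eV i) (DL (lsE β) F.1) z = DL (lsE (β + single i 1)) F.1 z
  have h2 : (lsE (β + single i 1)).Perm (eV i :: lsE β) :=
    (lsE_add β i).trans (List.perm_append_singleton _ _)
  rw [DL_perm isOpen_univ F.2 h2 (Set.mem_univ z), DL_cons]

theorem pdE_RR (q : ℕ) (ν : OO σ →ₗ[ℂ] ℂ) (g : σ → ℂ) (A B : Ent σ) (i : σ) :
    pdE i (RR q ν g A B) = RR q ν g (pdE i A) B + RR q ν g A (pdE i B) := by
  unfold RR
  rw [map_sum, ← Finset.sum_add_distrib]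
  refine Finset.sum_congr rfl fun β _ => ?_
  rw [map_smul, map_sum, ← smul_add, ← Finset.sum_add_distrib]
  congr 1
  refine Finset.sum_congr rfl fun p _ => ?_
  rw [map_smul, ← smul_add, pdE_mul, pdE_tr, pdE_tr, pdE_DE, pdE_DE]
  congr 1
  ring

theorem RR_zero_left (q : ℕ) (ν : OO σ →ₗ[ℂ] ℂ) (g : σ → ℂ) (B : Ent σ) :
    RR q ν g 0 B = 0 := by
  have h1 : ∀ β : σ →₀ ℕ, DE β (0 : Ent σ) = 0 := fun β => by
    have := DE_map_smul β 0 (0 : Ent σ)
    rwa [zero_smul, zero_smul] at this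
  unfold RR
  refine Finset.sum_eq_zero fun β _ => ?_
  rw [Finset.sum_eq_zero, smul_zero]
  intro p _
  rw [h1, map_zero, zero_mul, smul_zero]

theorem RR_zero_right (q : ℕ) (ν : OO σ →ₗ[ℂ] ℂ) (g : σ → ℂ) (A : Ent σ) :
    RR q ν g A 0 = 0 := by
  have h1 : ∀ β : σ →₀ ℕ, DE β (0 : Ent σ) = 0 := fun β => by
    have := DE_map_smul β 0 (0 : Ent σ)
    rwa [zero_smul, zero_smul] at this
  unfold RR
  refine Finset.sum_eq_zero fun β _ => ?_
  rw [Finset.sum_eq_zero, smul_zero]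
  intro p _
  rw [h1, map_zero, mul_zero, smul_zero]

/-- the Taylor series of the symmetrized derivatives -/
theorem tay_RR {q : ℕ} {ν : OO σ →ₗ[ℂ] ℂ} (hν : FinOrd q ν) (g p : σ → ℂ) (A B : Ent σ) :
    tay p (RR q ν g A B) = ∑ γ ∈ Fq σ q,
      ((-1 : ℂ) ^ γ.degree • Ha γ (tay (p - g) B)) * SS (mm (monomial γ 1) ν) (tay (p + g) A) := by
  have key := eq_zero_of_family (X := Ent σ × Ent σ)
    (fun x => tay p (RR q ν g x.1 x.2) - ∑ γ ∈ Fq σ q,
      ((-1 : ℂ) ^ γ.degree • Ha γ (tay (p - g) x.2)) *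
        SS (mm (monomial γ 1) ν) (tay (p + g) x.1))
    (by
      rintro ⟨A, B⟩
      rw [map_sub, constantCoeff_tay, RR_apply hν, tay_Kx, mul_comm, hν.mul, map_sum, sub_eq_zero]
      refine Finset.sum_congr rfl fun γ _ => ?_
      rw [coeff_ngO, map_mul, constantCoeff_SS, MvPowerSeries.smul_eq_C_mul, map_mul,
        constantCoeff_C, constantCoeff_Ha])
    (by
      rintro i ⟨A, B⟩
      have h1 : pderiv ℂ i (tay p (RR q ν g A B) - ∑ γ ∈ Fq σ q,
          ((-1 : ℂ) ^ γ.degree • Ha γ (tay (p - g) B)) *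
            SS (mm (monomial γ 1) ν) (tay (p + g) A)) =
          (tay p (RR q ν g (pdE i A) B) - ∑ γ ∈ Fq σ q,
            ((-1 : ℂ) ^ γ.degree • Ha γ (tay (p - g) B)) *
              SS (mm (monomial γ 1) ν) (tay (p + g) (pdE i A))) +
          (tay p (RR q ν g A (pdE i B)) - ∑ γ ∈ Fq σ q,
            ((-1 : ℂ) ^ γ.degree • Ha γ (tay (p - g) (pdE i B))) *
              SS (mm (monomial γ 1) ν) (tay (p + g) A)) := by
        rw [map_sub, map_sum, pd_tay, pdE_RR, map_add]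
        have h2 : ∀ γ, pderiv ℂ i (((-1 : ℂ) ^ γ.degree • Ha γ (tay (p - g) B)) *
            SS (mm (monomial γ 1) ν) (tay (p + g) A)) =
            ((-1 : ℂ) ^ γ.degree • Ha γ (tay (p - g) B)) *
              SS (mm (monomial γ 1) ν) (tay (p + g) (pdE i A)) +
            ((-1 : ℂ) ^ γ.degree • Ha γ (tay (p - g) (pdE i B))) *
              SS (mm (monomial γ 1) ν) (tay (p + g) A) := by
          intro γ
          rw [Derivation.leibniz, smul_eq_mul, smul_eq_mul, pd_SS, Derivation.map_smul, pd_Ha',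
            pd_tay, pd_tay]
          ring
        rw [Finset.sum_congr rfl fun γ _ => h2 γ, Finset.sum_add_distrib]
        ring
      rw [h1]
      exact Submodule.add_mem _ (Submodule.subset_span ⟨(pdE i A, B), rfl⟩)
        (Submodule.subset_span ⟨(A, pdE i B), rfl⟩)) (A, B)
  exact sub_eq_zero.1 key

/-- The unit can be removed. -/
theorem SS_mem_of_RR {𝔔 : Ideal (OO σ)} {J : Ideal (OO σ)} {g p : σ → ℂ} {A B : Ent σ}
    (hB : B.1 (p - g) ≠ 0)
    (H : ∀ (q : ℕ) (ν : OO σ →ₗ[ℂ] ℂ), FinOrd q ν → ν ∈ Ann J → tay p (RR q ν g A B) ∈ 𝔔) :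
    ∀ (q : ℕ) (ν : OO σ →ₗ[ℂ] ℂ), FinOrd q ν → ν ∈ Ann J → SS ν (tay (p + g) A) ∈ 𝔔 := by
  intro q
  induction q using Nat.strong_induction_on with
  | _ q ih =>
    intro ν hν hJ
    rcases Nat.eq_zero_or_pos q with h0 | h0
    · have h1 : ν = 0 := by
        refine LinearMap.ext fun h => hν h ?_
        rw [mem_n1]
        intro β hβ
        omega
      have h2 : SS ν (tay (p + g) A) = 0 := by
        ext α
        rw [coeff_SS, h1]
        simp
      rw [h2]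
      exact 𝔔.zero_mem
    · have h1 := H q ν hν hJ
      rw [tay_RR hν, ← Finset.add_sum_erase _ _ (mem_Fq.2 (show (0 : σ →₀ ℕ).degree < q by
        rw [map_zero]; exact h0))] at h1
      have h2 : ∑ γ ∈ (Fq σ q).erase 0, ((-1 : ℂ) ^ γ.degree • Ha γ (tay (p - g) B)) *
          SS (mm (monomial γ 1) ν) (tay (p + g) A) ∈ 𝔔 := by
        refine 𝔔.sum_mem fun γ hγ => 𝔔.mul_mem_left _ ?_
        have hγ0 : γ ≠ 0 := Finset.ne_of_mem_erase hγ
        have hγ1 : γ.degree ≠ 0 := by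
          rwa [Ne, Finsupp.degree_eq_zero_iff]
        exact ih (q - γ.degree) (by omega) _ (hν.mm_monomial γ) (Ann_mm hJ _)
      have h3 : ((-1 : ℂ) ^ (0 : σ →₀ ℕ).degree • Ha 0 (tay (p - g) B)) *
          SS (mm (monomial 0 1) ν) (tay (p + g) A) ∈ 𝔔 := (𝔔.add_mem_iff_left h2).1 h1
      rw [map_zero, pow_zero, one_smul, Ha_zero] at h3
      have h4 : mm (monomial (0 : σ →₀ ℕ) (1 : ℂ)) ν = ν := by
        refine LinearMap.ext fun h => ?_
        rw [mm_apply, monomial_zero_one, one_mul]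
      rw [h4] at h3
      have hu : IsUnit (tay (p - g) B) := by
        rw [isUnit_iff_constantCoeff, constantCoeff_tay]
        exact isUnit_iff_ne_zero.2 hB
      exact (Ideal.unit_mul_mem_iff_mem 𝔔 hu).1 h3

end Pool.Agent.K9h14
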