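import Pool.Agent.K9h14.Z5
import Pool.Agent.H667R3.C1

set_option autoImplicit false
set_option linter.unusedSectionVars false

/-!
# The data, the graded spaces and the bound for the multiplicity
-/

open MvPowerSeries Finsupp Filter Topology
open Pool.Agent.W245.EB (D DL DL_perm DL_cons differentiable_line iteratedDeriv_line)

noncomputable section

namespace Pool.Agent.K9h14

/-- Schwarz lemma in one variable, for functions with many zeros -/
theorem schwarz_pt (h : ℂ → ℂ) (hh : Differentiable ℂ h) (M : Finset ℂ) (q : ℕ)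
    (hz : ∀ r ∈ M, ∀ k < q, iteratedDeriv k h r = 0) (R B : ℝ) (hR : 0 < R)
    (hM : ∀ r ∈ M, ‖r‖ ≤ R / 2) (hB : ∀ t : ℂ, ‖t‖ = R → ‖h t‖ ≤ B) (w : ℂ) (hw : ‖w‖ ≤ R) :
    ‖h w‖ ≤ (∏ r ∈ M, ‖w - r‖ ^ q) * ((2 / R) ^ (q * M.card) * B) := by
  classical
  have hord : ∀ x ∈ M, (q : ℕ∞) ≤ analyticOrderAt h x := by
    intro x hx
    rw [natCast_le_analyticOrderAt_iff_iteratedDeriv_eq_zero (hh.analyticAt x)]
    exact hz x hx
  obtain ⟨g, hg, hgz⟩ := H667R3.entire_div_finset q M h hh hord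
  have hcirc : ∀ t : ℂ, ‖t‖ = R → ‖g t‖ ≤ (2 / R) ^ (q * M.card) * B := by
    intro t ht
    have h1 : ∀ r ∈ M, R / 2 ≤ ‖t - r‖ := by
      intro r hr
      have := norm_sub_norm_le t r
      have h2 := hM r hr
      rw [ht] at this
      linarith
    have h2 : (R / 2) ^ (q * M.card) ≤ ‖∏ x ∈ M, (t - x) ^ q‖ := by
      rw [norm_prod]
      calc (R / 2) ^ (q * M.card) = ∏ _x ∈ M, (R / 2) ^ q := by
            rw [Finset.prod_const, ← pow_mul]
        _ ≤ ∏ x ∈ M, ‖(t - x) ^ q‖ := by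
            apply Finset.prod_le_prod
            · intro x _
              positivity
            · intro x hx
              rw [norm_pow]
              exact pow_le_pow_left₀ (by positivity) (h1 x hx) q
    have h4 : ‖∏ x ∈ M, (t - x) ^ q‖ * ‖g t‖ ≤ B := by
      rw [← norm_mul, ← hgz]
      exact hB t ht
    have hgn := norm_nonneg (g t)
    have h5 : (R / 2) ^ (q * M.card) * ‖g t‖ ≤ B := (mul_le_mul_of_nonneg_right h2 hgn).trans h4
    have h6 : (2 / R) ^ (q * M.card) * (R / 2) ^ (q * M.card) = 1 := by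
      rw [← mul_pow]
      have : 2 / R * (R / 2) = 1 := by field_simp
      rw [this, one_pow]
    calc ‖g t‖ = (2 / R) ^ (q * M.card) * ((R / 2) ^ (q * M.card) * ‖g t‖) := by
          rw [← mul_assoc, h6, one_mul]
      _ ≤ (2 / R) ^ (q * M.card) * B := mul_le_mul_of_nonneg_left h5 (by positivity)
  have hg0 : ‖g w‖ ≤ (2 / R) ^ (q * M.card) * B := by
    apply Complex.norm_le_of_forall_mem_frontier_norm_le (U := Metric.ball (0 : ℂ) R)
      Metric.isBounded_ball hg.diffContOnCl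
    · intro z hz
      rw [frontier_ball _ hR.ne'] at hz
      exact hcirc z (by simpa using hz)
    · rw [closure_ball _ hR.ne']
      simpa using hw
  rw [hgz w, norm_mul, norm_prod]
  have h7 : ∏ x ∈ M, ‖(w - x) ^ q‖ = ∏ r ∈ M, ‖w - r‖ ^ q :=
    Finset.prod_congr rfl fun x _ => norm_pow _ _
  rw [h7]
  exact mul_le_mul_of_nonneg_left hg0 (Finset.prod_nonneg fun _ _ => pow_nonneg (norm_nonneg _) _)

/-- A group of periods, theta functions and a quasi-periodic function. -/
structure ZD (g : ℕ) where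
  L : AddSubgroup (Fin g → ℂ)
  fin : ∀ R : ℝ, {l : Fin g → ℂ | l ∈ L ∧ ‖l‖ ≤ R}.Finite
  R0 : ℝ
  R0_pos : 0 < R0
  coc : ∀ z, ∃ l ∈ L, ‖z - l‖ ≤ R0
  κ : (Fin g → ℂ) → ℂ
  κ_add : ∀ l ∈ L, ∀ l' ∈ L, κ (l + l') = κ l + κ l'
  ja : (Fin g → ℂ) → Fin g → ℂ
  jb : (Fin g → ℂ) → ℂ
  V : Type
  [fV : Fintype V]
  θ0 : Ent (Fin g)
  θ : V → Ent (Fin g)
  φ : Ent (Fin g)
  qp0 : ∀ l ∈ L, ∀ z, θ0.1 (z + l) = Complex.exp (∑ k, ja l k * z k + jb l) * θ0.1 z
  qp : ∀ l ∈ L, ∀ p z, (θ p).1 (z + l) = Complex.exp (∑ k, ja l k * z k + jb l) * (θ p).1 z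
  qpφ : ∀ l ∈ L, ∀ z, φ.1 (z + l) =
    Complex.exp (∑ k, ja l k * z k + jb l) * (φ.1 z + κ l * θ0.1 z)
  one : θ0.1 0 ≠ 0
  imm : ∀ v, (∀ p, θ0.1 0 * D v (θ p).1 0 = (θ p).1 0 * D v θ0.1 0) → v = 0

attribute [instance] ZD.fV

/-- a product rule for the order in one variable -/
theorem deg_bil {M : Type*} [AddCommGroup M] [Module ℂ M] (δ : Module.End ℂ M) (X : M → M → M)
    (hX : ∀ A B, δ (X A B) = X (δ A) B + X A (δ B)) (h0l : ∀ B, X 0 B = 0) (h0r : ∀ A, X A 0 = 0) :
    ∀ n a b, a + b = n → ∀ A B, (δ ^ (a + 1)) A = 0 → (δ ^ (b + 1)) B = 0 →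
      (δ ^ (n + 1)) (X A B) = 0 := by
  intro n
  induction n with
  | zero =>
    intro a b hab A B hA hB
    have ha : a = 0 := by omega
    have hb : b = 0 := by omega
    subst ha hb
    rw [zero_add, pow_one] at hA hB ⊢
    rw [hX, hA, hB, h0l, h0r, add_zero]
  | succ n ih =>
    intro a b hab A B hA hB
    rw [pow_succ, Module.End.mul_apply, hX, map_add]
    have h1 : (δ ^ (n + 1)) (X (δ A) B) = 0 := by
      rcases a with _ | a
      · rw [zero_add, pow_one] at hA
        rw [hA, h0l, map_zero]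
      · refine ih a b (by omega) _ _ ?_ hB
        rw [← Module.End.mul_apply, ← pow_succ]
        exact hA
    have h2 : (δ ^ (n + 1)) (X A (δ B)) = 0 := by
      rcases b with _ | b
      · rw [zero_add, pow_one] at hB
        rw [hB, h0r, map_zero]
      · refine ih a b (by omega) _ _ hA ?_
        rw [← Module.End.mul_apply, ← pow_succ]
        exact hB
    rw [h1, h2, add_zero]

theorem pow_le_deg {M : Type*} [AddCommGroup M] [Module ℂ M] (δ : Module.End ℂ M) {a b : ℕ}
    (hab : a ≤ b) {A : M} (hA : (δ ^ a) A = 0) : (δ ^ b) A = 0 := by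
  rw [← Nat.sub_add_cancel hab, pow_add, Module.End.mul_apply, hA, map_zero]

variable {g : ℕ}

/-- the coordinates -/
abbrev Og (g : ℕ) : Type := Option (Fin g)

/-- the derivation with respect to the last coordinate -/
abbrev dU : Module.End ℂ (Ent (Og g)) := pdE none

/-- projection -/
def cz : (Og g → ℂ) →L[ℂ] (Fin g → ℂ) :=
  ContinuousLinearMap.pi fun k => ContinuousLinearMap.proj (some k)

theorem cz_apply (x : Og g → ℂ) (k : Fin g) : cz x k = x (some k) := rfl

/-- functions of the first coordinates -/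
def inc : Ent (Fin g) →ₐ[ℂ] Ent (Og g) where
  toFun F := ⟨fun x => F.1 (cz x), fun x _ => AnalyticAt.comp (g := F.1) (f := fun x => cz x)
    (F.2 (cz x) (Set.mem_univ _)) (cz.analyticAt x)⟩
  map_one' := rfl
  map_mul' _ _ := rfl
  map_zero' := rfl
  map_add' _ _ := rfl
  commutes' _ := rfl

theorem inc_apply (F : Ent (Fin g)) (x : Og g → ℂ) : (inc F).1 x = F.1 (cz x) := rfl

/-- the last coordinate -/
def uE : Ent (Og g) := ⟨fun x => x none, fun x _ =>
  (ContinuousLinearMap.proj none : (Og g → ℂ) →L[ℂ] ℂ).analyticAt x⟩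

theorem uE_apply (x : Og g → ℂ) : (uE (g := g)).1 x = x none := rfl

theorem dU_inc (F : Ent (Fin g)) : dU (inc F) = 0 := by
  apply Subtype.ext
  funext x
  change fderiv ℂ (fun x => F.1 (cz x)) x (eV none) = 0
  have h1 : HasFDerivAt (fun x => F.1 (cz x)) ((fderiv ℂ F.1 (cz x)).comp cz) x :=
    (ediff F (cz x)).hasFDerivAt.comp x cz.hasFDerivAt
  rw [h1.fderiv]
  have h2 : cz (eV none : Og g → ℂ) = 0 := by
    funext k
    rw [cz_apply]
    simp [eV]
  rw [ContinuousLinearMap.comp_apply, h2, map_zero]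

theorem dU_uE : dU (uE (g := g)) = 1 := by
  apply Subtype.ext
  funext x
  change fderiv ℂ (fun x : Og g → ℂ => x none) x (eV none) = 1
  have h1 : HasFDerivAt (fun x : Og g → ℂ => x none)
      (ContinuousLinearMap.proj none : (Og g → ℂ) →L[ℂ] ℂ) x :=
    (ContinuousLinearMap.proj none : (Og g → ℂ) →L[ℂ] ℂ).hasFDerivAt
  rw [h1.fderiv]
  simp [eV]

/-- restricting to a line -/
theorem pdE_pow_eq (F : Ent (Og g)) (k : ℕ) : ((dU ^ k) F).1 = DL (List.replicate k (eV none)) F.1 := by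
  induction k with
  | zero => rfl
  | succ k ih =>
    rw [pow_succ', Module.End.mul_apply]
    change D (eV none) ((dU ^ k) F).1 = _
    rw [ih]
    rfl

/-- the Taylor formula for polynomials in the last coordinate -/
theorem taylor_u {F : Ent (Og g)} {m : ℕ} (hF : (dU ^ (m + 1)) F = 0) (x : Og g → ℂ) (t : ℂ) :
    F.1 (x + t • eV none) =
      ∑ j ∈ Finset.range (m + 1), t ^ j * ((j.factorial : ℂ)⁻¹ * ((dU ^ j) F).1 x) := by
  have h1 := Complex.hasSum_taylorSeries_of_entire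
    (f := fun s : ℂ => F.1 (x + s • eV none)) (differentiable_line F.2 x (eV none)) 0 t
  have h2 : ∀ k : ℕ, iteratedDeriv k (fun s : ℂ => F.1 (x + s • eV none)) 0 =
      ((dU ^ k) F).1 x := by
    intro k
    rw [iteratedDeriv_line F.2, zero_smul, add_zero, pdE_pow_eq]
  have h3 : (fun n : ℕ => ((n.factorial : ℂ)⁻¹ • (t - 0 : ℂ) ^ n •
      iteratedDeriv n (fun s : ℂ => F.1 (x + s • eV none)) 0)) = fun n =>
      t ^ n * ((n.factorial : ℂ)⁻¹ * ((dU ^ n) F).1 x) := by
    funext n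
    rw [h2, smul_eq_mul, smul_eq_mul, sub_zero]
    ring
  rw [h3] at h1
  refine h1.unique (hasSum_sum_of_ne_finset_zero fun n hn => ?_)
  have h4 : m + 1 ≤ n := by
    by_contra hcon
    exact hn (Finset.mem_range.2 (by omega))
  rw [pow_le_deg _ h4 hF]
  change t ^ n * ((n.factorial : ℂ)⁻¹ * 0) = 0
  ring

namespace ZD

variable (d : ZD g)

/-- the lift of the periods -/
def li (l : Fin g → ℂ) : Og g → ℂ := fun o => o.elim (-d.κ l) l

@[simp] theorem li_none (l : Fin g → ℂ) : d.li l none = -d.κ l := rfl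
@[simp] theorem li_some (l : Fin g → ℂ) (k : Fin g) : d.li l (some k) = l k := rfl

theorem cz_li (l : Fin g → ℂ) : cz (d.li l) = l := rfl

/-- the factor -/
def J (l : Fin g → ℂ) (x : Og g → ℂ) : ℂ := Complex.exp (∑ k, d.ja l k * x (some k) + d.jb l)

theorem J_ne (l : Fin g → ℂ) (x : Og g → ℂ) : d.J l x ≠ 0 := Complex.exp_ne_zero _

theorem J_mul (l : Fin g → ℂ) (x c : Og g → ℂ) : d.J l (x + c) * d.J l (x - c) = d.J l x ^ 2 := by
  unfold J
  rw [← Complex.exp_add, ← Complex.exp_nat_mul]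
  congr 1
  have h1 : ∑ k, d.ja l k * (x + c) (some k) + ∑ k, d.ja l k * (x - c) (some k) =
      2 * ∑ k, d.ja l k * x (some k) := by
    rw [← Finset.sum_add_distrib, Finset.mul_sum]
    refine Finset.sum_congr rfl fun k _ => ?_
    rw [Pi.add_apply, Pi.sub_apply]
    ring
  push_cast
  linear_combination h1

/-- **the graded spaces** -/
def GG (m : ℕ) : Submodule ℂ (Ent (Og g)) where
  carrier := {F | (∀ l ∈ d.L, ∀ x, F.1 (x + d.li l) = d.J l x ^ m * F.1 x) ∧ (dU ^ (m + 1)) F = 0}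
  zero_mem' := ⟨fun l _ x => by
    change (0 : ℂ) = _ * 0
    rw [mul_zero], map_zero _⟩
  add_mem' := by
    rintro a b ⟨ha, ha'⟩ ⟨hb, hb'⟩
    refine ⟨fun l hl x => ?_, by rw [map_add, ha', hb', add_zero]⟩
    change a.1 (x + d.li l) + b.1 (x + d.li l) = _ * (a.1 x + b.1 x)
    rw [ha l hl, hb l hl, mul_add]
  smul_mem' := by
    rintro c a ⟨ha, ha'⟩
    refine ⟨fun l hl x => ?_, by rw [map_smul, ha', smul_zero]⟩
    change c * a.1 (x + d.li l) = _ * (c * a.1 x)
    rw [ha l hl]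
    ring

variable {d}

theorem mul_GG {a b : ℕ} {F G : Ent (Og g)} (hF : F ∈ d.GG a) (hG : G ∈ d.GG b) :
    F * G ∈ d.GG (a + b) := by
  refine ⟨fun l hl x => ?_, ?_⟩
  · change F.1 (x + d.li l) * G.1 (x + d.li l) = _ * (F.1 x * G.1 x)
    rw [hF.1 l hl, hG.1 l hl, pow_add]
    ring
  · exact deg_bil dU (fun A B => A * B) (fun A B => by rw [pdE_mul, add_comm]; congr 1; ring)
      (fun B => zero_mul B) (fun A => mul_zero A) _ a b rfl _ _ hF.2 hG.2

theorem one_GG : (1 : Ent (Og g)) ∈ d.GG 0 := by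
  refine ⟨fun l _ x => ?_, ?_⟩
  · rw [pow_zero, one_mul]
    rfl
  · rw [zero_add, pow_one, ← map_one inc, dU_inc]

theorem pow_GG {a : ℕ} {F : Ent (Og g)} (hF : F ∈ d.GG a) (n : ℕ) : F ^ n ∈ d.GG (a * n) := by
  induction n with
  | zero => rw [pow_zero, mul_zero]; exact one_GG
  | succ n ih =>
    rw [pow_succ, mul_add, mul_one]
    exact mul_GG ih hF

theorem dU_GG {m : ℕ} {F : Ent (Og g)} (hF : F ∈ d.GG m) : dU F ∈ d.GG m := by
  refine ⟨fun l hl x => ?_, ?_⟩
  · have h1 : tr (d.li l) F = ⟨fun x => d.J l x ^ m * F.1 x, by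
        have h2 : (fun x => d.J l x ^ m * F.1 x) = (tr (d.li l) F).1 := by
          funext x
          exact (hF.1 l hl x).symm
        rw [h2]
        exact (tr (d.li l) F).2⟩ := by
      apply Subtype.ext
      funext x
      exact hF.1 l hl x
    -- restrict to the line
    have h3 : ∀ t : ℂ, F.1 (x + d.li l + t • eV none) = d.J l x ^ m * F.1 (x + t • eV none) := by
      intro t
      have h4 := hF.1 l hl (x + t • eV none)
      rw [show x + d.li l + t • eV none = x + t • eV none + d.li l by abel, h4]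
      congr 2
      unfold J
      congr 2
      refine Finset.sum_congr rfl fun k _ => ?_
      rw [Pi.add_apply, Pi.smul_apply, eV, Pi.single_eq_of_ne (by simp), smul_zero, add_zero]
    have h5 := (Pool.Agent.W245.EB.hasDerivAt_line F.2 (x + d.li l) (eV none) 0)
    have h6 := (Pool.Agent.W245.EB.hasDerivAt_line F.2 x (eV none) 0).const_mul (d.J l x ^ m)
    have h7 : (fun s : ℂ => F.1 (x + d.li l + s • eV none)) =
        fun s : ℂ => d.J l x ^ m * F.1 (x + s • eV none) := funext h3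
    rw [h7] at h5
    have h8 := h5.unique h6
    rw [zero_smul, add_zero, add_zero] at h8
    exact h8
  · rw [← Module.End.mul_apply, ← pow_succ, pow_succ', Module.End.mul_apply, hF.2, map_zero]

theorem dU_pow_GG {m : ℕ} {F : Ent (Og g)} (hF : F ∈ d.GG m) (k : ℕ) : (dU ^ k) F ∈ d.GG m := by
  induction k with
  | zero => exact hF
  | succ k ih =>
    rw [pow_succ', Module.End.mul_apply]
    exact dU_GG ih

variable (d)

theorem T0_GG : inc d.θ0 ∈ d.GG 1 := by
  refine ⟨fun l hl x => ?_, ?_⟩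
  · rw [inc_apply, map_add, cz_li, d.qp0 l hl, pow_one]
    rfl
  · rw [pow_succ, Module.End.mul_apply, dU_inc, map_zero]

theorem T_GG (p : d.V) : inc (d.θ p) ∈ d.GG 1 := by
  refine ⟨fun l hl x => ?_, ?_⟩
  · rw [inc_apply, map_add, cz_li, d.qp l hl, pow_one]
    rfl
  · rw [pow_succ, Module.End.mul_apply, dU_inc, map_zero]

/-- the section with a nontrivial dependence on the last coordinate -/
def Psi : Ent (Og g) := uE * inc d.θ0 + inc d.φ

theorem Psi_apply (x : Og g → ℂ) : d.Psi.1 x = x none * d.θ0.1 (cz x) + d.φ.1 (cz x) := rfl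

theorem dU_Psi : dU d.Psi = inc d.θ0 := by
  unfold Psi
  rw [map_add, dU_inc, add_zero, pdE_mul]
  change uE * dU (inc d.θ0) + inc d.θ0 * dU uE = _
  rw [dU_inc, dU_uE, mul_zero, zero_add, mul_one]

theorem Psi_GG : d.Psi ∈ d.GG 1 := by
  refine ⟨fun l hl x => ?_, ?_⟩
  · rw [Psi_apply, Psi_apply, map_add, cz_li, d.qp0 l hl, d.qpφ l hl, pow_one, Pi.add_apply,
      li_none]
    have h1 : d.J l x = Complex.exp (∑ k, d.ja l k * cz x k + d.jb l) := rfl
    rw [h1]
    ring
  · rw [pow_succ, Module.End.mul_apply, dU_Psi, pow_one, dU_inc]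

/-- symmetrized derivatives are in the graded spaces -/
theorem RR_GG {m : ℕ} {A B : Ent (Og g)} (hA : A ∈ d.GG m) (hB : B ∈ d.GG m) {q : ℕ}
    {ν : OO (Og g) →ₗ[ℂ] ℂ} (hν : FinOrd q ν) (c : Og g → ℂ) : RR q ν c A B ∈ d.GG (2 * m) := by
  refine ⟨fun l hl x => ?_, ?_⟩
  · rw [RR_apply hν, RR_apply hν]
    have h1 : Kx (x + d.li l) c A B = (d.J l x ^ (2 * m)) • Kx x c A B := by
      apply Subtype.ext
      funext w
      change (Kx (x + d.li l) c A B).1 w = d.J l x ^ (2 * m) * (Kx x c A B).1 w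
      rw [Kx_apply, Kx_apply, show w + (x + d.li l + c) = (x + (c + w)) + d.li l by abel,
        show -w + (x + d.li l - c) = (x - (c + w)) + d.li l by abel, hA.1 l hl, hB.1 l hl,
        pow_mul, ← d.J_mul l x (c + w), mul_pow,
        show w + (x + c) = x + (c + w) by abel, show -w + (x - c) = x - (c + w) by abel]
      ring
    rw [h1, map_smul, map_smul, smul_eq_mul]
  · have h2 := deg_bil dU (fun A B => RR q ν c A B) (fun A B => pdE_RR q ν c A B none)
      (fun B => RR_zero_left q ν c B) (fun A => RR_zero_right q ν c A) _ m m rfl _ _ hA.2 hB.2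
    rwa [two_mul]

/-- translates of sections -/
theorem sym_GG {m : ℕ} {A B : Ent (Og g)} (hA : A ∈ d.GG m) (hB : B ∈ d.GG m) (c : Og g → ℂ) :
    tr c A * tr (-c) B ∈ d.GG (2 * m) := by
  refine ⟨fun l hl x => ?_, ?_⟩
  · change A.1 (x + d.li l + c) * B.1 (x + d.li l + -c) = _ * (A.1 (x + c) * B.1 (x + -c))
    rw [show x + d.li l + c = (x + c) + d.li l by abel,
      show x + d.li l + -c = (x - c) + d.li l by abel, hA.1 l hl, hB.1 l hl,
      pow_mul, ← d.J_mul l x c, mul_pow, sub_eq_add_neg]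
    ring
  · have key : ∀ (k : ℕ) (c : Og g → ℂ) (A : Ent (Og g)), (dU ^ k) (tr c A) = tr c ((dU ^ k) A) := by
      intro k c A
      induction k with
      | zero => rfl
      | succ k ih =>
        rw [pow_succ', Module.End.mul_apply, Module.End.mul_apply, ih]
        exact pdE_tr none c _
    have h1 : (dU ^ (m + 1)) (tr c A) = 0 := by rw [key, hA.2, map_zero]
    have h2 : (dU ^ (m + 1)) (tr (-c) B) = 0 := by rw [key, hB.2, map_zero]
    have h3 := deg_bil dU (fun A B => A * B) (fun A B => by rw [pdE_mul, add_comm]; congr 1; ring)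
      (fun B => zero_mul B) (fun A => mul_zero A) _ m m rfl _ _ h1 h2
    rwa [two_mul]

end ZD

end Pool.Agent.K9h14
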