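import Pool.Agent.K9h14.Z6

set_option autoImplicit false
set_option linter.unusedSectionVars false

/-!
# The bound for the multiplicity and for the dimension
-/

open MvPowerSeries Finsupp Filter Topology
open Pool.Agent.W245.EB (D DL DL_perm DL_cons differentiable_line iteratedDeriv_line)

noncomputable section

namespace Pool.Agent.K9h14

theorem DL_replicate_eq {σ : Type} [Fintype σ] [DecidableEq σ] (h p : σ → ℂ) (F : Ent σ) (k : ℕ) :
    DL (List.replicate k h) F.1 p = constantCoeff ((Dh h)^[k] (tay p F)) := by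
  have hit : ∀ k : ℕ, ∃ G : Ent σ, G.1 = DL (List.replicate k h) F.1 ∧
      tay p G = (Dh h)^[k] (tay p F) := by
    intro k
    induction k with
    | zero => exact ⟨F, rfl, rfl⟩
    | succ k ih =>
      obtain ⟨G, hG, h1⟩ := ih
      refine ⟨DhE h G, ?_, ?_⟩
      · funext z
        rw [DhE_apply, hG]
        rfl
      · rw [tay_DhE, h1, Function.iterate_succ_apply']
  obtain ⟨G, hG, h1⟩ := hit k
  rw [← h1, constantCoeff_tay, hG]

theorem hpart_eq_zero {σ : Type} [Fintype σ] [DecidableEq σ] {N : ℕ} {R : OO σ}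
    (h : ∀ β : σ →₀ ℕ, β.degree = N → coeff β R = 0) : hpart N R = 0 := by
  ext β
  rw [coeff_hp, MvPolynomial.coeff_zero]
  split_ifs with h1
  · exact h β h1
  · rfl

theorem card_Fq (σ : Type) [Fintype σ] (q : ℕ) : (Fq σ q).card ≤ q ^ Fintype.card σ := by
  classical
  have h1 : ∀ β ∈ Fq σ q, ∀ i, β i < q := by
    intro β hβ i
    rw [mem_Fq] at hβ
    exact (Finsupp.le_degree i β).trans_lt hβ
  calc (Fq σ q).card = Fintype.card (Fq σ q) := by simp
    _ ≤ Fintype.card (σ → Fin q) := by
        refine Fintype.card_le_of_injective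
          (fun (β : Fq σ q) i => (⟨β.1 i, h1 β.1 β.2 i⟩ : Fin q)) ?_
        intro β β' h
        apply Subtype.ext
        ext i
        have := congrFun h i
        exact Fin.mk.inj_iff.1 this
    _ = q ^ Fintype.card σ := by simp

variable {g : ℕ}

theorem exists_mult (d : ZD g) : ∃ c0 : ℕ, 0 < c0 ∧ ∀ m, ∀ F ∈ d.GG m,
    (∀ β : Og g →₀ ℕ, β.degree ≤ c0 * m → coeff β (tay 0 F) = 0) → F = 0 := by
  classical
  set FS := (d.fin (5 * d.R0)).toFinset with hFS
  have hFSmem : ∀ l, l ∈ FS ↔ l ∈ d.L ∧ ‖l‖ ≤ 5 * d.R0 := by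
    intro l
    rw [hFS, Set.Finite.mem_toFinset]
    rfl
  set K := ∑ l ∈ FS, ‖d.κ l‖ with hK
  have hK0 : 0 ≤ K := Finset.sum_nonneg fun _ _ => norm_nonneg _
  have hKl : ∀ l ∈ FS, ‖d.κ l‖ ≤ K := fun l hl =>
    Finset.single_le_sum (f := fun l => ‖d.κ l‖) (fun _ _ => norm_nonneg _) hl
  set E := ∑ l ∈ FS, (∑ k, ‖d.ja l k‖ * d.R0 + ‖d.jb l‖) with hE
  have hE0 : ∀ l, 0 ≤ ∑ k, ‖d.ja l k‖ * d.R0 + ‖d.jb l‖ := fun l =>
    add_nonneg (Finset.sum_nonneg fun k _ => mul_nonneg (norm_nonneg _) d.R0_pos.le)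
      (norm_nonneg _)
  have hEl : ∀ l ∈ FS, ∑ k, ‖d.ja l k‖ * d.R0 + ‖d.jb l‖ ≤ E := fun l hl =>
    Finset.single_le_sum (f := fun l => ∑ k, ‖d.ja l k‖ * d.R0 + ‖d.jb l‖)
      (fun l _ => hE0 l) hl
  set T := 4 + K with hT
  set Jm := Real.exp E with hJm
  obtain ⟨c, hc⟩ := pow_unbounded_of_one_lt (2 * Jm * T) (show (1 : ℝ) < 2 by norm_num)
  refine ⟨c + 1, Nat.succ_pos _, fun m F hF hz => ?_⟩
  -- the compact set
  set S0 : Set (Og g → ℂ) := {x | ‖cz x‖ ≤ d.R0 ∧ ‖x none‖ ≤ 1} with hS0
  have hclosed : IsClosed S0 := by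
    apply IsClosed.inter
    · exact isClosed_le (continuous_norm.comp cz.continuous) continuous_const
    · exact isClosed_le (continuous_norm.comp (continuous_apply none)) continuous_const
  have hbdd : Bornology.IsBounded S0 := by
    rw [isBounded_iff_forall_norm_le]
    refine ⟨max d.R0 1, fun x hx => ?_⟩
    rw [pi_norm_le_iff_of_nonneg (le_max_of_le_right zero_le_one)]
    rintro (_ | k)
    · exact hx.2.trans (le_max_right _ _)
    · exact ((norm_le_pi_norm (cz x) k).trans hx.1).trans (le_max_left _ _)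
  have hcomp : IsCompact S0 := Metric.isCompact_of_isClosed_isBounded hclosed hbdd
  have hcont : Continuous F.1 := continuous_iff_continuousAt.2 fun x =>
    (F.2 x (Set.mem_univ _)).continuousAt
  obtain ⟨x0, hx0, hmax⟩ := hcomp.exists_isMaxOn ⟨0, by
    rw [hS0, Set.mem_ofPred_eq, map_zero, norm_zero]
    exact ⟨d.R0_pos.le, by simp⟩⟩ (continuous_norm.comp hcont).continuousOn
  have hM : ∀ x ∈ S0, ‖F.1 x‖ ≤ ‖F.1 x0‖ := fun x hx => hmax hx
  set M0 := ‖F.1 x0‖ with hM0
  have hM00 : 0 ≤ M0 := norm_nonneg _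
  -- growth
  have hgrow : ∀ w : ℂ, ‖w‖ ≤ 4 → ‖F.1 (w • x0)‖ ≤ (2 * Jm * T) ^ m * M0 := by
    intro w hw
    obtain ⟨l, hl, hlR⟩ := d.coc (cz (w • x0))
    have hcz : ‖cz (w • x0)‖ ≤ 4 * d.R0 := by
      rw [map_smul, norm_smul]
      exact mul_le_mul hw hx0.1 (norm_nonneg _) (by norm_num)
    have hlFS : l ∈ FS := by
      rw [hFSmem]
      refine ⟨hl, ?_⟩
      calc ‖l‖ = ‖cz (w • x0) - (cz (w • x0) - l)‖ := by rw [sub_sub_cancel]
        _ ≤ ‖cz (w • x0)‖ + ‖cz (w • x0) - l‖ := norm_sub_le _ _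
        _ ≤ 5 * d.R0 := by linarith
    set y := w • x0 - d.li l with hy
    have hczy : cz y = cz (w • x0) - l := by rw [hy, map_sub, d.cz_li]
    have hynone : y none = w * x0 none + d.κ l := by
      rw [hy, Pi.sub_apply, d.li_none, sub_neg_eq_add, Pi.smul_apply, smul_eq_mul]
    have hyn : ‖y none‖ ≤ T := by
      rw [hynone, hT]
      refine (norm_add_le _ _).trans (add_le_add ?_ (hKl l hlFS))
      rw [norm_mul]
      have := mul_le_mul hw hx0.2 (norm_nonneg _) (by norm_num : (0 : ℝ) ≤ 4)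
      linarith
    have h1 : F.1 (w • x0) = d.J l y ^ m * F.1 y := by
      have := hF.1 l hl y
      rwa [hy, sub_add_cancel] at this
    have hJ : ‖d.J l y‖ ≤ Jm := by
      unfold ZD.J
      refine (Complex.norm_exp_le_exp_norm _).trans (Real.exp_le_exp.2 ?_)
      refine (norm_add_le _ _).trans (le_trans ?_ (hEl l hlFS))
      apply add_le_add_left
      refine (norm_sum_le _ _).trans (Finset.sum_le_sum fun k _ => ?_)
      rw [norm_mul]
      apply mul_le_mul_of_nonneg_left _ (norm_nonneg _)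
      have h2 : ‖cz y k‖ ≤ ‖cz y‖ := norm_le_pi_norm _ k
      rw [cz_apply] at h2
      refine h2.trans ?_
      rw [hczy]
      exact hlR
    -- the Taylor formula
    set x' : Og g → ℂ := y - (y none) • eV none with hx'
    have hx'y : x' + (y none) • eV none = y := by rw [hx', sub_add_cancel]
    have hczx' : cz x' = cz y := by
      rw [hx', map_sub, map_smul]
      have h2 : cz (eV none : Og g → ℂ) = 0 := by
        funext k
        rw [cz_apply]
        simp [eV]
      rw [h2, smul_zero, sub_zero]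
    have hx'n : x' none = 0 := by
      rw [hx', Pi.sub_apply, Pi.smul_apply]
      simp [eV]
    have hco : ∀ j : ℕ, ‖(j.factorial : ℂ)⁻¹ * ((dU ^ j) F).1 x'‖ ≤ M0 := by
      intro j
      have h2 := Complex.norm_iteratedDeriv_le_of_forall_mem_sphere_norm_le (c := 0) (R := 1)
        (C := M0) (f := fun s : ℂ => F.1 (x' + s • eV none)) j one_pos
        (differentiable_line F.2 x' (eV none)).diffContOnCl (by
          intro s hs
          apply hM
          rw [hS0, Set.mem_ofPred_eq]
          refine ⟨?_, ?_⟩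
          · rw [map_add, map_smul]
            have h2 : cz (eV none : Og g → ℂ) = 0 := by
              funext k
              rw [cz_apply]
              simp [eV]
            rw [h2, smul_zero, add_zero, hczx', hczy]
            exact hlR
          · rw [Pi.add_apply, hx'n, zero_add, Pi.smul_apply]
            rw [mem_sphere_zero_iff_norm] at hs
            simp [eV, hs])
      rw [iteratedDeriv_line F.2, zero_smul, add_zero, ← pdE_pow_eq, one_pow, div_one] at h2
      rw [norm_mul, norm_inv, Complex.norm_natCast]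
      have h3 : (0 : ℝ) < j.factorial := by exact_mod_cast Nat.factorial_pos j
      rw [inv_mul_le_iff₀ h3]
      exact h2
    have h2 : ‖F.1 y‖ ≤ 2 ^ m * (T ^ m * M0) := by
      rw [← hx'y, taylor_u hF.2]
      have hT1 : 1 ≤ T := by linarith
      calc ‖∑ j ∈ Finset.range (m + 1), (y none) ^ j * ((j.factorial : ℂ)⁻¹ * ((dU ^ j) F).1 x')‖
          ≤ ∑ j ∈ Finset.range (m + 1), T ^ m * M0 := by
            refine (norm_sum_le _ _).trans (Finset.sum_le_sum fun j hj => ?_)
            rw [norm_mul, norm_pow]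
            apply mul_le_mul _ (hco j) (norm_nonneg _) (by positivity)
            calc ‖y none‖ ^ j ≤ T ^ j := pow_le_pow_left₀ (norm_nonneg _) hyn j
              _ ≤ T ^ m := pow_le_pow_right₀ hT1 (by
                have := Finset.mem_range.1 hj
                omega)
        _ = (m + 1) * (T ^ m * M0) := by
            rw [Finset.sum_const, Finset.card_range, nsmul_eq_mul]
            push_cast
            ring
        _ ≤ 2 ^ m * (T ^ m * M0) := by
            apply mul_le_mul_of_nonneg_right _ (by positivity)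
            have h3 : m + 1 ≤ 2 ^ m := Nat.lt_two_pow_self
            exact_mod_cast h3
    rw [h1, norm_mul, norm_pow]
    calc ‖d.J l y‖ ^ m * ‖F.1 y‖ ≤ Jm ^ m * (2 ^ m * (T ^ m * M0)) :=
          mul_le_mul (pow_le_pow_left₀ (norm_nonneg _) hJ m) h2 (norm_nonneg _) (by positivity)
      _ = (2 * Jm * T) ^ m * M0 := by
          rw [mul_pow, mul_pow]
          ring
  -- Schwarz
  set q := (c + 1) * m + 1 with hq
  have hsch := schwarz_pt (fun s : ℂ => F.1 (0 + s • x0)) (differentiable_line F.2 0 x0) {0} q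
    (by
      intro r hr k hk
      rw [Finset.mem_singleton] at hr
      rw [hr, iteratedDeriv_line F.2, zero_smul, add_zero, DL_replicate_eq, ← eval_hp,
        hpart_eq_zero, map_zero, mul_zero]
      intro β hβ
      exact hz β (by omega)) 4 ((2 * Jm * T) ^ m * M0) (by norm_num) (by
      intro r hr
      rw [Finset.mem_singleton] at hr
      rw [hr, norm_zero]
      norm_num) (by
      intro t ht
      rw [zero_add]
      exact hgrow t ht.le) 1 (by norm_num)
  rw [zero_add, one_smul, Finset.prod_singleton, sub_zero, norm_one, one_pow, one_mul,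
    Finset.card_singleton, mul_one] at hsch
  have hM0z : M0 = 0 := by
    by_contra hne
    have hpos : 0 < M0 := lt_of_le_of_ne hM00 (Ne.symm hne)
    have h1 : (1 : ℝ) ≤ (2 / 4) ^ q * (2 * Jm * T) ^ m := by
      have h2 : 1 * M0 ≤ ((2 / 4) ^ q * (2 * Jm * T) ^ m) * M0 := by
        rw [one_mul, mul_assoc]
        exact hsch
      exact le_of_mul_le_mul_right h2 hpos
    have h2 : (2 * Jm * T) ^ m ≤ (2 ^ c) ^ m := by
      apply pow_le_pow_left₀ _ hc.le
      positivity
    have h3 : (1 : ℝ) ≤ (1 / 2) ^ q * (2 ^ c) ^ m := by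
      calc (1 : ℝ) ≤ (2 / 4) ^ q * (2 * Jm * T) ^ m := h1
        _ ≤ (2 / 4) ^ q * (2 ^ c) ^ m := mul_le_mul_of_nonneg_left h2 (by positivity)
        _ = (1 / 2) ^ q * (2 ^ c) ^ m := by norm_num
    rw [one_div, inv_pow, ← pow_mul, inv_mul_eq_div, one_le_div (by positivity)] at h3
    have h4 : q ≤ c * m := (pow_le_pow_iff_right₀ (by norm_num : (1 : ℝ) < 2)).1 h3
    rw [hq] at h4
    nlinarith
  -- the function vanishes
  have hev : F.1 =ᶠ[𝓝 0] 0 := by
    have hopen : S0 ∈ 𝓝 (0 : Og g → ℂ) := by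
      refine Filter.mem_of_superset (Metric.ball_mem_nhds (0 : Og g → ℂ)
        (lt_min d.R0_pos one_pos)) fun x hx => ?_
      rw [mem_ball_zero_iff] at hx
      refine ⟨?_, ?_⟩
      · rw [pi_norm_le_iff_of_nonneg d.R0_pos.le]
        intro k
        rw [cz_apply]
        exact (norm_le_pi_norm x (some k)).trans (hx.le.trans (min_le_left _ _))
      · exact (norm_le_pi_norm x none).trans (hx.le.trans (min_le_right _ _))
    filter_upwards [hopen] with x hx
    have := hM x hx
    rw [hM0z] at this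
    simpa using this
  apply Subtype.ext
  have h0 : AnalyticOnNhd ℂ (0 : (Og g → ℂ) → ℂ) Set.univ := fun _ _ => analyticAt_const
  exact AnalyticOnNhd.eq_of_eventuallyEq F.2 h0 hev

/-- the dimension of the graded spaces -/
theorem card_le_of_surj (d : ZD g) {c0 : ℕ} (hc0 : ∀ m, ∀ F ∈ d.GG m,
    (∀ β : Og g →₀ ℕ, β.degree ≤ c0 * m → coeff β (tay 0 F) = 0) → F = 0) (m : ℕ) {X : Type}
    [Fintype X] (Ψ : Ent (Og g) →ₗ[ℂ] (X → ℂ))
    (hΨ : ∀ v : X → ℂ, ∃ F ∈ d.GG m, Ψ F = v) : Fintype.card X ≤ (c0 * m + 1) ^ (g + 1) := by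
  classical
  let ev : d.GG m →ₗ[ℂ] (Fq (Og g) (c0 * m + 1) → ℂ) :=
    { toFun := fun F β => coeff β.1 (tay 0 F.1)
      map_add' := fun F G => by
        funext β
        change coeff β.1 (tay 0 (F.1 + G.1)) = _
        rw [map_add, map_add]
        rfl
      map_smul' := fun c F => by
        funext β
        change coeff β.1 (tay 0 (c • F.1)) = c * _
        rw [map_smul, map_smul]
        rfl }
  have hinj : Function.Injective ev := by
    rw [injective_iff_map_eq_zero]
    intro F hF
    apply Subtype.ext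
    apply hc0 m F.1 F.2
    intro β hβ
    exact congrFun hF ⟨β, mem_Fq.2 (by omega)⟩
  have hfin : Module.Finite ℂ (d.GG m) := Module.Finite.of_injective ev hinj
  have h1 : Module.finrank ℂ (d.GG m) ≤ (Fq (Og g) (c0 * m + 1)).card := by
    have := LinearMap.finrank_le_finrank_of_injective hinj
    rwa [Module.finrank_fintype_fun_eq_card, Fintype.card_coe] at this
  have hsurj : Function.Surjective (Ψ ∘ₗ (d.GG m).subtype) := by
    intro v
    obtain ⟨F, hF, hv⟩ := hΨ v
    exact ⟨⟨F, hF⟩, hv⟩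
  have h2 := LinearMap.finrank_le_finrank_of_surjective hsurj
  rw [Module.finrank_fintype_fun_eq_card] at h2
  refine h2.trans (h1.trans ((card_Fq _ _).trans ?_))
  rw [Fintype.card_option, Fintype.card_fin]

end Pool.Agent.K9h14
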