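import Pool.Agent.K9h14.Z7

set_option autoImplicit false
set_option linter.unusedSectionVars false

/-!
# Separation of jets by sections
-/

open MvPowerSeries Finsupp Filter Topology
open Pool.Agent.W245.EB (D DL DL_perm DL_cons differentiable_line iteratedDeriv_line)

noncomputable section

namespace Pool.Agent.K9h14

/-- entire functions form a domain -/
theorem ent_mul_ne {σ : Type} [Fintype σ] [DecidableEq σ] {F G : Ent σ} (hF : F ≠ 0)
    (hG : G ≠ 0) : F * G ≠ 0 := by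
  intro h
  have h1 : tay 0 F * tay 0 G = 0 := by rw [← map_mul, h, map_zero]
  rcases mul_eq_zero.1 h1 with h2 | h2
  · exact hF (tay_injective h2)
  · exact hG (tay_injective h2)

theorem ent_ne_iff {σ : Type} [Fintype σ] {F : Ent σ} : F ≠ 0 ↔ ∃ x, F.1 x ≠ 0 := by
  constructor
  · intro h
    by_contra hcon
    push Not at hcon
    exact h (Subtype.ext (funext hcon))
  · rintro ⟨x, hx⟩ rfl
    exact hx rfl

variable {g : ℕ}

/-- a finite set of points where the sections are well-behaved -/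
structure Pts (d : ZD g) where
  s : Finset (Og g → ℂ)
  ne1 : ∀ p ∈ s, d.θ0.1 (cz p) ≠ 0
  ne2 : ∀ p ∈ s, d.θ0.1 (cz p + cz p) ≠ 0
  sep : ∀ p ∈ s, ∀ p' ∈ s, p ≠ p' → ∃ (v : d.V) (w : Fin g → ℂ),
    (d.θ v).1 (cz p + w) * d.θ0.1 (cz p' + w) ≠ d.θ0.1 (cz p + w) * (d.θ v).1 (cz p' + w)

namespace Pts

variable {d : ZD g} (S : Pts d)

/-- the normalized germ -/
def nt (_ : Pts d) (m : ℕ) (p : Og g → ℂ) (F : Ent (Og g)) : OO (Og g) :=
  tay p F * ((tay p (inc d.θ0))⁻¹) ^ m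

theorem c0_ne {p : Og g → ℂ} (hp : p ∈ S.s) : constantCoeff (tay p (inc d.θ0)) ≠ 0 := by
  rw [constantCoeff_tay]
  exact S.ne1 p hp

theorem inv_mul {p : Og g → ℂ} (hp : p ∈ S.s) :
    tay p (inc d.θ0) * (tay p (inc d.θ0))⁻¹ = 1 := MvPowerSeries.mul_inv_cancel _ (S.c0_ne hp)

theorem pow_inv_mul {p : Og g → ℂ} (hp : p ∈ S.s) (m : ℕ) :
    (tay p (inc d.θ0)) ^ m * ((tay p (inc d.θ0))⁻¹) ^ m = 1 := by
  rw [← mul_pow, S.inv_mul hp, one_pow]

theorem nt_raise {p : Og g → ℂ} (hp : p ∈ S.s) (m k : ℕ) (F : Ent (Og g)) :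
    S.nt (m + k) p (F * (inc d.θ0) ^ k) = S.nt m p F := by
  unfold nt
  rw [map_mul, map_pow, pow_add]
  calc tay p F * (tay p (inc d.θ0)) ^ k *
        (((tay p (inc d.θ0))⁻¹) ^ m * ((tay p (inc d.θ0))⁻¹) ^ k)
      = tay p F * ((tay p (inc d.θ0))⁻¹) ^ m *
        ((tay p (inc d.θ0)) ^ k * ((tay p (inc d.θ0))⁻¹) ^ k) := by ring
    _ = _ := by rw [S.pow_inv_mul hp, mul_one]

theorem pow_T0 (k : ℕ) : (inc d.θ0) ^ k ∈ d.GG k := by
  have := ZD.pow_GG d.T0_GG k
  rwa [one_mul] at this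

/-- represented families of germs -/
def Rep (a : (Og g → ℂ) → OO (Og g)) : Prop := ∃ m, ∃ F ∈ d.GG m, ∀ p ∈ S.s, a p = S.nt m p F

variable {S}

theorem Rep.add {a b : (Og g → ℂ) → OO (Og g)} (ha : S.Rep a) (hb : S.Rep b) :
    S.Rep (fun p => a p + b p) := by
  obtain ⟨m, F, hF, h1⟩ := ha
  obtain ⟨n, G, hG, h2⟩ := hb
  refine ⟨m + n, F * (inc d.θ0) ^ n + G * (inc d.θ0) ^ m,
    Submodule.add_mem _ (ZD.mul_GG hF (pow_T0 n)) ?_, fun p hp => ?_⟩
  · rw [add_comm m n]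
    exact ZD.mul_GG hG (pow_T0 m)
  · have h3 : S.nt (m + n) p (F * (inc d.θ0) ^ n + G * (inc d.θ0) ^ m) =
        S.nt (m + n) p (F * (inc d.θ0) ^ n) + S.nt (n + m) p (G * (inc d.θ0) ^ m) := by
      unfold nt
      rw [map_add, add_mul, add_comm n m]
    beta_reduce
    rw [h3, S.nt_raise hp, S.nt_raise hp, h1 p hp, h2 p hp]

theorem Rep.mul {a b : (Og g → ℂ) → OO (Og g)} (ha : S.Rep a) (hb : S.Rep b) :
    S.Rep (fun p => a p * b p) := by
  obtain ⟨m, F, hF, h1⟩ := ha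
  obtain ⟨n, G, hG, h2⟩ := hb
  refine ⟨m + n, F * G, ZD.mul_GG hF hG, fun p hp => ?_⟩
  beta_reduce
  rw [h1 p hp, h2 p hp]
  unfold nt
  rw [map_mul, pow_add]
  ring

theorem Rep.const (c : ℂ) : S.Rep (fun _ => C c) := by
  refine ⟨0, c • 1, Submodule.smul_mem _ _ ZD.one_GG, fun p _ => ?_⟩
  unfold nt
  rw [map_smul, map_one, pow_zero, mul_one, MvPowerSeries.smul_eq_C_mul, mul_one]

theorem Rep.smul {a : (Og g → ℂ) → OO (Og g)} (c : ℂ) (ha : S.Rep a) :
    S.Rep (fun p => c • a p) := by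
  have := (Rep.const (S := S) c).mul ha
  simpa only [MvPowerSeries.smul_eq_C_mul] using this

theorem Rep.pow {a : (Og g → ℂ) → OO (Og g)} (ha : S.Rep a) (n : ℕ) :
    S.Rep (fun p => a p ^ n) := by
  induction n with
  | zero => simpa using Rep.const (S := S) 1
  | succ n ih =>
    have := ih.mul ha
    simpa only [pow_succ] using this

theorem Rep.sum {ι : Type*} (t : Finset ι) {a : ι → (Og g → ℂ) → OO (Og g)}
    (ha : ∀ i ∈ t, S.Rep (a i)) : S.Rep (fun p => ∑ i ∈ t, a i p) := by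
  classical
  induction t using Finset.induction_on with
  | empty => simpa using Rep.const (S := S) 0
  | insert i t hi ih =>
    have h1 := (ha i (Finset.mem_insert_self _ _)).add
      (ih fun j hj => ha j (Finset.mem_insert_of_mem hj))
    simpa only [Finset.sum_insert hi] using h1

theorem Rep.prod {ι : Type*} (t : Finset ι) {a : ι → (Og g → ℂ) → OO (Og g)}
    (ha : ∀ i ∈ t, S.Rep (a i)) : S.Rep (fun p => ∏ i ∈ t, a i p) := by
  classical
  induction t using Finset.induction_on with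
  | empty => simpa using Rep.const (S := S) 1
  | insert i t hi ih =>
    have h1 := (ha i (Finset.mem_insert_self _ _)).mul
      (ih fun j hj => ha j (Finset.mem_insert_of_mem hj))
    simpa only [Finset.prod_insert hi] using h1

theorem Rep.of {m : ℕ} {F : Ent (Og g)} (hF : F ∈ d.GG m) : S.Rep (fun p => S.nt m p F) :=
  ⟨m, F, hF, fun _ _ => rfl⟩

theorem constantCoeff_nt {p : Og g → ℂ} (m : ℕ) (F : Ent (Og g)) :
    constantCoeff (S.nt m p F) = F.1 p * ((d.θ0.1 (cz p))⁻¹) ^ m := by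
  unfold nt
  rw [map_mul, map_pow, constantCoeff_inv, constantCoeff_tay, constantCoeff_tay, inc_apply]

variable (S)

/-- the points are separated -/
theorem exists_sep {p p' : Og g → ℂ} (hp : p ∈ S.s) (hp' : p' ∈ S.s) (hne : p ≠ p') :
    ∃ a, S.Rep a ∧ constantCoeff (a p) ≠ constantCoeff (a p') := by
  obtain ⟨v, w0, hw0⟩ := S.sep p hp p' hp' hne
  -- a generic translation
  let F1 : Ent (Fin g) := tr (cz p) (d.θ v) * tr (cz p') d.θ0 - tr (cz p) d.θ0 * tr (cz p') (d.θ v)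
  let F2 : Ent (Fin g) := ngE (tr (cz p) d.θ0)
  let F3 : Ent (Fin g) := ngE (tr (cz p') d.θ0)
  have h1 : F1 ≠ 0 := by
    rw [ent_ne_iff]
    refine ⟨w0, ?_⟩
    change (d.θ v).1 (w0 + cz p) * d.θ0.1 (w0 + cz p') -
      d.θ0.1 (w0 + cz p) * (d.θ v).1 (w0 + cz p') ≠ 0
    rw [add_comm w0, add_comm w0]
    exact sub_ne_zero.2 hw0
  have h2 : F2 ≠ 0 := by
    rw [ent_ne_iff]
    refine ⟨cz p, ?_⟩
    change d.θ0.1 (-cz p + cz p) ≠ 0
    rw [neg_add_cancel]
    exact d.one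
  have h3 : F3 ≠ 0 := by
    rw [ent_ne_iff]
    refine ⟨cz p', ?_⟩
    change d.θ0.1 (-cz p' + cz p') ≠ 0
    rw [neg_add_cancel]
    exact d.one
  obtain ⟨w, hw⟩ := ent_ne_iff.1 (ent_mul_ne (ent_mul_ne h1 h2) h3)
  have hw1 : F1.1 w ≠ 0 := fun h => hw (by
    change F1.1 w * F2.1 w * F3.1 w = 0
    rw [h, zero_mul, zero_mul])
  have hw2 : F2.1 w ≠ 0 := fun h => hw (by
    change F1.1 w * F2.1 w * F3.1 w = 0
    rw [h, mul_zero, zero_mul])
  have hw3 : F3.1 w ≠ 0 := fun h => hw (by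
    change F1.1 w * F2.1 w * F3.1 w = 0
    rw [h, mul_zero])
  -- the sections
  let W : Og g → ℂ := fun o => o.elim 0 w
  have hW : cz W = w := rfl
  let s1 : Ent (Og g) := tr W (inc (d.θ v)) * tr (-W) (inc d.θ0)
  let s2 : Ent (Og g) := tr W (inc d.θ0) * tr (-W) (inc d.θ0)
  have hs1 : s1 ∈ d.GG 2 := d.sym_GG (d.T_GG v) d.T0_GG W
  have hs2 : s2 ∈ d.GG 2 := d.sym_GG d.T0_GG d.T0_GG W
  have e1 : ∀ x, s1.1 x = (d.θ v).1 (cz x + w) * d.θ0.1 (cz x - w) := by
    intro x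
    change (d.θ v).1 (cz (x + W)) * d.θ0.1 (cz (x + -W)) = _
    rw [map_add, map_add, map_neg, hW, ← sub_eq_add_neg]
  have e2 : ∀ x, s2.1 x = d.θ0.1 (cz x + w) * d.θ0.1 (cz x - w) := by
    intro x
    change d.θ0.1 (cz (x + W)) * d.θ0.1 (cz (x + -W)) = _
    rw [map_add, map_add, map_neg, hW, ← sub_eq_add_neg]
  by_contra hcon
  push Not at hcon
  have h4 := hcon _ (Rep.of (S := S) hs1)
  have h5 := hcon _ (Rep.of (S := S) hs2)
  rw [constantCoeff_nt, constantCoeff_nt] at h4 h5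
  set x := ((d.θ0.1 (cz p))⁻¹) ^ 2 with hx
  set x' := ((d.θ0.1 (cz p'))⁻¹) ^ 2 with hx'
  have hx0 : x ≠ 0 := pow_ne_zero _ (inv_ne_zero (S.ne1 p hp))
  have hx0' : x' ≠ 0 := pow_ne_zero _ (inv_ne_zero (S.ne1 p' hp'))
  have h6 : (s1.1 p * s2.1 p' - s2.1 p * s1.1 p') * (x * x') = 0 := by
    linear_combination (s2.1 p' * x') * h4 - (s1.1 p' * x') * h5
  rcases mul_eq_zero.1 h6 with h7 | h7
  · rw [e1, e1, e2, e2] at h7
    have h8 : F1.1 w * (F2.1 w * F3.1 w) = 0 := by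
      change ((d.θ v).1 (w + cz p) * d.θ0.1 (w + cz p') -
        d.θ0.1 (w + cz p) * (d.θ v).1 (w + cz p')) * (d.θ0.1 (-w + cz p) * d.θ0.1 (-w + cz p')) = 0
      rw [add_comm w, add_comm w, neg_add_eq_sub, neg_add_eq_sub]
      linear_combination h7
    exact (mul_ne_zero hw1 (mul_ne_zero hw2 hw3)) h8
  · exact (mul_ne_zero hx0 hx0') h7

/-- idempotents up to first order -/
theorem exists_idem {p : Og g → ℂ} (hp : p ∈ S.s) :
    ∃ a, S.Rep a ∧ constantCoeff (a p) = 1 ∧ ∀ p' ∈ S.s, p' ≠ p → constantCoeff (a p') = 0 := by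
  classical
  have h1 : ∀ p' ∈ S.s.erase p, ∃ a, S.Rep a ∧ constantCoeff (a p) = 1 ∧
      constantCoeff (a p') = 0 := by
    intro p' hp'
    obtain ⟨hne, hp's⟩ := Finset.mem_erase.1 hp'
    obtain ⟨a, ha, hne'⟩ := S.exists_sep hp hp's (Ne.symm hne)
    have h2 : constantCoeff (a p) - constantCoeff (a p') ≠ 0 := sub_ne_zero.2 hne'
    refine ⟨fun x => (constantCoeff (a p) - constantCoeff (a p'))⁻¹ •
      (a x + C (-constantCoeff (a p'))), (ha.add (Rep.const _)).smul _, ?_, ?_⟩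
    · beta_reduce
      rw [MvPowerSeries.smul_eq_C_mul, map_mul, map_add, constantCoeff_C, constantCoeff_C,
        ← sub_eq_add_neg, inv_mul_cancel₀ h2]
    · beta_reduce
      rw [MvPowerSeries.smul_eq_C_mul, map_mul, map_add, constantCoeff_C, constantCoeff_C,
        add_neg_cancel, mul_zero]
  choose! a ha using h1
  refine ⟨fun x => ∏ p' ∈ S.s.erase p, a p' x, Rep.prod _ fun p' hp' => (ha p' hp').1, ?_, ?_⟩
  · rw [map_prod]
    exact Finset.prod_eq_one fun p' hp' => (ha p' hp').2.1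
  · intro p' hp' hne
    rw [map_prod]
    exact Finset.prod_eq_zero (Finset.mem_erase.2 ⟨hne, hp'⟩) (ha p' (Finset.mem_erase.2 ⟨hne, hp'⟩)).2.2

theorem Dh_one {σ : Type} [Fintype σ] [DecidableEq σ] (v : σ → ℂ) : Dh v (1 : OO σ) = 0 := by
  rw [Dh_apply]
  refine Finset.sum_eq_zero fun i _ => ?_
  rw [pderiv_one, smul_zero]

theorem Dh_pow_mem {σ : Type} [Fintype σ] [DecidableEq σ] (v : σ → ℂ) {F H I : OO σ} (k : ℕ)
    (hI : H * I = 1) (h : constantCoeff (Dh v (F * I ^ k)) = 0) :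
    constantCoeff (H * Dh v F) = k * constantCoeff (F * Dh v H) := by
  have hDI : H * Dh v I + I * Dh v H = 0 := by
    rw [← Dh_mul, hI, Dh_one]
  have hpow : ∀ k : ℕ, H * Dh v (I ^ k) + (k : OO σ) * (I ^ k * Dh v H) = 0 := by
    intro k
    induction k with
    | zero => rw [pow_zero, Dh_one]; simp
    | succ k ih =>
      rw [pow_succ, Dh_mul]
      push_cast
      linear_combination I * ih + I ^ k * hDI
  have h1 := hpow k
  rw [Dh_mul] at h
  have h2 : constantCoeff (H ^ (k + 1) * (F * Dh v (I ^ k) + I ^ k * Dh v F)) = 0 := by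
    rw [map_mul, h, mul_zero]
  have h3 : H ^ (k + 1) * (F * Dh v (I ^ k) + I ^ k * Dh v F) =
      H * Dh v F - (k : OO σ) * (F * Dh v H) := by
    have h4 : H ^ k * I ^ k = 1 := by rw [← mul_pow, hI, one_pow]
    rw [pow_succ]
    linear_combination (F * H ^ k) * h1 + (H * Dh v F - (k : OO σ) * F * Dh v H) * h4
  rw [h3, map_sub, sub_eq_zero, map_mul, map_mul, map_natCast] at h2
  rw [map_mul, h2, map_mul]

/-- the sections separate the tangent vectors -/
theorem exists_imm {p : Og g → ℂ} (hp : p ∈ S.s) {v : Og g → ℂ}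
    (hv : ∀ a, S.Rep a → constantCoeff (Dh v (a p)) = 0) : v = 0 := by
  have hinv := S.inv_mul hp
  have hq : ∀ (m : ℕ) (F : Ent (Og g)), F ∈ d.GG m →
      constantCoeff (tay p (inc d.θ0) * Dh v (tay p F)) =
        m * constantCoeff (tay p F * Dh v (tay p (inc d.θ0))) := by
    intro m F hF
    have h0 := hv _ (Rep.of (S := S) hF)
    beta_reduce at h0
    rw [nt] at h0
    exact Dh_pow_mem v m hinv h0
  have hcc : ∀ (m : ℕ) (F : Ent (Og g)), F ∈ d.GG m →
      d.θ0.1 (cz p) * D v F.1 p = m * (F.1 p * D v (inc d.θ0).1 p) := by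
    intro m F hF
    have h1 := hq m F hF
    rw [map_mul, map_mul, constantCoeff_tay, constantCoeff_tay, ← tay_DhE, ← tay_DhE,
      constantCoeff_tay, constantCoeff_tay, DhE_apply, DhE_apply, inc_apply] at h1
    exact h1
  -- derivatives of functions of the first coordinates
  have hDinc : ∀ (F : Ent (Fin g)) (x : Og g → ℂ), D v (inc F).1 x = D (cz v) F.1 (cz x) := by
    intro F x
    change fderiv ℂ (fun x => F.1 (cz x)) x v = _
    have h1 : HasFDerivAt (fun x => F.1 (cz x)) ((fderiv ℂ F.1 (cz x)).comp cz) x :=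
      (ediff F (cz x)).hasFDerivAt.comp x cz.hasFDerivAt
    rw [h1.fderiv]
    rfl
  -- the tangent vector has no component in the first coordinates
  have hcz : cz v = 0 := by
    apply d.imm
    intro w
    let F1 : Ent (Og g) := tr (-p) (inc (d.θ w)) * tr (-(-p)) (inc d.θ0)
    let F2 : Ent (Og g) := tr (-p) (inc d.θ0) * tr (-(-p)) (inc d.θ0)
    have hF1 : F1 ∈ d.GG 2 := d.sym_GG (d.T_GG w) d.T0_GG (-p)
    have hF2 : F2 ∈ d.GG 2 := d.sym_GG d.T0_GG d.T0_GG (-p)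
    have h1 := hcc 2 F1 hF1
    have h2 := hcc 2 F2 hF2
    have e1 : ∀ G : Ent (Fin g), (tr (-p) (inc G) * tr (-(-p)) (inc d.θ0)).1 p =
        G.1 0 * d.θ0.1 (cz p + cz p) := by
      intro G
      change G.1 (cz (p + -p)) * d.θ0.1 (cz (p + - -p)) = _
      rw [add_neg_cancel, map_zero, neg_neg, map_add]
    have e2 : ∀ G : Ent (Fin g), D v (tr (-p) (inc G) * tr (-(-p)) (inc d.θ0)).1 p =
        G.1 0 * D (cz v) d.θ0.1 (cz p + cz p) + d.θ0.1 (cz p + cz p) * D (cz v) G.1 0 := by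
      intro G
      change D v (fun x => (tr (-p) (inc G)).1 x * (tr (-(-p)) (inc d.θ0)).1 x) p = _
      rw [Pool.Agent.W245.EB.D_mul_fun (ediff _ p) (ediff _ p)]
      have e3 : ∀ (c : Og g → ℂ) (H : Ent (Og g)), D v (tr c H).1 p = D v H.1 (p + c) := by
        intro c H
        change fderiv ℂ (fun z => H.1 (z + c)) p v = _
        rw [fderiv_comp_add_right]
        rfl
      rw [e3, e3, hDinc, hDinc]
      change (inc G).1 (p + -p) * D (cz v) d.θ0.1 (cz (p + - -p)) +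
        (inc d.θ0).1 (p + - -p) * D (cz v) G.1 (cz (p + -p)) = _
      rw [add_neg_cancel, map_zero, neg_neg, map_add, inc_apply, inc_apply, map_zero, map_add]
    rw [e1, e2] at h1 h2
    have hne2 := S.ne2 p hp
    have hne1 := S.ne1 p hp
    have h3 : (d.θ0.1 (cz p) * d.θ0.1 (cz p + cz p)) *
        (d.θ0.1 0 * D (cz v) (d.θ w).1 0 - (d.θ w).1 0 * D (cz v) d.θ0.1 0) = 0 := by
      linear_combination d.θ0.1 0 * h1 - (d.θ w).1 0 * h2
    rcases mul_eq_zero.1 h3 with h4 | h4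
    · exact absurd h4 (mul_ne_zero hne1 hne2)
    · exact sub_eq_zero.1 h4
  -- the last component
  have h1 := hcc 1 d.Psi d.Psi_GG
  have h2 : D v (inc d.θ0).1 p = 0 := by
    rw [hDinc, hcz]
    simp [Pool.Agent.W245.EB.D]
  have h3 : D v (inc d.φ).1 p = 0 := by
    rw [hDinc, hcz]
    simp [Pool.Agent.W245.EB.D]
  have h4 : D v d.Psi.1 p = v none * d.θ0.1 (cz p) := by
    have h5 : d.Psi.1 = fun x => (uE * inc d.θ0).1 x + (inc d.φ).1 x := rfl
    rw [h5, Pool.Agent.W245.EB.D_add_fun (ediff _ p) (ediff _ p), h3, add_zero]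
    change D v (fun x => (uE (g := g)).1 x * (inc d.θ0).1 x) p = _
    rw [Pool.Agent.W245.EB.D_mul_fun (ediff _ p) (ediff _ p), h2, mul_zero, zero_add, inc_apply]
    have h6 : D v (uE (g := g)).1 p = v none := by
      have h7 : HasFDerivAt (fun x : Og g → ℂ => x none)
          (ContinuousLinearMap.proj none : (Og g → ℂ) →L[ℂ] ℂ) p :=
        (ContinuousLinearMap.proj none : (Og g → ℂ) →L[ℂ] ℂ).hasFDerivAt
      change fderiv ℂ (fun x : Og g → ℂ => x none) p v = _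
      rw [h7.fderiv]
      rfl
    rw [h6]
    ring
  rw [h4, h2, mul_zero, mul_zero] at h1
  have hne1 := S.ne1 p hp
  have h8 : v none = 0 := by
    rcases mul_eq_zero.1 h1 with h9 | h9
    · exact absurd h9 hne1
    · rcases mul_eq_zero.1 h9 with h10 | h10
      · exact h10
      · exact absurd h10 hne1
  funext o
  rcases o with _ | k
  · exact h8
  · exact congrFun hcz k

end Pts

end Pool.Agent.K9h14
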