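import Pool.Agent.K9h14.Z8

set_option autoImplicit false
set_option linter.unusedSectionVars false

/-!
# Sections with prescribed jets
-/

open MvPowerSeries Finsupp Filter Topology

noncomputable section

namespace Pool.Agent.K9h14

section lead

variable {σ : Type} [Fintype σ] [DecidableEq σ]

/-- same leading form -/
def Ld (k : ℕ) (f h : OO σ) : Prop := f ∈ n1 k ∧ h ∈ n1 k ∧ f - h ∈ n1 (k + 1)

theorem Ld.mul {k l : ℕ} {f h f' h' : OO σ} (H : Ld k f h) (H' : Ld l f' h') :
    Ld (k + l) (f * f') (h * h') := by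
  refine ⟨nn_mul H.1 H'.1, nn_mul H.2.1 H'.2.1, ?_⟩
  have h1 : f * f' - h * h' = f * (f' - h') + (f - h) * h' := by ring
  rw [h1]
  refine Ideal.add_mem _ ?_ ?_
  · have := nn_mul H.1 H'.2.2
    rwa [← add_assoc] at this
  · have := nn_mul H.2.2 H'.2.1
    rwa [show k + 1 + l = k + l + 1 by ring] at this

theorem Ld.one : Ld 0 (1 : OO σ) 1 := by
  refine ⟨?_, ?_, ?_⟩
  · rw [mem_n1]; intro β hβ; omega
  · rw [mem_n1]; intro β hβ; omega
  · rw [sub_self]; exact Ideal.zero_mem _

theorem Ld.pow {k : ℕ} {f h : OO σ} (H : Ld k f h) (n : ℕ) : Ld (k * n) (f ^ n) (h ^ n) := by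
  induction n with
  | zero => simpa using Ld.one
  | succ n ih =>
    rw [pow_succ, pow_succ, mul_add, mul_one]
    exact ih.mul H

theorem Ld.prod {ι : Type*} (t : Finset ι) {k : ι → ℕ} {f h : ι → OO σ}
    (H : ∀ i ∈ t, Ld (k i) (f i) (h i)) : Ld (∑ i ∈ t, k i) (∏ i ∈ t, f i) (∏ i ∈ t, h i) := by
  classical
  induction t using Finset.induction_on with
  | empty => simpa using Ld.one
  | insert i t hi ih =>
    rw [Finset.sum_insert hi, Finset.prod_insert hi, Finset.prod_insert hi]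
    exact (H i (Finset.mem_insert_self _ _)).mul (ih fun j hj => H j (Finset.mem_insert_of_mem hj))

theorem prod_monomial {ι : Type*} (t : Finset ι) (f : ι → (σ →₀ ℕ)) :
    ∏ i ∈ t, (monomial (f i) (1 : ℂ) : OO σ) = monomial (∑ i ∈ t, f i) 1 := by
  classical
  induction t using Finset.induction_on with
  | empty => simp [monomial_zero_one]
  | insert i t hi ih =>
    rw [Finset.prod_insert hi, Finset.sum_insert hi, ih, monomial_mul_monomial, one_mul]

theorem monomial_eq_prod (β : σ →₀ ℕ) : (monomial β (1 : ℂ) : OO σ) = ∏ i, X i ^ β i := by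
  have h1 : ∀ i, (X i : OO σ) ^ β i = monomial (single i (β i)) 1 := fun i => X_pow_eq i _
  rw [Finset.prod_congr rfl fun i _ => h1 i, prod_monomial, Finsupp.univ_sum_single]

theorem n1_anti {p q : ℕ} (h : p ≤ q) : (n1 q : Ideal (OO σ)) ≤ n1 p := by
  intro f hf
  rw [mem_n1] at hf ⊢
  exact fun β hβ => hf β (hβ.trans_le h)

theorem n1_zero : (n1 0 : Ideal (OO σ)) = ⊤ := by
  rw [eq_top_iff]
  intro f _
  rw [mem_n1]
  intro β hβ
  omega

end lead

variable {g : ℕ}

namespace Pts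

variable {d : ZD g} (S : Pts d)

/-- sections with prescribed first-order terms -/
theorem exists_coord {p : Og g → ℂ} (hp : p ∈ S.s) (i : Og g) :
    ∃ a, S.Rep a ∧ a p - X i ∈ n1 2 := by
  classical
  let W : Submodule ℂ (Og g → ℂ) :=
    { carrier := {w | ∃ a, S.Rep a ∧ ∀ j, coeff (single j 1) (a p) = w j}
      zero_mem' := ⟨fun _ => C 0, Rep.const 0, fun j => by simp⟩
      add_mem' := by
        rintro w w' ⟨a, ha, h1⟩ ⟨b, hb, h2⟩
        refine ⟨_, ha.add hb, fun j => ?_⟩
        beta_reduce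
        rw [map_add, h1, h2]
        rfl
      smul_mem' := by
        rintro c w ⟨a, ha, h1⟩
        refine ⟨_, ha.smul c, fun j => ?_⟩
        beta_reduce
        rw [map_smul, h1]
        rfl }
  have hW : W = ⊤ := by
    by_contra hne
    obtain ⟨f, hf, hle⟩ := W.exists_le_ker_of_lt_top (lt_top_iff_ne_top.2 hne)
    apply hf
    have h1 : (fun j => f (Pi.single j 1)) = (0 : Og g → ℂ) := by
      apply S.exists_imm hp
      intro a ha
      have h2 : (fun j => coeff (single j 1) (a p)) ∈ W := ⟨a, ha, fun _ => rfl⟩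
      have h3 := hle h2
      rw [LinearMap.mem_ker] at h3
      rw [Dh_apply, map_sum, ← h3]
      have h4 : (fun j => coeff (single j 1) (a p)) =
          ∑ j, (coeff (single j 1) (a p)) • (Pi.single j 1 : Og g → ℂ) := by
        funext k
        rw [Finset.sum_apply]
        simp [Pi.single_apply]
      rw [h4, map_sum]
      refine Finset.sum_congr rfl fun j _ => ?_
      rw [LinearMap.map_smul f, MvPowerSeries.smul_eq_C_mul, map_mul, constantCoeff_C,
        ← coeff_zero_eq_constantCoeff_apply, coeff_pderiv, zero_add]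
      simp [mul_comm]
    refine LinearMap.pi_ext' fun j => LinearMap.ext_ring ?_
    exact congrFun h1 j
  have h2 : (Pi.single i 1 : Og g → ℂ) ∈ W := by rw [hW]; trivial
  obtain ⟨a, ha, h3⟩ := h2
  refine ⟨_, ha.add (Rep.const (-constantCoeff (a p))), ?_⟩
  beta_reduce
  rw [mem_n1]
  intro β hβ
  have h4 : β.degree = 0 ∨ β.degree = 1 := by omega
  rcases h4 with h4 | h4
  · rw [Finsupp.degree_eq_zero_iff] at h4
    rw [h4, coeff_zero_eq_constantCoeff_apply, map_sub, map_add, constantCoeff_C, add_neg_cancel,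
      constantCoeff_X, sub_zero]
  · obtain ⟨j, rfl⟩ : ∃ j, β = single j 1 := by
      obtain ⟨j, hj⟩ : ∃ j, β j ≠ 0 := by
        by_contra hcon
        push Not at hcon
        have : β = 0 := Finsupp.ext hcon
        rw [this, map_zero] at h4
        omega
      refine ⟨j, ?_⟩
      have hs : single j 1 ≤ β := by
        rw [Finsupp.single_le_iff]
        omega
      have h5 : β = (β - single j 1) + single j 1 := (tsub_add_cancel_of_le hs).symm
      have h6 := congrArg Finsupp.degree h5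
      rw [map_add, Finsupp.degree_single, h4] at h6
      have h7 : (β - single j 1).degree = 0 := by omega
      rw [Finsupp.degree_eq_zero_iff] at h7
      rw [h5, h7, zero_add]
    rw [map_sub, map_add, h3, coeff_C, if_neg (by simp), add_zero, coeff_X]
    by_cases hij : j = i
    · rw [hij, if_pos rfl, Pi.single_eq_same, sub_self]
    · rw [Pi.single_eq_of_ne hij, if_neg, sub_zero]
      intro h8
      exact hij (Finsupp.single_left_injective one_ne_zero h8)

/-- sections with prescribed jets at a point -/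
theorem exists_jet {p : Og g → ℂ} (hp : p ∈ S.s) (q : ℕ) (h : OO (Og g)) :
    ∃ a, S.Rep a ∧ a p - h ∈ n1 q := by
  classical
  have hy := fun i => S.exists_coord hp i
  choose y hy1 hy2 using hy
  have hLd : ∀ i, Ld 1 (y i p) (X i) := by
    intro i
    have hX : (X i : OO (Og g)) ∈ n1 1 := by
      rw [mem_n1]
      intro β hβ
      have : β = 0 := by
        rw [← Finsupp.degree_eq_zero_iff]
        omega
      rw [this, coeff_zero_eq_constantCoeff_apply, constantCoeff_X]
    refine ⟨?_, hX, hy2 i⟩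
    have h1 := Ideal.add_mem _ (n1_anti (show 1 ≤ 2 by norm_num) (hy2 i)) hX
    rwa [sub_add_cancel] at h1
  have hmon : ∀ β : Og g →₀ ℕ, ∏ i, (y i p) ^ β i - monomial β (1 : ℂ) ∈ n1 (β.degree + 1) := by
    intro β
    have h1 := (Ld.prod Finset.univ (fun i _ => (hLd i).pow (β i))).2.2
    have h2 : ∑ i, 1 * β i = β.degree := by
      rw [Finsupp.degree_eq_sum]
      simp
    rw [h2] at h1
    rw [monomial_eq_prod]
    exact h1
  induction q with
  | zero => exact ⟨fun _ => C 0, Rep.const 0, by rw [n1_zero]; trivial⟩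
  | succ q ih =>
    obtain ⟨a, ha, h1⟩ := ih
    set r := h - a p with hr
    have hrq : r ∈ n1 q := by
      rw [hr, ← neg_sub]
      exact Ideal.neg_mem_iff _ |>.2 h1
    refine ⟨_, ha.add (Rep.sum (S := S) (Fq (Og g) (q + 1))
      (a := fun β x => coeff β r • ∏ i, (y i x) ^ β i) fun β _ =>
        (Rep.prod Finset.univ fun i _ => (hy1 i).pow (β i)).smul _), ?_⟩
    beta_reduce
    have h2 := sub_trunc_mem (q + 1) r
    have h3 : a p + ∑ β ∈ Fq (Og g) (q + 1), coeff β r • ∏ i, (y i p) ^ β i - h =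
        -(r - ∑ β ∈ Fq (Og g) (q + 1), coeff β r • monomial β (1 : ℂ)) +
        ∑ β ∈ Fq (Og g) (q + 1), coeff β r • (∏ i, (y i p) ^ β i - monomial β (1 : ℂ)) := by
      simp only [smul_sub]
      rw [Finset.sum_sub_distrib, hr]
      ring
    rw [h3]
    refine Ideal.add_mem _ ((Ideal.neg_mem_iff _).2 h2) (Ideal.sum_mem _ fun β hβ => ?_)
    rw [mem_Fq] at hβ
    rcases Nat.lt_or_ge β.degree q with h4 | h4
    · rw [mem_n1.1 hrq β h4, zero_smul]
      exact Ideal.zero_mem _
    · have h5 : β.degree = q := by omega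
      have h6 := hmon β
      rw [h5] at h6
      rw [MvPowerSeries.smul_eq_C_mul]
      exact Ideal.mul_mem_left _ _ h6

theorem pow_mem_n1 {σ : Type} [Fintype σ] [DecidableEq σ] {f : OO σ} (hf : constantCoeff f = 0)
    (q : ℕ) : f ^ q ∈ n1 q := by
  induction q with
  | zero => rw [n1_zero]; trivial
  | succ q ih =>
    rw [pow_succ]
    refine nn_mul ih ?_
    change f ∈ n1 1
    rw [mem_n1]
    intro β hβ
    have : β = 0 := by
      rw [← Finsupp.degree_eq_zero_iff]
      omega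
    rw [this, coeff_zero_eq_constantCoeff_apply, hf]

/-- sections with prescribed jets at one point, vanishing to high order at the others -/
theorem exists_jet' {p : Og g → ℂ} (hp : p ∈ S.s) (q : ℕ) (h : OO (Og g)) :
    ∃ a, S.Rep a ∧ a p - h ∈ n1 q ∧ ∀ p' ∈ S.s, p' ≠ p → a p' ∈ n1 q := by
  obtain ⟨e, he, he1, he0⟩ := S.exists_idem hp
  have hu : constantCoeff (e p ^ q) ≠ 0 := by
    rw [map_pow, he1, one_pow]
    exact one_ne_zero
  obtain ⟨b, hb, hb1⟩ := S.exists_jet hp q (h * (e p ^ q)⁻¹)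
  refine ⟨_, hb.mul (he.pow q), ?_, fun p' hp' hne => ?_⟩
  · beta_reduce
    have h1 : b p * e p ^ q - h = (b p - h * (e p ^ q)⁻¹) * e p ^ q := by
      rw [sub_mul, mul_assoc, MvPowerSeries.inv_mul_cancel _ hu, mul_one]
    rw [h1]
    exact Ideal.mul_mem_right _ _ hb1
  · beta_reduce
    exact Ideal.mul_mem_left _ _ (pow_mem_n1 (he0 p' hp' hne) q)

/-- **sections of bounded weight with prescribed jets** -/
theorem exists_jets (q : ℕ) : ∃ K0 : ℕ, ∀ t : (Og g → ℂ) → OO (Og g), ∃ F ∈ d.GG K0,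
    ∀ p ∈ S.s, S.nt K0 p F - t p ∈ n1 q := by
  classical
  have h1 : ∀ (p : S.s) (β : Fq (Og g) q), ∃ (m : ℕ) (F : Ent (Og g)), F ∈ d.GG m ∧
      S.nt m p.1 F - monomial β.1 (1 : ℂ) ∈ n1 q ∧ ∀ p' ∈ S.s, p' ≠ p.1 → S.nt m p' F ∈ n1 q := by
    intro p β
    obtain ⟨a, ⟨m, F, hF, h1⟩, h2, h3⟩ := S.exists_jet' p.2 q (monomial β.1 (1 : ℂ))
    refine ⟨m, F, hF, ?_, fun p' hp' hne => ?_⟩
    · rw [← h1 _ p.2]
      exact h2
    · rw [← h1 _ hp']
      exact h3 _ hp' hne
  choose m F hF hF1 hF2 using h1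
  set K0 := ∑ p : S.s, ∑ β : Fq (Og g) q, m p β with hK0
  have hle : ∀ p β, m p β ≤ K0 := fun p β =>
    (Finset.single_le_sum (f := fun β => m p β) (fun _ _ => Nat.zero_le _)
      (Finset.mem_univ β)).trans
    (Finset.single_le_sum (f := fun p => ∑ β : Fq (Og g) q, m p β) (fun _ _ => Nat.zero_le _)
      (Finset.mem_univ p))
  let F' : S.s → Fq (Og g) q → Ent (Og g) := fun p β => F p β * (inc d.θ0) ^ (K0 - m p β)
  have hF' : ∀ p β, F' p β ∈ d.GG K0 := by
    intro p β
    have := ZD.mul_GG (hF p β) (pow_T0 (d := d) (K0 - m p β))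
    rwa [Nat.add_sub_cancel' (hle p β)] at this
  have hnt : ∀ p β, ∀ p' ∈ S.s, S.nt K0 p' (F' p β) = S.nt (m p β) p' (F p β) := by
    intro p β p' hp'
    have := S.nt_raise hp' (m p β) (K0 - m p β) (F p β)
    rwa [Nat.add_sub_cancel' (hle p β)] at this
  refine ⟨K0, fun t => ⟨∑ p : S.s, ∑ β : Fq (Og g) q, coeff β.1 (t p.1) • F' p β,
    Submodule.sum_mem _ fun p _ => Submodule.sum_mem _ fun β _ =>
      Submodule.smul_mem _ _ (hF' p β), fun p' hp' => ?_⟩⟩
  have hlin : S.nt K0 p' (∑ p : S.s, ∑ β : Fq (Og g) q, coeff β.1 (t p.1) • F' p β) =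
      ∑ p : S.s, ∑ β : Fq (Og g) q, coeff β.1 (t p.1) • S.nt (m p β) p' (F p β) := by
    unfold nt
    rw [map_sum, Finset.sum_mul]
    refine Finset.sum_congr rfl fun p _ => ?_
    rw [map_sum, Finset.sum_mul]
    refine Finset.sum_congr rfl fun β _ => ?_
    rw [map_smul, smul_mul_assoc]
    congr 1
    exact hnt p β p' hp'
  rw [hlin, ← Finset.add_sum_erase _ _ (Finset.mem_univ (⟨p', hp'⟩ : S.s))]
  have h2 : ∑ β : Fq (Og g) q, coeff β.1 (t p') • S.nt (m ⟨p', hp'⟩ β) p' (F ⟨p', hp'⟩ β) - t p' ∈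
      n1 q := by
    have h3 := sub_trunc_mem q (t p')
    rw [← Finset.sum_coe_sort] at h3
    have h4 : ∑ β : Fq (Og g) q, coeff β.1 (t p') • S.nt (m ⟨p', hp'⟩ β) p' (F ⟨p', hp'⟩ β) - t p' =
        -(t p' - ∑ β : Fq (Og g) q, coeff β.1 (t p') • monomial β.1 (1 : ℂ)) +
        ∑ β : Fq (Og g) q, coeff β.1 (t p') • (S.nt (m ⟨p', hp'⟩ β) p' (F ⟨p', hp'⟩ β) -
          monomial β.1 (1 : ℂ)) := by
      simp only [smul_sub]
      rw [Finset.sum_sub_distrib]
      ring
    rw [h4]
    refine Ideal.add_mem _ ((Ideal.neg_mem_iff _).2 h3) (Ideal.sum_mem _ fun β _ => ?_)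
    rw [MvPowerSeries.smul_eq_C_mul]
    exact Ideal.mul_mem_left _ _ (hF1 ⟨p', hp'⟩ β)
  rw [add_sub_right_comm]
  refine Ideal.add_mem _ h2 (Ideal.sum_mem _ fun p hp => Ideal.sum_mem _ fun β _ => ?_)
  rw [MvPowerSeries.smul_eq_C_mul]
  refine Ideal.mul_mem_left _ _ (hF2 p β p' hp' ?_)
  rintro rfl
  exact Finset.ne_of_mem_erase hp rfl

end Pts

end Pool.Agent.K9h14
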